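import Mathlib

/-!
# Uniform bases: statements of the remaining modules (two logarithms, bound for `r`, sieve)
-/

namespace Pool.Agent.Lib.MP_509488_nt.Unif

open Finset

/-- A0: the zero estimate, in the form: some square minor of the interpolation matrix is nonzero.
Rows `(k, m)`, columns `(i, j)`, entry `C(i q + j r, k) (α^i β^j)^m`. -/
def ZeroEst : Prop := ∀ K L R S α β q r : ℕ, 1 ≤ K → 1 ≤ L → 2 ≤ α → 1 ≤ β → 1 ≤ q → 1 ≤ r →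
  Nat.Coprime q r → (R ≤ r ∨ S ≤ q) → K * L ≤ R * S →
  ∃ c : Fin K × Fin L → ℕ × ℕ, (∀ a, (c a).1 < L + R ∧ (c a).2 < S) ∧
    (Matrix.of (fun a b : Fin K × Fin L =>
      ((((c b).1 * q + (c b).2 * r).choose a.1 : ℕ) : ℤ) *
        ((α : ℤ) ^ (c b).1 * (β : ℤ) ^ (c b).2) ^ (a.2 : ℕ))).det ≠ 0

/-- A1: the abstract theorem on two `l`-adic logarithms. -/
def TwoLogsAbs : Prop := ∀ l α β q r K L R S : ℕ, l.Prime → 2 ≤ α → 2 ≤ β → α ≡ 1 [MOD l] →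
  β ≡ 1 [MOD l] → 1 ≤ q → 1 ≤ r → Nat.Coprime q r → ¬ l ∣ r → 1 ≤ K → 1 ≤ L →
  (R ≤ r ∨ S ≤ q) → K * L ≤ R * S →
  (K * L).factorial * (∏ k ∈ range K, ((L + R) * q + S * r).choose k) ^ L *
    (α ^ (L + R) * β ^ S) ^ (K * (L * (L - 1) / 2)) < l ^ (K ^ 2 * (L * (L - 1) / 2)) →
  ¬ ((l : ℤ) ^ (K * L) ∣ (α : ℤ) ^ r - (β : ℤ) ^ q)

/-- A2: two `l`-adic logarithms with explicit constants. -/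
def TwoLogs : Prop := ∀ l α β q r L n : ℕ, l.Prime → 2 ≤ α → 2 ≤ β → α ≡ 1 [MOD l] →
  β ≡ 1 [MOD l] → 1 ≤ q → 1 ≤ r → Nat.Coprime q r → ¬ l ∣ r →
  10 ≤ L → 10 + 3 * Real.log (q / Real.log α + r / Real.log β) ≤ L →
  (9 * L * Real.log β + 1 ≤ r ∨ 9 * L * Real.log α + 1 ≤ q) →
  65 * (L : ℝ) ^ 2 * Real.log α * Real.log β ≤ n →
  ¬ ((l : ℤ) ^ n ∣ (α : ℤ) ^ r - (β : ℤ) ^ q)

/-- B: in a solution with `y ^ q ≤ x ^ p` and a small prime factor `l` of `x`, `r` is small. -/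
def RBound1 : Prop := ∀ E : ℕ, ∃ A N₀ : ℕ, ∀ N : ℕ, N₀ ≤ N → ∀ x y p q r l : ℕ, ∀ z e₁ e₂ : ℤ,
  1 ≤ x → x ≤ N → 2 ≤ y → y ≤ N → Nat.Coprime x y → 1 ≤ p → 1 ≤ q → r.Prime → l.Prime → l ∣ x →
  (l : ℝ) ≤ Real.log N ^ E → (e₁ = 1 ∨ e₁ = -1) → (e₂ = 1 ∨ e₂ = -1) → 2 ≤ z.natAbs →
  e₁ * (x : ℤ) ^ p + e₂ * (y : ℤ) ^ q = z ^ r → y ^ q ≤ x ^ p → (r : ℝ) ≤ Real.log N ^ A

open scoped Classical in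
/-- D: the count for one prime `r`, uniformly for `r` up to a power of `log N`. -/
def SieveR : Prop := ∀ (A : ℕ) (ε : ℝ), 0 < ε → ε ≤ 1 → ∃ N₀ : ℕ, ∀ N : ℕ, N₀ ≤ N → ∀ x r : ℕ, 1 ≤ x →
  x ≤ N → r.Prime → (r : ℝ) ≤ Real.log N ^ A → ∀ e₁ e₂ : ℤ, (e₁ = 1 ∨ e₁ = -1) →
  (e₂ = 1 ∨ e₂ = -1) →
  (((Icc 1 N).filter (fun y : ℕ => ∃ (p q : ℕ) (z : ℤ), q.Prime ∧
    e₁ * (x : ℤ) ^ p + e₂ * (y : ℤ) ^ q = z ^ r)).card : ℝ) ≤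
      N * Real.exp (-(Real.log N ^ (1 - ε)))

/-- E: the final theorem (first version). -/
def Final1 : Prop := ∀ ε : ℝ, 0 < ε → ∃ N₀ : ℕ, ∀ N : ℕ, N₀ ≤ N → ∀ x : ℕ, 1 ≤ x → x ≤ N →
  (∃ l : ℕ, l.Prime ∧ l ∣ x ∧ (l : ℝ) ≤ Real.log N ^ (1 / ε)) →
  ({y : ℕ | 2 ≤ y ∧ y ≤ N ∧ Nat.Coprime x y ∧
      (∃ l : ℕ, l.Prime ∧ l ∣ y ∧ (l : ℝ) ≤ Real.log N ^ (1 / ε)) ∧
      ∃ (p q r : ℕ) (z e₁ e₂ : ℤ), 1 ≤ p ∧ q.Prime ∧ 2 ≤ r ∧ (e₁ = 1 ∨ e₁ = -1) ∧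
        (e₂ = 1 ∨ e₂ = -1) ∧ e₁ * (x : ℤ) ^ p + e₂ * (y : ℤ) ^ q = z ^ r}.ncard : ℝ) ≤
    N * Real.exp (-(Real.log N ^ (1 - ε)))

end Pool.Agent.Lib.MP_509488_nt.Unif
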