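import Mathlib
import Pool.Agent.Lib.MP_509488_nt.Unif.Stmts2

/-!
# Uniform bases: final union bound
-/

namespace Pool.Agent.Lib.MP_509488_nt.Unif

open Finset

/-- `4 (t^(A+1) + 1) exp(-t^(1-ε/2)) ≤ exp(-t^(1-ε))` for `t` large. -/
theorem fin_real (A : ℕ) (ε : ℝ) (h0 : 0 < ε) (h1 : ε ≤ 1 / 2) :
    ∃ t₀ : ℝ, ∀ t : ℝ, t₀ ≤ t → (t ^ (A + 1) + 1) * 4 * Real.exp (-(t ^ (1 - ε / 2))) ≤
      Real.exp (-(t ^ (1 - ε))) := by
  have hb : 0 < 1 - ε / 2 := by linarith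
  -- `t^(1-ε) ≤ t^(1-ε/2)/2`, `(t^(A+1)+1) * 4 ≤ exp (t^(1-ε/2)/2)`
  have e1 : ∀ᶠ t : ℝ in Filter.atTop, 2 ≤ t ^ (ε / 2) :=
    (tendsto_rpow_atTop (by positivity)).eventually_ge_atTop 2
  have e2 : Filter.Tendsto (fun t : ℝ => t ^ (((A : ℝ) + 2) / (1 - ε / 2)) * Real.exp (-(1 / 2) * t))
      Filter.atTop (nhds 0) :=
    tendsto_rpow_mul_exp_neg_mul_atTop_nhds_zero _ _ (by norm_num)
  have e3 := e2.comp (tendsto_rpow_atTop hb)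
  have e4 : ∀ᶠ t : ℝ in Filter.atTop, (t ^ (1 - ε / 2)) ^ (((A : ℝ) + 2) / (1 - ε / 2)) *
      Real.exp (-(1 / 2) * t ^ (1 - ε / 2)) < 1 := e3.eventually_lt_const (by norm_num)
  obtain ⟨t₀, ht₀⟩ := Filter.eventually_atTop.1 (e1.and (e4.and (Filter.eventually_ge_atTop 8)))
  refine ⟨t₀, fun t ht => ?_⟩
  obtain ⟨f1, f4, f8⟩ := ht₀ t ht
  have ht0 : 0 < t := by linarith
  rw [← Real.rpow_mul ht0.le, mul_div_cancel₀ _ hb.ne'] at f4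
  have g1 : t ^ (((A : ℝ) + 2)) = t * t ^ (A + 1) := by
    rw [show ((A : ℝ) + 2) = ((A + 2 : ℕ) : ℝ) by push_cast; ring, Real.rpow_natCast]; ring
  rw [g1] at f4
  have g2 : t ^ (1 - ε) ≤ t ^ (1 - ε / 2) / 2 := by
    have : t ^ (1 - ε / 2) = t ^ (1 - ε) * t ^ (ε / 2) := by
      rw [← Real.rpow_add ht0]; congr 1; ring
    rw [this]
    have hp : 0 < t ^ (1 - ε) := Real.rpow_pos_of_pos ht0 _
    nlinarith
  have g3 : 1 ≤ t ^ (A + 1) := one_le_pow₀ (by linarith)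
  have g4 : (t ^ (A + 1) + 1) * 4 ≤ t * t ^ (A + 1) := by nlinarith
  have g5 : Real.exp (-(t ^ (1 - ε / 2))) =
      Real.exp (-(1 / 2) * t ^ (1 - ε / 2)) * Real.exp (-(t ^ (1 - ε / 2) / 2)) := by
    rw [← Real.exp_add]; congr 1; ring
  calc (t ^ (A + 1) + 1) * 4 * Real.exp (-(t ^ (1 - ε / 2)))
      ≤ t * t ^ (A + 1) * Real.exp (-(t ^ (1 - ε / 2))) := by gcongr
    _ = (t * t ^ (A + 1) * Real.exp (-(1 / 2) * t ^ (1 - ε / 2))) *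
          Real.exp (-(t ^ (1 - ε / 2) / 2)) := by rw [g5]; ring
    _ ≤ 1 * Real.exp (-(t ^ (1 - ε / 2) / 2)) := by gcongr
    _ = Real.exp (-(t ^ (1 - ε / 2) / 2)) := one_mul _
    _ ≤ Real.exp (-(t ^ (1 - ε))) := by
        apply Real.exp_le_exp.2; linarith

theorem log_ge (t : ℝ) : ∃ N₀ : ℕ, ∀ N : ℕ, N₀ ≤ N → t ≤ Real.log N := by
  have := (Real.tendsto_log_atTop.comp tendsto_natCast_atTop_atTop).eventually_ge_atTop t
  obtain ⟨N₀, h⟩ := Filter.eventually_atTop.1 this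
  exact ⟨N₀, h⟩

open scoped Classical in
/-- Exponents and signs: every solution gives one with `r` a small prime. -/
theorem fin_reduce (h1 : RBound1) (E : ℕ) : ∃ A N₀ : ℕ, ∀ N : ℕ, N₀ ≤ N → ∀ x y : ℕ, 1 ≤ x → x ≤ N →
    (∃ l : ℕ, l.Prime ∧ l ∣ x ∧ (l : ℝ) ≤ Real.log N ^ E) → 2 ≤ y → y ≤ N → Nat.Coprime x y →
    (∃ l : ℕ, l.Prime ∧ l ∣ y ∧ (l : ℝ) ≤ Real.log N ^ E) →
    (∃ (p q r : ℕ) (z e₁ e₂ : ℤ), 1 ≤ p ∧ q.Prime ∧ 2 ≤ r ∧ (e₁ = 1 ∨ e₁ = -1) ∧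
        (e₂ = 1 ∨ e₂ = -1) ∧ e₁ * (x : ℤ) ^ p + e₂ * (y : ℤ) ^ q = z ^ r) →
    ∃ (r : ℕ) (e₁ e₂ : ℤ), r.Prime ∧ (r : ℝ) ≤ Real.log N ^ (A + 1) ∧ (e₁ = 1 ∨ e₁ = -1) ∧
        (e₂ = 1 ∨ e₂ = -1) ∧ ∃ (p q : ℕ) (z : ℤ), q.Prime ∧
          e₁ * (x : ℤ) ^ p + e₂ * (y : ℤ) ^ q = z ^ r := by
  obtain ⟨A, N₁, hA⟩ := h1 E
  obtain ⟨N₂, hN₂⟩ := log_ge 2
  refine ⟨A, max N₁ N₂, fun N hN x y hx1 hxN hlx hy2 hyN hxy hly hsol => ?_⟩
  have hN1 : N₁ ≤ N := le_trans (le_max_left _ _) hN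
  have hL : 2 ≤ Real.log N := hN₂ N (le_trans (le_max_right _ _) hN)
  obtain ⟨p, q, r, z, e₁, e₂, hp, hq, hr, he₁, he₂, heq⟩ := hsol
  obtain ⟨l, hl, hlx, hlE⟩ := hlx
  obtain ⟨l', hl', hly, hlE'⟩ := hly
  have hx2 : 2 ≤ x := le_trans hl.two_le (Nat.le_of_dvd hx1 hlx)
  have two_le_pow : (2 : ℝ) ≤ Real.log N ^ (A + 1) := by
    calc (2 : ℝ) ≤ Real.log N := hL
      _ = Real.log N ^ 1 := (pow_one _).symm
      _ ≤ Real.log N ^ (A + 1) := pow_le_pow_right₀ (by linarith) (by omega)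
  -- the size of z
  rcases Nat.lt_or_ge z.natAbs 2 with hz | hz
  · -- |z| ≤ 1
    have hz' : z = 0 ∨ z = 1 ∨ z = -1 := by omega
    have key : z ^ r = 1 ∨ z ^ r = -1 := by
      rcases hz' with rfl | rfl | rfl
      · exfalso
        rw [zero_pow (by omega)] at heq
        have hcop : IsCoprime ((x : ℤ) ^ p) ((y : ℤ) ^ q) := by
          apply IsCoprime.pow
          exact Nat.isCoprime_iff_coprime.2 hxy
        have hdvd : (y : ℤ) ^ q ∣ (x : ℤ) ^ p := by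
          rcases he₁ with rfl | rfl
          · exact ⟨-e₂, by linarith⟩
          · exact ⟨e₂, by linarith⟩
        have hu : IsUnit ((y : ℤ) ^ q) := hcop.symm.isUnit_of_dvd' dvd_rfl hdvd
        have := (isUnit_pow_iff hq.ne_zero).1 hu
        rw [Int.isUnit_iff] at this
        omega
      · left; simp
      · rcases Nat.even_or_odd r with h | h
        · left; exact h.neg_one_pow
        · right; exact h.neg_one_pow
    rcases key with h | h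
    · refine ⟨2, e₁, e₂, Nat.prime_two, by exact_mod_cast two_le_pow, he₁, he₂, p, q, 1, hq, ?_⟩
      rw [heq, h]; norm_num
    · refine ⟨2, -e₁, -e₂, Nat.prime_two, by exact_mod_cast two_le_pow, by omega, by omega,
        p, q, 1, hq, ?_⟩
      have : -e₁ * (x : ℤ) ^ p + -e₂ * (y : ℤ) ^ q = -(e₁ * (x : ℤ) ^ p + e₂ * (y : ℤ) ^ q) := by
        ring
      rw [this, heq, h]; norm_num
  · -- |z| ≥ 2
    set s := r.minFac with hs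
    have hsp : s.Prime := Nat.minFac_prime (by omega)
    obtain ⟨m, hm⟩ := Nat.minFac_dvd r
    have hm0 : m ≠ 0 := by
      rintro rfl
      simp at hm; omega
    have hzr : z ^ r = (z ^ m) ^ s := by rw [← pow_mul, mul_comm m s]; exact congrArg _ hm
    have hzm : 2 ≤ (z ^ m).natAbs := by
      rw [Int.natAbs_pow]
      calc 2 ≤ z.natAbs := hz
        _ = z.natAbs ^ 1 := (pow_one _).symm
        _ ≤ z.natAbs ^ m := Nat.pow_le_pow_right (by omega) (by omega)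
    have hbound : (s : ℝ) ≤ Real.log N ^ A := by
      rcases Nat.le_total (y ^ q) (x ^ p) with hle | hle
      · exact hA N hN1 x y p q s l (z ^ m) e₁ e₂ hx1 hxN hy2 hyN hxy hp hq.one_le hsp hl hlx hlE
          he₁ he₂ hzm (by rw [heq, hzr]) hle
      · exact hA N hN1 y x q p s l' (z ^ m) e₂ e₁ (by omega) hyN hx2 hxN hxy.symm hq.one_le hp hsp
          hl' hly hlE' he₂ he₁ hzm (by rw [← hzr, ← heq]; ring) hle
    refine ⟨s, e₁, e₂, hsp, hbound.trans (pow_le_pow_right₀ (by linarith) (by omega)), he₁, he₂,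
      p, q, z ^ m, hq, by rw [heq, hzr]⟩

open scoped Classical in
theorem final1_small (h1 : RBound1) (h2 : SieveR) (ε : ℝ) (hε : 0 < ε) (hε1 : ε ≤ 1 / 2) :
    ∃ N₀ : ℕ, ∀ N : ℕ, N₀ ≤ N → ∀ x : ℕ, 1 ≤ x → x ≤ N →
  (∃ l : ℕ, l.Prime ∧ l ∣ x ∧ (l : ℝ) ≤ Real.log N ^ (1 / ε)) →
  ({y : ℕ | 2 ≤ y ∧ y ≤ N ∧ Nat.Coprime x y ∧
      (∃ l : ℕ, l.Prime ∧ l ∣ y ∧ (l : ℝ) ≤ Real.log N ^ (1 / ε)) ∧
      ∃ (p q r : ℕ) (z e₁ e₂ : ℤ), 1 ≤ p ∧ q.Prime ∧ 2 ≤ r ∧ (e₁ = 1 ∨ e₁ = -1) ∧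
        (e₂ = 1 ∨ e₂ = -1) ∧ e₁ * (x : ℤ) ^ p + e₂ * (y : ℤ) ^ q = z ^ r}.ncard : ℝ) ≤
    N * Real.exp (-(Real.log N ^ (1 - ε))) := by
  set E : ℕ := ⌈1 / ε⌉₊ with hE
  obtain ⟨A, N₁, hA⟩ := fin_reduce h1 E
  obtain ⟨N₂, hB⟩ := h2 (A + 1) (ε / 2) (by positivity) (by linarith)
  obtain ⟨t₀, ht₀⟩ := fin_real A ε hε hε1
  obtain ⟨N₃, hN₃⟩ := log_ge (max 1 t₀)
  refine ⟨max (max N₁ N₂) N₃, fun N hN x hx1 hxN hlx => ?_⟩
  have hN1 : N₁ ≤ N := le_trans (le_trans (le_max_left _ _) (le_max_left _ _)) hN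
  have hN2 : N₂ ≤ N := le_trans (le_trans (le_max_right _ _) (le_max_left _ _)) hN
  have hN3 := hN₃ N (le_trans (le_max_right _ _) hN)
  have hL1 : 1 ≤ Real.log N := le_trans (le_max_left _ _) hN3
  have hLt : t₀ ≤ Real.log N := le_trans (le_max_right _ _) hN3
  have hpow : Real.log N ^ (1 / ε) ≤ Real.log N ^ E := by
    rw [← Real.rpow_natCast]
    exact Real.rpow_le_rpow_of_exponent_le hL1 (Nat.le_ceil _)
  set bad : ℕ → ℤ × ℤ → Finset ℕ := fun r e => (Icc 1 N).filter (fun y : ℕ => ∃ (p q : ℕ) (z : ℤ),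
    q.Prime ∧ e.1 * (x : ℤ) ^ p + e.2 * (y : ℤ) ^ q = z ^ r) with hbad
  set R : Finset ℕ := (Finset.range (⌊Real.log N ^ (A + 1)⌋₊ + 1)).filter Nat.Prime with hR
  set sg : Finset (ℤ × ℤ) := ({1, -1} : Finset ℤ) ×ˢ ({1, -1} : Finset ℤ) with hsg
  set U : Finset ℕ := R.biUnion (fun r => sg.biUnion (fun e => bad r e)) with hU
  have hsub : {y : ℕ | 2 ≤ y ∧ y ≤ N ∧ Nat.Coprime x y ∧
      (∃ l : ℕ, l.Prime ∧ l ∣ y ∧ (l : ℝ) ≤ Real.log N ^ (1 / ε)) ∧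
      ∃ (p q r : ℕ) (z e₁ e₂ : ℤ), 1 ≤ p ∧ q.Prime ∧ 2 ≤ r ∧ (e₁ = 1 ∨ e₁ = -1) ∧
        (e₂ = 1 ∨ e₂ = -1) ∧ e₁ * (x : ℤ) ^ p + e₂ * (y : ℤ) ^ q = z ^ r} ⊆ (U : Set ℕ) := by
    rintro y ⟨hy2, hyN, hxy, hly, hsol⟩
    obtain ⟨l, hl, hlx', hlE⟩ := hlx
    obtain ⟨l', hl', hly', hlE'⟩ := hly
    obtain ⟨r, e₁, e₂, hr, hrA, he₁, he₂, hs⟩ := hA N hN1 x y hx1 hxN
      ⟨l, hl, hlx', hlE.trans hpow⟩ hy2 hyN hxy ⟨l', hl', hly', hlE'.trans hpow⟩ hsol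
    simp only [hU, Finset.coe_biUnion, Set.mem_iUnion, Finset.mem_coe]
    refine ⟨r, ?_, (e₁, e₂), ?_, ?_⟩
    · simp only [hR, Finset.mem_filter, Finset.mem_range]
      exact ⟨Nat.lt_succ_of_le (Nat.le_floor hrA), hr⟩
    · simp only [hsg, Finset.mem_product, Finset.mem_insert, Finset.mem_singleton]
      exact ⟨he₁, he₂⟩
    · simp only [hbad, Finset.mem_filter, Finset.mem_Icc]
      exact ⟨⟨by omega, hyN⟩, hs⟩
  have hcard : ({y : ℕ | 2 ≤ y ∧ y ≤ N ∧ Nat.Coprime x y ∧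
      (∃ l : ℕ, l.Prime ∧ l ∣ y ∧ (l : ℝ) ≤ Real.log N ^ (1 / ε)) ∧
      ∃ (p q r : ℕ) (z e₁ e₂ : ℤ), 1 ≤ p ∧ q.Prime ∧ 2 ≤ r ∧ (e₁ = 1 ∨ e₁ = -1) ∧
        (e₂ = 1 ∨ e₂ = -1) ∧ e₁ * (x : ℤ) ^ p + e₂ * (y : ℤ) ^ q = z ^ r}.ncard : ℝ) ≤
      (U.card : ℝ) := by
    have := Set.ncard_le_ncard hsub U.finite_toSet
    rw [Set.ncard_coe_finset] at this
    exact_mod_cast this
  have hUcard : (U.card : ℝ) ≤ (Real.log N ^ (A + 1) + 1) * 4 *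
      (N * Real.exp (-(Real.log N ^ (1 - ε / 2)))) := by
    have hb : ∀ r ∈ R, ∀ e ∈ sg, ((bad r e).card : ℝ) ≤
        N * Real.exp (-(Real.log N ^ (1 - ε / 2))) := by
      intro r hr e he
      simp only [hR, Finset.mem_filter, Finset.mem_range] at hr
      simp only [hsg, Finset.mem_product, Finset.mem_insert, Finset.mem_singleton] at he
      have hrA : (r : ℝ) ≤ Real.log N ^ (A + 1) := by
        have h1 : r ≤ ⌊Real.log N ^ (A + 1)⌋₊ := Nat.lt_succ_iff.1 hr.1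
        exact (Nat.cast_le.2 h1).trans (Nat.floor_le (by positivity))
      exact hB N hN2 x r hx1 hxN hr.2 hrA e.1 e.2 he.1 he.2
    have hsgc : (sg.card : ℝ) = 4 := by
      have : sg.card = 4 := by simp [hsg]
      rw [this]; norm_num
    have hRc : (R.card : ℝ) ≤ Real.log N ^ (A + 1) + 1 := by
      have h1 : R.card ≤ ⌊Real.log N ^ (A + 1)⌋₊ + 1 := by
        refine (Finset.card_filter_le _ _).trans ?_
        rw [Finset.card_range]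
      have h2 : ((⌊Real.log N ^ (A + 1)⌋₊ : ℕ) : ℝ) ≤ Real.log N ^ (A + 1) :=
        Nat.floor_le (by positivity)
      have h3 : (R.card : ℝ) ≤ ((⌊Real.log N ^ (A + 1)⌋₊ + 1 : ℕ) : ℝ) := by exact_mod_cast h1
      push_cast at h3
      linarith
    have hM : 0 ≤ (N : ℝ) * Real.exp (-(Real.log N ^ (1 - ε / 2))) := by positivity
    calc (U.card : ℝ) ≤ ((∑ r ∈ R, (sg.biUnion (fun e => bad r e)).card : ℕ) : ℝ) := by
          exact_mod_cast Finset.card_biUnion_le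
      _ = ∑ r ∈ R, ((sg.biUnion (fun e => bad r e)).card : ℝ) := by push_cast; rfl
      _ ≤ ∑ r ∈ R, (4 * (N * Real.exp (-(Real.log N ^ (1 - ε / 2))))) := by
          apply Finset.sum_le_sum
          intro r hr
          calc ((sg.biUnion (fun e => bad r e)).card : ℝ)
              ≤ ((∑ e ∈ sg, (bad r e).card : ℕ) : ℝ) := by exact_mod_cast Finset.card_biUnion_le
            _ = ∑ e ∈ sg, ((bad r e).card : ℝ) := by push_cast; rfl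
            _ ≤ ∑ e ∈ sg, (N * Real.exp (-(Real.log N ^ (1 - ε / 2)))) :=
                Finset.sum_le_sum (fun e he => hb r hr e he)
            _ = 4 * (N * Real.exp (-(Real.log N ^ (1 - ε / 2)))) := by
                rw [Finset.sum_const, nsmul_eq_mul, hsgc]
      _ = (R.card : ℝ) * (4 * (N * Real.exp (-(Real.log N ^ (1 - ε / 2))))) := by
          rw [Finset.sum_const, nsmul_eq_mul]
      _ ≤ (Real.log N ^ (A + 1) + 1) * (4 * (N * Real.exp (-(Real.log N ^ (1 - ε / 2))))) := by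
          gcongr
      _ = _ := by ring
  have hfin := ht₀ (Real.log N) hLt
  calc _ ≤ (U.card : ℝ) := hcard
    _ ≤ _ := hUcard
    _ = N * ((Real.log N ^ (A + 1) + 1) * 4 * Real.exp (-(Real.log N ^ (1 - ε / 2)))) := by ring
    _ ≤ N * Real.exp (-(Real.log N ^ (1 - ε))) := by gcongr

/-- E: the final union bound. -/
theorem final1 (h1 : RBound1) (h2 : SieveR) : Final1 := by
  intro ε hε
  have hm : 0 < min ε (1 / 2) := lt_min hε (by norm_num)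
  obtain ⟨N₁, hN₁⟩ := final1_small h1 h2 (min ε (1 / 2)) hm (min_le_right _ _)
  obtain ⟨N₂, hN₂⟩ := log_ge 1
  refine ⟨max N₁ N₂, fun N hN x hx1 hxN hlx => ?_⟩
  have hL : 1 ≤ Real.log N := hN₂ N (le_trans (le_max_right _ _) hN)
  have hpow : Real.log N ^ (1 / ε) ≤ Real.log N ^ (1 / min ε (1 / 2)) := by
    apply Real.rpow_le_rpow_of_exponent_le hL
    exact one_div_le_one_div_of_le hm (min_le_left _ _)
  obtain ⟨l, hl, hlx', hlE⟩ := hlx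
  have key := hN₁ N (le_trans (le_max_left _ _) hN) x hx1 hxN ⟨l, hl, hlx', hlE.trans hpow⟩
  refine le_trans ?_ (key.trans ?_)
  · have hfin : {y : ℕ | 2 ≤ y ∧ y ≤ N ∧ Nat.Coprime x y ∧
      (∃ l : ℕ, l.Prime ∧ l ∣ y ∧ (l : ℝ) ≤ Real.log N ^ (1 / min ε (1 / 2))) ∧
      ∃ (p q r : ℕ) (z e₁ e₂ : ℤ), 1 ≤ p ∧ q.Prime ∧ 2 ≤ r ∧ (e₁ = 1 ∨ e₁ = -1) ∧
        (e₂ = 1 ∨ e₂ = -1) ∧ e₁ * (x : ℤ) ^ p + e₂ * (y : ℤ) ^ q = z ^ r}.Finite :=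
      (Set.finite_Iic N).subset (fun y hy => hy.2.1)
    have := Set.ncard_le_ncard (s := {y : ℕ | 2 ≤ y ∧ y ≤ N ∧ Nat.Coprime x y ∧
      (∃ l : ℕ, l.Prime ∧ l ∣ y ∧ (l : ℝ) ≤ Real.log N ^ (1 / ε)) ∧
      ∃ (p q r : ℕ) (z e₁ e₂ : ℤ), 1 ≤ p ∧ q.Prime ∧ 2 ≤ r ∧ (e₁ = 1 ∨ e₁ = -1) ∧
        (e₂ = 1 ∨ e₂ = -1) ∧ e₁ * (x : ℤ) ^ p + e₂ * (y : ℤ) ^ q = z ^ r}) (by
        rintro y ⟨a, b, c, ⟨l', d, e, f⟩, g⟩
        exact ⟨a, b, c, ⟨l', d, e, f.trans hpow⟩, g⟩) hfin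
    exact_mod_cast this
  · gcongr
    exact min_le_left _ _

end Pool.Agent.Lib.MP_509488_nt.Unif
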