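import Pool.Agent.Lib.MP_509488_nt.Unif.Stmts

/-!
# Uniform bases, third version: statements uniform in the number `j` of derivatives

`T` bounds the logarithms of the moduli, `Λ ≥ T ^ 40`, `δ = 1/Λ`, `j` is between `T` and `130 T`.
-/

namespace Pool.Agent.Lib.MP_509488_nt.Unif

open Finset

/-- U1: upper bound for `L^(j)(1+δ, χ)`, uniform in `j`. -/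
def U1 : Prop := ∃ c : ℝ, 1 ≤ c ∧ ∀ j q : ℕ, 1 ≤ q → ∀ χ : DirichletCharacter ℂ q, χ ≠ 1 →
  ∀ δ : ℝ, 0 < δ → δ ≤ 1 → ‖LL χ j δ‖ ≤ (c * (1 + Real.log q)) ^ (j + 1) * (j.factorial : ℝ)

/-- U2: `ZZ j δ = j!/δ^(j+1) + O(j!)`. -/
def U2 : Prop := ∃ c : ℝ, 1 ≤ c ∧ ∀ j : ℕ, ∀ δ : ℝ, 0 < δ → δ ≤ 1 →
  |ZZ j δ - (j.factorial : ℝ) / δ ^ (j + 1)| ≤ c * (j.factorial : ℝ)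

/-- U3: `MM j δ = j!/δ^(j+1) + O(j!/δ^j)` (Mertens). -/
def U3 : Prop := ∃ c : ℝ, 1 ≤ c ∧ ∀ j : ℕ, ∀ δ : ℝ, 0 < δ → δ ≤ 1 →
  |MM j δ - (j.factorial : ℝ) / δ ^ (j + 1)| ≤ c * ((j.factorial : ℝ) / δ ^ j)

/-- U5: `(L'/L)^(j)(1+δ, χ)`, uniform in `j`. -/
def U5 : Prop := ∀ κ : ℝ, 0 < κ → ∃ C : ℝ, 1 ≤ C ∧ ∀ q : ℕ, 1 ≤ q →
  ∀ χ : DirichletCharacter ℂ q, χ ≠ 1 → ∀ δ : ℝ, 0 < δ → δ ≤ 1 → ∀ T : ℝ, 1 + Real.log q ≤ T →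
  κ / T ^ 7 ≤ ‖LL χ 0 δ‖ → ∀ j : ℕ, ‖VV χ j δ‖ ≤ (C * T ^ 9) ^ (j + 1) * (j.factorial : ℝ)

/-- U7: primes with `ψ(p) = 1`. -/
def U7 : Prop := ∃ T₀ : ℝ, 1 ≤ T₀ ∧ ∀ T Λ : ℝ, T₀ ≤ T → T ^ 40 ≤ Λ → ∀ r : ℕ, 1 ≤ r →
  (1 + Real.log r) ^ 2 ≤ T → ∀ ψ : DirichletCharacter ℂ r, ψ ^ 2 = 1 → ψ ≠ 1 →
  ∀ k₀ : ℕ, T ≤ k₀ → (k₀ : ℝ) ≤ T ^ 2 → ∃ j : ℕ, k₀ ≤ j ∧ j ≤ 64 * k₀ ∧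
    (j.factorial : ℝ) * Λ ^ j ≤
      Real.exp (T / 100) * Λ ^ 10 * (MM j (1 / Λ) + (VV ψ j (1 / Λ)).re)

/-- U8: lower bound in the progression `1 mod r d` for many `d`. -/
def U8 : Prop := ∃ T₀ : ℝ, 1 ≤ T₀ ∧ ∀ T Λ : ℝ, T₀ ≤ T → T ^ 40 ≤ Λ → ∀ r : ℕ, r.Prime →
  (1 + Real.log r) ^ 2 ≤ T → ∀ D₁ D₂ : Finset ℕ,
  (∀ d ∈ D₁, 1 ≤ d ∧ 1 + 2 * Real.log (r * d : ℕ) ≤ T ∧ Nat.Coprime d r) →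
  (∀ d ∈ D₂, 1 ≤ d ∧ 1 + 2 * Real.log (r * d : ℕ) ≤ T ∧ Nat.Coprime d r) →
  (∀ d ∈ D₁, ∀ e ∈ D₂, Nat.Coprime d e) →
  ∃ j : ℕ, T ≤ j ∧ (j : ℝ) ≤ 130 * T ∧
    ((∀ d ∈ D₁, (j.factorial : ℝ) * Λ ^ j ≤
      Real.exp (T / 50) * Λ ^ 10 * ((r * d : ℕ) : ℝ) * AP (r * d) j (1 / Λ)) ∨
     (∀ d ∈ D₂, (j.factorial : ℝ) * Λ ^ j ≤
      Real.exp (T / 50) * Λ ^ 10 * ((r * d : ℕ) : ℝ) * AP (r * d) j (1 / Λ)))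

/-- U9: from the weighted sum over prime powers to `Σ 1/l` over primes in a range. -/
def U9 : Prop := ∃ T₀ : ℝ, 1 ≤ T₀ ∧ ∀ T Λ : ℝ, T₀ ≤ T → T ^ 40 ≤ Λ → ∀ q j : ℕ, 1 ≤ q →
  1 + Real.log q ≤ T → T ≤ j → (j : ℝ) ≤ 130 * T →
  (j.factorial : ℝ) * Λ ^ j ≤ Real.exp (T / 50) * Λ ^ 10 * q * AP q j (1 / Λ) →
  ∃ S : Finset ℕ, (∀ l ∈ S, l.Prime ∧ l ≡ 1 [MOD q] ∧ Real.exp (Real.sqrt Λ) ≤ l ∧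
    (l : ℝ) ≤ Real.exp (Λ ^ 2)) ∧ 1 ≤ Real.exp (T / 50) * Λ ^ 12 * q * ∑ l ∈ S, (1 : ℝ) / l

/-- U10: the supply of primes, uniform version; here the size parameter is `Λ = T ^ 40`. -/
def SupplyU : Prop := ∃ T₀ : ℝ, 1 ≤ T₀ ∧ ∀ T : ℝ, T₀ ≤ T → ∀ r : ℕ, r.Prime →
  (1 + Real.log r) ^ 2 ≤ T → ∃ (P Q : Finset ℕ) (L : ℕ), 1 ≤ L ∧
    (L : ℝ) ≤ Real.exp (T ^ 120) ∧ Real.exp (T / 10) ≤ P.card ∧ Real.exp (T / 10) ≤ Q.card ∧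
    (∀ l ∈ P ∪ Q, l.Prime ∧ r ∣ l - 1 ∧ l - 1 ∣ L ∧ Real.exp (T ^ 20) ≤ l ∧
      (l : ℝ) ≤ Real.exp (T ^ 80)) ∧
    ∀ p : ℕ, p.Prime → Real.exp T < p → (∀ l ∈ P, ¬ p ∣ l - 1) ∨ (∀ l ∈ Q, ¬ p ∣ l - 1)

open scoped Classical in
/-- UD: the count for one prime `r ≤ W`. -/
def SieveU : Prop := ∃ C N₀ : ℕ, ∀ N : ℕ, N₀ ≤ N → ∀ W : ℝ, Real.log N ≤ W → ∀ x r : ℕ, 1 ≤ x →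
  x ≤ N → r.Prime → (r : ℝ) ≤ W → ∀ e₁ e₂ : ℤ, (e₁ = 1 ∨ e₁ = -1) → (e₂ = 1 ∨ e₂ = -1) →
  (((Icc 1 N).filter (fun y : ℕ => ∃ (p q : ℕ) (z : ℤ), q.Prime ∧
    e₁ * (x : ℤ) ^ p + e₂ * (y : ℤ) ^ q = z ^ r)).card : ℝ) ≤
      3 * N * Real.exp (-(Real.log N / Real.log W ^ C))

/-- UR1: bound for `r`, `l ≤ w`, `y ^ q ≤ x ^ p`. -/
def RU1 : Prop := ∃ A N₀ : ℕ, ∀ N : ℕ, N₀ ≤ N → ∀ w : ℝ, Real.log N ≤ w →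
  ∀ x y p q r l : ℕ, ∀ z e₁ e₂ : ℤ,
  1 ≤ x → x ≤ N → 2 ≤ y → y ≤ N → Nat.Coprime x y → 1 ≤ p → 1 ≤ q → r.Prime → l.Prime → l ∣ x →
  (l : ℝ) ≤ w → (e₁ = 1 ∨ e₁ = -1) → (e₂ = 1 ∨ e₂ = -1) → 2 ≤ z.natAbs →
  e₁ * (x : ℤ) ^ p + e₂ * (y : ℤ) ^ q = z ^ r → y ^ q ≤ x ^ p → (r : ℝ) ≤ w ^ A

/-- UR2: the same for `x ^ p < y ^ q`. -/
def RU2 : Prop := ∃ A N₀ : ℕ, ∀ N : ℕ, N₀ ≤ N → ∀ w : ℝ, Real.log N ≤ w →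
  ∀ x y p q r l : ℕ, ∀ z e₁ e₂ : ℤ,
  1 ≤ x → x ≤ N → 2 ≤ y → y ≤ N → Nat.Coprime x y → 1 ≤ p → 1 ≤ q → r.Prime → l.Prime → l ∣ x →
  (l : ℝ) ≤ w → (e₁ = 1 ∨ e₁ = -1) → (e₂ = 1 ∨ e₂ = -1) → 2 ≤ z.natAbs →
  e₁ * (x : ℤ) ^ p + e₂ * (y : ℤ) ^ q = z ^ r → x ^ p < y ^ q → (r : ℝ) ≤ w ^ A

/-- UR3: the same for odd `x`, `y` and exponents `p`, `q` at most `exp w`. -/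
def RU3 : Prop := ∃ A N₀ : ℕ, ∀ N : ℕ, N₀ ≤ N → ∀ w : ℝ, Real.log N ≤ w →
  ∀ x y p q r : ℕ, ∀ z e₁ e₂ : ℤ,
  2 ≤ x → x ≤ N → 2 ≤ y → y ≤ N → Nat.Coprime x y → Odd x → Odd y → 1 ≤ p → 1 ≤ q →
  (p : ℝ) ≤ Real.exp w → (q : ℝ) ≤ Real.exp w → r.Prime →
  (e₁ = 1 ∨ e₁ = -1) → (e₂ = 1 ∨ e₂ = -1) →
  e₁ * (x : ℤ) ^ p + e₂ * (y : ℤ) ^ q = z ^ r → (r : ℝ) ≤ w ^ A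

/-- The final theorem, third version: one exponent `C` for all `x` and all `w`. -/
def Final4 : Prop := ∃ C N₀ : ℕ, ∀ N : ℕ, N₀ ≤ N → ∀ w : ℝ, Real.log N ≤ w →
  ∀ x : ℕ, 2 ≤ x → x ≤ N →
  ({y : ℕ | 2 ≤ y ∧ y ≤ N ∧ Nat.Coprime x y ∧
      ∃ (p q r : ℕ) (z e₁ e₂ : ℤ), 1 ≤ p ∧ q.Prime ∧ 2 ≤ r ∧ (e₁ = 1 ∨ e₁ = -1) ∧
        (e₂ = 1 ∨ e₂ = -1) ∧ e₁ * (x : ℤ) ^ p + e₂ * (y : ℤ) ^ q = z ^ r ∧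
        ((∃ l : ℕ, l.Prime ∧ l ∣ x * y ∧ (l : ℝ) ≤ w) ∨
          ((p : ℝ) ≤ Real.exp w ∧ (q : ℝ) ≤ Real.exp w))}.ncard : ℝ) ≤
    3 * N * Real.exp (-(Real.log N / Real.log w ^ C))

/-- Pairs of bases: at most `N ^ 2 / (log N) ^ c` coprime pairs up to `N` occur in a solution. -/
def Pairs4 : Prop := ∃ c : ℝ, 0 < c ∧ ∃ N₀ : ℕ, ∀ N : ℕ, N₀ ≤ N →
  ({a : ℕ × ℕ | 2 ≤ a.1 ∧ a.1 ≤ N ∧ 2 ≤ a.2 ∧ a.2 ≤ N ∧ Nat.Coprime a.1 a.2 ∧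
      ∃ (p q r : ℕ) (z e₁ e₂ : ℤ), 1 ≤ p ∧ q.Prime ∧ 2 ≤ r ∧ (e₁ = 1 ∨ e₁ = -1) ∧
        (e₂ = 1 ∨ e₂ = -1) ∧ e₁ * (a.1 : ℤ) ^ p + e₂ * (a.2 : ℤ) ^ q = z ^ r}.ncard : ℝ) ≤
    (N : ℝ) ^ 2 / Real.log N ^ c

end Pool.Agent.Lib.MP_509488_nt.Unif
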