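import Mathlib
import Pool.Agent.Lib.MP_509488_nt.Unif.StmtsU
import Pool.Agent.Lib.MP_509488_nt.Unif.Fin
import Pool.Agent.Lib.MP_325d88_nt.Upper

/-!
# Pairs of bases: power-of-log saving
-/

namespace Pool.Agent.Lib.MP_509488_nt.Unif

open Finset

namespace UPM

open scoped Classical in
/-- Numbers without prime factors `≤ w`. -/
theorem rough_card : ∃ C : ℝ, 1 ≤ C ∧ ∀ (N : ℕ) (w : ℝ), 4 ≤ w →
    (((Icc 1 N).filter (fun m : ℕ => ∀ l : ℕ, l.Prime → l ∣ m → w < l)).card : ℝ) ≤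
      1 + 2 * C * (N / Real.log w) := by
  obtain ⟨C, hC1, hC⟩ := Pool.Agent.Lib.MP_325d88_nt.rough_upper
  refine ⟨C, hC1, fun N w hw => ?_⟩
  have hz : 2 ≤ ⌊w⌋₊ := Nat.le_floor (by push_cast; linarith)
  have h := hC ⌊w⌋₊ N hz
  have h1 : (((Icc 1 N).filter (fun m : ℕ => ∀ l : ℕ, l.Prime → l ∣ m → w < l)).card : ℝ) ≤
      ∑ m ∈ Icc 1 N, Pool.Agent.Lib.MP_325d88_nt.rgh 1 ⌊w⌋₊ (m : ℤ) := by
    rw [Finset.card_filter]
    push_cast
    apply Finset.sum_le_sum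
    intro m hm
    rw [Pool.Agent.Lib.MP_325d88_nt.rgh_eq]
    by_cases hc : ∀ l : ℕ, l.Prime → l ∣ m → w < l
    · rw [if_pos hc, if_pos]
      intro p hp hpm
      rw [Pool.Agent.Lib.MP_325d88_nt.mem_PR] at hp
      have h2 := hc p hp.2.2 (by exact_mod_cast hpm)
      have h3 : (p : ℝ) ≤ w := (Nat.le_floor_iff (by linarith)).1 hp.2.1
      linarith
    · rw [if_neg hc]
      split_ifs <;> norm_num
  have hw0 : 0 < Real.log w := Real.log_pos (by linarith)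
  have hfl : w - 1 < (⌊w⌋₊ : ℝ) := by
    have := Nat.lt_floor_add_one w
    linarith
  have hf0 : (0 : ℝ) < ⌊w⌋₊ := by linarith
  have h4 : w ≤ (⌊w⌋₊ : ℝ) ^ 2 := by nlinarith
  have h5 : Real.log w ≤ 2 * Real.log ⌊w⌋₊ := by
    have := Real.log_le_log (by linarith) h4
    rwa [Real.log_pow, Nat.cast_ofNat] at this
  have h6 : (N : ℝ) / Real.log ⌊w⌋₊ ≤ 2 * (N / Real.log w) := by
    rw [← mul_div_assoc, div_le_div_iff₀ (by linarith) hw0]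
    have hN : (0 : ℝ) ≤ N := Nat.cast_nonneg N
    nlinarith
  have h7 : C * ((N : ℝ) / Real.log ⌊w⌋₊) ≤ C * (2 * (N / Real.log w)) :=
    mul_le_mul_of_nonneg_left h6 (by linarith)
  linarith

/-- The real inequalities. -/
theorem reals (C : ℕ) (K κ : ℝ) (hκ0 : 0 < κ) (hκ1 : κ ≤ 1 / 4) (hκC : κ * C ≤ 1 / 4) :
    ∃ t₀ : ℝ, ∀ t : ℝ, t₀ ≤ t →
    1 ≤ t ∧ 0 < t ^ (κ / 2) ∧ t ≤ Real.exp (t ^ κ) ∧ 4 ≤ Real.exp (t ^ κ) ∧
    6 * K ≤ t ^ (κ / 2) ∧ t ^ κ = t ^ (κ / 2) * t ^ (κ / 2) ∧ 3 * t ^ (κ / 2) ≤ Real.exp t ∧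
    3 * Real.exp (-(t / (t ^ κ) ^ C)) ≤ 1 / (3 * t ^ (κ / 2)) := by
  have hκ2 : 0 < κ / 2 := by linarith
  have e1 := (tendsto_rpow_atTop hκ2).eventually_ge_atTop (max 9 (6 * K))
  have e2 : ∀ᶠ t : ℝ in Filter.atTop, Real.log t ≤ t ^ κ := by
    have := (isLittleO_log_rpow_atTop hκ0).bound (c := 1) one_pos
    filter_upwards [this, Filter.eventually_ge_atTop (1 : ℝ)] with t ht ht1
    rw [Real.norm_of_nonneg (Real.log_nonneg ht1), Real.norm_of_nonneg (by positivity),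
      one_mul] at ht
    exact ht
  obtain ⟨t₀, h⟩ := Filter.eventually_atTop.1 ((e1.and e2).and (Filter.eventually_ge_atTop (4 : ℝ)))
  refine ⟨t₀, fun t ht => ?_⟩
  obtain ⟨⟨h1, h2⟩, h4⟩ := h t ht
  have ht0 : 0 < t := by linarith
  have ht1 : 1 ≤ t := by linarith
  have h9 : (9 : ℝ) ≤ t ^ (κ / 2) := (le_max_left _ _).trans h1
  have hTT : t ^ κ = t ^ (κ / 2) * t ^ (κ / 2) := by
    rw [← Real.rpow_add ht0]; congr 1; ring
  have hT0 : 0 < t ^ (κ / 2) := by linarith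
  refine ⟨ht1, hT0, ?_, ?_, (le_max_right _ _).trans h1, hTT, ?_, ?_⟩
  · calc t = Real.exp (Real.log t) := (Real.exp_log ht0).symm
      _ ≤ _ := Real.exp_le_exp.2 h2
  · have := Real.add_one_le_exp (t ^ κ)
    nlinarith
  · have h5 : t ^ (κ / 2) ≤ t := by
      calc t ^ (κ / 2) ≤ t ^ (1 : ℝ) := Real.rpow_le_rpow_of_exponent_le ht1 (by linarith)
        _ = t := Real.rpow_one t
    have h6 : 1 + t + t ^ 2 / 2 ≤ Real.exp t := Real.quadratic_le_exp_of_nonneg ht0.le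
    nlinarith
  · set s := t / (t ^ κ) ^ C with hs
    have h7 : t ^ (κ / 2) * t ^ (κ / 2) ≤ s := by
      rw [← hTT, hs, le_div_iff₀ (by positivity), ← Real.rpow_natCast, ← Real.rpow_mul ht0.le,
        ← Real.rpow_add ht0]
      calc t ^ (κ + κ * C) ≤ t ^ (1 : ℝ) := Real.rpow_le_rpow_of_exponent_le ht1 (by linarith)
        _ = t := Real.rpow_one t
    have hs0 : 0 < s := by nlinarith
    have h8 : Real.exp (-s) ≤ 1 / s := by
      rw [Real.exp_neg, ← one_div]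
      apply one_div_le_one_div_of_le hs0
      have := Real.add_one_le_exp s
      linarith
    have h10 : 1 / s ≤ 1 / (9 * t ^ (κ / 2)) := by
      apply one_div_le_one_div_of_le (by positivity)
      nlinarith
    calc 3 * Real.exp (-s) ≤ 3 * (1 / (9 * t ^ (κ / 2))) := by linarith
      _ = 1 / (3 * t ^ (κ / 2)) := by field_simp; norm_num

end UPM

open scoped Classical in
/-- UP: pairs of bases. -/
theorem pairs4 (h : Final4) : Pairs4 := by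
  obtain ⟨C, N₁, hF⟩ := h
  obtain ⟨K, hK1, hK⟩ := UPM.rough_card
  set κ : ℝ := 1 / (4 * C + 4) with hκ
  have hC0 : (0 : ℝ) ≤ C := Nat.cast_nonneg C
  have hκ0 : 0 < κ := by positivity
  have hκ1 : κ ≤ 1 / 4 := by
    rw [hκ]; exact one_div_le_one_div_of_le (by norm_num) (by linarith)
  have hκC : κ * C ≤ 1 / 4 := by
    rw [hκ, one_div, inv_mul_eq_div, div_le_div_iff₀ (by positivity) (by norm_num)]
    linarith
  obtain ⟨t₀, ht₀⟩ := UPM.reals C K κ hκ0 hκ1 hκC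
  obtain ⟨N₂, hN₂⟩ := log_ge t₀
  refine ⟨κ / 2, by positivity, max (max N₁ N₂) 1, fun N hN => ?_⟩
  have hN1 : N₁ ≤ N := le_trans (le_trans (le_max_left _ _) (le_max_left _ _)) hN
  have hN2 : N₂ ≤ N := le_trans (le_trans (le_max_right _ _) (le_max_left _ _)) hN
  have hNpos : 1 ≤ N := le_trans (le_max_right _ _) hN
  have hNr : (1 : ℝ) ≤ N := by exact_mod_cast hNpos
  obtain ⟨a1, a2, a3, a4, a5, a6, a7, a8⟩ := ht₀ (Real.log N) (hN₂ N hN2)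
  rw [Real.exp_log (by linarith)] at a7
  set t : ℝ := Real.log N with ht
  set w : ℝ := Real.exp (t ^ κ) with hw
  set T : ℝ := t ^ (κ / 2) with hT
  have hlogw : Real.log w = t ^ κ := Real.log_exp _
  set R : Finset ℕ := (Icc 1 N).filter (fun m : ℕ => ∀ l : ℕ, l.Prime → l ∣ m → w < l) with hR
  have hRc := hK N w a4
  rw [hlogw, ← hR] at hRc
  set B : ℕ → Finset ℕ := fun x => (Icc 1 N).filter (fun y : ℕ => 2 ≤ y ∧ y ≤ N ∧ Nat.Coprime x y ∧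
      ∃ (p q r : ℕ) (z e₁ e₂ : ℤ), 1 ≤ p ∧ q.Prime ∧ 2 ≤ r ∧ (e₁ = 1 ∨ e₁ = -1) ∧
        (e₂ = 1 ∨ e₂ = -1) ∧ e₁ * (x : ℤ) ^ p + e₂ * (y : ℤ) ^ q = z ^ r ∧
        ((∃ l : ℕ, l.Prime ∧ l ∣ x * y ∧ (l : ℝ) ≤ w) ∨
          ((p : ℝ) ≤ Real.exp w ∧ (q : ℝ) ≤ Real.exp w))) with hB
  have hBc : ∀ x ∈ Icc 2 N, ((B x).card : ℝ) ≤ 3 * N * Real.exp (-(t / (t ^ κ) ^ C)) := by
    intro x hx
    rw [Finset.mem_Icc] at hx
    have h1 := hF N hN1 w a3 x hx.1 hx.2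
    rw [hlogw] at h1
    have h2 : {y : ℕ | 2 ≤ y ∧ y ≤ N ∧ Nat.Coprime x y ∧
      ∃ (p q r : ℕ) (z e₁ e₂ : ℤ), 1 ≤ p ∧ q.Prime ∧ 2 ≤ r ∧ (e₁ = 1 ∨ e₁ = -1) ∧
        (e₂ = 1 ∨ e₂ = -1) ∧ e₁ * (x : ℤ) ^ p + e₂ * (y : ℤ) ^ q = z ^ r ∧
        ((∃ l : ℕ, l.Prime ∧ l ∣ x * y ∧ (l : ℝ) ≤ w) ∨
          ((p : ℝ) ≤ Real.exp w ∧ (q : ℝ) ≤ Real.exp w))} = (B x : Set ℕ) := by
      ext y
      simp only [hB, Set.mem_ofPred_eq, Finset.coe_filter, Finset.mem_Icc]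
      constructor
      · intro hy
        exact ⟨⟨by omega, hy.2.1⟩, hy⟩
      · intro hy
        exact hy.2
    rw [h2, Set.ncard_coe_finset] at h1
    exact h1
  set T1 : Finset (ℕ × ℕ) := (Icc 2 N).biUnion (fun x => (B x).image (fun y => (x, y))) with hT1
  set T2 : Finset (ℕ × ℕ) := R ×ˢ Icc 1 N with hT2
  have hsub : {a : ℕ × ℕ | 2 ≤ a.1 ∧ a.1 ≤ N ∧ 2 ≤ a.2 ∧ a.2 ≤ N ∧ Nat.Coprime a.1 a.2 ∧
      ∃ (p q r : ℕ) (z e₁ e₂ : ℤ), 1 ≤ p ∧ q.Prime ∧ 2 ≤ r ∧ (e₁ = 1 ∨ e₁ = -1) ∧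
        (e₂ = 1 ∨ e₂ = -1) ∧ e₁ * (a.1 : ℤ) ^ p + e₂ * (a.2 : ℤ) ^ q = z ^ r} ⊆
      ((T1 ∪ T2 : Finset (ℕ × ℕ)) : Set (ℕ × ℕ)) := by
    rintro ⟨x, y⟩ ⟨hx2, hxN, hy2, hyN, hxy, p, q, r, z, e₁, e₂, hp, hq, hr, he₁, he₂, heq⟩
    simp only at hx2 hxN hy2 hyN hxy heq
    rw [Finset.mem_coe, Finset.mem_union]
    by_cases hl : ∃ l : ℕ, l.Prime ∧ l ∣ x * y ∧ (l : ℝ) ≤ w
    · left
      simp only [hT1, Finset.mem_biUnion, Finset.mem_image, Finset.mem_Icc]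
      refine ⟨x, ⟨hx2, hxN⟩, y, ?_, rfl⟩
      simp only [hB, Finset.mem_filter, Finset.mem_Icc]
      exact ⟨⟨by omega, hyN⟩, hy2, hyN, hxy, p, q, r, z, e₁, e₂, hp, hq, hr, he₁, he₂, heq,
        Or.inl hl⟩
    · right
      simp only [hT2, Finset.mem_product, hR, Finset.mem_filter, Finset.mem_Icc]
      refine ⟨⟨⟨by omega, hxN⟩, ?_⟩, by omega, hyN⟩
      intro l hlp hlx
      by_contra hcon
      exact hl ⟨l, hlp, Dvd.dvd.mul_right hlx y, not_lt.1 hcon⟩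
  have hcard := Set.ncard_le_ncard hsub (T1 ∪ T2).finite_toSet
  rw [Set.ncard_coe_finset] at hcard
  have hcard' := (Nat.cast_le (α := ℝ)).2 hcard
  refine hcard'.trans ?_
  have hT1c : (T1.card : ℝ) ≤ N * (3 * N * Real.exp (-(t / (t ^ κ) ^ C))) := by
    calc (T1.card : ℝ) ≤ ((∑ x ∈ Icc 2 N, ((B x).image (fun y => (x, y))).card : ℕ) : ℝ) := by
          exact_mod_cast Finset.card_biUnion_le
      _ = ∑ x ∈ Icc 2 N, (((B x).image (fun y => (x, y))).card : ℝ) := by push_cast; rfl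
      _ ≤ ∑ x ∈ Icc 2 N, (3 * N * Real.exp (-(t / (t ^ κ) ^ C))) := by
          apply Finset.sum_le_sum
          intro x hx
          have h1 : (((B x).image (fun y => (x, y))).card : ℝ) ≤ ((B x).card : ℝ) := by
            exact_mod_cast Finset.card_image_le
          exact h1.trans (hBc x hx)
      _ = ((Icc 2 N).card : ℝ) * (3 * N * Real.exp (-(t / (t ^ κ) ^ C))) := by
          rw [Finset.sum_const, nsmul_eq_mul]
      _ ≤ N * (3 * N * Real.exp (-(t / (t ^ κ) ^ C))) := by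
          have h1 : ((Icc 2 N).card : ℝ) ≤ N := by
            rw [Nat.card_Icc]
            exact_mod_cast (by omega : N + 1 - 2 ≤ N)
          gcongr
  have hT2c : (T2.card : ℝ) ≤ (1 + 2 * K * (N / t ^ κ)) * N := by
    rw [hT2, Finset.card_product, Nat.card_Icc]
    push_cast
    have h1 : ((N + 1 - 1 : ℕ) : ℝ) = N := by simp
    have h2 : ((N : ℝ) + 1 - 1) = N := by ring
    try simp only [Nat.add_sub_cancel]
    gcongr
  have hU : ((T1 ∪ T2).card : ℝ) ≤ T1.card + T2.card := by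
    exact_mod_cast Finset.card_union_le T1 T2
  have hN0 : (0 : ℝ) < N := by linarith
  -- the three pieces
  have p1 : (N : ℝ) * (3 * N * Real.exp (-(t / (t ^ κ) ^ C))) ≤ N ^ 2 * (1 / (3 * T)) := by
    calc (N : ℝ) * (3 * N * Real.exp (-(t / (t ^ κ) ^ C)))
        = N ^ 2 * (3 * Real.exp (-(t / (t ^ κ) ^ C))) := by ring
      _ ≤ N ^ 2 * (1 / (3 * T)) := by gcongr
  have p2 : (N : ℝ) ≤ N ^ 2 * (1 / (3 * T)) := by
    rw [mul_one_div, le_div_iff₀ (by positivity)]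
    nlinarith
  have p3 : 2 * K * ((N : ℝ) / t ^ κ) * N ≤ N ^ 2 * (1 / (3 * T)) := by
    rw [a6]
    have h1 : 2 * K * ((N : ℝ) / (T * T)) * N = N ^ 2 * (2 * K / (T * T)) := by
      field_simp
    rw [h1]
    apply mul_le_mul_of_nonneg_left _ (by positivity)
    rw [div_le_div_iff₀ (by positivity) (by positivity)]
    nlinarith
  have p4 : (N : ℝ) ^ 2 * (1 / (3 * T)) + N ^ 2 * (1 / (3 * T)) + N ^ 2 * (1 / (3 * T)) =
      (N : ℝ) ^ 2 / T := by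
    field_simp
    norm_num
  calc ((T1 ∪ T2).card : ℝ) ≤ T1.card + T2.card := hU
    _ ≤ N * (3 * N * Real.exp (-(t / (t ^ κ) ^ C))) + (1 + 2 * K * (N / t ^ κ)) * N := by
        linarith
    _ = N * (3 * N * Real.exp (-(t / (t ^ κ) ^ C))) + N + 2 * K * (N / t ^ κ) * N := by ring
    _ ≤ (N : ℝ) ^ 2 * (1 / (3 * T)) + N ^ 2 * (1 / (3 * T)) + N ^ 2 * (1 / (3 * T)) := by
        linarith
    _ = (N : ℝ) ^ 2 / T := p4

end Pool.Agent.Lib.MP_509488_nt.Unif
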