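import Mathlib
import Pool.Agent.Lib.MP_509488_nt.Unif.StmtsU
import Pool.Agent.Lib.MP_509488_nt.Unif.Fin

/-!
# Uniform bases: final union bound, uniform form
-/

namespace Pool.Agent.Lib.MP_509488_nt.Unif

open Finset

namespace UFM

/-- The bound for the exponent `r` in all cases. -/
theorem bound (h1 : RU1) (h2 : RU2) (h3 : RU3) :
    ∃ A N₀ : ℕ, ∀ N : ℕ, N₀ ≤ N → ∀ w : ℝ, Real.log N ≤ w → ∀ x y : ℕ, 2 ≤ x → x ≤ N → 2 ≤ y →
    y ≤ N → Nat.Coprime x y →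
    ∀ (p q s : ℕ) (z e₁ e₂ : ℤ), 1 ≤ p → 1 ≤ q → s.Prime → (e₁ = 1 ∨ e₁ = -1) →
        (e₂ = 1 ∨ e₂ = -1) → 2 ≤ z.natAbs → e₁ * (x : ℤ) ^ p + e₂ * (y : ℤ) ^ q = z ^ s →
        ((∃ l : ℕ, l.Prime ∧ l ∣ x * y ∧ (l : ℝ) ≤ w) ∨
          ((p : ℝ) ≤ Real.exp w ∧ (q : ℝ) ≤ Real.exp w)) →
        (s : ℝ) ≤ w ^ A := by
  obtain ⟨A₁, N₁, hA₁⟩ := h1
  obtain ⟨A₂, N₂, hA₂⟩ := h2
  obtain ⟨A₃, N₃, hA₃⟩ := h3
  obtain ⟨N₄, hN₄⟩ := log_ge 2
  refine ⟨max A₁ (max A₂ A₃), max (max N₁ N₂) (max N₃ N₄), ?_⟩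
  intro N hN w hw x y hx2 hxN hy2 hyN hxy p q s z e₁ e₂ hp hq hs he₁ he₂ hz heq hcase
  have hN1 : N₁ ≤ N := by omega
  have hN2 : N₂ ≤ N := by omega
  have hN3 : N₃ ≤ N := by omega
  have hL : 2 ≤ Real.log N := hN₄ N (by omega)
  have hw2 : 2 ≤ w := hL.trans hw
  have mono : ∀ B : ℕ, B ≤ max A₁ (max A₂ A₃) → w ^ B ≤
      w ^ (max A₁ (max A₂ A₃)) := fun B hB => pow_le_pow_right₀ (by linarith) hB
  have m1 := mono A₁ (by omega)
  have m2 := mono A₂ (by omega)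
  have m3 := mono A₃ (by omega)
  have heq' : e₂ * (y : ℤ) ^ q + e₁ * (x : ℤ) ^ p = z ^ s := by rw [← heq]; ring
  -- a small prime factor of `x * y`
  have small : ∀ l : ℕ, l.Prime → l ∣ x * y → (l : ℝ) ≤ w →
      (s : ℝ) ≤ w ^ (max A₁ (max A₂ A₃)) := by
    intro l hl hlxy hlE
    rcases (Nat.Prime.dvd_mul hl).1 hlxy with hlx | hly
    · rcases Nat.lt_or_ge (x ^ p) (y ^ q) with hlt | hge
      · exact (hA₂ N hN2 w hw x y p q s l z e₁ e₂ (by omega) hxN hy2 hyN hxy hp hq hs hl hlx hlE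
          he₁ he₂ hz heq hlt).trans m2
      · exact (hA₁ N hN1 w hw x y p q s l z e₁ e₂ (by omega) hxN hy2 hyN hxy hp hq hs hl hlx hlE
          he₁ he₂ hz heq hge).trans m1
    · rcases Nat.lt_or_ge (y ^ q) (x ^ p) with hlt | hge
      · exact (hA₂ N hN2 w hw y x q p s l z e₂ e₁ (by omega) hyN hx2 hxN hxy.symm hq hp hs hl hly
          hlE he₂ he₁ hz heq' hlt).trans m2
      · exact (hA₁ N hN1 w hw y x q p s l z e₂ e₁ (by omega) hyN hx2 hxN hxy.symm hq hp hs hl hly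
          hlE he₂ he₁ hz heq' hge).trans m1
  rcases hcase with ⟨l, hl, hlxy, hlE⟩ | ⟨hpE, hqE⟩
  · exact small l hl hlxy hlE
  · rcases Nat.even_or_odd x with hxe | hxo
    · exact small 2 Nat.prime_two (Dvd.dvd.mul_right hxe.two_dvd y) (by exact_mod_cast hw2)
    · rcases Nat.even_or_odd y with hye | hyo
      · exact small 2 Nat.prime_two (Dvd.dvd.mul_left hye.two_dvd x) (by exact_mod_cast hw2)
      · exact (hA₃ N hN3 w hw x y p q s z e₁ e₂ hx2 hxN hy2 hyN hxy hxo hyo hp hq hpE hqE hs he₁ he₂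
          heq).trans m3

open scoped Classical in
/-- Exponents and signs: every solution gives one with `r` a small prime. -/
theorem reduce (h1 : RU1) (h2 : RU2) (h3 : RU3) :
    ∃ A N₀ : ℕ, ∀ N : ℕ, N₀ ≤ N → ∀ w : ℝ, Real.log N ≤ w → ∀ x y : ℕ, 2 ≤ x → x ≤ N → 2 ≤ y →
    y ≤ N → Nat.Coprime x y →
    (∃ (p q r : ℕ) (z e₁ e₂ : ℤ), 1 ≤ p ∧ q.Prime ∧ 2 ≤ r ∧ (e₁ = 1 ∨ e₁ = -1) ∧
        (e₂ = 1 ∨ e₂ = -1) ∧ e₁ * (x : ℤ) ^ p + e₂ * (y : ℤ) ^ q = z ^ r ∧
        ((∃ l : ℕ, l.Prime ∧ l ∣ x * y ∧ (l : ℝ) ≤ w) ∨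
          ((p : ℝ) ≤ Real.exp w ∧ (q : ℝ) ≤ Real.exp w))) →
    ∃ (r : ℕ) (e₁ e₂ : ℤ), r.Prime ∧ (r : ℝ) ≤ w ^ (A + 1) ∧ (e₁ = 1 ∨ e₁ = -1) ∧
        (e₂ = 1 ∨ e₂ = -1) ∧ ∃ (p q : ℕ) (z : ℤ), q.Prime ∧
          e₁ * (x : ℤ) ^ p + e₂ * (y : ℤ) ^ q = z ^ r := by
  obtain ⟨A, N₁, hA⟩ := bound h1 h2 h3
  obtain ⟨N₂, hN₂⟩ := log_ge 2
  refine ⟨A, max N₁ N₂, fun N hN w hw x y hx2 hxN hy2 hyN hxy hsol => ?_⟩
  have hN1 : N₁ ≤ N := le_trans (le_max_left _ _) hN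
  have hL : 2 ≤ Real.log N := hN₂ N (le_trans (le_max_right _ _) hN)
  have hw2 : 2 ≤ w := hL.trans hw
  obtain ⟨p, q, r, z, e₁, e₂, hp, hq, hr, he₁, he₂, heq, hcase⟩ := hsol
  have two_le_pow : (2 : ℝ) ≤ w ^ (A + 1) := by
    calc (2 : ℝ) ≤ w := hw2
      _ = w ^ 1 := (pow_one _).symm
      _ ≤ w ^ (A + 1) := pow_le_pow_right₀ (by linarith) (by omega)
  -- the size of z
  rcases Nat.lt_or_ge z.natAbs 2 with hz | hz
  · -- |z| ≤ 1
    have hz' : z = 0 ∨ z = 1 ∨ z = -1 := by omega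
    have key : z ^ r = 1 ∨ z ^ r = -1 := by
      rcases hz' with rfl | rfl | rfl
      · exfalso
        rw [zero_pow (by omega)] at heq
        have hcop : IsCoprime ((x : ℤ) ^ p) ((y : ℤ) ^ q) := by
          apply IsCoprime.pow
          exact Nat.isCoprime_iff_coprime.2 hxy
        have hdvd : (y : ℤ) ^ q ∣ (x : ℤ) ^ p := by
          rcases he₁ with rfl | rfl
          · exact ⟨-e₂, by linarith⟩
          · exact ⟨e₂, by linarith⟩
        have hu : IsUnit ((y : ℤ) ^ q) := hcop.symm.isUnit_of_dvd' dvd_rfl hdvd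
        have := (isUnit_pow_iff hq.ne_zero).1 hu
        rw [Int.isUnit_iff] at this
        omega
      · left; simp
      · rcases Nat.even_or_odd r with h | h
        · left; exact h.neg_one_pow
        · right; exact h.neg_one_pow
    rcases key with h | h
    · refine ⟨2, e₁, e₂, Nat.prime_two, by exact_mod_cast two_le_pow, he₁, he₂, p, q, 1, hq, ?_⟩
      rw [heq, h]; norm_num
    · have hn : ∀ e : ℤ, (e = 1 ∨ e = -1) → (-e = 1 ∨ -e = -1) := by
        intro e he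
        rcases he with rfl | rfl
        · right; rfl
        · left; rfl
      refine ⟨2, -e₁, -e₂, Nat.prime_two, by exact_mod_cast two_le_pow, hn _ he₁, hn _ he₂,
        p, q, 1, hq, ?_⟩
      have : -e₁ * (x : ℤ) ^ p + -e₂ * (y : ℤ) ^ q = -(e₁ * (x : ℤ) ^ p + e₂ * (y : ℤ) ^ q) := by
        ring
      rw [this, heq, h]; norm_num
  · -- |z| ≥ 2
    set s := r.minFac with hs
    have hsp : s.Prime := Nat.minFac_prime (by omega)
    obtain ⟨m, hm⟩ := Nat.minFac_dvd r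
    have hm0 : m ≠ 0 := by
      rintro rfl
      simp at hm; omega
    have hzr : z ^ r = (z ^ m) ^ s := by rw [← pow_mul, mul_comm m s]; exact congrArg _ hm
    have hzm : 2 ≤ (z ^ m).natAbs := by
      rw [Int.natAbs_pow]
      calc 2 ≤ z.natAbs := hz
        _ = z.natAbs ^ 1 := (pow_one _).symm
        _ ≤ z.natAbs ^ m := Nat.pow_le_pow_right (by omega) (by omega)
    have hbound : (s : ℝ) ≤ w ^ A :=
      hA N hN1 w hw x y hx2 hxN hy2 hyN hxy p q s (z ^ m) e₁ e₂ hp hq.one_le hsp he₁ he₂ hzm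
        (by rw [heq, hzr]) hcase
    refine ⟨s, e₁, e₂, hsp, hbound.trans (pow_le_pow_right₀ (by linarith) (by omega)), he₁, he₂,
      p, q, z ^ m, hq, by rw [heq, hzr]⟩

/-- The real inequality behind the union bound. -/
theorem real_ineq (A C : ℕ) : ∃ t₀ : ℝ, 1 ≤ t₀ ∧ ∀ t : ℝ, t₀ ≤ t → ∀ u : ℝ, t ^ (C + 3) ≤ u →
    (Real.exp t ^ (A + 1) + 1) * 4 * Real.exp (-(u / ((A + 1 : ℝ) * t) ^ C)) ≤
      Real.exp (-(u / t ^ (C + 3))) := by
  set K : ℝ := (A + 1 : ℝ) ^ C with hK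
  have hK1 : 1 ≤ K := one_le_pow₀ (by linarith [Nat.cast_nonneg (α := ℝ) A])
  have hA0 : (0 : ℝ) ≤ A := Nat.cast_nonneg A
  refine ⟨2 * K * (A + 5), by nlinarith, fun t ht u hu => ?_⟩
  have ht1 : 1 ≤ t := le_trans (by nlinarith) ht
  have ht0 : 0 < t := by linarith
  have htC : 0 < t ^ C := pow_pos ht0 _
  -- the exponent
  have e1 : u / ((A + 1 : ℝ) * t) ^ C = u / (K * t ^ C) := by rw [mul_pow]
  have hu0 : 0 ≤ u := le_trans (by positivity) hu
  have h1 : u / t ^ (C + 3) ≤ u / (2 * (K * t ^ C)) := by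
    apply div_le_div_of_nonneg_left hu0 (by positivity)
    rw [pow_add]
    have h2 : 2 * K ≤ t ^ 3 := by
      have : t ≤ t ^ 3 := by
        calc t = t ^ 1 := (pow_one t).symm
          _ ≤ t ^ 3 := pow_le_pow_right₀ ht1 (by norm_num)
      nlinarith
    nlinarith
  have h2 : t ^ 3 / (2 * K) ≤ u / (2 * (K * t ^ C)) := by
    rw [div_le_div_iff₀ (by positivity) (by positivity)]
    have : t ^ 3 * t ^ C ≤ u := by rw [← pow_add, add_comm 3 C]; exact hu
    nlinarith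
  have h3 : (A + 5) * t ≤ t ^ 3 / (2 * K) := by
    rw [le_div_iff₀ (by positivity)]
    have : t * t ≤ t ^ 3 := by
      calc t * t = t ^ 2 := by ring
        _ ≤ t ^ 3 := pow_le_pow_right₀ ht1 (by norm_num)
    nlinarith
  have h4 : u / (K * t ^ C) = u / (2 * (K * t ^ C)) + u / (2 * (K * t ^ C)) := by
    field_simp; norm_num
  -- the number of classes
  have h5 : (Real.exp t ^ (A + 1) + 1) * 4 ≤ Real.exp ((A + 5) * t) := by
    have h6 : Real.exp t ^ (A + 1) = Real.exp ((A + 1) * t) := by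
      rw [← Real.exp_nat_mul]; push_cast; ring_nf
    have h7 : (1 : ℝ) ≤ Real.exp ((A + 1) * t) := Real.one_le_exp (by positivity)
    have h8 : (8 : ℝ) ≤ Real.exp (4 * t) := by
      have h9 : (2 : ℝ) ≤ Real.exp 1 := by
        have := Real.add_one_le_exp (1 : ℝ); linarith
      have h10 : Real.exp (4 * t) ≥ Real.exp 4 := Real.exp_le_exp.2 (by linarith)
      have h11 : Real.exp 4 = Real.exp 1 ^ 4 := by rw [← Real.exp_nat_mul]; norm_num
      have h12 : (2 : ℝ) ^ 4 ≤ Real.exp 1 ^ 4 := pow_le_pow_left₀ (by norm_num) h9 4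
      rw [← h11] at h12
      linarith
    rw [h6]
    have h9 : Real.exp ((A + 5) * t) = Real.exp ((A + 1) * t) * Real.exp (4 * t) := by
      rw [← Real.exp_add]; ring_nf
    rw [h9]
    nlinarith
  calc (Real.exp t ^ (A + 1) + 1) * 4 * Real.exp (-(u / ((A + 1 : ℝ) * t) ^ C))
      ≤ Real.exp ((A + 5) * t) * Real.exp (-(u / ((A + 1 : ℝ) * t) ^ C)) := by
        gcongr
    _ = Real.exp ((A + 5) * t - u / ((A + 1 : ℝ) * t) ^ C) := by
        rw [← Real.exp_add]; ring_nf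
    _ ≤ Real.exp (-(u / t ^ (C + 3))) := by
        apply Real.exp_le_exp.2
        rw [e1, h4]
        linarith

end UFM

open scoped Classical in
/-- UF: the final union bound, uniform in `w`. -/
theorem final4 (h1 : RU1) (h2 : RU2) (h3 : RU3) (h4 : SieveU) : Final4 := by
  obtain ⟨A, N₁, hA⟩ := UFM.reduce h1 h2 h3
  obtain ⟨C, N₂, hB⟩ := h4
  obtain ⟨t₀, ht₀1, ht₀⟩ := UFM.real_ineq A C
  obtain ⟨N₃, hN₃⟩ := log_ge (Real.exp t₀)
  refine ⟨C + 3, max (max N₁ N₂) N₃, fun N hN w hw x hx2 hxN => ?_⟩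
  have hN1 : N₁ ≤ N := le_trans (le_trans (le_max_left _ _) (le_max_left _ _)) hN
  have hN2 : N₂ ≤ N := le_trans (le_trans (le_max_right _ _) (le_max_left _ _)) hN
  have hN3 := hN₃ N (le_trans (le_max_right _ _) hN)
  have hwt : Real.exp t₀ ≤ w := hN3.trans hw
  have hw0 : 0 < w := lt_of_lt_of_le (Real.exp_pos _) hwt
  have htw : t₀ ≤ Real.log w := by
    rw [Real.le_log_iff_exp_le hw0]; exact hwt
  have ht1 : 1 ≤ Real.log w := ht₀1.trans htw
  have hw2 : 2 ≤ w := by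
    have := Real.add_one_le_exp t₀
    linarith
  set bad : ℕ → ℤ × ℤ → Finset ℕ := fun r e => (Icc 1 N).filter (fun y : ℕ => ∃ (p q : ℕ) (z : ℤ),
    q.Prime ∧ e.1 * (x : ℤ) ^ p + e.2 * (y : ℤ) ^ q = z ^ r) with hbad
  set R : Finset ℕ := (Finset.range (⌊w ^ (A + 1)⌋₊ + 1)).filter Nat.Prime with hR
  set sg : Finset (ℤ × ℤ) := ({1, -1} : Finset ℤ) ×ˢ ({1, -1} : Finset ℤ) with hsg
  set U : Finset ℕ := R.biUnion (fun r => sg.biUnion (fun e => bad r e)) with hU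
  have hsub : {y : ℕ | 2 ≤ y ∧ y ≤ N ∧ Nat.Coprime x y ∧
      ∃ (p q r : ℕ) (z e₁ e₂ : ℤ), 1 ≤ p ∧ q.Prime ∧ 2 ≤ r ∧ (e₁ = 1 ∨ e₁ = -1) ∧
        (e₂ = 1 ∨ e₂ = -1) ∧ e₁ * (x : ℤ) ^ p + e₂ * (y : ℤ) ^ q = z ^ r ∧
        ((∃ l : ℕ, l.Prime ∧ l ∣ x * y ∧ (l : ℝ) ≤ w) ∨
          ((p : ℝ) ≤ Real.exp w ∧ (q : ℝ) ≤ Real.exp w))} ⊆ (U : Set ℕ) := by
    rintro y ⟨hy2, hyN, hxy, hsol⟩
    obtain ⟨r', e₁', e₂', hr', hrA, he₁', he₂', hs⟩ := hA N hN1 w hw x y hx2 hxN hy2 hyN hxy hsol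
    simp only [hU, Finset.coe_biUnion, Set.mem_iUnion, Finset.mem_coe]
    refine ⟨r', ?_, (e₁', e₂'), ?_, ?_⟩
    · simp only [hR, Finset.mem_filter, Finset.mem_range]
      exact ⟨Nat.lt_succ_of_le (Nat.le_floor hrA), hr'⟩
    · simp only [hsg, Finset.mem_product, Finset.mem_insert, Finset.mem_singleton]
      exact ⟨he₁', he₂'⟩
    · simp only [hbad, Finset.mem_filter, Finset.mem_Icc]
      exact ⟨⟨by omega, hyN⟩, hs⟩
  have hcard := Set.ncard_le_ncard hsub U.finite_toSet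
  rw [Set.ncard_coe_finset] at hcard
  have hcard' := (Nat.cast_le (α := ℝ)).2 hcard
  refine hcard'.trans ?_
  rcases le_or_gt (Real.log w ^ (C + 3)) (Real.log N) with hbig | hsmall
  · -- the main case
    have hW : Real.log N ≤ w ^ (A + 1) := by
      calc Real.log N ≤ w := hw
        _ = w ^ 1 := (pow_one _).symm
        _ ≤ w ^ (A + 1) := pow_le_pow_right₀ (by linarith) (by omega)
    have hlogW : Real.log (w ^ (A + 1)) = (A + 1 : ℝ) * Real.log w := by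
      rw [Real.log_pow]; push_cast; ring
    have hUcard : (U.card : ℝ) ≤ (w ^ (A + 1) + 1) * 4 *
        (3 * N * Real.exp (-(Real.log N / ((A + 1 : ℝ) * Real.log w) ^ C))) := by
      have hb : ∀ r ∈ R, ∀ e ∈ sg, ((bad r e).card : ℝ) ≤
          3 * N * Real.exp (-(Real.log N / ((A + 1 : ℝ) * Real.log w) ^ C)) := by
        intro r hr e he
        simp only [hR, Finset.mem_filter, Finset.mem_range] at hr
        simp only [hsg, Finset.mem_product, Finset.mem_insert, Finset.mem_singleton] at he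
        have hrA : (r : ℝ) ≤ w ^ (A + 1) := by
          have h1 : r ≤ ⌊w ^ (A + 1)⌋₊ := Nat.lt_succ_iff.1 hr.1
          exact (Nat.cast_le.2 h1).trans (Nat.floor_le (by positivity))
        have := hB N hN2 (w ^ (A + 1)) hW x r (by omega) hxN hr.2 hrA e.1 e.2 he.1 he.2
        rw [hlogW] at this
        exact this
      have hsgc : (sg.card : ℝ) = 4 := by
        have : sg.card = 4 := by simp [hsg]
        rw [this]; norm_num
      have hRc : (R.card : ℝ) ≤ w ^ (A + 1) + 1 := by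
        have h1 : R.card ≤ ⌊w ^ (A + 1)⌋₊ + 1 := by
          refine (Finset.card_filter_le _ _).trans ?_
          rw [Finset.card_range]
        have h2 : ((⌊w ^ (A + 1)⌋₊ : ℕ) : ℝ) ≤ w ^ (A + 1) :=
          Nat.floor_le (by positivity)
        have h3 : (R.card : ℝ) ≤ ((⌊w ^ (A + 1)⌋₊ + 1 : ℕ) : ℝ) := by exact_mod_cast h1
        push_cast at h3
        linarith
      set Bd : ℝ := 3 * N * Real.exp (-(Real.log N / ((A + 1 : ℝ) * Real.log w) ^ C)) with hBd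
      have hM : 0 ≤ Bd := by positivity
      calc (U.card : ℝ) ≤ ((∑ r ∈ R, (sg.biUnion (fun e => bad r e)).card : ℕ) : ℝ) := by
            exact_mod_cast Finset.card_biUnion_le
        _ = ∑ r ∈ R, ((sg.biUnion (fun e => bad r e)).card : ℝ) := by push_cast; rfl
        _ ≤ ∑ r ∈ R, (4 * Bd) := by
            apply Finset.sum_le_sum
            intro r hr
            calc ((sg.biUnion (fun e => bad r e)).card : ℝ)
                ≤ ((∑ e ∈ sg, (bad r e).card : ℕ) : ℝ) := by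
                  exact_mod_cast Finset.card_biUnion_le
              _ = ∑ e ∈ sg, ((bad r e).card : ℝ) := by push_cast; rfl
              _ ≤ ∑ e ∈ sg, Bd := Finset.sum_le_sum (fun e he => hb r hr e he)
              _ = 4 * Bd := by rw [Finset.sum_const, nsmul_eq_mul, hsgc]
        _ = (R.card : ℝ) * (4 * Bd) := by rw [Finset.sum_const, nsmul_eq_mul]
        _ ≤ (w ^ (A + 1) + 1) * (4 * Bd) := by gcongr
        _ = _ := by ring
    have hfin := ht₀ (Real.log w) htw (Real.log N) hbig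
    rw [Real.exp_log hw0] at hfin
    calc (U.card : ℝ) ≤ _ := hUcard
      _ = 3 * N * ((w ^ (A + 1) + 1) * 4 *
          Real.exp (-(Real.log N / ((A + 1 : ℝ) * Real.log w) ^ C))) := by ring
      _ ≤ 3 * N * Real.exp (-(Real.log N / Real.log w ^ (C + 3))) := by gcongr
  · -- the trivial case
    have hUN : (U.card : ℝ) ≤ N := by
      have : U ⊆ Icc 1 N := by
        intro y hy
        simp only [hU, Finset.mem_biUnion, hbad, Finset.mem_filter] at hy
        obtain ⟨_, _, _, _, h, _⟩ := hy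
        exact h
      have := Finset.card_le_card this
      rw [Nat.card_Icc] at this
      exact_mod_cast (by omega : U.card ≤ N)
    have h5 : Real.log N / Real.log w ^ (C + 3) ≤ 1 := by
      rw [div_le_one (by positivity)]
      exact hsmall.le
    have h6 : Real.exp (-1) ≤ Real.exp (-(Real.log N / Real.log w ^ (C + 3))) :=
      Real.exp_le_exp.2 (by linarith)
    have h7 : (1 : ℝ) / 3 ≤ Real.exp (-1) := by
      rw [Real.exp_neg, one_div]
      apply inv_anti₀ (Real.exp_pos _)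
      have := Real.exp_one_lt_d9
      linarith
    have hN0 : (0 : ℝ) ≤ N := Nat.cast_nonneg N
    nlinarith

end Pool.Agent.Lib.MP_509488_nt.Unif
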