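import Pool.Agent.Lib.MP_509488_nt.Unif.Stmts
import Pool.Agent.Lib.MP_509488_nt.Unif.Stmts2
import Pool.Agent.Lib.MP_509488_nt.Density.Core2

/-!
# Uniform bases, module D: the sieve count for one prime `r`
-/

namespace Pool.Agent.Lib.MP_509488_nt.Unif

open Finset Filter

namespace SieveX

theorem choose_lower' (t u : ℕ) (κ : ℝ) (hκ : 1 ≤ κ) (h : 2 * κ * u ≤ t) :
    κ ^ u ≤ (t.choose u : ℝ) := by
  have hu0 : (0 : ℝ) ≤ u := Nat.cast_nonneg _
  have h2u : 2 * (u : ℝ) ≤ t := by nlinarith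
  have hut : u ≤ t := by
    have : (u : ℝ) ≤ t := by linarith
    exact_mod_cast this
  have h1 := Nat.pow_le_choose (α := ℝ) u t
  have h2 : ((t + 1 - u : ℕ) : ℝ) = (t : ℝ) + 1 - u := by
    rw [Nat.cast_sub (by omega)]
    push_cast
    ring
  have h3 : κ * u ≤ ((t + 1 - u : ℕ) : ℝ) := by
    rw [h2]; linarith
  have h4 : (κ * u) ^ u ≤ ((t + 1 - u : ℕ) : ℝ) ^ u := pow_le_pow_left₀ (by positivity) h3 u
  have h5 : ((u.factorial : ℕ) : ℝ) ≤ (u : ℝ) ^ u := by exact_mod_cast Nat.factorial_le_pow u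
  have h6 : (0 : ℝ) < (u.factorial : ℝ) := by exact_mod_cast u.factorial_pos
  have h7 : κ ^ u * (u.factorial : ℝ) ≤ (κ * u) ^ u := by
    rw [mul_pow]
    exact mul_le_mul_of_nonneg_left h5 (by positivity)
  calc κ ^ u ≤ (κ * u) ^ u / (u.factorial : ℝ) := (le_div_iff₀ h6).2 h7
    _ ≤ ((t + 1 - u : ℕ) : ℝ) ^ u / (u.factorial : ℝ) := div_le_div_of_nonneg_right h4 h6.le
    _ ≤ (t.choose u : ℝ) := h1

/-- Few large primes divide `x`. -/
theorem few_div (S : Finset ℕ) (x : ℕ) (hx : 1 ≤ x) (hS : ∀ l ∈ S, l.Prime) (v : ℝ)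
    (hv : ∀ l ∈ S, Real.exp v ≤ l) :
    ((S.filter (fun l => l ∣ x)).card : ℝ) * v ≤ Real.log x := by
  set D := S.filter (fun l => l ∣ x) with hD
  have h1 : ∏ l ∈ D, l ∣ x := by
    apply Finset.prod_primes_dvd
    · intro l hl
      exact (hS l (mem_filter.1 hl).1).prime
    · intro l hl
      exact (mem_filter.1 hl).2
  have h2 : ∏ l ∈ D, l ≤ x := Nat.le_of_dvd (by omega) h1
  have h3 : (Real.exp v) ^ D.card ≤ (x : ℝ) := by
    have h4 : ∏ _l ∈ D, Real.exp v ≤ ∏ l ∈ D, (l : ℝ) :=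
      Finset.prod_le_prod (fun l _ => (Real.exp_pos v).le) (fun l hl => hv l (mem_filter.1 hl).1)
    rw [Finset.prod_const] at h4
    refine h4.trans ?_
    have : ((∏ l ∈ D, l : ℕ) : ℝ) ≤ (x : ℝ) := by exact_mod_cast h2
    push_cast at this
    exact this
  have h5 := Real.log_le_log (by positivity) h3
  rwa [Real.log_pow, Real.log_exp] at h5

/-- The asymptotic inequalities. -/
theorem ev1 (ε : ℝ) (h0 : 0 < ε) (h1 : ε ≤ 1) : ∀ᶠ T : ℝ in atTop,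
    2 * T ^ (ε / 3) - 3 / 2 * (T ^ (1 - ε / 3) / 16 - 1) + 1 ≤ -T ^ (1 - ε) - 1 := by
  have e1 : ∀ᶠ T : ℝ in atTop, 40 ≤ T ^ (2 * ε / 3) :=
    (tendsto_rpow_atTop (by positivity)).eventually_ge_atTop 40
  have e2 : ∀ᶠ T : ℝ in atTop, 200 ≤ T ^ (1 - 2 * ε / 3) :=
    (tendsto_rpow_atTop (by linarith)).eventually_ge_atTop 200
  have e3 : ∀ᶠ T : ℝ in atTop, 400 ≤ T ^ (1 - ε / 3) :=
    (tendsto_rpow_atTop (by linarith)).eventually_ge_atTop 400
  filter_upwards [e1, e2, e3, eventually_gt_atTop 0] with T h1 h2 h3 hT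
  have f1 : T ^ (1 - ε / 3) = T ^ (1 - ε) * T ^ (2 * ε / 3) := by
    rw [← Real.rpow_add hT]; congr 1; ring
  have f2 : T ^ (1 - ε / 3) = T ^ (ε / 3) * T ^ (1 - 2 * ε / 3) := by
    rw [← Real.rpow_add hT]; congr 1; ring
  have g1 : 0 < T ^ (1 - ε) := Real.rpow_pos_of_pos hT _
  have g2 : 0 < T ^ (ε / 3) := Real.rpow_pos_of_pos hT _
  have k1 : 40 * T ^ (1 - ε) ≤ T ^ (1 - ε / 3) := by rw [f1]; nlinarith
  have k2 : 200 * T ^ (ε / 3) ≤ T ^ (1 - ε / 3) := by rw [f2]; nlinarith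
  linarith

theorem ev2 (ε : ℝ) (h0 : 0 < ε) (h1 : ε ≤ 1) : ∀ᶠ T : ℝ in atTop,
    2 * T ^ (ε / 3) + T / 4 + 1 ≤ T - T ^ (1 - ε) - 1 := by
  have e1 : ∀ᶠ T : ℝ in atTop, 8 ≤ T ^ ε :=
    (tendsto_rpow_atTop (by positivity)).eventually_ge_atTop 8
  have e2 : ∀ᶠ T : ℝ in atTop, 16 ≤ T ^ (1 - ε / 3) :=
    (tendsto_rpow_atTop (by linarith)).eventually_ge_atTop 16
  filter_upwards [e1, e2, eventually_ge_atTop 16] with T h1 h2 hT16
  have hT : 0 < T := by linarith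
  have f1 : T = T ^ (1 - ε) * T ^ ε := by
    rw [← Real.rpow_add hT, sub_add_cancel, Real.rpow_one]
  have f2 : T = T ^ (ε / 3) * T ^ (1 - ε / 3) := by
    rw [← Real.rpow_add hT, add_sub_cancel, Real.rpow_one]
  have g1 : 0 < T ^ (1 - ε) := Real.rpow_pos_of_pos hT _
  have g2 : 0 < T ^ (ε / 3) := Real.rpow_pos_of_pos hT _
  have k1 : 8 * T ^ (1 - ε) ≤ T := by
    calc 8 * T ^ (1 - ε) ≤ T ^ (1 - ε) * T ^ ε := by nlinarith
      _ = T := f1.symm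
  have k2 : 16 * T ^ (ε / 3) ≤ T := by
    calc 16 * T ^ (ε / 3) ≤ T ^ (ε / 3) * T ^ (1 - ε / 3) := by nlinarith
      _ = T := f2.symm
  linarith

theorem ev3 (C : ℕ) : ∀ᶠ a : ℝ in atTop, 1600 * a ^ (2 * C) ≤ Real.exp (Real.sqrt a) := by
  have h1 : Tendsto (fun x : ℝ => Real.exp x / x ^ (4 * C)) atTop atTop :=
    Real.tendsto_exp_div_pow_atTop (4 * C)
  have h2 : Tendsto Real.sqrt atTop atTop := Real.tendsto_sqrt_atTop
  have h3 := (h1.comp h2).eventually_ge_atTop 1600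
  filter_upwards [h3, eventually_gt_atTop 0] with a ha ha0
  have h4 : 0 < Real.sqrt a ^ (4 * C) := pow_pos (Real.sqrt_pos.2 ha0) _
  simp only [Function.comp] at ha
  rw [le_div_iff₀ h4] at ha
  have h5 : Real.sqrt a ^ (4 * C) = a ^ (2 * C) := by
    rw [show 4 * C = 2 * (2 * C) by ring, pow_mul, Real.sq_sqrt ha0.le]
  rwa [h5] at ha

end SieveX

open SieveX

open scoped Classical in
theorem sieveR (h : Supply) : SieveR := by
  intro A ε hε0 hε1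
  set δ : ℝ := ε / 6 with hδ
  have hδ0 : 0 < δ := by positivity
  obtain ⟨n₁, hn₁⟩ := exists_nat_ge (1 / δ)
  obtain ⟨C, Λ₀, hΛ₀1, hS⟩ := h (2 * n₁ * A) (2 * n₁ + 2)
  have hlog : Tendsto (fun N : ℕ => Real.log (N : ℝ)) atTop atTop :=
    Real.tendsto_log_atTop.comp tendsto_natCast_atTop_atTop
  have hpw : Tendsto (fun T : ℝ => T ^ δ) atTop atTop := tendsto_rpow_atTop hδ0
  have hfl : Tendsto (fun T : ℝ => ⌊T ^ δ⌋₊) atTop atTop := tendsto_nat_floor_atTop.comp hpw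
  have E1 := hlog.eventually (ev1 ε hε0 hε1)
  have E2 := hlog.eventually (ev2 ε hε0 hε1)
  have E3 := hlog.eventually ((tendsto_natCast_atTop_atTop (R := ℝ)).comp hfl |>.eventually (ev3 C))
  have E4 := hlog.eventually (hfl.eventually_ge_atTop (max Λ₀ 3))
  have E5 := hlog.eventually_ge_atTop 1
  have E6 : ∀ᶠ N : ℕ in atTop, 1 ≤ N := eventually_ge_atTop 1
  have E7 : ∀ᶠ N : ℕ in atTop, 1600 ≤ Real.exp (Real.sqrt ((⌊Real.log (N : ℝ) ^ δ⌋₊ : ℕ) : ℝ)) := by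
    have := hlog.eventually ((tendsto_natCast_atTop_atTop (R := ℝ)).comp hfl |>.eventually (ev3 0))
    filter_upwards [this] with N hN
    simpa using hN
  obtain ⟨N₀, hN₀⟩ := eventually_atTop.1 (((E1.and E2).and (E3.and E4)).and ((E5.and E6).and E7))
  refine ⟨N₀, ?_⟩
  intro N hN x r hx hxN hr hrA e₁ e₂ he₁ he₂
  obtain ⟨⟨⟨F1, F2⟩, F3, F4⟩, ⟨F5, F6⟩, F7⟩ := hN₀ N hN
  set T : ℝ := Real.log N with hT
  set a : ℕ := ⌊T ^ δ⌋₊ with ha
  simp only [Function.comp] at F3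
  have hT0 : 0 < T := by linarith
  have hN0 : (0 : ℝ) < N := by exact_mod_cast F6
  have ha3 : 3 ≤ a := le_trans (le_max_right _ _) F4
  have haΛ : Λ₀ ≤ a := le_trans (le_max_left _ _) F4
  have ha3' : (3 : ℝ) ≤ a := by exact_mod_cast ha3
  have ha0 : (0 : ℝ) < a := by linarith
  have haT : (a : ℝ) ≤ T ^ δ := Nat.floor_le (Real.rpow_nonneg hT0.le _)
  have haT' : T ^ δ < a + 1 := Nat.lt_floor_add_one _
  -- T ≤ a ^ (2 n₁)
  have hTa : T ≤ (a : ℝ) ^ (2 * n₁) := by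
    have h1 : T = (T ^ δ) ^ (1 / δ) := by
      rw [← Real.rpow_mul hT0.le, mul_one_div_cancel hδ0.ne', Real.rpow_one]
    have h2 : (T ^ δ) ^ (1 / δ) ≤ ((a : ℝ) + 1) ^ (1 / δ) :=
      Real.rpow_le_rpow (Real.rpow_nonneg hT0.le _) haT'.le (by positivity)
    have h3 : ((a : ℝ) + 1) ^ (1 / δ) ≤ ((a : ℝ) + 1) ^ (n₁ : ℝ) :=
      Real.rpow_le_rpow_of_exponent_le (by linarith) hn₁
    rw [Real.rpow_natCast] at h3
    have h4 : ((a : ℝ) + 1) ^ n₁ ≤ ((a : ℝ) ^ 2) ^ n₁ := by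
      apply pow_le_pow_left₀ (by linarith)
      nlinarith
    rw [← pow_mul] at h4
    linarith
  have hrΛ : r ≤ a ^ (2 * n₁ * A) := by
    have h1 : (r : ℝ) ≤ ((a : ℝ) ^ (2 * n₁)) ^ A :=
      hrA.trans (pow_le_pow_left₀ hT0.le hTa A)
    rw [← pow_mul] at h1
    exact_mod_cast h1
  obtain ⟨P, Q, L, hL1, hL, hPc, hQc, hPQ, hgcd⟩ := hS a haΛ r hr hrΛ
  have hB4 : 4 * T ≤ (a : ℝ) ^ (2 * n₁ + 2) := by
    rw [pow_add]
    have h1 : (4 : ℝ) ≤ (a : ℝ) ^ 2 := by nlinarith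
    have h2 : (0 : ℝ) ≤ (a : ℝ) ^ (2 * n₁) := by positivity
    nlinarith
  have hPc' : 4 * T ≤ (P.card : ℝ) := hB4.trans (by exact_mod_cast hPc)
  have hQc' : 4 * T ≤ (Q.card : ℝ) := hB4.trans (by exact_mod_cast hQc)
  -- parameters
  set X : ℕ := ⌊Real.exp ((a : ℝ) ^ 2)⌋₊ with hX
  have hX1 : 1 ≤ X := by
    rw [hX, Nat.one_le_floor_iff]
    exact Real.one_le_exp (by positivity)
  have hXle : (X : ℝ) ≤ Real.exp ((a : ℝ) ^ 2) := Nat.floor_le (Real.exp_pos _).le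
  set u : ℕ := ⌊T / (16 * (a : ℝ) ^ 2)⌋₊ with hu
  have hule : (u : ℝ) ≤ T / (16 * (a : ℝ) ^ 2) := Nat.floor_le (by positivity)
  have hult : T / (16 * (a : ℝ) ^ 2) < u + 1 := Nat.lt_floor_add_one _
  set t : ℕ := ⌈T⌉₊ with ht
  have htle : T ≤ t := Nat.le_ceil _
  have htlt : (t : ℝ) < T + 1 := Nat.ceil_lt_add_one hT0.le
  have huT : 16 * (u : ℝ) * (a : ℝ) ^ 2 ≤ T := by
    rw [le_div_iff₀ (by positivity)] at hule
    linarith
  have hu0 : (0 : ℝ) ≤ u := Nat.cast_nonneg _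
  have ha2 : (9 : ℝ) ≤ (a : ℝ) ^ 2 := by nlinarith
  have hu16 : 16 * (u : ℝ) ≤ T := by nlinarith
  have hut : u ≤ t := by
    have : (u : ℝ) ≤ t := by linarith
    exact_mod_cast this
  have hs1 : (1 : ℝ) ≤ Real.sqrt a := by
    rw [Real.one_le_sqrt]; linarith
  -- few primes divide x
  have hfew : ∀ S : Finset ℕ, S ⊆ P ∪ Q → 4 * T ≤ (S.card : ℝ) →
      t ≤ (S.filter (fun l => ¬ l ∣ x)).card := by
    intro S hSs hSc
    have h1 := few_div S x hx (fun l hl => (hPQ l (hSs hl)).1) (Real.sqrt a)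
      (fun l hl => (hPQ l (hSs hl)).2.2.2.1)
    have h2 : Real.log x ≤ T := Real.log_le_log (by exact_mod_cast hx) (by exact_mod_cast hxN)
    have h3 : ((S.filter (fun l => l ∣ x)).card : ℝ) ≤ T := by
      have h4 : (0 : ℝ) ≤ ((S.filter (fun l => l ∣ x)).card : ℝ) := Nat.cast_nonneg _
      nlinarith
    have h4 : (S.filter (fun l => l ∣ x)).card + (S.filter (fun l => ¬ l ∣ x)).card = S.card :=
      Finset.card_filter_add_card_filter_not _
    have h5 : ((S.filter (fun l => l ∣ x)).card : ℝ) + ((S.filter (fun l => ¬ l ∣ x)).card : ℝ) =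
        (S.card : ℝ) := by exact_mod_cast h4
    have h6 : (t : ℝ) ≤ ((S.filter (fun l => ¬ l ∣ x)).card : ℝ) := by linarith
    exact_mod_cast h6
  set W : Finset ℕ := (P ∪ Q).filter (fun l => ¬ l ∣ x) with hW
  have hWm : ∀ l ∈ W, l.Prime ∧ r ∣ l - 1 ∧ l - 1 ∣ L ∧ Real.exp (Real.sqrt a) ≤ l ∧
      (l : ℝ) ≤ Real.exp ((a : ℝ) ^ 2) ∧ ¬ l ∣ x := by
    intro l hl
    obtain ⟨h1, h2⟩ := mem_filter.1 hl
    obtain ⟨g1, g2, g3, g4, g5⟩ := hPQ l h1
    exact ⟨g1, g2, g3, g4, g5, h2⟩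
  have hun : ∀ e : ℤ, (e = 1 ∨ e = -1) → ∀ l : ℕ, l.Prime → ¬ (l : ℤ) ∣ e := by
    intro e he l hl hd
    have h1 : (l : ℤ) ∣ 1 := by
      rcases he with rfl | rfl
      · exact hd
      · exact (Int.dvd_neg).1 hd
    have h2 : l ∣ 1 := by exact_mod_cast h1
    exact hl.one_lt.ne' (Nat.dvd_one.1 h2)
  have hee : e₁ * e₂ = 1 ∨ e₁ * e₂ = -1 := by
    rcases he₁ with rfl | rfl <;> rcases he₂ with rfl | rfl <;> simp
  have hcore := Density.core_count r 1 hr.two_le N L X t u hL1 hX1 hut (e₁ * e₂) e₁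
    (fun _ => (x : ℤ)) W Nat.Prime
    (by
      intro l hl
      obtain ⟨g1, g2, g3, g4, g5, g6⟩ := hWm l hl
      refine ⟨g1, Nat.le_floor g5, g2, g3, hun _ hee l g1, hun _ he₁ l g1, ?_⟩
      intro i hd
      exact g6 (by exact_mod_cast hd))
    (fun p hp => hp.one_lt.le)
    (by
      intro q hq
      by_cases hqC : q ≤ a ^ C
      · refine (hfew (P ∪ Q) (Finset.Subset.refl _) ?_).trans ?_
        · exact hPc'.trans (by exact_mod_cast Finset.card_le_card Finset.subset_union_left)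
        · apply Finset.card_le_card
          intro l hl
          rw [mem_filter]
          refine ⟨hl, ?_⟩
          have g4 := (hWm l hl).2.2.2.1
          have g7 : Nat.gcd q (l - 1) ≤ a ^ C := (Nat.gcd_le_left _ hq.pos).trans hqC
          have g8 : ((1600 * (Nat.gcd q (l - 1)) ^ 2 : ℕ) : ℝ) ≤ (l : ℝ) := by
            push_cast
            have g9 : ((Nat.gcd q (l - 1) : ℕ) : ℝ) ≤ (a : ℝ) ^ C := by exact_mod_cast g7
            calc (1600 : ℝ) * ((Nat.gcd q (l - 1) : ℕ) : ℝ) ^ 2 ≤ 1600 * ((a : ℝ) ^ C) ^ 2 := by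
                  gcongr
              _ = 1600 * (a : ℝ) ^ (2 * C) := by rw [← pow_mul, mul_comm C 2]
              _ ≤ Real.exp (Real.sqrt a) := F3
              _ ≤ l := g4
          exact_mod_cast g8
      · push Not at hqC
        have key : ∀ S : Finset ℕ, S ⊆ P ∪ Q → 4 * T ≤ (S.card : ℝ) →
            (∀ l ∈ S, ¬ q ∣ l - 1) →
            t ≤ (W.filter (fun l => 1600 * (Nat.gcd q (l - 1)) ^ 2 ≤ l)).card := by
          intro S hSs hSc hSq
          refine (hfew S hSs hSc).trans ?_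
          apply Finset.card_le_card
          intro l hl
          obtain ⟨hl1, hl2⟩ := mem_filter.1 hl
          have hlW : l ∈ W := by
            rw [hW, mem_filter]
            exact ⟨hSs hl1, hl2⟩
          rw [mem_filter]
          refine ⟨hlW, ?_⟩
          have g4 := (hWm l hlW).2.2.2.1
          have g5 : Nat.gcd q (l - 1) = 1 := (Nat.Prime.coprime_iff_not_dvd hq).2 (hSq l hl1)
          rw [g5]
          have g6 : ((1600 * 1 ^ 2 : ℕ) : ℝ) ≤ (l : ℝ) := by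
            have g7 : ((1600 * 1 ^ 2 : ℕ) : ℝ) = 1600 := by norm_num
            rw [g7]
            exact F7.trans g4
          exact_mod_cast g6
        rcases hgcd q hq hqC with h1 | h1
        · exact key P Finset.subset_union_left hPc' h1
        · exact key Q Finset.subset_union_right hQc' h1)
  -- compare the sets
  have hset : (((Icc 1 N).filter (fun y : ℕ => ∃ (p q : ℕ) (z : ℤ), q.Prime ∧
      e₁ * (x : ℤ) ^ p + e₂ * (y : ℤ) ^ q = z ^ r)).card : ℝ) ≤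
      (((Icc 1 N).filter (fun y : ℕ => ∃ (p : ℕ) (e : Fin 1 → ℕ) (z : ℤ), p.Prime ∧
      (e₁ * e₂) * (y : ℤ) ^ p + ∏ i, (fun _ => (x : ℤ)) i ^ e i = e₁ * z ^ r)).card : ℝ) := by
    have : ((Icc 1 N).filter (fun y : ℕ => ∃ (p q : ℕ) (z : ℤ), q.Prime ∧
      e₁ * (x : ℤ) ^ p + e₂ * (y : ℤ) ^ q = z ^ r)) ⊆
      ((Icc 1 N).filter (fun y : ℕ => ∃ (p : ℕ) (e : Fin 1 → ℕ) (z : ℤ), p.Prime ∧
      (e₁ * e₂) * (y : ℤ) ^ p + ∏ i, (fun _ => (x : ℤ)) i ^ e i = e₁ * z ^ r)) := by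
      intro y hy
      rw [mem_filter] at hy ⊢
      obtain ⟨hy1, p, q, z, hq, heq⟩ := hy
      refine ⟨hy1, q, fun _ => p, z, hq, ?_⟩
      have h1 : e₁ * e₁ = 1 := by rcases he₁ with rfl | rfl <;> norm_num
      rw [← heq]
      simp only [Finset.univ_unique, Finset.prod_const, Finset.card_singleton, pow_one]
      linear_combination (-(x : ℤ) ^ p) * h1
    exact_mod_cast Finset.card_le_card this
  refine hset.trans (hcore.trans ?_)
  -- numerics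
  have hLe : (L : ℝ) ^ (1 + 1) ≤ Real.exp (2 * (a : ℝ) ^ 2) := by
    calc (L : ℝ) ^ (1 + 1) ≤ (Real.exp ((a : ℝ) ^ 2)) ^ (1 + 1) :=
          pow_le_pow_left₀ (Nat.cast_nonneg _) hL _
      _ = Real.exp (2 * (a : ℝ) ^ 2) := by
          rw [← Real.exp_nat_mul]; norm_num
  have hch : Real.exp (2 * u) ≤ (t.choose u : ℝ) := by
    have h1 : Real.exp 2 < 7.4 := by
      have h2 : Real.exp 2 = Real.exp 1 * Real.exp 1 := by rw [← Real.exp_add]; norm_num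
      have h3 := Real.exp_one_lt_d9
      have h4 := Real.exp_pos 1
      rw [h2]
      nlinarith
    have h2 := choose_lower' t u (Real.exp 2) (Real.one_le_exp (by norm_num)) (by nlinarith)
    rwa [← Real.exp_nat_mul, mul_comm] at h2
  have h54 : (5 : ℝ) ^ u * (1 / 4) ^ u ≤ Real.exp (1 / 2 * u) := by
    rw [← mul_pow]
    have h1 : (5 * (1 / 4) : ℝ) ≤ Real.exp (1 / 2) := by
      have := Real.add_one_le_exp (1 / 2 : ℝ)
      linarith
    calc (5 * (1 / 4) : ℝ) ^ u ≤ (Real.exp (1 / 2)) ^ u := pow_le_pow_left₀ (by norm_num) h1 u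
      _ = Real.exp (1 / 2 * u) := by rw [← Real.exp_nat_mul, mul_comm]
  have h5u : (5 : ℝ) ^ u ≤ Real.exp (2 * u) := by
    have h1 : (5 : ℝ) ≤ Real.exp 2 := by
      have h2 : Real.exp 2 = Real.exp 1 * Real.exp 1 := by rw [← Real.exp_add]; norm_num
      have h3 := Real.exp_one_gt_d9
      rw [h2]
      nlinarith
    calc (5 : ℝ) ^ u ≤ (Real.exp 2) ^ u := pow_le_pow_left₀ (by norm_num) h1 u
      _ = Real.exp (2 * u) := by rw [← Real.exp_nat_mul, mul_comm]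
  have hXu : (X : ℝ) ^ (2 * u) ≤ Real.exp (2 * u * (a : ℝ) ^ 2) := by
    calc (X : ℝ) ^ (2 * u) ≤ (Real.exp ((a : ℝ) ^ 2)) ^ (2 * u) :=
          pow_le_pow_left₀ (Nat.cast_nonneg _) hXle _
      _ = _ := by rw [← Real.exp_nat_mul]; push_cast; ring_nf
  have ha2T : (a : ℝ) ^ 2 ≤ T ^ (ε / 3) := by
    calc (a : ℝ) ^ 2 ≤ (T ^ δ) ^ 2 := pow_le_pow_left₀ ha0.le haT 2
      _ = T ^ (ε / 3) := by
          rw [← Real.rpow_natCast, ← Real.rpow_mul hT0.le]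
          congr 1
          rw [hδ]; push_cast; ring
  have hulow : T ^ (1 - ε / 3) / 16 - 1 ≤ u := by
    have h1 : T ^ (1 - ε / 3) / 16 ≤ T / (16 * (a : ℝ) ^ 2) := by
      rw [Real.rpow_sub hT0, Real.rpow_one, div_div, mul_comm (T ^ (ε / 3)) 16]
      gcongr
    linarith
  have hNe : (N : ℝ) = Real.exp T := (Real.exp_log hN0).symm
  have h3N : (1 : ℝ) ≤ N := by exact_mod_cast F6
  have hexp1 : Real.exp (2 * (a : ℝ) ^ 2 - 3 / 2 * u) ≤
      Real.exp (-(T ^ (1 - ε))) * Real.exp (-2) := by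
    rw [← Real.exp_add]
    apply Real.exp_le_exp.2
    linarith
  have hexp2 : Real.exp (2 * (a : ℝ) ^ 2 + 2 * u + 2 * u * (a : ℝ) ^ 2) ≤
      N * Real.exp (-(T ^ (1 - ε))) * Real.exp (-2) := by
    rw [hNe, ← Real.exp_add, ← Real.exp_add]
    apply Real.exp_le_exp.2
    nlinarith
  have he2 : Real.exp (-2) ≤ 1 / 4 := by
    rw [Real.exp_neg]
    have h1 : (4 : ℝ) ≤ Real.exp 2 := by
      have h2 : Real.exp 2 = Real.exp 1 * Real.exp 1 := by rw [← Real.exp_add]; norm_num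
      have h3 := Real.exp_one_gt_d9
      rw [h2]
      nlinarith
    rw [inv_eq_one_div]
    gcongr
  have hA1 : (L : ℝ) ^ (1 + 1) * ((5 : ℝ) ^ u * (((N : ℝ) + 1) * (1 / 4) ^ u / (t.choose u : ℝ))) ≤
      N * Real.exp (-(T ^ (1 - ε))) * (1 / 2) := by
    have h1 : (5 : ℝ) ^ u * (((N : ℝ) + 1) * (1 / 4) ^ u / (t.choose u : ℝ)) =
        ((N : ℝ) + 1) * ((5 : ℝ) ^ u * (1 / 4) ^ u) / (t.choose u : ℝ) := by ring
    rw [h1]
    have h2 : ((N : ℝ) + 1) * ((5 : ℝ) ^ u * (1 / 4) ^ u) / (t.choose u : ℝ) ≤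
        (2 * N) * Real.exp (1 / 2 * u) / Real.exp (2 * u) := by
      gcongr
      linarith
    calc _ ≤ Real.exp (2 * (a : ℝ) ^ 2) * ((2 * N) * Real.exp (1 / 2 * u) / Real.exp (2 * u)) := by
          gcongr
      _ = 2 * N * Real.exp (2 * (a : ℝ) ^ 2 - 3 / 2 * u) := by
          rw [mul_div_assoc, ← Real.exp_sub]
          calc _ = 2 * N * (Real.exp (2 * (a : ℝ) ^ 2) * Real.exp (1 / 2 * u - 2 * u)) := by ring
            _ = _ := by rw [← Real.exp_add]; congr 2; ring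
      _ ≤ 2 * N * (Real.exp (-(T ^ (1 - ε))) * Real.exp (-2)) := by gcongr
      _ ≤ 2 * N * (Real.exp (-(T ^ (1 - ε))) * (1 / 4)) := by gcongr
      _ = _ := by ring
  have hA2 : (L : ℝ) ^ (1 + 1) * ((5 : ℝ) ^ u * (2 * (X : ℝ) ^ (2 * u))) ≤
      N * Real.exp (-(T ^ (1 - ε))) * (1 / 2) := by
    calc _ ≤ Real.exp (2 * (a : ℝ) ^ 2) * (Real.exp (2 * u) *
          (2 * Real.exp (2 * u * (a : ℝ) ^ 2))) := by gcongr
      _ = 2 * Real.exp (2 * (a : ℝ) ^ 2 + 2 * u + 2 * u * (a : ℝ) ^ 2) := by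
          rw [Real.exp_add, Real.exp_add]; ring
      _ ≤ 2 * (N * Real.exp (-(T ^ (1 - ε))) * Real.exp (-2)) := by gcongr
      _ ≤ 2 * (N * Real.exp (-(T ^ (1 - ε))) * (1 / 4)) := by gcongr
      _ = _ := by ring
  calc _ = (L : ℝ) ^ (1 + 1) * ((5 : ℝ) ^ u * (((N : ℝ) + 1) * (1 / 4) ^ u / (t.choose u : ℝ))) +
        (L : ℝ) ^ (1 + 1) * ((5 : ℝ) ^ u * (2 * (X : ℝ) ^ (2 * u))) := by ring
    _ ≤ N * Real.exp (-(T ^ (1 - ε))) * (1 / 2) + N * Real.exp (-(T ^ (1 - ε))) * (1 / 2) :=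
        add_le_add hA1 hA2
    _ = _ := by ring

end Pool.Agent.Lib.MP_509488_nt.Unif
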