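import Pool.Agent.Lib.MP_509488_nt.Unif.Stmts2

/-!
# Uniform bases: statements of the modules of the second version

Archimedean two logarithms (no condition on the second base), even `z`, and the final forms.
-/

namespace Pool.Agent.Lib.MP_509488_nt.Unif

open Finset

/-- F1: the abstract theorem on two archimedean logarithms (interpolation determinant). -/
def ArchAbs : Prop := ∀ α β q r K L R S : ℕ, ∀ V : ℝ, 2 ≤ α → 2 ≤ β → 1 ≤ q → 1 ≤ r →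
  Nat.Coprime q r → 1 ≤ K → 1 ≤ L → (R ≤ r ∨ S ≤ q) → K * L ≤ R * S →
  ((L : ℝ) + R) * Real.log α + S * Real.log β + 1 ≤ V →
  |r * Real.log α - q * Real.log β| * (2 * ((L : ℝ) + R) * L) * 8 ^ (K * L) ≤ 1 →
  ((K * L).factorial : ℝ) * (2 * (K : ℝ) * L + 2) ^ (K * L) *
    (∏ k ∈ range K, ((∏ i ∈ range k, (8 * (((L : ℝ) + R) * q + S * r) + i)) /
      (k.factorial : ℝ))) ^ L * Real.exp (8 * V) ^ (K * (L * (L - 1) / 2)) <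
    8 ^ (K * L * (K * L - 1) / 2) → False

/-- F2: two archimedean logarithms with an explicit (large) constant. -/
def ArchTwoLogs : Prop := ∀ α β q r L : ℕ, 2 ≤ α → 2 ≤ β → 1 ≤ q → 1 ≤ r →
  Nat.Coprime q r → 10 ≤ L → 10 + 3 * Real.log (q / Real.log α + r / Real.log β) ≤ L →
  (1000 * L * Real.log β ≤ r ∨ 1000 * L * Real.log α ≤ q) →
  Real.exp (-(1000 * (L : ℝ) ^ 2 * Real.log α * Real.log β)) ≤
    |r * Real.log α - q * Real.log β|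

/-- F3: the bound for `r` in a solution with `x ^ p < y ^ q` and a small prime factor of `x`. -/
def RBound2 : Prop := ∀ E : ℕ, ∃ A N₀ : ℕ, ∀ N : ℕ, N₀ ≤ N → ∀ x y p q r l : ℕ, ∀ z e₁ e₂ : ℤ,
  1 ≤ x → x ≤ N → 2 ≤ y → y ≤ N → Nat.Coprime x y → 1 ≤ p → 1 ≤ q → r.Prime → l.Prime → l ∣ x →
  (l : ℝ) ≤ Real.log N ^ E → (e₁ = 1 ∨ e₁ = -1) → (e₂ = 1 ∨ e₂ = -1) → 2 ≤ z.natAbs →
  e₁ * (x : ℤ) ^ p + e₂ * (y : ℤ) ^ q = z ^ r → x ^ p < y ^ q → (r : ℝ) ≤ Real.log N ^ A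

/-- F4: the bound for `r` in a solution with `x`, `y` odd (so `z` even) and exponents `p`, `q`
at most `exp ((log N) ^ E)`. -/
def RBound3 : Prop := ∀ E : ℕ, ∃ A N₀ : ℕ, ∀ N : ℕ, N₀ ≤ N → ∀ x y p q r : ℕ, ∀ z e₁ e₂ : ℤ,
  2 ≤ x → x ≤ N → 2 ≤ y → y ≤ N → Nat.Coprime x y → Odd x → Odd y → 1 ≤ p → 1 ≤ q →
  (p : ℝ) ≤ Real.exp (Real.log N ^ E) → (q : ℝ) ≤ Real.exp (Real.log N ^ E) → r.Prime →
  (e₁ = 1 ∨ e₁ = -1) → (e₂ = 1 ∨ e₂ = -1) →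
  e₁ * (x : ℤ) ^ p + e₂ * (y : ℤ) ^ q = z ^ r → (r : ℝ) ≤ Real.log N ^ A

/-- F5: the final theorem. For every `x ≤ N`, all but `N exp (-(log N) ^ (1 - ε))` of the `y ≤ N`
coprime to `x` do not occur together with `x` as bases of a solution, unless `x y` has no prime
factor up to `(log N) ^ (1 / ε)` and `p` or `q` exceeds `exp ((log N) ^ (1 / ε))`. -/
def Final3 : Prop := ∀ ε : ℝ, 0 < ε → ∃ N₀ : ℕ, ∀ N : ℕ, N₀ ≤ N → ∀ x : ℕ, 2 ≤ x → x ≤ N →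
  ({y : ℕ | 2 ≤ y ∧ y ≤ N ∧ Nat.Coprime x y ∧
      ∃ (p q r : ℕ) (z e₁ e₂ : ℤ), 1 ≤ p ∧ q.Prime ∧ 2 ≤ r ∧ (e₁ = 1 ∨ e₁ = -1) ∧
        (e₂ = 1 ∨ e₂ = -1) ∧ e₁ * (x : ℤ) ^ p + e₂ * (y : ℤ) ^ q = z ^ r ∧
        ((∃ l : ℕ, l.Prime ∧ l ∣ x * y ∧ (l : ℝ) ≤ Real.log N ^ (1 / ε)) ∨
          ((p : ℝ) ≤ Real.exp (Real.log N ^ (1 / ε)) ∧
            (q : ℝ) ≤ Real.exp (Real.log N ^ (1 / ε))))}.ncard : ℝ) ≤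
    N * Real.exp (-(Real.log N ^ (1 - ε)))

/-- F6: for almost all pairs of coprime bases there is no solution at all. -/
def DensityOne : Prop := ∀ δ : ℝ, 0 < δ → ∃ N₀ : ℕ, ∀ N : ℕ, N₀ ≤ N →
  ({a : ℕ × ℕ | 2 ≤ a.1 ∧ a.1 ≤ N ∧ 2 ≤ a.2 ∧ a.2 ≤ N ∧ Nat.Coprime a.1 a.2 ∧
      ∃ (p q r : ℕ) (z e₁ e₂ : ℤ), 1 ≤ p ∧ q.Prime ∧ 2 ≤ r ∧ (e₁ = 1 ∨ e₁ = -1) ∧
        (e₂ = 1 ∨ e₂ = -1) ∧ e₁ * (a.1 : ℤ) ^ p + e₂ * (a.2 : ℤ) ^ q = z ^ r}.ncard : ℝ) ≤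
    δ * (N : ℝ) ^ 2

end Pool.Agent.Lib.MP_509488_nt.Unif
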