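import Mathlib
import Pool.Agent.Lib.MP_509488_nt.Unif.Stmts3
import Pool.Agent.Lib.MP_509488_nt.Unif.Fin

/-!
# Uniform bases: almost all pairs of bases
-/

namespace Pool.Agent.Lib.MP_509488_nt.Unif

open Finset

/-- Euler's function takes values that are small compared with the argument. -/
theorem exists_totient_small (δ : ℝ) (hδ : 0 < δ) :
    ∃ M : ℕ, 0 < M ∧ (Nat.totient M : ℝ) ≤ δ * M := by
  have h1 : ¬ Summable (Set.indicator {p : ℕ | p.Prime} (fun n : ℕ => 1 / (n : ℝ))) :=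
    not_summable_one_div_on_primes
  rw [not_summable_iff_tendsto_nat_atTop_of_nonneg] at h1
  · obtain ⟨n, hn⟩ := (h1.eventually_ge_atTop (-Real.log δ)).exists
    set s : Finset ℕ := (range n).filter Nat.Prime with hs
    have hsp : ∀ p ∈ s, p.Prime := fun p hp => (mem_filter.1 hp).2
    refine ⟨∏ p ∈ s, p, Finset.prod_pos (fun p hp => (hsp p hp).pos), ?_⟩
    have h2 : ((Nat.totient (∏ p ∈ s, p) : ℚ) : ℝ) =
        (((∏ p ∈ s, p : ℕ) : ℚ) * ∏ p ∈ (∏ p ∈ s, p).primeFactors, (1 - (p : ℚ)⁻¹) : ℚ) := by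
      rw [Nat.totient_eq_mul_prod_factors]
    rw [Nat.primeFactors_prod hsp] at h2
    push_cast at h2 ⊢
    rw [h2, mul_comm]
    have hprod : (∏ p ∈ s, (1 - (p : ℝ)⁻¹)) ≤ δ := by
      calc (∏ p ∈ s, (1 - (p : ℝ)⁻¹)) ≤ ∏ p ∈ s, Real.exp (-(1 / (p : ℝ))) := by
            apply Finset.prod_le_prod
            · intro p hp
              have : (1 : ℝ) ≤ p := by exact_mod_cast (hsp p hp).one_le
              have := inv_le_one_of_one_le₀ this
              linarith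
            · intro p hp
              have := Real.add_one_le_exp (-(1 / (p : ℝ)))
              rw [one_div] at this ⊢
              linarith
        _ = Real.exp (-(∑ p ∈ s, 1 / (p : ℝ))) := by
            rw [← Real.exp_sum, Finset.sum_neg_distrib]
        _ ≤ Real.exp (Real.log δ) := by
            apply Real.exp_le_exp.2
            have : ∑ i ∈ range n, Set.indicator {p : ℕ | p.Prime} (fun n : ℕ => 1 / (n : ℝ)) i =
                ∑ p ∈ s, 1 / (p : ℝ) := by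
              rw [hs, Finset.sum_filter]
              apply Finset.sum_congr rfl
              intro i _
              simp [Set.indicator_apply]
            rw [this] at hn
            linarith
        _ = δ := Real.exp_log hδ
    have hpos : (0 : ℝ) ≤ ∏ p ∈ s, (p : ℝ) := Finset.prod_nonneg (fun p _ => Nat.cast_nonneg _)
    exact mul_le_mul_of_nonneg_right hprod hpos
  · intro i
    apply Set.indicator_nonneg
    intro x _
    positivity

open scoped Classical in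
/-- F6: for almost all pairs of coprime bases there is no solution. -/
theorem densityOne (h : Final3) : DensityOne := by
  intro δ hδ
  obtain ⟨N₁, h1⟩ := h (1 / 2) (by norm_num)
  obtain ⟨M, hM0, hM⟩ := exists_totient_small (δ / 4) (by positivity)
  have e1 : ∀ᶠ N : ℕ in Filter.atTop, Real.exp (-(Real.log N ^ (1 - (1 / 2) : ℝ))) ≤ δ / 2 := by
    have t1 : Filter.Tendsto (fun N : ℕ => Real.log N ^ (1 - (1 / 2) : ℝ)) Filter.atTop
        Filter.atTop :=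
      (tendsto_rpow_atTop (by norm_num)).comp
        (Real.tendsto_log_atTop.comp tendsto_natCast_atTop_atTop)
    have t2 := (Real.tendsto_exp_atBot.comp (Filter.tendsto_neg_atTop_atBot.comp t1))
    exact t2.eventually_le_const (by positivity)
  have e2 : ∀ᶠ N : ℕ in Filter.atTop, (M : ℝ) ≤ Real.log N ^ (1 / (1 / 2) : ℝ) := by
    have t1 : Filter.Tendsto (fun N : ℕ => Real.log N ^ (1 / (1 / 2) : ℝ)) Filter.atTop
        Filter.atTop :=
      (tendsto_rpow_atTop (by norm_num)).comp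
        (Real.tendsto_log_atTop.comp tendsto_natCast_atTop_atTop)
    exact t1.eventually_ge_atTop _
  have e3 : ∀ᶠ N : ℕ in Filter.atTop, (Nat.totient M : ℝ) ≤ (δ / 4) * N := by
    have t1 : Filter.Tendsto (fun N : ℕ => (δ / 4) * (N : ℝ)) Filter.atTop Filter.atTop :=
      tendsto_natCast_atTop_atTop.const_mul_atTop (by positivity)
    exact t1.eventually_ge_atTop _
  obtain ⟨N₂, h2⟩ := Filter.eventually_atTop.1 (e1.and (e2.and e3))
  refine ⟨max N₁ N₂, fun N hN => ?_⟩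
  obtain ⟨f1, f2, f3⟩ := h2 N (le_trans (le_max_right _ _) hN)
  have g1 := h1 N (le_trans (le_max_left _ _) hN)
  set S : ℕ → Set ℕ := fun x => {y : ℕ | 2 ≤ y ∧ y ≤ N ∧ Nat.Coprime x y ∧
      ∃ (p q r : ℕ) (z e₁ e₂ : ℤ), 1 ≤ p ∧ q.Prime ∧ 2 ≤ r ∧ (e₁ = 1 ∨ e₁ = -1) ∧
        (e₂ = 1 ∨ e₂ = -1) ∧ e₁ * (x : ℤ) ^ p + e₂ * (y : ℤ) ^ q = z ^ r ∧
        ((∃ l : ℕ, l.Prime ∧ l ∣ x * y ∧ (l : ℝ) ≤ Real.log N ^ (1 / (1 / 2) : ℝ)) ∨
          ((p : ℝ) ≤ Real.exp (Real.log N ^ (1 / (1 / 2) : ℝ)) ∧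
            (q : ℝ) ≤ Real.exp (Real.log N ^ (1 / (1 / 2) : ℝ))))} with hS
  have hSfin : ∀ x, (S x).Finite := fun x => (Set.finite_Iic N).subset (fun y hy => hy.2.1)
  set U₁ : Finset (ℕ × ℕ) := (Icc 2 N).biUnion (fun x => (hSfin x).toFinset.image (fun y => (x, y)))
    with hU₁
  set U₂ : Finset (ℕ × ℕ) := ((Ico 1 (1 + N)).filter (fun x => Nat.Coprime M x)) ×ˢ (Icc 1 N)
    with hU₂
  have hsub : {a : ℕ × ℕ | 2 ≤ a.1 ∧ a.1 ≤ N ∧ 2 ≤ a.2 ∧ a.2 ≤ N ∧ Nat.Coprime a.1 a.2 ∧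
      ∃ (p q r : ℕ) (z e₁ e₂ : ℤ), 1 ≤ p ∧ q.Prime ∧ 2 ≤ r ∧ (e₁ = 1 ∨ e₁ = -1) ∧
        (e₂ = 1 ∨ e₂ = -1) ∧ e₁ * (a.1 : ℤ) ^ p + e₂ * (a.2 : ℤ) ^ q = z ^ r} ⊆
      ((U₁ ∪ U₂ : Finset (ℕ × ℕ)) : Set (ℕ × ℕ)) := by
    rintro ⟨x, y⟩ ⟨hx2, hxN, hy2, hyN, hxy, p, q, r, z, e₁, e₂, hp, hq, hr, he₁, he₂, heq⟩
    simp only at hx2 hxN hy2 hyN hxy heq
    simp only [Finset.coe_union, Set.mem_union, Finset.mem_coe]
    by_cases hc : Nat.Coprime M x
    · right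
      simp only [hU₂, mem_product, mem_filter, mem_Ico, mem_Icc]
      exact ⟨⟨⟨by omega, by omega⟩, hc⟩, by omega, hyN⟩
    · left
      obtain ⟨l, hl, hlM, hlx⟩ := Nat.Prime.not_coprime_iff_dvd.1 hc
      simp only [hU₁, mem_biUnion, mem_Icc, mem_image, Set.Finite.mem_toFinset]
      refine ⟨x, ⟨hx2, hxN⟩, y, ⟨hy2, hyN, hxy, p, q, r, z, e₁, e₂, hp, hq, hr, he₁, he₂, heq,
        Or.inl ⟨l, hl, hlx.mul_right y, ?_⟩⟩, rfl⟩
      have : (l : ℝ) ≤ M := by exact_mod_cast Nat.le_of_dvd hM0 hlM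
      exact this.trans f2
  have hcard : (({a : ℕ × ℕ | 2 ≤ a.1 ∧ a.1 ≤ N ∧ 2 ≤ a.2 ∧ a.2 ≤ N ∧ Nat.Coprime a.1 a.2 ∧
      ∃ (p q r : ℕ) (z e₁ e₂ : ℤ), 1 ≤ p ∧ q.Prime ∧ 2 ≤ r ∧ (e₁ = 1 ∨ e₁ = -1) ∧
        (e₂ = 1 ∨ e₂ = -1) ∧ e₁ * (a.1 : ℤ) ^ p + e₂ * (a.2 : ℤ) ^ q = z ^ r}.ncard : ℕ) : ℝ) ≤
      (U₁.card : ℝ) + U₂.card := by
    have k1 := Set.ncard_le_ncard hsub (U₁ ∪ U₂).finite_toSet
    rw [Set.ncard_coe_finset] at k1
    have k2 := Finset.card_union_le U₁ U₂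
    exact_mod_cast k1.trans k2
  have hc1 : (U₁.card : ℝ) ≤ (δ / 2) * (N : ℝ) ^ 2 := by
    calc (U₁.card : ℝ)
        ≤ ((∑ x ∈ Icc 2 N, ((hSfin x).toFinset.image (fun y => (x, y))).card : ℕ) : ℝ) := by
          exact_mod_cast Finset.card_biUnion_le
      _ ≤ ((∑ x ∈ Icc 2 N, ((hSfin x).toFinset).card : ℕ) : ℝ) := by
          exact_mod_cast Finset.sum_le_sum (fun x _ => Finset.card_image_le)
      _ = ∑ x ∈ Icc 2 N, (((S x).ncard : ℕ) : ℝ) := by
          rw [Nat.cast_sum]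
          apply Finset.sum_congr rfl
          intro x _
          rw [Set.ncard_eq_toFinset_card _ (hSfin x)]
      _ ≤ ∑ x ∈ Icc 2 N, ((N : ℝ) * (δ / 2)) := by
          apply Finset.sum_le_sum
          intro x hx
          rw [mem_Icc] at hx
          refine (g1 x hx.1 hx.2).trans ?_
          exact mul_le_mul_of_nonneg_left f1 (Nat.cast_nonneg _)
      _ = ((Icc 2 N).card : ℝ) * ((N : ℝ) * (δ / 2)) := by
          rw [Finset.sum_const, nsmul_eq_mul]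
      _ ≤ (N : ℝ) * ((N : ℝ) * (δ / 2)) := by
          have : ((Icc 2 N).card : ℝ) ≤ N := by
            have h3 : (Icc 2 N).card ≤ N := by rw [Nat.card_Icc]; omega
            exact_mod_cast h3
          exact mul_le_mul_of_nonneg_right this (by positivity)
      _ = _ := by ring
  have hc2 : (U₂.card : ℝ) ≤ (δ / 2) * (N : ℝ) ^ 2 := by
    have k1 : (((Ico 1 (1 + N)).filter (fun x => Nat.Coprime M x)).card : ℝ) ≤ (δ / 2) * N := by
      have k2 := Nat.Ico_filter_coprime_le 1 N hM0.ne'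
      have k3 : (((Ico 1 (1 + N)).filter (fun x => Nat.Coprime M x)).card : ℝ) ≤
          (Nat.totient M : ℝ) * (((N / M : ℕ) : ℝ) + 1) := by
        exact_mod_cast k2
      have k4 : ((N / M : ℕ) : ℝ) ≤ (N : ℝ) / M := Nat.cast_div_le
      have hMp : (0 : ℝ) < M := by exact_mod_cast hM0
      have hφ : (0 : ℝ) ≤ Nat.totient M := Nat.cast_nonneg _
      calc _ ≤ (Nat.totient M : ℝ) * (((N / M : ℕ) : ℝ) + 1) := k3
        _ ≤ (Nat.totient M : ℝ) * ((N : ℝ) / M + 1) := by gcongr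
        _ = (Nat.totient M : ℝ) * ((N : ℝ) / M) + Nat.totient M := by ring
        _ ≤ (δ / 4 * M) * ((N : ℝ) / M) + (δ / 4) * N := by gcongr
        _ = (δ / 2) * N := by field_simp; ring
    have k5 : (U₂.card : ℝ) = (((Ico 1 (1 + N)).filter (fun x => Nat.Coprime M x)).card : ℝ) *
        N := by
      rw [hU₂, Finset.card_product, Nat.card_Icc]
      push_cast
      simp
    rw [k5]
    calc _ ≤ ((δ / 2) * N) * (N : ℝ) := mul_le_mul_of_nonneg_right k1 (Nat.cast_nonneg _)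
      _ = _ := by ring
  linarith

end Pool.Agent.Lib.MP_509488_nt.Unif
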