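import Mathlib
import Pool.Agent.Lib.MP_509488_nt.Unif.Stmts3
import Pool.Agent.Lib.MP_509488_nt.Unif.Fin

/-!
# Uniform bases: final union bound, third form
-/

namespace Pool.Agent.Lib.MP_509488_nt.Unif

open Finset

/-- The bound for the exponent `r` in all cases. -/
theorem fin3_bound (h1 : RBound1) (h2 : RBound2) (h3 : RBound3) (E : ℕ) (hE : 1 ≤ E) :
    ∃ A N₀ : ℕ, ∀ N : ℕ, N₀ ≤ N → ∀ x y : ℕ, 2 ≤ x → x ≤ N → 2 ≤ y → y ≤ N → Nat.Coprime x y →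
    ∀ (p q s : ℕ) (z e₁ e₂ : ℤ), 1 ≤ p → 1 ≤ q → s.Prime → (e₁ = 1 ∨ e₁ = -1) →
        (e₂ = 1 ∨ e₂ = -1) → 2 ≤ z.natAbs → e₁ * (x : ℤ) ^ p + e₂ * (y : ℤ) ^ q = z ^ s →
        ((∃ l : ℕ, l.Prime ∧ l ∣ x * y ∧ (l : ℝ) ≤ Real.log N ^ E) ∨
          ((p : ℝ) ≤ Real.exp (Real.log N ^ E) ∧ (q : ℝ) ≤ Real.exp (Real.log N ^ E))) →
        (s : ℝ) ≤ Real.log N ^ A := by
  obtain ⟨A₁, N₁, hA₁⟩ := h1 E
  obtain ⟨A₂, N₂, hA₂⟩ := h2 E
  obtain ⟨A₃, N₃, hA₃⟩ := h3 E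
  obtain ⟨N₄, hN₄⟩ := log_ge 2
  refine ⟨max A₁ (max A₂ A₃), max (max N₁ N₂) (max N₃ N₄), ?_⟩
  intro N hN x y hx2 hxN hy2 hyN hxy p q s z e₁ e₂ hp hq hs he₁ he₂ hz heq hcase
  have hN1 : N₁ ≤ N := by omega
  have hN2 : N₂ ≤ N := by omega
  have hN3 : N₃ ≤ N := by omega
  have hL : 2 ≤ Real.log N := hN₄ N (by omega)
  have mono : ∀ B : ℕ, B ≤ max A₁ (max A₂ A₃) → Real.log N ^ B ≤
      Real.log N ^ (max A₁ (max A₂ A₃)) := fun B hB => pow_le_pow_right₀ (by linarith) hB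
  have m1 := mono A₁ (by omega)
  have m2 := mono A₂ (by omega)
  have m3 := mono A₃ (by omega)
  have heq' : e₂ * (y : ℤ) ^ q + e₁ * (x : ℤ) ^ p = z ^ s := by rw [← heq]; ring
  -- a small prime factor of `x * y`
  have small : ∀ l : ℕ, l.Prime → l ∣ x * y → (l : ℝ) ≤ Real.log N ^ E →
      (s : ℝ) ≤ Real.log N ^ (max A₁ (max A₂ A₃)) := by
    intro l hl hlxy hlE
    rcases (Nat.Prime.dvd_mul hl).1 hlxy with hlx | hly
    · rcases Nat.lt_or_ge (x ^ p) (y ^ q) with hlt | hge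
      · exact (hA₂ N hN2 x y p q s l z e₁ e₂ (by omega) hxN hy2 hyN hxy hp hq hs hl hlx hlE
          he₁ he₂ hz heq hlt).trans m2
      · exact (hA₁ N hN1 x y p q s l z e₁ e₂ (by omega) hxN hy2 hyN hxy hp hq hs hl hlx hlE
          he₁ he₂ hz heq hge).trans m1
    · rcases Nat.lt_or_ge (y ^ q) (x ^ p) with hlt | hge
      · exact (hA₂ N hN2 y x q p s l z e₂ e₁ (by omega) hyN hx2 hxN hxy.symm hq hp hs hl hly hlE
          he₂ he₁ hz heq' hlt).trans m2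
      · exact (hA₁ N hN1 y x q p s l z e₂ e₁ (by omega) hyN hx2 hxN hxy.symm hq hp hs hl hly hlE
          he₂ he₁ hz heq' hge).trans m1
  rcases hcase with ⟨l, hl, hlxy, hlE⟩ | ⟨hpE, hqE⟩
  · exact small l hl hlxy hlE
  · rcases Nat.even_or_odd x with hxe | hxo
    · refine small 2 Nat.prime_two (Dvd.dvd.mul_right hxe.two_dvd y) ?_
      calc ((2 : ℕ) : ℝ) = 2 := by norm_num
        _ ≤ Real.log N := hL
        _ = Real.log N ^ 1 := (pow_one _).symm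
        _ ≤ Real.log N ^ E := pow_le_pow_right₀ (by linarith) hE
    · rcases Nat.even_or_odd y with hye | hyo
      · refine small 2 Nat.prime_two (Dvd.dvd.mul_left hye.two_dvd x) ?_
        calc ((2 : ℕ) : ℝ) = 2 := by norm_num
          _ ≤ Real.log N := hL
          _ = Real.log N ^ 1 := (pow_one _).symm
          _ ≤ Real.log N ^ E := pow_le_pow_right₀ (by linarith) hE
      · exact (hA₃ N hN3 x y p q s z e₁ e₂ hx2 hxN hy2 hyN hxy hxo hyo hp hq hpE hqE hs he₁ he₂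
          heq).trans m3

open scoped Classical in
/-- Exponents and signs: every solution gives one with `r` a small prime. -/
theorem fin3_reduce (h1 : RBound1) (h2 : RBound2) (h3 : RBound3) (E : ℕ) (hE : 1 ≤ E) :
    ∃ A N₀ : ℕ, ∀ N : ℕ, N₀ ≤ N → ∀ x y : ℕ, 2 ≤ x → x ≤ N → 2 ≤ y → y ≤ N → Nat.Coprime x y →
    (∃ (p q r : ℕ) (z e₁ e₂ : ℤ), 1 ≤ p ∧ q.Prime ∧ 2 ≤ r ∧ (e₁ = 1 ∨ e₁ = -1) ∧
        (e₂ = 1 ∨ e₂ = -1) ∧ e₁ * (x : ℤ) ^ p + e₂ * (y : ℤ) ^ q = z ^ r ∧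
        ((∃ l : ℕ, l.Prime ∧ l ∣ x * y ∧ (l : ℝ) ≤ Real.log N ^ E) ∨
          ((p : ℝ) ≤ Real.exp (Real.log N ^ E) ∧ (q : ℝ) ≤ Real.exp (Real.log N ^ E)))) →
    ∃ (r : ℕ) (e₁ e₂ : ℤ), r.Prime ∧ (r : ℝ) ≤ Real.log N ^ (A + 1) ∧ (e₁ = 1 ∨ e₁ = -1) ∧
        (e₂ = 1 ∨ e₂ = -1) ∧ ∃ (p q : ℕ) (z : ℤ), q.Prime ∧
          e₁ * (x : ℤ) ^ p + e₂ * (y : ℤ) ^ q = z ^ r := by
  obtain ⟨A, N₁, hA⟩ := fin3_bound h1 h2 h3 E hE
  obtain ⟨N₂, hN₂⟩ := log_ge 2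
  refine ⟨A, max N₁ N₂, fun N hN x y hx2 hxN hy2 hyN hxy hsol => ?_⟩
  have hN1 : N₁ ≤ N := le_trans (le_max_left _ _) hN
  have hL : 2 ≤ Real.log N := hN₂ N (le_trans (le_max_right _ _) hN)
  obtain ⟨p, q, r, z, e₁, e₂, hp, hq, hr, he₁, he₂, heq, hcase⟩ := hsol
  have two_le_pow : (2 : ℝ) ≤ Real.log N ^ (A + 1) := by
    calc (2 : ℝ) ≤ Real.log N := hL
      _ = Real.log N ^ 1 := (pow_one _).symm
      _ ≤ Real.log N ^ (A + 1) := pow_le_pow_right₀ (by linarith) (by omega)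
  -- the size of z
  rcases Nat.lt_or_ge z.natAbs 2 with hz | hz
  · -- |z| ≤ 1
    have hz' : z = 0 ∨ z = 1 ∨ z = -1 := by omega
    have key : z ^ r = 1 ∨ z ^ r = -1 := by
      rcases hz' with rfl | rfl | rfl
      · exfalso
        rw [zero_pow (by omega)] at heq
        have hcop : IsCoprime ((x : ℤ) ^ p) ((y : ℤ) ^ q) := by
          apply IsCoprime.pow
          exact Nat.isCoprime_iff_coprime.2 hxy
        have hdvd : (y : ℤ) ^ q ∣ (x : ℤ) ^ p := by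
          rcases he₁ with rfl | rfl
          · exact ⟨-e₂, by linarith⟩
          · exact ⟨e₂, by linarith⟩
        have hu : IsUnit ((y : ℤ) ^ q) := hcop.symm.isUnit_of_dvd' dvd_rfl hdvd
        have := (isUnit_pow_iff hq.ne_zero).1 hu
        rw [Int.isUnit_iff] at this
        omega
      · left; simp
      · rcases Nat.even_or_odd r with h | h
        · left; exact h.neg_one_pow
        · right; exact h.neg_one_pow
    rcases key with h | h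
    · refine ⟨2, e₁, e₂, Nat.prime_two, by exact_mod_cast two_le_pow, he₁, he₂, p, q, 1, hq, ?_⟩
      rw [heq, h]; norm_num
    · have hn : ∀ e : ℤ, (e = 1 ∨ e = -1) → (-e = 1 ∨ -e = -1) := by
        intro e he
        rcases he with rfl | rfl
        · right; rfl
        · left; rfl
      refine ⟨2, -e₁, -e₂, Nat.prime_two, by exact_mod_cast two_le_pow, hn _ he₁, hn _ he₂,
        p, q, 1, hq, ?_⟩
      have : -e₁ * (x : ℤ) ^ p + -e₂ * (y : ℤ) ^ q = -(e₁ * (x : ℤ) ^ p + e₂ * (y : ℤ) ^ q) := by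
        ring
      rw [this, heq, h]; norm_num
  · -- |z| ≥ 2
    set s := r.minFac with hs
    have hsp : s.Prime := Nat.minFac_prime (by omega)
    obtain ⟨m, hm⟩ := Nat.minFac_dvd r
    have hm0 : m ≠ 0 := by
      rintro rfl
      simp at hm; omega
    have hzr : z ^ r = (z ^ m) ^ s := by rw [← pow_mul, mul_comm m s]; exact congrArg _ hm
    have hzm : 2 ≤ (z ^ m).natAbs := by
      rw [Int.natAbs_pow]
      calc 2 ≤ z.natAbs := hz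
        _ = z.natAbs ^ 1 := (pow_one _).symm
        _ ≤ z.natAbs ^ m := Nat.pow_le_pow_right (by omega) (by omega)
    have hbound : (s : ℝ) ≤ Real.log N ^ A :=
      hA N hN1 x y hx2 hxN hy2 hyN hxy p q s (z ^ m) e₁ e₂ hp hq.one_le hsp he₁ he₂ hzm
        (by rw [heq, hzr]) hcase
    refine ⟨s, e₁, e₂, hsp, hbound.trans (pow_le_pow_right₀ (by linarith) (by omega)), he₁, he₂,
      p, q, z ^ m, hq, by rw [heq, hzr]⟩

open scoped Classical in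
theorem final3_small (h1 : RBound1) (h2 : RBound2) (h3 : RBound3) (h4 : SieveR) (ε : ℝ)
    (hε : 0 < ε) (hε1 : ε ≤ 1 / 2) :
    ∃ N₀ : ℕ, ∀ N : ℕ, N₀ ≤ N → ∀ x : ℕ, 2 ≤ x → x ≤ N →
  ({y : ℕ | 2 ≤ y ∧ y ≤ N ∧ Nat.Coprime x y ∧
      ∃ (p q r : ℕ) (z e₁ e₂ : ℤ), 1 ≤ p ∧ q.Prime ∧ 2 ≤ r ∧ (e₁ = 1 ∨ e₁ = -1) ∧
        (e₂ = 1 ∨ e₂ = -1) ∧ e₁ * (x : ℤ) ^ p + e₂ * (y : ℤ) ^ q = z ^ r ∧
        ((∃ l : ℕ, l.Prime ∧ l ∣ x * y ∧ (l : ℝ) ≤ Real.log N ^ (1 / ε)) ∨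
          ((p : ℝ) ≤ Real.exp (Real.log N ^ (1 / ε)) ∧
            (q : ℝ) ≤ Real.exp (Real.log N ^ (1 / ε))))}.ncard : ℝ) ≤
    N * Real.exp (-(Real.log N ^ (1 - ε))) := by
  set E : ℕ := ⌈1 / ε⌉₊ with hE
  have hE1 : 1 ≤ E := by
    have : 0 < 1 / ε := by positivity
    exact Nat.one_le_iff_ne_zero.2 (Nat.ceil_pos.2 this).ne'
  obtain ⟨A, N₁, hA⟩ := fin3_reduce h1 h2 h3 E hE1
  obtain ⟨N₂, hB⟩ := h4 (A + 1) (ε / 2) (by positivity) (by linarith)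
  obtain ⟨t₀, ht₀⟩ := fin_real A ε hε hε1
  obtain ⟨N₃, hN₃⟩ := log_ge (max 1 t₀)
  refine ⟨max (max N₁ N₂) N₃, fun N hN x hx2 hxN => ?_⟩
  have hN1 : N₁ ≤ N := le_trans (le_trans (le_max_left _ _) (le_max_left _ _)) hN
  have hN2 : N₂ ≤ N := le_trans (le_trans (le_max_right _ _) (le_max_left _ _)) hN
  have hN3 := hN₃ N (le_trans (le_max_right _ _) hN)
  have hL1 : 1 ≤ Real.log N := le_trans (le_max_left _ _) hN3
  have hLt : t₀ ≤ Real.log N := le_trans (le_max_right _ _) hN3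
  have hpow : Real.log N ^ (1 / ε) ≤ Real.log N ^ E := by
    rw [← Real.rpow_natCast]
    exact Real.rpow_le_rpow_of_exponent_le hL1 (Nat.le_ceil _)
  set bad : ℕ → ℤ × ℤ → Finset ℕ := fun r e => (Icc 1 N).filter (fun y : ℕ => ∃ (p q : ℕ) (z : ℤ),
    q.Prime ∧ e.1 * (x : ℤ) ^ p + e.2 * (y : ℤ) ^ q = z ^ r) with hbad
  set R : Finset ℕ := (Finset.range (⌊Real.log N ^ (A + 1)⌋₊ + 1)).filter Nat.Prime with hR
  set sg : Finset (ℤ × ℤ) := ({1, -1} : Finset ℤ) ×ˢ ({1, -1} : Finset ℤ) with hsg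
  set U : Finset ℕ := R.biUnion (fun r => sg.biUnion (fun e => bad r e)) with hU
  have hsub : {y : ℕ | 2 ≤ y ∧ y ≤ N ∧ Nat.Coprime x y ∧
      ∃ (p q r : ℕ) (z e₁ e₂ : ℤ), 1 ≤ p ∧ q.Prime ∧ 2 ≤ r ∧ (e₁ = 1 ∨ e₁ = -1) ∧
        (e₂ = 1 ∨ e₂ = -1) ∧ e₁ * (x : ℤ) ^ p + e₂ * (y : ℤ) ^ q = z ^ r ∧
        ((∃ l : ℕ, l.Prime ∧ l ∣ x * y ∧ (l : ℝ) ≤ Real.log N ^ (1 / ε)) ∨
          ((p : ℝ) ≤ Real.exp (Real.log N ^ (1 / ε)) ∧
            (q : ℝ) ≤ Real.exp (Real.log N ^ (1 / ε))))} ⊆ (U : Set ℕ) := by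
    rintro y ⟨hy2, hyN, hxy, p, q, r, z, e₁, e₂, hp, hq, hr, he₁, he₂, heq, hcase⟩
    have hexp := Real.exp_le_exp.2 hpow
    obtain ⟨r', e₁', e₂', hr', hrA, he₁', he₂', hs⟩ := hA N hN1 x y hx2 hxN hy2 hyN hxy
      ⟨p, q, r, z, e₁, e₂, hp, hq, hr, he₁, he₂, heq, by
        rcases hcase with ⟨l, hl, hlxy, hlE⟩ | ⟨hpE, hqE⟩
        · exact Or.inl ⟨l, hl, hlxy, hlE.trans hpow⟩
        · exact Or.inr ⟨hpE.trans hexp, hqE.trans hexp⟩⟩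
    simp only [hU, Finset.coe_biUnion, Set.mem_iUnion, Finset.mem_coe]
    refine ⟨r', ?_, (e₁', e₂'), ?_, ?_⟩
    · simp only [hR, Finset.mem_filter, Finset.mem_range]
      exact ⟨Nat.lt_succ_of_le (Nat.le_floor hrA), hr'⟩
    · simp only [hsg, Finset.mem_product, Finset.mem_insert, Finset.mem_singleton]
      exact ⟨he₁', he₂'⟩
    · simp only [hbad, Finset.mem_filter, Finset.mem_Icc]
      exact ⟨⟨by omega, hyN⟩, hs⟩
  have hcard : ({y : ℕ | 2 ≤ y ∧ y ≤ N ∧ Nat.Coprime x y ∧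
      ∃ (p q r : ℕ) (z e₁ e₂ : ℤ), 1 ≤ p ∧ q.Prime ∧ 2 ≤ r ∧ (e₁ = 1 ∨ e₁ = -1) ∧
        (e₂ = 1 ∨ e₂ = -1) ∧ e₁ * (x : ℤ) ^ p + e₂ * (y : ℤ) ^ q = z ^ r ∧
        ((∃ l : ℕ, l.Prime ∧ l ∣ x * y ∧ (l : ℝ) ≤ Real.log N ^ (1 / ε)) ∨
          ((p : ℝ) ≤ Real.exp (Real.log N ^ (1 / ε)) ∧
            (q : ℝ) ≤ Real.exp (Real.log N ^ (1 / ε))))}.ncard : ℝ) ≤
      (U.card : ℝ) := by
    have := Set.ncard_le_ncard hsub U.finite_toSet
    rw [Set.ncard_coe_finset] at this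
    exact_mod_cast this
  have hUcard : (U.card : ℝ) ≤ (Real.log N ^ (A + 1) + 1) * 4 *
      (N * Real.exp (-(Real.log N ^ (1 - ε / 2)))) := by
    have hb : ∀ r ∈ R, ∀ e ∈ sg, ((bad r e).card : ℝ) ≤
        N * Real.exp (-(Real.log N ^ (1 - ε / 2))) := by
      intro r hr e he
      simp only [hR, Finset.mem_filter, Finset.mem_range] at hr
      simp only [hsg, Finset.mem_product, Finset.mem_insert, Finset.mem_singleton] at he
      have hrA : (r : ℝ) ≤ Real.log N ^ (A + 1) := by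
        have h1 : r ≤ ⌊Real.log N ^ (A + 1)⌋₊ := Nat.lt_succ_iff.1 hr.1
        exact (Nat.cast_le.2 h1).trans (Nat.floor_le (by positivity))
      exact hB N hN2 x r (by omega) hxN hr.2 hrA e.1 e.2 he.1 he.2
    have hsgc : (sg.card : ℝ) = 4 := by
      have : sg.card = 4 := by simp [hsg]
      rw [this]; norm_num
    have hRc : (R.card : ℝ) ≤ Real.log N ^ (A + 1) + 1 := by
      have h1 : R.card ≤ ⌊Real.log N ^ (A + 1)⌋₊ + 1 := by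
        refine (Finset.card_filter_le _ _).trans ?_
        rw [Finset.card_range]
      have h2 : ((⌊Real.log N ^ (A + 1)⌋₊ : ℕ) : ℝ) ≤ Real.log N ^ (A + 1) :=
        Nat.floor_le (by positivity)
      have h3 : (R.card : ℝ) ≤ ((⌊Real.log N ^ (A + 1)⌋₊ + 1 : ℕ) : ℝ) := by exact_mod_cast h1
      push_cast at h3
      linarith
    have hM : 0 ≤ (N : ℝ) * Real.exp (-(Real.log N ^ (1 - ε / 2))) := by positivity
    calc (U.card : ℝ) ≤ ((∑ r ∈ R, (sg.biUnion (fun e => bad r e)).card : ℕ) : ℝ) := by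
          exact_mod_cast Finset.card_biUnion_le
      _ = ∑ r ∈ R, ((sg.biUnion (fun e => bad r e)).card : ℝ) := by push_cast; rfl
      _ ≤ ∑ r ∈ R, (4 * (N * Real.exp (-(Real.log N ^ (1 - ε / 2))))) := by
          apply Finset.sum_le_sum
          intro r hr
          calc ((sg.biUnion (fun e => bad r e)).card : ℝ)
              ≤ ((∑ e ∈ sg, (bad r e).card : ℕ) : ℝ) := by exact_mod_cast Finset.card_biUnion_le
            _ = ∑ e ∈ sg, ((bad r e).card : ℝ) := by push_cast; rfl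
            _ ≤ ∑ e ∈ sg, (N * Real.exp (-(Real.log N ^ (1 - ε / 2)))) :=
                Finset.sum_le_sum (fun e he => hb r hr e he)
            _ = 4 * (N * Real.exp (-(Real.log N ^ (1 - ε / 2)))) := by
                rw [Finset.sum_const, nsmul_eq_mul, hsgc]
      _ = (R.card : ℝ) * (4 * (N * Real.exp (-(Real.log N ^ (1 - ε / 2))))) := by
          rw [Finset.sum_const, nsmul_eq_mul]
      _ ≤ (Real.log N ^ (A + 1) + 1) * (4 * (N * Real.exp (-(Real.log N ^ (1 - ε / 2))))) := by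
          gcongr
      _ = _ := by ring
  have hfin := ht₀ (Real.log N) hLt
  calc _ ≤ (U.card : ℝ) := hcard
    _ ≤ _ := hUcard
    _ = N * ((Real.log N ^ (A + 1) + 1) * 4 * Real.exp (-(Real.log N ^ (1 - ε / 2)))) := by ring
    _ ≤ N * Real.exp (-(Real.log N ^ (1 - ε))) := by gcongr

/-- F5: the final union bound, third form. -/
theorem final3 (h1 : RBound1) (h2 : RBound2) (h3 : RBound3) (h4 : SieveR) : Final3 := by
  intro ε hε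
  have hm : 0 < min ε (1 / 2) := lt_min hε (by norm_num)
  obtain ⟨N₁, hN₁⟩ := final3_small h1 h2 h3 h4 (min ε (1 / 2)) hm (min_le_right _ _)
  obtain ⟨N₂, hN₂⟩ := log_ge 1
  refine ⟨max N₁ N₂, fun N hN x hx2 hxN => ?_⟩
  have hL : 1 ≤ Real.log N := hN₂ N (le_trans (le_max_right _ _) hN)
  have hpow : Real.log N ^ (1 / ε) ≤ Real.log N ^ (1 / min ε (1 / 2)) := by
    apply Real.rpow_le_rpow_of_exponent_le hL
    exact one_div_le_one_div_of_le hm (min_le_left _ _)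
  have hexp := Real.exp_le_exp.2 hpow
  have key := hN₁ N (le_trans (le_max_left _ _) hN) x hx2 hxN
  refine le_trans ?_ (key.trans ?_)
  · have hfin : {y : ℕ | 2 ≤ y ∧ y ≤ N ∧ Nat.Coprime x y ∧
      ∃ (p q r : ℕ) (z e₁ e₂ : ℤ), 1 ≤ p ∧ q.Prime ∧ 2 ≤ r ∧ (e₁ = 1 ∨ e₁ = -1) ∧
        (e₂ = 1 ∨ e₂ = -1) ∧ e₁ * (x : ℤ) ^ p + e₂ * (y : ℤ) ^ q = z ^ r ∧
        ((∃ l : ℕ, l.Prime ∧ l ∣ x * y ∧ (l : ℝ) ≤ Real.log N ^ (1 / min ε (1 / 2))) ∨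
          ((p : ℝ) ≤ Real.exp (Real.log N ^ (1 / min ε (1 / 2))) ∧
            (q : ℝ) ≤ Real.exp (Real.log N ^ (1 / min ε (1 / 2)))))}.Finite :=
      (Set.finite_Iic N).subset (fun y hy => hy.2.1)
    have := Set.ncard_le_ncard (s := {y : ℕ | 2 ≤ y ∧ y ≤ N ∧ Nat.Coprime x y ∧
      ∃ (p q r : ℕ) (z e₁ e₂ : ℤ), 1 ≤ p ∧ q.Prime ∧ 2 ≤ r ∧ (e₁ = 1 ∨ e₁ = -1) ∧
        (e₂ = 1 ∨ e₂ = -1) ∧ e₁ * (x : ℤ) ^ p + e₂ * (y : ℤ) ^ q = z ^ r ∧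
        ((∃ l : ℕ, l.Prime ∧ l ∣ x * y ∧ (l : ℝ) ≤ Real.log N ^ (1 / ε)) ∨
          ((p : ℝ) ≤ Real.exp (Real.log N ^ (1 / ε)) ∧
            (q : ℝ) ≤ Real.exp (Real.log N ^ (1 / ε))))}) (by
        rintro y ⟨a, b, c, p, q, r, z, e₁, e₂, k1, k2, k3, k4, k5, k6, k7⟩
        refine ⟨a, b, c, p, q, r, z, e₁, e₂, k1, k2, k3, k4, k5, k6, ?_⟩
        rcases k7 with ⟨l, hl, hlxy, hlE⟩ | ⟨hpE, hqE⟩
        · exact Or.inl ⟨l, hl, hlxy, hlE.trans hpow⟩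
        · exact Or.inr ⟨hpE.trans hexp, hqE.trans hexp⟩) hfin
    exact_mod_cast this
  · gcongr
    exact min_le_left _ _

end Pool.Agent.Lib.MP_509488_nt.Unif
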