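import Pool.Agent.Lib.MP_509488_nt.Unif.RB
import Pool.Agent.Lib.MP_509488_nt.Unif.Stmts3

/-!
# Bound for the exponent `r` in a solution with `x ^ p < y ^ q` and `l ∣ x`
-/

namespace Pool.Agent.Lib.MP_509488_nt.Unif.RB2

open Finset RB

/-- If `Z^r = y^q ± x^p` with `2 x^p < y^q`, then `r log Z - q log y` is small. -/
theorem log_form {X Y W : ℝ} (hX : 0 < X) (hXY : 2 * X < Y) (h : W = X + Y ∨ W + X = Y) :
    |Real.log W - Real.log Y| ≤ 2 * X / Y := by
  have hY : 0 < Y := by linarith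
  have hW : 0 < W := by
    rcases h with h | h <;> linarith
  have hu0 : 0 < W / Y := by positivity
  have hlog : Real.log W - Real.log Y = Real.log (W / Y) := (Real.log_div hW.ne' hY.ne').symm
  have h1 : Real.log (W / Y) ≤ W / Y - 1 := Real.log_le_sub_one_of_pos hu0
  have h2 : 1 - (W / Y)⁻¹ ≤ Real.log (W / Y) := Real.one_sub_inv_le_log_of_pos hu0
  have h3 : W / Y - 1 ≤ X / Y := by
    rw [div_sub_one hY.ne']
    apply div_le_div_of_nonneg_right _ hY.le
    rcases h with h | h <;> linarith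
  have h4 : X / Y ≤ 2 * X / Y := by
    apply div_le_div_of_nonneg_right _ hY.le
    linarith
  have h5 : -(2 * X / Y) ≤ 1 - (W / Y)⁻¹ := by
    rw [inv_div, ← neg_div, one_sub_div hW.ne', div_le_div_iff₀ hY hW]
    rcases h with h | h
    · nlinarith
    · have : W = Y - X := by linarith
      rw [this]
      nlinarith
  rw [hlog, abs_le]
  constructor <;> linarith

theorem aux_one {G c : ℝ} (hG : 2 ≤ G) (hc : 0.6931471803 < c) : 1 ≤ G * c := by nlinarith

theorem aux_self {G c : ℝ} (hG : 2 ≤ G) (hc : 0 < c) : c ≤ G * c := by nlinarith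

theorem aux_q {q c : ℝ} (hq : 1 ≤ q) (hc : 0.6931471803 < c) : q ≤ 3 / 2 * (q * c) := by nlinarith

theorem aux_r {r s c : ℝ} (hs : 0 < s) (hr : r ≤ 1 + s) (hc : 0.6931471803 < c) :
    r ≤ 3 / 2 * (1 + s) * c := by nlinarith

theorem aux_big {L c r : ℝ} (hL : 10 ≤ L) (hc : 1 ≤ c) (h : 1000 * L * c ≤ r) :
    9 * L * c + 1 ≤ r := by nlinarith

theorem aux_mul {a b : ℝ} (ha : 1 ≤ a) (hb : 1 ≤ b) : 1 ≤ a * b := by nlinarith

theorem aux_log {c a w : ℝ} (hca : c ≤ a) (hc : 0 < c) (hw : 1 ≤ w) : c ≤ 1 * w * a := by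
  nlinarith

theorem aux_L {L t c m : ℝ} (h : L ≤ 11 + 3 * m) (hm : m ≤ 13 * c + 2 * (L / 16 - 1 + 4 * c) + t)
    (hc : c < 0.6931471808) (ht : 0 ≤ t) : L ≤ 78 + 5 * t := by linarith

theorem aux_fin {T P : ℝ} (hT : 2048 ≤ T) (hP : 1 ≤ P) : 1 + 2000 * P ≤ T * P := by nlinarith

theorem case_ndvd2 (hTL : TwoLogs) (hAL : ArchTwoLogs) {x y p q r l E Z : ℕ} {T : ℝ}
    (hT1 : 2048 ≤ T) (hT2 : 78 + 10 * ((E : ℝ) + 1) * Real.log T ≤ T)
    (hxT : Real.log x ≤ T) (hyT : Real.log y ≤ T) (hx : 1 ≤ x) (hy : 2 ≤ y) (hZ : 2 ≤ Z)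
    (hl : l.Prime) (hlT : (l : ℝ) ≤ T ^ E) (hr : r.Prime) (hlr : l < r) (hrq : ¬ r ∣ q)
    (hq : 1 ≤ q) (h1 : Z ^ r = x ^ p + y ^ q ∨ Z ^ r + x ^ p = y ^ q) (h2 : x ^ p < y ^ q)
    (hZl : ¬ l ∣ Z) (hyl : ¬ l ∣ y)
    (hd : (l : ℤ) ^ p ∣ ((Z ^ (2 * (l - 1)) : ℕ) : ℤ) ^ r - ((y ^ (2 * (l - 1)) : ℕ) : ℤ) ^ q) :
    (r : ℝ) ≤ T ^ (2 * E + 5) := by
  have hl2 := hl.two_le
  have hlog2a : (0.6931471803 : ℝ) < Real.log 2 := Real.log_two_gt_d9
  have hlog2b : Real.log 2 < (0.6931471808 : ℝ) := Real.log_two_lt_d9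
  set G : ℕ := 2 * (l - 1) with hG
  have hG2 : (2 : ℝ) ≤ (G : ℝ) := by
    have : 2 ≤ G := by omega
    exact_mod_cast this
  have hGT : (G : ℝ) ≤ 2 * T ^ E := by
    have h3 : G ≤ 2 * l := by omega
    have h4 : (G : ℝ) ≤ 2 * (l : ℝ) := by exact_mod_cast h3
    linarith
  have hZr : (2 : ℝ) ≤ Z := by exact_mod_cast hZ
  have hyr : (2 : ℝ) ≤ y := by exact_mod_cast hy
  have hxr : (1 : ℝ) ≤ x := by exact_mod_cast hx
  set lz := Real.log Z with hlz
  set ly := Real.log y with hly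
  set lx := Real.log x with hlx
  have hlz2 : Real.log 2 ≤ lz := Real.log_le_log (by norm_num) hZr
  have hly2 : Real.log 2 ≤ ly := Real.log_le_log (by norm_num) hyr
  have hlx0 : 0 ≤ lx := Real.log_nonneg hxr
  have hlz0 : 0 < lz := by linarith
  have hly0 : 0 < ly := by linarith
  have hT0 : 0 < T := by linarith
  have hTE : 1 ≤ T ^ E := one_le_pow₀ (by linarith)
  have ha : Real.log ((Z ^ G : ℕ) : ℝ) = G * lz := by
    push_cast; rw [Real.log_pow]
  have hb : Real.log ((y ^ G : ℕ) : ℝ) = G * ly := by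
    push_cast; rw [Real.log_pow]
  have hlz3 : (0.6931471803 : ℝ) < lz := by linarith
  have hly3 : (0.6931471803 : ℝ) < ly := by linarith
  have ha1 : 1 ≤ (G : ℝ) * lz := aux_one hG2 hlz3
  have hb1 : 1 ≤ (G : ℝ) * ly := aux_one hG2 hly3
  have hrpos : (1 : ℝ) ≤ r := by exact_mod_cast hr.one_lt.le
  have hqpos : (1 : ℝ) ≤ q := by exact_mod_cast hq
  set b' : ℝ := q / lz + r / ly with hb'
  have hb'0 : 0 < b' := by positivity
  set L : ℕ := ⌈10 + 3 * max 0 (Real.log b')⌉₊ with hL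
  have hL0 : 10 + 3 * max 0 (Real.log b') ≤ (L : ℝ) := Nat.le_ceil _
  have hLu : (L : ℝ) ≤ 11 + 3 * max 0 (Real.log b') := by
    have h3 : (0 : ℝ) ≤ 10 + 3 * max 0 (Real.log b') := by
      have := le_max_left 0 (Real.log b'); linarith
    have h4 := Nat.ceil_lt_add_one h3
    linarith
  have hL10r : (10 : ℝ) ≤ L := by
    have := le_max_left 0 (Real.log b'); linarith
  have hL10 : 10 ≤ L := by exact_mod_cast hL10r
  have hL2 : 10 + 3 * Real.log b' ≤ (L : ℝ) := by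
    have := le_max_right 0 (Real.log b'); linarith
  have hL0' : (0 : ℝ) ≤ L := by positivity
  -- comparison of `b'` with the quantity for `Z^G`, `y^G`
  have hbG : q / (G * lz) + r / (G * ly) ≤ b' := by
    have e1 : (q : ℝ) / (G * lz) ≤ q / lz :=
      div_le_div_of_nonneg_left (by linarith) hlz0 (aux_self hG2 hlz0)
    have e2 : (r : ℝ) / (G * ly) ≤ r / ly :=
      div_le_div_of_nonneg_left (by linarith) hly0 (aux_self hG2 hly0)
    linarith
  have hbG0 : 0 < (q : ℝ) / (G * lz) + r / (G * ly) := by positivity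
  have hL3 : 10 + 3 * Real.log ((q : ℝ) / (G * lz) + r / (G * ly)) ≤ (L : ℝ) := by
    have := Real.log_le_log hbG0 hbG
    linarith
  have hcop : Nat.Coprime q r := (Nat.coprime_comm.1 ((Nat.Prime.coprime_iff_not_dvd hr).2 hrq))
  have hlr' : ¬ l ∣ r := by
    rw [Nat.prime_dvd_prime_iff_eq hl hr]; omega
  have hferm : ∀ w : ℕ, ¬ l ∣ w → w ^ G ≡ 1 [MOD l] := by
    intro w hw
    have h3 : Nat.Coprime w l := Nat.coprime_comm.1 ((Nat.Prime.coprime_iff_not_dvd hl).2 hw)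
    have h4 := Nat.ModEq.pow_totient h3
    rw [Nat.totient_prime hl] at h4
    have h5 := h4.pow 2
    rw [one_pow, ← pow_mul, mul_comm] at h5
    exact h5
  have hgen : ∀ w : ℕ, 2 ≤ w → 2 ≤ w ^ G := by
    intro w hw
    calc 2 ≤ w := hw
      _ = w ^ 1 := (pow_one w).symm
      _ ≤ w ^ G := Nat.pow_le_pow_right (by omega) (by omega)
  have key := hTL l (Z ^ G) (y ^ G) q r L p hl (hgen Z hZ) (hgen y hy) (hferm Z hZl) (hferm y hyl)
    hq hr.one_lt.le hcop hlr' hL10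
  rw [ha, hb] at key
  have key := key hL3
  have key2 := hAL Z y q r L hZ hy hq hr.one_lt.le hcop hL10 hL2
  -- sizes
  have hX0 : (0 : ℝ) < (x : ℝ) ^ p := by positivity
  have hY0 : (0 : ℝ) < (y : ℝ) ^ q := by positivity
  have hW0 : (0 : ℝ) < (Z : ℝ) ^ r := by positivity
  have h2r : (x : ℝ) ^ p < (y : ℝ) ^ q := by exact_mod_cast h2
  have h1r : (Z : ℝ) ^ r = (x : ℝ) ^ p + (y : ℝ) ^ q ∨ (Z : ℝ) ^ r + (x : ℝ) ^ p = (y : ℝ) ^ q := by
    rcases h1 with h | h
    · left; exact_mod_cast h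
    · right; exact_mod_cast h
  set σ : ℝ := q * ly / lz with hσ
  have hσ0 : 0 < σ := by positivity
  have hσa : σ * lz = q * ly := by rw [hσ]; field_simp
  have hr1 : (r : ℝ) * lz ≤ Real.log 2 + q * ly := by
    have h3 : (Z : ℝ) ^ r ≤ 2 * (y : ℝ) ^ q := by
      rcases h1r with h | h <;> linarith
    have h4 := Real.log_le_log hW0 h3
    rwa [Real.log_pow, Real.log_mul (by norm_num) hY0.ne', Real.log_pow] at h4
  have hr2 : (r : ℝ) ≤ 1 + σ := by
    have h3 : (r : ℝ) * lz ≤ (1 + σ) * lz := by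
      rw [add_mul, hσa]
      linarith
    exact le_of_mul_le_mul_right h3 hlz0
  have hq2 : (q : ℝ) / lz ≤ 3 / 2 * σ := by
    rw [div_le_iff₀ hlz0, mul_assoc, hσa]
    exact aux_q hqpos hly3
  have hr3 : (r : ℝ) / ly ≤ 3 / 2 * (1 + σ) := by
    rw [div_le_iff₀ hly0]
    exact aux_r hσ0 hr2 hly3
  have hb'u : b' ≤ 3 * σ + 3 / 2 := by
    rw [hb']; linarith
  -- the bound for `σ`
  have hTpow : ∀ n m : ℕ, n ≤ m → T ^ n ≤ T ^ m := fun n m h =>
    pow_le_pow_right₀ (by linarith) h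
  have hL1 : (1 : ℝ) ≤ L := by linarith
  have hLL : (L : ℝ) ≤ (L : ℝ) ^ 2 := le_self_pow₀ hL1 two_ne_zero
  have hL2sq : (1 : ℝ) ≤ (L : ℝ) ^ 2 := one_le_pow₀ hL1
  have hT1' : 1 ≤ T := by linarith
  have hσu : σ ≤ 2000 * ((L : ℝ) ^ 2 * T ^ (2 * E + 2)) := by
    by_cases hA : 1000 * (L : ℝ) * (G * ly) ≤ r ∨ 1000 * (L : ℝ) * (G * lz) ≤ q
    · have hA1 : 9 * (L : ℝ) * (G * ly) + 1 ≤ r ∨ 9 * (L : ℝ) * (G * lz) + 1 ≤ q := by
        rcases hA with h | h
        · exact Or.inl (aux_big hL10r hb1 h)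
        · exact Or.inr (aux_big hL10r ha1 h)
      have hA2 : 1000 * (L : ℝ) * ly ≤ r ∨ 1000 * (L : ℝ) * lz ≤ q := by
        rcases hA with h | h
        · left
          have : ly ≤ G * ly := aux_self hG2 hly0
          have h3 : 1000 * (L : ℝ) * ly ≤ 1000 * (L : ℝ) * (G * ly) :=
            mul_le_mul_of_nonneg_left this (by positivity)
          linarith
        · right
          have : lz ≤ G * lz := aux_self hG2 hlz0
          have h3 : 1000 * (L : ℝ) * lz ≤ 1000 * (L : ℝ) * (G * lz) :=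
            mul_le_mul_of_nonneg_left this (by positivity)
          linarith
      have hB : (p : ℝ) < 65 * (L : ℝ) ^ 2 * (G * lz) * (G * ly) := by
        by_contra hcon
        push Not at hcon
        exact key hA1 hcon hd
      have hC := key2 hA2
      have hGG : (G : ℝ) * G ≤ 4 * T ^ (2 * E) := by
        have : (G : ℝ) * G ≤ (2 * T ^ E) * (2 * T ^ E) :=
          mul_le_mul hGT hGT (by positivity) (by positivity)
        calc (G : ℝ) * G ≤ (2 * T ^ E) * (2 * T ^ E) := this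
          _ = 4 * T ^ (2 * E) := by rw [two_mul E, pow_add]; ring
      have hp1 : (p : ℝ) * lx ≤ 260 * ((L : ℝ) ^ 2 * T ^ (2 * E + 2)) * lz := by
        calc (p : ℝ) * lx ≤ (65 * (L : ℝ) ^ 2 * (G * lz) * (G * ly)) * T :=
              mul_le_mul hB.le hxT hlx0 (by positivity)
          _ = 65 * (L : ℝ) ^ 2 * lz * ((G * G) * (ly * T)) := by ring
          _ ≤ 65 * (L : ℝ) ^ 2 * lz * ((4 * T ^ (2 * E)) * (T * T)) := by
            apply mul_le_mul_of_nonneg_left _ (by positivity)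
            apply mul_le_mul hGG _ (by positivity) (by positivity)
            exact mul_le_mul_of_nonneg_right hyT hT0.le
          _ = 260 * ((L : ℝ) ^ 2 * T ^ (2 * E + 2)) * lz := by rw [pow_add]; ring
      have hM : 1000 * (L : ℝ) ^ 2 * lz * ly ≤ 1000 * ((L : ℝ) ^ 2 * T ^ (2 * E + 2)) * lz := by
        have h3 : ly ≤ T ^ (2 * E + 2) := by
          calc ly ≤ T := hyT
            _ = T ^ 1 := (pow_one T).symm
            _ ≤ T ^ (2 * E + 2) := hTpow _ _ (by omega)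
        calc 1000 * (L : ℝ) ^ 2 * lz * ly ≤ 1000 * (L : ℝ) ^ 2 * lz * T ^ (2 * E + 2) :=
              mul_le_mul_of_nonneg_left h3 (by positivity)
          _ = _ := by ring
      -- the bound for `q log y`
      have hH : (q : ℝ) * ly ≤ p * lx + Real.log 2 + 1000 * (L : ℝ) ^ 2 * lz * ly := by
        have hM0 : 0 ≤ 1000 * (L : ℝ) ^ 2 * lz * ly := by positivity
        by_cases hs : (y : ℝ) ^ q ≤ 2 * (x : ℝ) ^ p
        · have h4 := Real.log_le_log hY0 hs
          rw [Real.log_pow, Real.log_mul (by norm_num) hX0.ne', Real.log_pow] at h4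
          linarith
        · push Not at hs
          have h3 := log_form hX0 hs h1r
          rw [Real.log_pow, Real.log_pow] at h3
          have h4 := hC.trans h3
          rw [le_div_iff₀ hY0] at h4
          have h5 := Real.log_le_log (by positivity) h4
          rw [Real.log_mul (Real.exp_pos _).ne' hY0.ne', Real.log_exp, Real.log_pow,
            Real.log_mul (by norm_num) hX0.ne', Real.log_pow] at h5
          linarith
      have h6 : Real.log 2 ≤ 1 * ((L : ℝ) ^ 2 * T ^ (2 * E + 2)) * lz := by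
        have h7 : (1 : ℝ) ≤ (L : ℝ) ^ 2 * T ^ (2 * E + 2) :=
          aux_mul hL2sq (one_le_pow₀ hT1')
        exact aux_log hlz2 (by linarith) h7
      have h7 : σ * lz ≤ 2000 * ((L : ℝ) ^ 2 * T ^ (2 * E + 2)) * lz := by
        rw [hσa]
        have h8 : 0 ≤ ((L : ℝ) ^ 2 * T ^ (2 * E + 2)) * lz := by positivity
        linarith
      exact le_of_mul_le_mul_right h7 hlz0
    · push Not at hA
      obtain ⟨-, hA2⟩ := hA
      have h3 : σ * lz ≤ (1000 * (L : ℝ) * G * ly) * lz := by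
        rw [hσa]
        calc (q : ℝ) * ly ≤ (1000 * (L : ℝ) * (G * lz)) * ly :=
              mul_le_mul_of_nonneg_right hA2.le hly0.le
          _ = _ := by ring
      have h4 := le_of_mul_le_mul_right h3 hlz0
      calc σ ≤ 1000 * (L : ℝ) * G * ly := h4
        _ ≤ 1000 * (L : ℝ) ^ 2 * (2 * T ^ E) * T := by gcongr
        _ = 2000 * ((L : ℝ) ^ 2 * T ^ (E + 1)) := by rw [pow_succ]; ring
        _ ≤ 2000 * ((L : ℝ) ^ 2 * T ^ (2 * E + 2)) := by
            have := hTpow (E + 1) (2 * E + 2) (by omega)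
            gcongr
  have hLTpos : (1 : ℝ) ≤ (L : ℝ) ^ 2 * T ^ (2 * E + 2) :=
    aux_mul hL2sq (one_le_pow₀ hT1')
  have hb'v : b' ≤ 8192 * ((L : ℝ) ^ 2 * T ^ (2 * E + 2)) := by linarith
  have hlogb : max 0 (Real.log b') ≤
      13 * Real.log 2 + 2 * Real.log L + (2 * E + 2 : ℕ) * Real.log T := by
    have h3 : Real.log (8192 * ((L : ℝ) ^ 2 * T ^ (2 * E + 2))) =
        13 * Real.log 2 + 2 * Real.log L + (2 * E + 2 : ℕ) * Real.log T := by
      rw [Real.log_mul (by norm_num) (by positivity), Real.log_mul (by positivity) (by positivity),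
        Real.log_pow, Real.log_pow, show (8192 : ℝ) = 2 ^ 13 by norm_num, Real.log_pow]
      push_cast; ring
    rw [← h3]
    apply max_le
    · apply Real.log_nonneg; linarith
    · exact Real.log_le_log hb'0 hb'v
  have hlogL : Real.log L ≤ (L : ℝ) / 16 - 1 + 4 * Real.log 2 := by
    have := log_le_div_add (t := (L : ℝ)) (by linarith) 4
    norm_num at this
    linarith
  have hlogT : 0 ≤ Real.log T := Real.log_nonneg (by linarith)
  have hLT : (L : ℝ) ≤ T := by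
    push_cast at hlogb
    have h4 : 0 ≤ (2 * (E : ℝ) + 2) * Real.log T := by positivity
    have h3 := aux_L (t := (2 * (E : ℝ) + 2) * Real.log T) hLu
      (by linarith) hlog2b h4
    linarith
  have hfin : σ ≤ 2000 * T ^ (2 * E + 4) := by
    have h3 : (L : ℝ) ^ 2 ≤ T ^ 2 := pow_le_pow_left₀ hL0' hLT 2
    calc σ ≤ 2000 * ((L : ℝ) ^ 2 * T ^ (2 * E + 2)) := hσu
      _ ≤ 2000 * (T ^ 2 * T ^ (2 * E + 2)) := by gcongr
      _ = 2000 * T ^ (2 * E + 4) := by rw [← pow_add]; congr 2; ring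
  have h5 : (1 : ℝ) ≤ T ^ (2 * E + 4) := one_le_pow₀ (by linarith)
  calc (r : ℝ) ≤ 1 + σ := hr2
    _ ≤ 1 + 2000 * T ^ (2 * E + 4) := by linarith
    _ ≤ T * T ^ (2 * E + 4) := aux_fin hT1 h5
    _ = T ^ (2 * E + 5) := by rw [← pow_succ']

end Pool.Agent.Lib.MP_509488_nt.Unif.RB2

namespace Pool.Agent.Lib.MP_509488_nt.Unif

open RB RB2

/-- Module F3: bound for the exponent `r` when `x ^ p < y ^ q`. -/
theorem rBound2 (h : TwoLogs) (h' : ArchTwoLogs) : RBound2 := by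
  intro E
  refine ⟨2 * E + 5, ?_⟩
  have hev : ∀ᶠ N : ℕ in Filter.atTop, 2048 ≤ Real.log (N : ℝ) ∧
      78 + 10 * ((E : ℝ) + 1) * Real.log (Real.log N) ≤ Real.log N := by
    have hlog : Filter.Tendsto (fun N : ℕ => Real.log (N : ℝ)) Filter.atTop Filter.atTop :=
      Real.tendsto_log_atTop.comp tendsto_natCast_atTop_atTop
    have h1 : ∀ᶠ T : ℝ in Filter.atTop, 2048 ≤ T := Filter.eventually_ge_atTop _
    have h2 : ∀ᶠ T : ℝ in Filter.atTop, 78 + 10 * ((E : ℝ) + 1) * Real.log T ≤ T := by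
      have h3 := Real.isLittleO_log_id_atTop.bound (c := 1 / (20 * ((E : ℝ) + 1))) (by positivity)
      filter_upwards [h3, Filter.eventually_ge_atTop (2048 : ℝ)] with T hT hT'
      have h4 : 0 ≤ Real.log T := Real.log_nonneg (by linarith)
      rw [Real.norm_of_nonneg h4] at hT
      simp only [id] at hT
      rw [Real.norm_of_nonneg (by linarith)] at hT
      have h5 : 10 * ((E : ℝ) + 1) * Real.log T ≤
          10 * ((E : ℝ) + 1) * (1 / (20 * ((E : ℝ) + 1)) * T) :=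
        mul_le_mul_of_nonneg_left hT (by positivity)
      have h6 : 10 * ((E : ℝ) + 1) * (1 / (20 * ((E : ℝ) + 1)) * T) = T / 2 := by
        field_simp; ring
      linarith
    exact (hlog.eventually h1).and (hlog.eventually h2)
  obtain ⟨N₀, hN₀⟩ := Filter.eventually_atTop.1 hev
  refine ⟨N₀, ?_⟩
  intro N hN x y p q r l z e₁ e₂ hx hxN hy hyN hxy hp hq hr hl hlx hlE he₁ he₂ hz heq hyx
  obtain ⟨hT1, hT2⟩ := hN₀ N hN
  set T := Real.log (N : ℝ) with hT
  have hT0 : 0 < T := by linarith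
  have hxr : (1 : ℝ) ≤ x := by exact_mod_cast hx
  have hyr : (2 : ℝ) ≤ y := by exact_mod_cast hy
  have hxT : Real.log x ≤ T := Real.log_le_log (by linarith) (by exact_mod_cast hxN)
  have hyT : Real.log y ≤ T := Real.log_le_log (by linarith) (by exact_mod_cast hyN)
  have hTE : 1 ≤ T ^ E := one_le_pow₀ (by linarith)
  by_cases hlr : l < r
  swap
  · push Not at hlr
    calc (r : ℝ) ≤ l := by exact_mod_cast hlr
      _ ≤ T ^ E := hlE
      _ ≤ T ^ (2 * E + 5) := pow_le_pow_right₀ (by linarith) (by omega)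
  have hl2 := hl.two_le
  -- `l` divides neither `y` nor `z`
  have hyl : ¬ l ∣ y := by
    intro hly
    have := Nat.dvd_gcd hlx hly
    rw [hxy] at this
    have := Nat.le_of_dvd one_pos this
    omega
  have hylI : ¬ (l : ℤ) ∣ (y : ℤ) := by rwa [Int.natCast_dvd_natCast]
  have hlI : Prime (l : ℤ) := Nat.prime_iff_prime_int.1 hl
  have hlxp : (l : ℤ) ∣ (x : ℤ) ^ p :=
    (Int.natCast_dvd_natCast.2 hlx).trans (dvd_pow_self _ (by omega))
  have hzl : ¬ (l : ℤ) ∣ z := by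
    intro hlz
    have h1 : (l : ℤ) ∣ e₂ * (y : ℤ) ^ q := by
      have h2 : e₂ * (y : ℤ) ^ q = z ^ r - e₁ * (x : ℤ) ^ p := by rw [← heq]; ring
      rw [h2]
      exact dvd_sub (hlz.trans (dvd_pow_self _ hr.ne_zero)) (hlxp.mul_left _)
    have h3 : (l : ℤ) ∣ (y : ℤ) ^ q := by
      rcases he₂ with h | h
      · rwa [h, one_mul] at h1
      · rwa [h, neg_one_mul, dvd_neg] at h1
    exact hylI (hlI.dvd_of_dvd_pow h3)
  by_cases hrq : r ∣ q
  · obtain ⟨m, rfl⟩ := hrq
    have h1 : e₁ * (x : ℤ) ^ p + e₂ * ((y ^ m : ℕ) : ℤ) ^ r = z ^ r := by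
      rw [← heq]; push_cast; rw [← pow_mul, mul_comm m r]
    have hw : ¬ (l : ℤ) ∣ ((y ^ m : ℕ) : ℤ) := by
      push_cast
      intro h2; exact hylI (hlI.dvd_of_dvd_pow h2)
    have h2 := case_dvd hx hp hr hl hlr hlx hzl hw he₁ he₂ hz h1
    have hlog2a : (0.6931471803 : ℝ) < Real.log 2 := Real.log_two_gt_d9
    have h3 : (r : ℝ) ≤ 1 + 4 * T := by
      by_contra hcon
      push Not at hcon
      nlinarith
    have h4 : (r : ℝ) ≤ T ^ 2 := by nlinarith
    exact h4.trans (pow_le_pow_right₀ (by linarith) (by omega))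
  · have hZ : (z.natAbs) ^ r = x ^ p + y ^ q ∨ (z.natAbs) ^ r + x ^ p = y ^ q := by
      have h1 : ((z.natAbs ^ r : ℕ) : ℤ) = |z ^ r| := by
        rw [← Int.natAbs_pow, Int.natCast_natAbs]
      rw [← heq] at h1
      have h5 : (x : ℤ) ^ p < (y : ℤ) ^ q := by exact_mod_cast hyx
      have h6 : 0 ≤ (x : ℤ) ^ p := by positivity
      rcases he₁ with h | h <;> rcases he₂ with h' | h' <;> rw [h, h'] at h1
      · left
        rw [one_mul, one_mul, abs_of_nonneg (by linarith)] at h1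
        exact_mod_cast h1
      · right
        rw [one_mul, neg_one_mul, abs_of_nonpos (by linarith)] at h1
        zify
        push_cast at h1
        linarith
      · right
        rw [one_mul, neg_one_mul, abs_of_nonneg (by linarith)] at h1
        zify
        push_cast at h1
        linarith
      · left
        rw [neg_one_mul, neg_one_mul, abs_of_nonpos (by linarith)] at h1
        zify
        push_cast at h1
        linarith
    have hZl : ¬ l ∣ z.natAbs := by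
      intro h1; exact hzl (Int.natCast_dvd.2 h1)
    refine case_ndvd2 h h' hT1 hT2 hxT hyT hx hy hz hl hlE hr hlr hrq hq hZ hyx hZl hyl ?_
    have hev : Even (2 * (l - 1)) := even_two_mul _
    have h1 : (l : ℤ) ^ p ∣ (z ^ r) - (e₂ * (y : ℤ) ^ q) := by
      have h2 : (z ^ r) - (e₂ * (y : ℤ) ^ q) = e₁ * (x : ℤ) ^ p := by rw [← heq]; ring
      rw [h2]
      exact (pow_dvd_pow_of_dvd (Int.natCast_dvd_natCast.2 hlx) p).mul_left _
    have h2 : (l : ℤ) ^ p ∣ (z ^ r) ^ (2 * (l - 1)) - (e₂ * (y : ℤ) ^ q) ^ (2 * (l - 1)) :=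
      h1.trans (sub_dvd_pow_sub_pow _ _ _)
    have h3 : (z ^ r) ^ (2 * (l - 1)) = ((z.natAbs ^ (2 * (l - 1)) : ℕ) : ℤ) ^ r := by
      push_cast
      rw [← pow_mul, mul_comm r, pow_mul, hev.pow_abs]
    have h4 : (e₂ * (y : ℤ) ^ q) ^ (2 * (l - 1)) = ((y ^ (2 * (l - 1)) : ℕ) : ℤ) ^ q := by
      have h5 : e₂ ^ (2 * (l - 1)) = 1 := by
        rcases he₂ with h | h
        · rw [h, one_pow]
        · rw [h, hev.neg_one_pow]
      push_cast
      rw [mul_pow, h5, one_mul, ← pow_mul, ← pow_mul, mul_comm q]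
    rwa [h3, h4] at h2

end Pool.Agent.Lib.MP_509488_nt.Unif
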