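import Pool.Agent.Lib.MP_509488_nt.Unif.All1
import Pool.Agent.Lib.MP_509488_nt.Unif.RB2
import Pool.Agent.Lib.MP_509488_nt.Unif.Fin3
import Pool.Agent.Lib.MP_509488_nt.Unif.Dens

/-!
# Uniform bases: the final theorem
-/

namespace Pool.Agent.Lib.MP_509488_nt.Unif

theorem allFinal3 : Final3 := final3 allRB1 (rBound2 allTwo allArch) allRB3 allSieve

theorem allDensityOne : DensityOne := densityOne allFinal3

end Pool.Agent.Lib.MP_509488_nt.Unif
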