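import Mathlib

/-!
# Divisibility of an interpolation determinant
-/

namespace Pool.Agent.Lib.MP_509488_nt.Unif

open Finset

/-- The sum of a finite set of naturals. -/
theorem sum_ge (s : Finset ℕ) : s.card * (s.card - 1) ≤ 2 * ∑ x ∈ s, x := by
  induction s using Finset.induction_on_max with
  | empty => simp
  | insert a s ha ih =>
    have hna : a ∉ s := fun h => lt_irrefl _ (ha a h)
    rw [Finset.card_insert_of_notMem hna, Finset.sum_insert hna, Nat.add_sub_cancel]
    have h1 : s.card ≤ a := by
      have h2 : s ⊆ range a := fun x hx => mem_range.2 (ha x hx)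
      simpa using Finset.card_le_card h2
    rcases Nat.eq_zero_or_pos s.card with h | h
    · rw [h]; simp
    · obtain ⟨n, hn⟩ : ∃ n, s.card = n + 1 := ⟨s.card - 1, by omega⟩
      rw [hn] at ih h1 ⊢
      simp only [Nat.add_sub_cancel] at ih
      nlinarith

/-- A variant for an injective family. -/
theorem sum_ge_of_injOn {ι : Type*} (T : Finset ι) (f : ι → ℕ)
    (hf : Set.InjOn f (T : Set ι)) : T.card * (T.card - 1) ≤ 2 * ∑ i ∈ T, f i := by
  classical
  have h := sum_ge (T.image f)
  rwa [Finset.card_image_of_injOn hf, Finset.sum_image hf] at h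

/-- The exponent count. -/
theorem exponent_count {ι : Type*} [Fintype ι] [DecidableEq ι] (S : ℕ) (r : ι → ℕ)
    (hinj : ∀ i j, r i < S → r j < S → r i = r j → i = j) :
    Fintype.card ι * (Fintype.card ι - 1) ≤
      2 * ∑ i, (if r i < S then r i else Fintype.card ι) := by
  classical
  set N := Fintype.card ι with hN
  set T := (univ : Finset ι).filter (fun i => r i < S) with hT
  have h1 := sum_ge_of_injOn T r (fun i hi j hj h => by
    simp only [hT, coe_filter, mem_univ, true_and, Set.mem_ofPred_eq] at hi hj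
    exact hinj i j hi hj h)
  have h2 : ∑ i, (if r i < S then r i else N) = ∑ i ∈ T, r i + (N - T.card) * N := by
    rw [Finset.sum_ite, Finset.sum_const, smul_eq_mul, hT]
    congr 2
    have h3 := Finset.card_filter_add_card_filter_not (s := (univ : Finset ι)) (fun i => r i < S)
    rw [Finset.card_univ] at h3
    omega
  rw [h2]
  have h4 : T.card ≤ N := by
    rw [hN, ← Finset.card_univ]; exact Finset.card_le_card (Finset.subset_univ _)
  obtain ⟨n, hn⟩ := Nat.exists_eq_add_of_le h4
  rw [hn, Nat.add_sub_cancel_left]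
  rcases Nat.eq_zero_or_pos T.card with h | h
  · rw [h] at h1 ⊢
    rcases Nat.eq_zero_or_pos n with h5 | h5
    · rw [h5]; simp
    · obtain ⟨m, hm⟩ : ∃ m, n = m + 1 := ⟨n - 1, by omega⟩
      rw [hm]
      simp only [Nat.zero_add, Nat.add_sub_cancel]
      nlinarith [Nat.zero_le (∑ i ∈ T, r i)]
  · obtain ⟨m, hm⟩ : ∃ m, T.card = m + 1 := ⟨T.card - 1, by omega⟩
    rw [hm] at h1 ⊢
    simp only [Nat.add_sub_cancel] at h1
    have h5 : m + 1 + n - 1 = m + n := by omega
    rw [h5]
    nlinarith

/-- The determinant of a matrix whose rows are combinations of `l ^ (s - k) • ψ s` and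
`l ^ N • B` is highly divisible by `l`. -/
theorem det_dvd {ι : Type*} [Fintype ι] [DecidableEq ι] (S : ℕ) (l : ℤ) (A : Matrix ι ι ℤ)
    (ψ : ℕ → ι → ℤ) (k : ι → ℕ) (c : ι → ℕ → ℤ) (B : ι → ι → ℤ)
    (hA : ∀ i j, A i j = ∑ s ∈ range S, l ^ (s - k i) * c i s * ψ s j +
      l ^ (Fintype.card ι) * B i j) (E : ℕ)
    (hE : 2 * (E + ∑ i, k i) ≤ Fintype.card ι * (Fintype.card ι - 1)) : l ^ E ∣ A.det := by
  classical
  set N := Fintype.card ι with hN
  set w : ι → ℕ → ℤ := fun i t => if t < S then l ^ (t - k i) * c i t else l ^ N with hw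
  set v : ι → ℕ → (ι → ℤ) := fun i t => if t < S then ψ t else B i with hv
  have hrow : A = fun i => ∑ t ∈ range (S + 1), w i t • v i t := by
    ext i j
    rw [hA i j, Finset.sum_range_succ]
    simp only [Pi.add_apply, Finset.sum_apply, Pi.smul_apply, smul_eq_mul, hw, hv, lt_irrefl,
      if_false]
    congr 1
    apply Finset.sum_congr rfl
    intro s hs
    simp only [mem_range.1 hs, if_true]
  have hdet : A.det = ∑ r ∈ Fintype.piFinset (fun _ : ι => range (S + 1)),
      Matrix.detRowAlternating (fun i => w i (r i) • v i (r i)) := by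
    have h0 : A.det = Matrix.detRowAlternating A := rfl
    rw [h0, hrow]
    exact MultilinearMap.map_sum_finset (Matrix.detRowAlternating : (ι → ℤ) [⋀^ι]→ₗ[ℤ] ℤ).toMultilinearMap
      (fun i t => w i t • v i t) (fun _ => range (S + 1))
  rw [hdet]
  apply Finset.dvd_sum
  intro r _
  have h1 : Matrix.detRowAlternating (fun i => w i (r i) • v i (r i)) =
      (∏ i, w i (r i)) • Matrix.detRowAlternating (fun i => v i (r i)) :=
    MultilinearMap.map_smul_univ (Matrix.detRowAlternating : (ι → ℤ) [⋀^ι]→ₗ[ℤ] ℤ).toMultilinearMap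
      (fun i => w i (r i)) (fun i => v i (r i))
  rw [h1]
  by_cases hinj : ∀ i j, r i < S → r j < S → r i = r j → i = j
  · rw [smul_eq_mul]
    apply Dvd.dvd.mul_right
    have h2 : l ^ (∑ i, (if r i < S then r i - k i else N)) ∣ ∏ i, w i (r i) := by
      rw [← Finset.prod_pow_eq_pow_sum]
      apply Finset.prod_dvd_prod_of_dvd
      intro i _
      simp only [hw]
      split_ifs with h
      · exact dvd_mul_right _ _
      · exact dvd_refl _
    refine dvd_trans (pow_dvd_pow l ?_) h2
    have h3 := exponent_count S r hinj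
    rw [← hN] at h3
    have h4 : ∑ i, (if r i < S then r i else N) ≤
        ∑ i, (if r i < S then r i - k i else N) + ∑ i, k i := by
      rw [← Finset.sum_add_distrib]
      apply Finset.sum_le_sum
      intro i _
      split_ifs <;> omega
    omega
  · push Not at hinj
    obtain ⟨i, j, hi, hj, hij, hne⟩ := hinj
    have h2 : Matrix.detRowAlternating (fun i => v i (r i)) = 0 := by
      apply AlternatingMap.map_eq_zero_of_eq _ _ _ hne
      simp only [hv, hj, if_true, hij]
    rw [h2, smul_zero]
    exact dvd_zero _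

end Pool.Agent.Lib.MP_509488_nt.Unif
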