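import Pool.Agent.Lib.MP_509488_nt.Unif.Stmts2
import Pool.Agent.Lib.MP_509488_nt.Unif.DetDvd

/-!
# The abstract theorem on two `l`-adic logarithms
-/

namespace Pool.Agent.Lib.MP_509488_nt.Unif

open Finset

/-- A number `= 1 mod l` has `l`-power order modulo `l ^ N`. -/
theorem pow_prime_pow (l β N : ℕ) (hl : l.Prime) (hβ : β ≡ 1 [MOD l]) :
    (β : ZMod (l ^ N)) ^ (l ^ N) = 1 := by
  have h : ∀ m : ℕ, ((l : ℤ) ^ (m + 1)) ∣ (β : ℤ) ^ (l ^ m) - 1 := by
    intro m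
    induction m with
    | zero =>
      simp only [zero_add, pow_one, pow_zero]
      have := (Nat.modEq_iff_dvd.1 hβ.symm)
      push_cast at this
      exact this
    | succ m ih =>
      have h1 : (β : ℤ) ^ (l ^ (m + 1)) - 1 = ((β : ℤ) ^ (l ^ m) - 1) *
          ∑ i ∈ range l, ((β : ℤ) ^ (l ^ m)) ^ i := by
        rw [mul_comm, geom_sum_mul, pow_succ, pow_mul]
      rw [h1, pow_succ]
      apply mul_dvd_mul ih
      have h2 : (β : ℤ) ^ (l ^ m) ≡ 1 [ZMOD l] := by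
        have h3 : (l : ℤ) ∣ (β : ℤ) ^ (l ^ m) - 1 := (dvd_pow_self _ (by omega)).trans ih
        exact (Int.modEq_iff_dvd.2 h3).symm
      have h4 : ∑ i ∈ range l, ((β : ℤ) ^ (l ^ m)) ^ i ≡ ∑ i ∈ range l, (1 : ℤ) ^ i [ZMOD l] := by
        apply Int.ModEq.sum
        intro i _
        exact h2.pow i
      simp only [one_pow, sum_const, card_range, nsmul_eq_mul, mul_one] at h4
      exact (Int.modEq_zero_iff_dvd).1 (h4.trans (by simp [Int.ModEq]))
  have h1 : ((l : ℤ) ^ N) ∣ (β : ℤ) ^ (l ^ N) - 1 := (pow_dvd_pow _ (by omega)).trans (h N)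
  have h2 : (((β : ℤ) ^ (l ^ N) - 1 : ℤ) : ZMod (l ^ N)) = 0 := by
    rw [ZMod.intCast_zmod_eq_zero_iff_dvd]
    exact_mod_cast h1
  push_cast at h2
  exact sub_eq_zero.1 h2

/-- The common root `γ`. -/
theorem exists_root (l α β q r N : ℕ) (hl : l.Prime) (hα : α ≡ 1 [MOD l]) (hβ : β ≡ 1 [MOD l])
    (hlr : ¬ l ∣ r) (h : (l : ℤ) ^ N ∣ (α : ℤ) ^ r - (β : ℤ) ^ q) :
    ∃ γ : ℕ, γ ≡ 1 [MOD l] ∧ (γ : ZMod (l ^ N)) ^ q = α ∧ (γ : ZMod (l ^ N)) ^ r = β := by
  have hc : Nat.Coprime r (l ^ N) :=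
    Nat.Coprime.pow_right N ((Nat.Prime.coprime_iff_not_dvd hl).2 hlr).symm
  obtain ⟨s, hs⟩ : ∃ s : ℕ, r * s ≡ 1 [MOD l ^ N] := by
    rcases Nat.lt_or_ge 1 (l ^ N) with h1 | h1
    · obtain ⟨s, -, hs⟩ := Nat.exists_mul_mod_eq_one_of_coprime hc h1
      refine ⟨s, ?_⟩
      unfold Nat.ModEq
      rw [hs, Nat.mod_eq_of_lt h1]
    · have h2 : l ^ N = 1 := le_antisymm h1 (Nat.one_le_pow _ _ hl.pos)
      exact ⟨0, by rw [h2]; exact Nat.modEq_one⟩
  have hpow : ∀ x : ZMod (l ^ N), x ^ (l ^ N) = 1 → x ^ (r * s) = x := by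
    intro x hx
    rw [pow_eq_pow_mod (r * s) hx, hs, ← pow_eq_pow_mod 1 hx, pow_one]
  have hb := hpow _ (pow_prime_pow l β N hl hβ)
  have ha := hpow _ (pow_prime_pow l α N hl hα)
  have hab : (α : ZMod (l ^ N)) ^ r = (β : ZMod (l ^ N)) ^ q := by
    have h2 : (((α : ℤ) ^ r - (β : ℤ) ^ q : ℤ) : ZMod (l ^ N)) = 0 := by
      rw [ZMod.intCast_zmod_eq_zero_iff_dvd]
      exact_mod_cast h
    push_cast at h2
    exact sub_eq_zero.1 h2
  refine ⟨β ^ s, ?_, ?_, ?_⟩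
  · simpa using hβ.pow s
  · push_cast
    rw [← pow_mul, mul_comm s q, pow_mul, ← hab, ← pow_mul, ha]
  · push_cast
    rw [← pow_mul, mul_comm s r, hb]

/-- The expansion of an entry. -/
theorem expand_entry (k u U : ℕ) (hu : u ≤ U) (z : ℤ) :
    ((u.choose k : ℕ) : ℤ) * (1 + z) ^ u =
      ∑ s ∈ range (U + 1), z ^ (s - k) * ((1 + z) ^ k * ((s.choose k : ℕ) : ℤ)) *
        ((u.choose s : ℕ) : ℤ) := by
  have hsub : ∑ s ∈ range (U + 1), z ^ (s - k) * ((1 + z) ^ k * ((s.choose k : ℕ) : ℤ)) *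
        ((u.choose s : ℕ) : ℤ) = ∑ s ∈ range (u + 1), z ^ (s - k) *
        ((1 + z) ^ k * ((s.choose k : ℕ) : ℤ)) * ((u.choose s : ℕ) : ℤ) := by
    symm
    apply Finset.sum_subset
    · intro s hs
      rw [mem_range] at hs ⊢
      omega
    · intro s _ hs
      rw [mem_range] at hs
      rw [Nat.choose_eq_zero_of_lt (by omega : u < s)]
      simp
  rw [hsub]
  rcases Nat.lt_or_ge u k with hk | hk
  · rw [Nat.choose_eq_zero_of_lt hk]
    symm
    simp only [Nat.cast_zero, zero_mul]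
    apply Finset.sum_eq_zero
    intro s hs
    rw [mem_range] at hs
    rw [Nat.choose_eq_zero_of_lt (by omega : s < k)]
    simp
  · obtain ⟨n, rfl⟩ := Nat.exists_eq_add_of_le hk
    have h1 : (1 + z) ^ (k + n) = (1 + z) ^ k * ∑ t ∈ range (n + 1), z ^ t * ((n.choose t : ℕ) : ℤ) := by
      rw [pow_add, add_comm (1 : ℤ) z, add_pow z 1 n]
      simp
    have h2 : ∑ s ∈ range (k + n + 1), z ^ (s - k) * ((1 + z) ^ k * ((s.choose k : ℕ) : ℤ)) *
        (((k + n).choose s : ℕ) : ℤ) = ∑ t ∈ range (n + 1), z ^ t *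
        ((1 + z) ^ k * (((k + t).choose k : ℕ) : ℤ)) * (((k + n).choose (k + t) : ℕ) : ℤ) := by
      rw [show k + n + 1 = k + (n + 1) by ring, Finset.sum_range_add]
      have h3 : ∑ x ∈ range k, z ^ (x - k) * ((1 + z) ^ k * ((x.choose k : ℕ) : ℤ)) *
        (((k + n).choose x : ℕ) : ℤ) = 0 := by
        apply Finset.sum_eq_zero
        intro s hs
        rw [mem_range] at hs
        rw [Nat.choose_eq_zero_of_lt hs]
        simp
      rw [h3, zero_add]
      apply Finset.sum_congr rfl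
      intro t _
      rw [Nat.add_sub_cancel_left]
    rw [h1, h2, Finset.mul_sum, Finset.mul_sum]
    apply Finset.sum_congr rfl
    intro t ht
    rw [mem_range] at ht
    have h4 : (((k + n).choose (k + t) * (k + t).choose k : ℕ) : ℤ) =
        (((k + n).choose k * n.choose t : ℕ) : ℤ) := by
      congr 1
      have := Nat.choose_mul (n := k + n) (k := k + t) (s := k) (by omega)
      rw [this]
      congr 2 <;> omega
    push_cast at h4
    calc (((k + n).choose k : ℕ) : ℤ) * ((1 + z) ^ k * (z ^ t * ((n.choose t : ℕ) : ℤ)))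
        = z ^ t * (1 + z) ^ k * ((((k + n).choose k : ℕ) : ℤ) * ((n.choose t : ℕ) : ℤ)) := by ring
      _ = z ^ t * (1 + z) ^ k * ((((k + n).choose (k + t) : ℕ) : ℤ) *
          (((k + t).choose k : ℕ) : ℤ)) := by rw [h4]
      _ = _ := by ring

/-- A row bound for the determinant. -/
theorem det_bound {ι : Type*} [Fintype ι] [DecidableEq ι] (A : Matrix ι ι ℤ) (M : ι → ℕ)
    (hA : ∀ i j, (A i j).natAbs ≤ M i) :
    A.det.natAbs ≤ (Fintype.card ι).factorial * ∏ i, M i := by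
  have h1 : |A.det| ≤ ∑ σ : Equiv.Perm ι, ∏ i, |A (σ i) i| := by
    rw [Matrix.det_apply]
    refine (Finset.abs_sum_le_sum_abs _ _).trans (le_of_eq ?_)
    apply Finset.sum_congr rfl
    intro σ _
    rw [Units.smul_def, zsmul_eq_mul, abs_mul, Finset.abs_prod]
    rcases Int.units_eq_one_or (Equiv.Perm.sign σ) with h | h <;> rw [h] <;> simp
  have h2 : ∀ σ : Equiv.Perm ι, ∏ i, |A (σ i) i| ≤ ((∏ i, M i : ℕ) : ℤ) := by
    intro σ
    have h3 : ((∏ i, M i : ℕ) : ℤ) = ∏ i, ((M (σ i) : ℕ) : ℤ) := by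
      push_cast
      exact (Equiv.prod_comp σ (fun i => ((M i : ℕ) : ℤ))).symm
    rw [h3]
    apply Finset.prod_le_prod
    · intro i _; exact abs_nonneg _
    · intro i _
      have := hA (σ i) i
      rw [Int.abs_eq_natAbs]
      exact_mod_cast this
  have h3 : |A.det| ≤ (((Fintype.card ι).factorial * ∏ i, M i : ℕ) : ℤ) := by
    refine h1.trans ((Finset.sum_le_sum (fun σ _ => h2 σ)).trans (le_of_eq ?_))
    rw [Finset.sum_const, Finset.card_univ, Fintype.card_perm, nsmul_eq_mul]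
    push_cast
    ring
  rw [Int.abs_eq_natAbs] at h3
  exact_mod_cast h3

theorem sum_fst (K L : ℕ) : 2 * ∑ a : Fin K × Fin L, (a.1 : ℕ) = L * (K * (K - 1)) := by
  rw [Fintype.sum_prod_type]
  simp only [sum_const, card_univ, Fintype.card_fin, smul_eq_mul]
  rw [← Finset.mul_sum, Fin.sum_univ_eq_sum_range (fun i => i) K]
  have := Finset.sum_range_id_mul_two K
  calc 2 * (L * ∑ i ∈ range K, i) = L * ((∑ i ∈ range K, i) * 2) := by ring
    _ = _ := by rw [this]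

theorem prod_rows (K L W : ℕ) (f : ℕ → ℕ) :
    ∏ a : Fin K × Fin L, (f a.1 * W ^ (a.2 : ℕ)) =
      (∏ k ∈ range K, f k) ^ L * W ^ (K * (L * (L - 1) / 2)) := by
  rw [Fintype.prod_prod_type]
  have h1 : ∀ k : Fin K, ∏ m : Fin L, (f k * W ^ (m : ℕ)) = f k ^ L * W ^ (L * (L - 1) / 2) := by
    intro k
    rw [Finset.prod_mul_distrib, Finset.prod_const, card_univ, Fintype.card_fin,
      Finset.prod_pow_eq_pow_sum, Fin.sum_univ_eq_sum_range (fun i => i) L, Finset.sum_range_id]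
  rw [Finset.prod_congr rfl (fun k _ => h1 k), Finset.prod_mul_distrib, Finset.prod_const,
    card_univ, Fintype.card_fin, Fin.prod_univ_eq_prod_range (fun k => f k ^ L) K,
    Finset.prod_pow, ← pow_mul, mul_comm K]

/-- The abstract theorem. -/
theorem twoLogsAbs (h0 : ZeroEst) : TwoLogsAbs := by
  intro l α β q r K L R S hl hα hβ hα1 hβ1 hq hr hqr hlr hK hL hRS hKL hsize hdvd
  obtain ⟨c, hc, hdet⟩ := h0 K L R S α β q r hK hL hα (by omega) hq hr hqr hRS hKL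
  set U : ℕ := (L + R) * q + S * r with hU
  set A := (Matrix.of (fun a b : Fin K × Fin L =>
      ((((c b).1 * q + (c b).2 * r).choose a.1 : ℕ) : ℤ) *
        ((α : ℤ) ^ (c b).1 * (β : ℤ) ^ (c b).2) ^ (a.2 : ℕ))) with hAdef
  have hu : ∀ b, (c b).1 * q + (c b).2 * r ≤ U := by
    intro b
    obtain ⟨h1, h2⟩ := hc b
    rw [hU]
    gcongr
  obtain ⟨γ, hγ1, hγq, hγr⟩ := exists_root l α β q r (K * L) hl hα1 hβ1 hlr hdvd
  have hcard : Fintype.card (Fin K × Fin L) = K * L := by simp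
  -- divisibility of γ ^ m - 1
  have hz : ∀ m : ℕ, ∃ z' : ℤ, (γ : ℤ) ^ m = 1 + l * z' := by
    intro m
    have h1 := Nat.modEq_iff_dvd.1 ((hγ1.pow m).symm)
    obtain ⟨z', hz'⟩ := h1
    refine ⟨z', ?_⟩
    push_cast at hz'
    rw [one_pow] at hz'
    linarith
  choose z' hz' using hz
  -- entries modulo l ^ N
  have hmod : ∀ a b : Fin K × Fin L, ∃ B : ℤ, A a b =
      ((((c b).1 * q + (c b).2 * r).choose a.1 : ℕ) : ℤ) *
        ((γ : ℤ) ^ (a.2 : ℕ)) ^ ((c b).1 * q + (c b).2 * r) + (l : ℤ) ^ (K * L) * B := by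
    intro a b
    have h1 : (l : ℤ) ^ (K * L) ∣ A a b - ((((c b).1 * q + (c b).2 * r).choose a.1 : ℕ) : ℤ) *
        ((γ : ℤ) ^ (a.2 : ℕ)) ^ ((c b).1 * q + (c b).2 * r) := by
      have h2 : ((A a b - ((((c b).1 * q + (c b).2 * r).choose a.1 : ℕ) : ℤ) *
        ((γ : ℤ) ^ (a.2 : ℕ)) ^ ((c b).1 * q + (c b).2 * r) : ℤ) : ZMod (l ^ (K * L))) = 0 := by
        rw [hAdef]
        simp only [Matrix.of_apply]
        push_cast
        rw [← hγq, ← hγr]
        ring
      have h3 := (ZMod.intCast_zmod_eq_zero_iff_dvd _ _).1 h2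
      exact_mod_cast h3
    obtain ⟨B, hB⟩ := h1
    exact ⟨B, by linarith⟩
  choose B hB using hmod
  have hdvdet : (l : ℤ) ^ (K ^ 2 * (L * (L - 1) / 2)) ∣ A.det := by
    apply det_dvd (U + 1) (l : ℤ) A
      (fun s b => ((((c b).1 * q + (c b).2 * r).choose s : ℕ) : ℤ)) (fun a => (a.1 : ℕ))
      (fun a s => (z' a.2) ^ (s - (a.1 : ℕ)) * (((γ : ℤ) ^ (a.2 : ℕ)) ^ (a.1 : ℕ) *
        ((s.choose a.1 : ℕ) : ℤ))) B
    · intro a b
      rw [hcard, hB a b]
      congr 1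
      have h1 := expand_entry (a.1 : ℕ) ((c b).1 * q + (c b).2 * r) U (hu b) ((l : ℤ) * z' a.2)
      rw [← hz' a.2] at h1
      rw [h1]
      apply Finset.sum_congr rfl
      intro s _
      rw [mul_pow]
      ring
    · rw [hcard, mul_add, sum_fst]
      have h2 : 2 * (K ^ 2 * (L * (L - 1) / 2)) = K ^ 2 * (L * (L - 1)) := by
        have h3 : 2 ∣ L * (L - 1) := (Nat.even_mul_pred_self L).two_dvd
        obtain ⟨t, ht⟩ := h3
        rw [ht, Nat.mul_div_cancel_left _ (by norm_num)]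
        ring
      rw [h2]
      obtain ⟨K', rfl⟩ := Nat.exists_eq_add_of_le' hK
      obtain ⟨L', rfl⟩ := Nat.exists_eq_add_of_le' hL
      simp only [Nat.add_sub_cancel]
      have h4 : (K' + 1) * (L' + 1) - 1 = K' * L' + K' + L' := by
        have : (K' + 1) * (L' + 1) = K' * L' + K' + L' + 1 := by ring
        omega
      rw [h4]
      nlinarith
  have hnat : l ^ (K ^ 2 * (L * (L - 1) / 2)) ≤ A.det.natAbs := by
    apply Nat.le_of_dvd (Int.natAbs_pos.2 hdet)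
    have := Int.natAbs_dvd_natAbs.2 hdvdet
    rwa [Int.natAbs_pow, Int.natAbs_natCast] at this
  have hbd := det_bound A (fun a => U.choose a.1 * (α ^ (L + R) * β ^ S) ^ (a.2 : ℕ)) (by
    intro a b
    rw [hAdef]
    simp only [Matrix.of_apply]
    rw [Int.natAbs_mul, Int.natAbs_natCast, Int.natAbs_pow, Int.natAbs_mul, Int.natAbs_pow,
      Int.natAbs_pow, Int.natAbs_natCast, Int.natAbs_natCast]
    obtain ⟨h1, h2⟩ := hc b
    apply Nat.mul_le_mul (Nat.choose_le_choose _ (hu b))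
    apply Nat.pow_le_pow_left
    exact Nat.mul_le_mul (Nat.pow_le_pow_right (by omega) h1.le)
      (Nat.pow_le_pow_right (by omega) h2.le))
  rw [hcard, prod_rows K L _ (fun k => U.choose k)] at hbd
  have h5 := hnat.trans hbd
  rw [← mul_assoc] at h5
  exact absurd hsize (not_lt.2 h5)

end Pool.Agent.Lib.MP_509488_nt.Unif
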