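import Pool.Agent.Lib.MP_509488_nt.Unif.Stmts2

/-!
A2: two `l`-adic logarithms with explicit constants, from the abstract theorem.
-/

namespace Pool.Agent.Lib.MP_509488_nt.Unif

open Finset

/-- the real inequality behind the choice of parameters -/
theorem two_real (K L c t : ℝ) (hK : 640 ≤ K) (hL : 10 ≤ L) (hc : c ≤ 0.26875 * K)
    (ht : t ≤ 0.2534 * K) :
    K * L * t + L * ((L - 10) / 3 * (K ^ 2 / 2) + K ^ 2) + K * (L * (L - 1) / 2) * c <
      K ^ 2 * (L * (L - 1) / 2) * Real.log 2 := by
  have hK0 : 0 < K := by linarith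
  have hL0 : 0 < L := by linarith
  have h2 : (0.6931 : ℝ) < Real.log 2 := by
    have := Real.log_two_gt_d9
    linarith
  have h1 : K * L * t ≤ K ^ 2 * L * 0.2534 := by
    have := mul_le_mul_of_nonneg_left ht (mul_pos hK0 hL0).le
    nlinarith
  have h3 : 0 < L * (L - 1) / 2 := by nlinarith
  have h4 : K * (L * (L - 1) / 2) * c ≤ K ^ 2 * (L * (L - 1) / 2) * 0.26875 := by
    have := mul_le_mul_of_nonneg_left hc (mul_pos hK0 h3).le
    nlinarith
  have h5 : K ^ 2 * (L * (L - 1) / 2) * 0.6931 ≤ K ^ 2 * (L * (L - 1) / 2) * Real.log 2 :=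
    mul_le_mul_of_nonneg_left h2.le (mul_pos (by positivity) h3).le
  have h6 : K ^ 2 * L * 0.2534 + L * ((L - 10) / 3 * (K ^ 2 / 2) + K ^ 2) +
      K ^ 2 * (L * (L - 1) / 2) * 0.26875 < K ^ 2 * (L * (L - 1) / 2) * 0.6931 := by
    have h7 : 0 < K ^ 2 * L := by positivity
    have h8 : K ^ 2 * (L * (L - 1) / 2) * 0.6931 - (K ^ 2 * L * 0.2534 +
        L * ((L - 10) / 3 * (K ^ 2 / 2) + K ^ 2) + K ^ 2 * (L * (L - 1) / 2) * 0.26875) =
        K ^ 2 * L * ((L - 1) / 2 * (0.6931 - 0.26875) - 0.2534 - (L - 10) / 6 - 1) := by ring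
    have h9 : 0 < (L - 1) / 2 * (0.6931 - 0.26875) - 0.2534 - (L - 10) / 6 - 1 := by linarith
    have h10 := mul_pos h7 h9
    rw [← h8] at h10
    linarith
  linarith

theorem twoLogs (h : TwoLogsAbs) : TwoLogs := by
  intro l α β q r L n hl hα hβ hα1 hβ1 hq hr hqr hlr hL hLb hor hn hdvd
  have hl2 := hl.two_le
  -- `α, β ≥ 3`
  have key3 : ∀ α : ℕ, 2 ≤ α → α ≡ 1 [MOD l] → 3 ≤ α := by
    intro α hα hα1
    have h1 := (Nat.modEq_iff_dvd' (by omega : 1 ≤ α)).1 hα1.symm
    have h2 := Nat.le_of_dvd (by omega) h1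
    omega
  have hα3 := key3 α hα hα1
  have hβ3 := key3 β hβ hβ1
  have log1 : ∀ α : ℕ, 3 ≤ α → 1 ≤ Real.log α := by
    intro α hα
    rw [Real.le_log_iff_exp_le (by positivity)]
    have h1 := Real.exp_one_lt_three
    have h2 : (3 : ℝ) ≤ α := by exact_mod_cast hα
    linarith
  obtain ⟨a, ha⟩ : ∃ a, a = Real.log α := ⟨_, rfl⟩
  obtain ⟨b, hb⟩ : ∃ b, b = Real.log β := ⟨_, rfl⟩
  have ha1 : 1 ≤ a := ha ▸ log1 α hα3
  have hb1 : 1 ≤ b := hb ▸ log1 β hβ3
  rw [← ha, ← hb] at hn hLb hor
  have hab : 1 ≤ a * b := by nlinarith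
  have hLr : (10 : ℝ) ≤ L := by exact_mod_cast hL
  have hLab : (L : ℝ) ≤ L * a * b := by
    rw [mul_assoc]
    exact le_mul_of_one_le_right (by positivity) hab
  have hLa : (L : ℝ) * a ≤ L * a * b := le_mul_of_one_le_right (by positivity) hb1
  have h10a : 10 * a ≤ L * a * b := (mul_le_mul_of_nonneg_right hLr (by linarith)).trans hLa
  have h10b : 10 * b ≤ L * a * b := by
    have h1 : (10 : ℝ) * b ≤ L * b := mul_le_mul_of_nonneg_right hLr (by linarith)
    have h2 : (L : ℝ) * b ≤ L * b * a := le_mul_of_one_le_right (by positivity) ha1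
    have h3 : (L : ℝ) * b * a = L * a * b := by ring
    linarith
  -- the parameters
  obtain ⟨K, hK⟩ : ∃ K : ℕ, K = ⌈64 * L * a * b⌉₊ := ⟨_, rfl⟩
  have hK1 : 64 * L * a * b ≤ K := by rw [hK]; exact Nat.le_ceil _
  have hK2 : (K : ℝ) < 64 * L * a * b + 1 := by rw [hK]; exact Nat.ceil_lt_add_one (by positivity)
  have hK640 : (640 : ℝ) ≤ K := by linarith
  have hK0 : (0 : ℝ) < K := by linarith
  obtain ⟨s, hs⟩ : ∃ s, s = √(K * L * a * b) := ⟨_, rfl⟩
  have hs0 : 0 ≤ s := hs ▸ Real.sqrt_nonneg _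
  have hs2 : s ^ 2 = K * L * a * b := by rw [hs]; exact Real.sq_sqrt (by positivity)
  have hsK : s ≤ K / 8 := by
    rw [hs]
    apply Real.sqrt_le_iff.2 ⟨by positivity, ?_⟩
    have h1 : (K : ℝ) * (64 * L * a * b) ≤ K * K := mul_le_mul_of_nonneg_left hK1 hK0.le
    have h2 : (K : ℝ) * (64 * L * a * b) = 64 * (K * L * a * b) := by ring
    have h3 : ((K : ℝ) / 8) ^ 2 = K * K / 64 := by ring
    rw [h3]
    linarith
  obtain ⟨R, hR⟩ : ∃ R : ℕ, R = ⌈s / a⌉₊ := ⟨_, rfl⟩
  obtain ⟨S, hS⟩ : ∃ S : ℕ, S = ⌈s / b⌉₊ := ⟨_, rfl⟩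
  have ha0 : 0 < a := by linarith
  have hb0 : 0 < b := by linarith
  have hR1 : s / a ≤ R := by rw [hR]; exact Nat.le_ceil _
  have hR2 : (R : ℝ) < s / a + 1 := by rw [hR]; exact Nat.ceil_lt_add_one (by positivity)
  have hS1 : s / b ≤ S := by rw [hS]; exact Nat.le_ceil _
  have hS2 : (S : ℝ) < s / b + 1 := by rw [hS]; exact Nat.ceil_lt_add_one (by positivity)
  have hs9 : s ≤ 9 * L * a * b := by
    rw [hs]
    apply Real.sqrt_le_iff.2 ⟨by positivity, ?_⟩
    have h1 : (K : ℝ) ≤ 81 * (L * a * b) := by linarith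
    have h2 : 0 ≤ (L : ℝ) * a * b := by positivity
    have h3 := mul_le_mul_of_nonneg_right h1 h2
    have h4 : (K : ℝ) * (L * a * b) = K * L * a * b := by ring
    have h5 : 81 * ((L : ℝ) * a * b) * (L * a * b) = (9 * L * a * b) ^ 2 := by ring
    rw [h4, h5] at h3
    exact h3
  -- conditions of the abstract theorem
  have hRS : R ≤ r ∨ S ≤ q := by
    rcases hor with h1 | h1
    · left
      have h2 : s / a ≤ 9 * L * b := by
        rw [div_le_iff₀ ha0]
        linarith
      have h3 : (R : ℝ) < r + 1 := by linarith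
      have h4 : R < r + 1 := by exact_mod_cast h3
      omega
    · right
      have h2 : s / b ≤ 9 * L * a := by
        rw [div_le_iff₀ hb0]
        linarith
      have h3 : (S : ℝ) < q + 1 := by linarith
      have h4 : S < q + 1 := by exact_mod_cast h3
      omega
  have hKL : K * L ≤ R * S := by
    have h1 : (K : ℝ) * L ≤ R * S := by
      have h2 : s / a * (s / b) ≤ R * S := mul_le_mul hR1 hS1 (by positivity) (by positivity)
      have h3 : s / a * (s / b) = K * L := by
        have : s / a * (s / b) = s ^ 2 / (a * b) := by field_simp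
        rw [this, hs2]
        field_simp
      linarith
    exact_mod_cast h1
  have hKLn : K * L ≤ n := by
    have h1 : (K : ℝ) * L ≤ n := by
      have h2 : (K : ℝ) * L ≤ (64 * L * a * b + 1) * L :=
        mul_le_mul_of_nonneg_right hK2.le (by positivity)
      have h3 : (L : ℝ) * 1 ≤ L * (L * a * b) :=
        mul_le_mul_of_nonneg_left (by linarith) (by positivity)
      have h4 : (64 * L * a * b + 1) * L = 64 * ((L : ℝ) * (L * a * b)) + L * 1 := by ring
      have h5 : 65 * (L : ℝ) ^ 2 * a * b = 65 * (L * (L * a * b)) := by ring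
      linarith
    exact_mod_cast h1
  have hK1' : 1 ≤ K := by
    have : (1 : ℝ) ≤ K := by linarith
    exact_mod_cast this
  refine h l α β q r K L R S hl hα hβ hα1 hβ1 hq hr hqr hlr hK1' (by omega) hRS hKL ?_
    ((pow_dvd_pow _ hKLn).trans hdvd)
  -- the main inequality
  obtain ⟨m, hm⟩ : ∃ m : ℕ, m = L * (L - 1) / 2 := ⟨_, rfl⟩
  have hmr : (m : ℝ) = L * (L - 1) / 2 := by
    have h1 : 2 * m = L * (L - 1) := by
      rw [hm]; exact Nat.two_mul_div_two_of_even (Nat.even_mul_pred_self L)
    have h2 : (2 : ℝ) * m = L * (L - 1) := by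
      have : ((2 * m : ℕ) : ℝ) = ((L * (L - 1) : ℕ) : ℝ) := by rw [h1]
      rw [Nat.cast_mul, Nat.cast_mul, Nat.cast_sub (by omega)] at this
      simpa using this
    linarith
  rw [← hm]
  have hgoal : (((K * L).factorial * (∏ k ∈ range K, ((L + R) * q + S * r).choose k) ^ L *
    (α ^ (L + R) * β ^ S) ^ (K * m) : ℕ) : ℝ) < ((l ^ (K ^ 2 * m) : ℕ) : ℝ) := by
    push_cast
    have hr0 : (0 : ℝ) ≤ r := Nat.cast_nonneg r
    have hq0 : (0 : ℝ) ≤ q := Nat.cast_nonneg q
    -- factorial
    have f1 : (((K * L).factorial : ℕ) : ℝ) ≤ Real.exp (K * L * Real.log (K * L)) := by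
      have h1 : (((K * L).factorial : ℕ) : ℝ) ≤ ((K * L : ℕ) : ℝ) ^ (K * L) := by
        exact_mod_cast Nat.factorial_le_pow (K * L)
      refine h1.trans (le_of_eq ?_)
      rw [← Real.exp_log (by positivity : (0 : ℝ) < ((K * L : ℕ) : ℝ) ^ (K * L)), Real.log_pow]
      push_cast
      ring_nf
    -- binomials
    have hU : (((L + R) * q + S * r : ℕ) : ℝ) ≤ (q / a + r / b) * K := by
      push_cast
      have h1 : ((L : ℝ) + R) * q ≤ q / a * K := by
        have h2 : (L : ℝ) + R ≤ K / a := by
          rw [le_div_iff₀ ha0]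
          have h3 : (R : ℝ) * a ≤ s + a := by
            have := mul_le_mul_of_nonneg_right hR2.le ha0.le
            have h4 : (s / a + 1) * a = s + a := by field_simp
            linarith
          have h4 : ((L : ℝ) + R) * a = L * a + R * a := by ring
          rw [h4]
          linarith
        calc ((L : ℝ) + R) * q ≤ K / a * q := mul_le_mul_of_nonneg_right h2 hq0
          _ = q / a * K := by ring
      have h2 : (S : ℝ) * r ≤ r / b * K := by
        have h2 : (S : ℝ) ≤ K / b := by
          rw [le_div_iff₀ hb0]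
          have h3 : (S : ℝ) * b ≤ s + b := by
            have := mul_le_mul_of_nonneg_right hS2.le hb0.le
            have h4 : (s / b + 1) * b = s + b := by field_simp
            linarith
          linarith
        calc (S : ℝ) * r ≤ K / b * r := mul_le_mul_of_nonneg_right h2 hr0
          _ = r / b * K := by ring
      have h3 : ((q : ℝ) / a + r / b) * K = q / a * K + r / b * K := by ring
      rw [h3]
      exact add_le_add h1 h2
    have hb' : (q : ℝ) / a + r / b ≤ Real.exp ((L - 10) / 3) := by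
      have h1 : 0 < (q : ℝ) / a + r / b := by
        have : (0 : ℝ) < q := by exact_mod_cast hq
        positivity
      rw [← Real.log_le_iff_le_exp h1]
      linarith
    have f2 : ∀ k ∈ range K, ((((L + R) * q + S * r).choose k : ℕ) : ℝ) ≤
        Real.exp (k * ((L - 10) / 3) + K) := by
      intro k _
      have h1 := Nat.choose_le_pow_div (α := ℝ) k ((L + R) * q + S * r)
      refine h1.trans ?_
      have h2 : (((L + R) * q + S * r : ℕ) : ℝ) ≤ Real.exp ((L - 10) / 3) * K :=
        hU.trans (mul_le_mul_of_nonneg_right hb' hK0.le)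
      have h3 : (((L + R) * q + S * r : ℕ) : ℝ) ^ k ≤ (Real.exp ((L - 10) / 3) * K) ^ k :=
        pow_le_pow_left₀ (Nat.cast_nonneg _) h2 k
      have h4 := Real.pow_div_factorial_le_exp (K : ℝ) hK0.le k
      calc (((L + R) * q + S * r : ℕ) : ℝ) ^ k / (k.factorial : ℝ)
          ≤ (Real.exp ((L - 10) / 3) * K) ^ k / (k.factorial : ℝ) := by gcongr
        _ = Real.exp ((L - 10) / 3) ^ k * ((K : ℝ) ^ k / (k.factorial : ℝ)) := by
            rw [mul_pow]; ring
        _ ≤ Real.exp ((L - 10) / 3) ^ k * Real.exp K := by gcongr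
        _ = Real.exp (k * ((L - 10) / 3) + K) := by
            rw [Real.exp_add, Real.exp_nat_mul]
    have f3 : (∏ k ∈ range K, ((((L + R) * q + S * r).choose k : ℕ) : ℝ)) ≤
        Real.exp ((L - 10) / 3 * (K ^ 2 / 2) + K ^ 2) := by
      calc _ ≤ ∏ k ∈ range K, Real.exp (k * ((L - 10) / 3) + K) :=
            Finset.prod_le_prod (fun _ _ => Nat.cast_nonneg _) f2
        _ = Real.exp (∑ k ∈ range K, ((k : ℝ) * ((L - 10) / 3) + K)) := by
            rw [Real.exp_sum]
        _ ≤ _ := by
            apply Real.exp_le_exp.2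
            rw [Finset.sum_add_distrib, ← Finset.sum_mul, Finset.sum_const, Finset.card_range,
              nsmul_eq_mul]
            have h1 : (∑ k ∈ range K, (k : ℝ)) ≤ K ^ 2 / 2 := by
              have h2 := Finset.sum_range_id_mul_two K
              have h3 : ((∑ i ∈ range K, i : ℕ) : ℝ) * 2 = ((K * (K - 1) : ℕ) : ℝ) := by
                exact_mod_cast h2
              rw [Nat.cast_mul, Nat.cast_sub hK1', Nat.cast_one] at h3
              push_cast at h3
              have h4 : (K : ℝ) * (K - 1) = K ^ 2 - K := by ring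
              rw [h4] at h3
              linarith
            have h2 : 0 ≤ ((L : ℝ) - 10) / 3 := by linarith
            have h5 := mul_le_mul_of_nonneg_right h1 h2
            have h6 : (L - 10) / 3 * ((K : ℝ) ^ 2 / 2) + K ^ 2 =
              K ^ 2 / 2 * ((L - 10) / 3) + K * K := by ring
            rw [h6]
            linarith
    have f4 : (((α : ℝ) ^ (L + R) * (β : ℝ) ^ S) ^ (K * m)) =
        Real.exp (K * m * ((L + R) * a + S * b)) := by
      have hα0 : (0 : ℝ) < α := by positivity
      have hβ0 : (0 : ℝ) < β := by positivity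
      rw [← Real.exp_log (by positivity : (0 : ℝ) < ((α : ℝ) ^ (L + R) * (β : ℝ) ^ S) ^ (K * m)),
        Real.log_pow, Real.log_mul (by positivity) (by positivity), Real.log_pow, Real.log_pow,
        ← ha, ← hb]
      push_cast
      ring_nf
    have f5 : Real.exp (K ^ 2 * m * Real.log 2) ≤ (l : ℝ) ^ (K ^ 2 * m) := by
      have h1 : Real.exp (K ^ 2 * m * Real.log 2) = (2 : ℝ) ^ (K ^ 2 * m) := by
        rw [← Real.exp_log (by positivity : (0 : ℝ) < (2 : ℝ) ^ (K ^ 2 * m)), Real.log_pow]
        push_cast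
        ring_nf
      rw [h1]
      exact pow_le_pow_left₀ (by norm_num) (by exact_mod_cast hl2) _
    refine lt_of_lt_of_le ?_ f5
    have hc : ((L : ℝ) + R) * a + S * b ≤ 0.26875 * K := by
      have h3 : (R : ℝ) * a ≤ s + a := by
        have := mul_le_mul_of_nonneg_right hR2.le ha0.le
        have h4 : (s / a + 1) * a = s + a := by field_simp
        linarith
      have h3' : (S : ℝ) * b ≤ s + b := by
        have := mul_le_mul_of_nonneg_right hS2.le hb0.le
        have h4 : (s / b + 1) * b = s + b := by field_simp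
        linarith
      have h4 : (L : ℝ) * a ≤ K / 64 := by linarith
      have h5 : a ≤ K / 640 := by linarith
      have h6 : b ≤ K / 640 := by linarith
      have h7 : ((L : ℝ) + R) * a = L * a + R * a := by ring
      rw [h7]
      linarith
    have ht : Real.log (K * L) ≤ 0.2534 * K := by
      have hLK : (L : ℝ) ≤ K := by linarith
      have h1 : Real.log (K * L) ≤ Real.log (K * K) :=
        Real.log_le_log (by positivity) (mul_le_mul_of_nonneg_left hLK hK0.le)
      rw [Real.log_mul hK0.ne' hK0.ne'] at h1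
      have h2 := Real.log_le_sub_one_of_pos (by positivity : (0 : ℝ) < K / 8)
      rw [Real.log_div hK0.ne' (by norm_num)] at h2
      have h3 : Real.log 8 ≤ 2.08 := by
        have h4 : Real.log 8 = 3 * Real.log 2 := by
          rw [show (8 : ℝ) = 2 ^ 3 by norm_num, Real.log_pow]; norm_num
        have := Real.log_two_lt_d9
        linarith
      linarith
    have main := two_real K L (((L : ℝ) + R) * a + S * b) (Real.log (K * L)) hK640 hLr hc ht
    calc _ ≤ Real.exp (K * L * Real.log (K * L)) *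
          Real.exp ((L - 10) / 3 * (K ^ 2 / 2) + K ^ 2) ^ L *
          Real.exp (K * m * ((L + R) * a + S * b)) := by
          rw [f4]
          gcongr
      _ = Real.exp (K * L * Real.log (K * L) +
          L * ((L - 10) / 3 * (K ^ 2 / 2) + K ^ 2) + K * m * ((L + R) * a + S * b)) := by
          rw [← Real.exp_nat_mul, ← Real.exp_add, ← Real.exp_add]
      _ < Real.exp (K ^ 2 * m * Real.log 2) := by
          apply Real.exp_lt_exp.2
          rw [hmr]
          exact main
  exact_mod_cast hgoal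

end Pool.Agent.Lib.MP_509488_nt.Unif
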