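import Mathlib
import Pool.Agent.Lib.MP_509488_nt.Unif.Stmts2

/-!
# The zero estimate for the two-logarithms interpolation matrix
-/

namespace Pool.Agent.Lib.MP_509488_nt.Unif

open Finset Polynomial

namespace ZeroE

/-- Coefficient of a product at the sum of degree bounds. -/
lemma coeff_prod_sum {ι : Type*} (s : Finset ι) (f : ι → ℚ[X]) (d : ι → ℕ)
    (h : ∀ i ∈ s, (f i).natDegree ≤ d i) :
    (∏ i ∈ s, f i).coeff (∑ i ∈ s, d i) = ∏ i ∈ s, (f i).coeff (d i) := by
  classical
  induction s using Finset.induction_on with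
  | empty => simp
  | insert a s ha ih =>
    rw [prod_insert ha, sum_insert ha, prod_insert ha]
    rw [Polynomial.coeff_mul_add_eq_of_natDegree_le (h a (mem_insert_self _ _))]
    · rw [ih (fun i hi => h i (mem_insert_of_mem hi))]
    · exact (Polynomial.natDegree_prod_le _ _).trans
        (Finset.sum_le_sum fun i hi => h i (mem_insert_of_mem hi))

lemma coeff_det {t : ℕ} (D : Matrix (Fin t) (Fin t) ℚ[X]) (d : Fin t → ℕ)
    (h : ∀ e s, (D e s).natDegree ≤ d s) :
    D.det.coeff (∑ s, d s) = (Matrix.of fun e s => (D e s).coeff (d s)).det := by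
  rw [Matrix.det_apply, Matrix.det_apply, finsetSum_coeff]
  refine sum_congr rfl fun σ _ => ?_
  rw [coeff_smul, coeff_prod_sum _ _ _ (fun i _ => h _ _)]
  rfl

lemma natDegree_det {t : ℕ} (D : Matrix (Fin t) (Fin t) ℚ[X]) (d : Fin t → ℕ)
    (h : ∀ e s, (D e s).natDegree ≤ d s) : D.det.natDegree ≤ ∑ s, d s := by
  rw [Matrix.det_apply]
  refine natDegree_sum_le_of_forall_le _ _ fun σ _ => ?_
  refine (natDegree_smul_le _ _).trans ?_
  exact (natDegree_prod_le _ _).trans (sum_le_sum fun i _ => h _ _)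

lemma nd_shift (f : ℚ[X]) (c : ℚ) : (f.comp (X + C c)).natDegree = f.natDegree := by
  rw [natDegree_comp, natDegree_X_add_C, mul_one]

lemma lc_shift (f : ℚ[X]) (c : ℚ) : (f.comp (X + C c)).leadingCoeff = f.leadingCoeff := by
  rw [leadingCoeff_comp (by rw [natDegree_X_add_C]; exact one_ne_zero), leadingCoeff_X_add_C]
  simp

/-- The polynomial `∑ p_k C(X, k)`. -/
noncomputable def Q {K : ℕ} (p : Fin K → ℚ) : ℚ[X] :=
  ∑ k : Fin K, C (p k / (k : ℕ).factorial) * descPochhammer ℚ k

lemma Q_eval {K : ℕ} (p : Fin K → ℚ) (n : ℕ) :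
    (Q p).eval (n : ℚ) = ∑ k : Fin K, p k * (n.choose k : ℕ) := by
  rw [Q, eval_finsetSum]
  refine sum_congr rfl fun k _ => ?_
  rw [eval_mul, eval_C, descPochhammer_eval_eq_descFactorial, Nat.descFactorial_eq_factorial_mul_choose]
  have : ((k : ℕ).factorial : ℚ) ≠ 0 := by exact_mod_cast (Nat.factorial_pos _).ne'
  push_cast
  field_simp

lemma Q_natDegree {K : ℕ} (p : Fin K → ℚ) : (Q p).natDegree ≤ K - 1 := by
  rw [Q]
  refine natDegree_sum_le_of_forall_le _ _ fun k _ => ?_
  refine (natDegree_C_mul_le _ _).trans ?_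
  rw [descPochhammer_natDegree]
  have := k.2
  omega

lemma Q_eq_zero {K : ℕ} (p : Fin K → ℚ) (h : Q p = 0) : ∀ k, p k = 0 := by
  have key : ∀ n : ℕ, ∀ h : n < K, p ⟨n, h⟩ = 0 := by
    intro n
    induction n using Nat.strong_induction_on with
    | _ n ih =>
      intro hn
      have h1 := Q_eval p n
      rw [h, eval_zero] at h1
      rw [Finset.sum_eq_single ⟨n, hn⟩] at h1
      · simpa using h1.symm
      · intro b _ hb
        rcases lt_trichotomy (b : ℕ) n with h2 | h2 | h2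
        · rw [ih b h2 b.2, zero_mul]
        · exact absurd (Fin.ext h2) hb
        · rw [Nat.choose_eq_zero_of_lt h2]; simp
      · intro h2; exact absurd (mem_univ _) h2
  intro k
  exact key k k.2

lemma distinct {R S q r : ℕ} (hq : 1 ≤ q) (hr : 1 ≤ r) (hc : Nat.Coprime q r)
    (h : R ≤ r ∨ S ≤ q) : Set.InjOn (fun x : ℕ × ℕ => x.1 * q + x.2 * r)
      {x | x.1 < R ∧ x.2 < S} := by
  rintro ⟨i, j⟩ ⟨hi, hj⟩ ⟨i', j'⟩ ⟨hi', hj'⟩ he
  simp only at hi hj hi' hj' he
  have h1 : (r : ℤ) ∣ (i : ℤ) - i' := by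
    have : (r : ℤ) ∣ ((i : ℤ) - i') * q := ⟨(j' : ℤ) - j, by
      have : (i : ℤ) * q + j * r = i' * q + j' * r := by exact_mod_cast he
      linarith⟩
    exact (Nat.isCoprime_iff_coprime.2 hc.symm).dvd_of_dvd_mul_right this
  have h2 : (q : ℤ) ∣ (j : ℤ) - j' := by
    have : (q : ℤ) ∣ ((j : ℤ) - j') * r := ⟨(i' : ℤ) - i, by
      have : (i : ℤ) * q + j * r = i' * q + j' * r := by exact_mod_cast he
      linarith⟩
    exact (Nat.isCoprime_iff_coprime.2 hc).dvd_of_dvd_mul_right this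
  have hq' : (0 : ℤ) < q := by exact_mod_cast hq
  have hr' : (0 : ℤ) < r := by exact_mod_cast hr
  rcases h with h | h
  · have h3 : (i : ℤ) - i' = 0 := by
      apply Int.eq_zero_of_abs_lt_dvd h1
      rw [abs_lt]; constructor <;> omega
    have h4 : i = i' := by omega
    subst h4
    have h5 : j * r = j' * r := by omega
    have h6 : j = j' := Nat.eq_of_mul_eq_mul_right hr h5
    rw [h6]
  · have h3 : (j : ℤ) - j' = 0 := by
      apply Int.eq_zero_of_abs_lt_dvd h2
      rw [abs_lt]; constructor <;> omega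
    have h4 : j = j' := by omega
    subst h4
    have h5 : i * q = i' * q := by omega
    have h6 : i = i' := Nat.eq_of_mul_eq_mul_right hq h5
    rw [h6]

/-- The main step: no nonzero linear form vanishes on all columns. -/
lemma no_form {K L R S α β q r : ℕ} (hK : 1 ≤ K) (hα : 2 ≤ α) (hβ : 1 ≤ β)
    (hq : 1 ≤ q) (hr : 1 ≤ r) (hc : Nat.Coprime q r) (h : R ≤ r ∨ S ≤ q) (hRS : K * L ≤ R * S)
    (p : Fin K × Fin L → ℚ)
    (hp : ∀ i j : ℕ, i < L + R → j < S → ∑ a : Fin K × Fin L,
      p a * (((i * q + j * r).choose a.1 : ℕ) * ((α : ℚ) ^ i * (β : ℚ) ^ j) ^ (a.2 : ℕ)) = 0) :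
    p = 0 := by
  classical
  by_contra hp0
  set P : Fin L → ℚ[X] := fun m => Q (fun k => p (k, m)) with hP
  set T : Finset (Fin L) := univ.filter (fun m => P m ≠ 0) with hT
  have hTne : T.Nonempty := by
    by_contra hne
    rw [Finset.not_nonempty_iff_eq_empty] at hne
    apply hp0
    funext ⟨k, m⟩
    have : P m = 0 := by
      by_contra hm
      have : m ∈ T := by simp [hT, hm]
      rw [hne] at this
      exact absurd this (Finset.notMem_empty _)
    exact Q_eq_zero _ this k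
  set t := T.card with ht
  have ht1 : 1 ≤ t := Finset.card_pos.2 hTne
  have htL : t ≤ L := by
    have := Finset.card_le_univ T
    simpa using this
  let σ : Fin t ≃ T := T.equivFin.symm
  have hσ : ∀ s : Fin t, P (σ s) ≠ 0 := fun s => (Finset.mem_filter.1 (σ s).2).2
  -- the relation in terms of `P`
  have hrel : ∀ i j : ℕ, i < L + R → j < S →
      ∑ s : Fin t, (P (σ s)).eval ((i * q + j * r : ℕ) : ℚ) *
        ((α : ℚ) ^ i * (β : ℚ) ^ j) ^ ((σ s : Fin L) : ℕ) = 0 := by
    intro i j hi hj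
    have h1 := hp i j hi hj
    rw [Fintype.sum_prod_type_right] at h1
    have h2 : ∀ m : Fin L, ∑ k : Fin K, p (k, m) * (((i * q + j * r).choose (k, m).1 : ℕ) *
        ((α : ℚ) ^ i * (β : ℚ) ^ j) ^ ((k, m).2 : ℕ)) =
        (P m).eval ((i * q + j * r : ℕ) : ℚ) * ((α : ℚ) ^ i * (β : ℚ) ^ j) ^ (m : ℕ) := by
      intro m
      rw [hP, Q_eval, Finset.sum_mul]
      refine sum_congr rfl fun k _ => ?_
      ring
    rw [sum_congr rfl fun m _ => h2 m] at h1
    rw [← h1]
    have h3 : ∑ m : Fin L, (P m).eval ((i * q + j * r : ℕ) : ℚ) *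
        ((α : ℚ) ^ i * (β : ℚ) ^ j) ^ (m : ℕ) = ∑ m ∈ T, (P m).eval ((i * q + j * r : ℕ) : ℚ) *
        ((α : ℚ) ^ i * (β : ℚ) ^ j) ^ (m : ℕ) := by
      symm
      apply Finset.sum_subset (Finset.subset_univ _)
      intro m _ hm
      have : P m = 0 := by
        by_contra hm'
        exact hm (by simp [hT, hm'])
      rw [this]; simp
    rw [h3, ← Finset.sum_coe_sort T]
    exact Equiv.sum_comp σ (fun m : T => (P m).eval ((i * q + j * r : ℕ) : ℚ) *
        ((α : ℚ) ^ i * (β : ℚ) ^ j) ^ ((m : Fin L) : ℕ))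
  -- the determinant
  let D : Matrix (Fin t) (Fin t) ℚ[X] := Matrix.of fun e s =>
    (P (σ s)).comp (X + C (((e : ℕ) * q : ℕ) : ℚ)) * C (((α : ℚ) ^ ((σ s : Fin L) : ℕ)) ^ (e : ℕ))
  let d : Fin t → ℕ := fun s => (P (σ s)).natDegree
  have hαpos : (0 : ℚ) < α := by exact_mod_cast (by omega : 0 < α)
  have hβpos : (0 : ℚ) < β := by exact_mod_cast (by omega : 0 < β)
  have hdeg : ∀ e s, (D e s).natDegree ≤ d s := by
    intro e s
    refine (natDegree_mul_C_le _ _).trans ?_
    exact (nd_shift _ _).le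
  have hdK : ∀ s, d s ≤ K - 1 := fun s => Q_natDegree _
  have hDdeg : D.det.natDegree ≤ t * (K - 1) := by
    refine (natDegree_det D d hdeg).trans ?_
    refine (Finset.sum_le_sum fun s _ => hdK s).trans ?_
    simp
  -- roots
  have hroot : ∀ i j : ℕ, i < R → j < S → D.det.eval ((i * q + j * r : ℕ) : ℚ) = 0 := by
    intro i j hi hj
    have h1 : D.det.eval ((i * q + j * r : ℕ) : ℚ) =
        (D.map (fun f => f.eval ((i * q + j * r : ℕ) : ℚ))).det := by
      have := RingHom.map_det (evalRingHom ((i * q + j * r : ℕ) : ℚ)) D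
      exact this
    rw [h1, ← Matrix.exists_mulVec_eq_zero_iff]
    refine ⟨fun s => ((α : ℚ) ^ i * (β : ℚ) ^ j) ^ ((σ s : Fin L) : ℕ), ?_, ?_⟩
    · intro h0
      have := congrFun h0 ⟨0, ht1⟩
      simp only [Pi.zero_apply] at this
      have h2 : (0 : ℚ) < ((α : ℚ) ^ i * (β : ℚ) ^ j) ^ ((σ ⟨0, ht1⟩ : Fin L) : ℕ) := by positivity
      exact absurd this h2.ne'
    · funext e
      have h2 := hrel (i + e) j (by have := e.2; omega) hj
      rw [Pi.zero_apply, ← h2]
      rw [Matrix.mulVec, dotProduct]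
      refine sum_congr rfl fun s _ => ?_
      simp only [D, Matrix.map_apply, Matrix.of_apply, eval_mul, eval_comp, eval_add, eval_X,
        eval_C]
      have h3 : ((i * q + j * r : ℕ) : ℚ) + (((e : ℕ) * q : ℕ) : ℚ) =
          (((i + e) * q + j * r : ℕ) : ℚ) := by push_cast; ring
      rw [h3]
      ring
  -- the determinant vanishes
  have hzero : D.det = 0 := by
    let F : Finset ℚ := ((Finset.range R ×ˢ Finset.range S).image
      (fun x : ℕ × ℕ => x.1 * q + x.2 * r)).image (fun n : ℕ => (n : ℚ))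
    have hF : F.card = R * S := by
      rw [Finset.card_image_of_injective _ Nat.cast_injective, Finset.card_image_of_injOn]
      · simp
      · intro x hx y hy hxy
        apply distinct hq hr hc h _ _ hxy
        · simpa using hx
        · simpa using hy
    refine Polynomial.eq_zero_of_natDegree_lt_card_of_eval_eq_zero' D.det F ?_ ?_
    · intro x hx
      simp only [F, mem_image, mem_product, mem_range] at hx
      obtain ⟨_, ⟨⟨i, j⟩, ⟨hi, hj⟩, rfl⟩, rfl⟩ := hx
      exact hroot i j hi hj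
    · rw [hF]
      refine lt_of_le_of_lt hDdeg (lt_of_lt_of_le ?_ hRS)
      calc t * (K - 1) ≤ L * (K - 1) := Nat.mul_le_mul_right _ htL
        _ < L * K := Nat.mul_lt_mul_of_pos_left (by omega) (by omega)
        _ = K * L := Nat.mul_comm _ _
  -- the top coefficient does not
  have hcoef := coeff_det D d hdeg
  rw [hzero, coeff_zero] at hcoef
  have hM : (Matrix.of fun e s => (D e s).coeff (d s)) =
      Matrix.of fun e s => (P (σ s)).leadingCoeff *
        (Matrix.vandermonde (fun s : Fin t => (α : ℚ) ^ ((σ s : Fin L) : ℕ))).transpose e s := by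
    funext e s
    simp only [D, Matrix.of_apply, coeff_mul_C, Matrix.transpose_apply, Matrix.vandermonde_apply]
    congr 1
    have h1 : ((P (σ s)).comp (X + C (((e : ℕ) * q : ℕ) : ℚ))).natDegree = d s :=
      nd_shift _ _
    have h2 : ((P (σ s)).comp (X + C (((e : ℕ) * q : ℕ) : ℚ))).leadingCoeff =
        (P (σ s)).leadingCoeff := lc_shift _ _
    rw [← h2, leadingCoeff, h1]
  rw [hM, Matrix.det_mul_row, Matrix.det_transpose] at hcoef
  have h1 : ∏ s : Fin t, (P (σ s)).leadingCoeff ≠ 0 :=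
    Finset.prod_ne_zero_iff.2 fun s _ => leadingCoeff_ne_zero.2 (hσ s)
  have h2 : (Matrix.vandermonde (fun s : Fin t => (α : ℚ) ^ ((σ s : Fin L) : ℕ))).det ≠ 0 := by
    rw [Matrix.det_vandermonde_ne_zero_iff]
    intro s s' hss
    simp only at hss
    have h3 : (α : ℕ) ^ ((σ s : Fin L) : ℕ) = α ^ ((σ s' : Fin L) : ℕ) := by exact_mod_cast hss
    have h4 := Nat.pow_right_injective hα h3
    have h5 : (σ s : Fin L) = (σ s' : Fin L) := Fin.ext h4
    exact σ.injective (Subtype.ext h5)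
  exact mul_ne_zero h1 h2 hcoef.symm

end ZeroE

open ZeroE

theorem zeroEst : ZeroEst := by
  classical
  intro K L R S α β q r hK hL hα hβ hq hr hc h hRS
  let w : {x : ℕ × ℕ // x.1 < L + R ∧ x.2 < S} → (Fin K × Fin L → ℚ) := fun x a =>
    (((x.1.1 * q + x.1.2 * r).choose a.1 : ℕ) : ℚ) *
      ((α : ℚ) ^ x.1.1 * (β : ℚ) ^ x.1.2) ^ (a.2 : ℕ)
  have hspan : Submodule.span ℚ (Set.range w) = ⊤ := by
    by_contra hne
    have hlt : Submodule.span ℚ (Set.range w) < ⊤ := lt_top_iff_ne_top.2 hne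
    obtain ⟨f, hf0, hf⟩ := Submodule.exists_le_ker_of_lt_top _ hlt
    apply hf0
    have hfp : ∀ v : Fin K × Fin L → ℚ, f v = ∑ a, f (Pi.single a 1) * v a := by
      intro v
      have : v = ∑ a, v a • (Pi.single a (1 : ℚ) : Fin K × Fin L → ℚ) := by
        funext b
        simp [Finset.sum_apply, Pi.single_apply]
      conv_lhs => rw [this]
      rw [map_sum]
      refine sum_congr rfl fun a _ => ?_
      rw [map_smul, smul_eq_mul, mul_comm]
    have h0 : (fun a => f (Pi.single a 1)) = (0 : Fin K × Fin L → ℚ) := by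
      apply no_form hK hα hβ hq hr hc h hRS
      intro i j hi hj
      have h1 : w ⟨(i, j), hi, hj⟩ ∈ LinearMap.ker f :=
        hf (Submodule.subset_span ⟨_, rfl⟩)
      rw [LinearMap.mem_ker, hfp] at h1
      exact h1
    refine LinearMap.ext fun v => ?_
    rw [hfp v]
    have h2 : ∀ a, f (Pi.single a 1) = 0 := fun a => congrFun h0 a
    simp [h2]
  obtain ⟨κ, a, ha, hsp, hli⟩ := exists_linearIndependent' ℚ w
  rw [hspan] at hsp
  let b : Module.Basis κ ℚ (Fin K × Fin L → ℚ) := Module.Basis.mk hli hsp.ge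
  let b0 : Module.Basis (Fin K × Fin L) ℚ (Fin K × Fin L → ℚ) := Pi.basisFun ℚ _
  let e : Fin K × Fin L ≃ κ := b0.indexEquiv b
  refine ⟨fun x => (a (e x)).1, fun x => (a (e x)).2, ?_⟩
  have hli2 : LinearIndependent ℚ (fun x => w (a (e x))) := hli.comp e e.injective
  set M : Matrix (Fin K × Fin L) (Fin K × Fin L) ℤ :=
    Matrix.of (fun x y : Fin K × Fin L =>
      (((((a (e y)).1).1 * q + ((a (e y)).1).2 * r).choose x.1 : ℕ) : ℤ) *
        ((α : ℤ) ^ ((a (e y)).1).1 * (β : ℤ) ^ ((a (e y)).1).2) ^ (x.2 : ℕ)) with hM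
  have hMcast : (M.map (Int.cast : ℤ → ℚ)).det ≠ 0 := by
    have h1 : (M.map (Int.cast : ℤ → ℚ)).transpose = Matrix.of (fun x => w (a (e x))) := by
      funext x y
      simp [hM, w]
    rw [← Matrix.det_transpose, h1]
    have h2 : IsUnit (Matrix.of (fun x => w (a (e x)))) := by
      rw [← Matrix.linearIndependent_rows_iff_isUnit]
      exact hli2
    exact ((Matrix.isUnit_iff_isUnit_det _).1 h2).ne_zero
  intro h0
  apply hMcast
  have : (M.map (Int.cast : ℤ → ℚ)).det = ((M.det : ℤ) : ℚ) := by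
    have := RingHom.map_det (Int.castRingHom ℚ) M
    exact this.symm
  rw [this]
  exact_mod_cast h0

end Pool.Agent.Lib.MP_509488_nt.Unif
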