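import Pool.Agent.Lib.MP_509488_nt.Unif.Stmts3
import Pool.Agent.Lib.MP_509488_nt.Unif.DetDvd

/-!
# The abstract theorem on two archimedean logarithms
-/

namespace Pool.Agent.Lib.MP_509488_nt.Unif

open Finset

namespace Arch

/-! ### Power series with a majorant -/

/-- `F` has on `[0, 1]` a power series with `∑ |c s| 8 ^ s ≤ M`. -/
def Good (F : ℝ → ℝ) (M : ℝ) : Prop := ∃ c : ℕ → ℝ, Summable (fun s => |c s| * 8 ^ s) ∧
  ∑' s, |c s| * 8 ^ s ≤ M ∧ ∀ w : ℝ, 0 ≤ w → w ≤ 1 → HasSum (fun s => c s * w ^ s) (F w)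

theorem Good.nonneg {F : ℝ → ℝ} {M : ℝ} (h : Good F M) : 0 ≤ M := by
  obtain ⟨c, -, h2, -⟩ := h
  exact (tsum_nonneg fun s => by positivity).trans h2

theorem Good.mul {F G : ℝ → ℝ} {M M' : ℝ} (hF : Good F M) (hG : Good G M') :
    Good (fun w => F w * G w) (M * M') := by
  have hM := hF.nonneg
  obtain ⟨c, h1, h2, h3⟩ := hF
  obtain ⟨d, g1, g2, g3⟩ := hG
  have key : ∀ n, (∑ kl ∈ antidiagonal n, |c kl.1| * 8 ^ kl.1 * (|d kl.2| * 8 ^ kl.2)) =
      (∑ kl ∈ antidiagonal n, |c kl.1| * |d kl.2|) * 8 ^ n := by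
    intro n
    rw [Finset.sum_mul]
    refine Finset.sum_congr rfl fun kl hkl => ?_
    rw [← (mem_antidiagonal.1 hkl), pow_add]
    ring
  have e1 : Summable (fun s => ‖|c s| * 8 ^ s‖) := by
    refine h1.congr fun s => ?_
    rw [Real.norm_of_nonneg (by positivity)]
  have e2 : Summable (fun s => ‖|d s| * 8 ^ s‖) := by
    refine g1.congr fun s => ?_
    rw [Real.norm_of_nonneg (by positivity)]
  have s1 : Summable (fun n => (∑ kl ∈ antidiagonal n, |c kl.1| * |d kl.2|) * 8 ^ n) := by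
    refine (summable_norm_sum_mul_antidiagonal_of_summable_norm e1 e2).congr fun n => ?_
    rw [key n, Real.norm_of_nonneg]
    exact mul_nonneg (Finset.sum_nonneg fun kl _ => by positivity) (by positivity)
  have s2 : ∑' n, (∑ kl ∈ antidiagonal n, |c kl.1| * |d kl.2|) * 8 ^ n =
      (∑' s, |c s| * 8 ^ s) * ∑' s, |d s| * 8 ^ s := by
    rw [tsum_mul_tsum_eq_tsum_sum_antidiagonal_of_summable_norm e1 e2]
    exact tsum_congr fun n => (key n).symm
  have b1 : ∀ n, |∑ kl ∈ antidiagonal n, c kl.1 * d kl.2| * 8 ^ n ≤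
      (∑ kl ∈ antidiagonal n, |c kl.1| * |d kl.2|) * 8 ^ n := by
    intro n
    refine mul_le_mul_of_nonneg_right ?_ (by positivity)
    refine (Finset.abs_sum_le_sum_abs _ _).trans (le_of_eq ?_)
    exact Finset.sum_congr rfl fun kl _ => abs_mul _ _
  have s3 : Summable (fun n => |∑ kl ∈ antidiagonal n, c kl.1 * d kl.2| * 8 ^ n) :=
    Summable.of_nonneg_of_le (fun n => by positivity) b1 s1
  refine ⟨fun n => ∑ kl ∈ antidiagonal n, c kl.1 * d kl.2, s3, ?_, ?_⟩
  · calc ∑' n, |∑ kl ∈ antidiagonal n, c kl.1 * d kl.2| * 8 ^ n ≤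
        ∑' n, (∑ kl ∈ antidiagonal n, |c kl.1| * |d kl.2|) * 8 ^ n := s3.tsum_le_tsum b1 s1
      _ = _ := s2
      _ ≤ M * M' := mul_le_mul h2 g2 (tsum_nonneg fun s => by positivity) hM
  · intro w hw0 hw1
    have t1 := h3 w hw0 hw1
    have t2 := g3 w hw0 hw1
    have hw8 : ∀ s : ℕ, w ^ s ≤ 8 ^ s := fun s => pow_le_pow_left₀ hw0 (by linarith) s
    have n1 : Summable (fun s => ‖c s * w ^ s‖) := by
      refine Summable.of_nonneg_of_le (fun s => norm_nonneg _) (fun s => ?_) h1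
      rw [norm_mul, Real.norm_eq_abs, norm_pow, Real.norm_of_nonneg hw0]
      exact mul_le_mul_of_nonneg_left (hw8 s) (abs_nonneg _)
    have n2 : Summable (fun s => ‖d s * w ^ s‖) := by
      refine Summable.of_nonneg_of_le (fun s => norm_nonneg _) (fun s => ?_) g1
      rw [norm_mul, Real.norm_eq_abs, norm_pow, Real.norm_of_nonneg hw0]
      exact mul_le_mul_of_nonneg_left (hw8 s) (abs_nonneg _)
    have key2 : ∀ n, (∑ kl ∈ antidiagonal n, c kl.1 * w ^ kl.1 * (d kl.2 * w ^ kl.2)) =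
        (∑ kl ∈ antidiagonal n, c kl.1 * d kl.2) * w ^ n := by
      intro n
      rw [Finset.sum_mul]
      refine Finset.sum_congr rfl fun kl hkl => ?_
      rw [← (mem_antidiagonal.1 hkl), pow_add]
      ring
    have s4 : Summable (fun n => (∑ kl ∈ antidiagonal n, c kl.1 * d kl.2) * w ^ n) := by
      have := (summable_norm_sum_mul_antidiagonal_of_summable_norm n1 n2).of_norm
      exact this.congr fun n => key2 n
    have s5 := tsum_mul_tsum_eq_tsum_sum_antidiagonal_of_summable_norm n1 n2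
    rw [t1.tsum_eq, t2.tsum_eq, tsum_congr key2] at s5
    show HasSum (fun s => (∑ kl ∈ antidiagonal s, c kl.1 * d kl.2) * w ^ s) (F w * G w)
    rw [s5]
    exact s4.hasSum

theorem good_linear (a b : ℝ) (hb : 0 ≤ b) : Good (fun w => b * w - a) (8 * b + |a|) := by
  have hs : ∀ s ∉ range 2, |(if s = 0 then -a else if s = 1 then b else 0 : ℝ)| * 8 ^ s = 0 := by
    intro s hs
    rw [mem_range] at hs
    rw [if_neg (by omega), if_neg (by omega)]
    simp
  refine ⟨fun s => if s = 0 then -a else if s = 1 then b else 0, ?_, ?_, ?_⟩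
  · exact summable_of_ne_finset_zero hs
  · rw [tsum_eq_sum hs]
    simp only [Finset.sum_range_succ, Finset.sum_range_zero]
    norm_num
    rw [abs_of_nonneg hb]
    linarith
  · intro w _ _
    have h1 : ∀ s ∉ range 2, (if s = 0 then -a else if s = 1 then b else 0 : ℝ) * w ^ s = 0 := by
      intro s hs
      rw [mem_range] at hs
      rw [if_neg (by omega), if_neg (by omega)]
      simp
    have h2 : HasSum (fun s : ℕ => (if s = 0 then -a else if s = 1 then b else 0 : ℝ) * w ^ s)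
        (∑ s ∈ range 2, (if s = 0 then -a else if s = 1 then b else 0 : ℝ) * w ^ s) :=
      hasSum_sum_of_ne_finset_zero h1
    have h3 : ∑ s ∈ range 2, (if s = 0 then -a else if s = 1 then b else 0 : ℝ) * w ^ s =
        b * w - a := by
      simp only [Finset.sum_range_succ, Finset.sum_range_zero]
      norm_num
      ring
    rw [h3] at h2
    exact h2

theorem good_const (a : ℝ) : Good (fun _ => a) |a| := by
  have h := good_linear (-a) 0 le_rfl
  simpa using h

theorem good_exp (x : ℝ) (hx : 0 ≤ x) : Good (fun w => Real.exp (x * w)) (Real.exp (8 * x)) := by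
  have h8 : ∀ s : ℕ, |x ^ s / (s.factorial : ℝ)| * 8 ^ s = (8 * x) ^ s / (s.factorial : ℝ) := by
    intro s
    rw [abs_of_nonneg (by positivity), mul_pow]
    ring
  have hexp : ∀ y : ℝ, HasSum (fun n : ℕ => y ^ n / (n.factorial : ℝ)) (Real.exp y) := by
    intro y
    have := NormedSpace.expSeries_div_hasSum_exp (𝔸 := ℝ) y
    rwa [← Real.exp_eq_exp_ℝ] at this
  refine ⟨fun s => x ^ s / (s.factorial : ℝ), ?_, ?_, ?_⟩
  · exact (hexp (8 * x)).summable.congr fun s => (h8 s).symm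
  · rw [tsum_congr h8, (hexp (8 * x)).tsum_eq]
  · intro w _ _
    have := hexp (x * w)
    refine this.congr_fun ?_
    intro s
    rw [mul_pow]
    ring

/-- the binomial polynomial -/
theorem choose_real (u k : ℕ) :
    ((u.choose k : ℕ) : ℝ) = ∏ i ∈ range k, (((u : ℝ) - i) * (1 / ((i : ℝ) + 1))) := by
  induction k with
  | zero => simp
  | succ k ih =>
    rw [Finset.prod_range_succ, ← ih]
    have h1 := Nat.choose_succ_right_eq u k
    have h2 : ((u.choose (k + 1) : ℕ) : ℝ) * (k + 1) = ((u.choose k : ℕ) : ℝ) * ((u : ℝ) - k) := by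
      rcases Nat.lt_or_ge u k with h | h
      · rw [Nat.choose_eq_zero_of_lt h, Nat.choose_eq_zero_of_lt (by omega : u < k + 1)]
        simp
      · have h3 : ((u - k : ℕ) : ℝ) = (u : ℝ) - k := by rw [Nat.cast_sub h]
        rw [← h3]
        exact_mod_cast h1
    have h3 : (k : ℝ) + 1 ≠ 0 := by positivity
    field_simp
    linarith

theorem good_choose (U k : ℕ) :
    Good (fun w => ∏ i ∈ range k, (((U : ℝ) * w - i) * (1 / ((i : ℝ) + 1))))
      ((∏ i ∈ range k, (8 * (U : ℝ) + i)) / (k.factorial : ℝ)) := by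
  induction k with
  | zero =>
    have h := good_const 1
    simpa using h
  | succ k ih =>
    have h1 := (good_linear (k : ℝ) (U : ℝ) (Nat.cast_nonneg U)).mul (good_const (1 / ((k : ℝ) + 1)))
    have h2 := ih.mul h1
    have h3 : (∏ i ∈ range (k + 1), (8 * (U : ℝ) + i)) / (((k + 1).factorial : ℕ) : ℝ) =
        (∏ i ∈ range k, (8 * (U : ℝ) + i)) / (k.factorial : ℝ) *
          ((8 * (U : ℝ) + |(k : ℝ)|) * |1 / ((k : ℝ) + 1)|) := by
      rw [Finset.prod_range_succ, Nat.factorial_succ, abs_of_nonneg (Nat.cast_nonneg k),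
        abs_of_nonneg (by positivity : (0 : ℝ) ≤ 1 / ((k : ℝ) + 1))]
      push_cast
      field_simp
    rw [h3]
    refine cast (congrArg (fun F => Good F _) ?_) h2
    funext w
    rw [Finset.prod_range_succ]

/-- what we need from a row -/
theorem Good.expand {F : ℝ → ℝ} {M : ℝ} (h : Good F M) (N : ℕ) :
    ∃ c : ℕ → ℝ, (∀ s, |c s| ≤ M * (8 ^ s)⁻¹) ∧ ∀ w : ℝ, 0 ≤ w → w ≤ 1 →
      |F w - ∑ s ∈ range N, c s * w ^ s| ≤ M * (8 ^ N)⁻¹ ∧ |F w| ≤ M := by
  obtain ⟨c, h1, h2, h3⟩ := h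
  refine ⟨c, fun s => ?_, fun w hw0 hw1 => ⟨?_, ?_⟩⟩
  · have h4 : |c s| * 8 ^ s ≤ M := (h1.le_tsum s fun j _ => by positivity).trans h2
    rw [← div_eq_mul_inv, le_div_iff₀ (by positivity)]
    exact h4
  · have h4 := h3 w hw0 hw1
    have h5 := (h4.summable.sum_add_tsum_nat_add N)
    rw [h4.tsum_eq] at h5
    have h6 : F w - ∑ s ∈ range N, c s * w ^ s = ∑' i, c (i + N) * w ^ (i + N) := by linarith
    rw [h6]
    have hb : ∀ i : ℕ, ‖c (i + N) * w ^ (i + N)‖ ≤ (8 ^ N)⁻¹ * (|c (i + N)| * 8 ^ (i + N)) := by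
      intro i
      rw [norm_mul, Real.norm_eq_abs, norm_pow, Real.norm_of_nonneg hw0]
      have h7 : w ^ (i + N) ≤ 1 := pow_le_one₀ hw0 hw1
      have h8 : (8 ^ N : ℝ)⁻¹ * (|c (i + N)| * 8 ^ (i + N)) = |c (i + N)| * 8 ^ i := by
        rw [pow_add]; field_simp
      rw [h8]
      exact mul_le_mul_of_nonneg_left (h7.trans (one_le_pow₀ (by norm_num))) (abs_nonneg _)
    have h7 : Summable (fun i => (8 ^ N : ℝ)⁻¹ * (|c (i + N)| * 8 ^ (i + N))) :=
      ((summable_nat_add_iff N).2 h1).mul_left _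
    have h8 := tsum_of_norm_bounded h7.hasSum hb
    rw [Real.norm_eq_abs] at h8
    refine h8.trans ?_
    rw [tsum_mul_left, mul_comm]
    refine mul_le_mul_of_nonneg_right ?_ (by positivity)
    have h9 := h1.sum_add_tsum_nat_add N
    have h10 : 0 ≤ ∑ s ∈ range N, |c s| * 8 ^ s := Finset.sum_nonneg fun s _ => by positivity
    linarith
  · have h4 := h3 w hw0 hw1
    rw [← h4.tsum_eq]
    have hb : ∀ i : ℕ, ‖c i * w ^ i‖ ≤ |c i| * 8 ^ i := by
      intro i
      rw [norm_mul, Real.norm_eq_abs, norm_pow, Real.norm_of_nonneg hw0]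
      exact mul_le_mul_of_nonneg_left (pow_le_pow_left₀ hw0 (by linarith) i) (abs_nonneg _)
    have h8 := tsum_of_norm_bounded h1.hasSum hb
    rw [Real.norm_eq_abs] at h8
    exact h8.trans h2

/-! ### The determinant -/

/-- A row bound for a real determinant. -/
theorem det_bound_real {ι : Type*} [Fintype ι] [DecidableEq ι] (A : Matrix ι ι ℝ) (M : ι → ℝ)
    (hA : ∀ i j, |A i j| ≤ M i) :
    |A.det| ≤ ((Fintype.card ι).factorial : ℝ) * ∏ i, M i := by
  have h1 : |A.det| ≤ ∑ σ : Equiv.Perm ι, ∏ i, |A (σ i) i| := by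
    rw [Matrix.det_apply]
    refine (Finset.abs_sum_le_sum_abs _ _).trans (le_of_eq ?_)
    apply Finset.sum_congr rfl
    intro σ _
    rw [Units.smul_def, zsmul_eq_mul, abs_mul, Finset.abs_prod]
    rcases Int.units_eq_one_or (Equiv.Perm.sign σ) with h | h <;> rw [h] <;> simp
  have h2 : ∀ σ : Equiv.Perm ι, ∏ i, |A (σ i) i| ≤ ∏ i, M i := by
    intro σ
    have h3 : ∏ i, M i = ∏ i, M (σ i) := (Equiv.prod_comp σ (fun i => M i)).symm
    rw [h3]
    exact Finset.prod_le_prod (fun i _ => abs_nonneg _) (fun i _ => hA (σ i) i)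
  refine h1.trans ((Finset.sum_le_sum (fun σ _ => h2 σ)).trans (le_of_eq ?_))
  rw [Finset.sum_const, Finset.card_univ, Fintype.card_perm, nsmul_eq_mul]

/-- The bound for an interpolation determinant. -/
theorem det_small {ι : Type*} [Fintype ι] [DecidableEq ι] (A : Matrix ι ι ℝ)
    (ψ : ℕ → ι → ℝ) (c : ι → ℕ → ℝ) (B : ι → ι → ℝ) (M : ι → ℝ) (hM : ∀ i, 0 ≤ M i)
    (hA : ∀ i j, A i j = ∑ s ∈ range (Fintype.card ι), c i s * ψ s j + B i j)
    (hψ : ∀ s j, |ψ s j| ≤ 1) (hc : ∀ i s, |c i s| ≤ M i * (8 ^ s)⁻¹)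
    (hB : ∀ i j, |B i j| ≤ 2 * M i * (8 ^ (Fintype.card ι))⁻¹) :
    |A.det| ≤ ((Fintype.card ι).factorial : ℝ) *
      ((Fintype.card ι : ℝ) + 1) ^ (Fintype.card ι) * (∏ i, (2 * M i)) *
        (8 ^ (Fintype.card ι * (Fintype.card ι - 1) / 2))⁻¹ := by
  classical
  obtain ⟨N, hN⟩ : ∃ N, N = Fintype.card ι := ⟨_, rfl⟩
  rw [← hN] at hA hB ⊢
  set w : ι → ℕ → ℝ := fun i t => if t < N then c i t else 1 with hw
  set v : ι → ℕ → (ι → ℝ) := fun i t => if t < N then ψ t else B i with hv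
  have hrow : A = fun i => ∑ t ∈ range (N + 1), w i t • v i t := by
    ext i j
    rw [hA i j, Finset.sum_range_succ]
    simp only [Pi.add_apply, Finset.sum_apply, Pi.smul_apply, smul_eq_mul, hw, hv, lt_irrefl,
      if_false, one_mul]
    congr 1
    apply Finset.sum_congr rfl
    intro s hs
    simp only [mem_range.1 hs, if_true]
  have hdet : A.det = ∑ r ∈ Fintype.piFinset (fun _ : ι => range (N + 1)),
      Matrix.detRowAlternating (fun i => w i (r i) • v i (r i)) := by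
    have h0 : A.det = Matrix.detRowAlternating A := rfl
    rw [h0, hrow]
    exact MultilinearMap.map_sum_finset
      (Matrix.detRowAlternating : (ι → ℝ) [⋀^ι]→ₗ[ℝ] ℝ).toMultilinearMap
      (fun i t => w i t • v i t) (fun _ => range (N + 1))
  have hterm : ∀ r ∈ Fintype.piFinset (fun _ : ι => range (N + 1)),
      |Matrix.detRowAlternating (fun i => w i (r i) • v i (r i))| ≤
        (N.factorial : ℝ) * (∏ i, (2 * M i)) * (8 ^ (N * (N - 1) / 2))⁻¹ := by
    intro r _
    have hpos : 0 ≤ (N.factorial : ℝ) * (∏ i, (2 * M i)) * (8 ^ (N * (N - 1) / 2))⁻¹ := by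
      have : 0 ≤ ∏ i, (2 * M i) := Finset.prod_nonneg fun i _ => by have := hM i; positivity
      positivity
    by_cases hinj : ∀ i j, r i < N → r j < N → r i = r j → i = j
    · have h2 : |Matrix.detRowAlternating (fun i => w i (r i) • v i (r i))| ≤
          (N.factorial : ℝ) * ∏ i, (2 * M i * (8 ^ (if r i < N then r i else N))⁻¹) := by
        have h3 := det_bound_real (Matrix.of fun i => w i (r i) • v i (r i))
          (fun i => 2 * M i * (8 ^ (if r i < N then r i else N))⁻¹) ?_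
        · rw [← hN] at h3
          exact h3
        · intro i j
          simp only [Matrix.of_apply, Pi.smul_apply, smul_eq_mul, hw, hv]
          by_cases h : r i < N
          · simp only [h, if_true]
            rw [abs_mul]
            have h4 : |c i (r i)| * |ψ (r i) j| ≤ M i * (8 ^ (r i))⁻¹ * 1 :=
              mul_le_mul (hc i (r i)) (hψ (r i) j) (abs_nonneg _)
                (mul_nonneg (hM i) (by positivity))
            have h5 : 0 ≤ M i * (8 ^ (r i) : ℝ)⁻¹ := mul_nonneg (hM i) (by positivity)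
            linarith
          · simp only [h, if_false, one_mul]
            exact hB i j
      refine h2.trans ?_
      rw [Finset.prod_mul_distrib, mul_assoc]
      have h4 : ∏ i, ((8 : ℝ) ^ (if r i < N then r i else N))⁻¹ ≤
          (8 ^ (N * (N - 1) / 2))⁻¹ := by
        rw [Finset.prod_inv_distrib, Finset.prod_pow_eq_pow_sum]
        have h3 := exponent_count N r hinj
        rw [← hN] at h3
        gcongr
        · norm_num
        · omega
      have h5 : 0 ≤ ∏ i, (2 * M i) := Finset.prod_nonneg fun i _ => by have := hM i; positivity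
      exact mul_le_mul_of_nonneg_left (mul_le_mul_of_nonneg_left h4 h5) (by positivity)
    · push Not at hinj
      obtain ⟨i, j, hi, hj, hij, hne⟩ := hinj
      have h1 : Matrix.detRowAlternating (fun i => w i (r i) • v i (r i)) =
          (∏ i, w i (r i)) • Matrix.detRowAlternating (fun i => v i (r i)) :=
        MultilinearMap.map_smul_univ
          (Matrix.detRowAlternating : (ι → ℝ) [⋀^ι]→ₗ[ℝ] ℝ).toMultilinearMap
          (fun i => w i (r i)) (fun i => v i (r i))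
      have h2 : Matrix.detRowAlternating (fun i => v i (r i)) = 0 := by
        apply AlternatingMap.map_eq_zero_of_eq _ _ _ hne
        simp only [hv, hj, if_true, hij]
      rw [h1, h2, smul_zero, abs_zero]
      exact hpos
  rw [hdet]
  refine (Finset.abs_sum_le_sum_abs _ _).trans ((Finset.sum_le_sum hterm).trans (le_of_eq ?_))
  rw [Finset.sum_const, Fintype.card_piFinset, Finset.prod_const, Finset.card_range,
    Finset.card_univ, nsmul_eq_mul, ← hN]
  push_cast
  ring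

theorem prod_rows_real (K L : ℕ) (W : ℝ) (f : ℕ → ℝ) :
    ∏ a : Fin K × Fin L, (f a.1 * W ^ (a.2 : ℕ)) =
      (∏ k ∈ range K, f k) ^ L * W ^ (K * (L * (L - 1) / 2)) := by
  rw [Fintype.prod_prod_type]
  have h1 : ∀ k : Fin K, ∏ m : Fin L, (f k * W ^ (m : ℕ)) = f k ^ L * W ^ (L * (L - 1) / 2) := by
    intro k
    rw [Finset.prod_mul_distrib, Finset.prod_const, card_univ, Fintype.card_fin,
      Finset.prod_pow_eq_pow_sum, Fin.sum_univ_eq_sum_range (fun i => i) L, Finset.sum_range_id]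
  rw [Finset.prod_congr rfl (fun k _ => h1 k), Finset.prod_mul_distrib, Finset.prod_const,
    card_univ, Fintype.card_fin, Fin.prod_univ_eq_prod_range (fun k => f k ^ L) K,
    Finset.prod_pow, ← pow_mul, mul_comm K]

end Arch

open Arch

/-- The abstract theorem on two archimedean logarithms. -/
theorem archAbs (h0 : ZeroEst) : ArchAbs := by
  intro α β q r K L R S V hα hβ hq hr hqr hK hL hRS hKL hV hΛ hsize
  obtain ⟨c, hc, hdet⟩ := h0 K L R S α β q r hK hL hα (by omega) hq hr hqr hRS hKL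
  obtain ⟨U, hU⟩ : ∃ U : ℕ, U = (L + R) * q + S * r := ⟨_, rfl⟩
  have hu : ∀ b, (c b).1 * q + (c b).2 * r ≤ U := by
    intro b
    obtain ⟨h1, h2⟩ := hc b
    rw [hU]
    gcongr
  have hUpos : 0 < U := by
    rw [hU]
    have : 0 < (L + R) * q := Nat.mul_pos (by omega) (by omega)
    omega
  have hUr : (0 : ℝ) < U := by exact_mod_cast hUpos
  have hcard : Fintype.card (Fin K × Fin L) = K * L := by simp
  obtain ⟨a, ha⟩ : ∃ a, a = Real.log α := ⟨_, rfl⟩
  obtain ⟨b, hb⟩ : ∃ b, b = Real.log β := ⟨_, rfl⟩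
  have hα0 : (0 : ℝ) < α := by positivity
  have hβ0 : (0 : ℝ) < β := by positivity
  have hb0 : 0 ≤ b := hb ▸ Real.log_natCast_nonneg β
  rw [← ha, ← hb] at hV hΛ
  have hr0 : (0 : ℝ) < r := by exact_mod_cast hr
  have hr1 : (1 : ℝ) ≤ r := by exact_mod_cast hr
  have hL1 : (1 : ℝ) ≤ L := by exact_mod_cast hL
  obtain ⟨ω, hω⟩ : ∃ ω, ω = b / r := ⟨_, rfl⟩
  obtain ⟨l, hl⟩ : ∃ l, l = (r * a - q * b) / r := ⟨_, rfl⟩
  have hω0 : 0 ≤ ω := by rw [hω]; positivity
  have hrω : r * ω = b := by rw [hω]; field_simp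
  have haω : a = q * ω + l := by rw [hω, hl]; field_simp; ring
  have hlΛ : |l| ≤ |r * a - q * b| := by
    rw [hl, abs_div, abs_of_pos hr0]
    exact div_le_self (abs_nonneg _) hr1
  have h8N : (0 : ℝ) < 8 ^ (K * L) := by positivity
  have h8N1 : (1 : ℝ) ≤ 8 ^ (K * L) := one_le_pow₀ (by norm_num)
  have hR0 : (0 : ℝ) ≤ R := Nat.cast_nonneg R
  have hS0 : (0 : ℝ) ≤ S := Nat.cast_nonneg S
  have hsmall : |l| * (2 * ((L : ℝ) + R) * L) ≤ (8 ^ (K * L))⁻¹ := by
    have h1 : |l| * (2 * ((L : ℝ) + R) * L) ≤ |r * a - q * b| * (2 * ((L : ℝ) + R) * L) :=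
      mul_le_mul_of_nonneg_right hlΛ (by positivity)
    refine h1.trans ?_
    rw [← one_div, le_div_iff₀ h8N]
    exact hΛ
  have hωU : ω * U ≤ V := by
    have h1 : ω * (U : ℝ) = (L + R) * (a - l) + S * b := by
      rw [hU]
      push_cast
      rw [← hrω, haω]
      ring
    rw [h1]
    have h2 : ((L : ℝ) + R) * |l| ≤ 1 := by
      have h3 : ((L : ℝ) + R) * |l| ≤ |l| * (2 * ((L : ℝ) + R) * L) := by
        have h4 : (1 : ℝ) ≤ 2 * L := by linarith
        have h5 : 0 ≤ ((L : ℝ) + R) * |l| := by positivity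
        calc ((L : ℝ) + R) * |l| = ((L : ℝ) + R) * |l| * 1 := by ring
          _ ≤ ((L : ℝ) + R) * |l| * (2 * L) := mul_le_mul_of_nonneg_left h4 h5
          _ = _ := by ring
      have h6 : (8 ^ (K * L) : ℝ)⁻¹ ≤ 1 := inv_le_one_of_one_le₀ h8N1
      linarith
    have h3 : -(((L : ℝ) + R) * l) ≤ ((L : ℝ) + R) * |l| := by
      have := neg_abs_le l
      have h4 : 0 ≤ (L : ℝ) + R := by positivity
      nlinarith
    nlinarith
  -- the majorants
  obtain ⟨M, hMdef⟩ : ∃ M : Fin K × Fin L → ℝ, M = fun x =>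
      ((∏ i ∈ range (x.1 : ℕ), (8 * (U : ℝ) + i)) / ((x.1 : ℕ).factorial : ℝ)) *
        Real.exp (8 * (((x.2 : ℕ) : ℝ) * (ω * U))) := ⟨_, rfl⟩
  obtain ⟨F, hF⟩ : ∃ F : Fin K × Fin L → ℝ → ℝ, F = fun x w =>
      (∏ i ∈ range (x.1 : ℕ), (((U : ℝ) * w - i) * (1 / ((i : ℝ) + 1)))) *
        Real.exp (((x.2 : ℕ) : ℝ) * (ω * U) * w) := ⟨_, rfl⟩
  have hgood : ∀ x, Good (F x) (M x) := by
    intro x
    rw [hF, hMdef]
    exact (good_choose U x.1).mul (good_exp _ (by positivity))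
  have hM0 : ∀ x, 0 ≤ M x := fun x => (hgood x).nonneg
  have hexp := fun x => (hgood x).expand (K * L)
  choose cc hcc hFw using hexp
  have hw0 : ∀ y : Fin K × Fin L, 0 ≤ (((c y).1 * q + (c y).2 * r : ℕ) : ℝ) / U := fun y => by
    positivity
  have hw1 : ∀ y : Fin K × Fin L, (((c y).1 * q + (c y).2 * r : ℕ) : ℝ) / U ≤ 1 := fun y => by
    rw [div_le_one hUr]
    exact_mod_cast hu y
  -- the real matrix
  obtain ⟨A, hA⟩ : ∃ A : Matrix (Fin K × Fin L) (Fin K × Fin L) ℝ, A = Matrix.of (fun x y =>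
      ((((c y).1 * q + (c y).2 * r).choose x.1 : ℕ) : ℝ) *
        ((α : ℝ) ^ (c y).1 * (β : ℝ) ^ (c y).2) ^ (x.2 : ℕ)) := ⟨_, rfl⟩
  have hdetA : 1 ≤ |A.det| := by
    have h1 : A = (Matrix.of (fun a b : Fin K × Fin L =>
      ((((c b).1 * q + (c b).2 * r).choose a.1 : ℕ) : ℤ) *
        ((α : ℤ) ^ (c b).1 * (β : ℤ) ^ (c b).2) ^ (a.2 : ℕ))).map (Int.castRingHom ℝ) := by
      ext x y
      rw [hA]
      simp
    have h2 : A.det = (((Matrix.of (fun a b : Fin K × Fin L =>
      ((((c b).1 * q + (c b).2 * r).choose a.1 : ℕ) : ℤ) *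
        ((α : ℤ) ^ (c b).1 * (β : ℤ) ^ (c b).2) ^ (a.2 : ℕ))).det : ℤ) : ℝ) := by
      rw [h1, ← RingHom.mapMatrix_apply, ← RingHom.map_det]
      simp
    rw [h2, ← Int.cast_abs]
    have h3 := Int.one_le_abs hdet
    exact_mod_cast h3
  -- entries
  have hentry : ∀ x y, A x y = F x ((((c y).1 * q + (c y).2 * r : ℕ) : ℝ) / U) *
      Real.exp (((c y).1 : ℝ) * ((x.2 : ℕ) : ℝ) * l) := by
    intro x y
    rw [hA, hF]
    simp only [Matrix.of_apply]
    have h1 : (U : ℝ) * ((((c y).1 * q + (c y).2 * r : ℕ) : ℝ) / U) =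
        (((c y).1 * q + (c y).2 * r : ℕ) : ℝ) := by field_simp
    rw [h1, ← choose_real, mul_assoc, ← Real.exp_add]
    congr 1
    have h2 : ((α : ℝ) ^ (c y).1 * (β : ℝ) ^ (c y).2) =
        Real.exp ((c y).1 * a + (c y).2 * b) := by
      rw [Real.exp_add, Real.exp_nat_mul, Real.exp_nat_mul, ha, hb, Real.exp_log hα0,
        Real.exp_log hβ0]
    rw [h2, ← Real.exp_nat_mul]
    congr 1
    have h3 : ((x.2 : ℕ) : ℝ) * (ω * U) * ((((c y).1 * q + (c y).2 * r : ℕ) : ℝ) / U) =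
        ((x.2 : ℕ) : ℝ) * ω * (((c y).1 * q + (c y).2 * r : ℕ) : ℝ) := by
      field_simp
    rw [h3]
    push_cast
    rw [haω, ← hrω]
    ring
  have hsmallexp : ∀ x y : Fin K × Fin L,
      |Real.exp (((c y).1 : ℝ) * ((x.2 : ℕ) : ℝ) * l) - 1| ≤ (8 ^ (K * L))⁻¹ := by
    intro x y
    have h1 : ((c y).1 : ℝ) ≤ L + R := by
      have := (hc y).1.le
      exact_mod_cast this
    have h2 : ((x.2 : ℕ) : ℝ) ≤ L := by exact_mod_cast x.2.2.le
    have h3 : |((c y).1 : ℝ) * ((x.2 : ℕ) : ℝ) * l| ≤ ((L : ℝ) + R) * L * |l| := by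
      rw [abs_mul, abs_of_nonneg (by positivity)]
      exact mul_le_mul_of_nonneg_right
        (mul_le_mul h1 h2 (by positivity) (by positivity)) (abs_nonneg _)
    have h4 : 2 * (((L : ℝ) + R) * L * |l|) ≤ (8 ^ (K * L))⁻¹ := by
      have : |l| * (2 * ((L : ℝ) + R) * L) = 2 * (((L : ℝ) + R) * L * |l|) := by ring
      rw [← this]
      exact hsmall
    have h5 : (8 ^ (K * L) : ℝ)⁻¹ ≤ 1 := inv_le_one_of_one_le₀ h8N1
    have h6 := Real.abs_exp_sub_one_le (x := ((c y).1 : ℝ) * ((x.2 : ℕ) : ℝ) * l) (by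
      have : 0 ≤ ((L : ℝ) + R) * L * |l| := by positivity
      linarith)
    linarith
  have hbound := det_small A
    (fun s y => ((((c y).1 * q + (c y).2 * r : ℕ) : ℝ) / U) ^ s) cc
    (fun x y => A x y - ∑ s ∈ range (K * L), cc x s *
      ((((c y).1 * q + (c y).2 * r : ℕ) : ℝ) / U) ^ s) M hM0
    (by
      intro x y
      rw [hcard]
      ring)
    (by
      intro s y
      rw [abs_of_nonneg (pow_nonneg (hw0 y) s)]
      exact pow_le_one₀ (hw0 y) (hw1 y))
    hcc
    (by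
      intro x y
      rw [hcard, hentry x y]
      obtain ⟨h1, h2⟩ := hFw x _ (hw0 y) (hw1 y)
      have h3 := hsmallexp x y
      have h4 : F x ((((c y).1 * q + (c y).2 * r : ℕ) : ℝ) / U) *
          Real.exp (((c y).1 : ℝ) * ((x.2 : ℕ) : ℝ) * l) -
          ∑ s ∈ range (K * L), cc x s * ((((c y).1 * q + (c y).2 * r : ℕ) : ℝ) / U) ^ s =
          (F x ((((c y).1 * q + (c y).2 * r : ℕ) : ℝ) / U) -
          ∑ s ∈ range (K * L), cc x s * ((((c y).1 * q + (c y).2 * r : ℕ) : ℝ) / U) ^ s) +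
          F x ((((c y).1 * q + (c y).2 * r : ℕ) : ℝ) / U) *
          (Real.exp (((c y).1 : ℝ) * ((x.2 : ℕ) : ℝ) * l) - 1) := by ring
      rw [h4]
      refine (abs_add_le _ _).trans ?_
      rw [abs_mul]
      have h5 := mul_le_mul h2 h3 (abs_nonneg _) (hM0 x)
      linarith)
  rw [hcard] at hbound
  -- the product of the majorants
  have hprod : ∏ x, M x ≤ (∏ k ∈ range K, ((∏ i ∈ range k,
      (8 * (((L : ℝ) + R) * q + S * r) + i)) / (k.factorial : ℝ))) ^ L *
        Real.exp (8 * V) ^ (K * (L * (L - 1) / 2)) := by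
    rw [← prod_rows_real K L (Real.exp (8 * V)) (fun k => (∏ i ∈ range k,
      (8 * (((L : ℝ) + R) * q + S * r) + i)) / (k.factorial : ℝ))]
    refine Finset.prod_le_prod (fun x _ => hM0 x) fun x _ => ?_
    rw [hMdef, hU]
    simp only
    push_cast
    have h1 : Real.exp (8 * (((x.2 : ℕ) : ℝ) * (ω * (((L : ℝ) + R) * q + S * r)))) ≤
        Real.exp (8 * V) ^ (x.2 : ℕ) := by
      rw [← Real.exp_nat_mul]
      apply Real.exp_le_exp.2
      have h2 : ω * (((L : ℝ) + R) * q + S * r) ≤ V := by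
        have := hωU
        rw [hU] at this
        push_cast at this
        exact this
      have h3 : (0 : ℝ) ≤ ((x.2 : ℕ) : ℝ) := Nat.cast_nonneg _
      have h4 := mul_le_mul_of_nonneg_left h2 h3
      calc 8 * (((x.2 : ℕ) : ℝ) * (ω * (((L : ℝ) + R) * q + S * r)))
          ≤ 8 * (((x.2 : ℕ) : ℝ) * V) := mul_le_mul_of_nonneg_left h4 (by norm_num)
        _ = ((x.2 : ℕ) : ℝ) * (8 * V) := by ring
    exact mul_le_mul_of_nonneg_left h1 (by positivity)
  have hfinal : 1 ≤ ((K * L).factorial : ℝ) * (2 * (K : ℝ) * L + 2) ^ (K * L) *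
    (∏ k ∈ range K, ((∏ i ∈ range k, (8 * (((L : ℝ) + R) * q + S * r) + i)) /
      (k.factorial : ℝ))) ^ L * Real.exp (8 * V) ^ (K * (L * (L - 1) / 2)) *
    (8 ^ (K * L * (K * L - 1) / 2))⁻¹ := by
    refine (hdetA.trans hbound).trans ?_
    rw [Finset.prod_mul_distrib, Finset.prod_const, Finset.card_univ, hcard]
    have h2 : ((K * L).factorial : ℝ) * (((K * L : ℕ) : ℝ) + 1) ^ (K * L) *
        (2 ^ (K * L) * ∏ x, M x) * (8 ^ (K * L * (K * L - 1) / 2))⁻¹ =
        ((K * L).factorial : ℝ) * (2 * (K : ℝ) * L + 2) ^ (K * L) * (∏ x, M x) *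
        (8 ^ (K * L * (K * L - 1) / 2))⁻¹ := by
      have h3 : (2 * (K : ℝ) * L + 2) ^ (K * L) =
          (((K * L : ℕ) : ℝ) + 1) ^ (K * L) * 2 ^ (K * L) := by
        rw [← mul_pow]
        congr 1
        push_cast
        ring
      rw [h3]
      ring
    rw [h2]
    have h4 := mul_le_mul_of_nonneg_left hprod
      (by positivity : (0 : ℝ) ≤ ((K * L).factorial : ℝ) * (2 * (K : ℝ) * L + 2) ^ (K * L))
    have h5 := mul_le_mul_of_nonneg_right h4
      (by positivity : (0 : ℝ) ≤ (8 ^ (K * L * (K * L - 1) / 2) : ℝ)⁻¹)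
    refine h5.trans (le_of_eq ?_)
    ring
  have h8 : (0 : ℝ) < 8 ^ (K * L * (K * L - 1) / 2) := by positivity
  rw [← div_eq_mul_inv, le_div_iff₀ h8, one_mul] at hfinal
  exact absurd hsize (not_lt.2 hfinal)

end Pool.Agent.Lib.MP_509488_nt.Unif
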