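import Pool.Agent.Lib.MP_509488_nt.Unif.Stmts3

/-!
# Uniform bases, F2: two archimedean logarithms with an explicit constant
-/

namespace Pool.Agent.Lib.MP_509488_nt.Unif

open Finset

namespace ArchTwo

theorem log_ge {n : ℕ} (h : 2 ≤ n) : (69 / 100 : ℝ) ≤ Real.log n := by
  have h1 : Real.log 2 ≤ Real.log n := Real.log_le_log (by norm_num) (by exact_mod_cast h)
  have := Real.log_two_gt_d9
  linarith

theorem eight_le : (8 : ℝ) ≤ Real.exp (208 / 100) := by
  rw [← Real.log_le_iff_le_exp (by norm_num)]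
  have h : Real.log 8 = 3 * Real.log 2 := by
    rw [show (8 : ℝ) = 2 ^ 3 by norm_num, Real.log_pow]
    norm_num
  rw [h]
  have := Real.log_two_lt_d9
  linarith

theorem le_eight : Real.exp (207 / 100) ≤ 8 := by
  rw [← Real.le_log_iff_exp_le (by norm_num)]
  have h : Real.log 8 = 3 * Real.log 2 := by
    rw [show (8 : ℝ) = 2 ^ 3 by norm_num, Real.log_pow]
    norm_num
  rw [h]
  have := Real.log_two_gt_d9
  linarith

/-- the factor `P_k` -/
theorem factor_le {K k : ℕ} (hk : k < K) {U b : ℝ} (hU : 0 ≤ U) (hb : U + K ≤ K * b) :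
    (∏ i ∈ range k, (U + i)) / (k.factorial : ℝ) ≤ b ^ k * Real.exp K := by
  have hK : (0 : ℝ) < K := by
    have : 0 < K := by omega
    exact_mod_cast this
  have h1 : ∏ i ∈ range k, (U + i) ≤ (K * b) ^ k := by
    calc ∏ i ∈ range k, (U + i) ≤ ∏ _i ∈ range k, (K * b : ℝ) := by
          apply Finset.prod_le_prod
          · intro i _
            positivity
          · intro i hi
            have : (i : ℝ) ≤ K := by
              have := Finset.mem_range.mp hi
              exact_mod_cast (by omega : i ≤ K)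
            linarith
      _ = _ := by simp
  have hb0 : 0 ≤ b := by
    by_contra h
    push Not at h
    nlinarith
  have h2 : (K : ℝ) ^ k / (k.factorial : ℝ) ≤ Real.exp K :=
    Real.pow_div_factorial_le_exp K hK.le k
  have hf : (0 : ℝ) < (k.factorial : ℝ) := by exact_mod_cast k.factorial_pos
  calc (∏ i ∈ range k, (U + i)) / (k.factorial : ℝ) ≤ (K * b) ^ k / (k.factorial : ℝ) :=
        div_le_div_of_nonneg_right h1 hf.le
    _ = b ^ k * ((K : ℝ) ^ k / (k.factorial : ℝ)) := by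
        rw [mul_pow]
        ring
    _ ≤ b ^ k * Real.exp K := mul_le_mul_of_nonneg_left h2 (by positivity)

/-- the product of the factors -/
theorem prod_le {K : ℕ} {U b c : ℝ} (hU : 0 ≤ U) (hc : 0 ≤ c) (hb : U + K ≤ K * b)
    (hbc : b ≤ Real.exp c) :
    ∏ k ∈ range K, ((∏ i ∈ range k, (U + i)) / (k.factorial : ℝ)) ≤
      Real.exp ((K : ℝ) ^ 2 / 2 * c + (K : ℝ) ^ 2) := by
  rcases Nat.eq_zero_or_pos K with h0 | h0
  · subst h0
    simp
  have hK : (0 : ℝ) < K := by exact_mod_cast h0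
  have hb0 : 0 ≤ b := by
    by_contra h
    push Not at h
    nlinarith
  calc ∏ k ∈ range K, ((∏ i ∈ range k, (U + i)) / (k.factorial : ℝ))
      ≤ ∏ k ∈ range K, Real.exp (k * c + K) := by
        apply Finset.prod_le_prod
        · intro k _
          apply div_nonneg _ (by positivity)
          exact Finset.prod_nonneg fun i _ => by positivity
        · intro k hk
          refine (factor_le (Finset.mem_range.mp hk) hU hb).trans ?_
          rw [Real.exp_add, Real.exp_nat_mul]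
          exact mul_le_mul_of_nonneg_right (pow_le_pow_left₀ hb0 hbc k) (Real.exp_pos _).le
    _ = Real.exp (∑ k ∈ range K, (k * c + K)) := by rw [Real.exp_sum]
    _ ≤ _ := by
        apply Real.exp_le_exp.mpr
        rw [Finset.sum_add_distrib, ← Finset.sum_mul, Finset.sum_const, card_range, nsmul_eq_mul]
        have h1 : (∑ k ∈ range K, (k : ℝ)) ≤ (K : ℝ) ^ 2 / 2 := by
          have h2 := Finset.sum_range_id_mul_two K
          have h3 : (∑ k ∈ range K, (k : ℝ)) * 2 = (K : ℝ) * ((K - 1 : ℕ) : ℝ) := by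
            rw [← Nat.cast_mul, ← h2, Nat.cast_mul, Nat.cast_sum]
            norm_num
          have h4 : ((K - 1 : ℕ) : ℝ) ≤ K := by exact_mod_cast Nat.sub_le K 1
          nlinarith
        nlinarith

/-- the numerical inequality -/
theorem numeric {K L : ℕ} (hL : 10 ≤ L) (hKL : 190 * L ≤ K) {U V b : ℝ} (hU : 0 ≤ U)
    (hb : U + K ≤ K * b) (hbL : b ≤ Real.exp (((L : ℝ) - 10) / 3)) (hV : 8 * V ≤ K) :
    ((K * L).factorial : ℝ) * (2 * (K : ℝ) * L + 2) ^ (K * L) *
      (∏ k ∈ range K, ((∏ i ∈ range k, (U + i)) / (k.factorial : ℝ))) ^ L *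
      Real.exp (8 * V) ^ (K * (L * (L - 1) / 2)) < 8 ^ (K * L * (K * L - 1) / 2) := by
  have hL' : (10 : ℝ) ≤ L := by exact_mod_cast hL
  have hKL' : 190 * (L : ℝ) ≤ K := by exact_mod_cast hKL
  have hK : (1900 : ℝ) ≤ K := by linarith
  set N : ℝ := (K : ℝ) * L with hN
  have hN1 : 1 ≤ N := by nlinarith
  -- first factors
  have h1 : ((K * L).factorial : ℝ) * (2 * (K : ℝ) * L + 2) ^ (K * L) ≤ Real.exp (K * N) := by
    have e1 : ((K * L).factorial : ℝ) ≤ N ^ (K * L) := by
      have := Nat.factorial_le_pow (K * L)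
      have h' : ((K * L).factorial : ℝ) ≤ (((K * L : ℕ) : ℝ)) ^ (K * L) := by exact_mod_cast this
      push_cast at h'
      exact h'
    have e2 : N * (2 * N + 2) ≤ Real.exp K := by
      have e3 := Real.pow_div_factorial_le_exp (K : ℝ) (by positivity) 4
      refine le_trans ?_ e3
      have e4 : N ≤ (K : ℝ) ^ 2 / 190 := by
        rw [hN]
        nlinarith
      have e5 : N * (2 * N + 2) ≤ 4 * N ^ 2 := by nlinarith
      have e6 : N ^ 2 ≤ ((K : ℝ) ^ 2 / 190) ^ 2 := pow_le_pow_left₀ (by positivity) e4 2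
      have e7 : ((4 : ℕ).factorial : ℝ) = 24 := by norm_num [Nat.factorial]
      rw [e7]
      have e8 : ((K : ℝ) ^ 2 / 190) ^ 2 = (K : ℝ) ^ 4 / 36100 := by ring
      have e9 : 0 ≤ (K : ℝ) ^ 4 := by positivity
      rw [e8] at e6
      linarith
    calc ((K * L).factorial : ℝ) * (2 * (K : ℝ) * L + 2) ^ (K * L)
        ≤ N ^ (K * L) * (2 * N + 2) ^ (K * L) := by
          have : (2 * (K : ℝ) * L + 2) = 2 * N + 2 := by rw [hN]; ring
          rw [this]
          exact mul_le_mul_of_nonneg_right e1 (by positivity)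
      _ = (N * (2 * N + 2)) ^ (K * L) := (mul_pow N (2 * N + 2) (K * L)).symm
      _ ≤ Real.exp K ^ (K * L) := pow_le_pow_left₀ (by positivity) e2 _
      _ = Real.exp (K * N) := by
          rw [← Real.exp_nat_mul]
          congr 1
          rw [hN]
          push_cast
          ring
  have h2 : (∏ k ∈ range K, ((∏ i ∈ range k, (U + i)) / (k.factorial : ℝ))) ^ L ≤
      Real.exp (L * ((K : ℝ) ^ 2 / 2 * (((L : ℝ) - 10) / 3) + (K : ℝ) ^ 2)) := by
    rw [Real.exp_nat_mul]
    apply pow_le_pow_left₀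
    · apply Finset.prod_nonneg
      intro k _
      apply div_nonneg _ (by positivity)
      exact Finset.prod_nonneg fun i _ => by positivity
    · exact prod_le hU (by linarith) hb hbL
  have h3 : Real.exp (8 * V) ^ (K * (L * (L - 1) / 2)) ≤
      Real.exp ((K : ℝ) * (K * ((L : ℝ) * (L - 1) / 2))) := by
    rw [← Real.exp_nat_mul]
    apply Real.exp_le_exp.mpr
    have e1 : ((K * (L * (L - 1) / 2) : ℕ) : ℝ) ≤ (K : ℝ) * ((L : ℝ) * (L - 1) / 2) := by
      push_cast
      apply mul_le_mul_of_nonneg_left _ (by positivity)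
      refine Nat.cast_div_le.trans ?_
      rw [Nat.cast_mul, Nat.cast_sub (by omega : 1 ≤ L)]
      push_cast
      exact le_rfl
    have e2 : (0 : ℝ) ≤ ((K * (L * (L - 1) / 2) : ℕ) : ℝ) := by positivity
    have e3 : (0 : ℝ) ≤ K := by positivity
    calc ((K * (L * (L - 1) / 2) : ℕ) : ℝ) * (8 * V) ≤ ((K * (L * (L - 1) / 2) : ℕ) : ℝ) * K :=
          mul_le_mul_of_nonneg_left hV e2
      _ ≤ ((K : ℝ) * ((L : ℝ) * (L - 1) / 2)) * K := mul_le_mul_of_nonneg_right e1 e3
      _ = _ := by ring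
  have h4 : Real.exp (207 / 100 * (N * (N - 1) / 2)) ≤ 8 ^ (K * L * (K * L - 1) / 2) := by
    have e1 : (((K * L * (K * L - 1) / 2 : ℕ)) : ℝ) = N * (N - 1) / 2 := by
      rw [← Nat.choose_two_right, Nat.cast_choose_two]
      push_cast
      rfl
    calc Real.exp (207 / 100 * (N * (N - 1) / 2)) =
        Real.exp (207 / 100) ^ (K * L * (K * L - 1) / 2) := by
          rw [← Real.exp_nat_mul, e1]
          congr 1
          ring
      _ ≤ _ := pow_le_pow_left₀ (Real.exp_pos _).le le_eight _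
  refine lt_of_lt_of_le ?_ h4
  have hA0 : 0 ≤ ((K * L).factorial : ℝ) * (2 * (K : ℝ) * L + 2) ^ (K * L) := by positivity
  have hB0 : 0 ≤ (∏ k ∈ range K, ((∏ i ∈ range k, (U + i)) / (k.factorial : ℝ))) ^ L := by
    apply pow_nonneg
    apply Finset.prod_nonneg
    intro k _
    apply div_nonneg _ (by positivity)
    exact Finset.prod_nonneg fun i _ => by positivity
  calc _ ≤ Real.exp (K * N) *
        Real.exp (L * ((K : ℝ) ^ 2 / 2 * (((L : ℝ) - 10) / 3) + (K : ℝ) ^ 2)) *
        Real.exp ((K : ℝ) * (K * ((L : ℝ) * (L - 1) / 2))) := by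
        apply mul_le_mul (mul_le_mul h1 h2 hB0 (Real.exp_pos _).le) h3 (by positivity)
        positivity
    _ = Real.exp (K * N + L * ((K : ℝ) ^ 2 / 2 * (((L : ℝ) - 10) / 3) + (K : ℝ) ^ 2) +
        (K : ℝ) * (K * ((L : ℝ) * (L - 1) / 2))) := by
        rw [Real.exp_add, Real.exp_add]
    _ < _ := by
        apply Real.exp_lt_exp.mpr
        rw [hN]
        have e1 : 207 / 100 * ((K : ℝ) * L * ((K : ℝ) * L - 1) / 2) -
            (K * ((K : ℝ) * L) + L * ((K : ℝ) ^ 2 / 2 * (((L : ℝ) - 10) / 3) + (K : ℝ) ^ 2) +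
            (K : ℝ) * (K * ((L : ℝ) * (L - 1) / 2))) =
            (K : ℝ) * L * ((K : ℝ) * ((207 / 200 - 2 / 3) * L + 1 / 6) - 207 / 200) := by
          ring
        have e2 : 0 < (K : ℝ) * L * ((K : ℝ) * ((207 / 200 - 2 / 3) * L + 1 / 6) - 207 / 200) := by
          apply mul_pos (by positivity)
          nlinarith
        linarith

/-- the bound for `U` -/
theorem bU {a b L q r R S K : ℝ} (ha : 69 / 100 ≤ a) (hb : 69 / 100 ≤ b) (hL : 10 ≤ L)
    (hq : 1 ≤ q) (hr : 1 ≤ r) (hK1 : 400 * (L * (a * b)) ≤ K) (hR : R ≤ 21 * (L * b) + 1)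
    (hS : S ≤ 21 * (L * a) + 1) (hbig : 10000 ≤ q / a + r / b) :
    (8 * ((L + R) * q + S * r)) + K ≤ K * (q / a + r / b) := by
  have ha0 : 0 < a := by linarith
  have hb0 : 0 < b := by linarith
  have hL0 : 0 < L := by linarith
  have hLb : 69 / 10 ≤ L * b := by nlinarith
  have hLa : 69 / 10 ≤ L * a := by nlinarith
  have hK0 : 0 ≤ K := le_trans (by positivity) hK1
  have h0 : 0 ≤ q / a + r / b := by linarith
  have h1 : 400 * (L * b * q + L * a * r) ≤ K * (q / a + r / b) := by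
    have h2 := mul_le_mul_of_nonneg_right hK1 h0
    have h3 : 400 * (L * (a * b)) * (q / a + r / b) = 400 * (L * b * q + L * a * r) := by
      field_simp
    linarith
  have h4 : K ≤ K * (q / a + r / b) / 10000 := by
    have := mul_le_mul_of_nonneg_left hbig hK0
    linarith
  have h5 : 8 * (L + R) ≤ 190 * (L * b) := by
    have h5' : L * (69 / 100) ≤ L * b := mul_le_mul_of_nonneg_left hb hL0.le
    linarith
  have h6 : 8 * S ≤ 190 * (L * a) := by linarith
  have h8 : 8 * (L + R) * q ≤ 190 * (L * b) * q := mul_le_mul_of_nonneg_right h5 (by linarith)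
  have h9 : 8 * S * r ≤ 190 * (L * a) * r := mul_le_mul_of_nonneg_right h6 (by linarith)
  have h10 : 0 ≤ L * b * q + L * a * r := by positivity
  have e1 : 8 * ((L + R) * q + S * r) = 8 * (L + R) * q + 8 * S * r := by ring
  have e2 : 190 * (L * b) * q = 190 * (L * b * q) := by ring
  have e3 : 190 * (L * a) * r = 190 * (L * a * r) := by ring
  linarith

/-- the bound for `V` -/
theorem bV {a b L R S K : ℝ} (ha : 69 / 100 ≤ a) (hb : 69 / 100 ≤ b) (hL : 10 ≤ L)
    (hK1 : 400 * (L * (a * b)) ≤ K) (hR : R ≤ 21 * (L * b) + 1)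
    (hS : S ≤ 21 * (L * a) + 1) : 8 * ((L + R) * a + S * b + 1) ≤ K := by
  have ha0 : 0 < a := by linarith
  have hb0 : 0 < b := by linarith
  have hL0 : 0 < L := by linarith
  have hab : 69 / 100 * a ≤ a * b := by nlinarith
  have hab' : 69 / 100 * b ≤ a * b := by nlinarith
  have hab2 : 4761 / 10000 ≤ a * b := by nlinarith
  have hLab : 10 * (a * b) ≤ L * (a * b) := mul_le_mul_of_nonneg_right hL (by positivity)
  have hLa : L * (69 / 100 * a) ≤ L * (a * b) := mul_le_mul_of_nonneg_left hab hL0.le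
  have h1 : R * a ≤ (21 * (L * b) + 1) * a := mul_le_mul_of_nonneg_right hR ha0.le
  have h2 : S * b ≤ (21 * (L * a) + 1) * b := mul_le_mul_of_nonneg_right hS hb0.le
  have e1 : (21 * (L * b) + 1) * a = 21 * (L * (a * b)) + a := by ring
  have e2 : (21 * (L * a) + 1) * b = 21 * (L * (a * b)) + b := by ring
  have e3 : (L + R) * a = L * a + R * a := by ring
  rw [e1] at h1
  rw [e2] at h2
  rw [e3]
  linarith

/-- the exponents -/
theorem bE {a b L R K : ℝ} (ha : 69 / 100 ≤ a) (hb : 69 / 100 ≤ b) (hL : 10 ≤ L)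
    (hK2 : K ≤ 400 * (L * (a * b)) + 1) (hR : R ≤ 21 * (L * b) + 1) :
    -(1000 * L ^ 2 * a * b) + 2 * (L + R) * L + 208 / 100 * (K * L) ≤ 0 := by
  have ha0 : 0 < a := by linarith
  have hb0 : 0 < b := by linarith
  have hL0 : 0 < L := by linarith
  have hab2 : 4761 / 10000 ≤ a * b := by nlinarith
  have hX : L * (4761 / 10000) ≤ L * (a * b) := mul_le_mul_of_nonneg_left hab2 hL0.le
  have hab' : b ≤ a * b * (100 / 69) := by nlinarith
  have hLb : L * b ≤ L * (a * b * (100 / 69)) := mul_le_mul_of_nonneg_left hab' hL0.le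
  have h1 : 2 * (L + R) + 208 / 100 * K ≤ 1000 * (L * (a * b)) := by linarith
  have h2 := mul_le_mul_of_nonneg_left h1 hL0.le
  have e1 : L * (2 * (L + R) + 208 / 100 * K) = 2 * (L + R) * L + 208 / 100 * (K * L) := by ring
  have e2 : L * (1000 * (L * (a * b))) = 1000 * L ^ 2 * a * b := by ring
  linarith

/-- the number of points -/
theorem bP {a b L R S K : ℝ} (ha : 69 / 100 ≤ a) (hb : 69 / 100 ≤ b) (hL : 10 ≤ L)
    (hK2 : K ≤ 400 * (L * (a * b)) + 1) (hR : 21 * (L * b) ≤ R)
    (hS : 21 * (L * a) ≤ S) : K * L ≤ R * S := by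
  have ha0 : 0 < a := by linarith
  have hb0 : 0 < b := by linarith
  have hL0 : 0 < L := by linarith
  have hab2 : 4761 / 10000 ≤ a * b := by nlinarith
  have hX : L * (4761 / 10000) ≤ L * (a * b) := mul_le_mul_of_nonneg_left hab2 hL0.le
  have hS0 : 0 ≤ S := le_trans (by positivity) hS
  have h2 : 21 * (L * b) * (21 * (L * a)) ≤ R * S :=
    mul_le_mul hR hS (by positivity) (le_trans (by positivity) hR)
  have h1 : K ≤ 441 * (L * (a * b)) := by linarith
  have h3 := mul_le_mul_of_nonneg_right h1 hL0.le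
  have e1 : 441 * (L * (a * b)) * L = 21 * (L * b) * (21 * (L * a)) := by ring
  linarith

/-- the size of `q / a + r / b` -/
theorem bB {a b L q r : ℝ} (ha : 69 / 100 ≤ a) (hb : 69 / 100 ≤ b) (hL : 10 ≤ L)
    (hq : 1 ≤ q) (hr : 1 ≤ r) (hbig : 1000 * L * b ≤ r ∨ 1000 * L * a ≤ q) :
    10000 ≤ q / a + r / b := by
  have ha0 : 0 < a := by linarith
  have hb0 : 0 < b := by linarith
  have h1 : 0 ≤ q / a := by positivity
  have h2 : 0 ≤ r / b := by positivity
  rcases hbig with h3 | h3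
  · have : (10000 : ℝ) ≤ r / b := by
      rw [le_div_iff₀ hb0]
      have := mul_le_mul_of_nonneg_right hL hb0.le
      linarith
    linarith
  · have : (10000 : ℝ) ≤ q / a := by
      rw [le_div_iff₀ ha0]
      have := mul_le_mul_of_nonneg_right hL ha0.le
      linarith
    linarith

end ArchTwo

open ArchTwo in
theorem archTwoLogs (h : ArchAbs) : ArchTwoLogs := by
  intro α β q r L hα hβ hq hr hcop hL hlog hbig
  by_contra hcon
  push Not at hcon
  generalize ha : Real.log α = a at *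
  generalize hb : Real.log β = b at *
  have ha1 : 69 / 100 ≤ a := ha ▸ log_ge hα
  have hb1 : 69 / 100 ≤ b := hb ▸ log_ge hβ
  have hL' : (10 : ℝ) ≤ L := by exact_mod_cast hL
  have hq' : (1 : ℝ) ≤ q := by exact_mod_cast hq
  have hr' : (1 : ℝ) ≤ r := by exact_mod_cast hr
  have ha0 : 0 < a := by linarith
  have hb0 : 0 < b := by linarith
  have hL0 : (0 : ℝ) < L := by linarith
  have hab : 4761 / 10000 ≤ a * b := by nlinarith
  obtain ⟨K, hK1, hK2⟩ : ∃ K : ℕ, 400 * ((L : ℝ) * (a * b)) ≤ K ∧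
      (K : ℝ) ≤ 400 * ((L : ℝ) * (a * b)) + 1 :=
    ⟨_, Nat.le_ceil _, (Nat.ceil_lt_add_one (by positivity)).le⟩
  obtain ⟨R, hR1, hR2⟩ : ∃ R : ℕ, 21 * ((L : ℝ) * b) ≤ R ∧ (R : ℝ) ≤ 21 * ((L : ℝ) * b) + 1 :=
    ⟨_, Nat.le_ceil _, (Nat.ceil_lt_add_one (by positivity)).le⟩
  obtain ⟨S, hS1, hS2⟩ : ∃ S : ℕ, 21 * ((L : ℝ) * a) ≤ S ∧ (S : ℝ) ≤ 21 * ((L : ℝ) * a) + 1 :=
    ⟨_, Nat.le_ceil _, (Nat.ceil_lt_add_one (by positivity)).le⟩
  have hX : (L : ℝ) * (4761 / 10000) ≤ L * (a * b) := mul_le_mul_of_nonneg_left hab hL0.le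
  have hKLn : 190 * L ≤ K := by
    have : (190 : ℝ) * L ≤ K := by linarith
    exact_mod_cast this
  have hb' := bB ha1 hb1 hL' hq' hr' hbig
  refine h α β q r K L R S (((L : ℝ) + R) * a + S * b + 1) hα hβ hq hr hcop (by omega) (by omega)
    ?_ ?_ (by rw [ha, hb]) ?_ ?_
  · rcases hbig with h3 | h3
    · left
      have : (R : ℝ) ≤ r := by
        have h4 : (10 : ℝ) * b ≤ L * b := mul_le_mul_of_nonneg_right hL' hb0.le
        have e : 1000 * (L : ℝ) * b = 1000 * (L * b) := by ring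
        linarith
      exact_mod_cast this
    · right
      have : (S : ℝ) ≤ q := by
        have h4 : (10 : ℝ) * a ≤ L * a := mul_le_mul_of_nonneg_right hL' ha0.le
        have e : 1000 * (L : ℝ) * a = 1000 * (L * a) := by ring
        linarith
      exact_mod_cast this
  · exact_mod_cast bP ha1 hb1 hL' hK2 hR1 hS1
  · -- the condition on the linear form
    rw [ha, hb]
    have h8 : (8 : ℝ) ^ (K * L) ≤ Real.exp (208 / 100 * (K * L)) := by
      calc (8 : ℝ) ^ (K * L) ≤ Real.exp (208 / 100) ^ (K * L) :=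
            pow_le_pow_left₀ (by norm_num) eight_le _
        _ = _ := by
            rw [← Real.exp_nat_mul]
            congr 1
            push_cast
            ring
    have h9 : 2 * ((L : ℝ) + R) * L ≤ Real.exp (2 * ((L : ℝ) + R) * L) := by
      have := Real.add_one_le_exp (2 * ((L : ℝ) + R) * L)
      linarith
    have h10 : |(r : ℝ) * a - q * b| * (2 * ((L : ℝ) + R) * L) * 8 ^ (K * L) ≤
        Real.exp (-(1000 * (L : ℝ) ^ 2 * a * b)) * Real.exp (2 * ((L : ℝ) + R) * L) *
          Real.exp (208 / 100 * (K * L)) := by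
      apply mul_le_mul _ h8 (by positivity) (by positivity)
      exact mul_le_mul hcon.le h9 (by positivity) (Real.exp_pos _).le
    refine h10.trans ?_
    rw [← Real.exp_add, ← Real.exp_add, Real.exp_le_one_iff]
    exact bE ha1 hb1 hL' hK2 hR2
  · -- the numerical inequality
    have hU := bU ha1 hb1 hL' hq' hr' hK1 hR2 hS2 hb'
    have hV := bV ha1 hb1 hL' hK1 hR2 hS2
    have hbe : (q / a + r / b : ℝ) ≤ Real.exp (((L : ℝ) - 10) / 3) := by
      rw [← Real.log_le_iff_le_exp (by linarith)]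
      linarith
    exact numeric hL hKLn (by positivity) hU hbe hV

end Pool.Agent.Lib.MP_509488_nt.Unif
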