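import Pool.Agent.Lib.MP_509488_nt.Unif.Stmts

/-!
# Supply: pigeonhole over `k` for the primes `1 + r d k`
-/

namespace Pool.Agent.Lib.MP_509488_nt.Unif.M10

open Finset

theorem key {q l : ℕ} (h2 : 2 ≤ l) (h : l ≡ 1 [MOD q]) :
    1 + q * ((l - 1) / q) = l ∧ 1 ≤ (l - 1) / q := by
  have hd : q ∣ l - 1 := (Nat.modEq_iff_dvd' (by omega)).1 h.symm
  have h3 : q * ((l - 1) / q) = l - 1 := Nat.mul_div_cancel' hd
  constructor
  · omega
  · by_contra hc
    have h4 : (l - 1) / q = 0 := Nat.lt_one_iff.1 (not_le.1 hc)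
    rw [h4] at h3
    omega

theorem inner (q N : ℕ) (hq : 1 ≤ q) (S : Finset ℕ)
    (hS : ∀ l ∈ S, 2 ≤ l ∧ l ≡ 1 [MOD q] ∧ l ≤ N) :
    (q : ℝ) * ∑ l ∈ S, (1 : ℝ) / l ≤
      ∑ k ∈ (Icc 1 N).filter (fun k => 1 + q * k ∈ S), (1 : ℝ) / k := by
  have hinj : Set.InjOn (fun l : ℕ => (l - 1) / q) (S : Set ℕ) := by
    intro a ha b hb hab
    have h1 := key (hS a ha).1 (hS a ha).2.1
    have h2 := key (hS b hb).1 (hS b hb).2.1
    simp only at hab
    rw [← h1.1, ← h2.1, hab]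
  rw [mul_sum]
  calc ∑ l ∈ S, (q : ℝ) * ((1 : ℝ) / l) ≤ ∑ l ∈ S, (1 : ℝ) / (((l - 1) / q : ℕ) : ℝ) := by
        apply sum_le_sum
        intro l hl
        obtain ⟨h1, h2⟩ := key (hS l hl).1 (hS l hl).2.1
        have hl2 := (hS l hl).1
        have hq0 : (0 : ℝ) < q := by exact_mod_cast hq
        have hk0 : (0 : ℝ) < (((l - 1) / q : ℕ) : ℝ) := by exact_mod_cast h2
        have hl0 : (0 : ℝ) < l := by
          have : 0 < l := by omega
          exact_mod_cast this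
        rw [mul_one_div, div_le_div_iff₀ hl0 hk0, one_mul]
        have h3 : (q : ℝ) * (((l - 1) / q : ℕ) : ℝ) + 1 = l := by
          have := h1
          have h4 : q * ((l - 1) / q) + 1 = l := by omega
          exact_mod_cast h4
        linarith
    _ = ∑ k ∈ S.image (fun l => (l - 1) / q), (1 : ℝ) / k :=
        (sum_image (f := fun k : ℕ => (1 : ℝ) / k) hinj).symm
    _ ≤ _ := by
        apply sum_le_sum_of_subset_of_nonneg
        · intro k hk
          rw [mem_image] at hk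
          obtain ⟨l, hl, rfl⟩ := hk
          obtain ⟨h1, h2⟩ := key (hS l hl).1 (hS l hl).2.1
          rw [mem_filter, mem_Icc]
          refine ⟨⟨h2, ?_⟩, ?_⟩
          · calc (l - 1) / q ≤ l - 1 := Nat.div_le_self _ _
              _ ≤ l := Nat.sub_le _ _
              _ ≤ N := (hS l hl).2.2
          · rw [h1]; exact hl
        · intro k _ _
          positivity

/-- the `k` with a large share. -/
noncomputable def TT (r : ℕ) (D : Finset ℕ) (S : ℕ → Finset ℕ) (k : ℕ) : ℝ :=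
  ∑ d ∈ D.filter (fun d => 1 + r * d * k ∈ S d), (1 : ℝ) / d

theorem mass (r N : ℕ) (hr : 1 ≤ r) (D : Finset ℕ) (hD : ∀ d ∈ D, 1 ≤ d) (hne : D.Nonempty)
    (S : ℕ → Finset ℕ)
    (hS : ∀ d ∈ D, ∀ l ∈ S d, 2 ≤ l ∧ l ≡ 1 [MOD r * d] ∧ l ≤ N) (a H : ℝ) (hH0 : 0 < H)
    (ha : 0 < a) (hH : ∑ k ∈ Icc 1 N, (1 : ℝ) / k ≤ H)
    (hmass : ∀ d ∈ D, a ≤ ((r * d : ℕ) : ℝ) * ∑ l ∈ S d, (1 : ℝ) / l) :
    a / 2 ≤ ∑ k ∈ (Icc 1 N).filter
      (fun k => a * (∑ d ∈ D, (1 : ℝ) / d) / (2 * H) ≤ TT r D S k), (1 : ℝ) / k := by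
  classical
  set s : ℝ := ∑ d ∈ D, (1 : ℝ) / d with hs
  have hs0 : 0 < s := by
    apply sum_pos _ hne
    intro d hd
    have : (0 : ℝ) < d := by exact_mod_cast hD d hd
    positivity
  set τ : ℝ := a * s / (2 * H) with hτ
  have h1 : a * s ≤ ∑ k ∈ Icc 1 N, (1 : ℝ) / k * TT r D S k := by
    calc a * s = ∑ d ∈ D, (1 : ℝ) / d * a := by
          rw [hs, mul_comm, sum_mul]
      _ ≤ ∑ d ∈ D, (1 : ℝ) / d *
            ∑ k ∈ (Icc 1 N).filter (fun k => 1 + r * d * k ∈ S d), (1 : ℝ) / k := by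
          apply sum_le_sum
          intro d hd
          apply mul_le_mul_of_nonneg_left _ (by positivity)
          have hrd : 1 ≤ r * d := Nat.mul_pos hr (hD d hd)
          exact (hmass d hd).trans (inner (r * d) N hrd (S d) (hS d hd))
      _ = ∑ d ∈ D, ∑ k ∈ Icc 1 N, (if 1 + r * d * k ∈ S d then (1 : ℝ) / d * (1 / k) else 0) := by
          apply sum_congr rfl
          intro d _
          rw [mul_sum, sum_filter]
      _ = ∑ k ∈ Icc 1 N, ∑ d ∈ D, (if 1 + r * d * k ∈ S d then (1 : ℝ) / d * (1 / k) else 0) :=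
          sum_comm
      _ = ∑ k ∈ Icc 1 N, (1 : ℝ) / k * TT r D S k := by
          apply sum_congr rfl
          intro k _
          rw [TT, mul_sum, sum_filter]
          apply sum_congr rfl
          intro d _
          split_ifs <;> ring
  have hT : ∀ k, TT r D S k ≤ s := by
    intro k
    rw [TT, hs]
    exact sum_le_sum_of_subset_of_nonneg (filter_subset _ _) (fun d _ _ => by positivity)
  have h2 : ∑ k ∈ Icc 1 N, (1 : ℝ) / k * TT r D S k ≤
      s * ∑ k ∈ (Icc 1 N).filter (fun k => τ ≤ TT r D S k), (1 : ℝ) / k + τ * H := by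
    rw [← sum_filter_add_sum_filter_not (Icc 1 N) (fun k => τ ≤ TT r D S k)]
    apply add_le_add
    · rw [mul_sum]
      apply sum_le_sum
      intro k _
      rw [mul_comm]
      exact mul_le_mul_of_nonneg_right (hT k) (by positivity)
    · calc ∑ k ∈ (Icc 1 N).filter (fun k => ¬ τ ≤ TT r D S k), (1 : ℝ) / k * TT r D S k
          ≤ ∑ k ∈ (Icc 1 N).filter (fun k => ¬ τ ≤ TT r D S k), τ * ((1 : ℝ) / k) := by
            apply sum_le_sum
            intro k hk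
            rw [mem_filter, not_le] at hk
            rw [mul_comm]
            exact mul_le_mul_of_nonneg_right hk.2.le (by positivity)
        _ = τ * ∑ k ∈ (Icc 1 N).filter (fun k => ¬ τ ≤ TT r D S k), (1 : ℝ) / k := by
            rw [mul_sum]
        _ ≤ τ * ∑ k ∈ Icc 1 N, (1 : ℝ) / k := by
            apply mul_le_mul_of_nonneg_left _ (by positivity)
            exact sum_le_sum_of_subset_of_nonneg (filter_subset _ _) (fun d _ _ => by positivity)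
        _ ≤ τ * H := mul_le_mul_of_nonneg_left hH (by positivity)
  have h3 : τ * H = a * s / 2 := by
    rw [hτ]; field_simp
  have h4 : s * (a / 2) ≤ s * ∑ k ∈ (Icc 1 N).filter (fun k => τ ≤ TT r D S k), (1 : ℝ) / k := by
    rw [h3] at h2
    linarith [h1.trans h2]
  exact le_of_mul_le_mul_left h4 hs0

theorem multiples (K : Finset ℕ) (N n : ℕ) (hn : 1 ≤ n) (hK : K ⊆ Icc 1 N) :
    ∑ k ∈ K.filter (fun k => n ∣ k), (1 : ℝ) / k ≤ (∑ k ∈ Icc 1 N, (1 : ℝ) / k) / n := by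
  classical
  rw [sum_div]
  have hinj : Set.InjOn (fun m : ℕ => n * m) (Icc 1 N : Set ℕ) := by
    intro a _ b _ hab
    exact Nat.eq_of_mul_eq_mul_left hn hab
  calc ∑ k ∈ K.filter (fun k => n ∣ k), (1 : ℝ) / k
      ≤ ∑ k ∈ (Icc 1 N).image (fun m => n * m), (1 : ℝ) / k := by
        apply sum_le_sum_of_subset_of_nonneg
        · intro k hk
          rw [mem_filter] at hk
          obtain ⟨hk, m, rfl⟩ := hk
          have := hK hk
          rw [mem_Icc] at this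
          rw [mem_image]
          refine ⟨m, ?_, rfl⟩
          rw [mem_Icc]
          constructor
          · by_contra hc
            have : m = 0 := by omega
            subst this
            simp at this
          · calc m ≤ n * m := Nat.le_mul_of_pos_left _ hn
              _ ≤ N := this.2
        · intro k _ _
          positivity
    _ = ∑ m ∈ Icc 1 N, (1 : ℝ) / ((n * m : ℕ) : ℝ) := sum_image (by exact_mod_cast hinj)
    _ ≤ _ := by
        apply sum_le_sum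
        intro m _
        push_cast
        rw [div_div, mul_comm (n : ℝ)]

theorem tail (Y N : ℕ) (hY : 1 ≤ Y) :
    ∑ n ∈ Ioc Y N, (1 : ℝ) / ((n : ℝ) ^ 2) ≤ 1 / Y := by
  rcases le_or_gt N Y with h | h
  · rw [Ioc_eq_empty (by omega)]
    simp
  · have : ∀ M, Y ≤ M → ∑ n ∈ Ioc Y M, (1 : ℝ) / ((n : ℝ) ^ 2) ≤ 1 / Y - 1 / M := by
      intro M hM
      induction M, hM using Nat.le_induction with
      | base => simp
      | succ M hM ih =>
        rw [sum_Ioc_succ_top (by omega)]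
        have hM0 : (0 : ℝ) < M := by
          have : 0 < M := by omega
          exact_mod_cast this
        have : (1 : ℝ) / (((M + 1 : ℕ) : ℝ) ^ 2) ≤ 1 / M - 1 / ((M + 1 : ℕ) : ℝ) := by
          push_cast
          rw [div_sub_div _ _ hM0.ne' (by positivity), div_le_div_iff₀ (by positivity) (by positivity)]
          nlinarith
        linarith
    have h1 := this N h.le
    have : (0 : ℝ) ≤ 1 / N := by positivity
    linarith

theorem pair (K : Finset ℕ) (N Y : ℕ) (hY : 1 ≤ Y) (hK : K ⊆ Icc 1 N) (H b : ℝ)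
    (hH : ∑ k ∈ Icc 1 N, (1 : ℝ) / k ≤ H) (hb0 : 0 < b) (hb : b ≤ ∑ k ∈ K, (1 : ℝ) / k)
    (h : H ^ 2 < b ^ 2 * Y) :
    ∃ k ∈ K, ∃ k' ∈ K, ∀ p, p.Prime → Y < p → ¬ (p ∣ k ∧ p ∣ k') := by
  classical
  by_contra hc
  push Not at hc
  have hH0 : 0 ≤ H := le_trans (sum_nonneg fun _ _ => by positivity) hH
  have hY0 : (0 : ℝ) < Y := by exact_mod_cast hY
  have h1 : b ^ 2 ≤ H ^ 2 / Y := by
    calc b ^ 2 ≤ (∑ k ∈ K, (1 : ℝ) / k) ^ 2 := by gcongr
      _ = ∑ k ∈ K, ∑ k' ∈ K, (1 : ℝ) / k * (1 / k') := by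
          rw [sq, sum_mul_sum]
      _ ≤ ∑ k ∈ K, ∑ k' ∈ K, ∑ n ∈ (Ioc Y N).filter (fun n => n ∣ k ∧ n ∣ k'),
            (1 : ℝ) / k * (1 / k') := by
          apply sum_le_sum
          intro k hk
          apply sum_le_sum
          intro k' hk'
          obtain ⟨p, hp, hpY, hpk, hpk'⟩ := hc k hk k' hk'
          have hmem : p ∈ (Ioc Y N).filter (fun n => n ∣ k ∧ n ∣ k') := by
            rw [mem_filter, mem_Ioc]
            have := hK hk
            rw [mem_Icc] at this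
            exact ⟨⟨hpY, (Nat.le_of_dvd (by omega) hpk).trans this.2⟩, hpk, hpk'⟩
          exact single_le_sum (f := fun _ => (1 : ℝ) / k * (1 / k'))
            (fun _ _ => by positivity) hmem
      _ = ∑ k ∈ K, ∑ k' ∈ K, ∑ n ∈ Ioc Y N,
            (if n ∣ k ∧ n ∣ k' then (1 : ℝ) / k * (1 / k') else 0) := by
          apply sum_congr rfl
          intro k _
          apply sum_congr rfl
          intro k' _
          rw [sum_filter]
      _ = ∑ n ∈ Ioc Y N, ∑ k ∈ K, ∑ k' ∈ K,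
            (if n ∣ k ∧ n ∣ k' then (1 : ℝ) / k * (1 / k') else 0) := by
          rw [sum_congr rfl (fun k _ => sum_comm), sum_comm]
      _ = ∑ n ∈ Ioc Y N, (∑ k ∈ K.filter (fun k => n ∣ k), (1 : ℝ) / k) ^ 2 := by
          apply sum_congr rfl
          intro n _
          rw [sq, sum_mul_sum, sum_filter]
          apply sum_congr rfl
          intro k _
          split_ifs with h1
          · rw [sum_filter]
            apply sum_congr rfl
            intro k' _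
            simp [h1]
          · apply sum_eq_zero
            intro k' _
            simp [h1]
      _ ≤ ∑ n ∈ Ioc Y N, (H / n) ^ 2 := by
          apply sum_le_sum
          intro n hn
          rw [mem_Ioc] at hn
          have h2 := multiples K N n (by omega) hK
          have h3 : (∑ k ∈ Icc 1 N, (1 : ℝ) / k) / n ≤ H / n := by gcongr
          have h4 : 0 ≤ ∑ k ∈ K.filter (fun k => n ∣ k), (1 : ℝ) / k :=
            sum_nonneg fun _ _ => by positivity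
          exact pow_le_pow_left₀ h4 (h2.trans h3) 2
      _ = H ^ 2 * ∑ n ∈ Ioc Y N, (1 : ℝ) / ((n : ℝ) ^ 2) := by
          rw [mul_sum]
          apply sum_congr rfl
          intro n _
          rw [div_pow, mul_one_div]
      _ ≤ H ^ 2 * (1 / Y) := by
          apply mul_le_mul_of_nonneg_left (tail Y N hY) (by positivity)
      _ = H ^ 2 / Y := by rw [mul_one_div]
  rw [le_div_iff₀ hY0] at h1
  linarith


theorem harm_le (x H : ℝ) (hx : 0 ≤ x) (hH : 1 + x ≤ H) :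
    ∑ k ∈ Icc 1 ⌊Real.exp x⌋₊, (1 : ℝ) / k ≤ H := by
  have h1 := harmonic_le_one_add_log ⌊Real.exp x⌋₊
  have h2 : ((harmonic ⌊Real.exp x⌋₊ : ℚ) : ℝ) = ∑ k ∈ Icc 1 ⌊Real.exp x⌋₊, (1 : ℝ) / k := by
    rw [harmonic_eq_sum_Icc]
    push_cast
    apply sum_congr rfl
    intro k _
    rw [one_div]
  rw [← h2]
  have h3 : Real.log (⌊Real.exp x⌋₊ : ℝ) ≤ x := by
    have h4 : (1 : ℝ) ≤ Real.exp x := Real.one_le_exp hx
    have h5 : 1 ≤ ⌊Real.exp x⌋₊ := Nat.one_le_floor_iff _ |>.2 h4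
    have h6 : (⌊Real.exp x⌋₊ : ℝ) ≤ Real.exp x := Nat.floor_le (by positivity)
    calc Real.log (⌊Real.exp x⌋₊ : ℝ) ≤ Real.log (Real.exp x) :=
          Real.log_le_log (by exact_mod_cast h5) h6
      _ = x := Real.log_exp x
  linarith

theorem card_large (A B Λ r k : ℕ) (hΛ : 5 ≤ Λ) (D : Finset ℕ)
    (hD : ∀ d ∈ D, Λ ^ (B + A + 13) ≤ d) (hDs : 1 / (Λ : ℝ) ≤ ∑ d ∈ D, (1 : ℝ) / d)
    (S : ℕ → Finset ℕ)
    (hk : 1 / (Λ : ℝ) ^ (A + 8) * (∑ d ∈ D, (1 : ℝ) / d) / (2 * (Λ : ℝ) ^ 2) ≤ TT r D S k) :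
    Λ ^ B ≤ (D.filter (fun d => 1 + r * d * k ∈ S d)).card := by
  have hΛ0 : (0 : ℝ) < Λ := by
    have : 0 < Λ := by omega
    exact_mod_cast this
  have hΛ5 : (5 : ℝ) ≤ Λ := by exact_mod_cast hΛ
  have h1 : TT r D S k ≤ ((D.filter (fun d => 1 + r * d * k ∈ S d)).card : ℝ) /
      (Λ : ℝ) ^ (B + A + 13) := by
    rw [TT, div_eq_mul_one_div, ← nsmul_eq_mul]
    apply sum_le_card_nsmul
    intro d hd
    rw [mem_filter] at hd
    have h2 : ((Λ : ℝ) ^ (B + A + 13)) ≤ d := by exact_mod_cast hD d hd.1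
    exact one_div_le_one_div_of_le (by positivity) h2
  have h2 : 1 / (Λ : ℝ) ^ (A + 8) * (1 / (Λ : ℝ)) / (2 * (Λ : ℝ) ^ 2) ≤
      ((D.filter (fun d => 1 + r * d * k ∈ S d)).card : ℝ) / (Λ : ℝ) ^ (B + A + 13) := by
    refine le_trans ?_ (hk.trans h1)
    gcongr
  rw [le_div_iff₀ (by positivity)] at h2
  have h3 : (Λ : ℝ) ^ B ≤ 1 / (Λ : ℝ) ^ (A + 8) * (1 / (Λ : ℝ)) / (2 * (Λ : ℝ) ^ 2) *
      (Λ : ℝ) ^ (B + A + 13) := by
    have : 1 / (Λ : ℝ) ^ (A + 8) * (1 / (Λ : ℝ)) / (2 * (Λ : ℝ) ^ 2) *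
      (Λ : ℝ) ^ (B + A + 13) = (Λ : ℝ) ^ B * ((Λ : ℝ) ^ 2 / 2) := by
      field_simp
      ring
    rw [this]
    have h4 : (1 : ℝ) ≤ (Λ : ℝ) ^ 2 / 2 := by nlinarith
    have h5 : (0 : ℝ) < (Λ : ℝ) ^ B := by positivity
    nlinarith
  have h4 := h3.trans h2
  exact_mod_cast h4

theorem finish (A B Λ r : ℕ) (hr : r.Prime) (hrA : r ≤ Λ ^ A) (hΛ : 5 ≤ Λ)
    (hb1 : 1 + (Λ : ℝ) ^ (3 / 2 : ℝ) ≤ (Λ : ℝ) ^ 2)
    (hb2 : ((A : ℝ) + 2) * Λ + 2 * (Λ : ℝ) ^ (3 / 2 : ℝ) ≤ (Λ : ℝ) ^ 2)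
    (D : Finset ℕ) (hD : ∀ d ∈ D, Λ ^ (B + A + 13) ≤ d) (hDp : ∀ d ∈ D, d ∣ primorial Λ)
    (hDs : 1 / (Λ : ℝ) ≤ ∑ d ∈ D, (1 : ℝ) / d)
    (S : ℕ → Finset ℕ) (hS : ∀ d ∈ D, ∀ l ∈ S d, l.Prime ∧ l ≡ 1 [MOD r * d] ∧
      Real.exp (Real.sqrt Λ) ≤ l ∧ (l : ℝ) ≤ Real.exp ((Λ : ℝ) ^ (3 / 2 : ℝ)))
    (hmass : ∀ d ∈ D, 1 ≤ (Λ : ℝ) ^ (A + 6 + 2) * ((r * d : ℕ) : ℝ) * ∑ l ∈ S d, (1 : ℝ) / l) :
    ∃ (P Q : Finset ℕ) (L : ℕ), 1 ≤ L ∧ (L : ℝ) ≤ Real.exp ((Λ : ℝ) ^ 2) ∧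
    Λ ^ B ≤ P.card ∧ Λ ^ B ≤ Q.card ∧
    (∀ l ∈ P ∪ Q, l.Prime ∧ r ∣ l - 1 ∧ l - 1 ∣ L ∧ Real.exp (Real.sqrt Λ) ≤ l ∧
      (l : ℝ) ≤ Real.exp ((Λ : ℝ) ^ 2)) ∧
    ∀ p : ℕ, p.Prime → Λ ^ (2 * A + 23) < p →
      (∀ l ∈ P, ¬ p ∣ l - 1) ∨ (∀ l ∈ Q, ¬ p ∣ l - 1) := by
  classical
  have hΛ0 : (0 : ℝ) < Λ := by
    have : 0 < Λ := by omega
    exact_mod_cast this
  have hΛ5 : (5 : ℝ) ≤ Λ := by exact_mod_cast hΛ
  set x : ℝ := (Λ : ℝ) ^ (3 / 2 : ℝ) with hx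
  have hx0 : 0 ≤ x := by positivity
  set N : ℕ := ⌊Real.exp x⌋₊ with hN
  have hD1 : ∀ d ∈ D, 1 ≤ d := fun d hd => le_trans (Nat.one_le_pow _ _ (by omega)) (hD d hd)
  have hne : D.Nonempty := by
    rw [nonempty_iff_ne_empty]
    rintro rfl
    rw [sum_empty] at hDs
    have : 0 < 1 / (Λ : ℝ) := by positivity
    linarith
  have hharm := harm_le x ((Λ : ℝ) ^ 2) hx0 hb1
  rw [← hN] at hharm
  have hS' : ∀ d ∈ D, ∀ l ∈ S d, 2 ≤ l ∧ l ≡ 1 [MOD r * d] ∧ l ≤ N := by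
    intro d hd l hl
    obtain ⟨h1, h2, h3, h4⟩ := hS d hd l hl
    exact ⟨h1.two_le, h2, Nat.le_floor h4⟩
  have hm := mass r N hr.one_lt.le D hD1 hne S hS' (1 / (Λ : ℝ) ^ (A + 8)) ((Λ : ℝ) ^ 2)
    (by positivity) (by positivity) hharm (by
      intro d hd
      rw [div_le_iff₀ (by positivity)]
      have := hmass d hd
      calc (1 : ℝ) ≤ _ := this
        _ = _ := by ring)
  set K := (Icc 1 N).filter (fun k => 1 / (Λ : ℝ) ^ (A + 8) * (∑ d ∈ D, (1 : ℝ) / d) /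
    (2 * (Λ : ℝ) ^ 2) ≤ TT r D S k) with hK
  obtain ⟨k, hk, k', hk', hkk⟩ := pair K N (Λ ^ (2 * A + 23)) (Nat.one_le_pow _ _ (by omega))
    (filter_subset _ _) ((Λ : ℝ) ^ 2) (1 / (Λ : ℝ) ^ (A + 8) / 2) hharm (by positivity) hm (by
      push_cast
      have h1 : (1 / (Λ : ℝ) ^ (A + 8) / 2) ^ 2 * (Λ : ℝ) ^ (2 * A + 23) = (Λ : ℝ) ^ 7 / 4 := by
        field_simp
        ring
      rw [h1]
      have h2 : (Λ : ℝ) ^ 7 / 4 = (Λ : ℝ) ^ 4 * ((Λ : ℝ) ^ 3 / 4) := by ring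
      rw [h2, ← pow_mul]
      have h3 : (1 : ℝ) < (Λ : ℝ) ^ 3 / 4 := by
        have : (5 : ℝ) ^ 3 ≤ (Λ : ℝ) ^ 3 := by gcongr
        linarith
      have h4 : (0 : ℝ) < (Λ : ℝ) ^ 4 := by positivity
      nlinarith)
  have hkN : ∀ k ∈ K, 1 ≤ k ∧ (k : ℝ) ≤ Real.exp x := by
    intro k hk
    rw [hK, mem_filter, mem_Icc] at hk
    refine ⟨hk.1.1, ?_⟩
    calc (k : ℝ) ≤ N := by exact_mod_cast hk.1.2
      _ ≤ Real.exp x := Nat.floor_le (by positivity)
  have hcard : ∀ k ∈ K, Λ ^ B ≤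
      ((D.filter (fun d => 1 + r * d * k ∈ S d)).image (fun d => 1 + r * d * k)).card := by
    intro k hk
    rw [card_image_of_injOn]
    · rw [hK, mem_filter] at hk
      exact card_large A B Λ r k hΛ D hD hDs S hk.2
    · intro a _ b _ hab
      simp only at hab
      have h1 : r * k * a = r * k * b := by
        have : r * a * k = r * b * k := by omega
        calc r * k * a = r * a * k := by ring
          _ = r * b * k := this
          _ = r * k * b := by ring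
      exact Nat.eq_of_mul_eq_mul_left (Nat.mul_pos hr.pos (hkN k hk).1) h1
  refine ⟨(D.filter (fun d => 1 + r * d * k ∈ S d)).image (fun d => 1 + r * d * k),
    (D.filter (fun d => 1 + r * d * k' ∈ S d)).image (fun d => 1 + r * d * k'),
    r * k * k' * primorial Λ, ?_, ?_, hcard k hk, hcard k' hk', ?_, ?_⟩
  · exact Nat.mul_pos (Nat.mul_pos (Nat.mul_pos hr.pos (hkN k hk).1) (hkN k' hk').1)
      (primorial_pos Λ)
  · have h1 : (r : ℝ) ≤ Real.exp (A * Λ) := by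
      calc (r : ℝ) ≤ (Λ : ℝ) ^ A := by exact_mod_cast hrA
        _ ≤ (Real.exp Λ) ^ A := by
            gcongr
            linarith [Real.add_one_le_exp (Λ : ℝ)]
        _ = Real.exp (A * Λ) := by rw [← Real.exp_nat_mul]
    have h2 : (primorial Λ : ℝ) ≤ Real.exp (2 * Λ) := by
      calc (primorial Λ : ℝ) ≤ (4 : ℝ) ^ Λ := by exact_mod_cast primorial_le_four_pow Λ
        _ ≤ (Real.exp 2) ^ Λ := by
            gcongr
            have h3 := Real.add_one_le_exp (1 : ℝ)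
            have h4 : Real.exp 2 = Real.exp 1 * Real.exp 1 := by
              rw [← Real.exp_add]; norm_num
            rw [h4]
            nlinarith
        _ = Real.exp (2 * Λ) := by rw [← Real.exp_nat_mul, mul_comm]
    push_cast
    calc (r : ℝ) * k * k' * (primorial Λ : ℝ)
        ≤ Real.exp (A * Λ) * Real.exp x * Real.exp x * Real.exp (2 * Λ) := by
          gcongr
          · exact (hkN k hk).2
          · exact (hkN k' hk').2
      _ = Real.exp (A * Λ + x + x + 2 * Λ) := by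
          rw [Real.exp_add, Real.exp_add, Real.exp_add]
      _ ≤ Real.exp ((Λ : ℝ) ^ 2) := by
          apply Real.exp_le_exp.2
          linarith
  · intro l hl
    rw [mem_union, mem_image, mem_image] at hl
    have hbig : Real.exp x ≤ Real.exp ((Λ : ℝ) ^ 2) := Real.exp_le_exp.2 (by linarith)
    rcases hl with ⟨d, hd, rfl⟩ | ⟨d, hd, rfl⟩
    · rw [mem_filter] at hd
      obtain ⟨h1, h2, h3, h4⟩ := hS d hd.1 _ hd.2
      refine ⟨h1, ?_, ?_, h3, h4.trans hbig⟩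
      · rw [Nat.add_sub_cancel_left]
        exact ⟨d * k, by ring⟩
      · rw [Nat.add_sub_cancel_left]
        obtain ⟨e, he⟩ := hDp d hd.1
        rw [he]
        exact ⟨k' * e, by ring⟩
    · rw [mem_filter] at hd
      obtain ⟨h1, h2, h3, h4⟩ := hS d hd.1 _ hd.2
      refine ⟨h1, ?_, ?_, h3, h4.trans hbig⟩
      · rw [Nat.add_sub_cancel_left]
        exact ⟨d * k', by ring⟩
      · rw [Nat.add_sub_cancel_left]
        obtain ⟨e, he⟩ := hDp d hd.1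
        rw [he]
        exact ⟨k * e, by ring⟩
  · intro p hp hpC
    have hpr : ¬ p ∣ r := by
      intro h
      have h1 := Nat.le_of_dvd hr.pos h
      have h2 : Λ ^ A ≤ Λ ^ (2 * A + 23) := Nat.pow_le_pow_right (by omega) (by omega)
      omega
    have hpd : ∀ d ∈ D, ¬ p ∣ d := by
      intro d hd h
      have h1 : p ∈ Nat.primeFactors (primorial Λ) :=
        Nat.mem_primeFactors.2 ⟨hp, h.trans (hDp d hd), primorial_ne_zero Λ⟩
      rw [primeFactors_primorial] at h1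
      have h2 : p ≤ Λ := by
        have := Nat.mem_primesLE.1 h1
        exact this.1
      have h3 : Λ ^ 1 ≤ Λ ^ (2 * A + 23) := Nat.pow_le_pow_right (by omega) (by omega)
      rw [pow_one] at h3
      omega
    have key : ∀ k, ¬ p ∣ k → ∀ l ∈ (D.filter (fun d => 1 + r * d * k ∈ S d)).image
        (fun d => 1 + r * d * k), ¬ p ∣ l - 1 := by
      intro k hpk l hl h
      rw [mem_image] at hl
      obtain ⟨d, hd, rfl⟩ := hl
      rw [mem_filter] at hd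
      rw [Nat.add_sub_cancel_left] at h
      rcases (hp.dvd_mul).1 h with h1 | h1
      · rcases (hp.dvd_mul).1 h1 with h2 | h2
        · exact hpr h2
        · exact hpd d hd.1 h2
      · exact hpk h1
    by_cases h1 : p ∣ k
    · right
      exact key k' (fun h2 => hkk p hp hpC ⟨h1, h2⟩)
    · left
      exact key k h1


theorem pi_large (v : ℕ) (hv : 2 ≤ v) : ∀ᶠ Λ : ℕ in Filter.atTop,
    2 * (v : ℝ) * (Λ : ℝ) ^ (1 - 1 / (v : ℝ)) + 2 * v + 3 + Real.sqrt Λ ≤ Nat.primeCounting Λ := by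
  have hv0 : (0 : ℝ) < v := by
    have : 0 < v := by omega
    exact_mod_cast this
  have hv2 : (2 : ℝ) ≤ v := by exact_mod_cast hv
  have hu : (0 : ℝ) < 1 / (2 * v) := by positivity
  have e1 : ∀ᶠ x : ℝ in Filter.atTop, Real.log x ≤ x ^ (1 / (2 * (v : ℝ))) := by
    have h := (isLittleO_log_rpow_atTop hu).bound (c := 1) one_pos
    filter_upwards [h, Filter.eventually_ge_atTop (0 : ℝ)] with x hx hx0
    rw [Real.norm_eq_abs, Real.norm_of_nonneg (Real.rpow_nonneg hx0 _), one_mul] at hx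
    exact (le_abs_self _).trans hx
  have e2 : ∀ᶠ x : ℝ in Filter.atTop, Real.log (x + 1) ≤ x / 10 := by
    have h := (isLittleO_log_rpow_atTop one_pos).bound (c := 1 / 20) (by norm_num)
    have h' := (Filter.tendsto_atTop_add_const_right Filter.atTop (1 : ℝ)
      Filter.tendsto_id).eventually h
    filter_upwards [h', Filter.eventually_ge_atTop (1 : ℝ)] with x hx hx1
    simp only [id, Real.rpow_one] at hx
    rw [Real.norm_eq_abs, Real.norm_of_nonneg (by linarith)] at hx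
    have := (le_abs_self _).trans hx
    linarith
  have e3 : ∀ᶠ x : ℝ in Filter.atTop, 8 * (v : ℝ) + 8 ≤ x ^ (1 / (2 * (v : ℝ))) :=
    (tendsto_rpow_atTop hu).eventually_ge_atTop _
  have e := ((e1.and e2).and e3).and (Filter.eventually_ge_atTop (3 : ℝ))
  filter_upwards [tendsto_natCast_atTop_atTop.eventually e] with Λ hΛ
  obtain ⟨⟨⟨h1, h2⟩, h3⟩, h4⟩ := hΛ
  set x : ℝ := (Λ : ℝ) with hx
  have hx0 : 0 < x := by linarith
  have hx1 : 1 ≤ x := by linarith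
  set u : ℝ := x ^ (1 / (2 * (v : ℝ))) with hu'
  set y : ℝ := x ^ (1 - 1 / (v : ℝ)) with hy
  have hu0 : 0 < u := by positivity
  have hpi := Chebyshev.pi_ge Λ
  rw [← hx] at hpi
  have hlog : 0 < Real.log x := Real.log_pos (by linarith)
  have h5 : (1 / 2 : ℝ) * (y * u) ≤ (x * Real.log 2 - Real.log (x + 1)) / Real.log x := by
    rw [le_div_iff₀ hlog]
    have h6 : y * u * u = x := by
      rw [hy, hu', ← Real.rpow_add hx0, ← Real.rpow_add hx0]
      have : 1 - 1 / (v : ℝ) + 1 / (2 * (v : ℝ)) + 1 / (2 * (v : ℝ)) = 1 := by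
        field_simp
        ring
      rw [this, Real.rpow_one]
    have hy0 : 0 ≤ y * u := by positivity
    have h7 : (1 / 2 : ℝ) * (y * u) * Real.log x ≤ (1 / 2 : ℝ) * (y * u) * u := by
      gcongr
    have h8 : (0.6931471803 : ℝ) < Real.log 2 := Real.log_two_gt_d9
    nlinarith
  have hy1 : 1 ≤ y := by
    apply Real.one_le_rpow hx1
    rw [sub_nonneg, div_le_one hv0]
    linarith
  have hsq : Real.sqrt x ≤ y := by
    rw [Real.sqrt_eq_rpow]
    apply Real.rpow_le_rpow_of_exponent_le hx1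
    have : 1 / (v : ℝ) ≤ 1 / 2 := one_div_le_one_div_of_le (by norm_num) hv2
    linarith
  have h9 : (4 * (v : ℝ) + 4) * y ≤ (1 / 2 : ℝ) * (y * u) := by nlinarith
  have h10 := h9.trans (h5.trans hpi)
  nlinarith

theorem primes_sets (v : ℕ) (hv : 2 ≤ v) : ∀ᶠ Λ : ℕ in Filter.atTop, ∀ r : ℕ,
    ∃ P₁ P₂ : Finset ℕ, Disjoint P₁ P₂ ∧
      (∀ p ∈ P₁ ∪ P₂, p.Prime ∧ p ≤ Λ ∧ Λ ≤ p * p ∧ p ≠ r) ∧
      Λ ^ (v - 1) ≤ P₁.card.choose v ∧ Λ ^ (v - 1) ≤ P₂.card.choose v := by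
  classical
  filter_upwards [pi_large v hv, Filter.eventually_ge_atTop 1] with Λ hΛ hΛ1
  intro r
  set y : ℝ := (Λ : ℝ) ^ (1 - 1 / (v : ℝ)) with hy
  have hv0 : (0 : ℝ) < v := by
    have : 0 < v := by omega
    exact_mod_cast this
  have hΛ0 : (0 : ℝ) < Λ := by exact_mod_cast hΛ1
  have hy0 : 0 < y := by positivity
  set n : ℕ := ⌈(v : ℝ) * y⌉₊ + v with hn
  set R : Finset ℕ := (Icc 1 Λ).filter (fun p => p.Prime ∧ Λ ≤ p * p ∧ p ≠ r) with hR
  have hcard : Nat.primeCounting Λ ≤ R.card + Nat.sqrt Λ + 1 := by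
    have h1 : Nat.primeCounting Λ = ((range (Λ + 1)).filter Nat.Prime).card := by
      rw [Nat.primeCounting, Nat.primeCounting', Nat.count_eq_card_filter_range]
    have h2 : (range (Λ + 1)).filter Nat.Prime ⊆ (R ∪ Icc 1 (Nat.sqrt Λ)) ∪ {r} := by
      intro p hp
      rw [mem_filter, mem_range] at hp
      rw [mem_union, mem_union, mem_singleton, mem_Icc, hR, mem_filter, mem_Icc]
      by_cases h3 : p = r
      · right; exact h3
      · left
        have h4 := hp.2.one_lt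
        by_cases h5 : Λ ≤ p * p
        · left
          exact ⟨⟨by omega, by omega⟩, hp.2, h5, h3⟩
        · right
          exact ⟨by omega, Nat.le_sqrt.2 (by omega)⟩
    rw [h1]
    refine (card_le_card h2).trans ((card_union_le _ _).trans ?_)
    rw [card_singleton]
    have := card_union_le R (Icc 1 (Nat.sqrt Λ))
    rw [Nat.card_Icc] at this
    omega
  have h2n : 2 * n ≤ R.card := by
    have h1 : ((2 * n : ℕ) : ℝ) ≤ (R.card : ℝ) + 0 := by
      have h3 : ((Nat.primeCounting Λ : ℕ) : ℝ) ≤ (R.card : ℝ) + Nat.sqrt Λ + 1 := by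
        exact_mod_cast hcard
      have h4 : ((Nat.sqrt Λ : ℕ) : ℝ) ≤ Real.sqrt Λ := Real.nat_sqrt_le_real_sqrt
      have h5 : ((n : ℕ) : ℝ) ≤ v * y + 1 + v := by
        rw [hn]
        push_cast
        have := (Nat.ceil_lt_add_one (show 0 ≤ (v : ℝ) * y by positivity)).le
        linarith
      push_cast
      linarith
    rw [add_zero] at h1
    exact_mod_cast h1
  have hch : Λ ^ (v - 1) ≤ n.choose v := by
    have h1 := Nat.pow_le_choose (α := ℝ) v n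
    have h2 : (v : ℝ) * y ≤ ((n + 1 - v : ℕ) : ℝ) := by
      have h3 : n + 1 - v = ⌈(v : ℝ) * y⌉₊ + 1 := by omega
      rw [h3]
      push_cast
      have := Nat.le_ceil ((v : ℝ) * y)
      linarith
    have h3 : ((Λ ^ (v - 1) : ℕ) : ℝ) ≤ ((n.choose v : ℕ) : ℝ) := by
      refine le_trans ?_ h1
      rw [le_div_iff₀ (by positivity)]
      calc ((Λ ^ (v - 1) : ℕ) : ℝ) * (v.factorial : ℝ) ≤ ((Λ : ℝ) ^ (v - 1)) * (v : ℝ) ^ v := by
            push_cast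
            gcongr
            exact_mod_cast Nat.factorial_le_pow v
        _ = ((v : ℝ) * y) ^ v := by
            have h4 : y ^ v = (Λ : ℝ) ^ (v - 1) := by
              rw [hy, ← Real.rpow_natCast, ← Real.rpow_mul hΛ0.le, ← Real.rpow_natCast]
              congr 1
              rw [Nat.cast_sub (by omega)]
              field_simp
              push_cast
              ring
            rw [mul_pow, h4]
            ring
        _ ≤ ((n + 1 - v : ℕ) : ℝ) ^ v := by gcongr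
    exact_mod_cast h3
  obtain ⟨P₁, hP₁, hc₁⟩ := exists_subset_card_eq (show n ≤ R.card by omega)
  have h3 : n ≤ (R \ P₁).card := by
    rw [card_sdiff_of_subset hP₁]
    omega
  obtain ⟨P₂, hP₂, hc₂⟩ := exists_subset_card_eq h3
  refine ⟨P₁, P₂, ?_, ?_, by rw [hc₁]; exact hch, by rw [hc₂]; exact hch⟩
  · rw [disjoint_left]
    intro p hp hp2
    have := hP₂ hp2
    rw [mem_sdiff] at this
    exact this.2 hp
  · intro p hp
    have hpR : p ∈ R := by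
      rw [mem_union] at hp
      rcases hp with hp | hp
      · exact hP₁ hp
      · have := hP₂ hp
        rw [mem_sdiff] at this
        exact this.1
    rw [hR, mem_filter, mem_Icc] at hpR
    exact ⟨hpR.2.1, hpR.1.2, hpR.2.2.1, hpR.2.2.2⟩

/-- the products of `v` distinct elements. -/
def DD (P : Finset ℕ) (v : ℕ) : Finset ℕ := (P.powersetCard v).image (fun s => ∏ p ∈ s, p)

theorem DD_props (P : Finset ℕ) (Λ r w : ℕ) (hr : r.Prime)
    (hΛ : 1 ≤ Λ)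
    (hP : ∀ p ∈ P, p.Prime ∧ p ≤ Λ ∧ Λ ≤ p * p ∧ p ≠ r) (hw : 1 ≤ w)
    (hc : Λ ^ (2 * w - 1) ≤ P.card.choose (2 * w)) :
    (∀ d ∈ DD P (2 * w), Λ ^ w ≤ d ∧ d ≤ Λ ^ (2 * w) ∧ d ∣ primorial Λ ∧ Nat.Coprime d r) ∧
    1 / (Λ : ℝ) ≤ ∑ d ∈ DD P (2 * w), (1 : ℝ) / d := by
  classical
  have h1 : ∀ d ∈ DD P (2 * w),
      Λ ^ w ≤ d ∧ d ≤ Λ ^ (2 * w) ∧ d ∣ primorial Λ ∧ Nat.Coprime d r := by
    intro d hd
    rw [DD, mem_image] at hd
    obtain ⟨s, hs, rfl⟩ := hd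
    rw [mem_powersetCard] at hs
    refine ⟨?_, ?_, ?_, ?_⟩
    · have h2 : (Λ ^ w) ^ 2 ≤ (∏ p ∈ s, p) ^ 2 := by
        calc (Λ ^ w) ^ 2 = ∏ _p ∈ s, Λ := by
              rw [prod_const, hs.2, ← pow_mul, mul_comm]
          _ ≤ ∏ p ∈ s, p * p := by
              apply prod_le_prod'
              intro p hp
              exact (hP p (hs.1 hp)).2.2.1
          _ = (∏ p ∈ s, p) ^ 2 := by rw [prod_mul_distrib, sq]
      exact (Nat.pow_le_pow_iff_left (by norm_num)).1 h2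
    · calc ∏ p ∈ s, p ≤ ∏ _p ∈ s, Λ := prod_le_prod' fun p hp => (hP p (hs.1 hp)).2.1
        _ = Λ ^ (2 * w) := by rw [prod_const, hs.2]
    · rw [primorial]
      apply prod_dvd_prod_of_subset
      intro p hp
      rw [mem_filter, mem_range]
      have := hP p (hs.1 hp)
      exact ⟨by omega, this.1⟩
    · apply Nat.Coprime.prod_left
      intro p hp
      have := hP p (hs.1 hp)
      exact (Nat.coprime_primes this.1 hr).2 this.2.2.2
  refine ⟨h1, ?_⟩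
  have hcard : (DD P (2 * w)).card = P.card.choose (2 * w) := by
    rw [DD, card_image_of_injOn, card_powersetCard]
    intro s hs t ht hst
    rw [mem_coe, mem_powersetCard] at hs ht
    simp only at hst
    have h2 := Nat.primeFactors_prod (s := s) (fun p hp => (hP p (hs.1 hp)).1)
    have h3 := Nat.primeFactors_prod (s := t) (fun p hp => (hP p (ht.1 hp)).1)
    rw [← h2, ← h3, hst]
  have hΛ0 : (0 : ℝ) < Λ := by exact_mod_cast hΛ
  calc 1 / (Λ : ℝ) = (Λ : ℝ) ^ (2 * w - 1) * (1 / (Λ : ℝ) ^ (2 * w)) := by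
        have : (Λ : ℝ) ^ (2 * w) = (Λ : ℝ) ^ (2 * w - 1) * Λ := by
          rw [← pow_succ]
          congr 1
          omega
        rw [this]
        field_simp
    _ ≤ ((DD P (2 * w)).card : ℝ) * (1 / (Λ : ℝ) ^ (2 * w)) := by
        gcongr
        rw [hcard]
        exact_mod_cast hc
    _ = (DD P (2 * w)).card • (1 / (Λ : ℝ) ^ (2 * w)) := by rw [nsmul_eq_mul]
    _ ≤ ∑ d ∈ DD P (2 * w), (1 : ℝ) / d := by
        apply card_nsmul_le_sum
        intro d hd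
        obtain ⟨h2, h3, _, _⟩ := h1 d hd
        have h4 : 0 < d := lt_of_lt_of_le (Nat.pow_pos (by omega)) h2
        have h5 : (0 : ℝ) < d := by exact_mod_cast h4
        exact one_div_le_one_div_of_le h5 (by exact_mod_cast h3)

theorem DD_coprime (P₁ P₂ : Finset ℕ) (v : ℕ) (hd : Disjoint P₁ P₂)
    (hP : ∀ p ∈ P₁ ∪ P₂, p.Prime) : ∀ d ∈ DD P₁ v, ∀ e ∈ DD P₂ v, Nat.Coprime d e := by
  classical
  intro d hd1 e he
  rw [DD, mem_image] at hd1 he
  obtain ⟨s, hs, rfl⟩ := hd1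
  obtain ⟨t, ht, rfl⟩ := he
  rw [mem_powersetCard] at hs ht
  apply Nat.Coprime.prod_left
  intro p hp
  apply Nat.Coprime.prod_right
  intro q hq
  rw [Nat.coprime_primes (hP p (mem_union_left _ (hs.1 hp))) (hP q (mem_union_right _ (ht.1 hq)))]
  rintro rfl
  exact disjoint_left.1 hd (hs.1 hp) (ht.1 hq)

theorem asym (A : ℕ) (Λ : ℕ) (h : (A + 4) ^ 2 ≤ Λ) :
    1 + (Λ : ℝ) ^ (3 / 2 : ℝ) ≤ (Λ : ℝ) ^ 2 ∧
    ((A : ℝ) + 2) * Λ + 2 * (Λ : ℝ) ^ (3 / 2 : ℝ) ≤ (Λ : ℝ) ^ 2 := by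
  have hΛ : ((A : ℝ) + 4) ^ 2 ≤ Λ := by exact_mod_cast h
  have hA : (0 : ℝ) ≤ A := by positivity
  have hΛ0 : (0 : ℝ) < Λ := by nlinarith
  set s := Real.sqrt Λ with hs
  have h1 : s * s = Λ := Real.mul_self_sqrt hΛ0.le
  have h2 : (A : ℝ) + 4 ≤ s := Real.le_sqrt_of_sq_le hΛ
  have h3 : (Λ : ℝ) ^ (3 / 2 : ℝ) = Λ * s := by
    rw [hs, Real.sqrt_eq_rpow, show (3 / 2 : ℝ) = 1 + 1 / 2 by norm_num, Real.rpow_add hΛ0,
      Real.rpow_one]
  rw [h3, ← h1]
  constructor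
  · have h4 : 4 ≤ s := by linarith
    have h5 : s * s * s * 4 ≤ s * s * s * s := by
      apply mul_le_mul_of_nonneg_left h4 (by positivity)
    have h6 : (1 : ℝ) ≤ s * s * s := by
      have : (1 : ℝ) ≤ s * s := by nlinarith
      nlinarith
    nlinarith
  · have h7 : (A : ℝ) + 2 + 2 * s ≤ s * s := by nlinarith
    have h8 : 0 ≤ s * s := by positivity
    nlinarith [mul_le_mul_of_nonneg_left h7 h8]

theorem supply (h8 : S8) (h9 : S9) : Supply := by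
  classical
  intro A B
  set w : ℕ := B + A + 13 with hw
  obtain ⟨J, Λ₁, hΛ₁, H8⟩ := h8 A (2 * w) (2 * ((A + 6) + (A + 2 * w)) + 10)
  have h9' : ∀ j : ℕ, ∃ Λ₀ : ℝ, 2 * ((A + 6) + (A + 2 * w)) + 10 ≤ j → ∀ Λ : ℝ, Λ₀ ≤ Λ →
      ∀ q : ℕ, 1 ≤ q → (q : ℝ) ≤ Λ ^ (A + 2 * w) →
      Λ ^ j ≤ Λ ^ (A + 6) * q * AP q j (1 / Λ) →
      ∃ S : Finset ℕ, (∀ l ∈ S, l.Prime ∧ l ≡ 1 [MOD q] ∧ Real.exp (Real.sqrt Λ) ≤ l ∧
        (l : ℝ) ≤ Real.exp (Λ ^ (3 / 2 : ℝ))) ∧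
        1 ≤ Λ ^ (A + 6 + 2) * q * ∑ l ∈ S, (1 : ℝ) / l := by
    intro j
    by_cases hj : 2 * ((A + 6) + (A + 2 * w)) + 10 ≤ j
    · obtain ⟨Λ₀, _, H⟩ := h9 (A + 6) (A + 2 * w) j hj
      exact ⟨Λ₀, fun _ => H⟩
    · exact ⟨0, fun h => absurd h hj⟩
  choose g hg using h9'
  have e1 : ∀ᶠ Λ : ℕ in Filter.atTop, Λ₁ ≤ (Λ : ℝ) :=
    tendsto_natCast_atTop_atTop.eventually_ge_atTop Λ₁
  have e2 : ∀ᶠ Λ : ℕ in Filter.atTop, ∀ j ∈ range (J + 1), g j ≤ (Λ : ℝ) := by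
    rw [Filter.eventually_all_finset]
    intro j _
    exact tendsto_natCast_atTop_atTop.eventually_ge_atTop (g j)
  have e := ((e1.and e2).and (primes_sets (2 * w) (by omega))).and
    ((Filter.eventually_ge_atTop 5).and (Filter.eventually_ge_atTop ((A + 4) ^ 2)))
  obtain ⟨Λ₀, hΛ₀⟩ := Filter.eventually_atTop.1 e
  refine ⟨2 * A + 23, max Λ₀ 1, le_max_right _ _, ?_⟩
  intro Λ hΛ r hr hrA
  obtain ⟨⟨⟨f1, f2⟩, f3⟩, f4, f5⟩ := hΛ₀ Λ ((le_max_left _ _).trans hΛ)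
  obtain ⟨P₁, P₂, hdis, hP, hc₁, hc₂⟩ := f3 r
  obtain ⟨b1, b2⟩ := asym A Λ f5
  obtain ⟨p1, s1⟩ := DD_props P₁ Λ r w hr (by omega) (fun p hp => hP p (mem_union_left _ hp))
    (by omega) hc₁
  obtain ⟨p2, s2⟩ := DD_props P₂ Λ r w hr (by omega) (fun p hp => hP p (mem_union_right _ hp))
    (by omega) hc₂
  have hcop := DD_coprime P₁ P₂ (2 * w) hdis (fun p hp => (hP p hp).1)
  have hΛ1 : 1 ≤ Λ := by omega
  have aux : ∀ P : Finset ℕ, (∀ d ∈ DD P (2 * w), Λ ^ w ≤ d ∧ d ≤ Λ ^ (2 * w) ∧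
      d ∣ primorial Λ ∧ Nat.Coprime d r) →
      ∀ d ∈ DD P (2 * w), 1 ≤ d ∧ (d : ℝ) ≤ (Λ : ℝ) ^ (2 * w) ∧ Nat.Coprime d r := by
    intro P hP d hd
    obtain ⟨h1, h2, _, h4⟩ := hP d hd
    exact ⟨le_trans (Nat.one_le_pow _ _ (by omega)) h1, by exact_mod_cast h2, h4⟩
  obtain ⟨j, hj1, hj2, hj⟩ := H8 Λ f1 r hr (by exact_mod_cast hrA) (DD P₁ (2 * w))
    (DD P₂ (2 * w)) (aux P₁ p1) (aux P₂ p2) hcop
  have final : ∀ P : Finset ℕ, (∀ d ∈ DD P (2 * w), Λ ^ w ≤ d ∧ d ≤ Λ ^ (2 * w) ∧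
      d ∣ primorial Λ ∧ Nat.Coprime d r) →
      1 / (Λ : ℝ) ≤ ∑ d ∈ DD P (2 * w), (1 : ℝ) / d →
      (∀ d ∈ DD P (2 * w), (Λ : ℝ) ^ j ≤ (Λ : ℝ) ^ (A + 6) * ((r * d : ℕ) : ℝ) *
        AP (r * d) j (1 / Λ)) →
      ∃ (P Q : Finset ℕ) (L : ℕ), 1 ≤ L ∧ (L : ℝ) ≤ Real.exp ((Λ : ℝ) ^ 2) ∧
      Λ ^ B ≤ P.card ∧ Λ ^ B ≤ Q.card ∧
      (∀ l ∈ P ∪ Q, l.Prime ∧ r ∣ l - 1 ∧ l - 1 ∣ L ∧ Real.exp (Real.sqrt Λ) ≤ l ∧
        (l : ℝ) ≤ Real.exp ((Λ : ℝ) ^ 2)) ∧
      ∀ p : ℕ, p.Prime → Λ ^ (2 * A + 23) < p →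
        (∀ l ∈ P, ¬ p ∣ l - 1) ∨ (∀ l ∈ Q, ¬ p ∣ l - 1) := by
    intro P hP hs hAP
    have hex : ∀ d : ℕ, ∃ S : Finset ℕ, d ∈ DD P (2 * w) →
        (∀ l ∈ S, l.Prime ∧ l ≡ 1 [MOD r * d] ∧ Real.exp (Real.sqrt Λ) ≤ l ∧
        (l : ℝ) ≤ Real.exp ((Λ : ℝ) ^ (3 / 2 : ℝ))) ∧
        1 ≤ (Λ : ℝ) ^ (A + 6 + 2) * ((r * d : ℕ) : ℝ) * ∑ l ∈ S, (1 : ℝ) / l := by
      intro d
      by_cases hd : d ∈ DD P (2 * w)
      · have h1 := aux P hP d hd
        obtain ⟨S, hS⟩ := hg j hj1 Λ (f2 j (mem_range.2 (by omega))) (r * d)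
          (Nat.mul_pos hr.pos h1.1) (by
            push_cast
            rw [pow_add]
            gcongr
            · exact_mod_cast hrA
            · exact h1.2.1) (hAP d hd)
        exact ⟨S, fun _ => hS⟩
      · exact ⟨∅, fun h => absurd h hd⟩
    choose S hS using hex
    exact finish A B Λ r hr hrA f4 b1 b2 (DD P (2 * w)) (fun d hd => (hP d hd).1)
      (fun d hd => (hP d hd).2.2.1) hs S (fun d hd => (hS d hd).1) (fun d hd => (hS d hd).2)
  rcases hj with hj | hj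
  · exact final P₁ p1 s1 hj
  · exact final P₂ p2 s2 hj

end Pool.Agent.Lib.MP_509488_nt.Unif.M10

namespace Pool.Agent.Lib.MP_509488_nt.Unif

/-- M10. -/
theorem supply (h8 : S8) (h9 : S9) : Supply := M10.supply h8 h9

end Pool.Agent.Lib.MP_509488_nt.Unif
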