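import Pool.Agent.Lib.MP_509488_nt.Unif.Stmts

/-!
# M2: `Σ (log n)^j n^(-1-δ) = j!/δ^(j+1) + O_j(1)` (S2)

Comparison of each term with the increment of an explicit antiderivative; elementary.
-/

namespace Pool.Agent.Lib.MP_509488_nt.Unif

open Filter Topology Finset

/-- The term `(log u)^j u^(-1-δ)`. -/
noncomputable def ff (j : ℕ) (δ u : ℝ) : ℝ := Real.log u ^ j * u ^ (-1 - δ)

/-- Antiderivative of `ff j δ`. -/
noncomputable def FF : ℕ → ℝ → ℝ → ℝ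
  | 0, δ, u => -(u ^ (-δ)) / δ
  | (j + 1), δ, u => -(Real.log u ^ (j + 1) * u ^ (-δ)) / δ + ((j : ℝ) + 1) / δ * FF j δ u

lemma FF_one (j : ℕ) (δ : ℝ) (hδ : δ ≠ 0) : FF j δ 1 = -((j.factorial : ℝ) / δ ^ (j + 1)) := by
  induction j with
  | zero => simp [FF]; ring
  | succ j ih =>
    simp only [FF, ih, Real.log_one]
    rw [Nat.factorial_succ]
    push_cast
    field_simp
    ring

lemma hasDerivAt_FF (j : ℕ) (δ : ℝ) (hδ : δ ≠ 0) (u : ℝ) (hu : 0 < u) :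
    HasDerivAt (FF j δ) (ff j δ u) u := by
  have h0 : HasDerivAt (fun u : ℝ => u ^ (-δ)) (-δ * u ^ (-δ - 1)) u :=
    Real.hasDerivAt_rpow_const (Or.inl hu.ne')
  have hexp : u ^ (-δ) / u = u ^ (-1 - δ) := by
    rw [← Real.rpow_sub_one hu.ne']
    congr 1; ring
  have hexp2 : u ^ (-δ - 1) = u ^ (-1 - δ) := by congr 1; ring
  induction j with
  | zero =>
    have h1 := (h0.neg).div_const δ
    have : ff 0 δ u = -(-δ * u ^ (-δ - 1)) / δ := by
      simp only [ff, pow_zero, one_mul]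
      rw [hexp2]
      field_simp
    rw [this]
    exact h1
  | succ j ih =>
    have hl : HasDerivAt (fun u : ℝ => Real.log u ^ (j + 1))
        (((j + 1 : ℕ) : ℝ) * Real.log u ^ j * u⁻¹) u := by
      have := (Real.hasDerivAt_log hu.ne').fun_pow (j + 1)
      simpa using this
    have h1 := ((hl.mul h0).neg).div_const δ
    have h2 := ih.const_mul (((j : ℝ) + 1) / δ)
    have h3 := h1.add h2
    refine (h3.congr_deriv ?_).congr_of_eventuallyEq (Eventually.of_forall fun x => ?_)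
    · simp only [ff]
      rw [hexp2]
      have : u⁻¹ * u ^ (-δ) = u ^ (-1 - δ) := by rw [← hexp]; field_simp
      rw [pow_succ]
      push_cast
      have e1 : ((j : ℝ) + 1) * Real.log u ^ j * u⁻¹ * u ^ (-δ)
          = ((j : ℝ) + 1) * Real.log u ^ j * u ^ (-1 - δ) := by
        rw [mul_assoc _ u⁻¹, this]
      rw [e1]
      field_simp
      ring
    · simp [FF]

lemma hasDerivAt_ff (j : ℕ) (δ : ℝ) (u : ℝ) (hu : 0 < u) :
    HasDerivAt (ff j δ)
      ((j : ℝ) * Real.log u ^ (j - 1) * u⁻¹ * u ^ (-1 - δ) +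
        Real.log u ^ j * ((-1 - δ) * u ^ (-1 - δ - 1))) u := by
  have h0 : HasDerivAt (fun u : ℝ => u ^ (-1 - δ)) ((-1 - δ) * u ^ (-1 - δ - 1)) u :=
    Real.hasDerivAt_rpow_const (Or.inl hu.ne')
  have hl : HasDerivAt (fun u : ℝ => Real.log u ^ j)
      ((j : ℝ) * Real.log u ^ (j - 1) * u⁻¹) u := by
    have := (Real.hasDerivAt_log hu.ne').fun_pow j
    simpa using this
  exact hl.mul h0

/-- `(log u)^i ≤ K u^(1/2)` for `u ≥ 1`. -/
lemma log_pow_le (i : ℕ) : ∃ K : ℝ, 0 < K ∧ ∀ u : ℝ, 1 ≤ u → Real.log u ^ i ≤ K * u ^ (1 / 2 : ℝ) := by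
  rcases Nat.eq_zero_or_pos i with h | h
  · subst h
    refine ⟨1, one_pos, fun u hu => ?_⟩
    simpa using Real.one_le_rpow hu (by norm_num : (0 : ℝ) ≤ 1 / 2)
  · refine ⟨(2 * i) ^ i, by positivity, fun u hu => ?_⟩
    have hi : (0 : ℝ) < i := by exact_mod_cast h
    have h1 : Real.log u ≤ (2 * i) * u ^ (1 / (2 * i : ℝ)) := by
      have := Real.log_le_rpow_div (by linarith : 0 ≤ u) (by positivity : (0 : ℝ) < 1 / (2 * i))
      calc Real.log u ≤ u ^ (1 / (2 * i : ℝ)) / (1 / (2 * i)) := this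
        _ = _ := by field_simp
    calc Real.log u ^ i ≤ ((2 * i) * u ^ (1 / (2 * i : ℝ))) ^ i :=
          pow_le_pow_left₀ (Real.log_nonneg hu) h1 i
      _ = (2 * i) ^ i * u ^ (1 / 2 : ℝ) := by
          rw [mul_pow, ← Real.rpow_natCast (u ^ (1 / (2 * i : ℝ))) i, ← Real.rpow_mul (by linarith)]
          congr 2
          field_simp

/-- Bound of the derivative of `ff`, uniform in `δ`. -/
lemma deriv_bound (j : ℕ) : ∃ C : ℝ, 0 < C ∧ ∀ δ : ℝ, 0 < δ → δ ≤ 1 → ∀ u : ℝ, 1 ≤ u →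
    |(j : ℝ) * Real.log u ^ (j - 1) * u⁻¹ * u ^ (-1 - δ) +
        Real.log u ^ j * ((-1 - δ) * u ^ (-1 - δ - 1))| ≤ C * u ^ (-(3 / 2) : ℝ) := by
  obtain ⟨K1, hK1, h1⟩ := log_pow_le (j - 1)
  obtain ⟨K2, hK2, h2⟩ := log_pow_le j
  refine ⟨j * K1 + 2 * K2, by positivity, fun δ hδ hδ1 u hu => ?_⟩
  have hu0 : 0 < u := by linarith
  have hlog := Real.log_nonneg hu
  have e1 : u⁻¹ * u ^ (-1 - δ) ≤ u ^ (-2 : ℝ) := by
    rw [← Real.rpow_neg_one, ← Real.rpow_add hu0]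
    exact Real.rpow_le_rpow_of_exponent_le hu (by linarith)
  have e2 : u ^ (-1 - δ - 1) ≤ u ^ (-2 : ℝ) :=
    Real.rpow_le_rpow_of_exponent_le hu (by linarith)
  have e3 : u ^ (1 / 2 : ℝ) * u ^ (-2 : ℝ) = u ^ (-(3 / 2) : ℝ) := by
    rw [← Real.rpow_add hu0]; norm_num
  have hp2 : 0 ≤ u ^ (-2 : ℝ) := by positivity
  calc |(j : ℝ) * Real.log u ^ (j - 1) * u⁻¹ * u ^ (-1 - δ) +
        Real.log u ^ j * ((-1 - δ) * u ^ (-1 - δ - 1))|
      ≤ |(j : ℝ) * Real.log u ^ (j - 1) * u⁻¹ * u ^ (-1 - δ)| +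
        |Real.log u ^ j * ((-1 - δ) * u ^ (-1 - δ - 1))| := abs_add_le _ _
    _ = (j : ℝ) * Real.log u ^ (j - 1) * (u⁻¹ * u ^ (-1 - δ)) +
        Real.log u ^ j * ((1 + δ) * u ^ (-1 - δ - 1)) := by
        rw [abs_of_nonneg (by positivity), abs_mul, abs_mul, abs_of_nonneg (by positivity :
          0 ≤ Real.log u ^ j), abs_of_nonneg (by positivity : 0 ≤ u ^ (-1 - δ - 1)),
          abs_of_neg (by linarith : -1 - δ < 0)]
        ring
    _ ≤ (j : ℝ) * (K1 * u ^ (1 / 2 : ℝ)) * u ^ (-2 : ℝ) +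
        (K2 * u ^ (1 / 2 : ℝ)) * (2 * u ^ (-2 : ℝ)) := by
        have t1 := h1 u hu
        have t2 := h2 u hu
        gcongr
        · linarith
    _ = (j * K1 + 2 * K2) * u ^ (-(3 / 2) : ℝ) := by
        rw [← e3]; ring

lemma tendsto_log_pow_rpow (j : ℕ) (δ : ℝ) (hδ : 0 < δ) :
    Tendsto (fun u : ℝ => Real.log u ^ j * u ^ (-δ)) atTop (𝓝 0) := by
  have h : (fun u : ℝ => Real.log u ^ (j : ℝ)) =o[atTop] (fun u : ℝ => u ^ δ) :=
    isLittleO_log_rpow_rpow_atTop j hδ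
  have h2 := h.tendsto_div_nhds_zero
  refine h2.congr' ?_
  filter_upwards [eventually_gt_atTop 1] with u hu
  rw [Real.rpow_natCast, Real.rpow_neg (by linarith)]
  rfl

lemma tendsto_FF (j : ℕ) (δ : ℝ) (hδ : 0 < δ) : Tendsto (FF j δ) atTop (𝓝 0) := by
  induction j with
  | zero =>
    have h := ((tendsto_log_pow_rpow 0 δ hδ).neg).div_const δ
    simp only [neg_zero, zero_div] at h
    refine h.congr fun u => ?_
    simp [FF]
  | succ j ih =>
    have h := ((tendsto_log_pow_rpow (j + 1) δ hδ).neg).div_const δ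
    have h2 := h.add (ih.const_mul (((j : ℝ) + 1) / δ))
    simp only [neg_zero, zero_div, mul_zero, add_zero] at h2
    refine h2.congr fun u => ?_
    simp [FF]

/-- One term compared with one increment of the antiderivative. -/
lemma step_bound (j : ℕ) : ∃ C : ℝ, 0 < C ∧ ∀ δ : ℝ, 0 < δ → δ ≤ 1 → ∀ n : ℕ, 1 ≤ n →
    0 ≤ FF j δ ((n : ℝ) + 1) - FF j δ n ∧
    |ff j δ n - (FF j δ ((n : ℝ) + 1) - FF j δ n)| ≤ C * (n : ℝ) ^ (-(3 / 2) : ℝ) := by
  obtain ⟨C, hC, hb⟩ := deriv_bound j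
  refine ⟨C, hC, fun δ hδ hδ1 n hn => ?_⟩
  have hn1 : (1 : ℝ) ≤ n := by exact_mod_cast hn
  obtain ⟨ξ, hξ, he⟩ := exists_hasDerivAt_eq_slope (FF j δ) (ff j δ)
    (show (n : ℝ) < (n : ℝ) + 1 by linarith)
    (fun u hu => (hasDerivAt_FF j δ hδ.ne' u (by linarith [hu.1])).continuousAt.continuousWithinAt)
    (fun u hu => hasDerivAt_FF j δ hδ.ne' u (by linarith [hu.1]))
  have he' : FF j δ ((n : ℝ) + 1) - FF j δ n = ff j δ ξ := by
    rw [he]; simp
  have hξ1 : 1 ≤ ξ := by linarith [hξ.1]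
  refine ⟨?_, ?_⟩
  · rw [he']
    unfold ff
    have := Real.log_nonneg hξ1
    have : 0 ≤ ξ := by linarith
    positivity
  · rw [he']
    obtain ⟨η, hη, he2⟩ := exists_hasDerivAt_eq_slope (ff j δ)
      (fun u => (j : ℝ) * Real.log u ^ (j - 1) * u⁻¹ * u ^ (-1 - δ) +
        Real.log u ^ j * ((-1 - δ) * u ^ (-1 - δ - 1))) hξ.1
      (fun u hu => (hasDerivAt_ff j δ u (by linarith [hu.1])).continuousAt.continuousWithinAt)
      (fun u hu => hasDerivAt_ff j δ u (by linarith [hu.1]))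
    have hη1 : 1 ≤ η := by linarith [hη.1]
    have hb' := hb δ hδ hδ1 η hη1
    have hpos : 0 < ξ - n := by linarith [hξ.1]
    have hle : ξ - n ≤ 1 := by linarith [hξ.2]
    rw [eq_div_iff hpos.ne'] at he2
    rw [abs_sub_comm, ← he2, abs_mul, abs_of_pos hpos]
    calc |(j : ℝ) * Real.log η ^ (j - 1) * η⁻¹ * η ^ (-1 - δ) +
        Real.log η ^ j * ((-1 - δ) * η ^ (-1 - δ - 1))| * (ξ - n)
        ≤ (C * η ^ (-(3 / 2) : ℝ)) * 1 := by
          gcongr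
      _ = C * η ^ (-(3 / 2) : ℝ) := by ring
      _ ≤ C * (n : ℝ) ^ (-(3 / 2) : ℝ) := by
          refine mul_le_mul_of_nonneg_left ?_ hC.le
          exact Real.rpow_le_rpow_of_nonpos (by linarith) hη.1.le (by norm_num)

lemma hasSum_incr (j : ℕ) (δ : ℝ) (hδ : 0 < δ) (hδ1 : δ ≤ 1) :
    HasSum (fun n : ℕ => FF j δ ((n + 1 : ℕ) + 1) - FF j δ ((n + 1 : ℕ) : ℝ))
      ((j.factorial : ℝ) / δ ^ (j + 1)) := by
  obtain ⟨C, hC, hb⟩ := step_bound j
  rw [hasSum_iff_tendsto_nat_of_nonneg]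
  · have h1 : ∀ N : ℕ, ∑ n ∈ range N, (FF j δ ((n + 1 : ℕ) + 1) - FF j δ ((n + 1 : ℕ) : ℝ))
        = FF j δ (N + 1) - FF j δ 1 := by
      intro N
      have := Finset.sum_range_sub (fun n : ℕ => FF j δ ((n : ℝ) + 1)) N
      simp only [Nat.cast_add, Nat.cast_one, Nat.cast_zero, zero_add] at this ⊢
      exact this
    simp_rw [h1]
    rw [FF_one j δ hδ.ne']
    have h2 : Tendsto (fun N : ℕ => FF j δ ((N : ℝ) + 1)) atTop (𝓝 0) :=
      (tendsto_FF j δ hδ).comp (tendsto_atTop_add_const_right _ _ tendsto_natCast_atTop_atTop)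
    simpa using h2.sub_const (-((j.factorial : ℝ) / δ ^ (j + 1)))
  · intro n
    exact (hb δ hδ hδ1 (n + 1) (by omega)).1

/-- Summability of `(log n)^j n^(-1-δ)`. -/
theorem summable_ZZ (j : ℕ) (δ : ℝ) (hδ : 0 < δ) :
    Summable (fun n : ℕ => Real.log n ^ j * (n : ℝ) ^ (-1 - δ)) := by
  wlog hδ1 : δ ≤ 1 generalizing δ
  · have h := this 1 one_pos le_rfl
    refine Summable.of_nonneg_of_le (fun n => ?_) (fun n => ?_) h
    · have := Real.log_natCast_nonneg n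
      positivity
    · have := Real.log_natCast_nonneg n
      rcases Nat.eq_zero_or_pos n with h0 | h0
      · subst h0
        have e1 : ((0 : ℕ) : ℝ) ^ (-1 - δ) = 0 := by
          rw [Nat.cast_zero, Real.zero_rpow (by push Not at hδ1; linarith)]
        have e2 : ((0 : ℕ) : ℝ) ^ (-1 - 1 : ℝ) = 0 := by
          rw [Nat.cast_zero, Real.zero_rpow (by norm_num)]
        rw [e1, e2]
      · have hn1 : (1 : ℝ) ≤ n := by exact_mod_cast h0
        gcongr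
        · linarith
  obtain ⟨C, hC, hb⟩ := step_bound j
  have h1 := (hasSum_incr j δ hδ hδ1).summable
  have h2 : Summable (fun n : ℕ => C * ((n + 1 : ℕ) : ℝ) ^ (-(3 / 2) : ℝ)) := by
    refine Summable.mul_left C ?_
    have := (Real.summable_nat_rpow (p := (-(3 / 2) : ℝ))).2 (by norm_num)
    exact (summable_nat_add_iff 1).2 this
  have h3 : Summable (fun n : ℕ => ff j δ ((n + 1 : ℕ) : ℝ) -
      (FF j δ ((n + 1 : ℕ) + 1) - FF j δ ((n + 1 : ℕ) : ℝ))) := by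
    refine Summable.of_norm_bounded h2 fun n => ?_
    have := (hb δ hδ hδ1 (n + 1) (by omega)).2
    rw [Real.norm_eq_abs]
    exact this
  have h4 := h3.add h1
  rw [← summable_nat_add_iff 1]
  refine h4.congr fun n => ?_
  simp [ff]

theorem s2 : S2 := by
  intro j
  obtain ⟨C, hC, hb⟩ := step_bound j
  have hsum : Summable (fun n : ℕ => ((n + 1 : ℕ) : ℝ) ^ (-(3 / 2) : ℝ)) := by
    have := (Real.summable_nat_rpow (p := (-(3 / 2) : ℝ))).2 (by norm_num)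
    exact (summable_nat_add_iff 1).2 this
  refine ⟨C * (∑' n : ℕ, ((n + 1 : ℕ) : ℝ) ^ (-(3 / 2) : ℝ)) + 1, ?_, fun δ hδ hδ1 => ?_⟩
  · have : 0 ≤ ∑' n : ℕ, ((n + 1 : ℕ) : ℝ) ^ (-(3 / 2) : ℝ) := tsum_nonneg fun n => by positivity
    positivity
  have hz : ZZ j δ = ∑' n : ℕ, ff j δ ((n + 1 : ℕ) : ℝ) := by
    unfold ZZ
    rw [(summable_ZZ j δ hδ).tsum_eq_zero_add]
    have : ((0 : ℕ) : ℝ) ^ (-1 - δ) = 0 := by
      rw [Nat.cast_zero, Real.zero_rpow (by linarith)]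
    rw [this, mul_zero, zero_add]
    rfl
  have hf : Summable (fun n : ℕ => ff j δ ((n + 1 : ℕ) : ℝ)) :=
    (summable_nat_add_iff 1).2 (summable_ZZ j δ hδ)
  have hg := hasSum_incr j δ hδ hδ1
  rw [hz, ← hg.tsum_eq, ← hf.tsum_sub hg.summable]
  have hbd : ∀ n : ℕ, ‖ff j δ ((n + 1 : ℕ) : ℝ) -
      (FF j δ ((n + 1 : ℕ) + 1) - FF j δ ((n + 1 : ℕ) : ℝ))‖
        ≤ C * ((n + 1 : ℕ) : ℝ) ^ (-(3 / 2) : ℝ) := by
    intro n
    rw [Real.norm_eq_abs]
    exact (hb δ hδ hδ1 (n + 1) (by omega)).2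
  have h5 := tsum_of_norm_bounded (hsum.mul_left C).hasSum hbd
  rw [tsum_mul_left] at h5
  rw [← Real.norm_eq_abs]
  linarith

end Pool.Agent.Lib.MP_509488_nt.Unif
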