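import Mathlib

/-!
# Uniform bases: statements of the modules

`r` is a prime up to a power of `Λ`, `δ = 1/Λ`; all series are at the real point `1 + δ`.
-/

namespace Pool.Agent.Lib.MP_509488_nt.Unif

open Finset

/-- `Σ f(n) (log n)^j n^(-1-δ)`. -/
noncomputable def DS (f : ℕ → ℂ) (j : ℕ) (δ : ℝ) : ℂ :=
  ∑' n : ℕ, f n * ((Real.log n ^ j * (n : ℝ) ^ (-1 - δ) : ℝ) : ℂ)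

/-- `Σ χ(n) (log n)^j n^(-1-δ)`. -/
noncomputable def LL {q : ℕ} (χ : DirichletCharacter ℂ q) (j : ℕ) (δ : ℝ) : ℂ :=
  DS (fun n => χ (n : ZMod q)) j δ

/-- `Σ χ(n) Λ(n) (log n)^j n^(-1-δ)`. -/
noncomputable def VV {q : ℕ} (χ : DirichletCharacter ℂ q) (j : ℕ) (δ : ℝ) : ℂ :=
  DS (fun n => χ (n : ZMod q) * (ArithmeticFunction.vonMangoldt n : ℝ)) j δ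

/-- `Σ (log n)^j n^(-1-δ)`. -/
noncomputable def ZZ (j : ℕ) (δ : ℝ) : ℝ :=
  ∑' n : ℕ, Real.log n ^ j * (n : ℝ) ^ (-1 - δ)

/-- `Σ Λ(n) (log n)^j n^(-1-δ)`. -/
noncomputable def MM (j : ℕ) (δ : ℝ) : ℝ :=
  ∑' n : ℕ, ArithmeticFunction.vonMangoldt n * (Real.log n ^ j * (n : ℝ) ^ (-1 - δ))

/-- `Σ_{n ≡ 1 mod q} Λ(n) (log n)^j n^(-1-δ)`. -/
noncomputable def AP (q j : ℕ) (δ : ℝ) : ℝ :=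
  ∑' n : ℕ, if n ≡ 1 [MOD q] then
    ArithmeticFunction.vonMangoldt n * (Real.log n ^ j * (n : ℝ) ^ (-1 - δ)) else 0

/-- M1: upper bound for `L^(j)(1+δ, χ)`, `χ` nonprincipal (partial summation). -/
def S1 : Prop := ∀ j : ℕ, ∃ c : ℝ, 0 < c ∧ ∀ q : ℕ, 1 ≤ q → ∀ χ : DirichletCharacter ℂ q, χ ≠ 1 →
  ∀ δ : ℝ, 0 < δ → δ ≤ 1 → ‖LL χ j δ‖ ≤ c * (1 + Real.log q) ^ (j + 1)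

/-- M2: `Σ (log n)^j n^(-1-δ) = j!/δ^(j+1) + O_j(1)`. -/
def S2 : Prop := ∀ j : ℕ, ∃ c : ℝ, 0 < c ∧ ∀ δ : ℝ, 0 < δ → δ ≤ 1 →
  |ZZ j δ - (j.factorial : ℝ) / δ ^ (j + 1)| ≤ c

/-- M3: lower bound for `L(1+δ, χ)`, `χ² ≠ 1` (3-4-1). -/
def S3 : Prop := ∃ c : ℝ, 0 < c ∧ ∀ q : ℕ, 1 ≤ q → ∀ χ : DirichletCharacter ℂ q, χ ^ 2 ≠ 1 →
  ∀ δ : ℝ, 0 < δ → δ ≤ 1 → c / (1 + Real.log q) ^ 7 ≤ ‖LL χ 0 δ‖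

/-- M4: two independent real characters are not both exceptional. -/
def S4 : Prop := ∃ κ : ℝ, 0 < κ ∧ ∀ q₁ q₂ : ℕ, 1 ≤ q₁ → 1 ≤ q₂ →
  ∀ (χ₁ : DirichletCharacter ℂ q₁) (χ₂ : DirichletCharacter ℂ q₂), χ₁ ^ 2 = 1 → χ₂ ^ 2 = 1 →
  χ₁ ≠ 1 → χ₂ ≠ 1 →
  DirichletCharacter.changeLevel (dvd_mul_right q₁ q₂) χ₁ *
    DirichletCharacter.changeLevel (dvd_mul_left q₂ q₁) χ₂ ≠ 1 →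
  ∀ δ : ℝ, 0 < δ → δ ≤ κ / (1 + Real.log (q₁ * q₂ : ℕ)) ^ 5 →
    κ / (1 + Real.log (q₁ * q₂ : ℕ)) ^ 3 ≤ ‖LL χ₁ 0 δ‖ ∨
    κ / (1 + Real.log (q₁ * q₂ : ℕ)) ^ 3 ≤ ‖LL χ₂ 0 δ‖

/-- M5: `‖(L'/L)^(j)(1+δ, χ)‖` is polylogarithmic if `L(1+δ, χ)` is not too small. -/
def S5 : Prop := ∀ (j : ℕ) (κ : ℝ), 0 < κ → ∃ C : ℝ, 0 < C ∧ ∀ q : ℕ, 1 ≤ q →
  ∀ χ : DirichletCharacter ℂ q, χ ≠ 1 → ∀ δ : ℝ, 0 < δ → δ ≤ 1 → ∀ T : ℝ, 1 + Real.log q ≤ T →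
  κ / T ^ 7 ≤ ‖LL χ 0 δ‖ → ‖VV χ j δ‖ ≤ C * T ^ (9 * (j + 1))

/-- M6: a lower bound for `Σ Λ(n) (log n)^j n^(-1-δ)` for some `j` in a bounded range. -/
def S6 : Prop := ∀ k₀ : ℕ, ∃ (J : ℕ) (c : ℝ) (Λ₀ : ℝ), 0 < c ∧ 1 ≤ Λ₀ ∧ ∀ Λ : ℝ, Λ₀ ≤ Λ →
  ∃ j : ℕ, k₀ ≤ j ∧ j ≤ J ∧ c * Λ ^ (j + 1) ≤ MM j (1 / Λ)

/-- M7: lower bound for primes with `ψ(p) = 1`, `ψ` real of modulus at most `Λ^A`. -/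
def S7 : Prop := ∀ A k₀ : ℕ, ∃ (J : ℕ) (Λ₀ : ℝ), 1 ≤ Λ₀ ∧ ∀ Λ : ℝ, Λ₀ ≤ Λ → ∀ r : ℕ, 1 ≤ r →
  (r : ℝ) ≤ Λ ^ A → ∀ ψ : DirichletCharacter ℂ r, ψ ^ 2 = 1 → ψ ≠ 1 →
  ∃ j : ℕ, k₀ ≤ j ∧ j ≤ J ∧ Λ ^ j ≤ Λ ^ (A + 5) * (MM j (1 / Λ) + (VV ψ j (1 / Λ)).re)

/-- M8: lower bound in the progression `1 mod r d` for many `d`. -/
def S8 : Prop := ∀ A v k₀ : ℕ, ∃ (J : ℕ) (Λ₀ : ℝ), 1 ≤ Λ₀ ∧ ∀ Λ : ℝ, Λ₀ ≤ Λ → ∀ r : ℕ, r.Prime →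
  (r : ℝ) ≤ Λ ^ A → ∀ D₁ D₂ : Finset ℕ, (∀ d ∈ D₁, 1 ≤ d ∧ (d : ℝ) ≤ Λ ^ v ∧ Nat.Coprime d r) →
  (∀ d ∈ D₂, 1 ≤ d ∧ (d : ℝ) ≤ Λ ^ v ∧ Nat.Coprime d r) →
  (∀ d ∈ D₁, ∀ e ∈ D₂, Nat.Coprime d e) →
  ∃ j : ℕ, k₀ ≤ j ∧ j ≤ J ∧
    ((∀ d ∈ D₁, Λ ^ j ≤ Λ ^ (A + 6) * ((r * d : ℕ) : ℝ) * AP (r * d) j (1 / Λ)) ∨
     (∀ d ∈ D₂, Λ ^ j ≤ Λ ^ (A + 6) * ((r * d : ℕ) : ℝ) * AP (r * d) j (1 / Λ)))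

/-- M9: from the weighted sum over prime powers to `Σ 1/l` over primes in a range. -/
def S9 : Prop := ∀ E Q j : ℕ, 2 * (E + Q) + 10 ≤ j → ∃ Λ₀ : ℝ, 1 ≤ Λ₀ ∧ ∀ Λ : ℝ, Λ₀ ≤ Λ →
  ∀ q : ℕ, 1 ≤ q → (q : ℝ) ≤ Λ ^ Q → Λ ^ j ≤ Λ ^ E * q * AP q j (1 / Λ) →
  ∃ S : Finset ℕ, (∀ l ∈ S, l.Prime ∧ l ≡ 1 [MOD q] ∧ Real.exp (Real.sqrt Λ) ≤ l ∧
    (l : ℝ) ≤ Real.exp (Λ ^ (3 / 2 : ℝ))) ∧ 1 ≤ Λ ^ (E + 2) * q * ∑ l ∈ S, (1 : ℝ) / l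

/-- M10: the supply of primes `l = 1 mod r` with `l - 1` dividing a small number. -/
def Supply : Prop := ∀ A B : ℕ, ∃ C Λ₀ : ℕ, 1 ≤ Λ₀ ∧ ∀ Λ : ℕ, Λ₀ ≤ Λ → ∀ r : ℕ, r.Prime →
  r ≤ Λ ^ A → ∃ (P Q : Finset ℕ) (L : ℕ), 1 ≤ L ∧ (L : ℝ) ≤ Real.exp ((Λ : ℝ) ^ 2) ∧
    Λ ^ B ≤ P.card ∧ Λ ^ B ≤ Q.card ∧
    (∀ l ∈ P ∪ Q, l.Prime ∧ r ∣ l - 1 ∧ l - 1 ∣ L ∧ Real.exp (Real.sqrt Λ) ≤ l ∧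
      (l : ℝ) ≤ Real.exp ((Λ : ℝ) ^ 2)) ∧
    ∀ p : ℕ, p.Prime → Λ ^ C < p → (∀ l ∈ P, ¬ p ∣ l - 1) ∨ (∀ l ∈ Q, ¬ p ∣ l - 1)

end Pool.Agent.Lib.MP_509488_nt.Unif
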