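import Mathlib
import Pool.Agent.Lib.MP_509488_nt.Unif.Stmts

/-!
# Modules M3 and M4: lower bounds for `L(1+δ, χ)`
-/

namespace Pool.Agent.Lib.MP_509488_nt.Unif

namespace M34

open Finset

theorem one_lt_re {δ : ℝ} (hδ : 0 < δ) : 1 < (1 + (δ : ℂ)).re := by
  simp [hδ]

theorem rpow_cast (n : ℕ) (δ : ℝ) :
    (((n : ℝ) ^ (-1 - δ) : ℝ) : ℂ) = (n : ℂ) ^ (-(1 + (δ : ℂ))) := by
  rw [Complex.ofReal_cpow (Nat.cast_nonneg n)]
  congr 1
  push_cast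
  ring

theorem DS_zero_eq (f : ℕ → ℂ) {δ : ℝ} (hδ : 0 < δ) :
    DS f 0 δ = LSeries f (1 + δ) := by
  unfold DS LSeries
  refine tsum_congr fun n => ?_
  rcases Nat.eq_zero_or_pos n with rfl | hn
  · rw [LSeries.term_zero, pow_zero, one_mul, Nat.cast_zero,
      Real.zero_rpow (by linarith : (-1 - δ) ≠ 0)]
    simp
  · rw [LSeries.term_of_ne_zero hn.ne', pow_zero, one_mul, rpow_cast, Complex.cpow_neg,
      div_eq_mul_inv]

theorem DS_one_eq (f : ℕ → ℂ) {δ : ℝ} :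
    DS f 1 δ = LSeries (LSeries.logMul f) (1 + δ) := by
  unfold DS LSeries
  refine tsum_congr fun n => ?_
  rcases Nat.eq_zero_or_pos n with rfl | hn
  · rw [LSeries.term_zero]
    simp
  · rw [LSeries.term_of_ne_zero hn.ne', pow_one, Complex.ofReal_mul, rpow_cast, Complex.cpow_neg,
      div_eq_mul_inv, LSeries.logMul, Complex.natCast_log]
    ring

theorem abscissa_le {q : ℕ} (hq : 1 ≤ q) (χ : DirichletCharacter ℂ q) {δ : ℝ} (hδ : 0 < δ) :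
    LSeries.abscissaOfAbsConv (fun n => χ (n : ZMod q)) < ((1 + (δ : ℂ)).re : EReal) := by
  rw [DirichletCharacter.absicssaOfAbsConv_eq_one (by omega) χ, ← EReal.coe_one,
    EReal.coe_lt_coe_iff]
  exact one_lt_re hδ

theorem hasDerivAt_LL {q : ℕ} (hq : 1 ≤ q) (χ : DirichletCharacter ℂ q) {δ : ℝ} (hδ : 0 < δ) :
    HasDerivAt (fun d : ℝ => LSeries (fun n => χ (n : ZMod q)) (1 + (d : ℂ)))
      (- LL χ 1 δ) δ := by
  have h1 := LSeries_hasDerivAt (abscissa_le hq χ hδ)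
  have h2 : HasDerivAt (fun d : ℝ => (1 + (d : ℂ))) 1 δ := by
    have := (Complex.ofRealCLM.hasDerivAt (x := δ)).const_add (1 : ℂ)
    simpa using this
  have h3 := HasDerivAt.scomp δ h1 h2
  rw [LL, DS_one_eq]
  rw [one_smul] at h3
  exact h3

/-- Mean value inequality. -/
theorem norm_sub_le {q : ℕ} (hq : 1 ≤ q) (χ : DirichletCharacter ℂ q) {c : ℝ}
    (hc : ∀ δ : ℝ, 0 < δ → δ ≤ 1 → ‖LL χ 1 δ‖ ≤ c) {a b : ℝ} (ha : 0 < a) (hab : a ≤ b)
    (hb : b ≤ 1) : ‖LL χ 0 b - LL χ 0 a‖ ≤ c * (b - a) := by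
  have h := Convex.norm_image_sub_le_of_norm_hasDerivWithin_le (𝕜 := ℝ)
    (f := fun d : ℝ => LSeries (fun n => χ (n : ZMod q)) (1 + (d : ℂ)))
    (f' := fun d => - LL χ 1 d) (s := Set.Icc a b) (C := c)
    (fun x hx => (hasDerivAt_LL hq χ (lt_of_lt_of_le ha hx.1)).hasDerivWithinAt)
    (fun x hx => by
      rw [norm_neg]; exact hc x (lt_of_lt_of_le ha hx.1) (hx.2.trans hb))
    (convex_Icc a b) (Set.left_mem_Icc.2 hab) (Set.right_mem_Icc.2 hab)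
  rw [LL, LL, DS_zero_eq _ (lt_of_lt_of_le ha hab), DS_zero_eq _ ha]
  rw [Real.norm_of_nonneg (sub_nonneg.2 hab)] at h
  exact h

theorem norm_ge_of {q : ℕ} (hq : 1 ≤ q) (χ : DirichletCharacter ℂ q) {c : ℝ} (hc0 : 0 ≤ c)
    (hc : ∀ δ : ℝ, 0 < δ → δ ≤ 1 → ‖LL χ 1 δ‖ ≤ c) {a b : ℝ} (ha : 0 < a) (hab : a ≤ b)
    (hb : b ≤ 1) : ‖LL χ 0 b‖ - c * b ≤ ‖LL χ 0 a‖ := by
  have h1 := norm_sub_le hq χ hc ha hab hb
  have h2 : ‖LL χ 0 b‖ ≤ ‖LL χ 0 b - LL χ 0 a‖ + ‖LL χ 0 a‖ := by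
    have := norm_add_le (LL χ 0 b - LL χ 0 a) (LL χ 0 a)
    simpa using this
  nlinarith

theorem summable_ZZ {δ : ℝ} (hδ : 0 < δ) :
    Summable fun n : ℕ => Real.log n ^ 0 * (n : ℝ) ^ (-1 - δ) := by
  simp only [pow_zero, one_mul]
  exact Real.summable_nat_rpow.2 (by linarith)

theorem norm_LL_zero_le {q : ℕ} (χ : DirichletCharacter ℂ q) {δ : ℝ} (hδ : 0 < δ) :
    ‖LL χ 0 δ‖ ≤ ZZ 0 δ := by
  unfold LL DS ZZ
  refine tsum_of_norm_bounded (summable_ZZ hδ).hasSum fun n => ?_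
  rw [norm_mul, Complex.norm_real]
  have h1 : 0 ≤ Real.log n ^ 0 * (n : ℝ) ^ (-1 - δ) := by
    rw [pow_zero, one_mul]; positivity
  rw [Real.norm_of_nonneg h1]
  exact mul_le_of_le_one_left h1 (χ.norm_le_one _)

theorem ZZ_le {c : ℝ} {δ : ℝ} (hδ : 0 < δ) (hδ1 : δ ≤ 1)
    (h : |ZZ 0 δ - ((Nat.factorial 0 : ℕ) : ℝ) / δ ^ (0 + 1)| ≤ c) :
    ZZ 0 δ ≤ (1 + c) / δ := by
  have hc : 0 ≤ c := (abs_nonneg _).trans h
  have h1 := (abs_le.1 h).2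
  simp only [Nat.factorial_zero, Nat.cast_one, zero_add, pow_one] at h1
  rw [add_div]
  have : c ≤ c / δ := by
    rw [le_div_iff₀ hδ]; nlinarith
  linarith

/-- 3-4-1 at the real point. -/
theorem three_four_one {q : ℕ} (χ : DirichletCharacter ℂ q) {δ : ℝ} (hδ : 0 < δ) :
    1 ≤ ZZ 0 δ ^ 3 * ‖LL χ 0 δ‖ ^ 4 * ‖LL (χ ^ 2) 0 δ‖ := by
  have h := DirichletCharacter.norm_LSeries_product_ge_one χ hδ 0
  simp only [Complex.ofReal_zero, mul_zero, add_zero, norm_mul, norm_pow] at h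
  have h1 := norm_LL_zero_le (1 : DirichletCharacter ℂ q) hδ
  rw [LL, DS_zero_eq _ hδ] at h1
  rw [LL, DS_zero_eq _ hδ, LL, DS_zero_eq _ hδ]
  refine le_trans h ?_
  gcongr

theorem changeLevel_apply {q Q : ℕ} (h : q ∣ Q) (χ : DirichletCharacter ℂ q) {n : ℕ}
    (hn : IsUnit (n : ZMod Q)) :
    DirichletCharacter.changeLevel h χ (n : ZMod Q) = χ (n : ZMod q) := by
  have h1 := DirichletCharacter.changeLevel_eq_cast_of_dvd χ h hn.unit
  rw [hn.unit_spec, ZMod.cast_natCast h] at h1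
  exact h1

theorem prod_apply {q₁ q₂ : ℕ} (χ₁ : DirichletCharacter ℂ q₁) (χ₂ : DirichletCharacter ℂ q₂)
    (n : ℕ) :
    (DirichletCharacter.changeLevel (dvd_mul_right q₁ q₂) χ₁ *
      DirichletCharacter.changeLevel (dvd_mul_left q₂ q₁) χ₂) (n : ZMod (q₁ * q₂)) =
      χ₁ (n : ZMod q₁) * χ₂ (n : ZMod q₂) := by
  rw [MulChar.mul_apply]
  by_cases hn : IsUnit (n : ZMod (q₁ * q₂))
  · rw [changeLevel_apply _ _ hn, changeLevel_apply _ _ hn]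
  · rw [MulChar.map_nonunit _ hn, zero_mul]
    rw [ZMod.isUnit_iff_coprime, Nat.coprime_mul_iff_right, not_and_or] at hn
    rcases hn with hn | hn
    · rw [MulChar.map_nonunit χ₁ (by rwa [ZMod.isUnit_iff_coprime]), zero_mul]
    · rw [MulChar.map_nonunit χ₂ (by rwa [ZMod.isUnit_iff_coprime]), mul_zero]

theorem real_values {q : ℕ} {χ : DirichletCharacter ℂ q} (h : χ ^ 2 = 1) (n : ℕ) :
    ∃ a : ℝ, (a = -1 ∨ a = 0 ∨ a = 1) ∧ χ (n : ZMod q) = (a : ℂ) := by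
  by_cases hn : IsUnit (n : ZMod q)
  · have h1 : χ (n : ZMod q) ^ 2 = 1 := by
      rw [← MulChar.pow_apply' χ two_ne_zero, h, MulChar.one_apply hn]
    rcases (show χ (n : ZMod q) = 1 ∨ χ (n : ZMod q) = -1 from by simpa using h1) with h2 | h2
    · exact ⟨1, Or.inr (Or.inr rfl), by simpa using h2⟩
    · exact ⟨-1, Or.inl rfl, by simpa using h2⟩
  · exact ⟨0, Or.inr (Or.inl rfl), by rw [MulChar.map_nonunit _ hn]; simp⟩

theorem euler_factor {x a b : ℝ} (hx : 0 ≤ x) (hx1 : x ≤ 1 / 2) (ha : a = -1 ∨ a = 0 ∨ a = 1)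
    (hb : b = -1 ∨ b = 0 ∨ b = 1) :
    |(1 - x) * (1 - a * x) * (1 - b * x) * (1 - a * b * x)| ≤ 1 ∧
      (1 - x) * (1 - a * x) * (1 - b * x) * (1 - a * b * x) ≠ 0 := by
  have p1 : 0 < 1 - x := by linarith
  have p2 : 0 < 1 + x := by linarith
  have p3 : (1 - x) ≤ 1 := by linarith
  have p4 : (1 - x) * (1 + x) ≤ 1 := by nlinarith
  have p5 : 0 < (1 - x) * (1 + x) := by positivity
  rcases ha with rfl | rfl | rfl <;> rcases hb with rfl | rfl | rfl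
  · have e : (1 - x) * (1 - -1 * x) * (1 - -1 * x) * (1 - -1 * -1 * x) =
      ((1 - x) * (1 + x)) ^ 2 := by ring
    rw [e]
    exact ⟨by rw [abs_of_pos (by positivity)]; exact pow_le_one₀ p5.le p4, by positivity⟩
  · have e : (1 - x) * (1 - -1 * x) * (1 - 0 * x) * (1 - -1 * 0 * x) =
      ((1 - x) * (1 + x)) := by ring
    rw [e]
    exact ⟨by rw [abs_of_pos (by positivity)]; exact p4, by positivity⟩
  · have e : (1 - x) * (1 - -1 * x) * (1 - 1 * x) * (1 - -1 * 1 * x) =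
      ((1 - x) * (1 + x)) ^ 2 := by ring
    rw [e]
    exact ⟨by rw [abs_of_pos (by positivity)]; exact pow_le_one₀ p5.le p4, by positivity⟩
  · have e : (1 - x) * (1 - 0 * x) * (1 - -1 * x) * (1 - 0 * -1 * x) =
      ((1 - x) * (1 + x)) := by ring
    rw [e]
    exact ⟨by rw [abs_of_pos (by positivity)]; exact p4, by positivity⟩
  · have e : (1 - x) * (1 - 0 * x) * (1 - 0 * x) * (1 - 0 * 0 * x) = 1 - x := by ring
    rw [e]
    exact ⟨by rw [abs_of_pos p1]; exact p3, p1.ne'⟩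
  · have e : (1 - x) * (1 - 0 * x) * (1 - 1 * x) * (1 - 0 * 1 * x) = (1 - x) ^ 2 := by ring
    rw [e]
    exact ⟨by rw [abs_of_pos (by positivity)]; exact pow_le_one₀ p1.le p3, by positivity⟩
  · have e : (1 - x) * (1 - 1 * x) * (1 - -1 * x) * (1 - 1 * -1 * x) =
      ((1 - x) * (1 + x)) ^ 2 := by ring
    rw [e]
    exact ⟨by rw [abs_of_pos (by positivity)]; exact pow_le_one₀ p5.le p4, by positivity⟩
  · have e : (1 - x) * (1 - 1 * x) * (1 - 0 * x) * (1 - 1 * 0 * x) = (1 - x) ^ 2 := by ring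
    rw [e]
    exact ⟨by rw [abs_of_pos (by positivity)]; exact pow_le_one₀ p1.le p3, by positivity⟩
  · have e : (1 - x) * (1 - 1 * x) * (1 - 1 * x) * (1 - 1 * 1 * x) = (1 - x) ^ 4 := by ring
    rw [e]
    exact ⟨by rw [abs_of_pos (by positivity)]; exact pow_le_one₀ p1.le p3, by positivity⟩

/-- `|ζ L(χ₁) L(χ₂) L(χ₁χ₂)| ≥ 1` at real points. -/
theorem four_product {q₁ q₂ : ℕ} {χ₁ : DirichletCharacter ℂ q₁} {χ₂ : DirichletCharacter ℂ q₂}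
    (h1 : χ₁ ^ 2 = 1) (h2 : χ₂ ^ 2 = 1) {δ : ℝ} (hδ : 0 < δ) :
    1 ≤ ZZ 0 δ * ‖LL χ₁ 0 δ‖ * ‖LL χ₂ 0 δ‖ *
      ‖LL (DirichletCharacter.changeLevel (dvd_mul_right q₁ q₂) χ₁ *
        DirichletCharacter.changeLevel (dvd_mul_left q₂ q₁) χ₂) 0 δ‖ := by
  have hs := one_lt_re hδ
  have P0 := DirichletCharacter.LSeries_eulerProduct_hasProd (1 : DirichletCharacter ℂ 1) hs
  have P1 := DirichletCharacter.LSeries_eulerProduct_hasProd χ₁ hs
  have P2 := DirichletCharacter.LSeries_eulerProduct_hasProd χ₂ hs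
  have P3 := DirichletCharacter.LSeries_eulerProduct_hasProd
    (DirichletCharacter.changeLevel (dvd_mul_right q₁ q₂) χ₁ *
        DirichletCharacter.changeLevel (dvd_mul_left q₂ q₁) χ₂) hs
  have P := (((P0.mul P1).mul P2).mul P3).norm
  have hge : 1 ≤ ‖LSeries (fun n => (1 : DirichletCharacter ℂ 1) (n : ZMod 1)) (1 + (δ : ℂ)) *
      LSeries (fun n => χ₁ (n : ZMod q₁)) (1 + (δ : ℂ)) *
      LSeries (fun n => χ₂ (n : ZMod q₂)) (1 + (δ : ℂ)) *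
      LSeries (fun n => (DirichletCharacter.changeLevel (dvd_mul_right q₁ q₂) χ₁ *
        DirichletCharacter.changeLevel (dvd_mul_left q₂ q₁) χ₂) (n : ZMod (q₁ * q₂)))
          (1 + (δ : ℂ))‖ := by
    refine ge_of_tendsto P (Filter.Eventually.of_forall fun S => ?_)
    rw [← Finset.prod_const_one (ι := Nat.Primes) (s := S)]
    refine Finset.prod_le_prod (fun _ _ => zero_le_one) fun p _ => ?_
    obtain ⟨a, ha, hχa⟩ := real_values h1 (p : ℕ)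
    obtain ⟨b, hb, hχb⟩ := real_values h2 (p : ℕ)
    have hp2 : (2 : ℝ) ≤ (p : ℕ) := by exact_mod_cast p.2.two_le
    have hx0 : 0 ≤ ((p : ℕ) : ℝ) ^ (-1 - δ) := by positivity
    have hx1 : ((p : ℕ) : ℝ) ^ (-1 - δ) ≤ 1 / 2 := by
      calc ((p : ℕ) : ℝ) ^ (-1 - δ) ≤ ((p : ℕ) : ℝ) ^ (-1 : ℝ) := by
            apply Real.rpow_le_rpow_of_exponent_le (by linarith) (by linarith)
        _ = (((p : ℕ) : ℝ))⁻¹ := Real.rpow_neg_one _
        _ ≤ 2⁻¹ := by gcongr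
        _ = 1 / 2 := by norm_num
    obtain ⟨e1, e2⟩ := euler_factor hx0 hx1 ha hb
    have hone : (1 : DirichletCharacter ℂ 1) (((p : ℕ)) : ZMod 1) = 1 :=
      MulChar.one_apply (isUnit_of_subsingleton _)
    rw [prod_apply, hone, hχa, hχb, ← rpow_cast]
    rw [← mul_inv, ← mul_inv, ← mul_inv, norm_inv]
    have e3 : (1 - 1 * (((p : ℕ) : ℝ) ^ (-1 - δ) : ℝ) : ℂ) * (1 - (a : ℂ) * (((p : ℕ) : ℝ) ^ (-1 - δ) : ℝ)) *
        (1 - (b : ℂ) * (((p : ℕ) : ℝ) ^ (-1 - δ) : ℝ)) *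
        (1 - (a : ℂ) * (b : ℂ) * (((p : ℕ) : ℝ) ^ (-1 - δ) : ℝ)) =
        (((1 - ((p : ℕ) : ℝ) ^ (-1 - δ)) * (1 - a * ((p : ℕ) : ℝ) ^ (-1 - δ)) *
        (1 - b * ((p : ℕ) : ℝ) ^ (-1 - δ)) * (1 - a * b * ((p : ℕ) : ℝ) ^ (-1 - δ)) : ℝ) : ℂ) := by
      push_cast
      ring
    rw [e3, Complex.norm_real, Real.norm_eq_abs]
    exact (one_le_inv₀ (abs_pos.2 e2)).2 e1
  rw [norm_mul, norm_mul, norm_mul] at hge
  have h4 := norm_LL_zero_le (1 : DirichletCharacter ℂ 1) hδ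
  rw [LL, DS_zero_eq _ hδ] at h4
  rw [LL, DS_zero_eq _ hδ, LL, DS_zero_eq _ hδ, LL, DS_zero_eq _ hδ]
  refine le_trans hge ?_
  gcongr

end M34

open M34

theorem s3 (h1 : S1) (h2 : S2) : S3 := by
  obtain ⟨c0, hc0, H0⟩ := h1 0
  obtain ⟨c1, hc1, H1⟩ := h1 1
  obtain ⟨c2, hc2, H2⟩ := h2 0
  set z : ℝ := 1 + c2 with hz
  have hz1 : 0 < z := by positivity
  set m : ℝ := min 1 (1 / (z ^ 3 * c0)) with hm
  have hm0 : 0 < m := by positivity
  have hm1 : m ≤ 1 := min_le_left _ _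
  have hm4 : m ^ 4 * (z ^ 3 * c0) ≤ 1 := by
    have h3 : m ^ 4 ≤ m := by
      calc m ^ 4 ≤ m ^ 1 := pow_le_pow_of_le_one hm0.le hm1 (by norm_num)
        _ = m := pow_one m
    have h4 : m * (z ^ 3 * c0) ≤ 1 := by
      rw [← le_div_iff₀ (by positivity)]
      exact min_le_right _ _
    calc m ^ 4 * (z ^ 3 * c0) ≤ m * (z ^ 3 * c0) := by gcongr
      _ ≤ 1 := h4
  set lam : ℝ := min 1 (m / (2 * c1)) with hlam
  have hl0 : 0 < lam := by positivity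
  have hl1 : lam ≤ 1 := min_le_left _ _
  have hl2 : c1 * lam ≤ m / 2 := by
    have : lam ≤ m / (2 * c1) := min_le_right _ _
    rw [le_div_iff₀ (by positivity)] at this
    linarith
  refine ⟨lam ^ 3 * m / 2, by positivity, ?_⟩
  intro q hq χ hχ δ hδ hδ1
  have hχ1 : χ ≠ 1 := by
    rintro rfl
    exact hχ (one_pow 2)
  set T : ℝ := 1 + Real.log q with hT
  have hT1 : 1 ≤ T := by
    have : 0 ≤ Real.log q := Real.log_natCast_nonneg q
    linarith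
  have hT0 : 0 < T := by linarith
  -- the lower bound in the range δ ≥ lam^4 T^-9
  have key : ∀ d : ℝ, 0 < d → d ≤ 1 → lam ^ 4 / T ^ 9 ≤ d → lam ^ 3 * m / T ^ 7 ≤ ‖LL χ 0 d‖ := by
    intro d hd hd1 hge
    have e1 := three_four_one χ hd
    have e2 := ZZ_le hd hd1 (H2 d hd hd1)
    have e3 := H0 q hq (χ ^ 2) hχ d hd hd1
    rw [zero_add, pow_one] at e3
    have e4 : 1 ≤ (z / d) ^ 3 * ‖LL χ 0 d‖ ^ 4 * (c0 * T) := by
      refine e1.trans ?_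
      have hZ0 : 0 ≤ ZZ 0 d := by
        unfold ZZ
        refine tsum_nonneg fun n => ?_
        rw [pow_zero, one_mul]; positivity
      gcongr
    have e5 : lam ^ 12 / T ^ 27 ≤ d ^ 3 := by
      calc lam ^ 12 / T ^ 27 = (lam ^ 4 / T ^ 9) ^ 3 := by rw [div_pow]; ring
        _ ≤ d ^ 3 := by gcongr
    have e6 : d ^ 3 ≤ z ^ 3 * c0 * T * ‖LL χ 0 d‖ ^ 4 := by
      have : (z / d) ^ 3 * ‖LL χ 0 d‖ ^ 4 * (c0 * T) = (z ^ 3 * c0 * T * ‖LL χ 0 d‖ ^ 4) / d ^ 3 := by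
        rw [div_pow]; field_simp
      rw [this, le_div_iff₀ (by positivity), one_mul] at e4
      exact e4
    by_contra hlt
    push Not at hlt
    have e7 : ‖LL χ 0 d‖ ^ 4 < (lam ^ 3 * m / T ^ 7) ^ 4 := by
      gcongr
    have e8 : z ^ 3 * c0 * T * ‖LL χ 0 d‖ ^ 4 < z ^ 3 * c0 * T * (lam ^ 3 * m / T ^ 7) ^ 4 := by
      gcongr
    have e9 : z ^ 3 * c0 * T * (lam ^ 3 * m / T ^ 7) ^ 4 = (m ^ 4 * (z ^ 3 * c0)) * (lam ^ 12 / T ^ 27) := by
      rw [div_pow]; field_simp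
    have e10 : (m ^ 4 * (z ^ 3 * c0)) * (lam ^ 12 / T ^ 27) ≤ 1 * (lam ^ 12 / T ^ 27) := by
      gcongr
    linarith
  rcases le_total (lam ^ 4 / T ^ 9) δ with hge | hle
  · refine le_trans ?_ (key δ hδ hδ1 hge)
    have : 0 ≤ lam ^ 3 * m := by positivity
    gcongr
    linarith
  · set b : ℝ := lam ^ 4 / T ^ 9 with hb
    have hb0 : 0 < b := by positivity
    have hb1 : b ≤ 1 := by
      rw [hb, div_le_one (by positivity)]
      calc lam ^ 4 ≤ 1 := pow_le_one₀ hl0.le hl1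
        _ ≤ T ^ 9 := one_le_pow₀ hT1
    have f1 := key b hb0 hb1 le_rfl
    have f2 := norm_ge_of hq χ (c := c1 * T ^ 2) (by positivity)
      (fun d hd hd1 => by simpa using H1 q hq χ hχ1 d hd hd1) hδ hle hb1
    have f3 : c1 * T ^ 2 * b ≤ lam ^ 3 * m / 2 / T ^ 7 := by
      have : c1 * T ^ 2 * b = (c1 * lam) * lam ^ 3 / T ^ 7 := by
        rw [hb]; field_simp
      rw [this]
      have : (c1 * lam) * lam ^ 3 ≤ lam ^ 3 * m / 2 := by
        calc (c1 * lam) * lam ^ 3 ≤ (m / 2) * lam ^ 3 := by gcongr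
          _ = lam ^ 3 * m / 2 := by ring
      gcongr
    have f4 : lam ^ 3 * m / T ^ 7 = lam ^ 3 * m / 2 / T ^ 7 + lam ^ 3 * m / 2 / T ^ 7 := by
      field_simp; ring
    linarith

theorem s4 (h1 : S1) (h2 : S2) : S4 := by
  obtain ⟨c0, hc0, H0⟩ := h1 0
  obtain ⟨c1, hc1, H1⟩ := h1 1
  obtain ⟨c2, hc2, H2⟩ := h2 0
  set z : ℝ := 1 + c2 with hz
  have hz1 : 0 < z := by positivity
  set κ : ℝ := min 1 (1 / (2 * (z * c0 * (1 + c1) ^ 2))) with hκ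
  have hκ0 : 0 < κ := by positivity
  have hκ1 : κ ≤ 1 := min_le_left _ _
  have hκ2 : z * c0 * (1 + c1) ^ 2 * κ ≤ 1 / 2 := by
    have : κ ≤ 1 / (2 * (z * c0 * (1 + c1) ^ 2)) := min_le_right _ _
    rw [le_div_iff₀ (by positivity)] at this
    linarith
  refine ⟨κ, hκ0, ?_⟩
  intro q₁ q₂ hq₁ hq₂ χ₁ χ₂ hχ₁ hχ₂ hχ₁' hχ₂' hprod δ hδ hle
  set T : ℝ := 1 + Real.log (q₁ * q₂ : ℕ) with hT
  have hT1 : 1 ≤ T := by
    have : 0 ≤ Real.log (q₁ * q₂ : ℕ) := Real.log_natCast_nonneg _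
    linarith
  have hT0 : 0 < T := by linarith
  by_contra hcon
  push Not at hcon
  obtain ⟨k1, k2⟩ := hcon
  set b : ℝ := κ / T ^ 5 with hb
  have hb0 : 0 < b := by positivity
  have hb1 : b ≤ 1 := by
    rw [hb, div_le_one (by positivity)]
    exact hκ1.trans (one_le_pow₀ hT1)
  have hlog1 : 1 + Real.log q₁ ≤ T := by
    have : Real.log q₁ ≤ Real.log (q₁ * q₂ : ℕ) := by
      apply Real.log_le_log (by exact_mod_cast hq₁)
      exact_mod_cast Nat.le_mul_of_pos_right _ hq₂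
    linarith
  have hlog2 : 1 + Real.log q₂ ≤ T := by
    have : Real.log q₂ ≤ Real.log (q₁ * q₂ : ℕ) := by
      apply Real.log_le_log (by exact_mod_cast hq₂)
      exact_mod_cast Nat.le_mul_of_pos_left _ hq₁
    linarith
  have hl1 : 0 ≤ Real.log q₁ := Real.log_natCast_nonneg _
  have hl2 : 0 ≤ Real.log q₂ := Real.log_natCast_nonneg _
  have bound : ∀ (q : ℕ) (χ : DirichletCharacter ℂ q), 1 ≤ q → χ ≠ 1 → 0 ≤ Real.log q →
      1 + Real.log q ≤ T → ‖LL χ 0 δ‖ < κ / T ^ 3 → ‖LL χ 0 b‖ ≤ (1 + c1) * κ / T ^ 3 := by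
    intro q χ hq hχ hl hl' hlt
    have f2 := norm_ge_of hq χ (c := c1 * T ^ 2) (by positivity)
      (fun d hd hd1 => by
        have := H1 q hq χ hχ d hd hd1
        refine this.trans ?_
        have h5 : (1 + Real.log q) ^ (1 + 1) ≤ T ^ 2 := by
          norm_num
          gcongr
        gcongr) hδ hle hb1
    have f3 : c1 * T ^ 2 * b = c1 * κ / T ^ 3 := by
      rw [hb]; field_simp
    have f4 : (1 + c1) * κ / T ^ 3 = κ / T ^ 3 + c1 * κ / T ^ 3 := by ring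
    linarith
  have g1 := bound q₁ χ₁ hq₁ hχ₁' hl1 hlog1 k1
  have g2 := bound q₂ χ₂ hq₂ hχ₂' hl2 hlog2 k2
  have g3 := H0 (q₁ * q₂) (Nat.mul_pos hq₁ hq₂) _ hprod b hb0 hb1
  rw [zero_add, pow_one] at g3
  have g4 := ZZ_le hb0 hb1 (H2 b hb0 hb1)
  have g5 := four_product (χ₁ := χ₁) (χ₂ := χ₂) hχ₁ hχ₂ hb0
  have hZ0 : 0 ≤ ZZ 0 b := by
    unfold ZZ
    refine tsum_nonneg fun n => ?_
    rw [pow_zero, one_mul]; positivity
  have g6 : (1 : ℝ) ≤ (z / b) * ((1 + c1) * κ / T ^ 3) * ((1 + c1) * κ / T ^ 3) * (c0 * T) := by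
    refine g5.trans ?_
    gcongr
  have g7 : (z / b) * ((1 + c1) * κ / T ^ 3) * ((1 + c1) * κ / T ^ 3) * (c0 * T) =
      z * c0 * (1 + c1) ^ 2 * κ := by
    rw [hb]; field_simp
  rw [g7] at g6
  linarith

end Pool.Agent.Lib.MP_509488_nt.Unif
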