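import Pool.Agent.Lib.MP_509488_nt.Unif.M1

/-!
# M5: the logarithmic derivatives are polylogarithmic
-/

namespace Pool.Agent.Lib.MP_509488_nt.Unif

open Finset RecA

theorem s5' (h1 : S1) : S5 := by
  intro j κ hκ
  induction j using Nat.strong_induction_on with
  | _ j ih =>
    have hc := fun i => h1 i
    choose c hc0 hc using hc
    have ihc : ∀ i : ℕ, ∃ C : ℝ, 0 < C ∧ (i < j → ∀ q : ℕ, 1 ≤ q →
        ∀ χ : DirichletCharacter ℂ q, χ ≠ 1 → ∀ δ : ℝ, 0 < δ → δ ≤ 1 → ∀ T : ℝ, 1 + Real.log q ≤ T →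
        κ / T ^ 7 ≤ ‖LL χ 0 δ‖ → ‖VV χ i δ‖ ≤ C * T ^ (9 * (i + 1))) := by
      intro i
      by_cases hi : i < j
      · obtain ⟨C, hC, h⟩ := ih i hi
        exact ⟨C, hC, fun _ => h⟩
      · exact ⟨1, one_pos, fun h => absurd h hi⟩
    choose C hC0 hC using ihc
    refine ⟨(1 / κ) * (c (j + 1) + ∑ i ∈ range j, (j.choose i : ℝ) * (C i * c (j - i))), ?_, ?_⟩
    · have : 0 ≤ ∑ i ∈ range j, (j.choose i : ℝ) * (C i * c (j - i)) :=
        Finset.sum_nonneg fun i _ => mul_nonneg (Nat.cast_nonneg _) (mul_nonneg (hC0 i).le (hc0 _).le)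
      have := hc0 (j + 1)
      positivity
    · intro q hq χ hχ δ hδ hδ1 T hT hL
      have hq0 : (1 : ℝ) ≤ q := by exact_mod_cast hq
      have hlogq0 : 0 ≤ Real.log q := Real.log_nonneg hq0
      have hT1 : 1 ≤ T := by linarith
      have hT0 : 0 < T := by linarith
      -- bounds for LL
      have hLLb : ∀ i, ‖LL χ i δ‖ ≤ c i * T ^ (i + 1) := fun i =>
        (hc i q hq χ hχ δ hδ hδ1).trans
          (mul_le_mul_of_nonneg_left (pow_le_pow_left₀ (by linarith) hT _) (hc0 i).le)
      have hrec := LL_rec χ j hδ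
      rw [Finset.sum_range_succ, Nat.choose_self, Nat.cast_one, one_mul, Nat.sub_self] at hrec
      have hVL : VV χ j δ * LL χ 0 δ = LL χ (j + 1) δ -
          ∑ i ∈ range j, (j.choose i : ℂ) * (VV χ i δ * LL χ (j - i) δ) := by
        rw [hrec]; ring
      have hLpos : 0 < ‖LL χ 0 δ‖ := lt_of_lt_of_le (by positivity) hL
      have hnum : ‖VV χ j δ * LL χ 0 δ‖ ≤
          (c (j + 1) + ∑ i ∈ range j, (j.choose i : ℝ) * (C i * c (j - i))) * T ^ (9 * j + 2) := by
        rw [hVL, add_mul]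
        refine (norm_sub_le _ _).trans (add_le_add ?_ ?_)
        · refine (hLLb (j + 1)).trans (mul_le_mul_of_nonneg_left ?_ (hc0 _).le)
          exact pow_le_pow_right₀ hT1 (by omega)
        · rw [Finset.sum_mul]
          refine (norm_sum_le _ _).trans (Finset.sum_le_sum fun i hi => ?_)
          rw [Finset.mem_range] at hi
          rw [norm_mul, norm_mul, Complex.norm_natCast, mul_assoc]
          apply mul_le_mul_of_nonneg_left _ (Nat.cast_nonneg _)
          calc ‖VV χ i δ‖ * ‖LL χ (j - i) δ‖ ≤ (C i * T ^ (9 * (i + 1))) * (c (j - i) * T ^ (j - i + 1)) :=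
                mul_le_mul (hC i hi q hq χ hχ δ hδ hδ1 T hT hL) (hLLb _) (norm_nonneg _)
                  (mul_nonneg (hC0 i).le (by positivity))
            _ = C i * c (j - i) * T ^ (9 * (i + 1) + (j - i + 1)) := by rw [pow_add]; ring
            _ ≤ C i * c (j - i) * T ^ (9 * j + 2) := by
                apply mul_le_mul_of_nonneg_left _ (mul_nonneg (hC0 i).le (hc0 _).le)
                exact pow_le_pow_right₀ hT1 (by omega)
      have hfin : ‖VV χ j δ‖ * (κ / T ^ 7) ≤
          (c (j + 1) + ∑ i ∈ range j, (j.choose i : ℝ) * (C i * c (j - i))) * T ^ (9 * j + 2) := by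
        refine le_trans ?_ hnum
        rw [norm_mul]
        exact mul_le_mul_of_nonneg_left hL (norm_nonneg _)
      have hT7 : 0 < T ^ 7 := by positivity
      rw [mul_div_assoc', div_le_iff₀ hT7] at hfin
      have h9 : T ^ (9 * (j + 1)) = T ^ (9 * j + 2) * T ^ 7 := by rw [← pow_add]; congr 1
      rw [h9]
      have h10 : 1 / κ * (c (j + 1) + ∑ i ∈ range j, (j.choose i : ℝ) * (C i * c (j - i))) *
          (T ^ (9 * j + 2) * T ^ 7) = ((c (j + 1) + ∑ i ∈ range j, (j.choose i : ℝ) * (C i * c (j - i))) *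
          T ^ (9 * j + 2) * T ^ 7) / κ := by field_simp
      rw [h10, le_div_iff₀ hκ]
      exact hfin

theorem s5 : S5 := s5' s1

end Pool.Agent.Lib.MP_509488_nt.Unif
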