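import Pool.Agent.Lib.MP_509488_nt.Unif.Rec

/-!
# M6: a lower bound for `Σ Λ(n) (log n)^j n^(-1-δ)` for some `j` in a bounded range (S6)
-/

namespace Pool.Agent.Lib.MP_509488_nt.Unif

open Filter Topology Finset

lemma ZZ_nonneg (j : ℕ) (δ : ℝ) : 0 ≤ ZZ j δ :=
  tsum_nonneg fun n => by
    have := Real.log_natCast_nonneg n
    positivity

lemma MM_nonneg (j : ℕ) (δ : ℝ) : 0 ≤ MM j δ :=
  tsum_nonneg fun n => by
    have h1 := Real.log_natCast_nonneg n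
    have h2 : 0 ≤ (ArithmeticFunction.vonMangoldt n : ℝ) := ArithmeticFunction.vonMangoldt_nonneg
    positivity

/-- `ZZ j (1/Λ)` is within a factor `2` of `j! Λ^(j+1)` for large `Λ`. -/
lemma ZZ_approx (j : ℕ) : ∃ Λ₀ : ℝ, 1 ≤ Λ₀ ∧ ∀ Λ : ℝ, Λ₀ ≤ Λ →
    (j.factorial : ℝ) * Λ ^ (j + 1) / 2 ≤ ZZ j (1 / Λ) ∧
    ZZ j (1 / Λ) ≤ 2 * ((j.factorial : ℝ) * Λ ^ (j + 1)) := by
  obtain ⟨c, hc, h⟩ := s2 j
  refine ⟨max 1 (2 * c), le_max_left _ _, fun Λ hΛ => ?_⟩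
  have h1 : 1 ≤ Λ := le_trans (le_max_left _ _) hΛ
  have h2 : 2 * c ≤ Λ := le_trans (le_max_right _ _) hΛ
  have hpos : 0 < Λ := by linarith
  have h3 := h (1 / Λ) (by positivity) (by rw [div_le_one hpos]; exact h1)
  have e : (j.factorial : ℝ) / (1 / Λ) ^ (j + 1) = j.factorial * Λ ^ (j + 1) := by
    rw [one_div, inv_pow, div_inv_eq_mul]
  rw [e, abs_le] at h3
  have hf : (1 : ℝ) ≤ j.factorial := by exact_mod_cast Nat.one_le_iff_ne_zero.2 (Nat.factorial_ne_zero j)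
  have hp : Λ ≤ Λ ^ (j + 1) := by
    calc Λ = Λ ^ 1 := (pow_one _).symm
      _ ≤ Λ ^ (j + 1) := pow_le_pow_right₀ h1 (by omega)
  have hge : 2 * c ≤ (j.factorial : ℝ) * Λ ^ (j + 1) := by
    calc 2 * c ≤ Λ := h2
      _ ≤ 1 * Λ ^ (j + 1) := by linarith
      _ ≤ _ := by gcongr
  constructor <;> linarith [h3.1, h3.2]

/-- A common threshold for all `j ≤ J`. -/
lemma ZZ_approx_all (J : ℕ) : ∃ Λ₀ : ℝ, 1 ≤ Λ₀ ∧ ∀ Λ : ℝ, Λ₀ ≤ Λ → ∀ j ≤ J,
    (j.factorial : ℝ) * Λ ^ (j + 1) / 2 ≤ ZZ j (1 / Λ) ∧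
    ZZ j (1 / Λ) ≤ 2 * ((j.factorial : ℝ) * Λ ^ (j + 1)) := by
  induction J with
  | zero =>
    obtain ⟨Λ₀, h1, h⟩ := ZZ_approx 0
    refine ⟨Λ₀, h1, fun Λ hΛ j hj => ?_⟩
    obtain rfl : j = 0 := by omega
    exact h Λ hΛ
  | succ J ih =>
    obtain ⟨Λ₀, h1, h⟩ := ih
    obtain ⟨Λ₁, h2, h'⟩ := ZZ_approx (J + 1)
    refine ⟨max Λ₀ Λ₁, le_trans h1 (le_max_left _ _), fun Λ hΛ j hj => ?_⟩
    rcases Nat.lt_or_ge J j with hj' | hj'
    · obtain rfl : j = J + 1 := by omega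
      exact h' Λ (le_trans (le_max_right _ _) hΛ)
    · exact h Λ (le_trans (le_max_left _ _) hΛ) j hj'

lemma MM_ZZ_le (i : ℕ) (δ : ℝ) (hδ : 0 < δ) : MM i δ * ZZ 0 δ ≤ ZZ (i + 1) δ := by
  rw [recursion_real i δ hδ]
  have h := Finset.single_le_sum (f := fun k => (i.choose k : ℝ) * MM k δ * ZZ (i - k) δ)
    (s := range (i + 1)) (fun k _ => by
      have h1 := MM_nonneg k δ
      have h2 := ZZ_nonneg (i - k) δ
      positivity) (Finset.mem_range.2 (Nat.lt_succ_self i))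
  simpa using h

lemma MM_upper (J : ℕ) : ∃ Λ₀ : ℝ, 1 ≤ Λ₀ ∧ ∀ Λ : ℝ, Λ₀ ≤ Λ → ∀ i ≤ J,
    MM i (1 / Λ) ≤ 4 * ((i + 1).factorial : ℝ) * Λ ^ (i + 1) := by
  obtain ⟨Λ₀, h1, h⟩ := ZZ_approx_all (J + 1)
  refine ⟨Λ₀, h1, fun Λ hΛ i hi => ?_⟩
  have hpos : 0 < Λ := by linarith
  have h0 := (h Λ hΛ 0 (by omega)).1
  have h2 := (h Λ hΛ (i + 1) (by omega)).2
  have h3 := MM_ZZ_le i (1 / Λ) (by positivity)
  have h4 := MM_nonneg i (1 / Λ)
  simp only [Nat.factorial_zero, Nat.cast_one, zero_add, pow_one, one_mul] at h0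
  have h5 : MM i (1 / Λ) * (Λ / 2) ≤ 2 * (((i + 1).factorial : ℝ) * Λ ^ (i + 1 + 1)) :=
    le_trans (le_trans (mul_le_mul_of_nonneg_left h0 h4) h3) h2
  have h6 : (MM i (1 / Λ)) * (Λ / 2) ≤ (4 * ((i + 1).factorial : ℝ) * Λ ^ (i + 1)) * (Λ / 2) := by
    refine le_trans h5 (le_of_eq ?_)
    ring
  exact le_of_mul_le_mul_right h6 (by positivity)

theorem s6 : S6 := by
  intro k₀
  set J : ℕ := 32 * k₀ ^ 2 with hJ
  obtain ⟨Λ₀, h1, h⟩ := ZZ_approx_all (J + 1)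
  obtain ⟨Λ₁, h1', h'⟩ := MM_upper J
  refine ⟨J, 1 / 8, max Λ₀ Λ₁, by norm_num, le_trans h1 (le_max_left _ _), fun Λ hΛ => ?_⟩
  have hΛ0 : Λ₀ ≤ Λ := le_trans (le_max_left _ _) hΛ
  have hΛ1 : Λ₁ ≤ Λ := le_trans (le_max_right _ _) hΛ
  have hpos : 0 < Λ := by linarith
  by_contra hcon
  push Not at hcon
  have hrec := recursion_real J (1 / Λ) (by positivity)
  have hlow := (h Λ hΛ0 (J + 1) le_rfl).1
  -- each term
  have hterm : ∀ i ∈ range (J + 1), (J.choose i : ℝ) * MM i (1 / Λ) * ZZ (J - i) (1 / Λ) ≤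
      (if i < k₀ then 8 * (k₀ : ℝ) * (J.factorial * Λ ^ (J + 2)) else 0) +
      (J.factorial : ℝ) * Λ ^ (J + 2) / 4 := by
    intro i hi
    have hiJ : i ≤ J := by simpa [Nat.lt_succ_iff] using hi
    have hz := (h Λ hΛ0 (J - i) (by omega)).2
    have hz0 := ZZ_nonneg (J - i) (1 / Λ)
    have hM0 := MM_nonneg i (1 / Λ)
    have hch : (J.choose i : ℝ) * i.factorial * (J - i).factorial = J.factorial := by
      exact_mod_cast Nat.choose_mul_factorial_mul_factorial hiJ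
    have hpow : Λ ^ (i + 1) * Λ ^ (J - i + 1) = Λ ^ (J + 2) := by
      rw [← pow_add]; congr 1; omega
    split_ifs with hik
    · have hM := h' Λ hΛ1 i hiJ
      have hik' : ((i : ℝ) + 1) ≤ k₀ := by exact_mod_cast hik
      calc (J.choose i : ℝ) * MM i (1 / Λ) * ZZ (J - i) (1 / Λ)
          ≤ (J.choose i : ℝ) * (4 * ((i + 1).factorial : ℝ) * Λ ^ (i + 1)) *
            (2 * (((J - i).factorial : ℝ) * Λ ^ (J - i + 1))) := by gcongr
        _ = 8 * ((i : ℝ) + 1) * (((J.choose i : ℝ) * i.factorial * (J - i).factorial) *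
            (Λ ^ (i + 1) * Λ ^ (J - i + 1))) := by
            rw [Nat.factorial_succ]; push_cast; ring
        _ = 8 * ((i : ℝ) + 1) * ((J.factorial : ℝ) * Λ ^ (J + 2)) := by rw [hch, hpow]
        _ ≤ 8 * (k₀ : ℝ) * (J.factorial * Λ ^ (J + 2)) := by gcongr
        _ ≤ _ := by
            have : 0 ≤ (J.factorial : ℝ) * Λ ^ (J + 2) / 4 := by positivity
            linarith
    · have hM := (hcon i (by omega) hiJ).le
      have hf : (1 : ℝ) ≤ i.factorial := by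
        exact_mod_cast Nat.one_le_iff_ne_zero.2 (Nat.factorial_ne_zero i)
      calc (J.choose i : ℝ) * MM i (1 / Λ) * ZZ (J - i) (1 / Λ)
          ≤ (J.choose i : ℝ) * (1 / 8 * Λ ^ (i + 1)) *
            (2 * (((J - i).factorial : ℝ) * Λ ^ (J - i + 1))) := by gcongr
        _ = ((J.choose i : ℝ) * 1 * (J - i).factorial) *
            (Λ ^ (i + 1) * Λ ^ (J - i + 1)) / 4 := by ring
        _ ≤ ((J.choose i : ℝ) * i.factorial * (J - i).factorial) *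
            (Λ ^ (i + 1) * Λ ^ (J - i + 1)) / 4 := by gcongr
        _ = 0 + (J.factorial : ℝ) * Λ ^ (J + 2) / 4 := by rw [hch, hpow]; ring
  have hstrict : (∑ i ∈ range (J + 1), (J.choose i : ℝ) * MM i (1 / Λ) * ZZ (J - i) (1 / Λ)) ≤
      8 * (k₀ : ℝ) * k₀ * (J.factorial * Λ ^ (J + 2)) +
        (J + 1) * ((J.factorial : ℝ) * Λ ^ (J + 2) / 4) := by
    refine le_trans (Finset.sum_le_sum hterm) ?_
    rw [Finset.sum_add_distrib, Finset.sum_const, Finset.card_range, nsmul_eq_mul]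
    refine add_le_add ?_ (le_of_eq (by push_cast; ring))
    rw [← Finset.sum_filter, Finset.sum_const, nsmul_eq_mul]
    have hc : (((range (J + 1)).filter (fun i => i < k₀)).card : ℝ) ≤ k₀ := by
      have : ((range (J + 1)).filter (fun i => i < k₀)).card ≤ (range k₀).card :=
        Finset.card_le_card fun i hi => by
          simp only [Finset.mem_filter, Finset.mem_range] at hi ⊢
          exact hi.2
      rw [Finset.card_range] at this
      exact_mod_cast this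
    calc _ ≤ (k₀ : ℝ) * (8 * (k₀ : ℝ) * (J.factorial * Λ ^ (J + 2))) := by gcongr
      _ = _ := by ring
  rw [← hrec] at hstrict
  -- final contradiction
  have hY : 0 < (J.factorial : ℝ) * Λ ^ (J + 2) := by positivity
  have hJr : (J : ℝ) = 32 * (k₀ : ℝ) ^ 2 := by rw [hJ]; push_cast; ring
  have e1 : ((J + 1).factorial : ℝ) * Λ ^ (J + 1 + 1) / 2 =
      ((J : ℝ) + 1) * ((J.factorial : ℝ) * Λ ^ (J + 2)) / 2 := by
    rw [Nat.factorial_succ]; push_cast; ring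
  rw [e1] at hlow
  have hfin := le_trans hlow hstrict
  have e2 : 8 * (k₀ : ℝ) * k₀ * (J.factorial * Λ ^ (J + 2)) =
      (J : ℝ) / 4 * ((J.factorial : ℝ) * Λ ^ (J + 2)) := by rw [hJr]; ring
  rw [e2] at hfin
  have : ((J : ℝ) + 1) / 2 ≤ (J : ℝ) / 4 + ((J : ℝ) + 1) / 4 := by
    refine le_of_mul_le_mul_right ?_ hY
    linarith
  linarith

end Pool.Agent.Lib.MP_509488_nt.Unif
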