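import Mathlib

/-!
# Uniform bases, module 7, part a: a lower bound for `Σ a(n) tⁿ`, `a = 1 * ρ`

The proof follows Monsky's proof of `L(1, χ) ≠ 0`.
-/

set_option autoImplicit false

namespace Pool.Agent.Lib.MP_509488_nt.Unif.M7

open Finset Filter Topology

lemma E_nonneg {t : ℝ} (ht0 : 0 ≤ t) (ht1 : t ≤ 1) (m : ℕ) :
    2 * m * (1 - t) * t ^ m ≤ 1 - t ^ (2 * m) := by
  induction m with
  | zero => simp
  | succ m ih =>
    have h1 : 0 ≤ (1 - t) * ((1 - t ^ (m + 1)) ^ 2 + t ^ (2 * m + 1) * (1 - t)) := by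
      have : 0 ≤ t ^ (2 * m + 1) := by positivity
      have h2 : 0 ≤ 1 - t := by linarith
      positivity
    have h3 : 1 - t ^ (2 * (m + 1)) - 2 * ((m : ℝ) + 1) * (1 - t) * t ^ (m + 1) =
        t * (1 - t ^ (2 * m) - 2 * m * (1 - t) * t ^ m) +
        (1 - t) * ((1 - t ^ (m + 1)) ^ 2 + t ^ (2 * m + 1) * (1 - t)) := by ring
    have h4 : 0 ≤ t * (1 - t ^ (2 * m) - 2 * m * (1 - t) * t ^ m) :=
      mul_nonneg ht0 (by linarith)
    push_cast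
    linarith

lemma D_nonneg {t : ℝ} (ht0 : 0 ≤ t) (ht1 : t ≤ 1) (n : ℕ) :
    n * (n + 1) * (1 - t) ^ 2 * t ^ n ≤ (1 - t ^ n) * (1 - t ^ (n + 1)) := by
  induction n with
  | zero => simp
  | succ n ih =>
    have h1 := E_nonneg ht0 ht1 (n + 1)
    push_cast at h1 ⊢
    have h2 : 0 ≤ (1 - t) * (1 - t ^ (2 * (n + 1)) - 2 * ((n : ℝ) + 1) * (1 - t) * t ^ (n + 1)) :=
      mul_nonneg (by linarith) (by linarith)
    have h3 : 0 ≤ t * ((1 - t ^ n) * (1 - t ^ (n + 1)) - n * (n + 1) * (1 - t) ^ 2 * t ^ n) :=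
      mul_nonneg ht0 (by linarith)
    have h4 : (1 - t ^ (n + 1)) * (1 - t ^ (n + 1 + 1)) -
        ((n : ℝ) + 1) * (n + 1 + 1) * (1 - t) ^ 2 * t ^ (n + 1) =
        t * ((1 - t ^ n) * (1 - t ^ (n + 1)) - n * (n + 1) * (1 - t) ^ 2 * t ^ n) +
        (1 - t) * (1 - t ^ (2 * (n + 1)) - 2 * ((n : ℝ) + 1) * (1 - t) * t ^ (n + 1)) := by ring
    linarith

/-- Monsky's sequence (shifted): `1/(n+1) - (1-t) t^(n+1)/(1-t^(n+1))`. -/
noncomputable def gg (t : ℝ) (n : ℕ) : ℝ :=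
  1 / ((n : ℝ) + 1) - (1 - t) * t ^ (n + 1) / (1 - t ^ (n + 1))

lemma gg_zero {t : ℝ} (ht1 : t < 1) : gg t 0 = 1 - t := by
  unfold gg
  have : 1 - t ≠ 0 := by linarith
  simp only [CharP.cast_eq_zero, zero_add, pow_one]
  field_simp

lemma gg_antitone {t : ℝ} (ht0 : 0 < t) (ht1 : t < 1) : Antitone (gg t) := by
  apply antitone_nat_of_succ_le
  intro n
  unfold gg
  have e1 : 0 < 1 - t ^ (n + 1) := by
    have := pow_lt_one₀ ht0.le ht1 (n := n + 1) (by omega)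
    linarith
  have e2 : 0 < 1 - t ^ (n + 1 + 1) := by
    have := pow_lt_one₀ ht0.le ht1 (n := n + 1 + 1) (by omega)
    linarith
  have hD := D_nonneg ht0.le ht1.le (n + 1)
  push_cast at hD ⊢
  have h1 : 1 / ((n : ℝ) + 1) - (1 - t) * t ^ (n + 1) / (1 - t ^ (n + 1)) -
      (1 / ((n : ℝ) + 1 + 1) - (1 - t) * t ^ (n + 1 + 1) / (1 - t ^ (n + 1 + 1))) =
      ((1 - t ^ (n + 1)) * (1 - t ^ (n + 1 + 1)) -
        ((n : ℝ) + 1) * (n + 1 + 1) * (1 - t) ^ 2 * t ^ (n + 1)) /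
      (((n : ℝ) + 1) * (n + 1 + 1) * ((1 - t ^ (n + 1)) * (1 - t ^ (n + 1 + 1)))) := by
    field_simp
    ring
  have h2 : 0 ≤ ((1 - t ^ (n + 1)) * (1 - t ^ (n + 1 + 1)) -
        ((n : ℝ) + 1) * (n + 1 + 1) * (1 - t) ^ 2 * t ^ (n + 1)) /
      (((n : ℝ) + 1) * (n + 1 + 1) * ((1 - t ^ (n + 1)) * (1 - t ^ (n + 1 + 1)))) := by
    apply div_nonneg (by linarith)
    positivity
  linarith

lemma gg_nonneg {t : ℝ} (ht0 : 0 < t) (ht1 : t < 1) (n : ℕ) : 0 ≤ gg t n := by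
  have e1 : 0 < 1 - t ^ (n + 1) := by
    have := pow_lt_one₀ ht0.le ht1 (n := n + 1) (by omega)
    linarith
  have h := E_nonneg ht0.le ht1.le (n + 1)
  unfold gg
  have h1 : ((n : ℝ) + 1) * ((1 - t) * t ^ (n + 1)) ≤ 1 - t ^ (n + 1) := by
    have hD := D_nonneg ht0.le ht1.le (n + 1)
    have hg : ∀ m : ℕ, (m : ℝ) * ((1 - t) * t ^ m) ≤ 1 - t ^ m := by
      intro m
      induction m with
      | zero => simp
      | succ m ih =>
        push_cast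
        have h3 : 1 - t ^ (m + 1) - ((m : ℝ) + 1) * ((1 - t) * t ^ (m + 1)) =
            t * (1 - t ^ m - m * ((1 - t) * t ^ m)) + (1 - t) * (1 - t ^ (m + 1)) := by ring
        have h4 : 0 ≤ t * (1 - t ^ m - m * ((1 - t) * t ^ m)) := mul_nonneg ht0.le (by linarith)
        have h5 : 0 ≤ (1 - t) * (1 - t ^ (m + 1)) := by
          have := pow_le_one₀ ht0.le ht1.le (n := m + 1)
          exact mul_nonneg (by linarith) (by linarith)
        linarith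
    have := hg (n + 1)
    push_cast at this
    exact this
  rw [sub_nonneg, div_le_div_iff₀ e1 (by positivity)]
  linarith

lemma abel (f g : ℕ → ℝ) (B : ℝ) (hf : ∀ N, |∑ i ∈ range N, f i| ≤ B) (hg : Antitone g)
    (hg0 : ∀ n, 0 ≤ g n) (N : ℕ) : |∑ i ∈ range N, f i * g i| ≤ B * g 0 := by
  have key : ∀ N, ∑ i ∈ range N, f i * g i = (∑ i ∈ range N, f i) * g N +
      ∑ i ∈ range N, (∑ k ∈ range (i + 1), f k) * (g i - g (i + 1)) := by
    intro N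
    induction N with
    | zero => simp
    | succ N ih =>
      rw [Finset.sum_range_succ, ih, Finset.sum_range_succ (fun i => (∑ k ∈ range (i + 1), f k) *
        (g i - g (i + 1))), Finset.sum_range_succ f N]
      ring
  rw [key]
  have h1 : |(∑ i ∈ range N, f i) * g N| ≤ B * g N := by
    rw [abs_mul, abs_of_nonneg (hg0 N)]
    exact mul_le_mul_of_nonneg_right (hf N) (hg0 N)
  have h2 : |∑ i ∈ range N, (∑ k ∈ range (i + 1), f k) * (g i - g (i + 1))| ≤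
      ∑ i ∈ range N, B * (g i - g (i + 1)) := by
    refine (Finset.abs_sum_le_sum_abs _ _).trans (Finset.sum_le_sum fun i _ => ?_)
    have h3 : 0 ≤ g i - g (i + 1) := sub_nonneg.2 (hg (Nat.le_succ i))
    rw [abs_mul, abs_of_nonneg h3]
    exact mul_le_mul_of_nonneg_right (hf _) h3
  have h3 : ∑ i ∈ range N, B * (g i - g (i + 1)) = B * (g 0 - g N) := by
    rw [← Finset.mul_sum, Finset.sum_range_sub']
  calc _ ≤ |(∑ i ∈ range N, f i) * g N| +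
        |∑ i ∈ range N, (∑ k ∈ range (i + 1), f k) * (g i - g (i + 1))| := abs_add_le _ _
    _ ≤ B * g N + B * (g 0 - g N) := add_le_add h1 (h2.trans h3.le)
    _ = B * g 0 := by ring

/-- `a = 1 * ρ`. -/
noncomputable def aa (ρ : ℕ → ℝ) (n : ℕ) : ℝ := ∑ d ∈ n.divisors, ρ d

lemma aa_abs_le {ρ : ℕ → ℝ} (hρ : ∀ n, |ρ n| ≤ 1) (n : ℕ) : |aa ρ n| ≤ n := by
  unfold aa
  refine (Finset.abs_sum_le_sum_abs _ _).trans ?_
  calc ∑ d ∈ n.divisors, |ρ d| ≤ ∑ d ∈ n.divisors, (1 : ℝ) := Finset.sum_le_sum fun i _ => hρ i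
    _ = (n.divisors.card : ℝ) := by simp
    _ ≤ n := by exact_mod_cast Nat.card_divisors_le_self n

lemma summable_aa {ρ : ℕ → ℝ} (hρ : ∀ n, |ρ n| ≤ 1) {t : ℝ} (ht0 : 0 < t) (ht1 : t < 1) :
    Summable (fun n : ℕ => aa ρ n * t ^ n) := by
  apply Summable.of_norm_bounded (g := fun n : ℕ => (n : ℝ) ^ 1 * t ^ n)
  · exact summable_pow_mul_geometric_of_norm_lt_one 1 (by rwa [Real.norm_of_nonneg ht0.le])
  · intro n
    rw [norm_mul, Real.norm_eq_abs, Real.norm_of_nonneg (by positivity), pow_one]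
    exact mul_le_mul_of_nonneg_right (aa_abs_le hρ n) (by positivity)

lemma summable_lam {ρ : ℕ → ℝ} (hρ : ∀ n, |ρ n| ≤ 1) {t : ℝ} (ht0 : 0 < t) (ht1 : t < 1) :
    Summable (fun n : ℕ => ρ (n + 1) * (t ^ (n + 1) / (1 - t ^ (n + 1)))) := by
  have h := summable_norm_pow_mul_geometric_div_one_sub (𝕜 := ℝ) 0 (r := t)
    (by rwa [Real.norm_of_nonneg ht0.le])
  have h' := (summable_nat_add_iff 1).2 h
  apply Summable.of_norm_bounded h'
  intro n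
  have e1 : 0 < 1 - t ^ (n + 1) := by
    have := pow_lt_one₀ ht0.le ht1 (n := n + 1) (by omega)
    linarith
  rw [norm_mul, Real.norm_eq_abs, Real.norm_of_nonneg (by positivity), pow_zero, one_mul]
  exact mul_le_of_le_one_left (by positivity) (hρ _)

/-- Lambert series. -/
lemma lambert {ρ : ℕ → ℝ} (hρ : ∀ n, |ρ n| ≤ 1) {t : ℝ} (ht0 : 0 < t) (ht1 : t < 1) :
    ∑' n : ℕ, aa ρ n * t ^ n = ∑' n : ℕ, ρ (n + 1) * (t ^ (n + 1) / (1 - t ^ (n + 1))) := by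
  have hn : ‖t‖ < 1 := by rwa [Real.norm_of_nonneg ht0.le]
  have h0 : Summable fun c : ℕ+ × ℕ+ => ρ c.1 * t ^ (c.1 * c.2 : ℕ) := by
    apply Summable.of_norm_bounded (summable_prod_mul_pow (𝕜 := ℝ) 0 hn)
    intro c
    rw [norm_mul, Real.norm_eq_abs, Real.norm_of_nonneg (by positivity), pow_zero, one_mul]
    exact mul_le_of_le_one_left (by positivity) (hρ _)
  have h1 : Summable fun c : (n : ℕ+) × {x // x ∈ (n : ℕ).divisorsAntidiagonal} =>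
      ρ c.2.1.1 * t ^ (c.2.1.1 * c.2.1.2) := by
    have := sigmaAntidiagonalEquivProd.summable_iff.2 h0
    exact this
  have h2 : ∑' c : ℕ+ × ℕ+, ρ c.1 * t ^ (c.1 * c.2 : ℕ) =
      ∑' n : ℕ+, aa ρ n * t ^ (n : ℕ) := by
    rw [← sigmaAntidiagonalEquivProd.tsum_eq]
    have h3 : (∑' c : (n : ℕ+) × {x // x ∈ (n : ℕ).divisorsAntidiagonal},
        ρ (sigmaAntidiagonalEquivProd c).1 *
          t ^ ((sigmaAntidiagonalEquivProd c).1 * (sigmaAntidiagonalEquivProd c).2 : ℕ)) =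
        ∑' c : (n : ℕ+) × {x // x ∈ (n : ℕ).divisorsAntidiagonal},
          ρ c.2.1.1 * t ^ (c.2.1.1 * c.2.1.2) := rfl
    rw [h3, Summable.tsum_sigma h1]
    refine tsum_congr fun n => ?_
    rw [tsum_fintype, Finset.univ_eq_attach,
      (n : ℕ).divisorsAntidiagonal.sum_attach (fun x : ℕ × ℕ => ρ x.1 * t ^ (x.1 * x.2)),
      Nat.sum_divisorsAntidiagonal (fun x y => ρ x * t ^ (x * y)), aa, Finset.sum_mul]
    exact Finset.sum_congr rfl fun i hi => by rw [Nat.mul_div_cancel' (Nat.dvd_of_mem_divisors hi)]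
  have h4 : ∑' n : ℕ, aa ρ n * t ^ n = ∑' n : ℕ+, aa ρ n * t ^ (n : ℕ) := by
    rw [← tsum_zero_pnat_eq_tsum_nat (summable_aa hρ ht0 ht1)]
    simp [aa]
  rw [h4, ← h2, Summable.tsum_prod h0]
  have h5 : ∀ d : ℕ+, ∑' c : ℕ+, ρ d * t ^ (d * c : ℕ) =
      ρ d * (t ^ (d : ℕ) / (1 - t ^ (d : ℕ))) := by
    intro d
    rw [tsum_mul_left]
    congr 1
    have hd : ‖t ^ (d : ℕ)‖ < 1 := by
      rw [norm_pow]
      exact pow_lt_one₀ (norm_nonneg _) hn d.pos.ne'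
    have h6 := tsum_geometric_of_norm_lt_one hd
    have h7 := tsum_zero_pnat_eq_tsum_nat (summable_geometric_of_norm_lt_one hd :)
    rw [h6, pow_zero] at h7
    simp only [pow_mul]
    have h8 : (1 - t ^ (d : ℕ)) ≠ 0 := by
      have := pow_lt_one₀ ht0.le ht1 d.pos.ne'
      linarith
    have h9 : ∑' n : ℕ+, (t ^ (d : ℕ)) ^ (n : ℕ) = (1 - t ^ (d : ℕ))⁻¹ - 1 := by linarith
    rw [h9]
    field_simp
    ring
  have h10 := tsum_pnat_eq_tsum_succ (f := fun d : ℕ => ρ d * (t ^ d / (1 - t ^ d)))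
  beta_reduce at h10
  rw [← h10]
  exact tsum_congr h5

lemma cmp {ρ : ℕ → ℝ} (hρ : ∀ n, |ρ n| ≤ 1) (r : ℝ)
    (hs : ∀ N, |∑ i ∈ range N, ρ (i + 1)| ≤ r) {t u : ℝ} (ht0 : 0 < t) (ht1 : t < 1)
    (hu0 : 0 < u) (hu1 : u < 1) :
    (1 - u) * ∑' n : ℕ, aa ρ n * u ^ n - (1 - t) * ∑' n : ℕ, aa ρ n * t ^ n ≤
      r * (1 - u) + r * (1 - t) := by
  rw [lambert hρ hu0 hu1, lambert hρ ht0 ht1]
  have h1 : HasSum (fun n : ℕ => (1 - u) * (ρ (n + 1) * (u ^ (n + 1) / (1 - u ^ (n + 1)))) -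
      (1 - t) * (ρ (n + 1) * (t ^ (n + 1) / (1 - t ^ (n + 1)))))
      ((1 - u) * ∑' n : ℕ, ρ (n + 1) * (u ^ (n + 1) / (1 - u ^ (n + 1))) -
        (1 - t) * ∑' n : ℕ, ρ (n + 1) * (t ^ (n + 1) / (1 - t ^ (n + 1)))) :=
    ((summable_lam hρ hu0 hu1).hasSum.mul_left _).sub ((summable_lam hρ ht0 ht1).hasSum.mul_left _)
  refine le_of_tendsto h1.tendsto_sum_nat (Eventually.of_forall fun N => ?_)
  have h2 : ∑ i ∈ range N, ((1 - u) * (ρ (i + 1) * (u ^ (i + 1) / (1 - u ^ (i + 1)))) -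
      (1 - t) * (ρ (i + 1) * (t ^ (i + 1) / (1 - t ^ (i + 1))))) =
      ∑ i ∈ range N, ρ (i + 1) * gg t i - ∑ i ∈ range N, ρ (i + 1) * gg u i := by
    rw [← Finset.sum_sub_distrib]
    refine Finset.sum_congr rfl fun i _ => ?_
    unfold gg
    ring
  rw [h2]
  have h3 := abel (fun i => ρ (i + 1)) (gg t) r hs (gg_antitone ht0 ht1) (gg_nonneg ht0 ht1) N
  have h4 := abel (fun i => ρ (i + 1)) (gg u) r hs (gg_antitone hu0 hu1) (gg_nonneg hu0 hu1) N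
  rw [gg_zero ht1] at h3
  rw [gg_zero hu1] at h4
  have h5 := le_abs_self (∑ i ∈ range N, ρ (i + 1) * gg t i)
  have h6 := neg_abs_le (∑ i ∈ range N, ρ (i + 1) * gg u i)
  linarith

lemma mass {ρ : ℕ → ℝ} (hρ : ∀ n, |ρ n| ≤ 1) (r : ℕ) (hr : 1 ≤ r)
    (hs : ∀ N, |∑ i ∈ range N, ρ (i + 1)| ≤ r) (ha : ∀ n, 0 ≤ aa ρ n)
    (hsq : ∀ k, 1 ≤ k → 1 ≤ aa ρ (k ^ 2)) {t : ℝ} (ht0 : 0 < t) (ht1 : t < 1) :
    1 / (36 * (r : ℝ)) - r * (1 - t) ≤ (1 - t) * ∑' n : ℕ, aa ρ n * t ^ n := by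
  have hr' : (1 : ℝ) ≤ r := by exact_mod_cast hr
  have hr0 : (0 : ℝ) < r := by linarith
  set u : ℝ := 1 - 1 / (18 * (r : ℝ) ^ 2) with hu
  have hfrac : 1 / (18 * (r : ℝ) ^ 2) ≤ 1 / 18 := by
    apply one_div_le_one_div_of_le (by norm_num)
    nlinarith
  have hfrac0 : 0 < 1 / (18 * (r : ℝ) ^ 2) := by positivity
  have hu0 : 0 < u := by rw [hu]; linarith
  have hu1 : u < 1 := by rw [hu]; linarith
  have h1u : 1 - u = 1 / (18 * (r : ℝ) ^ 2) := by rw [hu]; ring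
  have hc := cmp hρ r hs ht0 ht1 hu0 hu1
  have hS : 3 / 2 * (r : ℝ) ≤ ∑' n : ℕ, aa ρ n * u ^ n := by
    have h1 : ∑ n ∈ (range (3 * r)).image (fun k => (k + 1) ^ 2), aa ρ n * u ^ n ≤
        ∑' n : ℕ, aa ρ n * u ^ n :=
      (summable_aa hρ hu0 hu1).sum_le_tsum _ fun i _ => mul_nonneg (ha i) (by positivity)
    refine le_trans ?_ h1
    rw [Finset.sum_image (fun a _ b _ h => by
      have := Nat.pow_left_injective (n := 2) (by norm_num) h
      simpa using this)]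
    have h2 : ∀ k ∈ range (3 * r), (1 : ℝ) / 2 ≤ aa ρ ((k + 1) ^ 2) * u ^ ((k + 1) ^ 2) := by
      intro k hk
      have hk' : k + 1 ≤ 3 * r := by
        have := Finset.mem_range.1 hk
        omega
      have h3 : (k + 1) ^ 2 ≤ 9 * r ^ 2 := by
        calc (k + 1) ^ 2 ≤ (3 * r) ^ 2 := Nat.pow_le_pow_left hk' 2
          _ = 9 * r ^ 2 := by ring
      have h4 : u ^ (9 * r ^ 2) ≤ u ^ ((k + 1) ^ 2) := pow_le_pow_of_le_one hu0.le hu1.le h3
      have h5 : 1 + ((9 * r ^ 2 : ℕ) : ℝ) * (-(1 / (18 * (r : ℝ) ^ 2))) ≤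
          (1 + -(1 / (18 * (r : ℝ) ^ 2))) ^ (9 * r ^ 2) :=
        one_add_mul_le_pow (by linarith) _
      have h6 : 1 + ((9 * r ^ 2 : ℕ) : ℝ) * (-(1 / (18 * (r : ℝ) ^ 2))) = 1 / 2 := by
        push_cast
        field_simp
        norm_num
      have h7 : 1 + -(1 / (18 * (r : ℝ) ^ 2)) = u := by rw [hu]; ring
      rw [h6, h7] at h5
      calc (1 : ℝ) / 2 ≤ 1 * u ^ ((k + 1) ^ 2) := by linarith
        _ ≤ aa ρ ((k + 1) ^ 2) * u ^ ((k + 1) ^ 2) :=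
          mul_le_mul_of_nonneg_right (hsq (k + 1) (by omega)) (by positivity)
    calc 3 / 2 * (r : ℝ) = ∑ k ∈ range (3 * r), (1 : ℝ) / 2 := by
          rw [Finset.sum_const, Finset.card_range, nsmul_eq_mul]
          push_cast
          ring
      _ ≤ _ := Finset.sum_le_sum h2
  have h3 : 1 / (12 * (r : ℝ)) ≤ (1 - u) * ∑' n : ℕ, aa ρ n * u ^ n := by
    calc 1 / (12 * (r : ℝ)) = (1 - u) * (3 / 2 * r) := by
          rw [h1u]
          field_simp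
          norm_num
      _ ≤ _ := mul_le_mul_of_nonneg_left hS (by linarith)
  have h4 : (r : ℝ) * (1 - u) = 1 / (18 * r) := by
    rw [h1u]
    field_simp
  have h5 : 1 / (12 * (r : ℝ)) - 1 / (18 * r) = 1 / (36 * r) := by
    field_simp
    norm_num
  linarith

end Pool.Agent.Lib.MP_509488_nt.Unif.M7
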