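import Mathlib
import Pool.Agent.Lib.MP_509488_nt.Unif.Stmts
import Pool.Agent.Lib.MP_509488_nt.Unif.M7a

/-!
# Uniform bases, module 7, part b: real Dirichlet series with logarithms, convolutions
-/

set_option autoImplicit false

namespace Pool.Agent.Lib.MP_509488_nt.Unif.M7

open Finset Filter Topology Asymptotics

/-- `Σ f(n) (log n)^j n^(-1-δ)` for real `f`. -/
noncomputable def RD (f : ℕ → ℝ) (j : ℕ) (δ : ℝ) : ℝ :=
  ∑' n : ℕ, f n * (Real.log n ^ j * (n : ℝ) ^ (-1 - δ))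

/-- all the series converge -/
def Sm (f : ℕ → ℝ) (δ : ℝ) : Prop :=
  ∀ j : ℕ, Summable fun n : ℕ => f n * (Real.log n ^ j * (n : ℝ) ^ (-1 - δ))

lemma wt_nonneg (j n : ℕ) (δ : ℝ) : 0 ≤ Real.log n ^ j * (n : ℝ) ^ (-1 - δ) :=
  mul_nonneg (pow_nonneg (Real.log_natCast_nonneg n) j) (Real.rpow_nonneg (Nat.cast_nonneg n) _)

lemma Sm_one {δ : ℝ} (hδ : 0 < δ) (j : ℕ) :
    Summable fun n : ℕ => Real.log n ^ j * (n : ℝ) ^ (-1 - δ) := by
  have h0 : Summable fun n : ℕ => (n : ℝ) ^ (-1 - δ / 2) :=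
    Real.summable_nat_rpow.2 (by linarith)
  have h1 : (fun x : ℝ => Real.log x ^ j) =O[atTop] fun x => x ^ (δ / 2) := by
    have h2 := isLittleO_log_rpow_rpow_atTop (j : ℝ) (half_pos hδ)
    refine (h2.isBigO).congr_left fun x => ?_
    rw [Real.rpow_natCast]
  have h2 : (fun x : ℝ => Real.log x ^ j * x ^ (-1 - δ)) =O[atTop]
      fun x => x ^ (δ / 2) * x ^ (-1 - δ) := h1.mul (isBigO_refl _ _)
  have h3 : (fun x : ℝ => x ^ (δ / 2) * x ^ (-1 - δ)) =ᶠ[atTop] fun x => x ^ (-1 - δ / 2) := by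
    filter_upwards [eventually_gt_atTop 0] with x hx
    rw [← Real.rpow_add hx]
    congr 1
    ring
  have h4 := (h2.congr' (EventuallyEq.refl _ _) h3).comp_tendsto tendsto_natCast_atTop_atTop
  exact summable_of_isBigO_nat h0 h4

lemma Sm_of_bounded {f : ℕ → ℝ} {C : ℝ} (hf : ∀ n, |f n| ≤ C) {δ : ℝ} (hδ : 0 < δ) : Sm f δ := by
  intro j
  apply Summable.of_norm_bounded ((Sm_one hδ j).mul_left C)
  intro n
  rw [norm_mul, Real.norm_eq_abs, Real.norm_of_nonneg (wt_nonneg j n δ)]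
  exact mul_le_mul_of_nonneg_right (hf n) (wt_nonneg j n δ)

lemma Sm_of_log {f : ℕ → ℝ} {C : ℝ} (hf : ∀ n, |f n| ≤ C * Real.log n) {δ : ℝ} (hδ : 0 < δ) :
    Sm f δ := by
  intro j
  apply Summable.of_norm_bounded ((Sm_one hδ (j + 1)).mul_left C)
  intro n
  rw [norm_mul, Real.norm_eq_abs, Real.norm_of_nonneg (wt_nonneg j n δ)]
  refine (mul_le_mul_of_nonneg_right (hf n) (wt_nonneg j n δ)).trans (le_of_eq ?_)
  ring

lemma term_eq (f : ℕ → ℝ) (δ : ℝ) (hδ : 0 < δ) :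
    LSeries.term (fun n => (f n : ℂ)) ((1 + δ : ℝ) : ℂ) =
      fun n => ((f n * (n : ℝ) ^ (-1 - δ) : ℝ) : ℂ) := by
  ext n
  rcases eq_or_ne n 0 with rfl | hn
  · rw [LSeries.term_zero, Nat.cast_zero, Real.zero_rpow (by linarith)]
    simp
  · rw [LSeries.term_of_ne_zero hn]
    have h1 : -1 - δ = -(1 + δ) := by ring
    rw [h1, Real.rpow_neg (Nat.cast_nonneg n), ← div_eq_mul_inv, Complex.ofReal_div,
      Complex.ofReal_cpow (Nat.cast_nonneg n)]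
    simp

lemma conv0 (F G : ℕ → ℝ) {δ : ℝ} (hδ : 0 < δ)
    (hF : Summable fun n : ℕ => F n * (n : ℝ) ^ (-1 - δ))
    (hG : Summable fun n : ℕ => G n * (n : ℝ) ^ (-1 - δ)) :
    HasSum (fun n : ℕ => (∑ p ∈ n.divisorsAntidiagonal, F p.1 * G p.2) * (n : ℝ) ^ (-1 - δ))
      ((∑' n : ℕ, F n * (n : ℝ) ^ (-1 - δ)) * ∑' n : ℕ, G n * (n : ℝ) ^ (-1 - δ)) := by
  have h1 : LSeriesHasSum (fun n => (F n : ℂ)) ((1 + δ : ℝ) : ℂ)
      ((∑' n : ℕ, F n * (n : ℝ) ^ (-1 - δ) : ℝ) : ℂ) := by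
    unfold LSeriesHasSum
    rw [term_eq F δ hδ]
    exact Complex.hasSum_ofReal.2 hF.hasSum
  have h2 : LSeriesHasSum (fun n => (G n : ℂ)) ((1 + δ : ℝ) : ℂ)
      ((∑' n : ℕ, G n * (n : ℝ) ^ (-1 - δ) : ℝ) : ℂ) := by
    unfold LSeriesHasSum
    rw [term_eq G δ hδ]
    exact Complex.hasSum_ofReal.2 hG.hasSum
  have h3 := h1.convolution h2
  have h4 : LSeries.convolution (fun n => (F n : ℂ)) (fun n => (G n : ℂ)) =
      fun n => ((∑ p ∈ n.divisorsAntidiagonal, F p.1 * G p.2 : ℝ) : ℂ) := by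
    rw [LSeries.convolution_def]
    ext n
    push_cast
    rfl
  rw [h4] at h3
  unfold LSeriesHasSum at h3
  rw [term_eq _ δ hδ, ← Complex.ofReal_mul] at h3
  exact Complex.hasSum_ofReal.1 h3

/-- Leibniz rule. -/
lemma conv (f g : ℕ → ℝ) {δ : ℝ} (hδ : 0 < δ) (hf : Sm f δ) (hg : Sm g δ) (m : ℕ) :
    HasSum (fun n : ℕ => (∑ p ∈ n.divisorsAntidiagonal, f p.1 * g p.2) *
      (Real.log n ^ m * (n : ℝ) ^ (-1 - δ)))
      (∑ i ∈ range (m + 1), (m.choose i : ℝ) * (RD f i δ * RD g (m - i) δ)) := by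
  have h1 : ∀ i ∈ range (m + 1), HasSum (fun n : ℕ => (m.choose i : ℝ) *
      ((∑ p ∈ n.divisorsAntidiagonal, (f p.1 * Real.log p.1 ^ i) *
        (g p.2 * Real.log p.2 ^ (m - i))) * (n : ℝ) ^ (-1 - δ)))
      ((m.choose i : ℝ) * (RD f i δ * RD g (m - i) δ)) := by
    intro i _
    apply HasSum.mul_left
    have hF : Summable fun n : ℕ => (f n * Real.log n ^ i) * (n : ℝ) ^ (-1 - δ) := by
      refine (hf i).congr fun n => ?_
      ring
    have hG : Summable fun n : ℕ => (g n * Real.log n ^ (m - i)) * (n : ℝ) ^ (-1 - δ) := by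
      refine (hg (m - i)).congr fun n => ?_
      ring
    have h2 := conv0 (fun n => f n * Real.log n ^ i) (fun n => g n * Real.log n ^ (m - i)) hδ hF hG
    have h3 : RD f i δ = ∑' n : ℕ, (f n * Real.log n ^ i) * (n : ℝ) ^ (-1 - δ) :=
      tsum_congr fun n => by ring
    have h4 : RD g (m - i) δ = ∑' n : ℕ, (g n * Real.log n ^ (m - i)) * (n : ℝ) ^ (-1 - δ) :=
      tsum_congr fun n => by ring
    rw [h3, h4]
    exact h2
  have h2 := hasSum_sum h1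
  have h3 : (fun n : ℕ => ∑ i ∈ range (m + 1), (m.choose i : ℝ) *
      ((∑ p ∈ n.divisorsAntidiagonal, (f p.1 * Real.log p.1 ^ i) *
        (g p.2 * Real.log p.2 ^ (m - i))) * (n : ℝ) ^ (-1 - δ))) =
      fun n : ℕ => (∑ p ∈ n.divisorsAntidiagonal, f p.1 * g p.2) *
        (Real.log n ^ m * (n : ℝ) ^ (-1 - δ)) := by
    ext n
    have h4 : ∀ p ∈ n.divisorsAntidiagonal, Real.log n ^ m =
        ∑ i ∈ range (m + 1), Real.log p.1 ^ i * Real.log p.2 ^ (m - i) * (m.choose i : ℝ) := by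
      intro p hp
      rw [← add_pow]
      obtain ⟨hp1, hp2⟩ := Nat.mem_divisorsAntidiagonal.1 hp
      have h5 : p.1 ≠ 0 := by
        rintro h
        rw [h, zero_mul] at hp1
        exact hp2 hp1.symm
      have h6 : p.2 ≠ 0 := by
        rintro h
        rw [h, mul_zero] at hp1
        exact hp2 hp1.symm
      rw [← hp1, Nat.cast_mul, Real.log_mul (by exact_mod_cast h5) (by exact_mod_cast h6)]
    rw [Finset.sum_mul]
    have h7 : ∀ p ∈ n.divisorsAntidiagonal,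
        f p.1 * g p.2 * (Real.log n ^ m * (n : ℝ) ^ (-1 - δ)) =
        ∑ i ∈ range (m + 1), (m.choose i : ℝ) * ((f p.1 * Real.log p.1 ^ i) *
          (g p.2 * Real.log p.2 ^ (m - i)) * (n : ℝ) ^ (-1 - δ)) := by
      intro p hp
      rw [h4 p hp, Finset.sum_mul, Finset.mul_sum]
      exact Finset.sum_congr rfl fun i _ => by ring
    rw [Finset.sum_congr rfl h7, Finset.sum_comm]
    refine Finset.sum_congr rfl fun i _ => ?_
    rw [Finset.sum_mul, Finset.mul_sum]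
  rw [h3] at h2
  exact h2

lemma Sm_conv (f g : ℕ → ℝ) {δ : ℝ} (hδ : 0 < δ) (hf : Sm f δ) (hg : Sm g δ) :
    Sm (fun n => ∑ p ∈ n.divisorsAntidiagonal, f p.1 * g p.2) δ :=
  fun m => (conv f g hδ hf hg m).summable

lemma RD_conv (f g : ℕ → ℝ) {δ : ℝ} (hδ : 0 < δ) (hf : Sm f δ) (hg : Sm g δ) (m : ℕ) :
    RD (fun n => ∑ p ∈ n.divisorsAntidiagonal, f p.1 * g p.2) m δ =
      ∑ i ∈ range (m + 1), (m.choose i : ℝ) * (RD f i δ * RD g (m - i) δ) :=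
  (conv f g hδ hf hg m).tsum_eq

/-- If `f log = f ⋆ w` then the moments of `f` satisfy a recursion. -/
lemma RD_rec (f w : ℕ → ℝ) {δ : ℝ} (hδ : 0 < δ) (hf : Sm f δ) (hw : Sm w δ)
    (h : ∀ n, f n * Real.log n = ∑ p ∈ n.divisorsAntidiagonal, w p.1 * f p.2) (m : ℕ) :
    RD f (m + 1) δ =
      ∑ i ∈ range (m + 1), (m.choose i : ℝ) * (RD w i δ * RD f (m - i) δ) := by
  rw [← RD_conv w f hδ hw hf m]
  unfold RD
  refine tsum_congr fun n => ?_
  beta_reduce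
  rw [← h n]
  ring

lemma RD_mono {f g : ℕ → ℝ} {δ : ℝ} (hf : Sm f δ) (hg : Sm g δ) (h : ∀ n, f n ≤ g n) (j : ℕ) :
    RD f j δ ≤ RD g j δ :=
  Summable.tsum_le_tsum (fun n => mul_le_mul_of_nonneg_right (h n) (wt_nonneg j n δ)) (hf j) (hg j)

lemma RD_nonneg {f : ℕ → ℝ} {δ : ℝ} (h : ∀ n, 0 ≤ f n) (j : ℕ) : 0 ≤ RD f j δ :=
  tsum_nonneg fun n => mul_nonneg (h n) (wt_nonneg j n δ)

lemma RD_add {f g : ℕ → ℝ} {δ : ℝ} (hf : Sm f δ) (hg : Sm g δ) (j : ℕ) :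
    RD (fun n => f n + g n) j δ = RD f j δ + RD g j δ := by
  unfold RD
  rw [← (hf j).tsum_add (hg j)]
  exact tsum_congr fun n => by ring

end Pool.Agent.Lib.MP_509488_nt.Unif.M7
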