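import Mathlib
import Pool.Agent.Lib.MP_509488_nt.Unif.M7b

/-!
# Uniform bases, module 7, part c: real characters
-/

set_option autoImplicit false

namespace Pool.Agent.Lib.MP_509488_nt.Unif.M7

open Finset Filter Topology

open scoped ArithmeticFunction.zeta ArithmeticFunction.vonMangoldt

/-- the real part of a character -/
noncomputable def rho {r : ℕ} (ψ : DirichletCharacter ℂ r) (n : ℕ) : ℝ := (ψ (n : ZMod r)).re

variable {r : ℕ} {ψ : DirichletCharacter ℂ r}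

lemma quad (hψ : ψ ^ 2 = 1) (n : ℕ) :
    ψ (n : ZMod r) = 0 ∨ ψ (n : ZMod r) = 1 ∨ ψ (n : ZMod r) = -1 :=
  MulChar.isQuadratic_iff_sq_eq_one.mpr hψ _

lemma rho_coe (hψ : ψ ^ 2 = 1) (n : ℕ) : ((rho ψ n : ℝ) : ℂ) = ψ (n : ZMod r) := by
  unfold rho
  rcases quad hψ n with h | h | h <;> rw [h] <;> simp

lemma rho_cases (hψ : ψ ^ 2 = 1) (n : ℕ) : rho ψ n = 0 ∨ rho ψ n = 1 ∨ rho ψ n = -1 := by
  unfold rho
  rcases quad hψ n with h | h | h <;> rw [h] <;> simp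

lemma rho_abs (ψ : DirichletCharacter ℂ r) (n : ℕ) : |rho ψ n| ≤ 1 :=
  (Complex.abs_re_le_norm _).trans (DirichletCharacter.norm_le_one ψ _)

lemma rho_mul (hψ : ψ ^ 2 = 1) (m n : ℕ) : rho ψ (m * n) = rho ψ m * rho ψ n := by
  have : ((rho ψ (m * n) : ℝ) : ℂ) = ((rho ψ m * rho ψ n : ℝ) : ℂ) := by
    rw [Complex.ofReal_mul, rho_coe hψ, rho_coe hψ, rho_coe hψ, Nat.cast_mul, map_mul]
  exact_mod_cast this

lemma rho_one (ψ : DirichletCharacter ℂ r) : rho ψ 1 = 1 := by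
  unfold rho
  rw [Nat.cast_one, map_one, Complex.one_re]

lemma rho_pow (hψ : ψ ^ 2 = 1) (m k : ℕ) : rho ψ (m ^ k) = rho ψ m ^ k := by
  induction k with
  | zero => simp [rho_one]
  | succ k ih => rw [pow_succ, rho_mul hψ, ih, pow_succ]

lemma r_ne_one (h1 : ψ ≠ 1) : r ≠ 1 := by
  rintro rfl
  exact h1 (DirichletCharacter.level_one ψ)

lemma rho_zero (h1 : ψ ≠ 1) : rho ψ 0 = 0 := by
  unfold rho
  have : ψ ((0 : ℕ) : ZMod r) = 0 := by
    apply ψ.map_nonunit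
    rw [Nat.cast_zero, isUnit_zero_iff]
    intro h
    have h2 : Subsingleton (ZMod r) := subsingleton_of_zero_eq_one h
    exact r_ne_one h1 ((ZMod.subsingleton_iff).1 h2)
  rw [this, Complex.zero_re]

/-- the real arithmetic function -/
noncomputable def Rf (h1 : ψ ≠ 1) : ArithmeticFunction ℝ := ⟨rho ψ, rho_zero h1⟩

lemma Rf_apply (h1 : ψ ≠ 1) (n : ℕ) : Rf h1 n = rho ψ n := rfl

lemma Rf_mult (h1 : ψ ≠ 1) (hψ : ψ ^ 2 = 1) : (Rf h1).IsMultiplicative := by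
  rw [ArithmeticFunction.IsMultiplicative.iff_ne_zero]
  refine ⟨rho_one ψ, fun {m n} _ _ _ => rho_mul hψ m n⟩

lemma aa_eq (h1 : ψ ≠ 1) (n : ℕ) : aa (rho ψ) n = ((ζ : ArithmeticFunction ℝ) * Rf h1) n := by
  rw [ArithmeticFunction.coe_zeta_mul_apply]
  rfl

lemma aa_prime_pow (hψ : ψ ^ 2 = 1) {p : ℕ} (hp : p.Prime) (k : ℕ) :
    0 ≤ aa (rho ψ) (p ^ k) ∧ (Even k → 1 ≤ aa (rho ψ) (p ^ k)) := by
  unfold aa
  rw [Nat.sum_divisors_prime_pow hp]
  simp only [rho_pow hψ]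
  rcases rho_cases hψ p with h | h | h
  · rw [h]
    have : ∑ x ∈ range (k + 1), (0 : ℝ) ^ x = 1 := by
      rw [Finset.sum_range_succ']
      simp
    rw [this]
    exact ⟨by norm_num, fun _ => le_rfl⟩
  · rw [h]
    simp only [one_pow, Finset.sum_const, Finset.card_range, nsmul_eq_mul, mul_one]
    push_cast
    have : (0 : ℝ) ≤ k := Nat.cast_nonneg k
    exact ⟨by linarith, fun _ => by linarith⟩
  · rw [h, neg_one_geom_sum]
    constructor
    · split_ifs <;> norm_num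
    · intro hk
      rw [if_neg]
      rw [Nat.not_even_iff_odd]
      exact hk.add_one

lemma aa_nonneg (h1 : ψ ≠ 1) (hψ : ψ ^ 2 = 1) (n : ℕ) : 0 ≤ aa (rho ψ) n := by
  rcases eq_or_ne n 0 with rfl | hn
  · simp [aa]
  · have hm : ((ζ : ArithmeticFunction ℝ) * Rf h1).IsMultiplicative :=
      ArithmeticFunction.isMultiplicative_zeta.natCast.mul (Rf_mult h1 hψ)
    rw [aa_eq h1, hm.multiplicative_factorization _ hn]
    apply Finset.prod_nonneg
    intro p hp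
    beta_reduce
    rw [← aa_eq h1]
    exact (aa_prime_pow hψ (Nat.prime_of_mem_primeFactors hp) _).1

lemma aa_sq (h1 : ψ ≠ 1) (hψ : ψ ^ 2 = 1) (k : ℕ) (hk : 1 ≤ k) : 1 ≤ aa (rho ψ) (k ^ 2) := by
  have hn : k ^ 2 ≠ 0 := by positivity
  have hm : ((ζ : ArithmeticFunction ℝ) * Rf h1).IsMultiplicative :=
    ArithmeticFunction.isMultiplicative_zeta.natCast.mul (Rf_mult h1 hψ)
  rw [aa_eq h1, hm.multiplicative_factorization _ hn]
  unfold Finsupp.prod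
  apply Finset.prod_induction _ (fun x : ℝ => 1 ≤ x)
  · intro a b ha hb
    nlinarith
  · exact le_rfl
  · intro p hp
    beta_reduce
    rw [← aa_eq h1]
    apply (aa_prime_pow hψ (Nat.prime_of_mem_primeFactors hp) _).2
    rw [Nat.factorization_pow]
    simp

/-- the weight `Λ(n)(1 + ρ(n))` -/
noncomputable def ww (ψ : DirichletCharacter ℂ r) (n : ℕ) : ℝ := Λ n + rho ψ n * Λ n

lemma rec_zeta (n : ℕ) : (1 : ℝ) * Real.log n = ∑ p ∈ n.divisorsAntidiagonal, Λ p.1 * (1 : ℝ) := by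
  have h := congrArg (fun f : ArithmeticFunction ℝ => f n)
    ArithmeticFunction.vonMangoldt_mul_zeta
  simp only [ArithmeticFunction.mul_apply, ArithmeticFunction.log_apply] at h
  rw [one_mul, ← h]
  refine Finset.sum_congr rfl fun p hp => ?_
  obtain ⟨hp1, hp2⟩ := Nat.mem_divisorsAntidiagonal.1 hp
  have h6 : p.2 ≠ 0 := by
    rintro h
    rw [h, mul_zero] at hp1
    exact hp2 hp1.symm
  rw [ArithmeticFunction.natCoe_apply, ArithmeticFunction.zeta_apply, if_neg h6, Nat.cast_one]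

lemma rec_aa (h1 : ψ ≠ 1) (hψ : ψ ^ 2 = 1) (n : ℕ) :
    aa (rho ψ) n * Real.log n = ∑ p ∈ n.divisorsAntidiagonal, ww ψ p.1 * aa (rho ψ) p.2 := by
  set W : ArithmeticFunction ℝ := Λ + (Rf h1).pmul Λ with hW
  have e1 : ∑ p ∈ n.divisorsAntidiagonal, ww ψ p.1 * aa (rho ψ) p.2 =
      (W * ((ζ : ArithmeticFunction ℝ) * Rf h1)) n := by
    rw [ArithmeticFunction.mul_apply]
    refine Finset.sum_congr rfl fun p _ => ?_
    rw [aa_eq h1, hW]
    simp only [ArithmeticFunction.add_apply, ArithmeticFunction.pmul_apply, Rf_apply, ww]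
  have e2 : (Rf h1).pmul Λ * Rf h1 = (Rf h1).pmul ArithmeticFunction.log := by
    ext m
    rw [ArithmeticFunction.mul_apply, ArithmeticFunction.pmul_apply, ArithmeticFunction.log_apply,
      ← one_mul (Real.log m), rec_zeta m, Finset.mul_sum]
    refine Finset.sum_congr rfl fun p hp => ?_
    obtain ⟨hp1, hp2⟩ := Nat.mem_divisorsAntidiagonal.1 hp
    rw [ArithmeticFunction.pmul_apply, Rf_apply, Rf_apply, Rf_apply, ← hp1, rho_mul hψ]
    ring
  have e3 : W * ((ζ : ArithmeticFunction ℝ) * Rf h1) =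
      ArithmeticFunction.log * Rf h1 + (ζ : ArithmeticFunction ℝ) *
        (Rf h1).pmul ArithmeticFunction.log := by
    have f1 : Λ * ((ζ : ArithmeticFunction ℝ) * Rf h1) = ArithmeticFunction.log * Rf h1 := by
      rw [← mul_assoc, ArithmeticFunction.vonMangoldt_mul_zeta]
    have f2 : (Rf h1).pmul Λ * ((ζ : ArithmeticFunction ℝ) * Rf h1) =
        (ζ : ArithmeticFunction ℝ) * ((Rf h1).pmul Λ * Rf h1) := by ring
    rw [hW, add_mul, f1, f2, e2]
  rw [e1, e3, ArithmeticFunction.add_apply, ArithmeticFunction.coe_zeta_mul_apply,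
    mul_comm ArithmeticFunction.log, ArithmeticFunction.mul_apply,
    Nat.sum_divisorsAntidiagonal (fun x y => Rf h1 x * ArithmeticFunction.log y),
    ← Finset.sum_add_distrib, aa, Finset.sum_mul]
  refine Finset.sum_congr rfl fun d hd => ?_
  have hd' := Nat.dvd_of_mem_divisors hd
  have hn : n ≠ 0 := (Nat.mem_divisors.1 hd).2
  have hd0 : d ≠ 0 := by
    rintro rfl
    exact hn (Nat.eq_zero_of_zero_dvd hd')
  rw [ArithmeticFunction.pmul_apply, ArithmeticFunction.log_apply, ArithmeticFunction.log_apply,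
    Rf_apply, Nat.cast_div hd' (by exact_mod_cast hd0),
    Real.log_div (by exact_mod_cast hn) (by exact_mod_cast hd0)]
  ring

lemma mangoldt_abs (n : ℕ) : |Λ n| ≤ 1 * Real.log n := by
  rw [abs_of_nonneg ArithmeticFunction.vonMangoldt_nonneg, one_mul]
  exact ArithmeticFunction.vonMangoldt_le_log

lemma twist_abs (ψ : DirichletCharacter ℂ r) (n : ℕ) : |rho ψ n * Λ n| ≤ 1 * Real.log n := by
  rw [abs_mul]
  calc |rho ψ n| * |Λ n| ≤ 1 * |Λ n| := mul_le_mul_of_nonneg_right (rho_abs ψ n) (abs_nonneg _)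
    _ ≤ 1 * Real.log n := by
      rw [one_mul]
      exact mangoldt_abs n

variable {δ : ℝ}

lemma Sm_const (hδ : 0 < δ) : Sm (fun _ => (1 : ℝ)) δ := Sm_of_bounded (C := 1) (by simp) hδ

lemma Sm_rho (ψ : DirichletCharacter ℂ r) (hδ : 0 < δ) : Sm (rho ψ) δ :=
  Sm_of_bounded (rho_abs ψ) hδ

lemma Sm_mangoldt (hδ : 0 < δ) : Sm (fun n => Λ n) δ := Sm_of_log mangoldt_abs hδ

lemma Sm_twist (ψ : DirichletCharacter ℂ r) (hδ : 0 < δ) : Sm (fun n => rho ψ n * Λ n) δ :=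
  Sm_of_log (twist_abs ψ) hδ

lemma Sm_ww (ψ : DirichletCharacter ℂ r) (hδ : 0 < δ) : Sm (ww ψ) δ := fun j => by
  refine ((Sm_mangoldt hδ j).add (Sm_twist ψ hδ j)).congr fun n => ?_
  unfold ww
  ring

lemma aa_conv (ψ : DirichletCharacter ℂ r) :
    aa (rho ψ) = fun n => ∑ p ∈ n.divisorsAntidiagonal, rho ψ p.1 * (1 : ℝ) := by
  ext n
  rw [Nat.sum_divisorsAntidiagonal (fun x _ => rho ψ x * (1 : ℝ))]
  simp [aa]

lemma Sm_aa (ψ : DirichletCharacter ℂ r) (hδ : 0 < δ) : Sm (aa (rho ψ)) δ := by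
  rw [aa_conv]
  exact Sm_conv (rho ψ) (fun _ => 1) hδ (Sm_rho ψ hδ) (Sm_const hδ)

lemma ZZ_eq (j : ℕ) (δ : ℝ) : ZZ j δ = RD (fun _ => 1) j δ := by
  unfold ZZ RD
  simp only [one_mul]

lemma MM_eq (j : ℕ) (δ : ℝ) : MM j δ = RD (fun n => Λ n) j δ := rfl

lemma LL_re (ψ : DirichletCharacter ℂ r) (hψ : ψ ^ 2 = 1) (j : ℕ) (δ : ℝ) :
    LL ψ j δ = ((RD (rho ψ) j δ : ℝ) : ℂ) := by
  unfold LL DS RD
  rw [Complex.ofReal_tsum]
  refine tsum_congr fun n => ?_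
  beta_reduce
  rw [← rho_coe hψ]
  push_cast
  ring

lemma VV_re (ψ : DirichletCharacter ℂ r) (hψ : ψ ^ 2 = 1) (j : ℕ) (δ : ℝ) :
    VV ψ j δ = ((RD (fun n => rho ψ n * Λ n) j δ : ℝ) : ℂ) := by
  unfold VV DS RD
  rw [Complex.ofReal_tsum]
  refine tsum_congr fun n => ?_
  beta_reduce
  rw [← rho_coe hψ]
  push_cast
  ring

lemma W_eq (ψ : DirichletCharacter ℂ r) (hψ : ψ ^ 2 = 1) (j : ℕ) (hδ : 0 < δ) :
    MM j δ + (VV ψ j δ).re = RD (ww ψ) j δ := by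
  rw [VV_re ψ hψ j δ, Complex.ofReal_re, MM_eq, ← RD_add (Sm_mangoldt hδ) (Sm_twist ψ hδ)]
  rfl

/-- `H_m = Σ C(m,i) L_i Z_{m-i}` -/
lemma H_eq (ψ : DirichletCharacter ℂ r) (hδ : 0 < δ) (m : ℕ) :
    RD (aa (rho ψ)) m δ =
      ∑ i ∈ range (m + 1), (m.choose i : ℝ) * (RD (rho ψ) i δ * ZZ (m - i) δ) := by
  simp only [ZZ_eq]
  rw [aa_conv]
  exact RD_conv (rho ψ) (fun _ => 1) hδ (Sm_rho ψ hδ) (Sm_const hδ) m

lemma H_rec (h1 : ψ ≠ 1) (hψ : ψ ^ 2 = 1) (hδ : 0 < δ) (m : ℕ) :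
    RD (aa (rho ψ)) (m + 1) δ =
      ∑ i ∈ range (m + 1), (m.choose i : ℝ) * (RD (ww ψ) i δ * RD (aa (rho ψ)) (m - i) δ) :=
  RD_rec _ _ hδ (Sm_aa ψ hδ) (Sm_ww ψ hδ) (rec_aa h1 hψ) m

lemma Z_rec (hδ : 0 < δ) (m : ℕ) :
    ZZ (m + 1) δ = ∑ i ∈ range (m + 1), (m.choose i : ℝ) * (MM i δ * ZZ (m - i) δ) := by
  simp only [ZZ_eq, MM_eq]
  exact RD_rec _ _ hδ (Sm_const hδ) (Sm_mangoldt hδ) rec_zeta m

lemma MM_nonneg (j : ℕ) (δ : ℝ) : 0 ≤ MM j δ :=
  RD_nonneg (fun _ => ArithmeticFunction.vonMangoldt_nonneg) j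

lemma ZZ_nonneg (j : ℕ) (δ : ℝ) : 0 ≤ ZZ j δ := by
  rw [ZZ_eq]
  exact RD_nonneg (fun _ => by norm_num) j

lemma MM_le (hδ : 0 < δ) (i : ℕ) : MM i δ * ZZ 0 δ ≤ ZZ (i + 1) δ := by
  rw [Z_rec hδ]
  have h := Finset.single_le_sum (f := fun l => (i.choose l : ℝ) * (MM l δ * ZZ (i - l) δ))
    (fun l _ => mul_nonneg (Nat.cast_nonneg _) (mul_nonneg (MM_nonneg l δ) (ZZ_nonneg _ δ)))
    (Finset.self_mem_range_succ i)
  simpa using h

lemma ww_bounds (ψ : DirichletCharacter ℂ r) (n : ℕ) : 0 ≤ ww ψ n ∧ ww ψ n ≤ 2 * Λ n := by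
  unfold ww
  have h1 := (abs_le.1 (rho_abs ψ n))
  have h2 : 0 ≤ Λ n := ArithmeticFunction.vonMangoldt_nonneg
  constructor <;> nlinarith

lemma W_nonneg (ψ : DirichletCharacter ℂ r) (j : ℕ) (δ : ℝ) : 0 ≤ RD (ww ψ) j δ :=
  RD_nonneg (fun n => (ww_bounds ψ n).1) j

lemma W_le (ψ : DirichletCharacter ℂ r) (j : ℕ) (hδ : 0 < δ) : RD (ww ψ) j δ ≤ 2 * MM j δ := by
  have h := RD_mono (Sm_ww ψ hδ) (g := fun n => 2 * Λ n) (fun j => by
    refine ((Sm_mangoldt hδ j).mul_left 2).congr fun n => ?_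
    ring) (fun n => (ww_bounds ψ n).2) j
  refine h.trans (le_of_eq ?_)
  rw [MM_eq]
  unfold RD
  rw [← tsum_mul_left]
  exact tsum_congr fun n => by ring

lemma sum_period (h1 : ψ ≠ 1) (hr : 1 ≤ r) (a : ℕ) : ∑ i ∈ range r, rho ψ (a + i) = 0 := by
  have : NeZero r := ⟨by omega⟩
  have h2 : ∑ x : ZMod r, ψ x = 0 := MulChar.sum_eq_zero_of_ne_one h1
  have h3 : ∑ i ∈ range r, ψ (((a + i : ℕ) : ZMod r)) = 0 := by
    rw [← h2]
    apply Finset.sum_bij' (i := fun i _ => ((a + i : ℕ) : ZMod r))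
      (j := fun x _ => (x - a : ZMod r).val)
    · intro i _
      exact Finset.mem_univ _
    · intro x _
      exact Finset.mem_range.2 (ZMod.val_lt _)
    · intro i hi
      have : (((a + i : ℕ) : ZMod r) - a) = (i : ZMod r) := by
        push_cast
        ring
      rw [this, ZMod.val_natCast, Nat.mod_eq_of_lt (Finset.mem_range.1 hi)]
    · intro x _
      push_cast
      rw [ZMod.natCast_zmod_val]
      ring
    · intro i _
      rfl
  have h4 := congrArg Complex.re h3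
  rw [Complex.re_sum, Complex.zero_re] at h4
  exact h4

lemma sum_bound (h1 : ψ ≠ 1) (hr : 1 ≤ r) (N : ℕ) (a : ℕ) :
    |∑ i ∈ range N, rho ψ (a + i)| ≤ r := by
  induction N using Nat.strong_induction_on generalizing a with
  | _ N ih =>
    rcases lt_or_ge N r with h | h
    · refine (Finset.abs_sum_le_sum_abs _ _).trans ?_
      calc ∑ i ∈ range N, |rho ψ (a + i)| ≤ ∑ i ∈ range N, (1 : ℝ) :=
            Finset.sum_le_sum fun i _ => rho_abs ψ _
        _ = N := by simp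
        _ ≤ r := by exact_mod_cast h.le
    · obtain ⟨M, rfl⟩ := Nat.exists_eq_add_of_le h
      rw [Finset.sum_range_add, sum_period h1 hr, zero_add]
      have := ih M (by omega) (a + r)
      simpa only [add_assoc] using this

end Pool.Agent.Lib.MP_509488_nt.Unif.M7
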