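import Mathlib
import Pool.Agent.Lib.MP_509488_nt.Unif.M7c

/-!
# Uniform bases, module 7, part d: the lower bound for the moments, and the numerical core
-/

set_option autoImplicit false

namespace Pool.Agent.Lib.MP_509488_nt.Unif.M7

open Finset Filter Topology

lemma logineq {v δ : ℝ} (hv : 0 < v) (hδ : 0 < δ) (hδ1 : δ ≤ 1) : (1 + δ) * Real.log v ≤ v := by
  rcases le_or_gt (Real.log v) 0 with h | h
  · have : (1 + δ) * Real.log v ≤ 0 := mul_nonpos_of_nonneg_of_nonpos (by linarith) h
    linarith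
  · have h1 : Real.log (v / 2) ≤ v / 2 - 1 := Real.log_le_sub_one_of_pos (by positivity)
    rw [Real.log_div hv.ne' (by norm_num)] at h1
    have h2 : Real.log 2 ≤ 1 := by
      have := Real.log_two_lt_d9
      linarith
    nlinarith

/-- The lower bound for the moments of `a = 1 * ψ`. -/
lemma H_lower {r : ℕ} {ψ : DirichletCharacter ℂ r} (h1 : ψ ≠ 1) (hψ : ψ ^ 2 = 1) (hr : 1 ≤ r)
    (L : ℝ) (hL : 1 ≤ L)
    (hc : (r : ℝ) * Real.exp (-L) + 4 * Real.exp (-L / 2) ≤ 1 / (72 * r)) (J : ℕ) :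
    (L / 4) ^ J / (200 * r) ≤ RD (aa (rho ψ)) J (1 / L) := by
  have hr0 : (0 : ℝ) < r := by exact_mod_cast hr
  have hL0 : 0 < L := by linarith
  set t : ℝ := 1 - Real.exp (-L) with ht
  have hex : 0 < Real.exp (-L) := Real.exp_pos _
  have hex1 : Real.exp (-L) < 1 := by
    rw [← Real.exp_zero]
    exact Real.exp_lt_exp.2 (by linarith)
  have ht0 : 0 < t := by rw [ht]; linarith
  have ht1 : t < 1 := by rw [ht]; linarith
  have h1t : 1 - t = Real.exp (-L) := by rw [ht]; ring
  set M : ℕ := ⌈Real.exp (L / 4)⌉₊ with hM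
  have hρ := rho_abs ψ
  have hmass := mass hρ r hr (fun N => by
    have := sum_bound h1 hr N 1
    simpa only [add_comm] using this) (aa_nonneg h1 hψ) (aa_sq h1 hψ) ht0 ht1
  have hδ : 0 < 1 / L := by positivity
  have hδ1 : 1 / L ≤ 1 := by rw [div_le_one hL0]; exact hL
  have hpt : ∀ n : ℕ, (L / 4) ^ J * Real.exp (-(L + 1)) *
      (aa (rho ψ) n * t ^ n - if n < M then (n : ℝ) else 0) ≤
      aa (rho ψ) n * (Real.log n ^ J * (n : ℝ) ^ (-1 - 1 / L)) := by
    intro n
    have ha := aa_nonneg h1 hψ n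
    rcases lt_or_ge n M with hn | hn
    · rw [if_pos hn]
      have e1 : aa (rho ψ) n * t ^ n ≤ n := by
        calc aa (rho ψ) n * t ^ n ≤ n * 1 := by
              apply mul_le_mul ((le_abs_self _).trans (aa_abs_le hρ n))
                (pow_le_one₀ ht0.le ht1.le) (by positivity) (Nat.cast_nonneg n)
          _ = n := mul_one _
      have e2 : (L / 4) ^ J * Real.exp (-(L + 1)) * (aa (rho ψ) n * t ^ n - (n : ℝ)) ≤ 0 :=
        mul_nonpos_of_nonneg_of_nonpos (by positivity) (by linarith)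
      exact e2.trans (mul_nonneg ha (wt_nonneg J n _))
    · rw [if_neg (not_lt.2 hn), sub_zero]
      have hn1 : Real.exp (L / 4) ≤ n := (Nat.le_ceil _).trans (by exact_mod_cast hn)
      have hn0 : (0 : ℝ) < n := lt_of_lt_of_le (Real.exp_pos _) hn1
      have hlog : L / 4 ≤ Real.log n := by
        rw [Real.le_log_iff_exp_le hn0]
        exact hn1
      have e1 : (L / 4) ^ J ≤ Real.log n ^ J := pow_le_pow_left₀ (by positivity) hlog J
      have e2 : Real.exp (-(L + 1)) * t ^ n ≤ (n : ℝ) ^ (-1 - 1 / L) := by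
        have f1 : t ≤ Real.exp (-Real.exp (-L)) := by
          have := Real.add_one_le_exp (-Real.exp (-L))
          rw [ht]
          linarith
        have f2 : t ^ n ≤ Real.exp (-(n * Real.exp (-L))) := by
          calc t ^ n ≤ Real.exp (-Real.exp (-L)) ^ n := pow_le_pow_left₀ ht0.le f1 n
            _ = Real.exp (-(n * Real.exp (-L))) := by
              rw [← Real.exp_nat_mul]
              congr 1
              ring
        have f3 := logineq (v := n * Real.exp (-L)) (by positivity) hδ hδ1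
        rw [Real.log_mul hn0.ne' hex.ne', Real.log_exp] at f3
        rw [Real.rpow_def_of_pos hn0]
        calc Real.exp (-(L + 1)) * t ^ n
            ≤ Real.exp (-(L + 1)) * Real.exp (-(n * Real.exp (-L))) :=
              mul_le_mul_of_nonneg_left f2 (Real.exp_pos _).le
          _ = Real.exp (-(L + 1) + -(n * Real.exp (-L))) := by rw [Real.exp_add]
          _ ≤ Real.exp (Real.log n * (-1 - 1 / L)) := by
              apply Real.exp_le_exp.2
              have f4 : (1 + 1 / L) * (Real.log n + -L) = -(Real.log n * (-1 - 1 / L)) -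
                (L + 1) := by
                field_simp
                ring
              rw [f4] at f3
              linarith
      calc (L / 4) ^ J * Real.exp (-(L + 1)) * (aa (rho ψ) n * t ^ n)
          = aa (rho ψ) n * ((L / 4) ^ J * (Real.exp (-(L + 1)) * t ^ n)) := by ring
        _ ≤ aa (rho ψ) n * (Real.log n ^ J * (n : ℝ) ^ (-1 - 1 / L)) := by
            apply mul_le_mul_of_nonneg_left _ ha
            exact mul_le_mul e1 e2 (by positivity) (by positivity)
  have hfin : HasSum (fun n : ℕ => if n < M then (n : ℝ) else 0) (∑ n ∈ range M, (n : ℝ)) := by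
    have : HasSum (fun n : ℕ => if n < M then (n : ℝ) else 0)
        (∑ n ∈ range M, if n < M then (n : ℝ) else 0) :=
      hasSum_sum_of_ne_finset_zero (fun n hn => if_neg (by simpa using hn))
    rw [Finset.sum_congr rfl (fun n hn => if_pos (Finset.mem_range.1 hn))] at this
    exact this
  have hsum : HasSum (fun n : ℕ => (L / 4) ^ J * Real.exp (-(L + 1)) *
      (aa (rho ψ) n * t ^ n - if n < M then (n : ℝ) else 0))
      ((L / 4) ^ J * Real.exp (-(L + 1)) *
        (∑' n : ℕ, aa (rho ψ) n * t ^ n - ∑ n ∈ range M, (n : ℝ))) :=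
    ((summable_aa hρ ht0 ht1).hasSum.sub hfin).mul_left _
  have hle := hasSum_le hpt hsum (Sm_aa ψ hδ J).hasSum
  refine le_trans ?_ hle
  set S : ℝ := ∑' n : ℕ, aa (rho ψ) n * t ^ n with hS
  rw [h1t] at hmass
  have hMle : (M : ℝ) ≤ 2 * Real.exp (L / 4) := by
    have e1 : (M : ℝ) < Real.exp (L / 4) + 1 := Nat.ceil_lt_add_one (Real.exp_pos _).le
    have e2 : 1 ≤ Real.exp (L / 4) := Real.one_le_exp (by positivity)
    linarith
  have hsumM : ∑ n ∈ range M, (n : ℝ) ≤ 4 * Real.exp (L / 2) := by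
    calc ∑ n ∈ range M, (n : ℝ) ≤ ∑ n ∈ range M, (M : ℝ) :=
          Finset.sum_le_sum fun n hn => by exact_mod_cast (Finset.mem_range.1 hn).le
      _ = (M : ℝ) ^ 2 := by
          rw [Finset.sum_const, Finset.card_range, nsmul_eq_mul]
          ring
      _ ≤ (2 * Real.exp (L / 4)) ^ 2 := pow_le_pow_left₀ (Nat.cast_nonneg _) hMle 2
      _ = 4 * Real.exp (L / 2) := by
          have e0 : Real.exp (L / 4) ^ 2 = Real.exp (L / 2) := by
            rw [← Real.exp_nat_mul]
            congr 1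
            push_cast
            ring
          rw [mul_pow, e0]
          norm_num
  have e3 : Real.exp (-L) * ∑ n ∈ range M, (n : ℝ) ≤ 4 * Real.exp (-L / 2) := by
    calc Real.exp (-L) * ∑ n ∈ range M, (n : ℝ) ≤ Real.exp (-L) * (4 * Real.exp (L / 2)) :=
          mul_le_mul_of_nonneg_left hsumM hex.le
      _ = 4 * (Real.exp (-L) * Real.exp (L / 2)) := by ring
      _ = 4 * Real.exp (-L / 2) := by
          rw [← Real.exp_add]
          congr 2
          ring
  have e4 : 1 / (72 * (r : ℝ)) ≤ Real.exp (-L) * (S - ∑ n ∈ range M, (n : ℝ)) := by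
    have e5 : 1 / (36 * (r : ℝ)) = 1 / (72 * r) + 1 / (72 * r) := by
      field_simp
      norm_num
    rw [mul_sub]
    linarith
  have e6 : Real.exp (-(L + 1)) = Real.exp (-1) * Real.exp (-L) := by
    rw [← Real.exp_add]
    congr 1
    ring
  have e7 : (72 : ℝ) / 200 ≤ Real.exp (-1) := by
    rw [Real.exp_neg, le_inv_comm₀ (by norm_num) (Real.exp_pos _)]
    have := Real.exp_one_lt_d9
    norm_num
    linarith
  calc (L / 4) ^ J / (200 * (r : ℝ)) = (L / 4) ^ J * (72 / 200 * (1 / (72 * r))) := by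
        field_simp
    _ ≤ (L / 4) ^ J * (Real.exp (-1) * (Real.exp (-L) * (S - ∑ n ∈ range M, (n : ℝ)))) := by
        apply mul_le_mul_of_nonneg_left _ (by positivity)
        exact mul_le_mul e7 e4 (by positivity) (Real.exp_pos _).le
    _ = (L / 4) ^ J * Real.exp (-(L + 1)) * (S - ∑ n ∈ range M, (n : ℝ)) := by
        rw [e6]
        ring

/-- The numerical core of the argument. -/
lemma core (A k₀ J : ℕ) (hJ : 14 * k₀ ^ 2 ≤ J + 1) (hJ' : k₀ + A + 1 ≤ J) (c : ℝ) (hc : 1 ≤ c) :
    ∃ K : ℝ, 1 ≤ K ∧ ∀ L T : ℝ, 1 ≤ T → K * T ^ (J + 2) ≤ L → ∀ H W Z l Mm : ℕ → ℝ,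
      (∀ m ≤ J + 1, H m = ∑ i ∈ range (m + 1), (m.choose i : ℝ) * (l i * Z (m - i))) →
      (∀ i ≤ J + 1, |l i| ≤ c * T ^ (i + 1)) →
      (∀ i ≤ J + 1, |Z i - (i.factorial : ℝ) * L ^ (i + 1)| ≤ c) →
      L ^ (J + 1) / (200 * 4 ^ (J + 1)) ≤ L ^ A * H (J + 1) →
      H (J + 1) = ∑ i ∈ range (J + 1), (J.choose i : ℝ) * (W i * H (J - i)) →
      (∀ i, 0 ≤ W i) → (∀ i, W i ≤ 2 * Mm i) → (∀ i, Mm i * Z 0 ≤ Z (i + 1)) → (∀ m, 0 ≤ H m) →
      ∃ i, k₀ ≤ i ∧ i ≤ J ∧ L ^ i ≤ L ^ (A + 5) * W i := by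
  obtain ⟨κ, hκ⟩ : ∃ κ : ℝ, κ = 1 / (200 * 4 ^ (J + 1)) := ⟨_, rfl⟩
  have hκ0 : 0 < κ := by rw [hκ]; positivity
  have hκ1 : κ ≤ 1 := by
    rw [hκ, div_le_one (by positivity)]
    have : (1 : ℝ) ≤ 4 ^ (J + 1) := one_le_pow₀ (by norm_num)
    linarith
  obtain ⟨K1, hK1⟩ : ∃ K1 : ℝ, K1 = 2 ^ (J + 1) * c ^ 2 + (J + 1).factorial * (J + 2) * c :=
    ⟨_, rfl⟩
  have hfM : (1 : ℝ) ≤ ((J + 1).factorial : ℝ) := by exact_mod_cast Nat.factorial_pos _
  have hK1' : (J + 2) * c ≤ K1 := by
    rw [hK1]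
    have : ((J : ℝ) + 2) * c ≤ (J + 1).factorial * (((J : ℝ) + 2) * c) :=
      le_mul_of_one_le_left (by positivity) hfM
    have h2 : (0 : ℝ) ≤ 2 ^ (J + 1) * c ^ 2 := by positivity
    linarith
  have hK1'' : c ≤ K1 := by
    have : c ≤ (J + 2) * c := le_mul_of_one_le_left (by linarith) (by
      have : (0 : ℝ) ≤ J := Nat.cast_nonneg J
      linarith)
    linarith
  refine ⟨8 * (J + 1).factorial * K1 / κ + 2 * ((J + 1) * (2 ^ (J + 1) * (J + 1).factorial)) / κ +
    4 * c, ?_, ?_⟩
  · have h1 : 0 ≤ 8 * ((J + 1).factorial : ℝ) * K1 / κ := by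
      have : 0 ≤ K1 := by linarith
      positivity
    have h2 : 0 ≤ 2 * (((J : ℝ) + 1) * (2 ^ (J + 1) * (J + 1).factorial)) / κ := by positivity
    linarith
  intro L T hT hKT H W Z l Mm hH hl hZ hlow hrec hW0 hWM hM hHnn
  have hc0 : 0 < c := by linarith
  have hK10 : 0 < K1 := by linarith
  obtain ⟨F, hF⟩ : ∃ F : ℝ, F = ((J + 1).factorial : ℝ) := ⟨_, rfl⟩
  rw [← hF] at hfM hK1 hKT
  have hF0 : 0 < F := by linarith
  obtain ⟨P, hP⟩ : ∃ P : ℝ, P = T ^ (J + 2) := ⟨_, rfl⟩
  rw [← hP] at hKT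
  have hP1 : 1 ≤ P := by rw [hP]; exact one_le_pow₀ hT
  have hTP : ∀ i ≤ J + 1, T ^ (i + 1) ≤ P := fun i hi => by
    rw [hP]
    exact pow_le_pow_right₀ hT (by omega)
  have g1 : 0 ≤ 8 * F * K1 / κ := by positivity
  have g2 : 0 ≤ 2 * (((J : ℝ) + 1) * (2 ^ (J + 1) * F)) / κ := by positivity
  have hKP : 8 * F * K1 / κ * P + 2 * (((J : ℝ) + 1) * (2 ^ (J + 1) * F)) / κ + 4 * c ≤ L := by
    have : 8 * F * K1 / κ * P + 2 * (((J : ℝ) + 1) * (2 ^ (J + 1) * F)) / κ + 4 * c ≤
        (8 * F * K1 / κ + 2 * (((J : ℝ) + 1) * (2 ^ (J + 1) * F)) / κ + 4 * c) * P := by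
      nlinarith
    exact this.trans hKT
  have hL4 : 4 * c ≤ L := by
    have : 0 ≤ 8 * F * K1 / κ * P := by positivity
    linarith
  have hL1 : 1 ≤ L := by linarith
  have hL0 : 0 < L := by linarith
  obtain ⟨E, hE⟩ : ∃ E : ℝ, E = K1 * P := ⟨_, rfl⟩
  have hE0 : 0 < E := by rw [hE]; positivity
  have hEL : 8 * F * E ≤ κ * L := by
    have h1 : 8 * F * K1 / κ * P ≤ L := by linarith
    have h2 : 8 * F * K1 / κ * P = 8 * F * E / κ := by rw [hE]; ring
    rw [h2, div_le_iff₀ hκ0] at h1
    linarith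
  have hκL : 2 ^ (J + 1) < κ * L := by
    have h1 : 2 * (((J : ℝ) + 1) * (2 ^ (J + 1) * F)) / κ ≤ L := by
      have : 0 ≤ 8 * F * K1 / κ * P := by positivity
      linarith
    rw [div_le_iff₀ hκ0] at h1
    have h2 : (2 : ℝ) ^ (J + 1) < 2 * (((J : ℝ) + 1) * (2 ^ (J + 1) * F)) := by
      have h3 : (0 : ℝ) < 2 ^ (J + 1) := by positivity
      have h4 : (2 : ℝ) ^ (J + 1) ≤ ((J : ℝ) + 1) * (2 ^ (J + 1) * F) := by
        have h5 : (1 : ℝ) ≤ (J : ℝ) + 1 := by
          have : (0 : ℝ) ≤ J := Nat.cast_nonneg J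
          linarith
        calc (2 : ℝ) ^ (J + 1) ≤ 2 ^ (J + 1) * F := le_mul_of_one_le_right h3.le hfM
          _ ≤ ((J : ℝ) + 1) * (2 ^ (J + 1) * F) := le_mul_of_one_le_left (by positivity) h5
      linarith
    linarith
  have hfac : ∀ m ≤ J + 1, (m.factorial : ℝ) ≤ F := fun m hm => by
    rw [hF]
    exact_mod_cast Nat.factorial_le hm
  have hfac1 : ∀ m : ℕ, (1 : ℝ) ≤ (m.factorial : ℝ) := fun m => by
    exact_mod_cast Nat.factorial_pos m
  have hlP : ∀ i ≤ J + 1, |l i| ≤ c * P := fun i hi =>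
    (hl i hi).trans (mul_le_mul_of_nonneg_left (hTP i hi) hc0.le)
  obtain ⟨e, he⟩ : ∃ e : ℝ, e = ∑ i ∈ range (J + 2), l i / ((i.factorial : ℝ) * L ^ i) := ⟨_, rfl⟩
  have hA : ∀ m ≤ J + 1, |H m - (m.factorial : ℝ) * L ^ (m + 1) * e| ≤ E := by
    intro m hm
    have s1 : (m.factorial : ℝ) * L ^ (m + 1) * e =
        ∑ i ∈ range (m + 1), (m.choose i : ℝ) *
          (l i * (((m - i).factorial : ℝ) * L ^ (m - i + 1))) +
        ∑ i ∈ Ico (m + 1) (J + 2), (m.factorial : ℝ) * L ^ (m + 1) *
          (l i / ((i.factorial : ℝ) * L ^ i)) := by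
      rw [he, Finset.mul_sum, ← Finset.sum_range_add_sum_Ico _ (by omega : m + 1 ≤ J + 2)]
      congr 1
      refine Finset.sum_congr rfl fun i hi => ?_
      have hi' : i ≤ m := by
        have := Finset.mem_range.1 hi
        omega
      have f1 : (m.choose i : ℝ) * i.factorial * (m - i).factorial = m.factorial := by
        exact_mod_cast Nat.choose_mul_factorial_mul_factorial hi'
      have f2 : L ^ (m + 1) = L ^ i * L ^ (m - i + 1) := by
        rw [← pow_add]
        congr 1
        omega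
      have f3 : (i.factorial : ℝ) ≠ 0 := by
        have := hfac1 i
        linarith
      rw [← f1, f2]
      field_simp
    have s2 : H m - (m.factorial : ℝ) * L ^ (m + 1) * e =
        ∑ i ∈ range (m + 1), (m.choose i : ℝ) *
          (l i * (Z (m - i) - ((m - i).factorial : ℝ) * L ^ (m - i + 1))) -
        ∑ i ∈ Ico (m + 1) (J + 2), (m.factorial : ℝ) * L ^ (m + 1) *
          (l i / ((i.factorial : ℝ) * L ^ i)) := by
      rw [hH m hm, s1, ← sub_sub, ← Finset.sum_sub_distrib]
      congr 1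
      exact Finset.sum_congr rfl fun i _ => by ring
    have s3 : |∑ i ∈ range (m + 1), (m.choose i : ℝ) *
        (l i * (Z (m - i) - ((m - i).factorial : ℝ) * L ^ (m - i + 1)))| ≤
        2 ^ (J + 1) * (c * P * c) := by
      refine (Finset.abs_sum_le_sum_abs _ _).trans ?_
      calc ∑ i ∈ range (m + 1), |(m.choose i : ℝ) *
            (l i * (Z (m - i) - ((m - i).factorial : ℝ) * L ^ (m - i + 1)))|
          ≤ ∑ i ∈ range (m + 1), (m.choose i : ℝ) * (c * P * c) := by
            refine Finset.sum_le_sum fun i hi => ?_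
            have hi' : i ≤ m := by
              have := Finset.mem_range.1 hi
              omega
            rw [abs_mul, abs_mul, Nat.abs_cast]
            apply mul_le_mul_of_nonneg_left _ (Nat.cast_nonneg _)
            exact mul_le_mul (hlP i (by omega)) (hZ (m - i) (by omega)) (abs_nonneg _)
              (by positivity)
        _ = 2 ^ m * (c * P * c) := by
            rw [← Finset.sum_mul]
            congr 1
            exact_mod_cast Nat.sum_range_choose m
        _ ≤ 2 ^ (J + 1) * (c * P * c) := by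
            apply mul_le_mul_of_nonneg_right _ (by positivity)
            exact pow_le_pow_right₀ (by norm_num) hm
    have s4 : |∑ i ∈ Ico (m + 1) (J + 2), (m.factorial : ℝ) * L ^ (m + 1) *
        (l i / ((i.factorial : ℝ) * L ^ i))| ≤ (J + 2) * (F * (c * P)) := by
      refine (Finset.abs_sum_le_sum_abs _ _).trans ?_
      calc ∑ i ∈ Ico (m + 1) (J + 2), |(m.factorial : ℝ) * L ^ (m + 1) *
            (l i / ((i.factorial : ℝ) * L ^ i))|
          ≤ ∑ i ∈ Ico (m + 1) (J + 2), F * (c * P) := by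
            refine Finset.sum_le_sum fun i hi => ?_
            obtain ⟨hi1, hi2⟩ := Finset.mem_Ico.1 hi
            have f1 : L ^ (m + 1) ≤ (i.factorial : ℝ) * L ^ i := by
              calc L ^ (m + 1) ≤ L ^ i := pow_le_pow_right₀ hL1 hi1
                _ ≤ (i.factorial : ℝ) * L ^ i := le_mul_of_one_le_left (by positivity) (hfac1 i)
            have f2 : 0 < (i.factorial : ℝ) * L ^ i := by
              have := hfac1 i
              positivity
            rw [abs_mul, abs_mul, Nat.abs_cast, abs_of_pos (by positivity : 0 < L ^ (m + 1)),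
              abs_div, abs_of_pos f2]
            calc (m.factorial : ℝ) * L ^ (m + 1) * (|l i| / ((i.factorial : ℝ) * L ^ i))
                = (m.factorial : ℝ) * (|l i| * (L ^ (m + 1) / ((i.factorial : ℝ) * L ^ i))) := by
                  ring
              _ ≤ F * (c * P * 1) := by
                  apply mul_le_mul (hfac m hm) _ (by positivity) hF0.le
                  apply mul_le_mul (hlP i (by omega)) _ (by positivity) (by positivity)
                  rw [div_le_one f2]
                  exact f1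
              _ = F * (c * P) := by ring
        _ = ((J + 2 - (m + 1) : ℕ) : ℝ) * (F * (c * P)) := by
            rw [Finset.sum_const, Nat.card_Ico, nsmul_eq_mul]
        _ ≤ (J + 2) * (F * (c * P)) := by
            apply mul_le_mul_of_nonneg_right _ (by positivity)
            have : J + 2 - (m + 1) ≤ J + 2 := Nat.sub_le _ _
            exact_mod_cast this
    rw [s2]
    calc _ ≤ 2 ^ (J + 1) * (c * P * c) + (J + 2) * (F * (c * P)) :=
          (abs_sub _ _).trans (add_le_add s3 s4)
      _ = E := by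
          rw [hE, hK1]
          ring
  have heE : e ≤ E := by
    have h1 : e ≤ ∑ i ∈ range (J + 2), c * P := by
      rw [he]
      refine Finset.sum_le_sum fun i hi => ?_
      have hi' : i ≤ J + 1 := by
        have := Finset.mem_range.1 hi
        omega
      have f2 : 1 ≤ (i.factorial : ℝ) * L ^ i := by
        have h1 := hfac1 i
        have h2 : 1 ≤ L ^ i := one_le_pow₀ hL1
        nlinarith
      rw [div_le_iff₀ (by linarith)]
      calc l i ≤ c * P := (le_abs_self _).trans (hlP i hi')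
        _ ≤ c * P * ((i.factorial : ℝ) * L ^ i) := le_mul_of_one_le_right (by positivity) f2
    rw [Finset.sum_const, Finset.card_range, nsmul_eq_mul] at h1
    push_cast at h1
    calc e ≤ (J + 2) * (c * P) := h1
      _ = ((J + 2) * c) * P := by ring
      _ ≤ K1 * P := mul_le_mul_of_nonneg_right hK1' (by linarith)
      _ = E := hE.symm
  have hBL : 7 / 8 * κ ≤ F * L ^ (A + 1) * e := by
    have h1 := (abs_le.1 (hA (J + 1) le_rfl)).2
    rw [← hF] at h1
    have h2 : κ * L ^ (J + 1) ≤ L ^ A * (F * L ^ (J + 1 + 1) * e + E) := by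
      calc κ * L ^ (J + 1) = L ^ (J + 1) / (200 * 4 ^ (J + 1)) := by rw [hκ]; ring
        _ ≤ L ^ A * H (J + 1) := hlow
        _ ≤ L ^ A * (F * L ^ (J + 1 + 1) * e + E) := by
            apply mul_le_mul_of_nonneg_left _ (by positivity)
            linarith
    have h3 : L ^ A * E ≤ κ / 8 * L ^ (J + 1) := by
      have h4 : E ≤ κ / 8 * L := by
        have : 8 * E ≤ 8 * F * E := by nlinarith
        linarith
      calc L ^ A * E ≤ L ^ A * (κ / 8 * L) := mul_le_mul_of_nonneg_left h4 (by positivity)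
        _ = κ / 8 * L ^ (A + 1) := by ring
        _ ≤ κ / 8 * L ^ (J + 1) := by
            apply mul_le_mul_of_nonneg_left _ (by positivity)
            exact pow_le_pow_right₀ hL1 (by omega)
    have h5 : 7 / 8 * κ * L ^ (J + 1) ≤ (F * L ^ (A + 1) * e) * L ^ (J + 1) := by
      have : (F * L ^ (A + 1) * e) * L ^ (J + 1) = L ^ A * (F * L ^ (J + 1 + 1) * e) := by ring
      rw [this]
      rw [mul_add] at h2
      linarith
    exact le_of_mul_le_mul_right h5 (by positivity)
  have he0 : 0 < e := by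
    by_contra h
    have h1 : F * L ^ (A + 1) * e ≤ 0 :=
      mul_nonpos_of_nonneg_of_nonpos (by positivity) (not_lt.1 h)
    linarith
  have hC : ∀ m, A + 1 ≤ m → m ≤ J + 1 → E ≤ 1 / 4 * ((m.factorial : ℝ) * L ^ (m + 1) * e) := by
    intro m hm1 hm2
    have h1 : L * (L ^ (A + 1) * e) ≤ (m.factorial : ℝ) * L ^ (m + 1) * e := by
      calc L * (L ^ (A + 1) * e) = L ^ (A + 1 + 1) * e := by ring
        _ ≤ L ^ (m + 1) * e := by
            apply mul_le_mul_of_nonneg_right _ he0.le
            exact pow_le_pow_right₀ hL1 (by omega)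
        _ ≤ (m.factorial : ℝ) * (L ^ (m + 1) * e) :=
            le_mul_of_one_le_left (by positivity) (hfac1 m)
        _ = _ := by ring
    have h2 : 4 * E * F ≤ (L * (L ^ (A + 1) * e)) * F := by
      calc 4 * E * F = 1 / 2 * (8 * F * E) := by ring
        _ ≤ 1 / 2 * (κ * L) := by linarith
        _ ≤ L * (7 / 8 * κ) := by nlinarith
        _ ≤ L * (F * L ^ (A + 1) * e) := mul_le_mul_of_nonneg_left hBL hL0.le
        _ = (L * (L ^ (A + 1) * e)) * F := by ring
    have h3 := le_of_mul_le_mul_right h2 hF0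
    linarith
  have hup : ∀ m ≤ J + 1, H m ≤ L ^ (m + 2) := by
    intro m hm
    have h1 := (abs_le.1 (hA m hm)).2
    have h2 : (m.factorial : ℝ) * L ^ (m + 1) * e ≤ F * L ^ (m + 1) * E := by
      apply mul_le_mul _ heE he0.le (by positivity)
      exact mul_le_mul_of_nonneg_right (hfac m hm) (by positivity)
    have h3 : E ≤ F * L ^ (m + 1) * E := by
      apply le_mul_of_one_le_left hE0.le
      have := one_le_pow₀ (n := m + 1) hL1
      nlinarith
    calc H m ≤ 2 * (F * L ^ (m + 1) * E) := by linarith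
      _ = 1 / 4 * L ^ (m + 1) * (8 * F * E) := by ring
      _ ≤ 1 / 4 * L ^ (m + 1) * (κ * L) := mul_le_mul_of_nonneg_left hEL (by positivity)
      _ = 1 / 4 * κ * L ^ (m + 2) := by ring
      _ ≤ 1 * L ^ (m + 2) := by
          apply mul_le_mul_of_nonneg_right _ (by positivity)
          linarith
      _ = L ^ (m + 2) := one_mul _
  obtain ⟨X, hX⟩ : ∃ X : ℝ, X = (J.factorial : ℝ) * L ^ (J + 2) * e := ⟨_, rfl⟩
  have hX0 : 0 < X := by
    rw [hX]
    have := hfac1 J
    positivity
  have hHJ : 3 / 4 * (J + 1) * X ≤ H (J + 1) := by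
    have h1 := (abs_le.1 (hA (J + 1) le_rfl)).1
    have h2 := hC (J + 1) (by omega) le_rfl
    have h3 : ((J + 1).factorial : ℝ) * L ^ (J + 1 + 1) * e = (J + 1) * X := by
      rw [hX, Nat.factorial_succ]
      push_cast
      ring
    rw [h3] at h1 h2
    linarith
  have hsmall : ∀ i ∈ range k₀, (J.choose i : ℝ) * (W i * H (J - i)) ≤ 5 * k₀ * X := by
    intro i hi
    have hik : i < k₀ := Finset.mem_range.1 hi
    have hiJ : i ≤ J := by omega
    have hZ0 : 3 / 4 * L ≤ Z 0 := by
      have := (abs_le.1 (hZ 0 (by omega))).1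
      simp only [Nat.factorial_zero, Nat.cast_one, zero_add, pow_one, one_mul] at this
      linarith
    have hZi : Z (i + 1) ≤ 3 / 2 * (((i + 1).factorial : ℝ) * L ^ (i + 2)) := by
      have h1 := (abs_le.1 (hZ (i + 1) (by omega))).2
      have h2 : c ≤ 1 / 2 * (((i + 1).factorial : ℝ) * L ^ (i + 2)) := by
        have h3 : L ≤ ((i + 1).factorial : ℝ) * L ^ (i + 2) := by
          calc L = L ^ 1 := (pow_one L).symm
            _ ≤ L ^ (i + 2) := pow_le_pow_right₀ hL1 (by omega)
            _ ≤ _ := le_mul_of_one_le_left (by positivity) (hfac1 _)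
        linarith
      have h4 : i + 1 + 1 = i + 2 := rfl
      rw [h4] at h1
      linarith
    have hMm0 : 0 ≤ Mm i := by
      have h1 := hW0 i
      have h2 := hWM i
      linarith
    have hMi : Mm i ≤ 2 * (((i + 1).factorial : ℝ) * L ^ (i + 1)) := by
      have h1 : Mm i * (3 / 4 * L) ≤ (2 * (((i + 1).factorial : ℝ) * L ^ (i + 1))) *
          (3 / 4 * L) := by
        calc Mm i * (3 / 4 * L) ≤ Mm i * Z 0 := mul_le_mul_of_nonneg_left hZ0 hMm0
          _ ≤ Z (i + 1) := hM i
          _ ≤ 3 / 2 * (((i + 1).factorial : ℝ) * L ^ (i + 2)) := hZi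
          _ = (2 * (((i + 1).factorial : ℝ) * L ^ (i + 1))) * (3 / 4 * L) := by ring
      exact le_of_mul_le_mul_right h1 (by positivity)
    have hWi : W i ≤ 4 * (((i + 1).factorial : ℝ) * L ^ (i + 1)) := by
      have := hWM i
      linarith
    have hHi : H (J - i) ≤ 5 / 4 * (((J - i).factorial : ℝ) * L ^ (J - i + 1) * e) := by
      have h1 := (abs_le.1 (hA (J - i) (by omega))).2
      have h2 := hC (J - i) (by omega) (by omega)
      linarith
    have f1 : (J.choose i : ℝ) * i.factorial * (J - i).factorial = J.factorial := by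
      exact_mod_cast Nat.choose_mul_factorial_mul_factorial hiJ
    have f2 : L ^ (J + 2) = L ^ (i + 1) * L ^ (J - i + 1) := by
      rw [← pow_add]
      congr 1
      omega
    calc (J.choose i : ℝ) * (W i * H (J - i))
        ≤ (J.choose i : ℝ) * ((4 * (((i + 1).factorial : ℝ) * L ^ (i + 1))) *
          (5 / 4 * (((J - i).factorial : ℝ) * L ^ (J - i + 1) * e))) := by
          apply mul_le_mul_of_nonneg_left _ (Nat.cast_nonneg _)
          exact mul_le_mul hWi hHi (hHnn _) (by positivity)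
      _ = 5 * (i + 1) * X := by
          rw [hX, f2, ← f1, Nat.factorial_succ]
          push_cast
          ring
      _ ≤ 5 * k₀ * X := by
          apply mul_le_mul_of_nonneg_right _ hX0.le
          have : (i : ℝ) + 1 ≤ k₀ := by exact_mod_cast hik
          linarith
  have hsum1 : ∑ i ∈ range k₀, (J.choose i : ℝ) * (W i * H (J - i)) ≤ 1 / 2 * H (J + 1) := by
    calc ∑ i ∈ range k₀, (J.choose i : ℝ) * (W i * H (J - i)) ≤ ∑ i ∈ range k₀, 5 * k₀ * X :=
          Finset.sum_le_sum hsmall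
      _ = 5 * (k₀ : ℝ) ^ 2 * X := by
          rw [Finset.sum_const, Finset.card_range, nsmul_eq_mul]
          ring
      _ ≤ 3 / 8 * (J + 1) * X := by
          apply mul_le_mul_of_nonneg_right _ hX0.le
          have : (14 : ℝ) * (k₀ : ℝ) ^ 2 ≤ J + 1 := by exact_mod_cast hJ
          linarith [sq_nonneg (k₀ : ℝ)]
      _ ≤ 1 / 2 * H (J + 1) := by linarith
  by_contra hcon
  push Not at hcon
  have hsum2 : L ^ (A + 5) * ∑ i ∈ Ico k₀ (J + 1), (J.choose i : ℝ) * (W i * H (J - i)) ≤
      2 ^ J * L ^ (J + 2) := by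
    rw [Finset.mul_sum]
    calc ∑ i ∈ Ico k₀ (J + 1), L ^ (A + 5) * ((J.choose i : ℝ) * (W i * H (J - i)))
        ≤ ∑ i ∈ Ico k₀ (J + 1), (J.choose i : ℝ) * L ^ (J + 2) := by
          refine Finset.sum_le_sum fun i hi => ?_
          obtain ⟨hi1, hi2⟩ := Finset.mem_Ico.1 hi
          have f2 : L ^ (J + 2) = L ^ i * L ^ (J - i + 2) := by
            rw [← pow_add]
            congr 1
            omega
          calc L ^ (A + 5) * ((J.choose i : ℝ) * (W i * H (J - i)))
              = (J.choose i : ℝ) * ((L ^ (A + 5) * W i) * H (J - i)) := by ring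
            _ ≤ (J.choose i : ℝ) * (L ^ i * L ^ (J - i + 2)) := by
                apply mul_le_mul_of_nonneg_left _ (Nat.cast_nonneg _)
                exact mul_le_mul (hcon i hi1 (by omega)).le (hup _ (by omega)) (hHnn _)
                  (by positivity)
            _ = (J.choose i : ℝ) * L ^ (J + 2) := by rw [f2]
      _ ≤ ∑ i ∈ range (J + 1), (J.choose i : ℝ) * L ^ (J + 2) := by
          apply Finset.sum_le_sum_of_subset_of_nonneg
          · intro i hi
            exact Finset.mem_range.2 (Finset.mem_Ico.1 hi).2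
          · intro i _ _
            positivity
      _ = 2 ^ J * L ^ (J + 2) := by
          rw [← Finset.sum_mul]
          congr 1
          exact_mod_cast Nat.sum_range_choose J
  have hsplit := Finset.sum_range_add_sum_Ico (fun i => (J.choose i : ℝ) * (W i * H (J - i)))
    (by omega : k₀ ≤ J + 1)
  rw [← hrec] at hsplit
  have h1 : 1 / 2 * H (J + 1) ≤
      ∑ i ∈ Ico k₀ (J + 1), (J.choose i : ℝ) * (W i * H (J - i)) := by linarith
  have h2 : κ / 2 * L ^ (J + 6) ≤ 2 ^ J * L ^ (J + 2) := by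
    calc κ / 2 * L ^ (J + 6) = 1 / 2 * L ^ 5 * (L ^ (J + 1) / (200 * 4 ^ (J + 1))) := by
          rw [hκ]
          ring
      _ ≤ 1 / 2 * L ^ 5 * (L ^ A * H (J + 1)) :=
          mul_le_mul_of_nonneg_left hlow (by positivity)
      _ = L ^ (A + 5) * (1 / 2 * H (J + 1)) := by ring
      _ ≤ L ^ (A + 5) * ∑ i ∈ Ico k₀ (J + 1), (J.choose i : ℝ) * (W i * H (J - i)) :=
          mul_le_mul_of_nonneg_left h1 (by positivity)
      _ ≤ 2 ^ J * L ^ (J + 2) := hsum2
  have h3 : 2 ^ J * L ^ (J + 2) < κ / 2 * L ^ (J + 6) := by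
    calc 2 ^ J * L ^ (J + 2) = 1 / 2 * 2 ^ (J + 1) * L ^ (J + 2) := by ring
      _ < 1 / 2 * (κ * L) * L ^ (J + 2) := by
          apply mul_lt_mul_of_pos_right _ (by positivity)
          linarith
      _ = κ / 2 * L ^ (J + 3) := by ring
      _ ≤ κ / 2 * L ^ (J + 6) := by
          apply mul_le_mul_of_nonneg_left _ (by positivity)
          exact pow_le_pow_right₀ hL1 (by omega)
  linarith

end Pool.Agent.Lib.MP_509488_nt.Unif.M7
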