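import Mathlib
import Pool.Agent.Lib.MP_509488_nt.Unif.M7d

/-!
# Uniform bases, module 7: lower bound for the primes with `ψ(p) = 1`, `ψ` real
-/

set_option autoImplicit false

namespace Pool.Agent.Lib.MP_509488_nt.Unif

open Finset Filter Topology Asymptotics

namespace M7

lemma ev1 (A n : ℕ) (K : ℝ) : ∀ᶠ L : ℝ in atTop, K * (1 + A * Real.log L) ^ n ≤ L := by
  have h1 : (fun L : ℝ => K * (1 + A * Real.log L) ^ n) =o[atTop] fun L : ℝ => L := by
    have h2 : (fun L : ℝ => 1 + A * Real.log L) =o[atTop]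
        fun L : ℝ => L ^ ((1 : ℝ) / (n + 1)) := by
      have hp : (0 : ℝ) < 1 / ((n : ℝ) + 1) := by positivity
      apply IsLittleO.add
      · exact (isLittleO_const_left.2 (Or.inr (tendsto_norm_atTop_atTop.comp
          (tendsto_rpow_atTop hp))))
      · exact (isLittleO_log_rpow_atTop hp).const_mul_left _
    have h3 := (h2.isBigO.pow n).const_mul_left K
    refine h3.trans_isLittleO ?_
    have h4 : (fun x : ℝ => (x ^ ((1 : ℝ) / (n + 1))) ^ n) =ᶠ[atTop]
        fun x => x ^ ((n : ℝ) / (n + 1)) := by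
      filter_upwards [eventually_gt_atTop 0] with x hx
      rw [← Real.rpow_natCast, ← Real.rpow_mul hx.le]
      congr 1
      ring
    refine IsLittleO.congr' ?_ h4.symm (EventuallyEq.refl _ _)
    rw [isLittleO_iff_tendsto' (by
      filter_upwards [eventually_gt_atTop 0] with x hx h0
      exact absurd h0 hx.ne')]
    have hp : (0 : ℝ) < 1 / ((n : ℝ) + 1) := by positivity
    refine (tendsto_rpow_neg_atTop hp).congr' ?_
    filter_upwards [eventually_gt_atTop 0] with x hx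
    have e1 : -(1 / ((n : ℝ) + 1)) = (n : ℝ) / (n + 1) - 1 := by
      field_simp
      ring
    rw [e1, Real.rpow_sub hx, Real.rpow_one]
  have h2 := h1.bound (c := 1) one_pos
  filter_upwards [h2, eventually_gt_atTop 0] with L hL hL0
  rw [one_mul, Real.norm_of_nonneg hL0.le] at hL
  exact (le_abs_self _).trans hL

lemma ev2 (A : ℕ) : ∀ᶠ L : ℝ in atTop,
    72 * (L ^ A * (L ^ A * Real.exp (-L) + 4 * Real.exp (-L / 2))) ≤ 1 := by
  have h1 : Tendsto (fun L : ℝ => L ^ (2 * A) * Real.exp (-L)) atTop (𝓝 0) :=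
    Real.tendsto_pow_mul_exp_neg_atTop_nhds_zero (2 * A)
  have h2 : Tendsto (fun L : ℝ => (L / 2) ^ A * Real.exp (-(L / 2))) atTop (𝓝 0) :=
    (Real.tendsto_pow_mul_exp_neg_atTop_nhds_zero A).comp
      (tendsto_id.atTop_div_const (by norm_num))
  have h3 := (h1.add (h2.const_mul (4 * 2 ^ A))).const_mul 72
  simp only [mul_zero, add_zero] at h3
  filter_upwards [h3.eventually_le_const (zero_lt_one)] with L hL
  refine le_trans (le_of_eq ?_) hL
  have e1 : -L / 2 = -(L / 2) := by ring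
  rw [e1, div_pow]
  have : (2 : ℝ) ^ A ≠ 0 := by positivity
  field_simp
  ring

end M7

open M7 in
theorem s7 (h1 : S1) (h2 : S2) : S7 := by
  intro A k₀
  choose c1 hc1 hS1 using h1
  choose c2 hc2 hS2 using h2
  set J : ℕ := 14 * k₀ ^ 2 + k₀ + A + 1 with hJ
  set c : ℝ := 1 + ∑ i ∈ range (J + 2), (c1 i + c2 i) with hc
  have hci : ∀ i ≤ J + 1, c1 i ≤ c ∧ c2 i ≤ c := by
    intro i hi
    have h := Finset.single_le_sum (f := fun i => c1 i + c2 i)
      (fun i _ => add_nonneg (hc1 i).le (hc2 i).le) (Finset.mem_range.2 (by omega : i < J + 2))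
    have e1 := hc1 i
    have e2 := hc2 i
    beta_reduce at h
    constructor <;> linarith
  have hc1' : 1 ≤ c := by
    have : 0 ≤ ∑ i ∈ range (J + 2), (c1 i + c2 i) :=
      Finset.sum_nonneg fun i _ => add_nonneg (hc1 i).le (hc2 i).le
    linarith
  obtain ⟨K, hK1, hK⟩ := core A k₀ J (by omega) (by omega) c hc1'
  obtain ⟨Λ₀, hΛ₀⟩ := eventually_atTop.1 ((ev1 A (J + 2) K).and (ev2 A))
  refine ⟨J, max 1 Λ₀, le_max_left _ _, ?_⟩
  intro L hL r hr hrL ψ hψ hψ1
  have hL1 : 1 ≤ L := (le_max_left _ _).trans hL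
  have hL0 : 0 < L := by linarith
  obtain ⟨hev1, hev2⟩ := hΛ₀ L ((le_max_right _ _).trans hL)
  have hr' : (1 : ℝ) ≤ r := by exact_mod_cast hr
  have hlogr : 0 ≤ Real.log r := Real.log_nonneg hr'
  have hlogr2 : Real.log r ≤ A * Real.log L := by
    rw [← Real.log_pow]
    exact Real.log_le_log (by linarith) hrL
  have hδ : 0 < 1 / L := by positivity
  have hδ1 : 1 / L ≤ 1 := by
    rw [div_le_one hL0]
    exact hL1
  have hcond : (r : ℝ) * Real.exp (-L) + 4 * Real.exp (-L / 2) ≤ 1 / (72 * r) := by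
    rw [le_div_iff₀ (by linarith)]
    refine le_trans ?_ hev2
    have e0 : 0 ≤ Real.exp (-L) := (Real.exp_pos _).le
    have e1 : 0 ≤ Real.exp (-L / 2) := (Real.exp_pos _).le
    have e2 : (r : ℝ) * Real.exp (-L) + 4 * Real.exp (-L / 2) ≤
        L ^ A * Real.exp (-L) + 4 * Real.exp (-L / 2) := by
      have := mul_le_mul_of_nonneg_right hrL e0
      linarith
    calc ((r : ℝ) * Real.exp (-L) + 4 * Real.exp (-L / 2)) * (72 * r)
        = 72 * (r * ((r : ℝ) * Real.exp (-L) + 4 * Real.exp (-L / 2))) := by ring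
      _ ≤ 72 * (L ^ A * (L ^ A * Real.exp (-L) + 4 * Real.exp (-L / 2))) := by
          apply mul_le_mul_of_nonneg_left _ (by norm_num)
          exact mul_le_mul hrL e2 (by positivity) (by positivity)
  have hT : 1 ≤ 1 + Real.log r := by linarith
  have hKT : K * (1 + Real.log r) ^ (J + 2) ≤ L := by
    refine le_trans ?_ hev1
    apply mul_le_mul_of_nonneg_left _ (by linarith)
    exact pow_le_pow_left₀ (by linarith) (by linarith) _
  have hA1 : ∀ i ≤ J + 1, |RD (rho ψ) i (1 / L)| ≤ c * (1 + Real.log r) ^ (i + 1) := by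
    intro i hi
    have h := hS1 i r hr ψ hψ1 (1 / L) hδ hδ1
    rw [LL_re ψ hψ, Complex.norm_real, Real.norm_eq_abs] at h
    exact h.trans (mul_le_mul_of_nonneg_right (hci i hi).1 (by positivity))
  have hA2 : ∀ i ≤ J + 1, |ZZ i (1 / L) - (i.factorial : ℝ) * L ^ (i + 1)| ≤ c := by
    intro i hi
    have h := hS2 i (1 / L) hδ hδ1
    have e1 : (i.factorial : ℝ) / (1 / L) ^ (i + 1) = (i.factorial : ℝ) * L ^ (i + 1) := by
      rw [one_div, inv_pow, div_inv_eq_mul]
    rw [e1] at h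
    exact h.trans (hci i hi).2
  have hA3 : L ^ (J + 1) / (200 * 4 ^ (J + 1)) ≤ L ^ A * RD (aa (rho ψ)) (J + 1) (1 / L) := by
    have h := H_lower hψ1 hψ hr L hL1 hcond (J + 1)
    have hr0 : (0 : ℝ) < r := by linarith
    calc L ^ (J + 1) / (200 * 4 ^ (J + 1)) = r * ((L / 4) ^ (J + 1) / (200 * r)) := by
          rw [div_pow]
          field_simp
      _ ≤ L ^ A * RD (aa (rho ψ)) (J + 1) (1 / L) :=
          mul_le_mul hrL h (by positivity) (by positivity)
  obtain ⟨j, hj1, hj2, hj3⟩ := hK L (1 + Real.log r) hT hKT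
    (fun m => RD (aa (rho ψ)) m (1 / L)) (fun m => RD (ww ψ) m (1 / L)) (fun m => ZZ m (1 / L))
    (fun m => RD (rho ψ) m (1 / L)) (fun m => MM m (1 / L))
    (fun m _ => H_eq ψ hδ m) hA1 hA2 hA3 (H_rec hψ1 hψ hδ J) (fun i => W_nonneg ψ i _)
    (fun i => W_le ψ i hδ) (fun i => MM_le hδ i) (fun m => RD_nonneg (aa_nonneg hψ1 hψ) m)
  refine ⟨j, hj1, hj2, ?_⟩
  rw [W_eq ψ hψ j hδ]
  exact hj3

end Pool.Agent.Lib.MP_509488_nt.Unif
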