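import Pool.Agent.Lib.MP_509488_nt.Unif.Rec

/-!
# Module M8: a lower bound in the progression `1 mod r d` for many `d`
-/

namespace Pool.Agent.Lib.MP_509488_nt.Unif

namespace M8

open Finset Filter Topology

/-- The term `Λ(n) (log n)^j n^(-1-δ)`. -/
noncomputable def V (j : ℕ) (δ : ℝ) (n : ℕ) : ℝ :=
  ArithmeticFunction.vonMangoldt n * (Real.log n ^ j * (n : ℝ) ^ (-1 - δ))

lemma V_nonneg (j : ℕ) (δ : ℝ) (n : ℕ) : 0 ≤ V j δ n := by
  unfold V
  have h1 := Real.log_natCast_nonneg n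
  have h2 : 0 ≤ (ArithmeticFunction.vonMangoldt n : ℝ) := ArithmeticFunction.vonMangoldt_nonneg
  positivity

lemma summable_V (j : ℕ) (δ : ℝ) (hδ : 0 < δ) : Summable (V j δ) := by
  refine Summable.of_nonneg_of_le (fun n => V_nonneg j δ n) (fun n => ?_)
    (summable_ZZ (j + 1) δ hδ)
  unfold V
  have h1 := Real.log_natCast_nonneg n
  have h3 : (ArithmeticFunction.vonMangoldt n : ℝ) ≤ Real.log n :=
    ArithmeticFunction.vonMangoldt_le_log
  calc (ArithmeticFunction.vonMangoldt n : ℝ) * (Real.log n ^ j * (n : ℝ) ^ (-1 - δ))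
      ≤ Real.log n * (Real.log n ^ j * (n : ℝ) ^ (-1 - δ)) := by gcongr
    _ = Real.log n ^ (j + 1) * (n : ℝ) ^ (-1 - δ) := by ring

/-- The term of the sum over `n` not coprime to `q`. -/
noncomputable def R0 (q j : ℕ) (δ : ℝ) (n : ℕ) : ℝ :=
  if Nat.Coprime n q then 0 else V j δ n

lemma R0_nonneg (q j : ℕ) (δ : ℝ) (n : ℕ) : 0 ≤ R0 q j δ n := by
  unfold R0
  split_ifs
  · exact le_refl _
  · exact V_nonneg j δ n

lemma R0_le (q j : ℕ) (δ : ℝ) (n : ℕ) : R0 q j δ n ≤ V j δ n := by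
  unfold R0
  split_ifs
  · exact V_nonneg j δ n
  · exact le_refl _

lemma summable_R0 (q j : ℕ) (δ : ℝ) (hδ : 0 < δ) : Summable (R0 q j δ) :=
  Summable.of_nonneg_of_le (R0_nonneg q j δ) (R0_le q j δ) (summable_V j δ hδ)

lemma V_bound (j : ℕ) : ∃ K : ℝ, 0 < K ∧ ∀ δ : ℝ, 0 < δ → ∀ n : ℕ, 1 ≤ n →
    V j δ n ≤ K * (n : ℝ) ^ (-(1 / 2) : ℝ) := by
  obtain ⟨K, hK, h⟩ := log_pow_le (j + 1)
  refine ⟨K, hK, fun δ hδ n hn => ?_⟩
  have hn1 : (1 : ℝ) ≤ n := by exact_mod_cast hn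
  have hn0 : (0 : ℝ) < n := by linarith
  have h1 := Real.log_natCast_nonneg n
  have h3 : (ArithmeticFunction.vonMangoldt n : ℝ) ≤ Real.log n :=
    ArithmeticFunction.vonMangoldt_le_log
  have h4 : (n : ℝ) ^ (-1 - δ) ≤ (n : ℝ) ^ (-1 : ℝ) :=
    Real.rpow_le_rpow_of_exponent_le hn1 (by linarith)
  calc V j δ n ≤ Real.log n * (Real.log n ^ j * (n : ℝ) ^ (-1 : ℝ)) := by
        unfold V
        gcongr
    _ = Real.log n ^ (j + 1) * (n : ℝ) ^ (-1 : ℝ) := by ring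
    _ ≤ (K * (n : ℝ) ^ (1 / 2 : ℝ)) * (n : ℝ) ^ (-1 : ℝ) := by
        gcongr
        exact h n hn1
    _ = K * (n : ℝ) ^ (-(1 / 2) : ℝ) := by
        rw [mul_assoc, ← Real.rpow_add hn0]
        norm_num

lemma pow_inj {p : ℕ} (hp : p.Prime) : Function.Injective (fun a : ℕ => p ^ (a + 1)) := by
  intro a b hab
  have := Nat.pow_right_injective hp.two_le hab
  omega

/-- The base of the geometric series. -/
noncomputable def xx : ℝ := (2 : ℝ) ^ (-(1 / 2) : ℝ)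

lemma xx_pos : 0 < xx := Real.rpow_pos_of_pos two_pos _

lemma xx_lt : xx < 1 := by
  unfold xx
  exact Real.rpow_lt_one_of_one_lt_of_neg (by norm_num) (by norm_num)

lemma pp_bound {p : ℕ} (hp : p.Prime) (a : ℕ) :
    (((p ^ (a + 1) : ℕ)) : ℝ) ^ (-(1 / 2) : ℝ) ≤ xx ^ (a + 1) := by
  have h2 : (2 : ℝ) ≤ p := by exact_mod_cast hp.two_le
  have h0 : (0 : ℝ) ≤ p := by linarith
  have e1 : (((p ^ (a + 1) : ℕ)) : ℝ) ^ (-(1 / 2) : ℝ) = ((p : ℝ) ^ (-(1 / 2) : ℝ)) ^ (a + 1) := by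
    rw [Nat.cast_pow, ← Real.rpow_natCast, ← Real.rpow_mul h0, mul_comm, Real.rpow_mul h0,
      Real.rpow_natCast]
  rw [e1]
  refine pow_le_pow_left₀ (Real.rpow_nonneg h0 _) ?_ _
  unfold xx
  exact Real.rpow_le_rpow_of_nonpos (by norm_num) h2 (by norm_num)

/-- The dominating function attached to a prime `p`. -/
noncomputable def gp (K : ℝ) (p n : ℕ) : ℝ :=
  Set.indicator (Set.range fun a : ℕ => p ^ (a + 1)) (fun n : ℕ => K * (n : ℝ) ^ (-(1 / 2) : ℝ)) n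

lemma gp_nonneg {K : ℝ} (hK : 0 ≤ K) (p n : ℕ) : 0 ≤ gp K p n := by
  unfold gp
  refine Set.indicator_nonneg (fun m _ => ?_) n
  positivity

lemma gp_sum {K : ℝ} (hK : 0 ≤ K) {p : ℕ} (hp : p.Prime) :
    Summable (gp K p) ∧ ∑' n, gp K p n ≤ K * (xx * (1 - xx)⁻¹) := by
  have hx0 := xx_pos
  have hx1 := xx_lt
  have hgeo : HasSum (fun a : ℕ => K * xx ^ (a + 1)) (K * (xx * (1 - xx)⁻¹)) := by
    have h := (hasSum_geometric_of_lt_one hx0.le hx1).mul_left (K * xx)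
    have e : (fun a : ℕ => K * xx ^ (a + 1)) = fun a : ℕ => K * xx * xx ^ a := by
      funext a; rw [pow_succ]; ring
    rw [e, ← mul_assoc]
    exact h
  have hval : ∀ a : ℕ, gp K p (p ^ (a + 1)) = K * (((p ^ (a + 1) : ℕ)) : ℝ) ^ (-(1 / 2) : ℝ) := by
    intro a
    unfold gp
    rw [Set.indicator_of_mem (Set.mem_range_self a)]
  have hle : ∀ a : ℕ, gp K p (p ^ (a + 1)) ≤ K * xx ^ (a + 1) := by
    intro a
    rw [hval]
    exact mul_le_mul_of_nonneg_left (pp_bound hp a) hK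
  have hz : ∀ n ∉ Set.range (fun a : ℕ => p ^ (a + 1)), gp K p n = 0 := by
    intro n hn
    unfold gp
    exact Set.indicator_of_notMem hn _
  have hs1 : Summable (fun a : ℕ => gp K p (p ^ (a + 1))) :=
    Summable.of_nonneg_of_le (fun a => gp_nonneg hK _ _) hle hgeo.summable
  have hs2 : HasSum (gp K p) (∑' a : ℕ, gp K p (p ^ (a + 1))) :=
    ((pow_inj hp).hasSum_iff hz).1 hs1.hasSum
  refine ⟨hs2.summable, ?_⟩
  rw [hs2.tsum_eq, ← hgeo.tsum_eq]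
  exact hs1.tsum_le_tsum hle hgeo.summable

/-- The contribution of `n` not coprime to `q` is `O_j(q)`. -/
lemma RR_bound (j : ℕ) : ∃ K : ℝ, 0 < K ∧ ∀ q : ℕ, 1 ≤ q → ∀ δ : ℝ, 0 < δ →
    ∑' n : ℕ, R0 q j δ n ≤ K * q := by
  obtain ⟨K, hK, hV⟩ := V_bound j
  have hx0 := xx_pos
  have hx1 := xx_lt
  have hx2 : 0 < 1 - xx := by linarith
  refine ⟨K * (xx * (1 - xx)⁻¹), by positivity, fun q hq δ hδ => ?_⟩
  have hpt : ∀ n, R0 q j δ n ≤ ∑ p ∈ q.primeFactors, gp K p n := by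
    intro n
    have hnn : 0 ≤ ∑ p ∈ q.primeFactors, gp K p n :=
      Finset.sum_nonneg fun p _ => gp_nonneg hK.le p n
    unfold R0
    split_ifs with hc
    · exact hnn
    · by_cases hv : ArithmeticFunction.vonMangoldt n = (0 : ℝ)
      · unfold V
        rw [hv, zero_mul]
        exact hnn
      · rw [← ne_eq, ArithmeticFunction.vonMangoldt_ne_zero_iff, isPrimePow_nat_iff] at hv
        obtain ⟨p, k, hp, hk, hpk⟩ := hv
        have hpq : p ∣ q := by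
          by_contra hnd
          apply hc
          rw [← hpk]
          exact Nat.Coprime.pow_left k ((Nat.Prime.coprime_iff_not_dvd hp).2 hnd)
        have hmem : p ∈ q.primeFactors := by
          rw [Nat.mem_primeFactors]
          exact ⟨hp, hpq, by omega⟩
        have hn1 : 1 ≤ n := by rw [← hpk]; exact Nat.pos_of_ne_zero (pow_ne_zero _ hp.ne_zero)
        have hr : n ∈ Set.range (fun a : ℕ => p ^ (a + 1)) := by
          refine ⟨k - 1, ?_⟩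
          show p ^ (k - 1 + 1) = n
          rw [Nat.sub_add_cancel hk, hpk]
        have h1 : gp K p n = K * (n : ℝ) ^ (-(1 / 2) : ℝ) := by
          unfold gp
          rw [Set.indicator_of_mem hr]
        calc V j δ n ≤ K * (n : ℝ) ^ (-(1 / 2) : ℝ) := hV δ hδ n hn1
          _ = gp K p n := h1.symm
          _ ≤ _ := Finset.single_le_sum (f := fun p => gp K p n)
            (fun p _ => gp_nonneg hK.le p n) hmem
  have hpr : ∀ p ∈ q.primeFactors, p.Prime := fun p hp => Nat.prime_of_mem_primeFactors hp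
  have hsum : Summable fun n => ∑ p ∈ q.primeFactors, gp K p n :=
    summable_sum fun p hp => (gp_sum hK.le (hpr p hp)).1
  have hcard : (q.primeFactors.card : ℝ) ≤ q := by
    have h1 : q.primeFactors ⊆ Finset.Icc 1 q := by
      intro p hp
      rw [Finset.mem_Icc]
      exact ⟨(hpr p hp).one_le, Nat.le_of_mem_primeFactors hp⟩
    have h2 := Finset.card_le_card h1
    rw [Nat.card_Icc, Nat.add_sub_cancel] at h2
    exact_mod_cast h2
  calc ∑' n : ℕ, R0 q j δ n ≤ ∑' n, ∑ p ∈ q.primeFactors, gp K p n :=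
        (summable_R0 q j δ hδ).tsum_le_tsum hpt hsum
    _ = ∑ p ∈ q.primeFactors, ∑' n, gp K p n :=
        Summable.tsum_finsetSum fun p hp => (gp_sum hK.le (hpr p hp)).1
    _ ≤ ∑ p ∈ q.primeFactors, K * (xx * (1 - xx)⁻¹) :=
        Finset.sum_le_sum fun p hp => (gp_sum hK.le (hpr p hp)).2
    _ = q.primeFactors.card * (K * (xx * (1 - xx)⁻¹)) := by
        rw [Finset.sum_const, nsmul_eq_mul]
    _ ≤ q * (K * (xx * (1 - xx)⁻¹)) := by
        gcongr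
    _ = _ := mul_comm _ _

/-- Two functions which agree on `n` coprime to `q`, the second being `0` elsewhere. -/
lemma DS_diff (q j : ℕ) (δ : ℝ) (hδ : 0 < δ) (f g : ℕ → ℂ) (hf : ∀ n, ‖f n‖ ≤ 1)
    (hg : ∀ n, g n = if Nat.Coprime n q then f n else 0) :
    ‖DS (fun n => g n * (ArithmeticFunction.vonMangoldt n : ℝ)) j δ -
      DS (fun n => f n * (ArithmeticFunction.vonMangoldt n : ℝ)) j δ‖ ≤ ∑' n : ℕ, R0 q j δ n := by
  have hg1 : ∀ n, ‖g n‖ ≤ 1 := by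
    intro n
    rw [hg]
    split_ifs
    · exact hf n
    · simp
  unfold DS
  rw [← (summable_DSL g hg1 j δ hδ).tsum_sub (summable_DSL f hf j δ hδ)]
  refine tsum_of_norm_bounded (summable_R0 q j δ hδ).hasSum fun n => ?_
  have hv : 0 ≤ (ArithmeticFunction.vonMangoldt n : ℝ) := ArithmeticFunction.vonMangoldt_nonneg
  have h1 := Real.log_natCast_nonneg n
  rw [hg]
  unfold R0
  split_ifs with hc
  · simp
  · rw [zero_mul, zero_mul, zero_sub, norm_neg, norm_mul, norm_mul, Complex.norm_real,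
      Complex.norm_real, Real.norm_of_nonneg hv, Real.norm_of_nonneg (by positivity)]
    unfold V
    calc ‖f n‖ * (ArithmeticFunction.vonMangoldt n : ℝ) * (Real.log n ^ j * (n : ℝ) ^ (-1 - δ))
        ≤ 1 * (ArithmeticFunction.vonMangoldt n : ℝ) * (Real.log n ^ j * (n : ℝ) ^ (-1 - δ)) := by
          gcongr
          exact hf n
      _ = _ := by ring

lemma VV_one (q j : ℕ) (δ : ℝ) (hδ : 0 < δ) :
    ‖VV (1 : DirichletCharacter ℂ q) j δ - (MM j δ : ℂ)‖ ≤ ∑' n : ℕ, R0 q j δ n := by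
  have h := DS_diff q j δ hδ (fun _ => 1) (fun n => (1 : DirichletCharacter ℂ q) (n : ZMod q))
    (by simp) (fun n => by
      show (1 : DirichletCharacter ℂ q) (n : ZMod q) = if Nat.Coprime n q then 1 else 0
      split_ifs with hc
      · exact MulChar.one_apply ((ZMod.isUnit_iff_coprime _ _).2 hc)
      · exact MulChar.map_nonunit _ (by rwa [ZMod.isUnit_iff_coprime]))
  rw [DS_mangoldt] at h
  exact h

lemma VV_changeLevel {r q : ℕ} (hrq : r ∣ q) (ψ : DirichletCharacter ℂ r) (j : ℕ) (δ : ℝ)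
    (hδ : 0 < δ) :
    ‖VV (DirichletCharacter.changeLevel hrq ψ) j δ - VV ψ j δ‖ ≤ ∑' n : ℕ, R0 q j δ n := by
  refine DS_diff q j δ hδ (fun n => ψ (n : ZMod r))
    (fun n => DirichletCharacter.changeLevel hrq ψ (n : ZMod q))
    (fun n => DirichletCharacter.norm_le_one ψ _) (fun n => ?_)
  show DirichletCharacter.changeLevel hrq ψ (n : ZMod q) = if Nat.Coprime n q then ψ (n : ZMod r) else 0
  split_ifs with hc
  · have h1 : IsUnit (n : ZMod q) := (ZMod.isUnit_iff_coprime _ _).2 hc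
    have h2 := DirichletCharacter.changeLevel_eq_cast_of_dvd ψ hrq h1.unit
    rw [h1.unit_spec, ZMod.cast_natCast hrq] at h2
    exact h2
  · exact MulChar.map_nonunit _ (by rwa [ZMod.isUnit_iff_coprime])

/-- Orthogonality. -/
lemma sum_VV {q : ℕ} (hq : 1 ≤ q) (j : ℕ) (δ : ℝ) (hδ : 0 < δ) :
    ∑ χ : DirichletCharacter ℂ q, VV χ j δ = ((q.totient * AP q j δ : ℝ) : ℂ) := by
  have : NeZero q := ⟨by omega⟩
  unfold VV DS
  rw [← Summable.tsum_finsetSum (fun χ _ => summable_DSL (fun n => χ (n : ZMod q))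
    (fun n => DirichletCharacter.norm_le_one χ _) j δ hδ)]
  unfold AP
  rw [← tsum_mul_left, Complex.ofReal_tsum]
  refine tsum_congr fun n => ?_
  rw [← Finset.sum_mul, ← Finset.sum_mul, DirichletCharacter.sum_characters_eq]
  have hiff : ((n : ZMod q) = 1) ↔ n ≡ 1 [MOD q] := by
    rw [← ZMod.natCast_eq_natCast_iff, Nat.cast_one]
  by_cases hn : n ≡ 1 [MOD q]
  · rw [if_pos (hiff.2 hn), if_pos hn]
    push_cast
    ring
  · rw [if_neg (fun h => hn (hiff.1 h)), if_neg hn]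
    simp

/-- The lower bound obtained from orthogonality. -/
lemma AP_lower {q : ℕ} (hq : 1 ≤ q) (j : ℕ) (δ : ℝ) (hδ : 0 < δ)
    (S : Finset (DirichletCharacter ℂ q)) (E : ℝ) (hE : 0 ≤ E)
    (hS : ∀ χ ∉ S, ‖VV χ j δ‖ ≤ E) :
    ∑ χ ∈ S, (VV χ j δ).re - q.totient * E ≤ q.totient * AP q j δ := by
  classical
  have : NeZero q := ⟨by omega⟩
  have h1 := congrArg Complex.re (sum_VV hq j δ hδ)
  rw [Complex.ofReal_re, Complex.re_sum] at h1
  have h2 : ∑ χ : DirichletCharacter ℂ q, (VV χ j δ).re =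
      ∑ χ ∈ S, (VV χ j δ).re + ∑ χ ∈ Sᶜ, (VV χ j δ).re := (Finset.sum_add_sum_compl S _).symm
  have h3 : -(∑ χ ∈ Sᶜ, (VV χ j δ).re) ≤ q.totient * E := by
    rw [← Finset.sum_neg_distrib]
    calc ∑ χ ∈ Sᶜ, -(VV χ j δ).re ≤ ∑ χ ∈ Sᶜ, E := by
          refine Finset.sum_le_sum fun χ hχ => ?_
          have := hS χ (by simpa using hχ)
          have h4 := Complex.abs_re_le_norm (VV χ j δ)
          have h5 := neg_le_abs (VV χ j δ).re
          linarith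
      _ = (Sᶜ.card : ℝ) * E := by rw [Finset.sum_const, nsmul_eq_mul]
      _ ≤ q.totient * E := by
          refine mul_le_mul_of_nonneg_right ?_ hE
          have h6 : Sᶜ.card ≤ Fintype.card (DirichletCharacter ℂ q) := Finset.card_le_univ _
          rw [← Nat.card_eq_fintype_card,
            DirichletCharacter.card_eq_totient_of_hasEnoughRootsOfUnity] at h6
          exact_mod_cast h6
  linarith

lemma AP_nonneg (q j : ℕ) (δ : ℝ) : 0 ≤ AP q j δ := by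
  unfold AP
  refine tsum_nonneg fun n => ?_
  split_ifs
  · exact V_nonneg j δ n
  · exact le_refl _

/-- `K (1 + B log x)^n ≤ x` for large `x`. -/
lemma ev_log (K : ℝ) (B n : ℕ) : ∀ᶠ x : ℝ in atTop, K * (1 + B * Real.log x) ^ n ≤ x := by
  have h1 : (fun x : ℝ => Real.log x ^ n) =o[atTop] (id : ℝ → ℝ) := Real.isLittleO_pow_log_id_atTop
  have h2 : (0 : ℝ) < 1 / ((|K| + 1) * (1 + B) ^ n) := by positivity
  filter_upwards [h1.bound h2, eventually_ge_atTop (Real.exp 1)] with x hx hxe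
  have hx0 : 0 < x := lt_of_lt_of_le (Real.exp_pos 1) hxe
  have hl : 1 ≤ Real.log x := by
    rw [← Real.log_exp 1]
    exact Real.log_le_log (Real.exp_pos 1) hxe
  rw [Real.norm_of_nonneg (by positivity), id, Real.norm_of_nonneg hx0.le] at hx
  have h3 : 1 + B * Real.log x ≤ (1 + B) * Real.log x := by nlinarith
  calc K * (1 + B * Real.log x) ^ n ≤ (|K| + 1) * ((1 + B) * Real.log x) ^ n := by
        have hK : K ≤ |K| + 1 := by linarith [le_abs_self K]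
        gcongr
    _ = (|K| + 1) * (1 + B) ^ n * Real.log x ^ n := by rw [mul_pow]; ring
    _ ≤ (|K| + 1) * (1 + B) ^ n * (1 / ((|K| + 1) * (1 + B) ^ n) * x) := by gcongr
    _ = x := by field_simp

/-- Two real characters modulo `r d₁`, `r d₂` whose product is principal come from one character
modulo `r`. -/
lemma common {r d₁ d₂ : ℕ} (hr : 1 ≤ r) (h1 : 1 ≤ d₁) (h2 : 1 ≤ d₂) (hc : Nat.Coprime d₁ d₂)
    (χ₁ : DirichletCharacter ℂ (r * d₁)) (χ₂ : DirichletCharacter ℂ (r * d₂))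
    (hχ₂ : χ₂ ^ 2 = 1)
    (h : DirichletCharacter.changeLevel (dvd_mul_right (r * d₁) (r * d₂)) χ₁ *
      DirichletCharacter.changeLevel (dvd_mul_left (r * d₂) (r * d₁)) χ₂ = 1) :
    ∃ ψ : DirichletCharacter ℂ r, χ₁ = DirichletCharacter.changeLevel (dvd_mul_right r d₁) ψ ∧
      χ₂ = DirichletCharacter.changeLevel (dvd_mul_right r d₂) ψ := by
  have : NeZero (r * d₁) := ⟨Nat.mul_ne_zero (by omega) (by omega)⟩
  have : NeZero (r * d₂) := ⟨Nat.mul_ne_zero (by omega) (by omega)⟩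
  have : NeZero (r * d₁ * (r * d₂)) := ⟨Nat.mul_ne_zero (NeZero.ne _) (NeZero.ne _)⟩
  have hsq : DirichletCharacter.changeLevel (dvd_mul_left (r * d₂) (r * d₁)) χ₂ *
      DirichletCharacter.changeLevel (dvd_mul_left (r * d₂) (r * d₁)) χ₂ = 1 := by
    rw [← map_mul, ← pow_two, hχ₂, map_one]
  have heq : DirichletCharacter.changeLevel (dvd_mul_right (r * d₁) (r * d₂)) χ₁ =
      DirichletCharacter.changeLevel (dvd_mul_left (r * d₂) (r * d₁)) χ₂ :=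
    mul_right_cancel (h.trans hsq.symm)
  have hf := DirichletCharacter.factorsThrough_gcd χ₁ χ₂ heq
  have hg : (r * d₁).gcd (r * d₂) = r := by
    rw [Nat.gcd_mul_left, hc, mul_one]
  rw [hg] at hf
  obtain ⟨hd, ψ, hψ⟩ := hf
  refine ⟨ψ, hψ, ?_⟩
  have hinj := DirichletCharacter.changeLevel_injective (R := ℂ)
    (dvd_mul_left (r * d₂) (r * d₁))
  apply hinj
  rw [← heq, hψ, ← DirichletCharacter.changeLevel_trans, ← DirichletCharacter.changeLevel_trans]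

lemma final1 {x c M Err φ q a : ℝ} {A v j : ℕ} (hx : 2 ≤ x) (hc : 2 ≤ c * x)
    (hj : 2 * A + v + 20 ≤ j) (hq : φ ≤ q) (ha : 0 ≤ a) (h : M - Err ≤ φ * a)
    (hErr : Err ≤ x ^ (A + v + 1)) (hM : c * x ^ (j + 1) ≤ M) :
    x ^ j ≤ x ^ (A + 6) * q * a := by
  have hx1 : 1 ≤ x := by linarith
  have hx0 : 0 < x := by linarith
  have h1 : x ^ (A + 6) * (φ * a) ≤ x ^ (A + 6) * q * a := by
    rw [mul_assoc]
    gcongr
  have h2 : x ^ (A + 6) * (c * x ^ (j + 1) - x ^ (A + v + 1)) ≤ x ^ (A + 6) * (φ * a) := by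
    refine mul_le_mul_of_nonneg_left ?_ (by positivity)
    linarith
  have h3 : x ^ (A + 6) * x ^ (A + v + 1) ≤ x ^ j := by
    rw [← pow_add]
    exact pow_le_pow_right₀ hx1 (by omega)
  have h4 : 2 * x ^ j ≤ x ^ (A + 6) * (c * x ^ (j + 1)) := by
    have h5 : 1 ≤ x ^ (A + 6) := one_le_pow₀ hx1
    have h6 : 0 ≤ x ^ j := by positivity
    calc 2 * x ^ j ≤ (c * x) * x ^ j := by gcongr
      _ = 1 * (c * x * x ^ j) := by ring
      _ ≤ x ^ (A + 6) * (c * x * x ^ j) := by gcongr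
      _ = x ^ (A + 6) * (c * x ^ (j + 1)) := by ring
  nlinarith

lemma final2 {x M Err φ q a : ℝ} {A v j : ℕ} (hx : 2 ≤ x)
    (hj : 2 * A + v + 20 ≤ j) (hq : φ ≤ q) (ha : 0 ≤ a) (h : M - Err ≤ φ * a)
    (hErr : Err ≤ x ^ (A + v + 1)) (hM : x ^ j ≤ x ^ (A + 5) * M) :
    x ^ j ≤ x ^ (A + 6) * q * a := by
  have hx1 : 1 ≤ x := by linarith
  have hx0 : 0 < x := by linarith
  have h1 : x ^ (A + 6) * (φ * a) ≤ x ^ (A + 6) * q * a := by
    rw [mul_assoc]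
    gcongr
  have h2 : x ^ (A + 6) * (M - x ^ (A + v + 1)) ≤ x ^ (A + 6) * (φ * a) := by
    refine mul_le_mul_of_nonneg_left ?_ (by positivity)
    linarith
  have h3 : x ^ (A + 6) * x ^ (A + v + 1) ≤ x ^ j := by
    rw [← pow_add]
    exact pow_le_pow_right₀ hx1 (by omega)
  have h4 : 2 * x ^ j ≤ x ^ (A + 6) * M := by
    calc 2 * x ^ j ≤ x * x ^ j := by gcongr
      _ ≤ x * (x ^ (A + 5) * M) := by gcongr
      _ = x ^ (A + 6) * M := by ring
  nlinarith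

end M8

open M8 Finset Filter Topology in
theorem s8 (_ : S1) (_ : S2) (h3 : S3) (h4 : S4) (h5 : S5) (h6 : S6) (h7 : S7) : S8 := by
  intro A v k₀
  obtain ⟨c3, hc3, h3⟩ := h3
  obtain ⟨κ, hκ, h4⟩ := h4
  have hκ' : 0 < min c3 κ := lt_min hc3 hκ
  choose C hC h5 using fun j => h5 j (min c3 κ) hκ'
  choose K hK hR using RR_bound
  obtain ⟨J6, c6, Λ6, hc6, hΛ6, h6⟩ := h6 (max k₀ (2 * A + v + 20))
  obtain ⟨J7, Λ7, hΛ7, h7⟩ := h7 A (max k₀ (2 * A + v + 20))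
  have hev : ∀ᶠ x : ℝ in atTop, 1 ≤ x ∧ Λ6 ≤ x ∧ Λ7 ≤ x ∧ 2 ≤ x ∧ 2 / c6 ≤ x ∧
      (1 / κ) * (1 + (2 * (A + v) : ℕ) * Real.log x) ^ 5 ≤ x ∧
      (∑ j ∈ range (max J6 J7 + 1), (2 * K j + C j)) *
        (1 + (2 * (A + v) : ℕ) * Real.log x) ^ (9 * (max J6 J7 + 1)) ≤ x := by
    filter_upwards [eventually_ge_atTop 1, eventually_ge_atTop Λ6, eventually_ge_atTop Λ7,
      eventually_ge_atTop 2, eventually_ge_atTop (2 / c6),
      ev_log (1 / κ) (2 * (A + v)) 5,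
      ev_log (∑ j ∈ range (max J6 J7 + 1), (2 * K j + C j)) (2 * (A + v))
        (9 * (max J6 J7 + 1))] with x a b c d e f g
    exact ⟨a, b, c, d, e, f, g⟩
  obtain ⟨Λ₀, hΛ₀⟩ := eventually_atTop.1 hev
  refine ⟨max J6 J7, max 1 Λ₀, le_max_left _ _, fun Λ hΛ r hr hrA D₁ D₂ hD₁ hD₂ hD => ?_⟩
  obtain ⟨g1, g2, g3, g4, g5, g6, g7⟩ := hΛ₀ Λ ((le_max_right _ _).trans hΛ)
  set T : ℝ := 1 + (2 * (A + v) : ℕ) * Real.log Λ with hT
  have hΛ0 : 0 < Λ := by linarith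
  have hlog : 0 ≤ Real.log Λ := Real.log_nonneg g1
  have hT1 : 1 ≤ T := by
    have : 0 ≤ ((2 * (A + v) : ℕ) : ℝ) * Real.log Λ := by positivity
    linarith
  have hδ0 : 0 < 1 / Λ := by positivity
  have hδ1 : 1 / Λ ≤ 1 := by rw [div_le_one hΛ0]; exact g1
  have hr1 : 1 ≤ r := hr.one_le
  -- moduli
  have hmod : ∀ d : ℕ, 1 ≤ d → (d : ℝ) ≤ Λ ^ v → 1 ≤ r * d ∧ ((r * d : ℕ) : ℝ) ≤ Λ ^ (A + v) := by
    intro d hd1 hdv
    refine ⟨Nat.mul_pos hr.pos hd1, ?_⟩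
    rw [Nat.cast_mul, pow_add]
    gcongr
  have hlogq : ∀ q : ℕ, 1 ≤ q → (q : ℝ) ≤ Λ ^ (A + v) → Real.log q ≤ (A + v : ℕ) * Real.log Λ := by
    intro q hq hqv
    have hq0 : (0 : ℝ) < q := by exact_mod_cast hq
    calc Real.log q ≤ Real.log (Λ ^ (A + v)) := Real.log_le_log hq0 hqv
      _ = _ := Real.log_pow _ _
  have hTq : ∀ q : ℕ, 1 ≤ q → (q : ℝ) ≤ Λ ^ (A + v) → 1 + Real.log q ≤ T := by
    intro q hq hqv
    have h8 := hlogq q hq hqv
    have h9 : 0 ≤ ((A + v : ℕ) : ℝ) * Real.log Λ := by positivity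
    rw [hT]
    push_cast at h8 h9 ⊢
    linarith
  have hTqq : ∀ q₁ q₂ : ℕ, 1 ≤ q₁ → 1 ≤ q₂ → (q₁ : ℝ) ≤ Λ ^ (A + v) → (q₂ : ℝ) ≤ Λ ^ (A + v) →
      1 + Real.log (q₁ * q₂ : ℕ) ≤ T := by
    intro q₁ q₂ hq₁ hq₂ hqv₁ hqv₂
    have h8 := hlogq q₁ hq₁ hqv₁
    have h9 := hlogq q₂ hq₂ hqv₂
    have hq₁' : (q₁ : ℝ) ≠ 0 := by exact_mod_cast (by omega : q₁ ≠ 0)
    have hq₂' : (q₂ : ℝ) ≠ 0 := by exact_mod_cast (by omega : q₂ ≠ 0)
    rw [hT, Nat.cast_mul, Real.log_mul hq₁' hq₂']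
    push_cast at h8 h9 ⊢
    linarith
  -- error terms
  have herr : ∀ j : ℕ, j ≤ max J6 J7 → ∀ q : ℕ, 1 ≤ q → (q : ℝ) ≤ Λ ^ (A + v) →
      2 * (∑' n : ℕ, R0 q j (1 / Λ) n) + q.totient * (C j * T ^ (9 * (j + 1))) ≤
        Λ ^ (A + v + 1) := by
    intro j hj q hq hqv
    have e1 := hR j q hq (1 / Λ) hδ0
    have e2 : (q.totient : ℝ) ≤ q := by exact_mod_cast Nat.totient_le q
    have hq0 : (0 : ℝ) < q := by exact_mod_cast hq
    have e3 : T ^ (9 * (j + 1)) ≤ T ^ (9 * (max J6 J7 + 1)) :=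
      pow_le_pow_right₀ hT1 (by omega)
    have e4 : 1 ≤ T ^ (9 * (max J6 J7 + 1)) := one_le_pow₀ hT1
    have e5 : 2 * K j + C j ≤ ∑ j ∈ range (max J6 J7 + 1), (2 * K j + C j) :=
      Finset.single_le_sum (f := fun j => 2 * K j + C j)
        (fun i _ => by have := hK i; have := hC i; positivity) (Finset.mem_range.2 (by omega))
    have hKj := hK j
    have hCj := hC j
    calc 2 * (∑' n : ℕ, R0 q j (1 / Λ) n) + q.totient * (C j * T ^ (9 * (j + 1)))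
        ≤ 2 * (K j * q) + q * (C j * T ^ (9 * (max J6 J7 + 1))) := by gcongr
      _ = q * (2 * K j * 1 + C j * T ^ (9 * (max J6 J7 + 1))) := by ring
      _ ≤ q * (2 * K j * T ^ (9 * (max J6 J7 + 1)) + C j * T ^ (9 * (max J6 J7 + 1))) := by
          gcongr
      _ = q * ((2 * K j + C j) * T ^ (9 * (max J6 J7 + 1))) := by ring
      _ ≤ q * ((∑ j ∈ range (max J6 J7 + 1), (2 * K j + C j)) *
            T ^ (9 * (max J6 J7 + 1))) := by gcongr
      _ ≤ Λ ^ (A + v) * Λ := by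
          refine mul_le_mul hqv g7 ?_ (by positivity)
          refine mul_nonneg (Finset.sum_nonneg fun i _ => ?_) (by positivity)
          have := hK i
          have := hC i
          positivity
      _ = Λ ^ (A + v + 1) := (pow_succ _ _).symm
  -- good characters
  have hgood : ∀ q : ℕ, 1 ≤ q → (q : ℝ) ≤ Λ ^ (A + v) → ∀ χ : DirichletCharacter ℂ q, χ ≠ 1 →
      (χ ^ 2 = 1 → κ / T ^ 3 ≤ ‖LL χ 0 (1 / Λ)‖) → ∀ j : ℕ,
      ‖VV χ j (1 / Λ)‖ ≤ C j * T ^ (9 * (j + 1)) := by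
    intro q hq hqv χ hχ hreal j
    refine h5 j q hq χ hχ (1 / Λ) hδ0 hδ1 T (hTq q hq hqv) ?_
    have hlq : 0 ≤ Real.log q := Real.log_natCast_nonneg q
    by_cases h2 : χ ^ 2 = 1
    · refine le_trans ?_ (hreal h2)
      have : T ^ 3 ≤ T ^ 7 := pow_le_pow_right₀ hT1 (by norm_num)
      have h0 : 0 < T ^ 3 := by positivity
      calc min c3 κ / T ^ 7 ≤ κ / T ^ 7 := by
            gcongr
            exact min_le_right _ _
        _ ≤ κ / T ^ 3 := by gcongr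
    · refine le_trans ?_ (h3 q hq χ h2 (1 / Λ) hδ0 hδ1)
      have h8 : 1 + Real.log q ≤ T := hTq q hq hqv
      calc min c3 κ / T ^ 7 ≤ c3 / T ^ 7 := by
            gcongr
            exact min_le_left _ _
        _ ≤ c3 / (1 + Real.log q) ^ 7 := by gcongr
  -- no bad character modulo `q`
  have hnobad : ∀ q : ℕ, 1 ≤ q → (q : ℝ) ≤ Λ ^ (A + v) →
      (∀ χ : DirichletCharacter ℂ q, χ ≠ 1 → χ ^ 2 = 1 → κ / T ^ 3 ≤ ‖LL χ 0 (1 / Λ)‖) →
      ∀ j : ℕ, max k₀ (2 * A + v + 20) ≤ j → j ≤ J6 → c6 * Λ ^ (j + 1) ≤ MM j (1 / Λ) →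
      Λ ^ j ≤ Λ ^ (A + 6) * (q : ℝ) * AP q j (1 / Λ) := by
    intro q hq hqv hall j hj1 hj2 hM
    have hR0 : 0 ≤ ∑' n : ℕ, R0 q j (1 / Λ) n := tsum_nonneg (R0_nonneg q j _)
    have hlow := AP_lower hq j (1 / Λ) hδ0 {1} (C j * T ^ (9 * (j + 1)))
      (by have := hC j; positivity)
      (fun χ hχ => hgood q hq hqv χ (by simpa using hχ)
        (fun h2 => hall χ (by simpa using hχ) h2) j)
    rw [Finset.sum_singleton] at hlow
    have hone := VV_one q j (1 / Λ) hδ0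
    have hre := Complex.abs_re_le_norm (VV (1 : DirichletCharacter ℂ q) j (1 / Λ) - (MM j (1 / Λ) : ℂ))
    rw [Complex.sub_re, Complex.ofReal_re] at hre
    have hre2 := (abs_le.1 (hre.trans hone)).1
    have herrj := herr j (hj2.trans (le_max_left _ _)) q hq hqv
    refine final1 (M := MM j (1 / Λ)) (c := c6)
      (Err := 2 * (∑' n : ℕ, R0 q j (1 / Λ) n) + q.totient * (C j * T ^ (9 * (j + 1))))
      (φ := q.totient) (v := v) g4 ?_ ((le_max_right _ _).trans hj1)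
      (by exact_mod_cast Nat.totient_le q) (AP_nonneg q j _) ?_ herrj hM
    · rw [div_le_iff₀ hc6] at g5
      linarith
    · linarith
  obtain ⟨j6, hj6a, hj6b, hj6c⟩ := h6 Λ g2
  by_cases hbad1 : ∀ d ∈ D₁, ∀ χ : DirichletCharacter ℂ (r * d), χ ≠ 1 → χ ^ 2 = 1 →
      κ / T ^ 3 ≤ ‖LL χ 0 (1 / Λ)‖
  · refine ⟨j6, (le_max_left _ _).trans hj6a, hj6b.trans (le_max_left _ _), Or.inl ?_⟩
    intro d hd
    obtain ⟨q1, q2⟩ := hmod d (hD₁ d hd).1 (hD₁ d hd).2.1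
    exact hnobad (r * d) q1 q2 (hbad1 d hd) j6 hj6a hj6b hj6c
  by_cases hbad2 : ∀ d ∈ D₂, ∀ χ : DirichletCharacter ℂ (r * d), χ ≠ 1 → χ ^ 2 = 1 →
      κ / T ^ 3 ≤ ‖LL χ 0 (1 / Λ)‖
  · refine ⟨j6, (le_max_left _ _).trans hj6a, hj6b.trans (le_max_left _ _), Or.inr ?_⟩
    intro d hd
    obtain ⟨q1, q2⟩ := hmod d (hD₂ d hd).1 (hD₂ d hd).2.1
    exact hnobad (r * d) q1 q2 (hbad2 d hd) j6 hj6a hj6b hj6c
  push Not at hbad1 hbad2
  obtain ⟨d₁, hd₁, χ₁, hχ₁, hχ₁2, hb₁⟩ := hbad1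
  obtain ⟨d₂, hd₂, χ₂, hχ₂, hχ₂2, hb₂⟩ := hbad2
  obtain ⟨q1, q2⟩ := hmod d₁ (hD₁ d₁ hd₁).1 (hD₁ d₁ hd₁).2.1
  obtain ⟨q3, q4⟩ := hmod d₂ (hD₂ d₂ hd₂).1 (hD₂ d₂ hd₂).2.1
  -- any bad character modulo `r d`, `d ∈ D₁`, is induced from the same character modulo `r` as `χ₂`
  have hpair : ∀ d ∈ D₁, ∀ χ : DirichletCharacter ℂ (r * d), χ ≠ 1 → χ ^ 2 = 1 →
      ‖LL χ 0 (1 / Λ)‖ < κ / T ^ 3 →
      ∃ ψ : DirichletCharacter ℂ r, χ = DirichletCharacter.changeLevel (dvd_mul_right r d) ψ ∧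
        χ₂ = DirichletCharacter.changeLevel (dvd_mul_right r d₂) ψ := by
    intro d hd χ hχ hχ2 hb
    obtain ⟨q5, q6⟩ := hmod d (hD₁ d hd).1 (hD₁ d hd).2.1
    refine common hr1 (hD₁ d hd).1 (hD₂ d₂ hd₂).1 (hD d hd d₂ hd₂) χ χ₂ hχ₂2 ?_
    by_contra hne
    have hTT := hTqq (r * d) (r * d₂) q5 q3 q6 q4
    have hl0 : 0 ≤ Real.log (((r * d) * (r * d₂) : ℕ) : ℝ) := Real.log_natCast_nonneg _
    have hTT3 : κ / T ^ 3 ≤ κ / (1 + Real.log (((r * d) * (r * d₂) : ℕ) : ℝ)) ^ 3 := by gcongr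
    have hδκ : 1 / Λ ≤ κ / (1 + Real.log (((r * d) * (r * d₂) : ℕ) : ℝ)) ^ 5 := by
      have h8 : 1 / Λ ≤ κ / T ^ 5 := by
        rw [div_le_div_iff₀ hΛ0 (by positivity), one_mul]
        rw [one_div, inv_mul_le_iff₀ hκ] at g6
        exact g6
      refine h8.trans ?_
      gcongr
    rcases h4 (r * d) (r * d₂) q5 q3 χ χ₂ hχ2 hχ₂2 hχ hχ₂ hne (1 / Λ) hδ0 hδκ with h8 | h8
    · exact absurd (hTT3.trans h8) (not_le.2 hb)
    · exact absurd (hTT3.trans h8) (not_le.2 hb₂)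
  obtain ⟨ψ, hψ₁, hψ₂⟩ := hpair d₁ hd₁ χ₁ hχ₁ hχ₁2 hb₁
  have : NeZero (r * d₂) := ⟨by omega⟩
  have hψ1 : ψ ≠ 1 := by
    rintro rfl
    exact hχ₂ (by rw [hψ₂, map_one])
  have hψ2 : ψ ^ 2 = 1 := by
    apply DirichletCharacter.changeLevel_injective (R := ℂ) (dvd_mul_right r d₂)
    rw [map_pow, ← hψ₂, hχ₂2, map_one]
  obtain ⟨j7, hj7a, hj7b, hj7c⟩ := h7 Λ g3 r hr1 hrA ψ hψ2 hψ1
  refine ⟨j7, (le_max_left _ _).trans hj7a, hj7b.trans (le_max_right _ _), Or.inl ?_⟩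
  intro d hd
  obtain ⟨q5, q6⟩ := hmod d (hD₁ d hd).1 (hD₁ d hd).2.1
  have : NeZero (r * d) := ⟨by omega⟩
  classical
  have hne : (1 : DirichletCharacter ℂ (r * d)) ≠
      DirichletCharacter.changeLevel (dvd_mul_right r d) ψ := by
    intro h8
    exact hψ1 ((DirichletCharacter.changeLevel_eq_one_iff (dvd_mul_right r d)).1 h8.symm)
  have hlow := AP_lower q5 j7 (1 / Λ) hδ0
    {1, DirichletCharacter.changeLevel (dvd_mul_right r d) ψ} (C j7 * T ^ (9 * (j7 + 1)))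
    (by have := hC j7; positivity)
    (fun χ hχ => by
      rw [Finset.mem_insert, Finset.mem_singleton, not_or] at hχ
      refine hgood (r * d) q5 q6 χ hχ.1 (fun h2 => ?_) j7
      by_contra hb
      obtain ⟨ψ', h8, h9⟩ := hpair d hd χ hχ.1 h2 (not_le.1 hb)
      have h10 : ψ' = ψ := by
        apply DirichletCharacter.changeLevel_injective (R := ℂ) (dvd_mul_right r d₂)
        rw [← h9, ← hψ₂]
      exact hχ.2 (by rw [h8, h10]))
  rw [Finset.sum_pair hne] at hlow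
  have hone := VV_one (r * d) j7 (1 / Λ) hδ0
  have hre := Complex.abs_re_le_norm
    (VV (1 : DirichletCharacter ℂ (r * d)) j7 (1 / Λ) - (MM j7 (1 / Λ) : ℂ))
  rw [Complex.sub_re, Complex.ofReal_re] at hre
  have hre2 := (abs_le.1 (hre.trans hone)).1
  have hpsi := VV_changeLevel (dvd_mul_right r d) ψ j7 (1 / Λ) hδ0
  have hre3 := Complex.abs_re_le_norm
    (VV (DirichletCharacter.changeLevel (dvd_mul_right r d) ψ) j7 (1 / Λ) - VV ψ j7 (1 / Λ))
  rw [Complex.sub_re] at hre3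
  have hre4 := (abs_le.1 (hre3.trans hpsi)).1
  have herrj := herr j7 (hj7b.trans (le_max_right _ _)) (r * d) q5 q6
  refine final2 (M := MM j7 (1 / Λ) + (VV ψ j7 (1 / Λ)).re)
    (Err := 2 * (∑' n : ℕ, R0 (r * d) j7 (1 / Λ) n) +
      (r * d).totient * (C j7 * T ^ (9 * (j7 + 1))))
    (φ := (r * d).totient) (v := v) g4 ((le_max_right _ _).trans hj7a)
    (by exact_mod_cast Nat.totient_le (r * d)) (AP_nonneg (r * d) j7 _) ?_ herrj hj7c
  linarith

end Pool.Agent.Lib.MP_509488_nt.Unif
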