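import Mathlib
import Pool.Agent.Lib.MP_509488_nt.Unif.Stmts

/-!
# Module M9: from the weighted sum over prime powers to `Σ 1/l` over primes in a range
-/

set_option autoImplicit false

namespace Pool.Agent.Lib.MP_509488_nt.Unif

open Finset

namespace M9

/-- `u^m ≤ m! K^m e^(u/K)`. -/
theorem pow_le_exp (m : ℕ) {u K : ℝ} (hu : 0 ≤ u) (hK : 0 < K) :
    u ^ m ≤ m.factorial * K ^ m * Real.exp (u / K) := by
  have h := Real.pow_div_factorial_le_exp (u / K) (div_nonneg hu hK.le) m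
  have hf : (0 : ℝ) < m.factorial := by exact_mod_cast m.factorial_pos
  rw [div_le_iff₀ hf, div_pow, div_le_iff₀ (by positivity)] at h
  linarith

/-- The weight `Λ(n) (log n)^j n^(-1-δ)`. -/
noncomputable def w (j : ℕ) (δ : ℝ) (n : ℕ) : ℝ :=
  ArithmeticFunction.vonMangoldt n * (Real.log n ^ j * (n : ℝ) ^ (-1 - δ))

theorem w_nonneg (j : ℕ) (δ : ℝ) (n : ℕ) : 0 ≤ w j δ n := by
  unfold w
  have h1 := ArithmeticFunction.vonMangoldt_nonneg (n := n)
  have h2 := Real.log_natCast_nonneg n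
  positivity

theorem w_zero (j : ℕ) (δ : ℝ) : w j δ 0 = 0 := by
  unfold w
  simp

theorem w_le (j : ℕ) (δ : ℝ) (n : ℕ) :
    w j δ n ≤ Real.log n ^ (j + 1) * (n : ℝ) ^ (-1 - δ) := by
  unfold w
  have h1 := ArithmeticFunction.vonMangoldt_le_log (n := n)
  have h2 := Real.log_natCast_nonneg n
  have h3 : 0 ≤ Real.log n ^ j * (n : ℝ) ^ (-1 - δ) := by positivity
  calc ArithmeticFunction.vonMangoldt n * (Real.log n ^ j * (n : ℝ) ^ (-1 - δ))
      ≤ Real.log n * (Real.log n ^ j * (n : ℝ) ^ (-1 - δ)) := mul_le_mul_of_nonneg_right h1 h3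
    _ = Real.log n ^ (j + 1) * (n : ℝ) ^ (-1 - δ) := by ring

theorem w_le_inv (j : ℕ) {δ : ℝ} (hδ : 0 ≤ δ) (n : ℕ) :
    w j δ n ≤ Real.log n ^ (j + 1) * (1 / n) := by
  rcases Nat.eq_zero_or_pos n with h | h
  · subst h
    rw [w_zero]
    simp
  refine (w_le j δ n).trans ?_
  have h1 : (1 : ℝ) ≤ n := by exact_mod_cast h
  have h2 := Real.log_natCast_nonneg n
  apply mul_le_mul_of_nonneg_left _ (by positivity)
  calc (n : ℝ) ^ (-1 - δ) ≤ (n : ℝ) ^ (-1 : ℝ) :=
        Real.rpow_le_rpow_of_exponent_le h1 (by linarith)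
    _ = 1 / n := by rw [Real.rpow_neg_one, one_div]

/-- Pointwise bound: `w(n) ≤ (j+1)! Λ^(j+1) / n`. -/
theorem w_le_point (j : ℕ) {L : ℝ} (hL : 0 < L) (n : ℕ) :
    w j (1 / L) n ≤ (j + 1).factorial * L ^ (j + 1) * (1 / n) := by
  rcases Nat.eq_zero_or_pos n with h | h
  · subst h
    rw [w_zero]
    simp
  refine (w_le j _ n).trans ?_
  have h0 : (0 : ℝ) < n := by exact_mod_cast h
  have h1 := pow_le_exp (j + 1) (Real.log_natCast_nonneg n) hL
  have h2 : Real.exp (Real.log n / L) = (n : ℝ) ^ (1 / L) := by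
    rw [Real.rpow_def_of_pos h0]
    congr 1
    ring
  rw [h2] at h1
  calc Real.log n ^ (j + 1) * (n : ℝ) ^ (-1 - 1 / L)
      ≤ (j + 1).factorial * L ^ (j + 1) * (n : ℝ) ^ (1 / L) * (n : ℝ) ^ (-1 - 1 / L) :=
        mul_le_mul_of_nonneg_right h1 (by positivity)
    _ = (j + 1).factorial * L ^ (j + 1) * ((n : ℝ) ^ (1 / L) * (n : ℝ) ^ (-1 - 1 / L)) := by ring
    _ = (j + 1).factorial * L ^ (j + 1) * (1 / n) := by
        rw [← Real.rpow_add h0, show 1 / L + (-1 - 1 / L) = (-1 : ℝ) by ring,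
          Real.rpow_neg_one, one_div]

/-- `(log n)^m ≤ 4^m m! n^(1/4)`. -/
theorem log_pow_le (m : ℕ) {n : ℕ} (hn : 1 ≤ n) :
    Real.log n ^ m ≤ m.factorial * 4 ^ m * (n : ℝ) ^ (1 / 4 : ℝ) := by
  have h0 : (0 : ℝ) < n := by exact_mod_cast hn
  have h1 := pow_le_exp m (Real.log_natCast_nonneg n) (by norm_num : (0 : ℝ) < 4)
  have h2 : Real.exp (Real.log n / 4) = (n : ℝ) ^ (1 / 4 : ℝ) := by
    rw [Real.rpow_def_of_pos h0]
    congr 1
    ring
  rwa [h2] at h1

/-- `∑_{a=2}^N x^a ≤ 4 x^2` for `0 ≤ x ≤ 3/4`. -/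
theorem geom_tail {x : ℝ} (hx : 0 ≤ x) (hx1 : x ≤ 3 / 4) (N : ℕ) :
    ∑ a ∈ Icc 2 N, x ^ a ≤ 4 * x ^ 2 := by
  have h1 : ∑ a ∈ Icc 2 N, x ^ a ≤ ∑ i ∈ range N, x ^ (i + 2) := by
    have : Icc 2 N ⊆ (range N).image (fun i => i + 2) := by
      intro a ha
      rw [mem_Icc] at ha
      rw [mem_image]
      exact ⟨a - 2, mem_range.2 (by omega), by omega⟩
    calc ∑ a ∈ Icc 2 N, x ^ a ≤ ∑ a ∈ (range N).image (fun i => i + 2), x ^ a :=
          sum_le_sum_of_subset_of_nonneg this (fun _ _ _ => by positivity)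
      _ = ∑ i ∈ range N, x ^ (i + 2) := by
          rw [sum_image]
          intro a _ b _ h
          simpa using h
  have h2 : ∑ i ∈ range N, x ^ (i + 2) = x ^ 2 * ∑ i ∈ range N, x ^ i := by
    rw [mul_sum]
    exact sum_congr rfl fun i _ => by ring
  have h3 : ∑ i ∈ range N, x ^ i ≤ 4 := by
    have h4 : (∑ i ∈ range N, x ^ i) * (1 - x) = 1 - x ^ N := by
      have := geom_sum_mul x N
      linarith
    have h5 : 0 ≤ x ^ N := by positivity
    have h6 : 0 ≤ ∑ i ∈ range N, x ^ i := sum_nonneg fun _ _ => by positivity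
    nlinarith
  rw [h2] at h1
  have h7 : 0 ≤ x ^ 2 := by positivity
  nlinarith

theorem summable_32 : Summable fun n : ℕ => 1 / (n : ℝ) ^ (3 / 2 : ℝ) :=
  Real.summable_one_div_nat_rpow.2 (by norm_num)

/-- The non-prime part is bounded. -/
theorem nonprime_bound (j : ℕ) : ∃ C : ℝ, 0 < C ∧ ∀ (s : Finset ℕ) (δ : ℝ), 0 ≤ δ →
    ∑ n ∈ s with ¬ n.Prime, w j δ n ≤ C := by
  set c : ℝ := (j + 1).factorial * 4 ^ (j + 1) with hc
  have hc0 : 0 < c := by positivity
  refine ⟨c * (4 * ∑' n : ℕ, 1 / (n : ℝ) ^ (3 / 2 : ℝ)) + 1, ?_, ?_⟩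
  · have : 0 ≤ ∑' n : ℕ, 1 / (n : ℝ) ^ (3 / 2 : ℝ) := tsum_nonneg fun n => by positivity
    positivity
  intro s δ hδ
  -- remove the `n` with `Λ(n) = 0`
  have h1 : ∑ n ∈ s with ¬ n.Prime, w j δ n = ∑ n ∈ s with (¬ n.Prime ∧ IsPrimePow n), w j δ n := by
    symm
    apply sum_subset
    · intro n hn
      rw [mem_filter] at hn ⊢
      exact ⟨hn.1, hn.2.1⟩
    · intro n hn hn'
      rw [mem_filter] at hn hn'
      have : ¬ IsPrimePow n := fun h => hn' ⟨hn.1, hn.2, h⟩
      unfold w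
      rw [ArithmeticFunction.vonMangoldt_apply, if_neg this, zero_mul]
  rw [h1]
  -- pointwise
  have h2 : ∀ n : ℕ, 1 ≤ n → w j δ n ≤ c * (n : ℝ) ^ (-(3 / 4) : ℝ) := by
    intro n hn
    have h0 : (0 : ℝ) < n := by exact_mod_cast hn
    refine (w_le_inv j hδ n).trans ?_
    have h3 := log_pow_le (j + 1) hn
    calc Real.log n ^ (j + 1) * (1 / n) ≤ (c * (n : ℝ) ^ (1 / 4 : ℝ)) * (1 / n) :=
          mul_le_mul_of_nonneg_right h3 (by positivity)
      _ = c * ((n : ℝ) ^ (1 / 4 : ℝ) * (n : ℝ) ^ (-1 : ℝ)) := by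
          rw [Real.rpow_neg_one]; ring
      _ = c * (n : ℝ) ^ (-(3 / 4) : ℝ) := by
          rw [← Real.rpow_add h0]; norm_num
  obtain ⟨N, hN⟩ : ∃ N : ℕ, ∀ n ∈ s, n ≤ N := ⟨s.sup id, fun n hn => le_sup (f := id) hn⟩
  have hsub : (s.filter fun n => ¬ n.Prime ∧ IsPrimePow n) ⊆
      ((Icc 2 N) ×ˢ (Icc 2 N)).image (fun pa : ℕ × ℕ => pa.1 ^ pa.2) := by
    intro n hn
    rw [mem_filter] at hn
    obtain ⟨hns, hnp, hpp⟩ := hn
    rw [isPrimePow_nat_iff] at hpp
    obtain ⟨p, k, hp, hk, hpk⟩ := hpp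
    have hk2 : 2 ≤ k := by
      rcases Nat.lt_or_ge k 2 with h | h
      · have : k = 1 := by omega
        subst this
        rw [pow_one] at hpk
        exact absurd (hpk ▸ hp) hnp
      · exact h
    rw [mem_image]
    refine ⟨(p, k), ?_, hpk⟩
    rw [mem_product, mem_Icc, mem_Icc]
    have hnN := hN n hns
    have h3 : p ≤ n := by
      rw [← hpk]
      exact Nat.le_self_pow (by omega) p
    have h4 : k ≤ n := by
      rw [← hpk]
      exact (Nat.lt_pow_self hp.one_lt).le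
    exact ⟨⟨hp.two_le, h3.trans hnN⟩, hk2, h4.trans hnN⟩
  calc ∑ n ∈ s with (¬ n.Prime ∧ IsPrimePow n), w j δ n
      ≤ ∑ n ∈ s with (¬ n.Prime ∧ IsPrimePow n), c * (n : ℝ) ^ (-(3 / 4) : ℝ) := by
        apply sum_le_sum
        intro n hn
        rw [mem_filter] at hn
        exact h2 n hn.2.2.pos
    _ ≤ ∑ n ∈ ((Icc 2 N) ×ˢ (Icc 2 N)).image (fun pa : ℕ × ℕ => pa.1 ^ pa.2),
          c * (n : ℝ) ^ (-(3 / 4) : ℝ) :=
        sum_le_sum_of_subset_of_nonneg hsub fun _ _ _ => by positivity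
    _ ≤ ∑ pa ∈ (Icc 2 N) ×ˢ (Icc 2 N), c * ((pa.1 ^ pa.2 : ℕ) : ℝ) ^ (-(3 / 4) : ℝ) := by
        have := Finset.sum_image_le_of_nonneg (s := (Icc 2 N) ×ˢ (Icc 2 N))
          (g := fun pa : ℕ × ℕ => pa.1 ^ pa.2) (f := fun n : ℕ => c * (n : ℝ) ^ (-(3 / 4) : ℝ))
          (fun _ _ => by positivity)
        exact this
    _ = c * ∑ p ∈ Icc 2 N, ∑ a ∈ Icc 2 N, ((p : ℝ) ^ (-(3 / 4) : ℝ)) ^ a := by
        rw [sum_product, mul_sum]
        refine sum_congr rfl fun p _ => ?_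
        rw [mul_sum]
        refine sum_congr rfl fun a _ => ?_
        congr 1
        push_cast
        rw [← Real.rpow_natCast, ← Real.rpow_natCast, ← Real.rpow_mul (by positivity),
          ← Real.rpow_mul (by positivity), mul_comm]
    _ ≤ c * ∑ p ∈ Icc 2 N, 4 * (1 / (p : ℝ) ^ (3 / 2 : ℝ)) := by
        apply mul_le_mul_of_nonneg_left _ hc0.le
        apply sum_le_sum
        intro p hp
        rw [mem_Icc] at hp
        have hp0 : (0 : ℝ) < p := by exact_mod_cast (by omega : 0 < p)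
        have hp2 : (2 : ℝ) ≤ p := by exact_mod_cast hp.1
        have h3 : (p : ℝ) ^ (-(3 / 4) : ℝ) ≤ 3 / 4 := by
          calc (p : ℝ) ^ (-(3 / 4) : ℝ) ≤ (2 : ℝ) ^ (-(3 / 4) : ℝ) :=
                Real.rpow_le_rpow_of_nonpos (by norm_num) hp2 (by norm_num)
            _ ≤ (2 : ℝ) ^ (-(1 / 2) : ℝ) :=
                Real.rpow_le_rpow_of_exponent_le (by norm_num) (by norm_num)
            _ ≤ 3 / 4 := by
                rw [Real.rpow_neg (by norm_num), ← Real.sqrt_eq_rpow]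
                rw [inv_le_comm₀ (by positivity) (by norm_num)]
                apply Real.le_sqrt_of_sq_le
                norm_num
        refine (geom_tail (by positivity) h3 N).trans (le_of_eq ?_)
        rw [← Real.rpow_natCast, ← Real.rpow_mul hp0.le]
        rw [one_div, ← Real.rpow_neg hp0.le]
        norm_num
    _ = c * (4 * ∑ p ∈ Icc 2 N, 1 / (p : ℝ) ^ (3 / 2 : ℝ)) := by rw [← mul_sum]
    _ ≤ c * (4 * ∑' n : ℕ, 1 / (n : ℝ) ^ (3 / 2 : ℝ)) := by
        apply mul_le_mul_of_nonneg_left _ hc0.le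
        apply mul_le_mul_of_nonneg_left _ (by norm_num)
        exact summable_32.sum_le_tsum _ fun _ _ => by positivity
    _ ≤ _ := by linarith

/-- The small part. -/
theorem small_bound (j : ℕ) (s : Finset ℕ) {δ y : ℝ} (hδ : 0 ≤ δ) (hy : 0 ≤ y) :
    ∑ n ∈ s.filter (fun n : ℕ => (n : ℝ) < Real.exp y), w j δ n ≤ y ^ (j + 1) * (1 + y) := by
  have hy1 : 1 ≤ Real.exp y := Real.one_le_exp hy
  have h1 := harmonic_floor_le_one_add_log (Real.exp y) hy1
  rw [Real.log_exp] at h1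
  have h2 : (harmonic ⌊Real.exp y⌋₊ : ℝ) = ∑ n ∈ Icc 1 ⌊Real.exp y⌋₊, 1 / (n : ℝ) := by
    rw [harmonic_eq_sum_Icc]
    push_cast
    exact sum_congr rfl fun n _ => by rw [one_div]
  rw [h2] at h1
  have h3 : ∑ n ∈ s.filter (fun n : ℕ => (n : ℝ) < Real.exp y), w j δ n ≤
      ∑ n ∈ (s.filter fun n : ℕ => (n : ℝ) < Real.exp y).filter (fun n => 1 ≤ n),
        y ^ (j + 1) * (1 / (n : ℝ)) := by
    have h4 : ∑ n ∈ s.filter (fun n : ℕ => (n : ℝ) < Real.exp y), w j δ n =
        ∑ n ∈ (s.filter fun n : ℕ => (n : ℝ) < Real.exp y).filter (fun n => 1 ≤ n), w j δ n := by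
      symm
      apply sum_subset (filter_subset _ _)
      intro n hn hn'
      rw [mem_filter] at hn'
      have : n = 0 := by
        by_contra h0
        exact hn' ⟨hn, by omega⟩
      rw [this, w_zero]
    rw [h4]
    apply sum_le_sum
    intro n hn
    rw [mem_filter, mem_filter] at hn
    obtain ⟨⟨hns, hny⟩, hn1⟩ := hn
    refine (w_le_inv j hδ n).trans ?_
    apply mul_le_mul_of_nonneg_right _ (by positivity)
    have h0 : (0 : ℝ) < n := by exact_mod_cast hn1
    have h5 : Real.log n ≤ y := (Real.log_le_iff_le_exp h0).2 hny.le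
    exact pow_le_pow_left₀ (Real.log_natCast_nonneg n) h5 _
  have h6 : (s.filter fun n : ℕ => (n : ℝ) < Real.exp y).filter (fun n => 1 ≤ n) ⊆
      Icc 1 ⌊Real.exp y⌋₊ := by
    intro n hn
    rw [mem_filter, mem_filter] at hn
    rw [mem_Icc]
    exact ⟨hn.2, Nat.le_floor hn.1.2.le⟩
  calc ∑ n ∈ s.filter (fun n : ℕ => (n : ℝ) < Real.exp y), w j δ n
      ≤ ∑ n ∈ (s.filter fun n : ℕ => (n : ℝ) < Real.exp y).filter (fun n => 1 ≤ n),
        y ^ (j + 1) * (1 / (n : ℝ)) := h3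
    _ ≤ ∑ n ∈ Icc 1 ⌊Real.exp y⌋₊, y ^ (j + 1) * (1 / (n : ℝ)) :=
        sum_le_sum_of_subset_of_nonneg h6 fun _ _ _ => by positivity
    _ = y ^ (j + 1) * ∑ n ∈ Icc 1 ⌊Real.exp y⌋₊, 1 / (n : ℝ) := by rw [mul_sum]
    _ ≤ y ^ (j + 1) * (1 + y) := mul_le_mul_of_nonneg_left h1 (by positivity)

/-- `∑ n^(-1-1/(2Λ)) ≤ 4Λ` for large `Λ`. -/
theorem zeta_bound : ∃ L₀ : ℝ, 1 ≤ L₀ ∧ ∀ L : ℝ, L₀ ≤ L → ∀ s : Finset ℕ,
    ∑ n ∈ s, (n : ℝ) ^ (-1 - 1 / (2 * L)) ≤ 4 * L := by
  have h := tendsto_sub_mul_tsum_nat_rpow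
  have h1 := h.eventually_le_const (show (1 : ℝ) < 2 by norm_num)
  rw [eventually_nhdsWithin_iff, Metric.eventually_nhds_iff] at h1
  obtain ⟨ε, hε, h2⟩ := h1
  refine ⟨1 / ε + 1, by have : 0 < 1 / ε := by positivity
                        linarith, ?_⟩
  intro L hL s
  have hL1 : 1 / ε < L := by linarith
  have hL0 : 0 < L := lt_trans (by positivity) hL1
  set t : ℝ := 1 + 1 / (2 * L) with ht
  have ht1 : 1 < t := by
    have : 0 < 1 / (2 * L) := by positivity
    linarith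
  have h3 := h2 (y := t) (by
    rw [Real.dist_eq, ht]
    have : |1 + 1 / (2 * L) - 1| = 1 / (2 * L) := by
      rw [add_sub_cancel_left, abs_of_pos (by positivity)]
    rw [this]
    rw [div_lt_iff₀ (by positivity)]
    rw [div_lt_iff₀ hε] at hL1
    nlinarith) ht1
  have h4 : t - 1 = 1 / (2 * L) := by rw [ht]; ring
  rw [h4] at h3
  have h5 : ∑' n : ℕ, 1 / (n : ℝ) ^ t ≤ 4 * L := by
    rw [one_div, inv_mul_le_iff₀ (by positivity)] at h3
    linarith
  refine le_trans ?_ h5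
  have h6 : Summable fun n : ℕ => 1 / (n : ℝ) ^ t := Real.summable_one_div_nat_rpow.2 ht1
  refine le_trans (sum_le_sum fun n _ => ?_) (h6.sum_le_tsum s fun _ _ => by positivity)
  show (n : ℝ) ^ (-1 - 1 / (2 * L)) ≤ 1 / (n : ℝ) ^ t
  rw [one_div ((n : ℝ) ^ t), ← Real.rpow_neg (Nat.cast_nonneg n)]
  apply le_of_eq
  congr 1
  rw [ht]
  ring

/-- The large part. -/
theorem large_bound (j : ℕ) : ∃ L₀ : ℝ, 1 ≤ L₀ ∧ ∀ L : ℝ, L₀ ≤ L → ∀ s : Finset ℕ,
    ∑ n ∈ s.filter (fun n : ℕ => Real.exp (L ^ (3 / 2 : ℝ)) < (n : ℝ)), w j (1 / L) n ≤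
      (j + 1).factorial * (4 * L) ^ (j + 1) * Real.exp (-(Real.sqrt L / 4)) * (4 * L) := by
  obtain ⟨L₀, hL₀, h⟩ := zeta_bound
  refine ⟨L₀, hL₀, fun L hL s => ?_⟩
  have hL1 : 1 ≤ L := hL₀.trans hL
  have hL0 : 0 < L := by linarith
  set K : ℝ := (j + 1).factorial * (4 * L) ^ (j + 1) * Real.exp (-(Real.sqrt L / 4)) with hK
  have hK0 : 0 ≤ K := by positivity
  have h32 : L ^ (3 / 2 : ℝ) = L * Real.sqrt L := by
    rw [Real.sqrt_eq_rpow, ← Real.rpow_one_add' hL0.le (by norm_num)]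
    norm_num
  calc ∑ n ∈ s.filter (fun n : ℕ => Real.exp (L ^ (3 / 2 : ℝ)) < (n : ℝ)), w j (1 / L) n
      ≤ ∑ n ∈ s.filter (fun n : ℕ => Real.exp (L ^ (3 / 2 : ℝ)) < (n : ℝ)), K * (n : ℝ) ^ (-1 - 1 / (2 * L)) := by
        apply sum_le_sum
        intro n hn
        rw [mem_filter] at hn
        have hn0 : (0 : ℝ) < n := lt_trans (Real.exp_pos _) hn.2
        refine (w_le j _ n).trans ?_
        have h1 := pow_le_exp (j + 1) (Real.log_natCast_nonneg n)
          (show (0 : ℝ) < 4 * L by positivity)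
        have h2 : L * Real.sqrt L ≤ Real.log n := by
          rw [← h32]
          exact ((Real.lt_log_iff_exp_lt hn0).2 hn.2).le
        have h3 : Real.exp (Real.log n / (4 * L)) * (n : ℝ) ^ (-1 - 1 / L) ≤
            Real.exp (-(Real.sqrt L / 4)) * (n : ℝ) ^ (-1 - 1 / (2 * L)) := by
          rw [Real.rpow_def_of_pos hn0, Real.rpow_def_of_pos hn0, ← Real.exp_add, ← Real.exp_add]
          apply Real.exp_le_exp.2
          have h4 : Real.sqrt L / 4 ≤ Real.log n / (4 * L) := by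
            rw [div_le_div_iff₀ (by norm_num) (by positivity)]
            nlinarith
          have h5 : Real.log n * (-1 - 1 / L) =
              Real.log n * (-1 - 1 / (2 * L)) - 2 * (Real.log n / (4 * L)) := by
            field_simp
            ring
          rw [h5]
          linarith
        calc Real.log n ^ (j + 1) * (n : ℝ) ^ (-1 - 1 / L)
            ≤ (j + 1).factorial * (4 * L) ^ (j + 1) * Real.exp (Real.log n / (4 * L)) *
              (n : ℝ) ^ (-1 - 1 / L) := mul_le_mul_of_nonneg_right h1 (by positivity)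
          _ = (j + 1).factorial * (4 * L) ^ (j + 1) * (Real.exp (Real.log n / (4 * L)) *
              (n : ℝ) ^ (-1 - 1 / L)) := by ring
          _ ≤ (j + 1).factorial * (4 * L) ^ (j + 1) * (Real.exp (-(Real.sqrt L / 4)) *
              (n : ℝ) ^ (-1 - 1 / (2 * L))) :=
              mul_le_mul_of_nonneg_left h3 (by positivity)
          _ = K * (n : ℝ) ^ (-1 - 1 / (2 * L)) := by rw [hK]; ring
    _ = K * ∑ n ∈ s.filter (fun n : ℕ => Real.exp (L ^ (3 / 2 : ℝ)) < (n : ℝ)), (n : ℝ) ^ (-1 - 1 / (2 * L)) := by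
        rw [mul_sum]
    _ ≤ K * (4 * L) := mul_le_mul_of_nonneg_left (h L hL _) hK0

/-- The splitting for finite sums. -/
theorem split (j q : ℕ) {L : ℝ} (s S : Finset ℕ)
    (hS : ∀ n : ℕ, n.Prime → n ≡ 1 [MOD q] → Real.exp (Real.sqrt L) ≤ n →
      (n : ℝ) ≤ Real.exp (L ^ (3 / 2 : ℝ)) → n ∈ S) :
    ∑ n ∈ s, (if n ≡ 1 [MOD q] then w j (1 / L) n else 0) ≤
      ∑ n ∈ S, w j (1 / L) n + ∑ n ∈ s with ¬ n.Prime, w j (1 / L) n +
      ∑ n ∈ s.filter (fun n : ℕ => (n : ℝ) < Real.exp (Real.sqrt L)), w j (1 / L) n +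
      ∑ n ∈ s.filter (fun n : ℕ => Real.exp (L ^ (3 / 2 : ℝ)) < (n : ℝ)), w j (1 / L) n := by
  classical
  have h1 : ∑ n ∈ s, (if n ≡ 1 [MOD q] then w j (1 / L) n else 0) ≤
      ∑ n ∈ s, ((if n ∈ S then w j (1 / L) n else 0) + (if ¬ n.Prime then w j (1 / L) n else 0) +
        (if (n : ℝ) < Real.exp (Real.sqrt L) then w j (1 / L) n else 0) +
        (if Real.exp (L ^ (3 / 2 : ℝ)) < (n : ℝ) then w j (1 / L) n else 0)) := by
    apply sum_le_sum
    intro n _
    have h0 := w_nonneg j (1 / L) n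
    by_cases hq : n ≡ 1 [MOD q]
    · rw [if_pos hq]
      by_cases hp : n.Prime
      · by_cases ha : (n : ℝ) < Real.exp (Real.sqrt L)
        · rw [if_pos ha]
          split_ifs <;> linarith
        · by_cases hb : Real.exp (L ^ (3 / 2 : ℝ)) < (n : ℝ)
          · rw [if_pos hb]
            split_ifs <;> linarith
          · rw [if_pos (hS n hp hq (not_lt.1 ha) (not_lt.1 hb))]
            split_ifs <;> linarith
      · rw [if_pos hp]
        split_ifs <;> linarith
    · rw [if_neg hq]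
      split_ifs <;> linarith
  refine h1.trans ?_
  rw [sum_add_distrib, sum_add_distrib, sum_add_distrib, sum_filter, sum_filter, sum_filter]
  have h2 : ∑ n ∈ s, (if n ∈ S then w j (1 / L) n else 0) ≤ ∑ n ∈ S, w j (1 / L) n := by
    rw [← sum_filter]
    apply sum_le_sum_of_subset_of_nonneg
    · intro n hn
      rw [mem_filter] at hn
      exact hn.2
    · intro n _ _
      exact w_nonneg _ _ _
  linarith

end M9

open M9 in
theorem s9 : S9 := by
  intro E Q j hj
  obtain ⟨C₂, hC₂, hnp⟩ := nonprime_bound j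
  obtain ⟨L₁, hL₁, hlarge⟩ := large_bound j
  set m : ℕ := 2 * (E + Q + 3) with hm
  set C₁ : ℝ := ((j + 1).factorial : ℝ) with hC₁
  set C₄ : ℝ := (j + 1).factorial * 4 ^ (j + 1) * 4 * (m.factorial * 4 ^ m) with hC₄
  have hC₁0 : 0 < C₁ := by rw [hC₁]; exact_mod_cast (j + 1).factorial_pos
  have hC₄0 : 0 < C₄ := by
    have : (0 : ℝ) < m.factorial := by exact_mod_cast m.factorial_pos
    rw [hC₄]
    positivity
  refine ⟨L₁ + 8 * C₁ + 8 * C₂ + 8 * C₄ + 16, by linarith, ?_⟩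
  intro L hL q hq hqL hAP
  have hLL₁ : L₁ ≤ L := by linarith
  have hL16 : 16 ≤ L := by linarith
  have hL8C₁ : 8 * C₁ ≤ L := by linarith
  have hL8C₂ : 8 * C₂ ≤ L := by linarith
  have hL8C₄ : 8 * C₄ ≤ L := by linarith
  have hL0 : 0 < L := by linarith
  have hL1 : 1 ≤ L := by linarith
  have hq0 : (0 : ℝ) < q := by exact_mod_cast hq
  classical
  set S : Finset ℕ := (range (⌊Real.exp (L ^ (3 / 2 : ℝ))⌋₊ + 1)).filter
    (fun n : ℕ => n.Prime ∧ n ≡ 1 [MOD q] ∧ Real.exp (Real.sqrt L) ≤ n ∧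
      (n : ℝ) ≤ Real.exp (L ^ (3 / 2 : ℝ))) with hS
  refine ⟨S, fun l hl => ?_, ?_⟩
  · rw [hS, mem_filter] at hl
    exact hl.2
  by_contra hcon
  push Not at hcon
  -- the total bound for `Λ^E q * (finite sum)`
  have hfin : ∀ s : Finset ℕ, ∑ n ∈ s, (if n ≡ 1 [MOD q] then w j (1 / L) n else 0) ≤
      L ^ j / (L ^ E * q) * (1 / 2) := by
    intro s
    set R : ℝ := L ^ j / (L ^ E * q) with hR
    have hR0 : 0 < R := by rw [hR]; positivity
    have hRlow : L ^ (j - E - Q) ≤ R := by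
      rw [hR, le_div_iff₀ (by positivity)]
      calc L ^ (j - E - Q) * (L ^ E * q) ≤ L ^ (j - E - Q) * (L ^ E * L ^ Q) := by
            apply mul_le_mul_of_nonneg_left _ (by positivity)
            exact mul_le_mul_of_nonneg_left hqL (by positivity)
        _ = L ^ j := by
            rw [← pow_add, ← pow_add]
            congr 1
            omega
    have h1 := split j q (L := L) s S (fun n h1 h2 h3 h4 => by
      rw [hS, mem_filter, mem_range]
      exact ⟨Nat.lt_succ_of_le (Nat.le_floor h4), h1, h2, h3, h4⟩)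
    refine h1.trans ?_
    -- part 1
    have hP1 : ∑ n ∈ S, w j (1 / L) n ≤ R / 8 := by
      calc ∑ n ∈ S, w j (1 / L) n ≤ ∑ n ∈ S, C₁ * L ^ (j + 1) * (1 / n) :=
            sum_le_sum fun n _ => w_le_point j hL0 n
        _ = C₁ * L ^ (j + 1) * ∑ n ∈ S, (1 : ℝ) / n := by rw [mul_sum]
        _ ≤ C₁ * L ^ (j + 1) * (1 / (L ^ (E + 2) * q)) := by
            apply mul_le_mul_of_nonneg_left _ (by positivity)
            rw [le_div_iff₀ (by positivity)]
            linarith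
        _ = C₁ / L * R := by
            rw [hR]
            field_simp
            ring
        _ ≤ (1 / 8) * R := by
            apply mul_le_mul_of_nonneg_right _ hR0.le
            rw [div_le_iff₀ hL0]
            linarith
        _ = R / 8 := by ring
    -- part 2
    have hLR : L ≤ R := by
      refine le_trans ?_ hRlow
      calc L = L ^ 1 := (pow_one L).symm
        _ ≤ L ^ (j - E - Q) := pow_le_pow_right₀ hL1 (by omega)
    have hP2 : ∑ n ∈ s with ¬ n.Prime, w j (1 / L) n ≤ R / 8 := by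
      refine (hnp s (1 / L) (by positivity)).trans ?_
      linarith
    -- part 3
    have hsq : 4 ≤ Real.sqrt L := by
      apply Real.le_sqrt_of_sq_le
      linarith
    have hsqL : Real.sqrt L ^ 2 = L := Real.sq_sqrt hL0.le
    have hP3 : ∑ n ∈ s.filter (fun n : ℕ => (n : ℝ) < Real.exp (Real.sqrt L)), w j (1 / L) n ≤ R / 8 := by
      refine (small_bound j s (by positivity) (Real.sqrt_nonneg L)).trans ?_
      have h2 : Real.sqrt L ^ (2 * (j - E - Q)) ≤ R := by
        rw [pow_mul, hsqL]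
        exact hRlow
      have h3 : Real.sqrt L ^ (j + 1) * (1 + Real.sqrt L) * 8 ≤
          Real.sqrt L ^ (2 * (j - E - Q)) := by
        calc Real.sqrt L ^ (j + 1) * (1 + Real.sqrt L) * 8
            ≤ Real.sqrt L ^ (j + 1) * (2 * Real.sqrt L) * 8 := by
              apply mul_le_mul_of_nonneg_right _ (by norm_num)
              apply mul_le_mul_of_nonneg_left _ (by positivity)
              linarith
          _ = Real.sqrt L ^ (j + 2) * 4 ^ 2 := by ring
          _ ≤ Real.sqrt L ^ (j + 2) * Real.sqrt L ^ 2 := by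
              apply mul_le_mul_of_nonneg_left _ (by positivity)
              exact pow_le_pow_left₀ (by norm_num) hsq 2
          _ = Real.sqrt L ^ (j + 4) := by rw [← pow_add]
          _ ≤ Real.sqrt L ^ (2 * (j - E - Q)) :=
              pow_le_pow_right₀ (by linarith) (by omega)
      linarith
    -- part 4
    have hP4 : ∑ n ∈ s.filter (fun n : ℕ => Real.exp (L ^ (3 / 2 : ℝ)) < (n : ℝ)), w j (1 / L) n ≤ R / 8 := by
      refine (hlarge L hLL₁ s).trans ?_
      have h2 := pow_le_exp m (Real.sqrt_nonneg L) (show (0 : ℝ) < 4 by norm_num)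
      have h3 : Real.sqrt L ^ m = L ^ (E + Q + 3) := by
        rw [hm, pow_mul, hsqL]
      rw [h3] at h2
      have h4 : Real.exp (-(Real.sqrt L / 4)) * L ^ (E + Q + 3) ≤ m.factorial * 4 ^ m := by
        calc Real.exp (-(Real.sqrt L / 4)) * L ^ (E + Q + 3)
            ≤ Real.exp (-(Real.sqrt L / 4)) *
              (m.factorial * 4 ^ m * Real.exp (Real.sqrt L / 4)) :=
              mul_le_mul_of_nonneg_left h2 (by positivity)
          _ = m.factorial * 4 ^ m *
              (Real.exp (-(Real.sqrt L / 4)) * Real.exp (Real.sqrt L / 4)) := by ring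
          _ = m.factorial * 4 ^ m := by
              rw [← Real.exp_add, neg_add_cancel, Real.exp_zero, mul_one]
      have h5 : (j + 1).factorial * (4 * L) ^ (j + 1) * Real.exp (-(Real.sqrt L / 4)) * (4 * L) *
          L ^ (E + Q + 3) ≤ C₄ * L ^ (j + 2) := by
        calc (j + 1).factorial * (4 * L) ^ (j + 1) * Real.exp (-(Real.sqrt L / 4)) * (4 * L) *
            L ^ (E + Q + 3)
            = ((j + 1).factorial * 4 ^ (j + 1) * 4) * L ^ (j + 2) *
              (Real.exp (-(Real.sqrt L / 4)) * L ^ (E + Q + 3)) := by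
              rw [mul_pow]
              ring
          _ ≤ ((j + 1).factorial * 4 ^ (j + 1) * 4) * L ^ (j + 2) * (m.factorial * 4 ^ m) :=
              mul_le_mul_of_nonneg_left h4 (by positivity)
          _ = C₄ * L ^ (j + 2) := by rw [hC₄]; ring
      have h6 : C₄ * L ^ (j + 2) ≤ R / 8 * L ^ (E + Q + 3) := by
        calc C₄ * L ^ (j + 2) ≤ L / 8 * L ^ (j + 2) := by
              apply mul_le_mul_of_nonneg_right _ (by positivity)
              linarith
          _ = L ^ (j - E - Q) / 8 * L ^ (E + Q + 3) := by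
              have : L ^ (j - E - Q) / 8 * L ^ (E + Q + 3) =
                L ^ (j - E - Q + (E + Q + 3)) / 8 := by rw [pow_add]; ring
              rw [this, show j - E - Q + (E + Q + 3) = j + 3 by omega]
              ring
          _ ≤ R / 8 * L ^ (E + Q + 3) := by
              apply mul_le_mul_of_nonneg_right _ (by positivity)
              linarith
      have h7 : 0 < L ^ (E + Q + 3) := by positivity
      exact le_of_mul_le_mul_right (h5.trans h6) h7
    linarith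
  have hle : AP q j (1 / L) ≤ L ^ j / (L ^ E * q) * (1 / 2) := by
    unfold AP
    apply tsum_le_of_sum_le'
    · positivity
    · exact hfin
  have h8 : L ^ E * q * AP q j (1 / L) ≤ L ^ j * (1 / 2) := by
    calc L ^ E * q * AP q j (1 / L) ≤ L ^ E * q * (L ^ j / (L ^ E * q) * (1 / 2)) :=
          mul_le_mul_of_nonneg_left hle (by positivity)
      _ = L ^ j * (1 / 2) := by field_simp
  have h9 : 0 < L ^ j := by positivity
  linarith

end Pool.Agent.Lib.MP_509488_nt.Unif
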