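import Mathlib
import Pool.Agent.Lib.MP_509488_nt.Unif.Stmts2

/-!
# Bound for the exponent `r` in a solution when `l` divides `x`
-/

namespace Pool.Agent.Lib.MP_509488_nt.Unif.RB

open Finset

theorem pow_gap_nat {a b s : ℕ} (h : b < a) : b ^ (s + 1) + a ^ s ≤ a ^ (s + 1) := by
  have h1 : b ^ s ≤ a ^ s := Nat.pow_le_pow_left h.le s
  have h2 : b ^ (s + 1) = b ^ s * b := pow_succ b s
  have h3 : a ^ (s + 1) = a ^ s * a := pow_succ a s
  have h4 : b ^ s * b ≤ a ^ s * b := Nat.mul_le_mul_right b h1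
  have h5 : a ^ s * (b + 1) ≤ a ^ s * a := Nat.mul_le_mul_left _ h
  rw [h2, h3]
  have h6 : a ^ s * (b + 1) = a ^ s * b + a ^ s := by ring
  omega

theorem zmod_cancel {l r : ℕ} (hl : l.Prime) (hr : r.Prime) (hlr : l < r) {a b : ℤ}
    (ha : ¬ (l : ℤ) ∣ a) (hb : ¬ (l : ℤ) ∣ b) (h : (l : ℤ) ∣ a ^ r - b ^ r) :
    (l : ℤ) ∣ a - b := by
  haveI := Fact.mk hl
  have ha' : (a : ZMod l) ≠ 0 := by
    intro h0; exact ha ((ZMod.intCast_zmod_eq_zero_iff_dvd a l).1 h0)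
  have hb' : (b : ZMod l) ≠ 0 := by
    intro h0; exact hb ((ZMod.intCast_zmod_eq_zero_iff_dvd b l).1 h0)
  have h1 : ((a ^ r - b ^ r : ℤ) : ZMod l) = 0 :=
    (ZMod.intCast_zmod_eq_zero_iff_dvd _ l).2 h
  have h2 : (a : ZMod l) ^ r = (b : ZMod l) ^ r := by
    have : (a : ZMod l) ^ r - (b : ZMod l) ^ r = 0 := by
      simpa using h1
    exact sub_eq_zero.1 this
  have h3 : ((a : ZMod l) / b) ^ r = 1 := by
    rw [div_pow, h2, div_self (pow_ne_zero _ hb')]
  have h4 : ((a : ZMod l) / b) ^ (l - 1) = 1 :=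
    ZMod.pow_card_sub_one_eq_one (div_ne_zero ha' hb')
  have h5 : Nat.gcd r (l - 1) = 1 := by
    have h6 : Nat.Coprime r (l - 1) := by
      rw [Nat.Prime.coprime_iff_not_dvd hr]
      intro hd
      have := Nat.le_of_dvd (by have := hl.two_le; omega) hd
      omega
    exact h6
  have h6 : ((a : ZMod l) / b) ^ (Nat.gcd r (l - 1)) = 1 := by
    have h7 := orderOf_dvd_of_pow_eq_one h3
    have h8 := orderOf_dvd_of_pow_eq_one h4
    exact orderOf_dvd_iff_pow_eq_one.1 (Nat.dvd_gcd h7 h8)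
  rw [h5, pow_one] at h6
  have h7 : (a : ZMod l) = b := by
    rwa [div_eq_one_iff_eq hb'] at h6
  apply (ZMod.intCast_zmod_eq_zero_iff_dvd _ l).1
  push_cast
  rw [h7, sub_self]

theorem lte {l r p : ℕ} (hl : l.Prime) (hr : r.Prime) (hlr : l < r) {a b : ℤ} (hp : 1 ≤ p)
    (ha : ¬ (l : ℤ) ∣ a) (hb : ¬ (l : ℤ) ∣ b) (h : (l : ℤ) ^ p ∣ a ^ r - b ^ r) :
    (l : ℤ) ^ p ∣ a - b := by
  have h1 : (l : ℤ) ∣ a ^ r - b ^ r := (dvd_pow_self _ (by omega)).trans h
  have h2 := zmod_cancel hl hr hlr ha hb h1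
  have h3 : ¬ (l : ℤ) ∣ (r : ℤ) := by
    rw [Int.natCast_dvd_natCast, Nat.prime_dvd_prime_iff_eq hl hr]
    omega
  have h4 := emultiplicity_pow_sub_pow_of_prime (Nat.prime_iff_prime_int.1 hl) h2 ha h3
  rw [pow_dvd_iff_le_emultiplicity] at h ⊢
  rwa [← h4]

/-- `max ^ (r-1) ≤ |a ^ r - b ^ r|` for `r` odd. -/
theorem gap_int {s : ℕ} (hs : Odd (s + 1)) {a b : ℤ} (hab : a ≠ b) :
    (max a.natAbs b.natAbs) ^ s ≤ (a ^ (s + 1) - b ^ (s + 1)).natAbs := by
  have key : ∀ A B : ℕ, A ≠ B → (max A B) ^ s ≤ ((A : ℤ) ^ (s + 1) - (B : ℤ) ^ (s + 1)).natAbs := by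
    intro A B hAB
    rcases lt_or_gt_of_ne hAB with h | h
    · have h1 := pow_gap_nat (s := s) h
      rw [max_eq_right h.le]
      zify at h1 ⊢
      rw [abs_sub_comm]
      exact le_trans (by linarith) (le_abs_self _)
    · have h1 := pow_gap_nat (s := s) h
      rw [max_eq_left h.le]
      zify at h1 ⊢
      exact le_trans (by linarith) (le_abs_self _)
  have key2 : ∀ A B : ℕ, A ≠ 0 ∨ B ≠ 0 →
      (max A B) ^ s ≤ ((A : ℤ) ^ (s + 1) + (B : ℤ) ^ (s + 1)).natAbs := by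
    intro A B hAB
    have h0 : 1 ≤ max A B := by omega
    have h1 : (max A B) ^ s ≤ (max A B) ^ (s + 1) := Nat.pow_le_pow_right h0 (by omega)
    have h2 : (max A B) ^ (s + 1) ≤ A ^ (s + 1) + B ^ (s + 1) := by
      rcases le_total A B with h | h
      · rw [max_eq_right h]; omega
      · rw [max_eq_left h]; omega
    have h3 : ((A : ℤ) ^ (s + 1) + (B : ℤ) ^ (s + 1)).natAbs = A ^ (s + 1) + B ^ (s + 1) := by
      have : ((A : ℤ) ^ (s + 1) + (B : ℤ) ^ (s + 1)) = ((A ^ (s + 1) + B ^ (s + 1) : ℕ) : ℤ) := by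
        push_cast; ring
      rw [this, Int.natAbs_natCast]
    rw [h3]; exact h1.trans h2
  rcases Int.natAbs_eq a with ha | ha <;> rcases Int.natAbs_eq b with hb | hb
  · rw [ha, hb]
    simp only [Int.natAbs_natCast]
    refine key _ _ ?_
    intro h; apply hab; rw [ha, hb, h]
  · by_cases h0 : a.natAbs ≠ 0 ∨ b.natAbs ≠ 0
    · have h1 := key2 _ _ h0
      have h2 : a ^ (s + 1) - b ^ (s + 1) = (a.natAbs : ℤ) ^ (s + 1) + (b.natAbs : ℤ) ^ (s + 1) := by
        conv_lhs => rw [ha, hb]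
        rw [hs.neg_pow]; ring
      rw [h2]; exact h1
    · push Not at h0
      exact absurd (by rw [Int.natAbs_eq_zero.1 h0.1, Int.natAbs_eq_zero.1 h0.2]) hab
  · by_cases h0 : a.natAbs ≠ 0 ∨ b.natAbs ≠ 0
    · have h1 := key2 _ _ h0
      have h2 : a ^ (s + 1) - b ^ (s + 1) =
          -((a.natAbs : ℤ) ^ (s + 1) + (b.natAbs : ℤ) ^ (s + 1)) := by
        conv_lhs => rw [ha, hb]
        rw [hs.neg_pow]; ring
      rw [h2, Int.natAbs_neg]; exact h1
    · push Not at h0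
      exact absurd (by rw [Int.natAbs_eq_zero.1 h0.1, Int.natAbs_eq_zero.1 h0.2]) hab
  · have h0 : a.natAbs ≠ b.natAbs := by
      intro h; apply hab; rw [ha, hb, h]
    have h1 := key _ _ h0
    have h2 : a ^ (s + 1) - b ^ (s + 1) =
        -((a.natAbs : ℤ) ^ (s + 1) - (b.natAbs : ℤ) ^ (s + 1)) := by
      conv_lhs => rw [ha, hb]
      rw [hs.neg_pow, hs.neg_pow]; ring
    rw [h2, Int.natAbs_neg]; exact h1

/-- Case (i): `r` divides the exponent of `y`. -/
theorem case_dvd {x w p r l : ℕ} {z e₁ e₂ : ℤ} (hx : 1 ≤ x) (hp : 1 ≤ p) (hr : r.Prime)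
    (hl : l.Prime) (hlr : l < r) (hlx : l ∣ x) (hz : ¬ (l : ℤ) ∣ z) (hw : ¬ (l : ℤ) ∣ (w : ℤ))
    (he₁ : e₁ = 1 ∨ e₁ = -1) (he₂ : e₂ = 1 ∨ e₂ = -1) (hz2 : 2 ≤ z.natAbs)
    (h : e₁ * (x : ℤ) ^ p + e₂ * (w : ℤ) ^ r = z ^ r) :
    ((r : ℝ) - 1) * Real.log 2 ≤ 2 * Real.log x := by
  have hl2 := hl.two_le
  have hodd : Odd r := hr.odd_of_ne_two (by omega)
  obtain ⟨s, rfl⟩ : ∃ s, r = s + 1 := ⟨r - 1, by omega⟩
  have hE : (e₂ * (w : ℤ)) ^ (s + 1) = e₂ * (w : ℤ) ^ (s + 1) := by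
    rcases he₂ with h2 | h2
    · rw [h2]; ring
    · rw [h2, neg_one_mul, hodd.neg_pow]; ring
  have hE1 : z ^ (s + 1) - (e₂ * (w : ℤ)) ^ (s + 1) = e₁ * (x : ℤ) ^ p := by
    rw [hE, ← h]; ring
  have hw' : ¬ (l : ℤ) ∣ e₂ * (w : ℤ) := by
    rcases he₂ with h2 | h2
    · rw [h2, one_mul]; exact hw
    · rw [h2, neg_one_mul, dvd_neg]; exact hw
  have hxp : (x : ℤ) ^ p ≠ 0 := pow_ne_zero _ (by positivity)
  have he1 : e₁ ≠ 0 := by rcases he₁ with h1 | h1 <;> rw [h1] <;> decide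
  have hne : z ≠ e₂ * (w : ℤ) := by
    intro h0
    rw [h0, sub_self] at hE1
    exact (mul_ne_zero he1 hxp) hE1.symm
  have hd : (l : ℤ) ^ p ∣ z ^ (s + 1) - (e₂ * (w : ℤ)) ^ (s + 1) := by
    rw [hE1]
    exact (pow_dvd_pow_of_dvd (by exact_mod_cast hlx) p).mul_left _
  have hd2 := lte hl hr hlr hp hz hw' hd
  have hgap := gap_int hodd hne
  rw [hE1] at hgap
  have habs : (e₁ * (x : ℤ) ^ p).natAbs = x ^ p := by
    rw [Int.natAbs_mul, Int.natAbs_pow, Int.natAbs_natCast]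
    rcases he₁ with h1 | h1 <;> rw [h1] <;> simp
  rw [habs] at hgap
  set M := max z.natAbs (e₂ * (w : ℤ)).natAbs with hM
  have hM2 : 2 ≤ M := le_trans hz2 (le_max_left _ _)
  -- `2 ^ p ≤ 2 M`
  have h2p : 2 ^ p ≤ 2 * M := by
    have h1 : l ^ p ≤ (z - e₂ * (w : ℤ)).natAbs := by
      have h3 : (l : ℤ) ^ p = ((l ^ p : ℕ) : ℤ) := by push_cast; rfl
      rw [h3, Int.natCast_dvd] at hd2
      exact Nat.le_of_dvd (Int.natAbs_pos.2 (sub_ne_zero.2 hne)) hd2
    have h4 : (z - e₂ * (w : ℤ)).natAbs ≤ z.natAbs + (e₂ * (w : ℤ)).natAbs :=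
      Int.natAbs_sub_le _ _
    have h5 : z.natAbs ≤ M := le_max_left _ _
    have h6 : (e₂ * (w : ℤ)).natAbs ≤ M := le_max_right _ _
    have h7 : 2 ^ p ≤ l ^ p := Nat.pow_le_pow_left hl2 p
    omega
  have hMr : (2 : ℝ) ≤ M := by exact_mod_cast hM2
  have hlogM : 0 < Real.log M := Real.log_pos (by linarith)
  have hlog2 : 0 < Real.log 2 := Real.log_pos (by norm_num)
  have hxr : (1 : ℝ) ≤ x := by exact_mod_cast hx
  have hlogx : 0 ≤ Real.log x := Real.log_nonneg hxr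
  have hA : (p : ℝ) * Real.log 2 ≤ 2 * Real.log M := by
    have h1 : ((2 : ℝ) ^ p) ≤ 2 * M := by exact_mod_cast h2p
    have h2 := Real.log_le_log (by positivity) h1
    rw [Real.log_pow, Real.log_mul (by norm_num) (by linarith)] at h2
    have h3 : Real.log 2 ≤ Real.log M := Real.log_le_log (by norm_num) hMr
    linarith
  have hB : (s : ℝ) * Real.log M ≤ p * Real.log x := by
    have h1 : ((M : ℝ) ^ s) ≤ (x : ℝ) ^ p := by exact_mod_cast hgap
    have h2 := Real.log_le_log (by positivity) h1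
    rwa [Real.log_pow, Real.log_pow] at h2
  have hC : (s : ℝ) * Real.log 2 * Real.log M ≤ 2 * Real.log x * Real.log M := by
    calc (s : ℝ) * Real.log 2 * Real.log M = (s * Real.log M) * Real.log 2 := by ring
      _ ≤ (p * Real.log x) * Real.log 2 := mul_le_mul_of_nonneg_right hB hlog2.le
      _ = (p * Real.log 2) * Real.log x := by ring
      _ ≤ (2 * Real.log M) * Real.log x := mul_le_mul_of_nonneg_right hA hlogx
      _ = _ := by ring
  have hD := le_of_mul_le_mul_right hC hlogM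
  push_cast
  rw [add_sub_cancel_right]
  exact hD


theorem log_le_div_add {t : ℝ} (ht : 0 < t) (k : ℕ) :
    Real.log t ≤ t / 2 ^ k - 1 + k * Real.log 2 := by
  have h1 : Real.log t = Real.log (t / 2 ^ k) + k * Real.log 2 := by
    rw [← Real.log_pow, ← Real.log_mul (by positivity) (by positivity)]
    congr 1
    field_simp
  have h2 := Real.log_le_sub_one_of_pos (x := t / 2 ^ k) (by positivity)
  linarith

theorem case_ndvd (hTL : TwoLogs) {x y p q r l E Z : ℕ} {T : ℝ} (hT1 : 1024 ≤ T)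
    (hT2 : 68 + 10 * ((E : ℝ) + 1) * Real.log T ≤ T)
    (hxT : Real.log x ≤ T) (hyT : Real.log y ≤ T) (hx : 1 ≤ x) (hy : 2 ≤ y) (hZ : 2 ≤ Z)
    (hl : l.Prime) (hlT : (l : ℝ) ≤ T ^ E) (hr : r.Prime) (hlr : l < r) (hrq : ¬ r ∣ q)
    (hq : 1 ≤ q) (h1 : Z ^ r ≤ 2 * x ^ p) (h2 : y ^ q ≤ x ^ p)
    (hZl : ¬ l ∣ Z) (hyl : ¬ l ∣ y)
    (hd : (l : ℤ) ^ p ∣ ((Z ^ (2 * (l - 1)) : ℕ) : ℤ) ^ r - ((y ^ (2 * (l - 1)) : ℕ) : ℤ) ^ q) :
    (r : ℝ) ≤ T ^ (2 * E + 5) := by
  have hl2 := hl.two_le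
  have hlog2a : (0.6931471803 : ℝ) < Real.log 2 := Real.log_two_gt_d9
  have hlog2b : Real.log 2 < (0.6931471808 : ℝ) := Real.log_two_lt_d9
  set G : ℕ := 2 * (l - 1) with hG
  have hG2 : (2 : ℝ) ≤ (G : ℝ) := by
    have : 2 ≤ G := by omega
    exact_mod_cast this
  have hGT : (G : ℝ) ≤ 2 * T ^ E := by
    have h3 : G ≤ 2 * l := by omega
    have h4 : (G : ℝ) ≤ 2 * (l : ℝ) := by exact_mod_cast h3
    linarith
  have hZr : (2 : ℝ) ≤ Z := by exact_mod_cast hZ
  have hyr : (2 : ℝ) ≤ y := by exact_mod_cast hy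
  have hxr : (1 : ℝ) ≤ x := by exact_mod_cast hx
  set lz := Real.log Z with hlz
  set ly := Real.log y with hly
  set lx := Real.log x with hlx
  have hlz2 : Real.log 2 ≤ lz := Real.log_le_log (by norm_num) hZr
  have hly2 : Real.log 2 ≤ ly := Real.log_le_log (by norm_num) hyr
  have hlx0 : 0 ≤ lx := Real.log_nonneg hxr
  have hlz0 : 0 < lz := by linarith
  have hly0 : 0 < ly := by linarith
  have hT0 : 0 < T := by linarith
  have hTE : 1 ≤ T ^ E := one_le_pow₀ (by linarith)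
  have ha : Real.log ((Z ^ G : ℕ) : ℝ) = G * lz := by
    push_cast; rw [Real.log_pow]
  have hb : Real.log ((y ^ G : ℕ) : ℝ) = G * ly := by
    push_cast; rw [Real.log_pow]
  have ha1 : 1 ≤ (G : ℝ) * lz := by nlinarith
  have hb1 : 1 ≤ (G : ℝ) * ly := by nlinarith
  have hrpos : (1 : ℝ) ≤ r := by exact_mod_cast hr.one_lt.le
  have hqpos : (1 : ℝ) ≤ q := by exact_mod_cast hq
  set b' : ℝ := q / (G * lz) + r / (G * ly) with hb'
  have hb'0 : 0 < b' := by positivity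
  set L : ℕ := ⌈10 + 3 * max 0 (Real.log b')⌉₊ with hL
  have hL0 : 10 + 3 * max 0 (Real.log b') ≤ (L : ℝ) := Nat.le_ceil _
  have hLu : (L : ℝ) ≤ 11 + 3 * max 0 (Real.log b') := by
    have h3 : (0 : ℝ) ≤ 10 + 3 * max 0 (Real.log b') := by
      have := le_max_left 0 (Real.log b'); linarith
    have h4 := Nat.ceil_lt_add_one h3
    linarith
  have hL10r : (10 : ℝ) ≤ L := by
    have := le_max_left 0 (Real.log b'); linarith
  have hL10 : 10 ≤ L := by exact_mod_cast hL10r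
  have hL2 : 10 + 3 * Real.log b' ≤ (L : ℝ) := by
    have := le_max_right 0 (Real.log b'); linarith
  have hcop : Nat.Coprime q r := (Nat.coprime_comm.1 ((Nat.Prime.coprime_iff_not_dvd hr).2 hrq))
  have hlr' : ¬ l ∣ r := by
    rw [Nat.prime_dvd_prime_iff_eq hl hr]; omega
  have hferm : ∀ w : ℕ, ¬ l ∣ w → w ^ G ≡ 1 [MOD l] := by
    intro w hw
    have h3 : Nat.Coprime w l := Nat.coprime_comm.1 ((Nat.Prime.coprime_iff_not_dvd hl).2 hw)
    have h4 := Nat.ModEq.pow_totient h3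
    rw [Nat.totient_prime hl] at h4
    have h5 := h4.pow 2
    rw [one_pow, ← pow_mul, mul_comm] at h5
    exact h5
  have hgen : ∀ w : ℕ, 2 ≤ w → 2 ≤ w ^ G := by
    intro w hw
    calc 2 ≤ w := hw
      _ = w ^ 1 := (pow_one w).symm
      _ ≤ w ^ G := Nat.pow_le_pow_right (by omega) (by omega)
  have key := hTL l (Z ^ G) (y ^ G) q r L p hl (hgen Z hZ) (hgen y hy) (hferm Z hZl) (hferm y hyl)
    hq hr.one_lt.le hcop hlr' hL10
  rw [ha, hb] at key
  have key := key hL2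
  have hTpow : ∀ n m : ℕ, n ≤ m → T ^ n ≤ T ^ m := fun n m h =>
    pow_le_pow_right₀ (by linarith) h
  by_cases hA : 9 * (L : ℝ) * (G * ly) + 1 ≤ r ∨ 9 * (L : ℝ) * (G * lz) + 1 ≤ q
  · -- main case
    have hB : (p : ℝ) < 65 * (L : ℝ) ^ 2 * (G * lz) * (G * ly) := by
      by_contra hcon
      push Not at hcon
      exact key hA hcon hd
    set ρ : ℝ := 260 * (L : ℝ) ^ 2 * T ^ (2 * E + 1) with hρ
    have hρ0 : 0 < ρ := by positivity
    have hGG : (G : ℝ) * G ≤ 4 * T ^ (2 * E) := by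
      have : (G : ℝ) * G ≤ (2 * T ^ E) * (2 * T ^ E) :=
        mul_le_mul hGT hGT (by positivity) (by positivity)
      calc (G : ℝ) * G ≤ (2 * T ^ E) * (2 * T ^ E) := this
        _ = 4 * T ^ (2 * E) := by rw [two_mul E, pow_add]; ring
    have hpρ : (p : ℝ) ≤ ρ * lz := by
      calc (p : ℝ) ≤ 65 * (L : ℝ) ^ 2 * (G * lz) * (G * ly) := hB.le
        _ = 65 * (L : ℝ) ^ 2 * lz * ((G * G) * ly) := by ring
        _ ≤ 65 * (L : ℝ) ^ 2 * lz * ((4 * T ^ (2 * E)) * T) := by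
          apply mul_le_mul_of_nonneg_left _ (by positivity)
          exact mul_le_mul hGG hyT hly0.le (by positivity)
        _ = ρ * lz := by rw [hρ, pow_succ]; ring
    have hxp0 : (0 : ℝ) < (x : ℝ) ^ p := by positivity
    have hr1 : (r : ℝ) * lz ≤ Real.log 2 + p * lx := by
      have h3 : ((Z : ℝ) ^ r) ≤ 2 * (x : ℝ) ^ p := by exact_mod_cast h1
      have h4 := Real.log_le_log (by positivity) h3
      rwa [Real.log_pow, Real.log_mul (by norm_num) hxp0.ne', Real.log_pow] at h4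
    have hq1 : (q : ℝ) * ly ≤ p * lx := by
      have h3 : ((y : ℝ) ^ q) ≤ (x : ℝ) ^ p := by exact_mod_cast h2
      have h4 := Real.log_le_log (by positivity) h3
      rwa [Real.log_pow, Real.log_pow] at h4
    have hpx : (p : ℝ) * lx ≤ ρ * T * lz := by
      calc (p : ℝ) * lx ≤ (ρ * lz) * T := mul_le_mul hpρ hxT hlx0 (by positivity)
        _ = ρ * T * lz := by ring
    have hr2 : (r : ℝ) ≤ 1 + ρ * T := by
      have h3 : (r : ℝ) * lz ≤ (1 + ρ * T) * lz := by linarith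
      exact le_of_mul_le_mul_right h3 hlz0
    have hq2 : (q : ℝ) / (G * lz) ≤ ρ * T := by
      rw [div_le_iff₀ (by positivity)]
      have h3 : (q : ℝ) * Real.log 2 ≤ ρ * T * lz := by
        calc (q : ℝ) * Real.log 2 ≤ q * ly := by
              apply mul_le_mul_of_nonneg_left hly2 (by positivity)
          _ ≤ _ := hq1.trans hpx
      have h4 : (1 : ℝ) ≤ G * Real.log 2 := by nlinarith
      have h5 : (q : ℝ) ≤ (G * Real.log 2) * q := by
        have : (0 : ℝ) ≤ q := by positivity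
        nlinarith
      calc (q : ℝ) ≤ (G * Real.log 2) * q := h5
        _ = G * (q * Real.log 2) := by ring
        _ ≤ G * (ρ * T * lz) := mul_le_mul_of_nonneg_left h3 (by positivity)
        _ = ρ * T * (G * lz) := by ring
    have hr3 : (r : ℝ) / (G * ly) ≤ 1 + ρ * T := by
      have h3 : (r : ℝ) / (G * ly) ≤ r := div_le_self (by positivity) hb1
      linarith
    have hL1r : (1 : ℝ) ≤ (L : ℝ) ^ 2 * T ^ (2 * E + 2) := by
      have h3 : (1 : ℝ) ≤ (L : ℝ) ^ 2 := one_le_pow₀ (by linarith)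
      have h4 : (1 : ℝ) ≤ T ^ (2 * E + 2) := one_le_pow₀ (by linarith)
      nlinarith
    have hb'u : b' ≤ 1024 * ((L : ℝ) ^ 2 * T ^ (2 * E + 2)) := by
      have h3 : ρ * T = 260 * ((L : ℝ) ^ 2 * T ^ (2 * E + 2)) := by
        rw [hρ, show 2 * E + 2 = (2 * E + 1) + 1 by ring, pow_succ T (2 * E + 1)]; ring
      rw [h3] at hq2 hr3
      rw [hb']
      linarith
    have hlogb : max 0 (Real.log b') ≤
        10 * Real.log 2 + 2 * Real.log L + (2 * E + 2 : ℕ) * Real.log T := by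
      have h3 : Real.log (1024 * ((L : ℝ) ^ 2 * T ^ (2 * E + 2))) =
          10 * Real.log 2 + 2 * Real.log L + (2 * E + 2 : ℕ) * Real.log T := by
        rw [Real.log_mul (by norm_num) (by positivity), Real.log_mul (by positivity) (by positivity),
          Real.log_pow, Real.log_pow, show (1024 : ℝ) = 2 ^ 10 by norm_num, Real.log_pow]
        push_cast; ring
      rw [← h3]
      apply max_le
      · apply Real.log_nonneg; linarith
      · exact Real.log_le_log hb'0 hb'u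
    have hlogL : Real.log L ≤ (L : ℝ) / 16 - 1 + 4 * Real.log 2 := by
      have := log_le_div_add (t := (L : ℝ)) (by linarith) 4
      norm_num at this
      linarith
    have hlogT : 0 ≤ Real.log T := Real.log_nonneg (by linarith)
    have hLT : (L : ℝ) ≤ T := by
      push_cast at hlogb
      have h3 : (L : ℝ) ≤ 68 + 10 * ((E : ℝ) + 1) * Real.log T := by
        have h4 : 0 ≤ ((E : ℝ) + 1) * Real.log T := by positivity
        nlinarith
      linarith
    have hL0' : (0 : ℝ) ≤ L := by positivity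
    have hfin : ρ * T ≤ 260 * T ^ (2 * E + 4) := by
      have h3 : (L : ℝ) ^ 2 ≤ T ^ 2 := pow_le_pow_left₀ hL0' hLT 2
      calc ρ * T = 260 * ((L : ℝ) ^ 2 * T ^ (2 * E + 2)) := by
            rw [hρ, show 2 * E + 2 = (2 * E + 1) + 1 by ring, pow_succ T (2 * E + 1)]; ring
        _ ≤ 260 * (T ^ 2 * T ^ (2 * E + 2)) := by
            apply mul_le_mul_of_nonneg_left _ (by norm_num)
            exact mul_le_mul_of_nonneg_right h3 (by positivity)
        _ = 260 * T ^ (2 * E + 4) := by rw [← pow_add]; congr 2; ring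
    have h5 : (1 : ℝ) ≤ T ^ (2 * E + 4) := one_le_pow₀ (by linarith)
    calc (r : ℝ) ≤ 1 + ρ * T := hr2
      _ ≤ 1 + 260 * T ^ (2 * E + 4) := by linarith
      _ ≤ T * T ^ (2 * E + 4) := by nlinarith
      _ = T ^ (2 * E + 5) := by rw [← pow_succ']
  · -- both exponents are small
    push Not at hA
    obtain ⟨hA1, hA2⟩ := hA
    have hq2 : (q : ℝ) / (G * lz) ≤ 9 * L + 1 := by
      rw [div_le_iff₀ (by positivity)]
      nlinarith
    have hr2 : (r : ℝ) / (G * ly) ≤ 9 * L + 1 := by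
      rw [div_le_iff₀ (by positivity)]
      nlinarith
    have hb'u : b' ≤ 18 * L + 2 := by rw [hb']; linarith
    have hlogb : max 0 (Real.log b') ≤ Real.log (18 * L + 2) := by
      apply max_le
      · apply Real.log_nonneg; linarith
      · exact Real.log_le_log hb'0 hb'u
    have h3 := log_le_div_add (t := 18 * (L : ℝ) + 2) (by linarith) 7
    norm_num at h3
    have hL40 : (L : ℝ) ≤ 40 := by linarith
    have h4 : (r : ℝ) ≤ 360 * (G * ly) + 1 := by
      have : 9 * (L : ℝ) * (G * ly) ≤ 360 * (G * ly) := by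
        apply mul_le_mul_of_nonneg_right _ (by positivity)
        linarith
      linarith
    have h5 : (G : ℝ) * ly ≤ 2 * T ^ (E + 1) := by
      calc (G : ℝ) * ly ≤ (2 * T ^ E) * T := mul_le_mul hGT hyT hly0.le (by positivity)
        _ = 2 * T ^ (E + 1) := by rw [pow_succ]; ring
    have h6 : (1 : ℝ) ≤ T ^ (E + 1) := one_le_pow₀ (by linarith)
    calc (r : ℝ) ≤ 360 * (G * ly) + 1 := h4
      _ ≤ 360 * (2 * T ^ (E + 1)) + T ^ (E + 1) := by linarith
      _ ≤ T * T ^ (E + 1) := by nlinarith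
      _ = T ^ (E + 2) := by rw [← pow_succ']
      _ ≤ T ^ (2 * E + 5) := hTpow _ _ (by omega)

end Pool.Agent.Lib.MP_509488_nt.Unif.RB

namespace Pool.Agent.Lib.MP_509488_nt.Unif

open RB

/-- Module B: bound for the exponent `r`. -/
theorem rBound1 (h : TwoLogs) : RBound1 := by
  intro E
  refine ⟨2 * E + 5, ?_⟩
  have hev : ∀ᶠ N : ℕ in Filter.atTop, 1024 ≤ Real.log (N : ℝ) ∧
      68 + 10 * ((E : ℝ) + 1) * Real.log (Real.log N) ≤ Real.log N := by
    have hlog : Filter.Tendsto (fun N : ℕ => Real.log (N : ℝ)) Filter.atTop Filter.atTop :=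
      Real.tendsto_log_atTop.comp tendsto_natCast_atTop_atTop
    have h1 : ∀ᶠ T : ℝ in Filter.atTop, 1024 ≤ T := Filter.eventually_ge_atTop _
    have h2 : ∀ᶠ T : ℝ in Filter.atTop, 68 + 10 * ((E : ℝ) + 1) * Real.log T ≤ T := by
      have h3 := Real.isLittleO_log_id_atTop.bound (c := 1 / (20 * ((E : ℝ) + 1))) (by positivity)
      filter_upwards [h3, Filter.eventually_ge_atTop (1024 : ℝ)] with T hT hT'
      have h4 : 0 ≤ Real.log T := Real.log_nonneg (by linarith)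
      rw [Real.norm_of_nonneg h4] at hT
      simp only [id] at hT
      rw [Real.norm_of_nonneg (by linarith)] at hT
      have h5 : 10 * ((E : ℝ) + 1) * Real.log T ≤
          10 * ((E : ℝ) + 1) * (1 / (20 * ((E : ℝ) + 1)) * T) :=
        mul_le_mul_of_nonneg_left hT (by positivity)
      have h6 : 10 * ((E : ℝ) + 1) * (1 / (20 * ((E : ℝ) + 1)) * T) = T / 2 := by
        field_simp; ring
      linarith
    exact (hlog.eventually h1).and (hlog.eventually h2)
  obtain ⟨N₀, hN₀⟩ := Filter.eventually_atTop.1 hev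
  refine ⟨N₀, ?_⟩
  intro N hN x y p q r l z e₁ e₂ hx hxN hy hyN hxy hp hq hr hl hlx hlE he₁ he₂ hz heq hyx
  obtain ⟨hT1, hT2⟩ := hN₀ N hN
  set T := Real.log (N : ℝ) with hT
  have hT0 : 0 < T := by linarith
  have hxr : (1 : ℝ) ≤ x := by exact_mod_cast hx
  have hyr : (2 : ℝ) ≤ y := by exact_mod_cast hy
  have hxT : Real.log x ≤ T := Real.log_le_log (by linarith) (by exact_mod_cast hxN)
  have hyT : Real.log y ≤ T := Real.log_le_log (by linarith) (by exact_mod_cast hyN)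
  have hTE : 1 ≤ T ^ E := one_le_pow₀ (by linarith)
  by_cases hlr : l < r
  swap
  · push Not at hlr
    calc (r : ℝ) ≤ l := by exact_mod_cast hlr
      _ ≤ T ^ E := hlE
      _ ≤ T ^ (2 * E + 5) := pow_le_pow_right₀ (by linarith) (by omega)
  have hl2 := hl.two_le
  -- `l` divides neither `y` nor `z`
  have hyl : ¬ l ∣ y := by
    intro hly
    have := Nat.dvd_gcd hlx hly
    rw [hxy] at this
    have := Nat.le_of_dvd one_pos this
    omega
  have hylI : ¬ (l : ℤ) ∣ (y : ℤ) := by rwa [Int.natCast_dvd_natCast]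
  have hlI : Prime (l : ℤ) := Nat.prime_iff_prime_int.1 hl
  have hlxp : (l : ℤ) ∣ (x : ℤ) ^ p :=
    (Int.natCast_dvd_natCast.2 hlx).trans (dvd_pow_self _ (by omega))
  have hzl : ¬ (l : ℤ) ∣ z := by
    intro hlz
    have h1 : (l : ℤ) ∣ e₂ * (y : ℤ) ^ q := by
      have h2 : e₂ * (y : ℤ) ^ q = z ^ r - e₁ * (x : ℤ) ^ p := by rw [← heq]; ring
      rw [h2]
      exact dvd_sub (hlz.trans (dvd_pow_self _ hr.ne_zero)) (hlxp.mul_left _)
    have h3 : (l : ℤ) ∣ (y : ℤ) ^ q := by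
      rcases he₂ with h | h
      · rwa [h, one_mul] at h1
      · rwa [h, neg_one_mul, dvd_neg] at h1
    exact hylI (hlI.dvd_of_dvd_pow h3)
  by_cases hrq : r ∣ q
  · obtain ⟨m, rfl⟩ := hrq
    have h1 : e₁ * (x : ℤ) ^ p + e₂ * ((y ^ m : ℕ) : ℤ) ^ r = z ^ r := by
      rw [← heq]; push_cast; rw [← pow_mul, mul_comm m r]
    have hw : ¬ (l : ℤ) ∣ ((y ^ m : ℕ) : ℤ) := by
      push_cast
      intro h2; exact hylI (hlI.dvd_of_dvd_pow h2)
    have h2 := case_dvd hx hp hr hl hlr hlx hzl hw he₁ he₂ hz h1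
    have hlog2a : (0.6931471803 : ℝ) < Real.log 2 := Real.log_two_gt_d9
    have h3 : (r : ℝ) ≤ 1 + 4 * T := by
      by_contra hcon
      push Not at hcon
      nlinarith
    have h4 : (r : ℝ) ≤ T ^ 2 := by nlinarith
    exact h4.trans (pow_le_pow_right₀ (by linarith) (by omega))
  · have hZ : (z.natAbs) ^ r ≤ 2 * x ^ p := by
      have h1 : (z ^ r).natAbs = z.natAbs ^ r := Int.natAbs_pow z r
      rw [← h1, ← heq]
      refine (Int.natAbs_add_le _ _).trans ?_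
      rw [Int.natAbs_mul, Int.natAbs_mul, Int.natAbs_pow, Int.natAbs_pow, Int.natAbs_natCast,
        Int.natAbs_natCast]
      have h2 : e₁.natAbs = 1 := by rcases he₁ with h | h <;> rw [h] <;> rfl
      have h3 : e₂.natAbs = 1 := by rcases he₂ with h | h <;> rw [h] <;> rfl
      rw [h2, h3]; omega
    have hZl : ¬ l ∣ z.natAbs := by
      intro h1; exact hzl (Int.natCast_dvd.2 h1)
    refine case_ndvd h hT1 hT2 hxT hyT hx hy hz hl hlE hr hlr hrq hq hZ hyx hZl hyl ?_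
    have hev : Even (2 * (l - 1)) := even_two_mul _
    have h1 : (l : ℤ) ^ p ∣ (z ^ r) - (e₂ * (y : ℤ) ^ q) := by
      have h2 : (z ^ r) - (e₂ * (y : ℤ) ^ q) = e₁ * (x : ℤ) ^ p := by rw [← heq]; ring
      rw [h2]
      exact (pow_dvd_pow_of_dvd (Int.natCast_dvd_natCast.2 hlx) p).mul_left _
    have h2 : (l : ℤ) ^ p ∣ (z ^ r) ^ (2 * (l - 1)) - (e₂ * (y : ℤ) ^ q) ^ (2 * (l - 1)) :=
      h1.trans (sub_dvd_pow_sub_pow _ _ _)
    have h3 : (z ^ r) ^ (2 * (l - 1)) = ((z.natAbs ^ (2 * (l - 1)) : ℕ) : ℤ) ^ r := by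
      push_cast
      rw [← pow_mul, mul_comm r, pow_mul, hev.pow_abs]
    have h4 : (e₂ * (y : ℤ) ^ q) ^ (2 * (l - 1)) = ((y ^ (2 * (l - 1)) : ℕ) : ℤ) ^ q := by
      have h5 : e₂ ^ (2 * (l - 1)) = 1 := by
        rcases he₂ with h | h
        · rw [h, one_pow]
        · rw [h, hev.neg_one_pow]
      push_cast
      rw [mul_pow, h5, one_mul, ← pow_mul, ← pow_mul, mul_comm q]
    rwa [h3, h4] at h2

end Pool.Agent.Lib.MP_509488_nt.Unif
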