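import Mathlib
import Pool.Agent.Lib.MP_509488_nt.Unif.Stmts3

/-!
# The bound for `r` when `x` and `y` are odd (so `z` is even)
-/

namespace Pool.Agent.Lib.MP_509488_nt.Unif

namespace RB3

/-- Lifting the exponent at `2`. -/
lemma lte2 {A B : ℤ} {g r : ℕ} (h4 : 4 ∣ A - B) (hA : ¬ 2 ∣ A) (hg : 1 ≤ g) (hne : A ≠ B)
    (hr : (2 : ℤ) ^ r ∣ A ^ g - B ^ g) :
    ∃ v w : ℕ, (2 : ℤ) ^ v ∣ A - B ∧ 2 ^ w ∣ g ∧ r ≤ v + w := by
  have h1 := Int.two_pow_sub_pow' g h4 hA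
  have hfin1 : FiniteMultiplicity (2 : ℤ) (A - B) :=
    Int.finiteMultiplicity_iff.2 ⟨by decide, sub_ne_zero.2 hne⟩
  have hfin2 : FiniteMultiplicity (2 : ℤ) (g : ℤ) :=
    Int.finiteMultiplicity_iff.2 ⟨by decide, by
      have : (0 : ℤ) < g := by exact_mod_cast hg
      exact this.ne'⟩
  refine ⟨multiplicity (2 : ℤ) (A - B), multiplicity (2 : ℤ) (g : ℤ), pow_multiplicity_dvd _ _,
    ?_, ?_⟩
  · have := pow_multiplicity_dvd (2 : ℤ) (g : ℤ)
    exact_mod_cast this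
  · have h2 := pow_dvd_iff_le_emultiplicity.1 hr
    rw [h1, hfin1.emultiplicity_eq_multiplicity, hfin2.emultiplicity_eq_multiplicity] at h2
    exact_mod_cast h2

/-- The `2`-adic valuation of a difference of coprime powers with coprime exponents. -/
lemma vbound (h : TwoLogs) {T : ℝ} (hT : 1 ≤ T) {E x y m n v : ℕ} (hx : 2 ≤ x) (hy : 2 ≤ y)
    (hxT : Real.log x ≤ T) (hyT : Real.log y ≤ T) (hxo : Odd x) (hyo : Odd y)
    (hm : 1 ≤ m) (hn : 1 ≤ n) (hmE : (m : ℝ) ≤ Real.exp (T ^ E)) (hnE : (n : ℝ) ≤ Real.exp (T ^ E))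
    (hc : Nat.Coprime n m) (hmo : Odd m)
    (hne : ((x ^ 2 : ℕ) : ℤ) ^ m - ((y ^ 2 : ℕ) : ℤ) ^ n ≠ 0)
    (hv : (2 : ℤ) ^ v ∣ ((x ^ 2 : ℕ) : ℤ) ^ m - ((y ^ 2 : ℕ) : ℤ) ^ n) :
    (v : ℝ) ≤ 80000 * T ^ (2 * E + 2) := by
  have hTE : 1 ≤ T ^ E := one_le_pow₀ hT
  have hlog2 := Real.log_two_gt_d9
  have hlog2' := Real.log_two_lt_d9
  set a : ℝ := Real.log ((x ^ 2 : ℕ) : ℝ) with ha
  set b : ℝ := Real.log ((y ^ 2 : ℕ) : ℝ) with hb
  have ha2 : a = 2 * Real.log x := by rw [ha]; push_cast; rw [Real.log_pow]; norm_num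
  have hb2 : b = 2 * Real.log y := by rw [hb]; push_cast; rw [Real.log_pow]; norm_num
  have hlx : Real.log 2 ≤ Real.log x := Real.log_le_log (by norm_num) (by exact_mod_cast hx)
  have hly : Real.log 2 ≤ Real.log y := Real.log_le_log (by norm_num) (by exact_mod_cast hy)
  have ha1 : 1 ≤ a := by rw [ha2]; linarith
  have hb1 : 1 ≤ b := by rw [hb2]; linarith
  have haT : a ≤ 2 * T := by rw [ha2]; linarith
  have hbT : b ≤ 2 * T := by rw [hb2]; linarith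
  set L : ℕ := ⌈13 + 3 * T ^ E⌉₊ with hL
  have hL1 : 13 + 3 * T ^ E ≤ (L : ℝ) := Nat.le_ceil _
  have hL2 : (L : ℝ) ≤ 17 * T ^ E := by
    have := Nat.ceil_lt_add_one (show 0 ≤ 13 + 3 * T ^ E by positivity)
    rw [← hL] at this
    linarith
  have hL0 : (0 : ℝ) ≤ L := Nat.cast_nonneg _
  have hL10 : 10 ≤ L := by
    have : (10 : ℝ) ≤ L := by linarith
    exact_mod_cast this
  have hlog : 10 + 3 * Real.log (n / a + m / b) ≤ L := by
    have hn1 : (1 : ℝ) ≤ n := by exact_mod_cast hn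
    have hm1 : (1 : ℝ) ≤ m := by exact_mod_cast hm
    have h1 : (n : ℝ) / a + m / b ≤ 2 * Real.exp (T ^ E) := by
      have h2 : (n : ℝ) / a ≤ n := div_le_self (by positivity) ha1
      have h3 : (m : ℝ) / b ≤ m := div_le_self (by positivity) hb1
      linarith
    have h2 : 0 < (n : ℝ) / a + m / b := by positivity
    have h3 := Real.log_le_log h2 h1
    rw [Real.log_mul (by norm_num) (Real.exp_ne_zero _), Real.log_exp] at h3
    linarith
  have hal : x ^ 2 ≡ 1 [MOD 2] := by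
    have := hxo.pow (n := 2)
    exact Nat.odd_iff.1 this
  have hbe : y ^ 2 ≡ 1 [MOD 2] := by
    have := hyo.pow (n := 2)
    exact Nat.odd_iff.1 this
  have hal2 : 2 ≤ x ^ 2 := le_trans hx (Nat.le_self_pow (by norm_num) x)
  have hbe2 : 2 ≤ y ^ 2 := le_trans hy (Nat.le_self_pow (by norm_num) y)
  have hm2 : ¬ 2 ∣ m := fun hd => (Nat.not_even_iff_odd.2 hmo) (even_iff_two_dvd.2 hd)
  have hTE2 : T ^ E * T ^ E * T ^ 2 = T ^ (2 * E + 2) := by ring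
  by_cases hcase : 9 * (L : ℝ) * b + 1 ≤ m ∨ 9 * (L : ℝ) * a + 1 ≤ n
  · have h1 : v < 65 * (L : ℝ) ^ 2 * a * b := by
      by_contra hcon
      push Not at hcon
      exact h 2 (x ^ 2) (y ^ 2) n m L v Nat.prime_two hal2 hbe2 hal hbe hn hm hc hm2 hL10 hlog
        hcase hcon (by exact_mod_cast hv)
    have h2 : 65 * (L : ℝ) ^ 2 * a * b ≤ 65 * (17 * T ^ E) ^ 2 * (2 * T) * (2 * T) := by
      gcongr
    have h3 : 65 * (17 * T ^ E) ^ 2 * (2 * T) * (2 * T) = 75140 * T ^ (2 * E + 2) := by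
      rw [← hTE2]; ring
    have h4 : 0 ≤ T ^ (2 * E + 2) := by positivity
    linarith
  · push Not at hcase
    obtain ⟨hc1, hc2⟩ := hcase
    have hdvd := Int.le_of_dvd (abs_pos.2 hne) ((dvd_abs _ _).2 hv)
    have hA1 : (1 : ℤ) ≤ ((x ^ 2 : ℕ) : ℤ) ^ m := by
      have : 1 ≤ (x ^ 2) ^ m := Nat.one_le_pow _ _ (by omega)
      exact_mod_cast this
    have hB1 : (1 : ℤ) ≤ ((y ^ 2 : ℕ) : ℤ) ^ n := by
      have : 1 ≤ (y ^ 2) ^ n := Nat.one_le_pow _ _ (by omega)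
      exact_mod_cast this
    have habs : |((x ^ 2 : ℕ) : ℤ) ^ m - ((y ^ 2 : ℕ) : ℤ) ^ n| ≤
        ((x ^ 2 : ℕ) : ℤ) ^ m * ((y ^ 2 : ℕ) : ℤ) ^ n := by
      rw [abs_le]
      constructor <;> nlinarith
    have h1 : (2 : ℤ) ^ v ≤ ((x ^ 2 : ℕ) : ℤ) ^ m * ((y ^ 2 : ℕ) : ℤ) ^ n := hdvd.trans habs
    have h2 : (2 : ℝ) ^ v ≤ ((x ^ 2 : ℕ) : ℝ) ^ m * ((y ^ 2 : ℕ) : ℝ) ^ n := by exact_mod_cast h1
    have hxp : (0 : ℝ) < ((x ^ 2 : ℕ) : ℝ) := by
      have : 0 < x ^ 2 := by omega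
      exact_mod_cast this
    have hyp : (0 : ℝ) < ((y ^ 2 : ℕ) : ℝ) := by
      have : 0 < y ^ 2 := by omega
      exact_mod_cast this
    have h3 := Real.log_le_log (by positivity) h2
    rw [Real.log_pow, Real.log_mul (by positivity) (by positivity), Real.log_pow, Real.log_pow,
      ← ha, ← hb] at h3
    have h4 : (m : ℝ) * a ≤ (9 * L * b + 1) * a := mul_le_mul_of_nonneg_right hc1.le (by linarith)
    have h5 : (n : ℝ) * b ≤ (9 * L * a + 1) * b := mul_le_mul_of_nonneg_right hc2.le (by linarith)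
    have h6 : (L : ℝ) * a * b ≤ (17 * T ^ E) * (2 * T) * (2 * T) := by gcongr
    have h7 : (17 * T ^ E) * (2 * T) * (2 * T) = 68 * (T ^ E * T ^ 2) := by ring
    have h8 : T ^ E * T ^ 2 ≤ T ^ (2 * E + 2) := by
      rw [← hTE2]
      have : 0 ≤ T ^ E * T ^ 2 := by positivity
      nlinarith
    have h9 : T ≤ T ^ (2 * E + 2) := by
      calc T = T ^ 1 := (pow_one T).symm
        _ ≤ T ^ (2 * E + 2) := pow_le_pow_right₀ hT (by omega)
    have hv0 : (0 : ℝ) ≤ v := Nat.cast_nonneg _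
    have h10 : (v : ℝ) * Real.log 2 ≤ 18 * ((L : ℝ) * a * b) + a + b := by nlinarith
    nlinarith

end RB3

open RB3

theorem rBound3 (h : TwoLogs) : RBound3 := by
  intro E
  refine ⟨2 * E + 3, ⌈Real.exp 1000000⌉₊, ?_⟩
  intro N hN x y p q r z e₁ e₂ hx hxN hy hyN hxy hxo hyo hp hq hpE hqE hr he₁ he₂ heq
  set T : ℝ := Real.log N with hTdef
  have hT6 : 1000000 ≤ T := by
    have h1 : Real.exp 1000000 ≤ (N : ℝ) := (Nat.le_ceil _).trans (by exact_mod_cast hN)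
    have h2 := Real.log_le_log (Real.exp_pos _) h1
    rwa [Real.log_exp] at h2
  have hT : 1 ≤ T := by linarith
  have hxT : Real.log x ≤ T := Real.log_le_log (by exact_mod_cast (by omega : 0 < x))
    (by exact_mod_cast hxN)
  have hyT : Real.log y ≤ T := Real.log_le_log (by exact_mod_cast (by omega : 0 < y))
    (by exact_mod_cast hyN)
  -- `z` is even
  have hxpo : Odd ((x : ℤ) ^ p) := by
    have : Odd (x ^ p) := hxo.pow
    exact_mod_cast this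
  have hyqo : Odd ((y : ℤ) ^ q) := by
    have : Odd (y ^ q) := hyo.pow
    exact_mod_cast this
  have hzev : Even (z ^ r) := by
    rw [← heq]
    rcases he₁ with rfl | rfl <;> rcases he₂ with rfl | rfl
    · simpa using hxpo.add_odd hyqo
    · simpa [sub_eq_add_neg] using hxpo.sub_odd hyqo
    · have := hyqo.sub_odd hxpo
      have h2 : (-1 : ℤ) * (x : ℤ) ^ p + 1 * (y : ℤ) ^ q = (y : ℤ) ^ q - (x : ℤ) ^ p := by ring
      rw [h2]; exact this
    · have := (hxpo.add_odd hyqo).neg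
      have h2 : (-1 : ℤ) * (x : ℤ) ^ p + -1 * (y : ℤ) ^ q = -((x : ℤ) ^ p + (y : ℤ) ^ q) := by ring
      rw [h2]; exact this
  have hz2 : (2 : ℤ) ∣ z := by
    rw [Int.even_pow] at hzev
    exact even_iff_two_dvd.1 hzev.1
  have hzr : (2 : ℤ) ^ r ∣ z ^ r := pow_dvd_pow_of_dvd hz2 r
  have hprod : (2 : ℤ) ^ r ∣ ((x ^ 2 : ℕ) : ℤ) ^ p - ((y ^ 2 : ℕ) : ℤ) ^ q := by
    have h1 : ((x ^ 2 : ℕ) : ℤ) ^ p - ((y ^ 2 : ℕ) : ℤ) ^ q =
        (e₁ * (x : ℤ) ^ p + e₂ * (y : ℤ) ^ q) * (e₁ * (x : ℤ) ^ p - e₂ * (y : ℤ) ^ q) := by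
      have h1 : e₁ ^ 2 = 1 := by rcases he₁ with rfl | rfl <;> norm_num
      have h2 : e₂ ^ 2 = 1 := by rcases he₂ with rfl | rfl <;> norm_num
      have h3 : (e₁ * (x : ℤ) ^ p + e₂ * (y : ℤ) ^ q) * (e₁ * (x : ℤ) ^ p - e₂ * (y : ℤ) ^ q) =
        e₁ ^ 2 * ((x : ℤ) ^ p) ^ 2 - e₂ ^ 2 * ((y : ℤ) ^ q) ^ 2 := by ring
      rw [h3, h1, h2]
      push_cast
      rw [← pow_mul, ← pow_mul, ← pow_mul, ← pow_mul]
      ring
    rw [h1, heq]
    exact dvd_mul_of_dvd_left hzr _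
  -- reduction to coprime exponents
  obtain ⟨g, p', q', hg, hcop, hpg, hqg⟩ := Nat.exists_coprime' (m := p) (n := q)
    (Nat.gcd_pos_of_pos_left q (by omega))
  have hp' : 1 ≤ p' := Nat.pos_of_ne_zero (by rintro rfl; simp at hpg; omega)
  have hq' : 1 ≤ q' := Nat.pos_of_ne_zero (by rintro rfl; simp at hqg; omega)
  have hp'p : p' ≤ p := by rw [hpg]; exact Nat.le_mul_of_pos_right _ hg
  have hq'q : q' ≤ q := by rw [hqg]; exact Nat.le_mul_of_pos_right _ hg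
  set A : ℤ := ((x ^ 2 : ℕ) : ℤ) ^ p' with hA
  set B : ℤ := ((y ^ 2 : ℕ) : ℤ) ^ q' with hB
  have hAg : ((x ^ 2 : ℕ) : ℤ) ^ p = A ^ g := by rw [hA, ← pow_mul, hpg]
  have hBg : ((y ^ 2 : ℕ) : ℤ) ^ q = B ^ g := by rw [hB, ← pow_mul, hqg]
  rw [hAg, hBg] at hprod
  have hmod : ∀ u : ℕ, Odd u → ∀ k : ℕ, ((u ^ 2 : ℕ) : ℤ) ^ k ≡ 1 [ZMOD 4] := by
    intro u hu k
    have h1 : ((u ^ 2 : ℕ) : ℤ) ≡ 1 [ZMOD 4] := by
      have h2 : Odd (u : ℤ) := by exact_mod_cast hu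
      have h3 := Int.sq_mod_four_eq_one_of_odd h2
      have h4 : ((u ^ 2 : ℕ) : ℤ) = (u : ℤ) ^ 2 := by push_cast; ring
      rw [h4]
      exact h3
    have := h1.pow k
    simpa using this
  have h4 : (4 : ℤ) ∣ A - B := by
    have h1 := (hmod x hxo p').trans (hmod y hyo q').symm
    exact h1.symm.dvd
  have hA2 : ¬ (2 : ℤ) ∣ A := by
    intro hd
    have h1 : Odd (x ^ 2) := hxo.pow
    have h2 : Odd ((x ^ 2) ^ p') := h1.pow
    have h3 : Odd A := by rw [hA]; exact_mod_cast h2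
    exact (Int.not_even_iff_odd.2 h3) (even_iff_two_dvd.2 hd)
  have hne : A ≠ B := by
    intro hAB
    have h1 : (x ^ 2) ^ p' = (y ^ 2) ^ q' := by
      have : (((x ^ 2) ^ p' : ℕ) : ℤ) = (((y ^ 2) ^ q' : ℕ) : ℤ) := by
        rw [Nat.cast_pow, Nat.cast_pow]; exact hAB
      exact_mod_cast this
    have h2 : Nat.Coprime ((x ^ 2) ^ p') ((y ^ 2) ^ q') :=
      Nat.Coprime.pow _ _ (Nat.Coprime.pow _ _ hxy)
    rw [← h1] at h2
    have h3 : (x ^ 2) ^ p' = 1 := (Nat.coprime_self _).1 h2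
    have h4 : 1 < (x ^ 2) ^ p' := Nat.one_lt_pow (by omega) (Nat.one_lt_pow (by norm_num) (by omega))
    omega
  obtain ⟨v, w, hv, hw, hrvw⟩ := lte2 h4 hA2 hg hne hprod
  -- bound for `w`
  have hTE : 1 ≤ T ^ E := one_le_pow₀ hT
  have hwb : (w : ℝ) ≤ 2 * T ^ E := by
    have h1 : 2 ^ w ≤ p := (Nat.le_of_dvd hg hw).trans (by rw [hpg]; exact Nat.le_mul_of_pos_left _ hp')
    have h2 : (2 : ℝ) ^ w ≤ Real.exp (T ^ E) := le_trans (by exact_mod_cast h1) hpE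
    have h3 := Real.log_le_log (by positivity) h2
    rw [Real.log_pow, Real.log_exp] at h3
    have := Real.log_two_gt_d9
    have hw0 : (0 : ℝ) ≤ w := Nat.cast_nonneg _
    nlinarith
  have hp'E : (p' : ℝ) ≤ Real.exp (T ^ E) := le_trans (by exact_mod_cast hp'p) hpE
  have hq'E : (q' : ℝ) ≤ Real.exp (T ^ E) := le_trans (by exact_mod_cast hq'q) hqE
  have hvb : (v : ℝ) ≤ 80000 * T ^ (2 * E + 2) := by
    rcases Nat.even_or_odd p' with hpe | hpo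
    · have hqo : Odd q' := by
        rw [← Nat.not_even_iff_odd]
        intro hqe
        have := Nat.dvd_gcd (even_iff_two_dvd.1 hpe) (even_iff_two_dvd.1 hqe)
        rw [hcop] at this
        omega
      refine vbound h hT hy hx hyT hxT hyo hxo hq' hp' hq'E hp'E hcop hqo ?_ ?_
      · intro h0; apply hne; rw [hA, hB]; linarith
      · have : (2 : ℤ) ^ v ∣ -(A - B) := (dvd_neg).2 hv
        rw [neg_sub] at this
        exact this
    · refine vbound h hT hx hy hxT hyT hxo hyo hp' hq' hp'E hq'E hcop.symm hpo ?_ hv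
      exact sub_ne_zero.2 hne
  have h5 : T ^ E ≤ T ^ (2 * E + 2) := pow_le_pow_right₀ hT (by omega)
  have h6 : (r : ℝ) ≤ v + w := by exact_mod_cast hrvw
  have h7 : T ^ (2 * E + 3) = T * T ^ (2 * E + 2) := by ring
  rw [h7]
  have h8 : 0 ≤ T ^ (2 * E + 2) := by positivity
  nlinarith

end Pool.Agent.Lib.MP_509488_nt.Unif
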