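import Pool.Agent.Lib.MP_509488_nt.Unif.M1
import Pool.Agent.Lib.MP_509488_nt.Unif.M2
import Pool.Agent.Lib.MP_509488_nt.Unif.M34
import Pool.Agent.Lib.MP_509488_nt.Unif.M5
import Pool.Agent.Lib.MP_509488_nt.Unif.M6
import Pool.Agent.Lib.MP_509488_nt.Unif.M7
import Pool.Agent.Lib.MP_509488_nt.Unif.M8
import Pool.Agent.Lib.MP_509488_nt.Unif.M9
import Pool.Agent.Lib.MP_509488_nt.Unif.M10
import Pool.Agent.Lib.MP_509488_nt.Unif.Zero
import Pool.Agent.Lib.MP_509488_nt.Unif.Abs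
import Pool.Agent.Lib.MP_509488_nt.Unif.Two
import Pool.Agent.Lib.MP_509488_nt.Unif.RB
import Pool.Agent.Lib.MP_509488_nt.Unif.RB3
import Pool.Agent.Lib.MP_509488_nt.Unif.Sieve
import Pool.Agent.Lib.MP_509488_nt.Unif.Arch
import Pool.Agent.Lib.MP_509488_nt.Unif.ArchTwo

/-!
# Uniform bases: all modules together, first part
-/

namespace Pool.Agent.Lib.MP_509488_nt.Unif

theorem allS8 : S8 := s8 s1 s2 (s3 s1 s2) (s4 s1 s2) s5 s6 (s7 s1 s2)

theorem allSieve : SieveR := sieveR (supply allS8 s9)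

theorem allTwo : TwoLogs := twoLogs (twoLogsAbs zeroEst)

theorem allArch : ArchTwoLogs := archTwoLogs (archAbs zeroEst)

theorem allRB1 : RBound1 := rBound1 allTwo

theorem allRB3 : RBound3 := rBound3 allTwo

end Pool.Agent.Lib.MP_509488_nt.Unif
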