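import Pool.Agent.Lib.MP_509488_nt.Unif.M1
import Pool.Agent.Lib.MP_509488_nt.Unif.StmtsU

/-!
# U1: `L^(j)(1+δ, χ)`, uniform in `j`
-/

namespace Pool.Agent.Lib.MP_509488_nt.Unif

open Finset RecA

/-- Explicit form of `s1`. -/
theorem s1_explicit (j : ℕ) (q : ℕ) (hq : 1 ≤ q) (χ : DirichletCharacter ℂ q) (hχ : χ ≠ 1) (δ : ℝ)
    (hδ : 0 < δ) (_hδ1 : δ ≤ 1) :
    ‖LL χ j δ‖ ≤ 2 * ((j : ℝ) + 2) ^ (j + 1) * (1 + Real.log q) ^ (j + 1) := by
  set K : ℕ := ⌈Real.exp j⌉₊ with hK
  have hK1 : 1 ≤ K := Nat.one_le_iff_ne_zero.mpr (by rw [hK]; exact (Nat.ceil_pos.mpr (Real.exp_pos _)).ne')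
  have hKe : Real.exp j ≤ K := Nat.le_ceil _
  have hKu : (K : ℝ) ≤ Real.exp (j + 1) := by
    have h1 : (K : ℝ) < Real.exp j + 1 := Nat.ceil_lt_add_one (Real.exp_pos _).le
    have h2 : Real.exp (j + 1) = Real.exp j * Real.exp 1 := by rw [Real.exp_add]
    have h3 : (2 : ℝ) ≤ Real.exp 1 := by have := Real.add_one_le_exp (1 : ℝ); linarith
    have h4 : (1 : ℝ) ≤ Real.exp j := Real.one_le_exp (by positivity)
    rw [h2]; nlinarith
  set X : ℕ := q * K with hX
  have hq0 : (1 : ℝ) ≤ q := by exact_mod_cast hq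
  have hX1 : 1 ≤ X := Nat.one_le_iff_ne_zero.mpr (Nat.mul_ne_zero (by omega) (by omega))
  have hXr : (1 : ℝ) ≤ X := by exact_mod_cast hX1
  have hXK : (K : ℝ) ≤ X := by
    rw [hX]; push_cast; have : (0 : ℝ) ≤ K := by positivity
    nlinarith
  have hXq : (q : ℝ) ≤ X := by
    rw [hX]; push_cast; have : (1 : ℝ) ≤ K := by exact_mod_cast hK1
    nlinarith
  have hlogX : Real.log X ≤ Real.log q + (j + 1) := by
    rw [hX]; push_cast
    rw [Real.log_mul (by positivity) (by positivity)]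
    have : Real.log K ≤ j + 1 := by
      rw [Real.log_le_iff_le_exp (by positivity)]; exact hKu
    linarith
  have hlogX0 : 0 ≤ Real.log X := Real.log_nonneg hXr
  have hlogq0 : 0 ≤ Real.log q := Real.log_nonneg hq0
  -- the series
  set F : ℕ → ℂ := fun n => χ (n : ZMod q) * ((Real.log n ^ j * (n : ℝ) ^ (-1 - δ) : ℝ) : ℂ) with hF
  have hFn : ∀ n, ‖F n‖ ≤ Real.log n ^ j * (n : ℝ) ^ (-1 - δ) := by
    intro n
    rw [hF]; simp only
    rw [norm_mul, Complex.norm_real, Real.norm_eq_abs, abs_of_nonneg (term_nonneg' j δ n)]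
    have := DirichletCharacter.norm_le_one χ (n : ZMod q)
    nlinarith [term_nonneg' j δ n]
  have hFs : Summable F := Summable.of_norm_bounded (summable_log_pow j hδ) hFn
  have hLL : LL χ j δ = ∑ n ∈ range X, F n + ∑' n, F (n + X) := (hFs.sum_add_tsum_nat_add X).symm
  -- head
  have hhead : ‖∑ n ∈ range X, F n‖ ≤ Real.log X ^ j * (1 + Real.log X) := by
    have hstep : ∀ n ∈ range X, ‖F n‖ ≤ Real.log X ^ j * ((n : ℝ)⁻¹) := by
      intro n hn
      refine (hFn n).trans ?_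
      rcases Nat.eq_zero_or_pos n with rfl | hn0
      · rw [Nat.cast_zero, Real.zero_rpow (by linarith), mul_zero]
        positivity
      · have h1 : (1 : ℝ) ≤ n := by exact_mod_cast hn0
        have h2 : (n : ℝ) ≤ X := by exact_mod_cast (Finset.mem_range.mp hn).le
        apply mul_le_mul _ _ (by positivity) (by positivity)
        · exact pow_le_pow_left₀ (Real.log_nonneg h1) (Real.log_le_log (by linarith) h2) j
        · rw [← Real.rpow_neg_one]
          exact Real.rpow_le_rpow_of_exponent_le h1 (by linarith)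
    calc _ ≤ ∑ n ∈ range X, ‖F n‖ := norm_sum_le _ _
      _ ≤ ∑ n ∈ range X, Real.log X ^ j * ((n : ℝ)⁻¹) := Finset.sum_le_sum hstep
      _ = Real.log X ^ j * ∑ n ∈ range X, ((n : ℝ)⁻¹) := by rw [Finset.mul_sum]
      _ ≤ Real.log X ^ j * (1 + Real.log X) := by
          apply mul_le_mul_of_nonneg_left _ (by positivity)
          have h1 := harmonic_le_one_add_log X
          rw [harmonic_eq_sum_Icc] at h1
          push_cast at h1
          refine le_trans ?_ h1
          rw [Finset.range_eq_Ico, ← Finset.sum_subset (s₁ := Finset.Ico 1 X) (s₂ := Finset.Ico 0 X)]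
          · apply Finset.sum_le_sum_of_subset_of_nonneg
            · intro i hi; rw [Finset.mem_Ico] at hi; rw [Finset.mem_Icc]; omega
            · intro i _ _; positivity
          · intro i hi; rw [Finset.mem_Ico] at hi ⊢; omega
          · intro i hi hi2
            rw [Finset.mem_Ico] at hi hi2
            have : i = 0 := by omega
            rw [this]; simp
  -- tail
  have htail : ‖∑' n, F (n + X)‖ ≤ Real.log X ^ j := by
    have hs : Summable fun n => F (n + X) := (summable_nat_add_iff X).mpr hFs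
    have ht := hs.hasSum.tendsto_sum_nat
    refine le_of_tendsto ht.norm (Filter.Eventually.of_forall fun N => ?_)
    set g : ℕ → ℝ := fun n => Real.log ((n + X : ℕ) : ℝ) ^ j * (((n + X : ℕ) : ℝ)) ^ (-1 - δ) with hg
    have h1 : ∑ i ∈ range N, F (i + X) = ∑ i ∈ range N, g i • χ ((X + i : ℕ) : ZMod q) := by
      apply Finset.sum_congr rfl
      intro i _
      rw [hF, hg]
      simp only [Complex.real_smul]
      rw [mul_comm, Nat.add_comm X i]
    rw [h1]
    have h2 := abel_bound (fun i => χ ((X + i : ℕ) : ZMod q)) g (fun n => term_nonneg' j δ (n + X)) (by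
      intro n
      rw [hg]; simp only
      apply log_rpow_antitone j hδ
      · refine le_trans (hKe.trans hXK) ?_
        push_cast; linarith [show (0 : ℝ) ≤ n from Nat.cast_nonneg n]
      · push_cast; linarith) q (charSum_bound hq χ hχ X) N
    refine h2.trans ?_
    rw [hg]; simp only [Nat.zero_add]
    have h3 : (X : ℝ) ^ (-1 - δ) ≤ (X : ℝ)⁻¹ := by
      rw [← Real.rpow_neg_one]
      exact Real.rpow_le_rpow_of_exponent_le hXr (by linarith)
    have h4 : (q : ℝ) * (X : ℝ)⁻¹ ≤ 1 := by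
      rw [mul_inv_le_iff₀ (by linarith)]; linarith
    calc (q : ℝ) * (Real.log X ^ j * (X : ℝ) ^ (-1 - δ)) ≤ (q : ℝ) * (Real.log X ^ j * (X : ℝ)⁻¹) := by
          apply mul_le_mul_of_nonneg_left _ (by linarith)
          exact mul_le_mul_of_nonneg_left h3 (by positivity)
      _ = Real.log X ^ j * ((q : ℝ) * (X : ℝ)⁻¹) := by ring
      _ ≤ Real.log X ^ j * 1 := mul_le_mul_of_nonneg_left h4 (by positivity)
      _ = Real.log X ^ j := mul_one _
  have hle : 1 + Real.log X ≤ ((j : ℝ) + 2) * (1 + Real.log q) := by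
    have : (0 : ℝ) ≤ j := Nat.cast_nonneg j
    nlinarith
  calc ‖LL χ j δ‖ ≤ Real.log X ^ j * (1 + Real.log X) + Real.log X ^ j := by
        rw [hLL]; exact (norm_add_le _ _).trans (add_le_add hhead htail)
    _ ≤ (1 + Real.log X) ^ j * (1 + Real.log X) + (1 + Real.log X) ^ j * (1 + Real.log X) := by
        have h1 : Real.log X ^ j ≤ (1 + Real.log X) ^ j := pow_le_pow_left₀ hlogX0 (by linarith) j
        have h2 : 0 ≤ (1 + Real.log X) ^ j := by positivity
        nlinarith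
    _ = 2 * (1 + Real.log X) ^ (j + 1) := by rw [pow_succ]; ring
    _ ≤ 2 * (((j : ℝ) + 2) * (1 + Real.log q)) ^ (j + 1) := by
        apply mul_le_mul_of_nonneg_left _ (by norm_num)
        exact pow_le_pow_left₀ (by linarith) hle _
    _ = 2 * ((j : ℝ) + 2) ^ (j + 1) * (1 + Real.log q) ^ (j + 1) := by rw [mul_pow]; ring

/-- U1. -/
theorem u1 : U1 := by
  refine ⟨32, by norm_num, ?_⟩
  intro j q hq χ hχ δ hδ hδ1
  refine (s1_explicit j q hq χ hχ δ hδ hδ1).trans ?_
  have hq0 : (1 : ℝ) ≤ q := by exact_mod_cast hq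
  have hlogq0 : 0 ≤ Real.log q := Real.log_nonneg hq0
  have hj0 : (0 : ℝ) ≤ j := Nat.cast_nonneg j
  have hf : (0 : ℝ) < (j.factorial : ℝ) := by exact_mod_cast j.factorial_pos
  have h1 : ((j : ℝ) + 2) ^ j ≤ Real.exp (j + 2) * (j.factorial : ℝ) := by
    have := Real.pow_div_factorial_le_exp ((j : ℝ) + 2) (by linarith) j
    rwa [div_le_iff₀ hf] at this
  have h2 : (j : ℝ) + 2 ≤ 2 ^ (j + 1) := by
    have : j + 2 ≤ 2 ^ (j + 1) := Nat.succ_le_of_lt (Nat.lt_two_pow_self (n := j + 1))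
    exact_mod_cast this
  have he1 : Real.exp 1 < 2.7182818286 := Real.exp_one_lt_d9
  have he0 : 0 < Real.exp 1 := Real.exp_pos _
  have h3 : Real.exp (j + 2) ≤ 8 ^ (j + 1) := by
    have h4 : Real.exp (j + 2) ≤ Real.exp (((j + 1 : ℕ) : ℝ) * 2) := by
      apply Real.exp_le_exp.2; push_cast; linarith
    refine h4.trans ?_
    rw [Real.exp_nat_mul]
    apply pow_le_pow_left₀ (Real.exp_pos _).le
    have h5 : Real.exp 2 = Real.exp 1 * Real.exp 1 := by rw [← Real.exp_add]; norm_num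
    rw [h5]; nlinarith
  have h4 : 2 * ((j : ℝ) + 2) ^ (j + 1) ≤ 32 ^ (j + 1) * (j.factorial : ℝ) := by
    calc 2 * ((j : ℝ) + 2) ^ (j + 1) = 2 * (((j : ℝ) + 2) ^ j * ((j : ℝ) + 2)) := by rw [pow_succ]
      _ ≤ 2 ^ (j + 1) * ((8 ^ (j + 1) * (j.factorial : ℝ)) * 2 ^ (j + 1)) := by
          have h6 : ((j : ℝ) + 2) ^ j ≤ 8 ^ (j + 1) * (j.factorial : ℝ) :=
            h1.trans (mul_le_mul_of_nonneg_right h3 hf.le)
          have h7 : (2 : ℝ) ≤ 2 ^ (j + 1) := by
            calc (2 : ℝ) = 2 ^ 1 := by norm_num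
              _ ≤ 2 ^ (j + 1) := pow_le_pow_right₀ (by norm_num) (by omega)
          exact mul_le_mul h7 (mul_le_mul h6 h2 (by linarith) (by positivity)) (by positivity)
            (by positivity)
      _ = (2 * 8 * 2) ^ (j + 1) * (j.factorial : ℝ) := by rw [mul_pow, mul_pow]; ring
      _ = 32 ^ (j + 1) * (j.factorial : ℝ) := by norm_num
  calc 2 * ((j : ℝ) + 2) ^ (j + 1) * (1 + Real.log q) ^ (j + 1)
      ≤ (32 ^ (j + 1) * (j.factorial : ℝ)) * (1 + Real.log q) ^ (j + 1) :=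
        mul_le_mul_of_nonneg_right h4 (by positivity)
    _ = (32 * (1 + Real.log q)) ^ (j + 1) * (j.factorial : ℝ) := by rw [mul_pow]; ring

end Pool.Agent.Lib.MP_509488_nt.Unif
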