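import Pool.Agent.Lib.MP_509488_nt.Unif.M10
import Pool.Agent.Lib.MP_509488_nt.Unif.StmtsU

/-!
# Uniform version of `M10`: the supply of primes for one exponent
-/

namespace Pool.Agent.Lib.MP_509488_nt.Unif.U10

open Finset M10

theorem card_largeU (r k : ℕ) (D : Finset ℕ) (m τ : ℝ) (hm : 0 < m)
    (hD : ∀ d ∈ D, m ≤ (d : ℝ)) (S : ℕ → Finset ℕ) (hk : τ ≤ TT r D S k) :
    τ * m ≤ ((D.filter (fun d => 1 + r * d * k ∈ S d)).card : ℝ) := by
  have h1 : TT r D S k ≤ ((D.filter (fun d => 1 + r * d * k ∈ S d)).card : ℝ) / m := by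
    rw [TT, div_eq_mul_one_div, ← nsmul_eq_mul]
    apply sum_le_card_nsmul
    intro d hd
    rw [mem_filter] at hd
    exact one_div_le_one_div_of_le hm (hD d hd.1)
  have h2 := hk.trans h1
  rwa [le_div_iff₀ hm] at h2

theorem finishU (T : ℝ) (hT : 10 ^ 5 ≤ T) (hexp : 4 * T ^ 600 ≤ Real.exp (T / 30)) (r n : ℕ)
    (hr : r.Prime) (hrT : (1 + Real.log r) ^ 2 ≤ T) (hn : (n : ℝ) ≤ T ^ 40)
    (D : Finset ℕ) (hD : ∀ d ∈ D, Real.exp (T / 6) / T ^ 40 ≤ (d : ℝ)) (hD1 : ∀ d ∈ D, 1 ≤ d)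
    (hDp : ∀ d ∈ D, d ∣ primorial n) (hDs : Real.exp (-(T / 100)) ≤ ∑ d ∈ D, (1 : ℝ) / d)
    (S : ℕ → Finset ℕ) (hS : ∀ d ∈ D, ∀ l ∈ S d, l.Prime ∧ l ≡ 1 [MOD r * d] ∧
      Real.exp (T ^ 20) ≤ l ∧ (l : ℝ) ≤ Real.exp (T ^ 80))
    (hmass : ∀ d ∈ D, 1 ≤ Real.exp (T / 50) * T ^ 480 * ((r * d : ℕ) : ℝ) *
      ∑ l ∈ S d, (1 : ℝ) / l) :
    ∃ (P Q : Finset ℕ) (L : ℕ), 1 ≤ L ∧
    (L : ℝ) ≤ Real.exp (T ^ 120) ∧ Real.exp (T / 10) ≤ P.card ∧ Real.exp (T / 10) ≤ Q.card ∧
    (∀ l ∈ P ∪ Q, l.Prime ∧ r ∣ l - 1 ∧ l - 1 ∣ L ∧ Real.exp (T ^ 20) ≤ l ∧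
      (l : ℝ) ≤ Real.exp (T ^ 80)) ∧
    ∀ p : ℕ, p.Prime → Real.exp T < p → (∀ l ∈ P, ¬ p ∣ l - 1) ∨ (∀ l ∈ Q, ¬ p ∣ l - 1) := by
  classical
  have hT5 : (5 : ℝ) ≤ T := le_trans (by norm_num) hT
  have hT0 : (0 : ℝ) < T := by linarith
  have hT1 : (1 : ℝ) ≤ T := by linarith
  set N : ℕ := ⌊Real.exp (T ^ 80)⌋₊ with hN
  set H : ℝ := 2 * T ^ 80 with hH
  set a : ℝ := 1 / (Real.exp (T / 50) * T ^ 480) with ha
  set s : ℝ := ∑ d ∈ D, (1 : ℝ) / d with hs
  have ha0 : 0 < a := by positivity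
  have hH0 : 0 < H := by positivity
  have hne : D.Nonempty := by
    rw [nonempty_iff_ne_empty]
    rintro rfl
    rw [hs, sum_empty] at hDs
    have := Real.exp_pos (-(T / 100))
    linarith
  have hharm : ∑ k ∈ Icc 1 N, (1 : ℝ) / k ≤ H := by
    apply harm_le (T ^ 80) H (by positivity)
    have : (1 : ℝ) ≤ T ^ 80 := one_le_pow₀ hT1
    rw [hH]
    linarith
  have hS' : ∀ d ∈ D, ∀ l ∈ S d, 2 ≤ l ∧ l ≡ 1 [MOD r * d] ∧ l ≤ N := by
    intro d hd l hl
    obtain ⟨h1, h2, h3, h4⟩ := hS d hd l hl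
    exact ⟨h1.two_le, h2, Nat.le_floor h4⟩
  have hm := mass r N hr.one_lt.le D hD1 hne S hS' a H hH0 ha0 hharm (by
      intro d hd
      rw [ha, div_le_iff₀ (by positivity)]
      have := hmass d hd
      calc (1 : ℝ) ≤ _ := this
        _ = _ := by ring)
  rw [← hs] at hm
  set K := (Icc 1 N).filter (fun k => a * s / (2 * H) ≤ TT r D S k) with hK
  have hY2 : Real.exp T / 2 ≤ (⌊Real.exp T⌋₊ : ℝ) := by
    have h1 := Nat.lt_floor_add_one (Real.exp T)
    have h2 : (2 : ℝ) ≤ Real.exp T := by linarith [Real.add_one_le_exp T]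
    linarith
  have hY1 : 1 ≤ ⌊Real.exp T⌋₊ := by
    rw [Nat.one_le_floor_iff]
    exact Real.one_le_exp hT0.le
  have hbig : 16 * (T ^ 1120 * Real.exp (T / 25)) < Real.exp T / 2 := by
    have h1 : (4 * T ^ 600) ^ 2 ≤ Real.exp (T / 30) ^ 2 := by gcongr
    have h2 : Real.exp (T / 30) ^ 2 = Real.exp (T / 15) := by
      rw [← Real.exp_nat_mul]; congr 1; push_cast; ring
    have h3 : (4 * T ^ 600) ^ 2 = 16 * T ^ 1200 := by
      rw [mul_pow, ← pow_mul]; norm_num
    rw [h2, h3] at h1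
    have h4 : T ^ 1120 ≤ T ^ 1200 := pow_le_pow_right₀ hT1 (by norm_num)
    have h5 : Real.exp T = Real.exp (T / 15) * Real.exp (T / 25) * Real.exp (T * (67 / 75)) := by
      rw [← Real.exp_add, ← Real.exp_add]
      congr 1
      ring
    have h6 : (4 : ℝ) ≤ Real.exp (T * (67 / 75)) := by
      have := Real.add_one_le_exp (T * (67 / 75))
      linarith
    have h7 : 16 * (T ^ 1120 * Real.exp (T / 25)) ≤ Real.exp (T / 15) * Real.exp (T / 25) := by
      have h8 : 16 * T ^ 1120 ≤ Real.exp (T / 15) := by linarith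
      calc 16 * (T ^ 1120 * Real.exp (T / 25)) = (16 * T ^ 1120) * Real.exp (T / 25) := by ring
        _ ≤ _ := by gcongr
    have h8 : 0 < Real.exp (T / 15) * Real.exp (T / 25) := by positivity
    rw [h5]
    nlinarith
  obtain ⟨k, hk, k', hk', hkk⟩ := pair K N ⌊Real.exp T⌋₊ hY1
    (filter_subset _ _) H (a / 2) hharm (by positivity) hm (by
      have h1 : (a / 2) ^ 2 = 1 / (4 * (T ^ 960 * Real.exp (T / 25))) := by
        have h2 : Real.exp (T / 25) = Real.exp (T / 50) ^ 2 := by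
          rw [← Real.exp_nat_mul]; congr 1; push_cast; ring
        rw [ha, h2]
        field_simp
        ring
      rw [h1, one_div, mul_comm, ← div_eq_mul_inv, lt_div_iff₀ (by positivity), hH]
      calc (2 * T ^ 80) ^ 2 * (4 * (T ^ 960 * Real.exp (T / 25)))
          = 16 * (T ^ 1120 * Real.exp (T / 25)) := by ring
        _ < Real.exp T / 2 := hbig
        _ ≤ _ := hY2)
  have hkN : ∀ k ∈ K, 1 ≤ k ∧ (k : ℝ) ≤ Real.exp (T ^ 80) := by
    intro k hk
    rw [hK, mem_filter, mem_Icc] at hk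
    refine ⟨hk.1.1, ?_⟩
    calc (k : ℝ) ≤ N := by exact_mod_cast hk.1.2
      _ ≤ Real.exp (T ^ 80) := Nat.floor_le (by positivity)
  have hτ : Real.exp (T / 10) ≤ a * s / (2 * H) * (Real.exp (T / 6) / T ^ 40) := by
    have h1 : a * Real.exp (-(T / 100)) / (2 * H) * (Real.exp (T / 6) / T ^ 40) ≤
        a * s / (2 * H) * (Real.exp (T / 6) / T ^ 40) := by gcongr
    refine le_trans ?_ h1
    have h2 : a * Real.exp (-(T / 100)) / (2 * H) * (Real.exp (T / 6) / T ^ 40) =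
        Real.exp (T * (41 / 300)) / (4 * T ^ 600) := by
      have h3 : Real.exp (T * (41 / 300)) * Real.exp (T / 50) =
          Real.exp (-(T / 100)) * Real.exp (T / 6) := by
        rw [← Real.exp_add, ← Real.exp_add]
        congr 1
        ring
      have h4 : Real.exp (T * (41 / 300)) =
          Real.exp (-(T / 100)) * Real.exp (T / 6) / Real.exp (T / 50) := by
        rw [eq_div_iff (Real.exp_pos _).ne', h3]
      rw [h4, ha, hH]
      field_simp
      ring
    rw [h2, le_div_iff₀ (by positivity)]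
    calc Real.exp (T / 10) * (4 * T ^ 600) ≤ Real.exp (T / 10) * Real.exp (T / 30) := by gcongr
      _ = Real.exp (T / 10 + T / 30) := by rw [Real.exp_add]
      _ ≤ Real.exp (T * (41 / 300)) := by
          apply Real.exp_le_exp.2
          linarith
  have hcard : ∀ k ∈ K, Real.exp (T / 10) ≤
      (((D.filter (fun d => 1 + r * d * k ∈ S d)).image (fun d => 1 + r * d * k)).card : ℝ) := by
    intro k hk
    rw [card_image_of_injOn]
    · rw [hK, mem_filter] at hk
      exact hτ.trans (card_largeU r k D _ _ (by positivity) hD S hk.2)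
    · intro a _ b _ hab
      simp only at hab
      have h1 : r * k * a = r * k * b := by
        have : r * a * k = r * b * k := by omega
        calc r * k * a = r * a * k := by ring
          _ = r * b * k := this
          _ = r * k * b := by ring
      exact Nat.eq_of_mul_eq_mul_left (Nat.mul_pos hr.pos (hkN k hk).1) h1
  have hr0 : (1 : ℝ) ≤ r := by exact_mod_cast hr.one_lt.le
  have hlogr : 0 ≤ Real.log r := Real.log_nonneg hr0
  have hrexp : (r : ℝ) < Real.exp T := by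
    have h1 : Real.log r < T := by nlinarith
    calc (r : ℝ) = Real.exp (Real.log r) := (Real.exp_log (by linarith)).symm
      _ < Real.exp T := Real.exp_lt_exp.2 h1
  have hnexp : (n : ℝ) < Real.exp T := by
    have h1 : T ^ 40 ≤ T ^ 600 := pow_le_pow_right₀ hT1 (by norm_num)
    have h2 : Real.exp (T / 30) ≤ Real.exp T := Real.exp_le_exp.2 (by linarith)
    have h3 : (0 : ℝ) < T ^ 600 := by positivity
    linarith
  refine ⟨(D.filter (fun d => 1 + r * d * k ∈ S d)).image (fun d => 1 + r * d * k),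
    (D.filter (fun d => 1 + r * d * k' ∈ S d)).image (fun d => 1 + r * d * k'),
    r * k * k' * primorial n, ?_, ?_, hcard k hk, hcard k' hk', ?_, ?_⟩
  · exact Nat.mul_pos (Nat.mul_pos (Nat.mul_pos hr.pos (hkN k hk).1) (hkN k' hk').1)
      (primorial_pos n)
  · have h2 : (primorial n : ℝ) ≤ Real.exp (2 * T ^ 40) := by
      calc (primorial n : ℝ) ≤ (4 : ℝ) ^ n := by exact_mod_cast primorial_le_four_pow n
        _ ≤ (Real.exp 2) ^ n := by
            gcongr
            have h3 := Real.add_one_le_exp (1 : ℝ)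
            have h4 : Real.exp 2 = Real.exp 1 * Real.exp 1 := by
              rw [← Real.exp_add]; norm_num
            rw [h4]
            nlinarith
        _ = Real.exp (2 * n) := by rw [← Real.exp_nat_mul, mul_comm]
        _ ≤ _ := by gcongr
    push_cast
    calc (r : ℝ) * k * k' * (primorial n : ℝ)
        ≤ Real.exp T * Real.exp (T ^ 80) * Real.exp (T ^ 80) * Real.exp (2 * T ^ 40) := by
          gcongr
          · exact (hkN k hk).2
          · exact (hkN k' hk').2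
      _ = Real.exp (T + T ^ 80 + T ^ 80 + 2 * T ^ 40) := by
          rw [Real.exp_add, Real.exp_add, Real.exp_add]
      _ ≤ Real.exp (T ^ 120) := by
          apply Real.exp_le_exp.2
          have h3 : T ^ 1 ≤ T ^ 80 := pow_le_pow_right₀ hT1 (by norm_num)
          have h4 : T ^ 40 ≤ T ^ 80 := pow_le_pow_right₀ hT1 (by norm_num)
          have h5 : T ^ 120 = T ^ 40 * T ^ 80 := by rw [← pow_add]
          have h6 : T ^ 1 ≤ T ^ 40 := pow_le_pow_right₀ hT1 (by norm_num)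
          rw [pow_one] at h3 h6
          have h7 : 5 ≤ T ^ 40 := by linarith
          have h8 : 0 < T ^ 80 := by positivity
          rw [h5]
          nlinarith
  · intro l hl
    rw [mem_union, mem_image, mem_image] at hl
    rcases hl with ⟨d, hd, rfl⟩ | ⟨d, hd, rfl⟩
    · rw [mem_filter] at hd
      obtain ⟨h1, h2, h3, h4⟩ := hS d hd.1 _ hd.2
      refine ⟨h1, ?_, ?_, h3, h4⟩
      · rw [Nat.add_sub_cancel_left]
        exact ⟨d * k, by ring⟩
      · rw [Nat.add_sub_cancel_left]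
        obtain ⟨e, he⟩ := hDp d hd.1
        rw [he]
        exact ⟨k' * e, by ring⟩
    · rw [mem_filter] at hd
      obtain ⟨h1, h2, h3, h4⟩ := hS d hd.1 _ hd.2
      refine ⟨h1, ?_, ?_, h3, h4⟩
      · rw [Nat.add_sub_cancel_left]
        exact ⟨d * k', by ring⟩
      · rw [Nat.add_sub_cancel_left]
        obtain ⟨e, he⟩ := hDp d hd.1
        rw [he]
        exact ⟨k * e, by ring⟩
  · intro p hp hpC
    have hpr : ¬ p ∣ r := by
      intro h
      have h1 : (p : ℝ) ≤ r := by exact_mod_cast Nat.le_of_dvd hr.pos h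
      linarith
    have hpd : ∀ d ∈ D, ¬ p ∣ d := by
      intro d hd h
      have h1 : p ∈ Nat.primeFactors (primorial n) :=
        Nat.mem_primeFactors.2 ⟨hp, h.trans (hDp d hd), primorial_ne_zero n⟩
      rw [primeFactors_primorial] at h1
      have h2 : (p : ℝ) ≤ n := by
        have := Nat.mem_primesLE.1 h1
        exact_mod_cast this.1
      linarith
    have hpY : ⌊Real.exp T⌋₊ < p := by
      have h1 : (⌊Real.exp T⌋₊ : ℝ) ≤ Real.exp T := Nat.floor_le (by positivity)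
      exact_mod_cast lt_of_le_of_lt h1 hpC
    have key : ∀ k, ¬ p ∣ k → ∀ l ∈ (D.filter (fun d => 1 + r * d * k ∈ S d)).image
        (fun d => 1 + r * d * k), ¬ p ∣ l - 1 := by
      intro k hpk l hl h
      rw [mem_image] at hl
      obtain ⟨d, hd, rfl⟩ := hl
      rw [mem_filter] at hd
      rw [Nat.add_sub_cancel_left] at h
      rcases (hp.dvd_mul).1 h with h1 | h1
      · rcases (hp.dvd_mul).1 h1 with h2 | h2
        · exact hpr h2
        · exact hpd d hd.1 h2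
      · exact hpk h1
    by_cases h1 : p ∣ k
    · right
      exact key k' (fun h2 => hkk p hp hpY ⟨h1, h2⟩)
    · left
      exact key k h1

theorem pi_largeU : ∀ᶠ n : ℕ in Filter.atTop,
    2 * ((n : ℝ) / (8 * Real.log n)) + 3 + Real.sqrt n ≤ Nat.primeCounting n := by
  have e1 : ∀ᶠ x : ℝ in Filter.atTop, Real.log x ≤ Real.sqrt x / 8 := by
    have h := (isLittleO_log_rpow_atTop (show (0 : ℝ) < 1 / 2 by norm_num)).bound (c := 1 / 8)
      (by norm_num)
    filter_upwards [h, Filter.eventually_ge_atTop (0 : ℝ)] with x hx hx0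
    rw [Real.norm_eq_abs, Real.norm_of_nonneg (Real.rpow_nonneg hx0 _)] at hx
    rw [Real.sqrt_eq_rpow]
    have := (le_abs_self _).trans hx
    linarith
  have e2 : ∀ᶠ x : ℝ in Filter.atTop, Real.log (x + 1) ≤ x / 10 := by
    have h := (isLittleO_log_rpow_atTop one_pos).bound (c := 1 / 20) (by norm_num)
    have h' := (Filter.tendsto_atTop_add_const_right Filter.atTop (1 : ℝ)
      Filter.tendsto_id).eventually h
    filter_upwards [h', Filter.eventually_ge_atTop (1 : ℝ)] with x hx hx1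
    simp only [id, Real.rpow_one] at hx
    rw [Real.norm_eq_abs, Real.norm_of_nonneg (by linarith)] at hx
    have := (le_abs_self _).trans hx
    linarith
  have e := (e1.and e2).and (Filter.eventually_ge_atTop (9 : ℝ))
  filter_upwards [tendsto_natCast_atTop_atTop.eventually e] with n hn
  obtain ⟨⟨h1, h2⟩, h4⟩ := hn
  set x : ℝ := (n : ℝ) with hx
  have hx0 : 0 < x := by linarith
  have hpi := Chebyshev.pi_ge n
  rw [← hx] at hpi
  have hlog : 0 < Real.log x := Real.log_pos (by linarith)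
  have h5 : x / 2 / Real.log x ≤ (x * Real.log 2 - Real.log (x + 1)) / Real.log x := by
    have h8 : (0.6931471803 : ℝ) < Real.log 2 := Real.log_two_gt_d9
    gcongr
    nlinarith
  have h3 : 3 ≤ Real.sqrt x := Real.le_sqrt_of_sq_le (by norm_num; linarith)
  have hsx : Real.sqrt x * Real.sqrt x = x := Real.mul_self_sqrt hx0.le
  have h6 : 3 + Real.sqrt x ≤ x / (4 * Real.log x) := by
    rw [le_div_iff₀ (by positivity)]
    have h7 : (3 + Real.sqrt x) * (4 * Real.log x) ≤ (2 * Real.sqrt x) * (4 * (Real.sqrt x / 8)) := by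
      gcongr
      linarith
    nlinarith
  have h7 : 2 * (x / (8 * Real.log x)) + x / (4 * Real.log x) = x / 2 / Real.log x := by
    field_simp
    ring
  linarith [h5.trans hpi]

theorem primes_setsU : ∀ᶠ n : ℕ in Filter.atTop, ∀ r : ℕ,
    ∃ P₁ P₂ : Finset ℕ, Disjoint P₁ P₂ ∧
      (∀ p ∈ P₁ ∪ P₂, p.Prime ∧ p ≤ n ∧ n ≤ p * p ∧ p ≠ r) ∧
      (n : ℝ) / (8 * Real.log n) ≤ P₁.card ∧ (n : ℝ) / (8 * Real.log n) ≤ P₂.card := by
  classical
  filter_upwards [pi_largeU, Filter.eventually_ge_atTop 3] with n hn hn3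
  intro r
  have hlog : 0 < Real.log n := Real.log_pos (by exact_mod_cast (by omega : 1 < n))
  set y : ℝ := (n : ℝ) / (8 * Real.log n) with hy
  have hy0 : 0 ≤ y := by positivity
  set m : ℕ := ⌈y⌉₊ with hm
  set R : Finset ℕ := (Icc 1 n).filter (fun p => p.Prime ∧ n ≤ p * p ∧ p ≠ r) with hR
  have hcard : Nat.primeCounting n ≤ R.card + Nat.sqrt n + 1 := by
    have h1 : Nat.primeCounting n = ((range (n + 1)).filter Nat.Prime).card := by
      rw [Nat.primeCounting, Nat.primeCounting', Nat.count_eq_card_filter_range]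
    have h2 : (range (n + 1)).filter Nat.Prime ⊆ (R ∪ Icc 1 (Nat.sqrt n)) ∪ {r} := by
      intro p hp
      rw [mem_filter, mem_range] at hp
      rw [mem_union, mem_union, mem_singleton, mem_Icc, hR, mem_filter, mem_Icc]
      by_cases h3 : p = r
      · right; exact h3
      · left
        have h4 := hp.2.one_lt
        by_cases h5 : n ≤ p * p
        · left
          exact ⟨⟨by omega, by omega⟩, hp.2, h5, h3⟩
        · right
          exact ⟨by omega, Nat.le_sqrt.2 (by omega)⟩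
    rw [h1]
    refine (card_le_card h2).trans ((card_union_le _ _).trans ?_)
    rw [card_singleton]
    have := card_union_le R (Icc 1 (Nat.sqrt n))
    rw [Nat.card_Icc] at this
    omega
  have h2n : 2 * m ≤ R.card := by
    have h1 : ((2 * m : ℕ) : ℝ) ≤ (R.card : ℝ) + 0 := by
      have h3 : ((Nat.primeCounting n : ℕ) : ℝ) ≤ (R.card : ℝ) + Nat.sqrt n + 1 := by
        exact_mod_cast hcard
      have h4 : ((Nat.sqrt n : ℕ) : ℝ) ≤ Real.sqrt n := Real.nat_sqrt_le_real_sqrt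
      have h5 : ((m : ℕ) : ℝ) ≤ y + 1 := (Nat.ceil_lt_add_one hy0).le
      push_cast
      linarith
    rw [add_zero] at h1
    exact_mod_cast h1
  obtain ⟨P₁, hP₁, hc₁⟩ := exists_subset_card_eq (show m ≤ R.card by omega)
  have h3 : m ≤ (R \ P₁).card := by
    rw [card_sdiff_of_subset hP₁]
    omega
  obtain ⟨P₂, hP₂, hc₂⟩ := exists_subset_card_eq h3
  refine ⟨P₁, P₂, ?_, ?_, by rw [hc₁]; exact Nat.le_ceil y, by rw [hc₂]; exact Nat.le_ceil y⟩
  · rw [disjoint_left]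
    intro p hp hp2
    have := hP₂ hp2
    rw [mem_sdiff] at this
    exact this.2 hp
  · intro p hp
    have hpR : p ∈ R := by
      rw [mem_union] at hp
      rcases hp with hp | hp
      · exact hP₁ hp
      · have := hP₂ hp
        rw [mem_sdiff] at this
        exact this.1
    rw [hR, mem_filter, mem_Icc] at hpR
    exact ⟨hpR.2.1, hpR.1.2, hpR.2.2.1, hpR.2.2.2⟩

theorem choose_lb (m v : ℕ) (x : ℝ) (hx : 0 ≤ x) (h : (v : ℝ) * x + v ≤ m + 1) :
    x ^ v ≤ (m.choose v : ℝ) := by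
  have hvm : v ≤ m + 1 := by
    have h1 : (v : ℝ) ≤ ((m + 1 : ℕ) : ℝ) := by
      push_cast
      have : 0 ≤ (v : ℝ) * x := by positivity
      linarith
    exact_mod_cast h1
  have h1 := Nat.pow_le_choose (α := ℝ) v m
  refine le_trans ?_ h1
  rw [le_div_iff₀ (by positivity)]
  have h2 : (v : ℝ) * x ≤ ((m + 1 - v : ℕ) : ℝ) := by
    rw [Nat.cast_sub hvm]
    push_cast
    linarith
  calc x ^ v * (v.factorial : ℝ) ≤ x ^ v * (v : ℝ) ^ v := by
        gcongr
        exact_mod_cast Nat.factorial_le_pow v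
    _ = ((v : ℝ) * x) ^ v := by rw [mul_pow]; ring
    _ ≤ ((m + 1 - v : ℕ) : ℝ) ^ v := by gcongr

theorem DD_propsU (P : Finset ℕ) (n r w : ℕ) (hr : r.Prime) (hn : 1 ≤ n)
    (hP : ∀ p ∈ P, p.Prime ∧ p ≤ n ∧ n ≤ p * p ∧ p ≠ r) :
    (∀ d ∈ DD P (2 * w), n ^ w ≤ d ∧ d ≤ n ^ (2 * w) ∧ d ∣ primorial n ∧ Nat.Coprime d r) ∧
    (P.card.choose (2 * w) : ℝ) / (n : ℝ) ^ (2 * w) ≤ ∑ d ∈ DD P (2 * w), (1 : ℝ) / d := by
  classical
  have h1 : ∀ d ∈ DD P (2 * w),
      n ^ w ≤ d ∧ d ≤ n ^ (2 * w) ∧ d ∣ primorial n ∧ Nat.Coprime d r := by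
    intro d hd
    rw [DD, mem_image] at hd
    obtain ⟨s, hs, rfl⟩ := hd
    rw [mem_powersetCard] at hs
    refine ⟨?_, ?_, ?_, ?_⟩
    · have h2 : (n ^ w) ^ 2 ≤ (∏ p ∈ s, p) ^ 2 := by
        calc (n ^ w) ^ 2 = ∏ _p ∈ s, n := by
              rw [prod_const, hs.2, ← pow_mul, mul_comm]
          _ ≤ ∏ p ∈ s, p * p := by
              apply prod_le_prod'
              intro p hp
              exact (hP p (hs.1 hp)).2.2.1
          _ = (∏ p ∈ s, p) ^ 2 := by rw [prod_mul_distrib, sq]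
      exact (Nat.pow_le_pow_iff_left (by norm_num)).1 h2
    · calc ∏ p ∈ s, p ≤ ∏ _p ∈ s, n := prod_le_prod' fun p hp => (hP p (hs.1 hp)).2.1
        _ = n ^ (2 * w) := by rw [prod_const, hs.2]
    · rw [primorial]
      apply prod_dvd_prod_of_subset
      intro p hp
      rw [mem_filter, mem_range]
      have := hP p (hs.1 hp)
      exact ⟨by omega, this.1⟩
    · apply Nat.Coprime.prod_left
      intro p hp
      have := hP p (hs.1 hp)
      exact (Nat.coprime_primes this.1 hr).2 this.2.2.2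
  refine ⟨h1, ?_⟩
  have hcard : (DD P (2 * w)).card = P.card.choose (2 * w) := by
    rw [DD, card_image_of_injOn, card_powersetCard]
    intro s hs t ht hst
    rw [mem_coe, mem_powersetCard] at hs ht
    simp only at hst
    have h2 := Nat.primeFactors_prod (s := s) (fun p hp => (hP p (hs.1 hp)).1)
    have h3 := Nat.primeFactors_prod (s := t) (fun p hp => (hP p (ht.1 hp)).1)
    rw [← h2, ← h3, hst]
  rw [← hcard, div_eq_mul_one_div, ← nsmul_eq_mul]
  apply card_nsmul_le_sum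
  intro d hd
  obtain ⟨h2, h3, _, _⟩ := h1 d hd
  have h4 : 0 < d := lt_of_lt_of_le (Nat.pow_pos (by omega)) h2
  have h5 : (0 : ℝ) < d := by exact_mod_cast h4
  exact one_div_le_one_div_of_le h5 (by exact_mod_cast h3)

/-- Numerical facts about `n = ⌊T ^ 40⌋` and `w = ⌊T / (6 log n)⌋`. -/
theorem numerics (T : ℝ) (hT : 10 ^ 5 ≤ T) (hexp : 4 * T ^ 600 ≤ Real.exp (T / 30)) :
    ∃ n w : ℕ, n = ⌊T ^ 40⌋₊ ∧ (n : ℝ) ≤ T ^ 40 ∧ 3 ≤ n ∧ 1 ≤ w ∧
      (n : ℝ) ^ w ≤ Real.exp (T / 6) ∧ Real.exp (T / 6) ≤ (n : ℝ) ^ (w + 1) ∧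
      (∀ m : ℕ, (n : ℝ) / (8 * Real.log n) ≤ m →
        Real.exp (-(T / 100)) ≤ (m.choose (2 * w) : ℝ) / (n : ℝ) ^ (2 * w)) := by
  have hT0 : (0 : ℝ) < T := by linarith
  have hT1 : (1 : ℝ) ≤ T := by linarith
  have hfl : (⌊T ^ 40⌋₊ : ℝ) ≤ T ^ 40 := Nat.floor_le (by positivity)
  have hfl2 : T ^ 40 < ⌊T ^ 40⌋₊ + 1 := Nat.lt_floor_add_one _
  set n : ℕ := ⌊T ^ 40⌋₊ with hn
  -- `(6 T) ^ 34 ≤ n`
  have h34 : (6 * T) ^ 34 ≤ (n : ℝ) := by
    have h1 : (10 ^ 5 : ℝ) ^ 6 ≤ T ^ 6 := by gcongr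
    have h2 : T ^ 40 = T ^ 34 * T ^ 6 := by rw [← pow_add]
    have h3 : (1 : ℝ) ≤ T ^ 34 := one_le_pow₀ hT1
    have h4 : (6 : ℝ) ^ 34 + 1 ≤ T ^ 6 := le_trans (by norm_num) h1
    rw [mul_pow]
    have h5 : T ^ 34 * ((6 : ℝ) ^ 34 + 1) ≤ T ^ 40 := by
      rw [h2]
      gcongr
    nlinarith
  have hn3 : (3 : ℝ) ≤ n := by
    refine le_trans ?_ h34
    have h1 : (1 : ℝ) ≤ T ^ 34 := one_le_pow₀ hT1
    rw [mul_pow]
    nlinarith [show (3 : ℝ) ≤ 6 ^ 34 by norm_num]
  have hn0 : (0 : ℝ) < n := by linarith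
  have hlog1 : 1 ≤ Real.log n := by
    rw [Real.le_log_iff_exp_le hn0]
    have := Real.exp_one_lt_d9
    linarith
  have hlog0 : 0 < Real.log n := by linarith
  -- upper bound for `log n`
  have hlogn : Real.log n ≤ T / 30 := by
    have h1 : T ^ 40 ≤ T ^ 600 := pow_le_pow_right₀ hT1 (by norm_num)
    have h2 : (n : ℝ) ≤ Real.exp (T / 30) := by
      have h3 : (0 : ℝ) < T ^ 600 := by positivity
      linarith
    calc Real.log n ≤ Real.log (Real.exp (T / 30)) := Real.log_le_log hn0 h2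
      _ = T / 30 := Real.log_exp _
  set w : ℕ := ⌊T / (6 * Real.log n)⌋₊ with hw
  have hw1 : (w : ℝ) ≤ T / (6 * Real.log n) := Nat.floor_le (by positivity)
  have hw2 : T / (6 * Real.log n) < w + 1 := Nat.lt_floor_add_one _
  have hww : (w : ℝ) * Real.log n ≤ T / 6 := by
    rw [le_div_iff₀ (by positivity)] at hw1
    linarith
  refine ⟨n, w, hn, hfl, by exact_mod_cast hn3, ?_, ?_, ?_, ?_⟩
  · rw [hw, Nat.one_le_floor_iff, le_div_iff₀ (by positivity)]
    linarith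
  · calc (n : ℝ) ^ w = Real.exp (w * Real.log n) := by
          rw [← Real.log_pow, Real.exp_log (by positivity)]
      _ ≤ Real.exp (T / 6) := Real.exp_le_exp.2 hww
  · calc Real.exp (T / 6) ≤ Real.exp (((w + 1 : ℕ) : ℝ) * Real.log n) := by
          apply Real.exp_le_exp.2
          rw [div_lt_iff₀ (by positivity)] at hw2
          push_cast
          linarith
      _ = (n : ℝ) ^ (w + 1) := by
          rw [← Real.log_pow, Real.exp_log (by positivity)]
  · intro m hm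
    have hx0 : (0 : ℝ) ≤ n / (6 * T) := by positivity
    have hv : ((2 * w : ℕ) : ℝ) ≤ T / (3 * Real.log n) := by
      push_cast
      have : T / (3 * Real.log n) = 2 * (T / (6 * Real.log n)) := by
        field_simp
        ring
      rw [this]
      linarith
    have hc := choose_lb m (2 * w) (n / (6 * T)) hx0 (by
      have h1 : ((2 * w : ℕ) : ℝ) * (n / (6 * T)) ≤ n / (18 * Real.log n) := by
        calc ((2 * w : ℕ) : ℝ) * (n / (6 * T)) ≤ T / (3 * Real.log n) * (n / (6 * T)) := by gcongr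
          _ = n / (18 * Real.log n) := by
              field_simp
              ring
      have h2 : ((2 * w : ℕ) : ℝ) ≤ n / (16 * Real.log n) := by
        refine hv.trans ?_
        rw [div_le_div_iff₀ (by positivity) (by positivity)]
        have h3 : 16 * T ≤ 3 * n := by
          have h4 : (6 * T) ^ 1 ≤ (6 * T) ^ 34 := pow_le_pow_right₀ (by linarith) (by norm_num)
          rw [pow_one] at h4
          linarith
        nlinarith
      have h3 : n / (18 * Real.log n) + n / (16 * Real.log n) ≤ (n : ℝ) / (8 * Real.log n) := by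
        have h4 : n / (18 * Real.log n) ≤ (n : ℝ) / (16 * Real.log n) := by
          gcongr
          norm_num
        have h5 : (n : ℝ) / (16 * Real.log n) + n / (16 * Real.log n) =
            (n : ℝ) / (8 * Real.log n) := by
          field_simp
          ring
        linarith
      linarith)
    have h1 : (n / (6 * T)) ^ (2 * w) / (n : ℝ) ^ (2 * w) ≤
        (m.choose (2 * w) : ℝ) / (n : ℝ) ^ (2 * w) := by gcongr
    refine le_trans ?_ h1
    rw [← div_pow]
    have h2 : n / (6 * T) / n = (6 * T)⁻¹ := by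
      field_simp
    rw [h2]
    have h3 : ((6 * T)⁻¹) ^ (2 * w) = Real.exp (-(((2 * w : ℕ) : ℝ) * Real.log (6 * T))) := by
      rw [Real.exp_neg, ← Real.log_pow, Real.exp_log (by positivity), inv_pow]
    rw [h3]
    apply Real.exp_le_exp.2
    apply neg_le_neg
    have h4 : 34 * Real.log (6 * T) ≤ Real.log n := by
      have h5 := Real.log_le_log (by positivity) h34
      rwa [Real.log_pow] at h5
    have h5 : 0 ≤ Real.log (6 * T) := Real.log_nonneg (by linarith)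
    calc ((2 * w : ℕ) : ℝ) * Real.log (6 * T) ≤ T / (3 * Real.log n) * (Real.log n / 34) := by
          gcongr
          linarith
      _ = T / 102 := by
          field_simp
          ring
      _ ≤ T / 100 := by
          gcongr
          norm_num

theorem supplyU (h8 : U8) (h9 : U9) : SupplyU := by
  classical
  obtain ⟨T₁, hT₁, H8⟩ := h8
  obtain ⟨T₂, hT₂, H9⟩ := h9
  have e1 : ∀ᶠ T : ℝ in Filter.atTop, 4 * T ^ 600 ≤ Real.exp (T / 30) := by
    have h := (isLittleO_pow_exp_pos_mul_atTop (k := 600) (b := 1 / 30) (by norm_num)).bound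
      (c := 1 / 4) (by norm_num)
    filter_upwards [h, Filter.eventually_ge_atTop (0 : ℝ)] with x hx hx0
    rw [Real.norm_of_nonneg (by positivity), Real.norm_of_nonneg (by positivity)] at hx
    have : Real.exp (1 / 30 * x) = Real.exp (x / 30) := by congr 1; ring
    rw [this] at hx
    linarith
  have e2 : ∀ᶠ T : ℝ in Filter.atTop, ∀ r : ℕ,
      ∃ P₁ P₂ : Finset ℕ, Disjoint P₁ P₂ ∧
      (∀ p ∈ P₁ ∪ P₂, p.Prime ∧ p ≤ ⌊T ^ 40⌋₊ ∧ ⌊T ^ 40⌋₊ ≤ p * p ∧ p ≠ r) ∧
      (⌊T ^ 40⌋₊ : ℝ) / (8 * Real.log ⌊T ^ 40⌋₊) ≤ P₁.card ∧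
      (⌊T ^ 40⌋₊ : ℝ) / (8 * Real.log ⌊T ^ 40⌋₊) ≤ P₂.card :=
    (tendsto_nat_floor_atTop.comp (Filter.tendsto_pow_atTop (by norm_num))).eventually primes_setsU
  obtain ⟨T₃, hT₃⟩ := Filter.eventually_atTop.1 (e1.and e2)
  refine ⟨max (max T₁ T₂) (max T₃ (10 ^ 5)), ?_, ?_⟩
  · exact le_trans hT₁ ((le_max_left _ _).trans (le_max_left _ _))
  intro T hT r hr hrT
  have hTT₁ : T₁ ≤ T := ((le_max_left _ _).trans (le_max_left _ _)).trans hT
  have hTT₂ : T₂ ≤ T := ((le_max_right _ _).trans (le_max_left _ _)).trans hT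
  have hTT₃ : T₃ ≤ T := ((le_max_left _ _).trans (le_max_right _ _)).trans hT
  have hT5 : 10 ^ 5 ≤ T := ((le_max_right _ _).trans (le_max_right _ _)).trans hT
  obtain ⟨f1, f2⟩ := hT₃ T hTT₃
  obtain ⟨n, w, hn, hnT, hn3, hw, hw1, hw2, hch⟩ := numerics T hT5 f1
  rw [← hn] at f2
  obtain ⟨P₁, P₂, hdis, hP, hc₁, hc₂⟩ := f2 r
  have hT0 : (0 : ℝ) < T := by linarith
  have hT1 : (1 : ℝ) ≤ T := by linarith
  have hn0 : (0 : ℝ) < n := by
    have : 0 < n := by omega
    exact_mod_cast this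
  obtain ⟨p1, s1⟩ := DD_propsU P₁ n r w hr (by omega) (fun p hp => hP p (mem_union_left _ hp))
  obtain ⟨p2, s2⟩ := DD_propsU P₂ n r w hr (by omega) (fun p hp => hP p (mem_union_right _ hp))
  have hcop := DD_coprime P₁ P₂ (2 * w) hdis (fun p hp => (hP p hp).1)
  have hr0 : (1 : ℝ) ≤ r := by exact_mod_cast hr.one_lt.le
  have hlogr : 0 ≤ Real.log r := Real.log_nonneg hr0
  have hlr : 1 + 2 * Real.log r ≤ T / 3 := by
    by_contra hc
    push Not at hc
    nlinarith
  have aux : ∀ P : Finset ℕ, (∀ d ∈ DD P (2 * w), n ^ w ≤ d ∧ d ≤ n ^ (2 * w) ∧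
      d ∣ primorial n ∧ Nat.Coprime d r) →
      ∀ d ∈ DD P (2 * w), 1 ≤ d ∧ 1 + 2 * Real.log (r * d : ℕ) ≤ T ∧ Nat.Coprime d r := by
    intro P hP d hd
    obtain ⟨h1, h2, _, h4⟩ := hP d hd
    have hd1 : 1 ≤ d := le_trans (Nat.one_le_pow _ _ (by omega)) h1
    refine ⟨hd1, ?_, h4⟩
    have hd0 : (0 : ℝ) < d := by exact_mod_cast hd1
    push_cast
    rw [Real.log_mul (by positivity) (by positivity)]
    have h5 : (d : ℝ) ≤ Real.exp (T / 3) := by
      calc (d : ℝ) ≤ (n : ℝ) ^ (2 * w) := by exact_mod_cast h2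
        _ = ((n : ℝ) ^ w) ^ 2 := by rw [← pow_mul, mul_comm]
        _ ≤ (Real.exp (T / 6)) ^ 2 := by gcongr
        _ = Real.exp (T / 3) := by
            rw [← Real.exp_nat_mul]
            congr 1
            push_cast
            ring
    have h6 : Real.log d ≤ T / 3 := by
      calc Real.log d ≤ Real.log (Real.exp (T / 3)) := Real.log_le_log hd0 h5
        _ = T / 3 := Real.log_exp _
    linarith
  obtain ⟨j, hj1, hj2, hj⟩ := H8 T (T ^ 40) hTT₁ le_rfl r hr hrT (DD P₁ (2 * w))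
    (DD P₂ (2 * w)) (aux P₁ p1) (aux P₂ p2) hcop
  have hsq : Real.sqrt (T ^ 40) = T ^ 20 := by
    rw [show T ^ 40 = (T ^ 20) ^ 2 by rw [← pow_mul]]
    exact Real.sqrt_sq (by positivity)
  have final : ∀ P : Finset ℕ, (∀ d ∈ DD P (2 * w), n ^ w ≤ d ∧ d ≤ n ^ (2 * w) ∧
      d ∣ primorial n ∧ Nat.Coprime d r) →
      (P.card.choose (2 * w) : ℝ) / (n : ℝ) ^ (2 * w) ≤ ∑ d ∈ DD P (2 * w), (1 : ℝ) / d →
      (n : ℝ) / (8 * Real.log n) ≤ P.card →
      (∀ d ∈ DD P (2 * w), (j.factorial : ℝ) * (T ^ 40) ^ j ≤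
        Real.exp (T / 50) * (T ^ 40) ^ 10 * ((r * d : ℕ) : ℝ) * AP (r * d) j (1 / T ^ 40)) →
      ∃ (P Q : Finset ℕ) (L : ℕ), 1 ≤ L ∧
      (L : ℝ) ≤ Real.exp (T ^ 120) ∧ Real.exp (T / 10) ≤ P.card ∧ Real.exp (T / 10) ≤ Q.card ∧
      (∀ l ∈ P ∪ Q, l.Prime ∧ r ∣ l - 1 ∧ l - 1 ∣ L ∧ Real.exp (T ^ 20) ≤ l ∧
        (l : ℝ) ≤ Real.exp (T ^ 80)) ∧
      ∀ p : ℕ, p.Prime → Real.exp T < p → (∀ l ∈ P, ¬ p ∣ l - 1) ∨ (∀ l ∈ Q, ¬ p ∣ l - 1) := by
    intro P hP hs hPc hAP
    have hex : ∀ d : ℕ, ∃ S : Finset ℕ, d ∈ DD P (2 * w) →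
        (∀ l ∈ S, l.Prime ∧ l ≡ 1 [MOD r * d] ∧ Real.exp (T ^ 20) ≤ l ∧
        (l : ℝ) ≤ Real.exp (T ^ 80)) ∧
        1 ≤ Real.exp (T / 50) * T ^ 480 * ((r * d : ℕ) : ℝ) * ∑ l ∈ S, (1 : ℝ) / l := by
      intro d
      by_cases hd : d ∈ DD P (2 * w)
      · have h1 := aux P hP d hd
        have hrd : 1 ≤ r * d := Nat.mul_pos hr.pos h1.1
        have hlrd : 0 ≤ Real.log (r * d : ℕ) := Real.log_nonneg (by exact_mod_cast hrd)
        obtain ⟨S, hS1, hS2⟩ := H9 T (T ^ 40) hTT₂ le_rfl (r * d) j hrd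
          (by linarith [h1.2.1]) hj1 hj2 (hAP d hd)
        rw [hsq, ← pow_mul] at hS1
        rw [← pow_mul] at hS2
        exact ⟨S, fun _ => ⟨hS1, hS2⟩⟩
      · exact ⟨∅, fun h => absurd h hd⟩
    choose S hS using hex
    refine finishU T hT5 f1 r n hr hrT hnT (DD P (2 * w)) ?_ (fun d hd => (aux P hP d hd).1)
      (fun d hd => (hP d hd).2.2.1) ((hch P.card hPc).trans hs) S
      (fun d hd => (hS d hd).1) (fun d hd => (hS d hd).2)
    intro d hd
    rw [div_le_iff₀ (by positivity)]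
    calc Real.exp (T / 6) ≤ (n : ℝ) ^ (w + 1) := hw2
      _ = (n : ℝ) ^ w * n := by rw [pow_succ]
      _ ≤ d * T ^ 40 := by
          gcongr
          exact_mod_cast (hP d hd).1
  rcases hj with hj | hj
  · exact final P₁ p1 s1 hc₁ hj
  · exact final P₂ p2 s2 hc₂ hj

end Pool.Agent.Lib.MP_509488_nt.Unif.U10

namespace Pool.Agent.Lib.MP_509488_nt.Unif

/-- U10. -/
theorem supplyU (h8 : U8) (h9 : U9) : SupplyU := U10.supplyU h8 h9

end Pool.Agent.Lib.MP_509488_nt.Unif
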