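import Pool.Agent.Lib.MP_509488_nt.Unif.M2
import Pool.Agent.Lib.MP_509488_nt.Unif.StmtsU

/-!
# U2: `ZZ j δ = j!/δ^(j+1) + O(j!)`, uniform in `j`
-/

namespace Pool.Agent.Lib.MP_509488_nt.Unif

open Filter Topology Finset

/-- `s^j exp (-c s)`. -/
noncomputable def hh2 (j : ℕ) (c s : ℝ) : ℝ := s ^ j * Real.exp (-(c * s))

theorem hh2_mono (j : ℕ) (c : ℝ) (hc : 0 < c) (s t : ℝ) (hs : 0 ≤ s) (hst : s ≤ t)
    (ht : t ≤ j / c) : hh2 j c s ≤ hh2 j c t := by
  unfold hh2
  rcases eq_or_lt_of_le (hs.trans hst) with h0 | h0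
  · have : s = t := le_antisymm hst (by rw [← h0]; exact hs)
    rw [this]
  · have h1 : s / t ≤ Real.exp (-((t - s) / t)) := by
      have := Real.add_one_le_exp (-((t - s) / t))
      have h2 : s / t = -((t - s) / t) + 1 := by field_simp; ring
      rw [h2]; exact this
    have h2 : (s / t) ^ j ≤ Real.exp (-(c * (t - s))) := by
      calc (s / t) ^ j ≤ Real.exp (-((t - s) / t)) ^ j :=
            pow_le_pow_left₀ (by positivity) h1 j
        _ = Real.exp (j * -((t - s) / t)) := by rw [← Real.exp_nat_mul]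
        _ ≤ Real.exp (-(c * (t - s))) := by
            apply Real.exp_le_exp.2
            have h3 : c ≤ j / t := by
              rw [le_div_iff₀ h0]
              rw [le_div_iff₀ hc] at ht
              linarith
            have h4 : c * (t - s) ≤ j / t * (t - s) :=
              mul_le_mul_of_nonneg_right h3 (by linarith)
            have h5 : (j : ℝ) * -((t - s) / t) = -(j / t * (t - s)) := by ring
            rw [h5]; linarith
    have h3 : s ^ j = (s / t) ^ j * t ^ j := by rw [← mul_pow]; congr 1; field_simp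
    have h4 : Real.exp (-(c * t)) = Real.exp (-(c * (t - s))) * Real.exp (-(c * s)) := by
      rw [← Real.exp_add]; congr 1; ring
    rw [h3, h4]
    have h5 : 0 ≤ t ^ j * Real.exp (-(c * s)) := by positivity
    nlinarith [mul_le_mul_of_nonneg_right h2 h5]

theorem hh2_anti (j : ℕ) (c : ℝ) (hc : 0 < c) (s t : ℝ) (hs : j / c ≤ s) (hst : s ≤ t) :
    hh2 j c t ≤ hh2 j c s := by
  unfold hh2
  rcases Nat.eq_zero_or_pos j with hj | hj
  · rw [hj, pow_zero, pow_zero, one_mul, one_mul]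
    apply Real.exp_le_exp.2
    nlinarith
  · have hj0 : (0 : ℝ) < j := by exact_mod_cast hj
    have h0 : 0 < s := lt_of_lt_of_le (by positivity) hs
    have h1 : t / s ≤ Real.exp ((t - s) / s) := by
      have := Real.add_one_le_exp ((t - s) / s)
      have h2 : t / s = (t - s) / s + 1 := by field_simp; ring
      rw [h2]; exact this
    have h2 : (t / s) ^ j ≤ Real.exp (c * (t - s)) := by
      calc (t / s) ^ j ≤ Real.exp ((t - s) / s) ^ j :=
            pow_le_pow_left₀ (by apply div_nonneg _ h0.le; linarith) h1 j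
        _ = Real.exp (j * ((t - s) / s)) := by rw [← Real.exp_nat_mul]
        _ ≤ Real.exp (c * (t - s)) := by
            apply Real.exp_le_exp.2
            have h3 : j / s ≤ c := by
              rw [div_le_iff₀ h0]
              rw [div_le_iff₀ hc] at hs
              linarith
            have h4 : j / s * (t - s) ≤ c * (t - s) :=
              mul_le_mul_of_nonneg_right h3 (by linarith)
            have h5 : (j : ℝ) * ((t - s) / s) = j / s * (t - s) := by ring
            rw [h5]; exact h4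
    have h3 : t ^ j = (t / s) ^ j * s ^ j := by rw [← mul_pow]; congr 1; field_simp
    have h4 : Real.exp (-(c * s)) = Real.exp (c * (t - s)) * Real.exp (-(c * t)) := by
      rw [← Real.exp_add]; congr 1; ring
    rw [h3, h4]
    have h5 : 0 ≤ s ^ j * Real.exp (-(c * t)) := by positivity
    nlinarith [mul_le_mul_of_nonneg_right h2 h5]

theorem ff_eq (j : ℕ) (δ u : ℝ) (hu : 0 < u) : ff j δ u = hh2 j (1 + δ) (Real.log u) := by
  unfold ff hh2
  rw [Real.rpow_def_of_pos hu]
  congr 2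
  ring

/-- The variation function. -/
noncomputable def Var (j : ℕ) (δ u : ℝ) : ℝ :=
  if Real.log u ≤ j / (1 + δ) then ff j δ u else 2 * hh2 j (1 + δ) (j / (1 + δ)) - ff j δ u

theorem ff_le_max (j : ℕ) (δ u : ℝ) (hδ : 0 < δ) (hu : 1 ≤ u) :
    ff j δ u ≤ hh2 j (1 + δ) (j / (1 + δ)) := by
  rw [ff_eq j δ u (by linarith)]
  have hl : 0 ≤ Real.log u := Real.log_nonneg hu
  rcases le_total (Real.log u) (j / (1 + δ)) with h | h
  · exact hh2_mono j _ (by linarith) _ _ hl h le_rfl
  · exact hh2_anti j _ (by linarith) _ _ le_rfl h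

theorem ff_nonneg (j : ℕ) (δ u : ℝ) (hu : 1 ≤ u) : 0 ≤ ff j δ u := by
  unfold ff
  have := Real.log_nonneg hu
  have : 0 ≤ u := by linarith
  positivity

theorem var_bound (j : ℕ) (δ u v : ℝ) (hδ : 0 < δ) (hu : 1 ≤ u) (huv : u ≤ v) :
    |ff j δ u - ff j δ v| ≤ Var j δ v - Var j δ u := by
  have hv : 1 ≤ v := hu.trans huv
  have hlu : 0 ≤ Real.log u := Real.log_nonneg hu
  have hlv : Real.log u ≤ Real.log v := Real.log_le_log (by linarith) huv
  have hmu := ff_le_max j δ u hδ hu
  have hmv := ff_le_max j δ v hδ hv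
  unfold Var
  by_cases h1 : Real.log v ≤ j / (1 + δ)
  · rw [if_pos h1, if_pos (hlv.trans h1)]
    have h2 : ff j δ u ≤ ff j δ v := by
      rw [ff_eq j δ u (by linarith), ff_eq j δ v (by linarith)]
      exact hh2_mono j _ (by linarith) _ _ hlu hlv h1
    rw [abs_sub_comm, abs_of_nonneg (by linarith)]
  · rw [if_neg h1]
    by_cases h2 : Real.log u ≤ j / (1 + δ)
    · rw [if_pos h2, abs_le]
      constructor <;> linarith
    · rw [if_neg h2]
      have h3 : ff j δ v ≤ ff j δ u := by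
        rw [ff_eq j δ u (by linarith), ff_eq j δ v (by linarith)]
        exact hh2_anti j _ (by linarith) _ _ (by linarith) hlv
      rw [abs_of_nonneg (by linarith)]
      linarith

theorem max_le (j : ℕ) (δ : ℝ) (hδ : 0 < δ) :
    hh2 j (1 + δ) (j / (1 + δ)) ≤ (j.factorial : ℝ) := by
  unfold hh2
  have h1 : (1 + δ) * (j / (1 + δ)) = j := by field_simp
  rw [h1, Real.exp_neg, ← div_eq_mul_inv, div_le_iff₀ (Real.exp_pos _)]
  have hf : (0 : ℝ) < (j.factorial : ℝ) := by exact_mod_cast j.factorial_pos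
  have h2 := Real.pow_div_factorial_le_exp (j : ℝ) (Nat.cast_nonneg j) j
  rw [div_le_iff₀ hf] at h2
  have h3 : ((j : ℝ) / (1 + δ)) ^ j ≤ (j : ℝ) ^ j := by
    apply pow_le_pow_left₀ (by positivity)
    apply div_le_self (Nat.cast_nonneg j)
    linarith
  linarith

/-- U2. -/
theorem u2 : U2 := by
  refine ⟨2, by norm_num, ?_⟩
  intro j δ hδ hδ1
  have hz : ZZ j δ = ∑' n : ℕ, ff j δ ((n + 1 : ℕ) : ℝ) := by
    unfold ZZ
    rw [(summable_ZZ j δ hδ).tsum_eq_zero_add]
    have : ((0 : ℕ) : ℝ) ^ (-1 - δ) = 0 := by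
      rw [Nat.cast_zero, Real.zero_rpow (by linarith)]
    rw [this, mul_zero, zero_add]
    rfl
  have hf : Summable (fun n : ℕ => ff j δ ((n + 1 : ℕ) : ℝ)) :=
    (summable_nat_add_iff 1).2 (summable_ZZ j δ hδ)
  have hg := hasSum_incr j δ hδ hδ1
  rw [hz, ← hg.tsum_eq, ← hf.tsum_sub hg.summable]
  set g : ℕ → ℝ := fun n => ff j δ ((n + 1 : ℕ) : ℝ) -
      (FF j δ ((n + 1 : ℕ) + 1) - FF j δ ((n + 1 : ℕ) : ℝ)) with hgdef
  have hstep : ∀ n : ℕ, |g n| ≤ Var j δ (((n + 1 : ℕ) : ℝ) + 1) - Var j δ ((n + 1 : ℕ) : ℝ) := by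
    intro n
    have hn1 : (1 : ℝ) ≤ ((n + 1 : ℕ) : ℝ) := by exact_mod_cast Nat.succ_le_succ (Nat.zero_le n)
    set m : ℝ := ((n + 1 : ℕ) : ℝ) with hm
    obtain ⟨ξ, hξ, he⟩ := exists_hasDerivAt_eq_slope (FF j δ) (ff j δ)
      (show m < m + 1 by linarith)
      (fun u hu => (hasDerivAt_FF j δ hδ.ne' u (by linarith [hu.1])).continuousAt.continuousWithinAt)
      (fun u hu => hasDerivAt_FF j δ hδ.ne' u (by linarith [hu.1]))
    have he' : FF j δ (m + 1) - FF j δ m = ff j δ ξ := by
      rw [he]; simp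
    have h1 := var_bound j δ m ξ hδ hn1 hξ.1.le
    have h2 := var_bound j δ ξ (m + 1) hδ (by linarith [hξ.1]) hξ.2.le
    have h3 := (abs_nonneg _).trans h2
    rw [hgdef]
    simp only
    rw [he']
    linarith
  have hpart : ∀ N : ℕ, ∑ n ∈ range N, |g n| ≤ 2 * (j.factorial : ℝ) := by
    intro N
    have h1 : ∑ n ∈ range N, |g n| ≤ ∑ n ∈ range N,
        (Var j δ (((n + 1 : ℕ) : ℝ) + 1) - Var j δ ((n + 1 : ℕ) : ℝ)) :=
      Finset.sum_le_sum (fun n _ => hstep n)
    have h2 : ∑ n ∈ range N, (Var j δ (((n + 1 : ℕ) : ℝ) + 1) - Var j δ ((n + 1 : ℕ) : ℝ)) =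
        Var j δ ((N : ℝ) + 1) - Var j δ 1 := by
      have := Finset.sum_range_sub (fun n : ℕ => Var j δ ((n : ℝ) + 1)) N
      simp only [Nat.cast_add, Nat.cast_one, Nat.cast_zero, zero_add] at this ⊢
      exact this
    have hN1 : (1 : ℝ) ≤ (N : ℝ) + 1 := by
      have : (0 : ℝ) ≤ N := Nat.cast_nonneg N
      linarith
    have h3 : Var j δ ((N : ℝ) + 1) ≤ 2 * hh2 j (1 + δ) (j / (1 + δ)) := by
      have h4 := ff_le_max j δ _ hδ hN1
      have h5 := ff_nonneg j δ _ hN1
      unfold Var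
      split_ifs <;> linarith
    have h4 : 0 ≤ Var j δ 1 := by
      have h5 := ff_nonneg j δ 1 le_rfl
      have h6 := ff_le_max j δ 1 hδ le_rfl
      unfold Var
      split_ifs <;> linarith
    have h5 := max_le j δ hδ
    linarith
  have hsummable : Summable (fun n => |g n|) :=
    summable_of_sum_range_le (fun n => abs_nonneg _) hpart
  have h6 : |∑' n, g n| ≤ ∑' n, |g n| := by
    have := norm_tsum_le_tsum_norm (f := g) (by simpa only [Real.norm_eq_abs] using hsummable)
    simpa only [Real.norm_eq_abs] using this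
  exact h6.trans (hsummable.tsum_le_of_sum_range_le hpart)

end Pool.Agent.Lib.MP_509488_nt.Unif
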