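import Pool.Agent.Lib.MP_509488_nt.Unif.StmtsU
import Pool.Agent.Lib.MP_509488_nt.Unif.M2

/-!
# U3: `Σ Λ(n) (log n)^j n^(-1-δ) = j!/δ^(j+1) + O(j!/δ^j)`

Mertens' first theorem and partial summation; the total variation of `(log u)^j u^(-δ)` is
bounded through an explicit antiderivative.
-/

namespace Pool.Agent.Lib.MP_509488_nt.Unif

open Filter Topology Finset ArithmeticFunction

/-- Mertens' first theorem for `Λ`. -/
lemma u3_mertens (N : ℕ) (hN : 1 ≤ N) :
    |∑ n ∈ Ioc 0 N, vonMangoldt n / (n : ℝ) - Real.log N| ≤ Real.log 4 + 5 := by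
  have hN0 : (0 : ℝ) < N := by exact_mod_cast hN
  have hL : Real.log (N.factorial) = ∑ n ∈ Ioc 0 N, vonMangoldt n * ((N / n : ℕ) : ℝ) := by
    have h1 := sum_Ioc_mul_zeta_eq_sum (R := ℝ) vonMangoldt N
    rw [vonMangoldt_mul_zeta] at h1
    rw [← h1]
    have h2 : ∀ M : ℕ, Real.log (M.factorial) = ∑ n ∈ Ioc 0 M, ArithmeticFunction.log n := by
      intro M
      induction M with
      | zero => simp
      | succ M ih =>
        rw [Finset.sum_Ioc_succ_top (by omega), ← ih, Nat.factorial_succ]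
        push_cast
        rw [Real.log_mul (by positivity) (by positivity), log_apply]
        push_cast
        ring
    exact h2 N
  have hup : Real.log (N.factorial) ≤ N * Real.log N := by
    have h : (N.factorial : ℝ) ≤ (N : ℝ) ^ N := by exact_mod_cast N.factorial_le_pow
    have hf : (0 : ℝ) < (N.factorial : ℝ) := by exact_mod_cast N.factorial_pos
    calc Real.log (N.factorial) ≤ Real.log ((N : ℝ) ^ N) := Real.log_le_log hf h
      _ = N * Real.log N := by rw [Real.log_pow]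
  have hlow : N * Real.log N - N ≤ Real.log (N.factorial) := by
    have h1 := Stirling.le_log_factorial_stirling (n := N) (by omega)
    have h2 : 0 ≤ Real.log N := Real.log_natCast_nonneg N
    have h3 : 0 ≤ Real.log (2 * Real.pi) := Real.log_nonneg (by
      have := Real.pi_gt_three; linarith)
    linarith
  have hpsi : Chebyshev.psi N ≤ (Real.log 4 + 4) * N := Chebyshev.psi_le_const_mul_self hN0.le
  have hpsi2 : Chebyshev.psi N = ∑ n ∈ Ioc 0 N, vonMangoldt n := by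
    simp [Chebyshev.psi]
  have h1 : Real.log (N.factorial) ≤ N * ∑ n ∈ Ioc 0 N, vonMangoldt n / (n : ℝ) := by
    rw [hL, Finset.mul_sum]
    refine Finset.sum_le_sum fun n hn => ?_
    have h2 : ((N / n : ℕ) : ℝ) ≤ (N : ℝ) / n := Nat.cast_div_le
    calc vonMangoldt n * ((N / n : ℕ) : ℝ) ≤ vonMangoldt n * ((N : ℝ) / n) :=
          mul_le_mul_of_nonneg_left h2 vonMangoldt_nonneg
      _ = _ := by ring
  have h2 : N * ∑ n ∈ Ioc 0 N, vonMangoldt n / (n : ℝ) ≤
      Real.log (N.factorial) + Chebyshev.psi N := by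
    rw [hL, hpsi2, Finset.mul_sum, ← Finset.sum_add_distrib]
    refine Finset.sum_le_sum fun n hn => ?_
    have h3 : (N : ℝ) / n ≤ ((N / n : ℕ) : ℝ) + 1 := by
      have hn0 : 0 < n := (Finset.mem_Ioc.1 hn).1
      have := (Nat.lt_floor_add_one ((N : ℝ) / n)).le
      rwa [Nat.floor_div_eq_div] at this
    calc (N : ℝ) * (vonMangoldt n / n) = vonMangoldt n * ((N : ℝ) / n) := by ring
      _ ≤ vonMangoldt n * (((N / n : ℕ) : ℝ) + 1) :=
          mul_le_mul_of_nonneg_left h3 vonMangoldt_nonneg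
      _ = _ := by ring
  set S := ∑ n ∈ Ioc 0 N, vonMangoldt n / (n : ℝ) with hS
  have h4 : (N : ℝ) * (Real.log N - 1) ≤ N * S := by linarith
  have h5 : (N : ℝ) * S ≤ N * (Real.log N + (Real.log 4 + 4)) := by
    calc (N : ℝ) * S ≤ Real.log (N.factorial) + Chebyshev.psi N := h2
      _ ≤ N * Real.log N + (Real.log 4 + 4) * N := by linarith
      _ = _ := by ring
  have h6 := le_of_mul_le_mul_left h4 hN0
  have h7 := le_of_mul_le_mul_left h5 hN0
  have h8 : 0 ≤ Real.log 4 := Real.log_nonneg (by norm_num)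
  rw [abs_le]
  constructor <;> linarith

/-- `h(u) = (log u)^j u^(-δ)`. -/
noncomputable def u3h (j : ℕ) (δ u : ℝ) : ℝ := Real.log u ^ j * u ^ (-δ)

/-- `G`, an antiderivative of a majorant of `|h'|`. -/
noncomputable def u3G (j : ℕ) (δ u : ℝ) : ℝ := (j : ℝ) * FF (j - 1) δ u + δ * FF j δ u

lemma u3_hasDerivAt_h (j : ℕ) (δ u : ℝ) (hu : 0 < u) :
    HasDerivAt (u3h j δ) ((j : ℝ) * ff (j - 1) δ u - δ * ff j δ u) u := by
  have h0 : HasDerivAt (fun u : ℝ => u ^ (-δ)) (-δ * u ^ (-δ - 1)) u :=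
    Real.hasDerivAt_rpow_const (Or.inl hu.ne')
  have hl : HasDerivAt (fun u : ℝ => Real.log u ^ j)
      ((j : ℝ) * Real.log u ^ (j - 1) * u⁻¹) u := by
    have := (Real.hasDerivAt_log hu.ne').fun_pow j
    simpa using this
  refine (hl.mul h0).congr_deriv ?_
  have hexp : u⁻¹ * u ^ (-δ) = u ^ (-1 - δ) := by
    rw [← Real.rpow_neg_one, ← Real.rpow_add hu]
    congr 1
  have hexp2 : u ^ (-δ - 1) = u ^ (-1 - δ) := by congr 1; ring
  unfold ff
  rw [hexp2, mul_assoc ((j : ℝ) * _) (u⁻¹), hexp]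
  ring

lemma u3_hasDerivAt_G (j : ℕ) (δ : ℝ) (hδ : δ ≠ 0) (u : ℝ) (hu : 0 < u) :
    HasDerivAt (u3G j δ) ((j : ℝ) * ff (j - 1) δ u + δ * ff j δ u) u :=
  ((hasDerivAt_FF (j - 1) δ hδ u hu).const_mul (j : ℝ)).add
    ((hasDerivAt_FF j δ hδ u hu).const_mul δ)

lemma u3_ff_nonneg (j : ℕ) (δ u : ℝ) (hu : 1 ≤ u) : 0 ≤ ff j δ u := by
  unfold ff
  have := Real.log_nonneg hu
  positivity

/-- `|h(b) - h(a)| ≤ G(b) - G(a)`. -/
lemma u3_var (j : ℕ) (δ : ℝ) (hδ : 0 < δ) (a b : ℝ) (ha : 1 ≤ a) (hab : a ≤ b) :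
    |u3h j δ b - u3h j δ a| ≤ u3G j δ b - u3G j δ a := by
  have hm : ∀ s : ℝ, (s = 1 ∨ s = -1) →
      s * (u3h j δ b - u3h j δ a) ≤ u3G j δ b - u3G j δ a := by
    intro s hs
    have hmono : MonotoneOn (fun u => u3G j δ u - s * u3h j δ u) (Set.Ici (1 : ℝ)) := by
      refine monotoneOn_of_deriv_nonneg (convex_Ici 1) ?_ ?_ ?_
      · intro u hu
        have hu1 : (0 : ℝ) < u := lt_of_lt_of_le one_pos hu
        exact (((u3_hasDerivAt_G j δ hδ.ne' u hu1).sub
          ((u3_hasDerivAt_h j δ u hu1).const_mul s)).continuousAt).continuousWithinAt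
      · intro u hu
        rw [interior_Ici] at hu
        have hu1 : (0 : ℝ) < u := lt_trans one_pos hu
        exact ((u3_hasDerivAt_G j δ hδ.ne' u hu1).sub
          ((u3_hasDerivAt_h j δ u hu1).const_mul s)).differentiableAt.differentiableWithinAt
      · intro u hu
        rw [interior_Ici] at hu
        have hu1 : (0 : ℝ) < u := lt_trans one_pos hu
        have hd : HasDerivAt (fun u => u3G j δ u - s * u3h j δ u)
            (((j : ℝ) * ff (j - 1) δ u + δ * ff j δ u) -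
              s * ((j : ℝ) * ff (j - 1) δ u - δ * ff j δ u)) u :=
          (u3_hasDerivAt_G j δ hδ.ne' u hu1).sub ((u3_hasDerivAt_h j δ u hu1).const_mul s)
        rw [hd.deriv]
        have n1 := u3_ff_nonneg (j - 1) δ u (le_of_lt hu)
        have n2 := u3_ff_nonneg j δ u (le_of_lt hu)
        have n3 : 0 ≤ (j : ℝ) * ff (j - 1) δ u := by positivity
        have n4 : 0 ≤ δ * ff j δ u := by positivity
        rcases hs with rfl | rfl <;> nlinarith
    have := hmono (Set.mem_Ici.2 ha) (Set.mem_Ici.2 (ha.trans hab)) hab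
    simp only at this
    linarith
  rw [abs_le]
  have h1 := hm 1 (Or.inl rfl)
  have h2 := hm (-1) (Or.inr rfl)
  constructor <;> linarith

/-- The variation of `h` on `[1, ∞)` is at most `2 j!/δ^j`. -/
lemma u3_G_one (j : ℕ) (δ : ℝ) (hδ : 0 < δ) :
    -(2 * ((j.factorial : ℝ) / δ ^ j)) ≤ u3G j δ 1 := by
  unfold u3G
  rw [FF_one _ _ hδ.ne', FF_one _ _ hδ.ne']
  rcases j with _ | j
  · simp
    have : δ * δ⁻¹ = 1 := mul_inv_cancel₀ hδ.ne'
    linarith
  · simp only [Nat.add_sub_cancel]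
    rw [Nat.factorial_succ]
    push_cast
    have : 0 < δ ^ (j + 1) := by positivity
    apply le_of_eq
    field_simp
    ring

lemma u3_G_nonpos (j : ℕ) (δ : ℝ) (hδ : 0 < δ) (u : ℝ) (hu : 1 ≤ u) : u3G j δ u ≤ 0 := by
  have hmono : MonotoneOn (u3G j δ) (Set.Ici (1 : ℝ)) := by
    refine monotoneOn_of_deriv_nonneg (convex_Ici 1) ?_ ?_ ?_
    · intro v hv
      have hv1 : (0 : ℝ) < v := lt_of_lt_of_le one_pos hv
      exact (u3_hasDerivAt_G j δ hδ.ne' v hv1).continuousAt.continuousWithinAt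
    · intro v hv
      rw [interior_Ici] at hv
      have hv1 : (0 : ℝ) < v := lt_trans one_pos hv
      exact (u3_hasDerivAt_G j δ hδ.ne' v hv1).differentiableAt.differentiableWithinAt
    · intro v hv
      rw [interior_Ici] at hv
      have hv1 : (0 : ℝ) < v := lt_trans one_pos hv
      rw [(u3_hasDerivAt_G j δ hδ.ne' v hv1).deriv]
      have n1 := u3_ff_nonneg (j - 1) δ v (le_of_lt hv)
      have n2 := u3_ff_nonneg j δ v (le_of_lt hv)
      positivity
  have ht : Tendsto (u3G j δ) atTop (𝓝 0) := by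
    have h1 := (tendsto_FF (j - 1) δ hδ).const_mul (j : ℝ)
    have h2 := (tendsto_FF j δ hδ).const_mul δ
    have h3 := h1.add h2
    simp only [mul_zero, add_zero] at h3
    exact h3
  refine ge_of_tendsto ht ?_
  filter_upwards [eventually_ge_atTop u] with v hv
  exact hmono (Set.mem_Ici.2 hu) (Set.mem_Ici.2 (hu.trans hv)) hv

lemma u3_h_le (j : ℕ) (δ : ℝ) (hδ : 0 < δ) (u : ℝ) (hu : 1 ≤ u) :
    |u3h j δ u| ≤ 3 * ((j.factorial : ℝ) / δ ^ j) := by
  have h1 := u3_var j δ hδ 1 u le_rfl hu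
  have h2 := u3_G_one j δ hδ
  have h3 := u3_G_nonpos j δ hδ u hu
  have h4 : |u3h j δ 1| ≤ (j.factorial : ℝ) / δ ^ j := by
    unfold u3h
    rcases j with _ | j
    · simp
    · simp
      positivity
  have h5 : |u3h j δ u| ≤ |u3h j δ u - u3h j δ 1| + |u3h j δ 1| := by
    calc |u3h j δ u| = |(u3h j δ u - u3h j δ 1) + u3h j δ 1| := by ring_nf
      _ ≤ _ := abs_add_le _ _
  linarith

/-- One step of the main term. -/
lemma u3_step (j : ℕ) (δ : ℝ) (hδ : 0 < δ) (n : ℕ) (hn : 1 ≤ n) :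
    |(Real.log ((n : ℝ) + 1) - Real.log n) * u3h j δ ((n : ℝ) + 1) -
      (FF j δ ((n : ℝ) + 1) - FF j δ n)| ≤ u3G j δ ((n : ℝ) + 1) - u3G j δ n := by
  have hn1 : (1 : ℝ) ≤ n := by exact_mod_cast hn
  obtain ⟨ξ, hξ, he⟩ := exists_ratio_hasDerivAt_eq_ratio_slope (FF j δ) (ff j δ)
    (show (n : ℝ) < (n : ℝ) + 1 by linarith)
    (fun u hu => (hasDerivAt_FF j δ hδ.ne' u (by linarith [hu.1])).continuousAt.continuousWithinAt)
    (fun u hu => hasDerivAt_FF j δ hδ.ne' u (by linarith [hu.1])) Real.log (fun u => u⁻¹)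
    (fun u hu => (Real.hasDerivAt_log (by linarith [hu.1])).continuousAt.continuousWithinAt)
    (fun u hu => Real.hasDerivAt_log (by linarith [hu.1]))
  have hξ0 : (0 : ℝ) < ξ := by linarith [hξ.1]
  have hff : ff j δ ξ = u3h j δ ξ * ξ⁻¹ := by
    unfold ff u3h
    rw [mul_assoc]
    congr 1
    rw [← Real.rpow_neg_one, ← Real.rpow_add hξ0]
    congr 1; ring
  have he' : FF j δ ((n : ℝ) + 1) - FF j δ n =
      (Real.log ((n : ℝ) + 1) - Real.log n) * u3h j δ ξ := by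
    rw [hff] at he
    have hinv : (ξ⁻¹ : ℝ) ≠ 0 := inv_ne_zero hξ0.ne'
    have : (Real.log ((n : ℝ) + 1) - Real.log n) * u3h j δ ξ * ξ⁻¹ =
        (FF j δ ((n : ℝ) + 1) - FF j δ n) * ξ⁻¹ := by linarith
    exact (mul_right_cancel₀ hinv this).symm
  rw [he', ← mul_sub, abs_mul]
  have hlog : |Real.log ((n : ℝ) + 1) - Real.log n| ≤ 1 := by
    have h1 : Real.log ((n : ℝ) + 1) - Real.log n = Real.log (((n : ℝ) + 1) / n) := by
      rw [Real.log_div (by linarith) (by linarith)]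
    have h2 : 0 ≤ Real.log (((n : ℝ) + 1) / n) :=
      Real.log_nonneg (by rw [le_div_iff₀ (by linarith)]; linarith)
    have h3 : Real.log (((n : ℝ) + 1) / n) ≤ ((n : ℝ) + 1) / n - 1 :=
      Real.log_le_sub_one_of_pos (by positivity)
    have h4 : ((n : ℝ) + 1) / n - 1 ≤ 1 := by
      rw [sub_le_iff_le_add, div_le_iff₀ (by linarith)]; linarith
    rw [h1, abs_of_nonneg h2]
    linarith
  have hv := u3_var j δ hδ ξ ((n : ℝ) + 1) (by linarith [hξ.1]) hξ.2.le
  have hv2 := u3_var j δ hδ n ξ hn1 hξ.1.le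
  have hv3 := abs_nonneg (u3h j δ ξ - u3h j δ n)
  calc |Real.log ((n : ℝ) + 1) - Real.log n| * |u3h j δ ((n : ℝ) + 1) - u3h j δ ξ|
      ≤ 1 * |u3h j δ ((n : ℝ) + 1) - u3h j δ ξ| :=
        mul_le_mul_of_nonneg_right hlog (abs_nonneg _)
    _ ≤ u3G j δ ((n : ℝ) + 1) - u3G j δ n := by linarith

/-- The term of `MM`. -/
lemma u3_term (j : ℕ) (δ : ℝ) (n : ℕ) (hn : 1 ≤ n) :
    vonMangoldt n * (Real.log n ^ j * (n : ℝ) ^ (-1 - δ)) =
      vonMangoldt n / (n : ℝ) * u3h j δ n := by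
  have hn0 : (0 : ℝ) < n := by exact_mod_cast hn
  unfold u3h
  have : (n : ℝ) ^ (-1 - δ) = (n : ℝ)⁻¹ * (n : ℝ) ^ (-δ) := by
    rw [← Real.rpow_neg_one, ← Real.rpow_add hn0]
    congr 1
  rw [this]
  field_simp

/-- Partial sums. -/
lemma u3_partial (j : ℕ) (δ : ℝ) (hδ : 0 < δ) (N : ℕ) :
    |∑ n ∈ Ioc 0 (N + 1), vonMangoldt n / (n : ℝ) * u3h j δ n -
      (FF j δ ((N : ℝ) + 1) - FF j δ 1)| ≤
      (Real.log 4 + 5) * |u3h j δ ((N : ℝ) + 1)| +
        (Real.log 4 + 6) * (u3G j δ ((N : ℝ) + 1) - u3G j δ 1) := by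
  set C := Real.log 4 + 5 with hC
  have hC0 : 0 ≤ C := by
    have : 0 ≤ Real.log 4 := Real.log_nonneg (by norm_num)
    linarith
  set A : ℕ → ℝ := fun M => ∑ n ∈ Ioc 0 M, vonMangoldt n / (n : ℝ) with hA
  have key : ∀ M : ℕ, |(∑ n ∈ Ioc 0 (M + 1), vonMangoldt n / (n : ℝ) * u3h j δ n -
      (FF j δ ((M : ℝ) + 1) - FF j δ 1)) -
      (A (M + 1) - Real.log ((M : ℝ) + 1)) * u3h j δ ((M : ℝ) + 1)| ≤
        (C + 1) * (u3G j δ ((M : ℝ) + 1) - u3G j δ 1) := by
    intro M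
    induction M with
    | zero => simp [A]
    | succ M ih =>
      have hs := u3_step j δ hδ (M + 1) (by omega)
      have hv := u3_var j δ hδ ((M : ℝ) + 1) ((M : ℝ) + 1 + 1) (by
        have : (0 : ℝ) ≤ M := by positivity
        linarith) (by linarith)
      have hm := u3_mertens (M + 1) (by omega)
      rw [Finset.sum_Ioc_succ_top (by omega)]
      have hAs : A (M + 1 + 1) = A (M + 1) +
          vonMangoldt (M + 1 + 1) / ((M + 1 + 1 : ℕ) : ℝ) := by
        simp only [hA]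
        rw [Finset.sum_Ioc_succ_top (by omega)]
      push_cast at hs hm hAs ⊢
      have hm' : |A (M + 1) - Real.log ((M : ℝ) + 1)| ≤ C := hm
      set S := ∑ n ∈ Ioc 0 (M + 1), vonMangoldt n / (n : ℝ) * u3h j δ n with hS
      set h1 := u3h j δ ((M : ℝ) + 1) with hh1
      set h2 := u3h j δ ((M : ℝ) + 1 + 1) with hh2
      set l1 := Real.log ((M : ℝ) + 1) with hl1
      set l2 := Real.log ((M : ℝ) + 1 + 1) with hl2
      set a := A (M + 1) with ha
      set v := vonMangoldt (M + 1 + 1) / ((M : ℝ) + 1 + 1) with hv0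
      set F1 := FF j δ ((M : ℝ) + 1)
      set F2 := FF j δ ((M : ℝ) + 1 + 1)
      set F0 := FF j δ 1
      set G1 := u3G j δ ((M : ℝ) + 1)
      set G2 := u3G j δ ((M : ℝ) + 1 + 1)
      set G0 := u3G j δ 1
      rw [hAs]
      have e1 : (S + v * h2 - (F2 - F0)) - (a + v - l2) * h2 =
          ((S - (F1 - F0)) - (a - l1) * h1) + ((l2 - l1) * h2 - (F2 - F1)) +
            (-(a - l1) * (h2 - h1)) := by ring
      rw [e1]
      have e2 : |(-(a - l1) * (h2 - h1))| ≤ C * (G2 - G1) := by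
        rw [abs_mul, abs_neg]
        exact mul_le_mul hm' hv (abs_nonneg _) hC0
      calc |((S - (F1 - F0)) - (a - l1) * h1) + ((l2 - l1) * h2 - (F2 - F1)) +
            (-(a - l1) * (h2 - h1))| ≤ |((S - (F1 - F0)) - (a - l1) * h1)| +
              |((l2 - l1) * h2 - (F2 - F1))| + |(-(a - l1) * (h2 - h1))| := by
              refine (abs_add_le _ _).trans ?_
              gcongr
              exact abs_add_le _ _
        _ ≤ (C + 1) * (G1 - G0) + (G2 - G1) + C * (G2 - G1) := by linarith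
        _ = (C + 1) * (G2 - G0) := by ring
  have h1 := key N
  have h2 := u3_mertens (N + 1) (by omega)
  push_cast at h2
  have h3 : |(A (N + 1) - Real.log ((N : ℝ) + 1)) * u3h j δ ((N : ℝ) + 1)| ≤
      C * |u3h j δ ((N : ℝ) + 1)| := by
    rw [abs_mul]
    exact mul_le_mul_of_nonneg_right h2 (abs_nonneg _)
  have h4 : Real.log 4 + 6 = C + 1 := by rw [hC]; ring
  rw [h4]
  set X := ∑ n ∈ Ioc 0 (N + 1), vonMangoldt n / (n : ℝ) * u3h j δ n -
      (FF j δ ((N : ℝ) + 1) - FF j δ 1)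
  set Y := (A (N + 1) - Real.log ((N : ℝ) + 1)) * u3h j δ ((N : ℝ) + 1)
  have h5 : |X| ≤ |X - Y| + |Y| := by
    calc |X| = |(X - Y) + Y| := by ring_nf
      _ ≤ _ := abs_add_le _ _
  linarith

theorem u3_summable (j : ℕ) (δ : ℝ) (hδ : 0 < δ) :
    Summable (fun n : ℕ => vonMangoldt n * (Real.log n ^ j * (n : ℝ) ^ (-1 - δ))) := by
  have h := (summable_ZZ (j + 1) δ hδ)
  refine Summable.of_nonneg_of_le (fun n => ?_) (fun n => ?_) h
  · have := Real.log_natCast_nonneg n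
    have := @vonMangoldt_nonneg n
    positivity
  · have h1 : vonMangoldt n ≤ Real.log n := vonMangoldt_le_log
    have h2 := Real.log_natCast_nonneg n
    calc vonMangoldt n * (Real.log n ^ j * (n : ℝ) ^ (-1 - δ))
        ≤ Real.log n * (Real.log n ^ j * (n : ℝ) ^ (-1 - δ)) := by gcongr
      _ = _ := by ring

theorem u3 : U3 := by
  have hl4 : 0 ≤ Real.log 4 := Real.log_nonneg (by norm_num)
  refine ⟨5 * (Real.log 4 + 6), by linarith, fun j δ hδ _ => ?_⟩
  set J := (j.factorial : ℝ) / δ ^ j with hJ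
  have hJ0 : 0 ≤ J := by positivity
  have hs := u3_summable j δ hδ
  have ht : Tendsto (fun N : ℕ => ∑ n ∈ Ioc 0 (N + 1), vonMangoldt n / (n : ℝ) * u3h j δ n)
      atTop (𝓝 (MM j δ)) := by
    have h1 := (hs.hasSum.tendsto_sum_nat).comp (tendsto_add_atTop_nat 2)
    unfold MM
    refine h1.congr fun N => ?_
    simp only [Function.comp]
    have e : Finset.range (N + 2) = insert 0 (Ioc 0 (N + 1)) := by
      ext x; simp; omega
    rw [e, Finset.sum_insert (by simp)]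
    simp only [ArithmeticFunction.map_zero, zero_mul, zero_add]
    refine Finset.sum_congr rfl fun n hn => ?_
    exact u3_term j δ n (Finset.mem_Ioc.1 hn).1
  have hF : Tendsto (fun N : ℕ => FF j δ ((N : ℝ) + 1) - FF j δ 1) atTop
      (𝓝 ((j.factorial : ℝ) / δ ^ (j + 1))) := by
    have h2 : Tendsto (fun N : ℕ => FF j δ ((N : ℝ) + 1)) atTop (𝓝 0) :=
      (tendsto_FF j δ hδ).comp (tendsto_atTop_add_const_right _ _ tendsto_natCast_atTop_atTop)
    have h3 := h2.sub_const (FF j δ 1)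
    rw [FF_one j δ hδ.ne'] at h3
    rw [FF_one j δ hδ.ne']
    simpa using h3
  have hlim := (ht.sub hF).abs
  refine le_of_tendsto hlim (Eventually.of_forall fun N => ?_)
  have h1 := u3_partial j δ hδ N
  have hN : (1 : ℝ) ≤ (N : ℝ) + 1 := by
    have : (0 : ℝ) ≤ N := by positivity
    linarith
  have h2 := u3_h_le j δ hδ ((N : ℝ) + 1) hN
  have h3 := u3_G_nonpos j δ hδ ((N : ℝ) + 1) hN
  have h4 := u3_G_one j δ hδ
  have h5 : u3G j δ ((N : ℝ) + 1) - u3G j δ 1 ≤ 2 * J := by linarith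
  calc |∑ n ∈ Ioc 0 (N + 1), vonMangoldt n / (n : ℝ) * u3h j δ n -
      (FF j δ ((N : ℝ) + 1) - FF j δ 1)|
      ≤ (Real.log 4 + 5) * |u3h j δ ((N : ℝ) + 1)| +
        (Real.log 4 + 6) * (u3G j δ ((N : ℝ) + 1) - u3G j δ 1) := h1
    _ ≤ (Real.log 4 + 6) * (3 * J) + (Real.log 4 + 6) * (2 * J) := by
        have : 0 ≤ |u3h j δ ((N : ℝ) + 1)| := abs_nonneg _
        gcongr
        · linarith
    _ = 5 * (Real.log 4 + 6) * J := by ring

end Pool.Agent.Lib.MP_509488_nt.Unif
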