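import Pool.Agent.Lib.MP_509488_nt.Unif.RecA
import Pool.Agent.Lib.MP_509488_nt.Unif.StmtsU

/-!
# U5: the logarithmic derivatives, uniform in `j`
-/

namespace Pool.Agent.Lib.MP_509488_nt.Unif

open Finset RecA

theorem geom_aux (a b : ℝ) (ha : 0 ≤ a) (hab : 2 * a ≤ b) (j : ℕ) :
    ∑ i ∈ range j, b ^ (i + 1) * a ^ (j - i + 1) ≤ 2 * a ^ 2 * b ^ j := by
  have hb : 0 ≤ b := by linarith
  induction j with
  | zero => simp; positivity
  | succ j ih =>
    rw [Finset.sum_range_succ]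
    have h1 : ∑ i ∈ range j, b ^ (i + 1) * a ^ (j + 1 - i + 1) =
        a * ∑ i ∈ range j, b ^ (i + 1) * a ^ (j - i + 1) := by
      rw [Finset.mul_sum]
      apply Finset.sum_congr rfl
      intro i hi
      rw [mem_range] at hi
      rw [show j + 1 - i + 1 = (j - i + 1) + 1 by omega, pow_succ a (j - i + 1)]
      ring
    rw [h1, show j + 1 - j + 1 = 2 by omega]
    have h2 : a * ∑ i ∈ range j, b ^ (i + 1) * a ^ (j - i + 1) ≤ a * (2 * a ^ 2 * b ^ j) :=
      mul_le_mul_of_nonneg_left ih ha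
    have h3 : 0 ≤ a ^ 2 * b ^ j := by positivity
    have h4 : a ^ 2 * b ^ j * (2 * a) ≤ a ^ 2 * b ^ j * b := mul_le_mul_of_nonneg_left hab h3
    calc a * ∑ i ∈ range j, b ^ (i + 1) * a ^ (j - i + 1) + b ^ (j + 1) * a ^ 2
        ≤ a * (2 * a ^ 2 * b ^ j) + b ^ (j + 1) * a ^ 2 := by linarith
      _ = a ^ 2 * b ^ j * (2 * a) + a ^ 2 * b ^ j * b := by rw [pow_succ]; ring
      _ ≤ a ^ 2 * b ^ j * b + a ^ 2 * b ^ j * b := by linarith
      _ = 2 * a ^ 2 * b ^ (j + 1) := by rw [pow_succ]; ring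

/-- U5. -/
theorem u5 (h1 : U1) : U5 := by
  obtain ⟨c, hc1, hc⟩ := h1
  intro κ hκ
  have hC1 : 1 ≤ 2 * c + 3 * c ^ 2 / κ := by
    have : 0 ≤ 3 * c ^ 2 / κ := by positivity
    linarith
  refine ⟨2 * c + 3 * c ^ 2 / κ, hC1, ?_⟩
  set C := 2 * c + 3 * c ^ 2 / κ with hC
  intro q hq χ hχ δ hδ hδ1 T hT hL j
  have hq0 : (1 : ℝ) ≤ q := by exact_mod_cast hq
  have hlogq0 : 0 ≤ Real.log q := Real.log_nonneg hq0
  have hT1 : 1 ≤ T := by linarith
  have hT0 : 0 < T := by linarith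
  set a := c * T with ha
  set b := C * T ^ 9 with hb
  have ha0 : 0 ≤ a := by positivity
  have hT9 : T ≤ T ^ 9 := by
    calc T = T ^ 1 := (pow_one T).symm
      _ ≤ T ^ 9 := pow_le_pow_right₀ hT1 (by norm_num)
  have hk0 : 0 ≤ 3 * c ^ 2 / κ := by positivity
  have hab : 2 * a ≤ b := by
    have h3 : 2 * c ≤ C := by rw [hC]; linarith
    calc 2 * a = (2 * c) * T := by rw [ha]; ring
      _ ≤ C * T ^ 9 := mul_le_mul h3 hT9 hT0.le (by linarith)
      _ = b := by rw [hb]
  have hb0 : 0 ≤ b := by linarith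
  have hLLb : ∀ i, ‖LL χ i δ‖ ≤ a ^ (i + 1) * (i.factorial : ℝ) := fun i =>
    (hc i q hq χ hχ δ hδ hδ1).trans (mul_le_mul_of_nonneg_right
      (pow_le_pow_left₀ (by positivity) (mul_le_mul_of_nonneg_left hT (by linarith)) _)
      (Nat.cast_nonneg _))
  have hLpos : 0 < ‖LL χ 0 δ‖ := lt_of_lt_of_le (by positivity) hL
  induction j using Nat.strong_induction_on with
  | _ j ih =>
    have hrec := LL_rec χ j hδ
    rw [Finset.sum_range_succ, Nat.choose_self, Nat.cast_one, one_mul, Nat.sub_self] at hrec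
    have hVL : VV χ j δ * LL χ 0 δ = LL χ (j + 1) δ -
        ∑ i ∈ range j, (j.choose i : ℂ) * (VV χ i δ * LL χ (j - i) δ) := by
      rw [hrec]; ring
    have hj0 : (0 : ℝ) < (j.factorial : ℝ) := by exact_mod_cast j.factorial_pos
    have hsum : ‖∑ i ∈ range j, (j.choose i : ℂ) * (VV χ i δ * LL χ (j - i) δ)‖ ≤
        (2 * a ^ 2 * b ^ j) * (j.factorial : ℝ) := by
      calc ‖∑ i ∈ range j, (j.choose i : ℂ) * (VV χ i δ * LL χ (j - i) δ)‖
          ≤ ∑ i ∈ range j, (b ^ (i + 1) * a ^ (j - i + 1)) * (j.factorial : ℝ) := by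
            refine (norm_sum_le _ _).trans (Finset.sum_le_sum fun i hi => ?_)
            rw [Finset.mem_range] at hi
            rw [norm_mul, norm_mul, Complex.norm_natCast]
            have h5 : ((j.choose i * i.factorial * (j - i).factorial : ℕ) : ℝ) =
                (j.factorial : ℝ) := by
              rw [Nat.choose_mul_factorial_mul_factorial hi.le]
            push_cast at h5
            calc (j.choose i : ℝ) * (‖VV χ i δ‖ * ‖LL χ (j - i) δ‖)
                ≤ (j.choose i : ℝ) * ((b ^ (i + 1) * (i.factorial : ℝ)) *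
                  (a ^ (j - i + 1) * ((j - i).factorial : ℝ))) := by
                  apply mul_le_mul_of_nonneg_left _ (Nat.cast_nonneg _)
                  exact mul_le_mul (ih i hi) (hLLb _) (norm_nonneg _) (by positivity)
              _ = (b ^ (i + 1) * a ^ (j - i + 1)) *
                  ((j.choose i : ℝ) * (i.factorial : ℝ) * ((j - i).factorial : ℝ)) := by ring
              _ = (b ^ (i + 1) * a ^ (j - i + 1)) * (j.factorial : ℝ) := by rw [h5]
        _ = (∑ i ∈ range j, b ^ (i + 1) * a ^ (j - i + 1)) * (j.factorial : ℝ) := by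
            rw [Finset.sum_mul]
        _ ≤ (2 * a ^ 2 * b ^ j) * (j.factorial : ℝ) :=
            mul_le_mul_of_nonneg_right (geom_aux a b ha0 hab j) hj0.le
    have hfirst : ‖LL χ (j + 1) δ‖ ≤ (a ^ 2 * b ^ j) * (j.factorial : ℝ) := by
      refine (hLLb (j + 1)).trans ?_
      rw [Nat.factorial_succ]
      push_cast
      have h6 : ((j : ℝ) + 1) ≤ 2 ^ j := by
        have : j + 1 ≤ 2 ^ j := Nat.succ_le_of_lt (Nat.lt_two_pow_self (n := j))
        exact_mod_cast this
      have h7 : ((j : ℝ) + 1) * a ^ j ≤ b ^ j := by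
        calc ((j : ℝ) + 1) * a ^ j ≤ 2 ^ j * a ^ j := mul_le_mul_of_nonneg_right h6 (by positivity)
          _ = (2 * a) ^ j := (mul_pow 2 a j).symm
          _ ≤ b ^ j := pow_le_pow_left₀ (by linarith) hab j
      calc a ^ (j + 1 + 1) * (((j : ℝ) + 1) * (j.factorial : ℝ))
          = a ^ 2 * (((j : ℝ) + 1) * a ^ j) * (j.factorial : ℝ) := by
            rw [pow_succ, pow_succ]; ring
        _ ≤ a ^ 2 * b ^ j * (j.factorial : ℝ) := by
            apply mul_le_mul_of_nonneg_right _ hj0.le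
            exact mul_le_mul_of_nonneg_left h7 (by positivity)
    have hnum : ‖VV χ j δ‖ * ‖LL χ 0 δ‖ ≤ (3 * a ^ 2 * b ^ j) * (j.factorial : ℝ) := by
      rw [← norm_mul, hVL]
      refine (norm_sub_le _ _).trans ((add_le_add hfirst hsum).trans (le_of_eq ?_))
      ring
    have hfin : ‖VV χ j δ‖ * (κ / T ^ 7) ≤ (3 * a ^ 2 * b ^ j) * (j.factorial : ℝ) :=
      (mul_le_mul_of_nonneg_left hL (norm_nonneg _)).trans hnum
    have hT7 : 0 < T ^ 7 := by positivity
    rw [mul_div_assoc', div_le_iff₀ hT7] at hfin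
    have h8 : ‖VV χ j δ‖ ≤ (3 * a ^ 2 * b ^ j) * (j.factorial : ℝ) * T ^ 7 / κ := by
      rw [le_div_iff₀ hκ]; exact hfin
    refine h8.trans ?_
    have h9 : (3 * a ^ 2 * b ^ j) * (j.factorial : ℝ) * T ^ 7 / κ =
        ((3 * c ^ 2 / κ) * T ^ 9) * b ^ j * (j.factorial : ℝ) := by
      rw [ha]; field_simp
    rw [h9]
    apply mul_le_mul_of_nonneg_right _ hj0.le
    rw [show b ^ (j + 1) = b * b ^ j from pow_succ' b j]
    apply mul_le_mul_of_nonneg_right _ (by positivity)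
    rw [hb]
    apply mul_le_mul_of_nonneg_right _ (by positivity)
    rw [hC]; linarith

end Pool.Agent.Lib.MP_509488_nt.Unif
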