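import Mathlib
import Pool.Agent.Lib.MP_509488_nt.Unif.M7d
import Pool.Agent.Lib.MP_509488_nt.Unif.StmtsU

/-!
# Uniform bases, third version, module 7: primes with `ψ(p) = 1`, uniform in the number of logarithms
-/

set_option autoImplicit false

namespace Pool.Agent.Lib.MP_509488_nt.Unif

open Finset Filter Topology Asymptotics

namespace U7

lemma geo1 {x : ℝ} (hx : 2 ≤ x) (m : ℕ) : ∑ i ∈ range (m + 1), x ^ (i + 1) ≤ 2 * x ^ (m + 1) := by
  induction m with
  | zero => simp; linarith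
  | succ m ih =>
    rw [Finset.sum_range_succ]
    have h0 : 0 < x ^ (m + 1) := by positivity
    have h1 : 2 * x ^ (m + 1) ≤ x ^ (m + 1 + 1) := by
      rw [pow_succ x (m + 1)]
      nlinarith
    linarith

lemma geo2 {x L : ℝ} (hx : 2 ≤ x) (hL : 2 * x ≤ L) (a b : ℕ) :
    ∑ i ∈ Ico a b, x ^ (i + 1) / L ^ i ≤ 2 * (x ^ (a + 1) / L ^ a) := by
  have hL0 : 0 < L := by linarith
  have hq0 : 0 ≤ x / L := by positivity
  have hq : x / L ≤ 1 / 2 := by
    rw [div_le_div_iff₀ hL0 (by norm_num)]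
    linarith
  have h1 := geom_sum_Ico_le_of_lt_one (m := a) (n := b) hq0 (by linarith)
  have h2 : ∑ i ∈ Ico a b, x ^ (i + 1) / L ^ i = x * ∑ i ∈ Ico a b, (x / L) ^ i := by
    rw [Finset.mul_sum]
    refine Finset.sum_congr rfl fun i _ => ?_
    rw [div_pow]
    ring
  have h3 : (x / L) ^ a / (1 - x / L) ≤ 2 * (x / L) ^ a := by
    rw [div_le_iff₀ (by linarith)]
    have : 0 ≤ (x / L) ^ a := by positivity
    nlinarith
  rw [h2]
  calc x * ∑ i ∈ Ico a b, (x / L) ^ i ≤ x * (2 * (x / L) ^ a) :=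
        mul_le_mul_of_nonneg_left (h1.trans h3) (by linarith)
    _ = 2 * (x ^ (a + 1) / L ^ a) := by
        rw [div_pow]
        ring

/-- The numerical core of the argument, for the sequences divided by the factorials. -/
lemma core (k₀ J m₀ : ℕ) (hJ : 14 * k₀ ≤ J + 1) (hJ' : k₀ + m₀ ≤ J) (c x L B : ℝ) (hc : 1 ≤ c)
    (hx : 2 ≤ x) (hB : 1 ≤ B) (hL : 8 * c * x ≤ L) (hLB : 32 * c * B * x ^ (m₀ + 2) ≤ L ^ m₀)
    (h w z l mm : ℕ → ℝ)
    (hh : ∀ m ≤ J + 1, h m = ∑ i ∈ range (m + 1), l i * z (m - i))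
    (hl : ∀ i ≤ J + 1, |l i| ≤ x ^ (i + 1)) (hz : ∀ i ≤ J + 1, |z i - L ^ (i + 1)| ≤ c)
    (hlow : L ^ m₀ / B ≤ h m₀) (hrec : (J + 1) * h (J + 1) = ∑ i ∈ range (J + 1), w i * h (J - i))
    (hwM : ∀ i, w i ≤ 2 * mm i) (hM : ∀ i ≤ J, mm i ≤ 2 * L ^ (i + 1))
    (hhn : ∀ m, 0 ≤ h m) : ∃ i, k₀ ≤ i ∧ i ≤ J ∧ L ^ i ≤ 6 * B * L * w i := by
  have hc0 : 0 < c := by linarith
  have hx0 : 0 < x := by linarith
  have hB0 : 0 < B := by linarith
  have hcx : x ≤ c * x := le_mul_of_one_le_left hx0.le hc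
  have hL8 : 8 * x ≤ L := by linarith
  have hL0 : 0 < L := by linarith
  have hL1 : 1 ≤ L := by linarith
  obtain ⟨e, he⟩ : ∃ e : ℝ, e = ∑ i ∈ range (J + 2), l i / L ^ i := ⟨_, rfl⟩
  -- main estimate
  have hA : ∀ m ≤ J + 1, |h m - L ^ (m + 1) * e| ≤ 4 * c * x ^ (m + 2) := by
    intro m hm
    have s1 : L ^ (m + 1) * e =
        ∑ i ∈ range (m + 1), l i * L ^ (m - i + 1) +
        ∑ i ∈ Ico (m + 1) (J + 2), L ^ (m + 1) * (l i / L ^ i) := by
      rw [he, Finset.mul_sum, ← Finset.sum_range_add_sum_Ico _ (by omega : m + 1 ≤ J + 2)]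
      congr 1
      refine Finset.sum_congr rfl fun i hi => ?_
      have hi' : i ≤ m := by
        have := Finset.mem_range.1 hi
        omega
      have f2 : L ^ (m + 1) = L ^ i * L ^ (m - i + 1) := by
        rw [← pow_add]
        congr 1
        omega
      rw [f2]
      field_simp
    have s2 : h m - L ^ (m + 1) * e =
        ∑ i ∈ range (m + 1), l i * (z (m - i) - L ^ (m - i + 1)) -
        ∑ i ∈ Ico (m + 1) (J + 2), L ^ (m + 1) * (l i / L ^ i) := by
      rw [hh m hm, s1, ← sub_sub, ← Finset.sum_sub_distrib]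
      congr 1
      exact Finset.sum_congr rfl fun i _ => by ring
    have s3 : |∑ i ∈ range (m + 1), l i * (z (m - i) - L ^ (m - i + 1))| ≤
        2 * x ^ (m + 1) * c := by
      refine (Finset.abs_sum_le_sum_abs _ _).trans ?_
      calc ∑ i ∈ range (m + 1), |l i * (z (m - i) - L ^ (m - i + 1))|
          ≤ ∑ i ∈ range (m + 1), x ^ (i + 1) * c := by
            refine Finset.sum_le_sum fun i hi => ?_
            have hi' : i ≤ m := by
              have := Finset.mem_range.1 hi
              omega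
            rw [abs_mul]
            exact mul_le_mul (hl i (by omega)) (hz (m - i) (by omega)) (abs_nonneg _)
              (by positivity)
        _ = (∑ i ∈ range (m + 1), x ^ (i + 1)) * c := by rw [Finset.sum_mul]
        _ ≤ 2 * x ^ (m + 1) * c := mul_le_mul_of_nonneg_right (geo1 hx m) hc0.le
    have s4 : |∑ i ∈ Ico (m + 1) (J + 2), L ^ (m + 1) * (l i / L ^ i)| ≤ 2 * x ^ (m + 2) := by
      refine (Finset.abs_sum_le_sum_abs _ _).trans ?_
      calc ∑ i ∈ Ico (m + 1) (J + 2), |L ^ (m + 1) * (l i / L ^ i)|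
          ≤ ∑ i ∈ Ico (m + 1) (J + 2), L ^ (m + 1) * (x ^ (i + 1) / L ^ i) := by
            refine Finset.sum_le_sum fun i hi => ?_
            obtain ⟨hi1, hi2⟩ := Finset.mem_Ico.1 hi
            rw [abs_mul, abs_div, abs_of_pos (by positivity : 0 < L ^ (m + 1)),
              abs_of_pos (by positivity : 0 < L ^ i)]
            apply mul_le_mul_of_nonneg_left _ (by positivity)
            exact div_le_div_of_nonneg_right (hl i (by omega)) (by positivity)
        _ = L ^ (m + 1) * ∑ i ∈ Ico (m + 1) (J + 2), x ^ (i + 1) / L ^ i := by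
            rw [Finset.mul_sum]
        _ ≤ L ^ (m + 1) * (2 * (x ^ (m + 1 + 1) / L ^ (m + 1))) :=
            mul_le_mul_of_nonneg_left (geo2 hx (by linarith) _ _) (by positivity)
        _ = 2 * x ^ (m + 2) := by
            field_simp
    have s5 : x ^ (m + 1) ≤ x ^ (m + 2) := pow_le_pow_right₀ (by linarith) (by omega)
    have s6 : x ^ (m + 2) ≤ c * x ^ (m + 2) := le_mul_of_one_le_left (by positivity) hc
    rw [s2]
    calc _ ≤ |∑ i ∈ range (m + 1), l i * (z (m - i) - L ^ (m - i + 1))| +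
          |∑ i ∈ Ico (m + 1) (J + 2), L ^ (m + 1) * (l i / L ^ i)| := abs_sub _ _
      _ ≤ 2 * x ^ (m + 1) * c + 2 * x ^ (m + 2) := add_le_add s3 s4
      _ ≤ 2 * x ^ (m + 2) * c + 2 * (c * x ^ (m + 2)) := by
          have : 2 * x ^ (m + 1) * c ≤ 2 * x ^ (m + 2) * c :=
            mul_le_mul_of_nonneg_right (by linarith) hc0.le
          linarith
      _ = 4 * c * x ^ (m + 2) := by ring
  -- upper bound for `e`
  have heU : e ≤ 2 * x := by
    rw [he]
    calc ∑ i ∈ range (J + 2), l i / L ^ i ≤ ∑ i ∈ range (J + 2), x ^ (i + 1) / L ^ i := by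
          refine Finset.sum_le_sum fun i hi => ?_
          have := Finset.mem_range.1 hi
          exact div_le_div_of_nonneg_right ((le_abs_self _).trans (hl i (by omega)))
            (by positivity)
      _ = ∑ i ∈ Ico 0 (J + 2), x ^ (i + 1) / L ^ i := by rw [Finset.range_eq_Ico]
      _ ≤ 2 * (x ^ (0 + 1) / L ^ 0) := geo2 hx (by linarith) _ _
      _ = 2 * x := by simp
  -- lower bound for `e`
  have heL : 1 / (2 * B * L) ≤ e := by
    have h1 := (abs_le.1 (hA m₀ (by omega))).2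
    have h2 : 4 * c * x ^ (m₀ + 2) ≤ L ^ m₀ / (8 * B) := by
      rw [le_div_iff₀ (by positivity)]
      calc 4 * c * x ^ (m₀ + 2) * (8 * B) = 32 * c * B * x ^ (m₀ + 2) := by ring
        _ ≤ L ^ m₀ := hLB
    have h3 : L ^ m₀ / (8 * B) = 1 / 8 * (L ^ m₀ / B) := by
      field_simp
    have h4 : 1 / 2 * (L ^ m₀ / B) ≤ L ^ (m₀ + 1) * e := by
      have : 0 ≤ L ^ m₀ / B := by positivity
      linarith
    have h5 : L ^ (m₀ + 1) * (1 / (2 * B * L)) ≤ L ^ (m₀ + 1) * e := by
      refine le_trans (le_of_eq ?_) h4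
      rw [pow_succ]
      field_simp
    exact le_of_mul_le_mul_left h5 (by positivity)
  have he0 : 0 < e := lt_of_lt_of_le (by positivity) heL
  have hC : ∀ m, m₀ ≤ m → 4 * c * x ^ (m + 2) ≤ 1 / 4 * (L ^ (m + 1) * e) := by
    intro m hm
    obtain ⟨d, rfl⟩ := Nat.exists_eq_add_of_le hm
    have h1 : 32 * c * B * x ^ (m₀ + d + 2) ≤ L ^ (m₀ + d) := by
      calc 32 * c * B * x ^ (m₀ + d + 2) = (32 * c * B * x ^ (m₀ + 2)) * x ^ d := by ring
        _ ≤ L ^ m₀ * L ^ d := by
            apply mul_le_mul hLB _ (by positivity) (by positivity)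
            exact pow_le_pow_left₀ hx0.le (by linarith) d
        _ = L ^ (m₀ + d) := by rw [pow_add]
    calc 4 * c * x ^ (m₀ + d + 2) = (32 * c * B * x ^ (m₀ + d + 2)) / (8 * B) := by
          field_simp
          norm_num
      _ ≤ L ^ (m₀ + d) / (8 * B) := div_le_div_of_nonneg_right h1 (by positivity)
      _ = 1 / 4 * (L ^ (m₀ + d + 1) * (1 / (2 * B * L))) := by
          rw [pow_succ]
          field_simp
          norm_num
      _ ≤ 1 / 4 * (L ^ (m₀ + d + 1) * e) := by
          apply mul_le_mul_of_nonneg_left _ (by norm_num)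
          exact mul_le_mul_of_nonneg_left heL (by positivity)
  have hup : ∀ m ≤ J + 1, h m ≤ L ^ (m + 2) := by
    intro m hm
    have h1 := (abs_le.1 (hA m hm)).2
    have h2 : L ^ (m + 1) * e ≤ 1 / 2 * L ^ (m + 2) := by
      calc L ^ (m + 1) * e ≤ L ^ (m + 1) * (2 * x) :=
            mul_le_mul_of_nonneg_left heU (by positivity)
        _ ≤ L ^ (m + 1) * (1 / 2 * L) := by
            apply mul_le_mul_of_nonneg_left _ (by positivity)
            linarith
        _ = 1 / 2 * L ^ (m + 2) := by ring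
    have h3 : 4 * c * x ^ (m + 2) ≤ 1 / 2 * L ^ (m + 2) := by
      have h4 : (8 * c) * x ^ (m + 2) ≤ L ^ (m + 2) := by
        have h5 : (8 * c * x) ^ (m + 2) ≤ L ^ (m + 2) :=
          pow_le_pow_left₀ (by positivity) hL _
        have h6 : (8 * c) * x ^ (m + 2) ≤ (8 * c * x) ^ (m + 2) := by
          rw [mul_pow (8 * c) x]
          apply mul_le_mul_of_nonneg_right _ (by positivity)
          exact le_self_pow₀ (by linarith) (by omega)
        exact h6.trans h5
      linarith
    linarith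
  obtain ⟨X, hX⟩ : ∃ X : ℝ, X = L ^ (J + 2) * e := ⟨_, rfl⟩
  have hX0 : 0 < X := by
    rw [hX]
    positivity
  have hHJ : 3 / 4 * X ≤ h (J + 1) := by
    have h1 := (abs_le.1 (hA (J + 1) le_rfl)).1
    have h2 := hC (J + 1) (by omega)
    have h3 : L ^ (J + 1 + 1) * e = X := by rw [hX]
    rw [h3] at h1 h2
    linarith
  have hsmall : ∀ i ∈ range k₀, w i * h (J - i) ≤ 5 * X := by
    intro i hi
    have hik : i < k₀ := Finset.mem_range.1 hi
    have hiJ : i ≤ J := by omega
    have hWi : w i ≤ 4 * L ^ (i + 1) := by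
      have h1 := hwM i
      have h2 := hM i hiJ
      linarith
    have hHi : h (J - i) ≤ 5 / 4 * (L ^ (J - i + 1) * e) := by
      have h1 := (abs_le.1 (hA (J - i) (by omega))).2
      have h2 := hC (J - i) (by omega)
      linarith
    have f2 : L ^ (J + 2) = L ^ (i + 1) * L ^ (J - i + 1) := by
      rw [← pow_add]
      congr 1
      omega
    calc w i * h (J - i) ≤ (4 * L ^ (i + 1)) * (5 / 4 * (L ^ (J - i + 1) * e)) :=
          mul_le_mul hWi hHi (hhn _) (by positivity)
      _ = 5 * X := by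
          rw [hX, f2]
          ring
  have hJr : (14 : ℝ) * k₀ ≤ J + 1 := by exact_mod_cast hJ
  have hsum1 : ∑ i ∈ range k₀, w i * h (J - i) ≤ 1 / 2 * ((J + 1) * h (J + 1)) := by
    calc ∑ i ∈ range k₀, w i * h (J - i) ≤ ∑ i ∈ range k₀, 5 * X := Finset.sum_le_sum hsmall
      _ = 5 * (k₀ : ℝ) * X := by
          rw [Finset.sum_const, Finset.card_range, nsmul_eq_mul]
          ring
      _ ≤ 3 / 8 * (J + 1) * X := by
          apply mul_le_mul_of_nonneg_right _ hX0.le
          have : (0 : ℝ) ≤ k₀ := Nat.cast_nonneg _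
          linarith
      _ = 1 / 2 * ((J + 1) * (3 / 4 * X)) := by ring
      _ ≤ 1 / 2 * ((J + 1) * h (J + 1)) := by
          apply mul_le_mul_of_nonneg_left _ (by norm_num)
          exact mul_le_mul_of_nonneg_left hHJ (by positivity)
  by_contra hcon
  push Not at hcon
  have hsum2 : 6 * B * L * ∑ i ∈ Ico k₀ (J + 1), w i * h (J - i) ≤ (J + 1) * L ^ (J + 2) := by
    rw [Finset.mul_sum]
    calc ∑ i ∈ Ico k₀ (J + 1), 6 * B * L * (w i * h (J - i))
        ≤ ∑ i ∈ Ico k₀ (J + 1), L ^ (J + 2) := by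
          refine Finset.sum_le_sum fun i hi => ?_
          obtain ⟨hi1, hi2⟩ := Finset.mem_Ico.1 hi
          have f2 : L ^ (J + 2) = L ^ i * L ^ (J - i + 2) := by
            rw [← pow_add]
            congr 1
            omega
          calc 6 * B * L * (w i * h (J - i)) = (6 * B * L * w i) * h (J - i) := by ring
            _ ≤ L ^ i * L ^ (J - i + 2) :=
                mul_le_mul (hcon i hi1 (by omega)).le (hup _ (by omega)) (hhn _) (by positivity)
            _ = L ^ (J + 2) := by rw [f2]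
      _ ≤ ∑ i ∈ range (J + 1), L ^ (J + 2) := by
          apply Finset.sum_le_sum_of_subset_of_nonneg
          · intro i hi
            exact Finset.mem_range.2 (Finset.mem_Ico.1 hi).2
          · intro i _ _
            positivity
      _ = (J + 1) * L ^ (J + 2) := by
          rw [Finset.sum_const, Finset.card_range, nsmul_eq_mul]
          push_cast
          ring
  have hsplit := Finset.sum_range_add_sum_Ico (fun i => w i * h (J - i))
    (by omega : k₀ ≤ J + 1)
  rw [← hrec] at hsplit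
  have h1 : 1 / 2 * ((J + 1) * h (J + 1)) ≤ ∑ i ∈ Ico k₀ (J + 1), w i * h (J - i) := by linarith
  have hJ0 : (0 : ℝ) < J + 1 := by positivity
  have h2 : 9 / 8 * ((J + 1) * L ^ (J + 2)) ≤ (J + 1) * L ^ (J + 2) := by
    calc 9 / 8 * ((J + 1) * L ^ (J + 2))
        = 6 * B * L * (1 / 2 * ((J + 1) * (3 / 4 * (L ^ (J + 2) * (1 / (2 * B * L)))))) := by
          field_simp
          norm_num
      _ ≤ 6 * B * L * (1 / 2 * ((J + 1) * (3 / 4 * (L ^ (J + 2) * e)))) := by
          gcongr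
      _ = 6 * B * L * (1 / 2 * ((J + 1) * (3 / 4 * X))) := by rw [hX]
      _ ≤ 6 * B * L * (1 / 2 * ((J + 1) * h (J + 1))) := by
          gcongr
      _ ≤ 6 * B * L * ∑ i ∈ Ico k₀ (J + 1), w i * h (J - i) :=
          mul_le_mul_of_nonneg_left h1 (by positivity)
      _ ≤ (J + 1) * L ^ (J + 2) := hsum2
  have h3 : 0 < (J + 1) * L ^ (J + 2) := by positivity
  linarith

lemma ev (c : ℝ) : ∀ᶠ T : ℝ in atTop,
    Real.log 1200 + (Real.sqrt T + 6) * Real.log (12 * T) ≤ T / 100 ∧ 76800 * c ^ 3 + 8 * c ^ 2 +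
      360 ≤ T := by
  refine Filter.Eventually.and ?_ (eventually_ge_atTop _)
  have h1 : (fun T : ℝ => Real.log 1200 + (Real.sqrt T + 6) * Real.log (12 * T)) =o[atTop]
      fun T : ℝ => T := by
    apply IsLittleO.add
    · exact isLittleO_const_left.2 (Or.inr (tendsto_norm_atTop_atTop))
    · have h2 : (fun T : ℝ => Real.sqrt T + 6) =O[atTop] fun T : ℝ => T ^ (1 / 2 : ℝ) := by
        apply IsBigO.add
        · refine IsBigO.of_bound 1 (Eventually.of_forall fun T => ?_)
          rw [Real.sqrt_eq_rpow, one_mul]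
        · apply IsLittleO.isBigO
          exact isLittleO_const_left.2 (Or.inr (tendsto_norm_atTop_atTop.comp
            (tendsto_rpow_atTop (by norm_num))))
      have h3 : (fun T : ℝ => Real.log (12 * T)) =o[atTop] fun T : ℝ => T ^ (1 / 2 : ℝ) := by
        have h4 : (fun T : ℝ => Real.log 12 + Real.log T) =o[atTop]
            fun T : ℝ => T ^ (1 / 2 : ℝ) := by
          apply IsLittleO.add
          · exact isLittleO_const_left.2 (Or.inr (tendsto_norm_atTop_atTop.comp
              (tendsto_rpow_atTop (by norm_num))))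
          · exact isLittleO_log_rpow_atTop (by norm_num)
        refine h4.congr' ?_ (EventuallyEq.refl _ _)
        filter_upwards [eventually_gt_atTop 0] with T hT
        rw [Real.log_mul (by norm_num) hT.ne']
      refine (h2.mul_isLittleO h3).congr' (EventuallyEq.refl _ _) ?_
      filter_upwards [eventually_gt_atTop 0] with T hT
      rw [← Real.rpow_add hT]
      norm_num
  have h2 := h1.bound (c := 1 / 100) (by norm_num)
  filter_upwards [h2, eventually_gt_atTop 0] with T hT hT0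
  rw [Real.norm_of_nonneg hT0.le] at hT
  have := (le_abs_self _).trans hT
  linarith

lemma fac_le (m : ℕ) {T : ℝ} (h : (m : ℝ) ≤ T) : (m.factorial : ℝ) ≤ T ^ m := by
  calc (m.factorial : ℝ) ≤ (m : ℝ) ^ m := by exact_mod_cast Nat.factorial_le_pow m
    _ ≤ T ^ m := pow_le_pow_left₀ (Nat.cast_nonneg _) h _

end U7

open M7 U7 in
theorem u7 (h1 : U1) (h2 : U2) (h3 : U3) : U7 := by
  obtain ⟨c1, hc1, hU1⟩ := h1
  obtain ⟨c2, hc2, hU2⟩ := h2
  obtain ⟨c3, hc3, hU3⟩ := h3
  obtain ⟨c, hc⟩ : ∃ c : ℝ, c = c1 + c2 + c3 := ⟨_, rfl⟩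
  have hc3' : 3 ≤ c := by linarith
  have hc0 : 0 < c := by linarith
  obtain ⟨T₀, hT₀⟩ := eventually_atTop.1 (ev c)
  refine ⟨max 1 T₀, le_max_left _ _, ?_⟩
  intro T L hTT hTL r hr hrT ψ hψ hψ1 k₀ hk₀ _
  have hT1 : 1 ≤ T := (le_max_left _ _).trans hTT
  have hT0 : 0 < T := by linarith
  obtain ⟨hev1, hev2⟩ := hT₀ T ((le_max_right _ _).trans hTT)
  have hc3p : 0 ≤ c ^ 3 := by positivity
  have hc2p : 0 ≤ c ^ 2 := by positivity
  have hT360 : 360 ≤ T := by linarith
  have hTc2 : 8 * c ^ 2 ≤ T := by linarith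
  have hTc3 : 76800 * c ^ 3 ≤ T := by linarith
  -- sizes
  obtain ⟨R, hR⟩ : ∃ R : ℝ, R = 1 + Real.log r := ⟨_, rfl⟩
  rw [← hR] at hrT
  have hr' : (1 : ℝ) ≤ r := by exact_mod_cast hr
  have hr0 : (0 : ℝ) < r := by linarith
  have hlogr : 0 ≤ Real.log r := Real.log_nonneg hr'
  have hR1 : 1 ≤ R := by linarith
  have hR0 : 0 < R := by linarith
  have hRs : R ≤ Real.sqrt T := Real.le_sqrt_of_sq_le hrT
  have hRT : R ≤ T := by nlinarith
  have hsqT : Real.sqrt T + 6 ≤ T := by
    have e1 : Real.sqrt T * Real.sqrt T = T := Real.mul_self_sqrt hT0.le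
    have e2 : 3 ≤ Real.sqrt T := Real.le_sqrt_of_sq_le (by linarith)
    nlinarith
  obtain ⟨m₀, hm₀⟩ : ∃ m₀ : ℕ, m₀ = ⌈R⌉₊ + 5 := ⟨_, rfl⟩
  have hm5 : 5 ≤ m₀ := by omega
  have hmR : R ≤ m₀ := by
    have := Nat.le_ceil R
    rw [hm₀]
    push_cast
    linarith
  have hmS : (m₀ : ℝ) ≤ Real.sqrt T + 6 := by
    have := Nat.ceil_lt_add_one hR0.le
    rw [hm₀]
    push_cast
    linarith
  have hmT : (m₀ : ℝ) ≤ T := hmS.trans hsqT
  have hmk : m₀ ≤ k₀ := by exact_mod_cast hmT.trans hk₀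
  have hrexp : (r : ℝ) ≤ Real.exp R := by
    rw [hR, Real.exp_add, Real.exp_log hr0]
    exact le_mul_of_one_le_left hr0.le (Real.one_le_exp (by norm_num))
  have hr3 : (r : ℝ) ≤ 3 ^ m₀ := by
    calc (r : ℝ) ≤ Real.exp R := hrexp
      _ ≤ Real.exp m₀ := Real.exp_le_exp.2 hmR
      _ = Real.exp 1 ^ m₀ := by rw [← Real.exp_nat_mul, mul_one]
      _ ≤ 3 ^ m₀ := by
          apply pow_le_pow_left₀ (Real.exp_pos _).le
          have := Real.exp_one_lt_d9
          linarith
  have hfac := fac_le m₀ hmT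
  have hL1 : 1 ≤ L := (one_le_pow₀ hT1).trans hTL
  have hL0 : 0 < L := by linarith
  have hT2L : T ^ 2 ≤ L := (pow_le_pow_right₀ hT1 (by norm_num)).trans hTL
  have hT4L : T ^ 4 ≤ L := (pow_le_pow_right₀ hT1 (by norm_num)).trans hTL
  have hδ : 0 < 1 / L := by positivity
  have hδ1 : 1 / L ≤ 1 := by
    rw [div_le_one hL0]
    exact hL1
  have hcond : (r : ℝ) * Real.exp (-L) + 4 * Real.exp (-L / 2) ≤ 1 / (72 * r) := by
    rw [le_div_iff₀ (by linarith)]
    have hL4 : 4 * T ≤ L := by nlinarith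
    have hrT' : (r : ℝ) ≤ Real.exp T := hrexp.trans (Real.exp_le_exp.2 hRT)
    have e1 : (r : ℝ) * Real.exp (-L) ≤ Real.exp (-(2 * T)) := by
      calc (r : ℝ) * Real.exp (-L) ≤ Real.exp T * Real.exp (-L) :=
            mul_le_mul_of_nonneg_right hrT' (Real.exp_pos _).le
        _ = Real.exp (T + -L) := by rw [Real.exp_add]
        _ ≤ Real.exp (-(2 * T)) := Real.exp_le_exp.2 (by linarith)
    have e2 : Real.exp (-L / 2) ≤ Real.exp (-(2 * T)) := Real.exp_le_exp.2 (by linarith)
    have e3 : Real.exp (-(2 * T)) * Real.exp T = Real.exp (-T) := by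
      rw [← Real.exp_add]
      congr 1
      ring
    have e4 : 360 * Real.exp (-T) ≤ 1 := by
      rw [Real.exp_neg, ← div_eq_mul_inv, div_le_one (Real.exp_pos _)]
      have := Real.add_one_le_exp T
      linarith
    calc ((r : ℝ) * Real.exp (-L) + 4 * Real.exp (-L / 2)) * (72 * r)
        ≤ (Real.exp (-(2 * T)) + 4 * Real.exp (-(2 * T))) * (72 * Real.exp T) := by
          apply mul_le_mul _ _ (by positivity) (by positivity)
          · linarith
          · linarith
      _ = 360 * (Real.exp (-(2 * T)) * Real.exp T) := by ring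
      _ = 360 * Real.exp (-T) := by rw [e3]
      _ ≤ 1 := e4
  -- the constants of the core
  obtain ⟨x, hx⟩ : ∃ x : ℝ, x = c * R := ⟨_, rfl⟩
  have hx2 : 2 ≤ x := by
    rw [hx]
    nlinarith
  have hxcT : x ≤ c * T := by
    rw [hx]
    exact mul_le_mul_of_nonneg_left hRT hc0.le
  have hx0 : 0 < x := by linarith
  obtain ⟨B, hB⟩ : ∃ B : ℝ, B = 200 * r * m₀.factorial * 4 ^ m₀ := ⟨_, rfl⟩
  have hfac1 : ∀ m : ℕ, (1 : ℝ) ≤ (m.factorial : ℝ) := fun m => by
    exact_mod_cast Nat.factorial_pos m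
  have hB1 : 1 ≤ B := by
    rw [hB]
    have e1 := hfac1 m₀
    have e2 : (1 : ℝ) ≤ 4 ^ m₀ := one_le_pow₀ (by norm_num)
    have e3 : (1 : ℝ) ≤ 200 * r * m₀.factorial := by nlinarith
    nlinarith
  have hB12 : B ≤ 200 * (12 * T) ^ m₀ := by
    rw [hB]
    calc 200 * (r : ℝ) * m₀.factorial * 4 ^ m₀ ≤ 200 * 3 ^ m₀ * T ^ m₀ * 4 ^ m₀ := by
          gcongr
      _ = 200 * (3 * T * 4) ^ m₀ := by rw [mul_pow, mul_pow]; ring
      _ = 200 * (12 * T) ^ m₀ := by ring_nf
  have hLx : 8 * c * x ≤ L := by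
    calc 8 * c * x ≤ 8 * c * (c * T) := mul_le_mul_of_nonneg_left hxcT (by positivity)
      _ = 8 * c ^ 2 * T := by ring
      _ ≤ T * T := mul_le_mul_of_nonneg_right hTc2 hT0.le
      _ = T ^ 2 := by ring
      _ ≤ L := hT2L
  have hLB : 32 * c * B * x ^ (m₀ + 2) ≤ L ^ m₀ := by
    have e1 : x ^ (m₀ + 2) ≤ ((c * T) ^ 2) ^ m₀ := by
      rw [← pow_mul]
      calc x ^ (m₀ + 2) ≤ x ^ (2 * m₀) := pow_le_pow_right₀ (by linarith) (by omega)
        _ ≤ (c * T) ^ (2 * m₀) := pow_le_pow_left₀ hx0.le hxcT _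
    calc 32 * c * B * x ^ (m₀ + 2) ≤ 32 * c * (200 * (12 * T) ^ m₀) * ((c * T) ^ 2) ^ m₀ := by
          gcongr
      _ = 6400 * c * (12 * c ^ 2 * T ^ 3) ^ m₀ := by
          have : 12 * c ^ 2 * T ^ 3 = (12 * T) * (c * T) ^ 2 := by ring
          rw [this, mul_pow]
          ring
      _ ≤ (6400 * c) ^ m₀ * (12 * c ^ 2 * T ^ 3) ^ m₀ := by
          apply mul_le_mul_of_nonneg_right _ (by positivity)
          exact le_self_pow₀ (by linarith) (by omega)
      _ = (76800 * c ^ 3 * T ^ 3) ^ m₀ := by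
          rw [← mul_pow]
          congr 1
          ring
      _ ≤ (T * T ^ 3) ^ m₀ := by
          apply pow_le_pow_left₀ (by positivity)
          exact mul_le_mul_of_nonneg_right hTc3 (by positivity)
      _ = (T ^ 4) ^ m₀ := by ring_nf
      _ ≤ L ^ m₀ := pow_le_pow_left₀ (by positivity) hT4L _
  have hB6 : 6 * B ≤ Real.exp (T / 100) := by
    have e1 : 1 ≤ 12 * T := by linarith
    have e2 : 0 ≤ Real.log (12 * T) := Real.log_nonneg e1
    calc 6 * B ≤ 1200 * (12 * T) ^ m₀ := by linarith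
      _ = Real.exp (Real.log 1200 + m₀ * Real.log (12 * T)) := by
          rw [Real.exp_add, Real.exp_log (by norm_num), Real.exp_nat_mul,
            Real.exp_log (by linarith)]
      _ ≤ Real.exp (T / 100) := by
          apply Real.exp_le_exp.2
          refine le_trans ?_ hev1
          have := mul_le_mul_of_nonneg_right hmS e2
          linarith
  -- the sequences
  have hk1 : 1 ≤ k₀ := by omega
  obtain ⟨J, hJ⟩ : ∃ J : ℕ, J = 14 * k₀ := ⟨_, rfl⟩
  have hfp : ∀ m : ℕ, (0 : ℝ) < (m.factorial : ℝ) := fun m => by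
    have := hfac1 m
    linarith
  have hidiv : ∀ (a : ℕ) (y : ℝ), y / (1 / L) ^ a = y * L ^ a := fun a y => by
    rw [one_div, inv_pow, div_inv_eq_mul]
  obtain ⟨i, hi1, hi2, hi3⟩ := U7.core k₀ J m₀ (by omega) (by omega) c x L B (by linarith) hx2 hB1
    hLx hLB
    (fun m => RD (aa (rho ψ)) m (1 / L) / m.factorial) (fun m => RD (ww ψ) m (1 / L) / m.factorial)
    (fun m => ZZ m (1 / L) / m.factorial) (fun m => RD (rho ψ) m (1 / L) / m.factorial)
    (fun m => MM m (1 / L) / m.factorial)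
    (by
      intro m _
      rw [H_eq ψ hδ m, Finset.sum_div]
      refine Finset.sum_congr rfl fun i hi => ?_
      have hi' : i ≤ m := by
        have := Finset.mem_range.1 hi
        omega
      have f1 : (m.choose i : ℝ) * i.factorial * (m - i).factorial = m.factorial := by
        exact_mod_cast Nat.choose_mul_factorial_mul_factorial hi'
      have f2 := hfp i
      have f3 := hfp (m - i)
      have f4 : (m.choose i : ℝ) ≠ 0 := by
        exact_mod_cast (Nat.choose_pos hi').ne'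
      rw [← f1]
      field_simp)
    (by
      intro i _
      have h := hU1 i r hr ψ hψ1 (1 / L) hδ hδ1
      rw [LL_re ψ hψ, Complex.norm_real, Real.norm_eq_abs, ← hR] at h
      rw [abs_div, Nat.abs_cast, div_le_iff₀ (hfp i)]
      refine h.trans (mul_le_mul_of_nonneg_right ?_ (hfp i).le)
      apply pow_le_pow_left₀ (by positivity)
      rw [hx]
      exact mul_le_mul_of_nonneg_right (by linarith) hR0.le)
    (by
      intro i _
      have h := hU2 i (1 / L) hδ hδ1
      rw [hidiv] at h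
      have e1 : ZZ i (1 / L) / i.factorial - L ^ (i + 1) =
          (ZZ i (1 / L) - i.factorial * L ^ (i + 1)) / i.factorial := by
        have := hfp i
        field_simp
      rw [e1, abs_div, Nat.abs_cast, div_le_iff₀ (hfp i)]
      exact h.trans (mul_le_mul_of_nonneg_right (by linarith) (hfp i).le))
    (by
      have h := H_lower hψ1 hψ hr L hL1 hcond m₀
      rw [le_div_iff₀ (hfp m₀)]
      refine le_trans (le_of_eq ?_) h
      rw [hB, div_pow]
      have := hfp m₀
      field_simp)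
    (by
      rw [H_rec hψ1 hψ hδ J, Nat.factorial_succ]
      have e0 : ((J : ℝ) + 1) * ((∑ i ∈ range (J + 1), (J.choose i : ℝ) *
          (RD (ww ψ) i (1 / L) * RD (aa (rho ψ)) (J - i) (1 / L))) /
          (((J + 1) * J.factorial : ℕ) : ℝ)) = (∑ i ∈ range (J + 1), (J.choose i : ℝ) *
          (RD (ww ψ) i (1 / L) * RD (aa (rho ψ)) (J - i) (1 / L))) / J.factorial := by
        have := hfp J
        push_cast
        field_simp
      rw [e0, Finset.sum_div]
      refine Finset.sum_congr rfl fun i hi => ?_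
      have hi' : i ≤ J := by
        have := Finset.mem_range.1 hi
        omega
      have f1 : (J.choose i : ℝ) * i.factorial * (J - i).factorial = J.factorial := by
        exact_mod_cast Nat.choose_mul_factorial_mul_factorial hi'
      have f2 := hfp i
      have f3 := hfp (J - i)
      have f4 : (J.choose i : ℝ) ≠ 0 := by
        exact_mod_cast (Nat.choose_pos hi').ne'
      rw [← f1]
      field_simp)
    (by
      intro i
      rw [← mul_div_assoc]
      exact div_le_div_of_nonneg_right (W_le ψ i hδ) (hfp i).le)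
    (by
      intro i _
      have h := (abs_le.1 (hU3 i (1 / L) hδ hδ1)).2
      rw [hidiv, hidiv] at h
      rw [div_le_iff₀ (hfp i)]
      have hcL : c3 ≤ L := by
        have : c ≤ 8 * c * x := by nlinarith
        linarith
      have e2 : c3 * (i.factorial * L ^ i) ≤ L * (i.factorial * L ^ i) :=
        mul_le_mul_of_nonneg_right hcL (by have := hfp i; positivity)
      calc MM i (1 / L) ≤ i.factorial * L ^ (i + 1) + c3 * (i.factorial * L ^ i) := by linarith
        _ ≤ i.factorial * L ^ (i + 1) + L * (i.factorial * L ^ i) := by linarith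
        _ = 2 * L ^ (i + 1) * i.factorial := by ring)
    (fun m => div_nonneg (RD_nonneg (aa_nonneg hψ1 hψ) m) (hfp m).le)
  refine ⟨i, hi1, by omega, ?_⟩
  rw [W_eq ψ hψ i hδ]
  have hW := W_nonneg ψ i (1 / L)
  have hfi := hfp i
  calc (i.factorial : ℝ) * L ^ i
      ≤ i.factorial * (6 * B * L * (RD (ww ψ) i (1 / L) / i.factorial)) :=
        mul_le_mul_of_nonneg_left hi3 hfi.le
    _ = (6 * B) * L ^ 1 * RD (ww ψ) i (1 / L) := by
        field_simp
    _ ≤ Real.exp (T / 100) * L ^ 10 * RD (ww ψ) i (1 / L) := by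
        apply mul_le_mul_of_nonneg_right _ hW
        apply mul_le_mul hB6 (pow_le_pow_right₀ hL1 (by norm_num)) (by positivity)
          (Real.exp_pos _).le

end Pool.Agent.Lib.MP_509488_nt.Unif
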