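import Pool.Agent.Lib.MP_509488_nt.Unif.M8
import Pool.Agent.Lib.MP_509488_nt.Unif.StmtsU

/-!
# Module U8: a lower bound in the progression `1 mod r d` for many `d`, uniform version
-/

namespace Pool.Agent.Lib.MP_509488_nt.Unif

namespace U8m

open Finset Filter Topology M8

lemma V_bound' (j : ℕ) {δ : ℝ} (hδ : 0 < δ) {n : ℕ} (hn : 1 ≤ n) :
    V j δ n ≤ (2 ^ (j + 1) * ((j + 1).factorial : ℝ)) * (n : ℝ) ^ (-(1 / 2) : ℝ) := by
  have hn1 : (1 : ℝ) ≤ n := by exact_mod_cast hn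
  have hn0 : (0 : ℝ) < n := by linarith
  have h1 := Real.log_natCast_nonneg n
  have h3 : (ArithmeticFunction.vonMangoldt n : ℝ) ≤ Real.log n :=
    ArithmeticFunction.vonMangoldt_le_log
  have h4 : (n : ℝ) ^ (-1 - δ) ≤ (n : ℝ) ^ (-1 : ℝ) :=
    Real.rpow_le_rpow_of_exponent_le hn1 (by linarith)
  have h5 : Real.log n ^ (j + 1) ≤ (2 ^ (j + 1) * ((j + 1).factorial : ℝ)) *
      (n : ℝ) ^ (1 / 2 : ℝ) := by
    have e1 : (n : ℝ) ^ (1 / 2 : ℝ) = Real.exp (Real.log n / 2) := by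
      rw [Real.rpow_def_of_pos hn0]; ring_nf
    have e2 : (Real.log n / 2) ^ (j + 1) / ((j + 1).factorial : ℝ) ≤ Real.exp (Real.log n / 2) :=
      Real.pow_div_factorial_le_exp _ (by positivity) _
    have e3 : (0 : ℝ) < ((j + 1).factorial : ℝ) := by exact_mod_cast Nat.factorial_pos _
    rw [div_le_iff₀ e3, div_pow, div_le_iff₀ (by positivity)] at e2
    rw [e1]
    linarith
  calc V j δ n ≤ Real.log n * (Real.log n ^ j * (n : ℝ) ^ (-1 : ℝ)) := by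
        unfold V
        gcongr
    _ = Real.log n ^ (j + 1) * (n : ℝ) ^ (-1 : ℝ) := by ring
    _ ≤ ((2 ^ (j + 1) * ((j + 1).factorial : ℝ)) * (n : ℝ) ^ (1 / 2 : ℝ)) *
        (n : ℝ) ^ (-1 : ℝ) := by
        gcongr
    _ = (2 ^ (j + 1) * ((j + 1).factorial : ℝ)) * (n : ℝ) ^ (-(1 / 2) : ℝ) := by
        rw [mul_assoc, ← Real.rpow_add hn0]
        norm_num

lemma xx_sum : xx * (1 - xx)⁻¹ ≤ 3 := by
  have hx0 := xx_pos
  have hx1 := xx_lt
  have h1 : xx ≤ 3 / 4 := by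
    have h2 : xx ^ 2 = 1 / 2 := by
      unfold xx
      rw [← Real.rpow_natCast, ← Real.rpow_mul (by norm_num)]
      norm_num
    nlinarith
  have h3 : 0 < 1 - xx := by linarith
  rw [← div_eq_mul_inv, div_le_iff₀ h3]
  linarith

/-- The contribution of `n` not coprime to `q`, uniformly in `j`. -/
lemma RR_bound' (j : ℕ) {q : ℕ} (hq : 1 ≤ q) {δ : ℝ} (hδ : 0 < δ) :
    ∑' n : ℕ, R0 q j δ n ≤ (2 ^ (j + 1) * ((j + 1).factorial : ℝ)) * 3 * q := by
  set K : ℝ := 2 ^ (j + 1) * ((j + 1).factorial : ℝ) with hKdef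
  have hK : 0 < K := by
    have e3 : (0 : ℝ) < ((j + 1).factorial : ℝ) := by exact_mod_cast Nat.factorial_pos _
    positivity
  have hx0 := xx_pos
  have hx1 := xx_lt
  have hx2 : 0 < 1 - xx := by linarith
  have hpt : ∀ n, R0 q j δ n ≤ ∑ p ∈ q.primeFactors, gp K p n := by
    intro n
    have hnn : 0 ≤ ∑ p ∈ q.primeFactors, gp K p n :=
      Finset.sum_nonneg fun p _ => gp_nonneg hK.le p n
    unfold R0
    split_ifs with hc
    · exact hnn
    · by_cases hv : ArithmeticFunction.vonMangoldt n = (0 : ℝ)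
      · unfold V
        rw [hv, zero_mul]
        exact hnn
      · rw [← ne_eq, ArithmeticFunction.vonMangoldt_ne_zero_iff, isPrimePow_nat_iff] at hv
        obtain ⟨p, k, hp, hk, hpk⟩ := hv
        have hpq : p ∣ q := by
          by_contra hnd
          apply hc
          rw [← hpk]
          exact Nat.Coprime.pow_left k ((Nat.Prime.coprime_iff_not_dvd hp).2 hnd)
        have hmem : p ∈ q.primeFactors := by
          rw [Nat.mem_primeFactors]
          exact ⟨hp, hpq, by omega⟩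
        have hn1 : 1 ≤ n := by rw [← hpk]; exact Nat.pos_of_ne_zero (pow_ne_zero _ hp.ne_zero)
        have hr : n ∈ Set.range (fun a : ℕ => p ^ (a + 1)) := by
          refine ⟨k - 1, ?_⟩
          show p ^ (k - 1 + 1) = n
          rw [Nat.sub_add_cancel hk, hpk]
        have h1 : gp K p n = K * (n : ℝ) ^ (-(1 / 2) : ℝ) := by
          unfold gp
          rw [Set.indicator_of_mem hr]
        calc V j δ n ≤ K * (n : ℝ) ^ (-(1 / 2) : ℝ) := V_bound' j hδ hn1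
          _ = gp K p n := h1.symm
          _ ≤ _ := Finset.single_le_sum (f := fun p => gp K p n)
            (fun p _ => gp_nonneg hK.le p n) hmem
  have hpr : ∀ p ∈ q.primeFactors, p.Prime := fun p hp => Nat.prime_of_mem_primeFactors hp
  have hsum : Summable fun n => ∑ p ∈ q.primeFactors, gp K p n :=
    summable_sum fun p hp => (gp_sum hK.le (hpr p hp)).1
  have hcard : (q.primeFactors.card : ℝ) ≤ q := by
    have h1 : q.primeFactors ⊆ Finset.Icc 1 q := by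
      intro p hp
      rw [Finset.mem_Icc]
      exact ⟨(hpr p hp).one_le, Nat.le_of_mem_primeFactors hp⟩
    have h2 := Finset.card_le_card h1
    rw [Nat.card_Icc, Nat.add_sub_cancel] at h2
    exact_mod_cast h2
  calc ∑' n : ℕ, R0 q j δ n ≤ ∑' n, ∑ p ∈ q.primeFactors, gp K p n :=
        (summable_R0 q j δ hδ).tsum_le_tsum hpt hsum
    _ = ∑ p ∈ q.primeFactors, ∑' n, gp K p n :=
        Summable.tsum_finsetSum fun p hp => (gp_sum hK.le (hpr p hp)).1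
    _ ≤ ∑ p ∈ q.primeFactors, K * 3 := by
        refine Finset.sum_le_sum fun p hp => ((gp_sum hK.le (hpr p hp)).2).trans ?_
        exact mul_le_mul_of_nonneg_left xx_sum hK.le
    _ = q.primeFactors.card * (K * 3) := by
        rw [Finset.sum_const, nsmul_eq_mul]
    _ ≤ q * (K * 3) := by
        gcongr
    _ = _ := mul_comm _ _

/-- The numerical inequality behind the negligibility of the error terms. -/
lemma num {T x C q R φ : ℝ} {j : ℕ} (hT : 100 ≤ T) (hC1 : 1 ≤ C) (hC : C ≤ T)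
    (hx : T ^ 40 ≤ x) (hj : T ≤ j) (hq : 1 ≤ q) (hqT : 1 + 2 * Real.log q ≤ T) (hφ : φ ≤ q)
    (hR : R ≤ (2 ^ (j + 1) * ((j + 1).factorial : ℝ)) * 3 * q) :
    Real.exp (T / 50) * x ^ 10 * (2 * R + φ * ((C * T ^ 9) ^ (j + 1) * (j.factorial : ℝ))) ≤
      (j.factorial : ℝ) * x ^ j := by
  have hT1 : 1 ≤ T := by linarith
  have hT0 : 0 < T := by linarith
  have hx1 : 1 ≤ x := (one_le_pow₀ hT1).trans hx
  have hx0 : 0 < x := by linarith
  have hj1 : (100 : ℝ) ≤ j := hT.trans hj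
  have hj100 : 100 ≤ j := by exact_mod_cast hj1
  have hf : (0 : ℝ) < (j.factorial : ℝ) := by exact_mod_cast Nat.factorial_pos _
  have hq0 : 0 < q := by linarith
  -- `q ≤ exp (T / 2)`
  have hq2 : q ≤ Real.exp (T / 2) := by
    rw [← Real.log_le_iff_le_exp hq0]
    linarith
  -- the bracket
  have hCT : C * T ^ 9 ≤ T ^ 10 := by
    calc C * T ^ 9 ≤ T * T ^ 9 := by gcongr
      _ = T ^ 10 := by ring
  have hCT1 : 1 ≤ C * T ^ 9 := by
    have : 1 ≤ T ^ 9 := one_le_pow₀ hT1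
    nlinarith
  have hbr : 2 * R + φ * ((C * T ^ 9) ^ (j + 1) * (j.factorial : ℝ)) ≤
      q * (j.factorial : ℝ) * (2 * T ^ (10 * (j + 1))) := by
    have e1 : (C * T ^ 9) ^ (j + 1) ≤ T ^ (10 * (j + 1)) := by
      rw [pow_mul]
      exact pow_le_pow_left₀ (by positivity) hCT _
    have e2 : 6 * (2 ^ (j + 1) * ((j : ℝ) + 1)) ≤ T ^ (10 * (j + 1)) := by
      have e3 : ((j : ℝ) + 1) ≤ 2 ^ (j + 1) := by
        have := (Nat.lt_two_pow_self (n := j + 1)).le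
        exact_mod_cast this
      have e4 : (24 : ℝ) ^ (j + 1) ≤ (T ^ 10) ^ (j + 1) := by
        apply pow_le_pow_left₀ (by norm_num)
        calc (24 : ℝ) ≤ T := by linarith
          _ = T ^ 1 := (pow_one T).symm
          _ ≤ T ^ 10 := pow_le_pow_right₀ hT1 (by norm_num)
      have e5 : (6 : ℝ) ≤ 6 ^ (j + 1) := by
        calc (6 : ℝ) = 6 ^ 1 := by norm_num
          _ ≤ 6 ^ (j + 1) := pow_le_pow_right₀ (by norm_num) (by omega)
      calc 6 * (2 ^ (j + 1) * ((j : ℝ) + 1)) ≤ 6 ^ (j + 1) * (2 ^ (j + 1) * 2 ^ (j + 1)) := by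
            gcongr
        _ = 24 ^ (j + 1) := by
            rw [← mul_pow, ← mul_pow]; norm_num
        _ ≤ (T ^ 10) ^ (j + 1) := e4
        _ = T ^ (10 * (j + 1)) := (pow_mul _ _ _).symm
    have e6 : 2 * R ≤ q * (j.factorial : ℝ) * T ^ (10 * (j + 1)) := by
      calc 2 * R ≤ 2 * ((2 ^ (j + 1) * ((j + 1).factorial : ℝ)) * 3 * q) := by gcongr
        _ = q * (j.factorial : ℝ) * (6 * (2 ^ (j + 1) * ((j : ℝ) + 1))) := by
            rw [Nat.factorial_succ]; push_cast; ring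
        _ ≤ _ := by gcongr
    have e7 : φ * ((C * T ^ 9) ^ (j + 1) * (j.factorial : ℝ)) ≤
        q * (j.factorial : ℝ) * T ^ (10 * (j + 1)) := by
      calc φ * ((C * T ^ 9) ^ (j + 1) * (j.factorial : ℝ))
          ≤ q * (T ^ (10 * (j + 1)) * (j.factorial : ℝ)) := by gcongr
        _ = _ := by ring
    linarith
  -- exponentials
  have hexp : Real.exp (T / 50) * Real.exp (T / 2) * 2 ≤ T ^ j := by
    have e1 : (2 : ℝ) ≤ Real.exp (T / 4) := by
      have := Real.add_one_le_exp (T / 4)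
      linarith
    have e2 : Real.exp (T / 50) * Real.exp (T / 2) * Real.exp (T / 4) ≤ Real.exp j := by
      rw [← Real.exp_add, ← Real.exp_add]
      apply Real.exp_le_exp.2
      linarith
    have e3 : Real.exp (j : ℝ) ≤ T ^ j := by
      have e4 : Real.exp (j : ℝ) = (Real.exp 1) ^ j := by rw [← Real.exp_nat_mul, mul_one]
      rw [e4]
      apply pow_le_pow_left₀ (Real.exp_pos 1).le
      have := Real.exp_one_lt_d9
      linarith
    calc Real.exp (T / 50) * Real.exp (T / 2) * 2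
        ≤ Real.exp (T / 50) * Real.exp (T / 2) * Real.exp (T / 4) := by gcongr
      _ ≤ Real.exp j := e2
      _ ≤ T ^ j := e3
  have hpow : x ^ 10 * (T ^ j * T ^ (10 * (j + 1))) ≤ x ^ j := by
    obtain ⟨i, rfl⟩ : ∃ i, j = i + 10 := ⟨j - 10, by omega⟩
    rw [pow_add x i 10, mul_comm]
    refine mul_le_mul_of_nonneg_right ?_ (by positivity)
    calc T ^ (i + 10) * T ^ (10 * (i + 10 + 1)) = T ^ ((i + 10) + 10 * (i + 10 + 1)) :=
          (pow_add _ _ _).symm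
      _ ≤ T ^ (40 * i) := pow_le_pow_right₀ hT1 (by omega)
      _ = (T ^ 40) ^ i := pow_mul _ _ _
      _ ≤ x ^ i := pow_le_pow_left₀ (by positivity) hx i
  calc Real.exp (T / 50) * x ^ 10 * (2 * R + φ * ((C * T ^ 9) ^ (j + 1) * (j.factorial : ℝ)))
      ≤ Real.exp (T / 50) * x ^ 10 * (q * (j.factorial : ℝ) * (2 * T ^ (10 * (j + 1)))) := by
        gcongr
    _ ≤ Real.exp (T / 50) * x ^ 10 *
        (Real.exp (T / 2) * (j.factorial : ℝ) * (2 * T ^ (10 * (j + 1)))) := by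
        gcongr
    _ = (j.factorial : ℝ) * (x ^ 10 * ((Real.exp (T / 50) * Real.exp (T / 2) * 2) *
        T ^ (10 * (j + 1)))) := by ring
    _ ≤ (j.factorial : ℝ) * (x ^ 10 * (T ^ j * T ^ (10 * (j + 1)))) := by
        gcongr
    _ ≤ (j.factorial : ℝ) * x ^ j := by gcongr

lemma fin1 {T x M Err φ q a F c : ℝ} {j : ℕ} (hT : 100 ≤ T) (hx : 4 ≤ x) (hc : 2 * c ≤ x)
    (hq : φ ≤ q) (ha : 0 ≤ a) (hF : 0 ≤ F) (h : M - Err ≤ φ * a)
    (hErr : Real.exp (T / 50) * x ^ 10 * Err ≤ F * x ^ j)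
    (hM : F * x ^ (j + 1) - c * (F * x ^ j) ≤ M) :
    F * x ^ j ≤ Real.exp (T / 50) * x ^ 10 * q * a := by
  have hx1 : 1 ≤ x := by linarith
  have hx0 : 0 < x := by linarith
  set G : ℝ := Real.exp (T / 50) * x ^ 10 with hG
  have hG1 : 1 ≤ G := by
    have e1 : 1 ≤ Real.exp (T / 50) := Real.one_le_exp (by linarith)
    have e2 : 1 ≤ x ^ 10 := one_le_pow₀ hx1
    exact one_le_mul_of_one_le_of_one_le e1 e2
  have h0 : 0 ≤ F * x ^ j := by positivity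
  have h1 : 2 * (F * x ^ j) ≤ M := by
    have e1 : F * x ^ (j + 1) = x * (F * x ^ j) := by ring
    rw [e1] at hM
    nlinarith
  have h2 : G * (φ * a) ≤ G * (q * a) :=
    mul_le_mul_of_nonneg_left (mul_le_mul_of_nonneg_right hq ha) (by linarith)
  rw [← mul_assoc] at h2
  have h3 : G * (M - Err) ≤ G * (φ * a) := mul_le_mul_of_nonneg_left h (by linarith)
  have h4 : 2 * (F * x ^ j) ≤ G * M := by nlinarith
  nlinarith

lemma fin2 {T x M Err φ q a F : ℝ} {j : ℕ} (hT : 100 ≤ T) (hx : 4 ≤ x)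
    (hq : φ ≤ q) (ha : 0 ≤ a) (hF : 0 ≤ F) (h : M - Err ≤ φ * a)
    (hErr : Real.exp (T / 50) * x ^ 10 * Err ≤ F * x ^ j)
    (hM : F * x ^ j ≤ Real.exp (T / 100) * x ^ 10 * M) :
    F * x ^ j ≤ Real.exp (T / 50) * x ^ 10 * q * a := by
  have hx1 : 1 ≤ x := by linarith
  have hx0 : 0 < x := by linarith
  have h0 : 0 ≤ F * x ^ j := by positivity
  have hE : Real.exp (T / 50) = Real.exp (T / 100) * Real.exp (T / 100) := by
    rw [← Real.exp_add]; ring_nf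
  have hE2 : 2 ≤ Real.exp (T / 100) := by
    have := Real.add_one_le_exp (T / 100)
    linarith
  have h1 : 2 * (F * x ^ j) ≤ Real.exp (T / 50) * x ^ 10 * M := by
    calc 2 * (F * x ^ j) ≤ Real.exp (T / 100) * (F * x ^ j) := by gcongr
      _ ≤ Real.exp (T / 100) * (Real.exp (T / 100) * x ^ 10 * M) := by gcongr
      _ = _ := by rw [hE]; ring
  have hG0 : 0 ≤ Real.exp (T / 50) * x ^ 10 := by positivity
  have h2 : Real.exp (T / 50) * x ^ 10 * (φ * a) ≤ Real.exp (T / 50) * x ^ 10 * q * a := by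
    rw [mul_assoc (Real.exp (T / 50) * x ^ 10)]
    gcongr
  have h3 : Real.exp (T / 50) * x ^ 10 * (M - Err) ≤ Real.exp (T / 50) * x ^ 10 * (φ * a) :=
    mul_le_mul_of_nonneg_left h hG0
  nlinarith

end U8m

open M8 U8m Finset Filter Topology in
theorem u8 (_ : U1) (h3 : S3) (h4 : S4) (h5 : U5) (hm : U3) (h7 : U7) : U8 := by
  obtain ⟨c3, hc3, h3⟩ := h3
  obtain ⟨κ, hκ, h4⟩ := h4
  have hκ' : 0 < min c3 κ := lt_min hc3 hκ
  obtain ⟨C, hC, h5⟩ := h5 (min c3 κ) hκ'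
  obtain ⟨cm, hcm, hm⟩ := hm
  obtain ⟨T7, hT7, h7⟩ := h7
  refine ⟨max (max 100 C) (max T7 (max (1 / κ) (2 * cm))),
    le_max_of_le_left (le_max_of_le_left (by norm_num)),
    fun T Λ hT hΛ r hr hrT D₁ D₂ hD₁ hD₂ hD => ?_⟩
  have t1 : 100 ≤ T := (le_max_left _ _).trans ((le_max_left _ _).trans hT)
  have t2 : C ≤ T := (le_max_right _ _).trans ((le_max_left _ _).trans hT)
  have t3 : T7 ≤ T := (le_max_left _ _).trans ((le_max_right _ _).trans hT)
  have t4 : 1 / κ ≤ T :=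
    (le_max_left _ _).trans ((le_max_right _ _).trans ((le_max_right _ _).trans hT))
  have t5 : 2 * cm ≤ T :=
    (le_max_right _ _).trans ((le_max_right _ _).trans ((le_max_right _ _).trans hT))
  have hT1 : 1 ≤ T := by linarith
  have hT0 : 0 < T := by linarith
  have hTΛ : T ≤ Λ := by
    calc T = T ^ 1 := (pow_one T).symm
      _ ≤ T ^ 40 := pow_le_pow_right₀ hT1 (by norm_num)
      _ ≤ Λ := hΛ
  have hΛ0 : 0 < Λ := by linarith
  have hΛ4 : 4 ≤ Λ := by linarith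
  have hδ0 : 0 < 1 / Λ := by positivity
  have hδ1 : 1 / Λ ≤ 1 := by rw [div_le_one hΛ0]; linarith
  have hr1 : 1 ≤ r := hr.one_le
  have hmod : ∀ d : ℕ, 1 ≤ d → 1 ≤ r * d := fun d hd1 => Nat.mul_pos hr.pos hd1
  have hlow0 : ∀ q : ℕ, 1 ≤ q → 1 + 2 * Real.log q ≤ T → 1 + Real.log q ≤ T := by
    intro q hq h
    have := Real.log_natCast_nonneg q
    linarith
  have hTqq : ∀ q₁ q₂ : ℕ, 1 ≤ q₁ → 1 ≤ q₂ → 1 + 2 * Real.log q₁ ≤ T → 1 + 2 * Real.log q₂ ≤ T →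
      1 + Real.log (q₁ * q₂ : ℕ) ≤ T := by
    intro q₁ q₂ hq₁ hq₂ h8 h9
    have hq₁' : (q₁ : ℝ) ≠ 0 := by exact_mod_cast (by omega : q₁ ≠ 0)
    have hq₂' : (q₂ : ℝ) ≠ 0 := by exact_mod_cast (by omega : q₂ ≠ 0)
    rw [Nat.cast_mul, Real.log_mul hq₁' hq₂']
    linarith
  -- error terms
  have herr : ∀ j : ℕ, T ≤ j → ∀ q : ℕ, 1 ≤ q → 1 + 2 * Real.log q ≤ T →
      Real.exp (T / 50) * Λ ^ 10 * (2 * (∑' n : ℕ, R0 q j (1 / Λ) n) +
        q.totient * ((C * T ^ 9) ^ (j + 1) * (j.factorial : ℝ))) ≤ (j.factorial : ℝ) * Λ ^ j := by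
    intro j hj q hq hqT
    exact num t1 hC t2 hΛ hj (by exact_mod_cast hq) hqT (by exact_mod_cast Nat.totient_le q)
      (RR_bound' j hq hδ0)
  -- good characters
  have hgood : ∀ q : ℕ, 1 ≤ q → 1 + 2 * Real.log q ≤ T → ∀ χ : DirichletCharacter ℂ q, χ ≠ 1 →
      (χ ^ 2 = 1 → κ / T ^ 3 ≤ ‖LL χ 0 (1 / Λ)‖) → ∀ j : ℕ,
      ‖VV χ j (1 / Λ)‖ ≤ (C * T ^ 9) ^ (j + 1) * (j.factorial : ℝ) := by
    intro q hq hqT χ hχ hreal j
    refine h5 q hq χ hχ (1 / Λ) hδ0 hδ1 T (hlow0 q hq hqT) ?_ j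
    have hlq : 0 ≤ Real.log q := Real.log_natCast_nonneg q
    by_cases h2 : χ ^ 2 = 1
    · refine le_trans ?_ (hreal h2)
      have : T ^ 3 ≤ T ^ 7 := pow_le_pow_right₀ hT1 (by norm_num)
      have h0 : 0 < T ^ 3 := by positivity
      calc min c3 κ / T ^ 7 ≤ κ / T ^ 7 := by
            gcongr
            exact min_le_right _ _
        _ ≤ κ / T ^ 3 := by gcongr
    · refine le_trans ?_ (h3 q hq χ h2 (1 / Λ) hδ0 hδ1)
      have h8 : 1 + Real.log q ≤ T := hlow0 q hq hqT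
      calc min c3 κ / T ^ 7 ≤ c3 / T ^ 7 := by
            gcongr
            exact min_le_left _ _
        _ ≤ c3 / (1 + Real.log q) ^ 7 := by gcongr
  have hfac : ∀ j : ℕ, (0 : ℝ) ≤ (j.factorial : ℝ) := fun j => Nat.cast_nonneg _
  have hEnn : ∀ j : ℕ, 0 ≤ (C * T ^ 9) ^ (j + 1) * (j.factorial : ℝ) := by
    intro j
    have := hfac j
    positivity
  -- no bad character modulo `q`
  have hnobad : ∀ q : ℕ, 1 ≤ q → 1 + 2 * Real.log q ≤ T →
      (∀ χ : DirichletCharacter ℂ q, χ ≠ 1 → χ ^ 2 = 1 → κ / T ^ 3 ≤ ‖LL χ 0 (1 / Λ)‖) →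
      ∀ j : ℕ, T ≤ j →
      (j.factorial : ℝ) * Λ ^ j ≤ Real.exp (T / 50) * Λ ^ 10 * (q : ℝ) * AP q j (1 / Λ) := by
    intro q hq hqT hall j hj
    have hR0 : 0 ≤ ∑' n : ℕ, R0 q j (1 / Λ) n := tsum_nonneg (R0_nonneg q j _)
    have hlow := AP_lower hq j (1 / Λ) hδ0 {1} ((C * T ^ 9) ^ (j + 1) * (j.factorial : ℝ))
      (hEnn j)
      (fun χ hχ => hgood q hq hqT χ (by simpa using hχ)
        (fun h2 => hall χ (by simpa using hχ) h2) j)
    rw [Finset.sum_singleton] at hlow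
    have hone := VV_one q j (1 / Λ) hδ0
    have hre := Complex.abs_re_le_norm (VV (1 : DirichletCharacter ℂ q) j (1 / Λ) - (MM j (1 / Λ) : ℂ))
    rw [Complex.sub_re, Complex.ofReal_re] at hre
    have hre2 := (abs_le.1 (hre.trans hone)).1
    have hM := (abs_le.1 (hm j (1 / Λ) hδ0 hδ1)).1
    have e1 : (j.factorial : ℝ) / (1 / Λ) ^ (j + 1) = (j.factorial : ℝ) * Λ ^ (j + 1) := by
      rw [one_div, inv_pow, div_inv_eq_mul]
    have e2 : (j.factorial : ℝ) / (1 / Λ) ^ j = (j.factorial : ℝ) * Λ ^ j := by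
      rw [one_div, inv_pow, div_inv_eq_mul]
    rw [e1, e2] at hM
    refine fin1 (M := MM j (1 / Λ)) (c := cm)
      (Err := 2 * (∑' n : ℕ, R0 q j (1 / Λ) n) +
        q.totient * ((C * T ^ 9) ^ (j + 1) * (j.factorial : ℝ)))
      (φ := q.totient) t1 hΛ4 (by linarith)
      (by exact_mod_cast Nat.totient_le q) (AP_nonneg q j _) (hfac j) ?_ (herr j hj q hq hqT) ?_
    · linarith
    · linarith
  set k₀ : ℕ := ⌈T⌉₊ with hk₀
  have hk1 : T ≤ k₀ := Nat.le_ceil T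
  have hk2 : (k₀ : ℝ) ≤ T + 1 := (Nat.ceil_lt_add_one hT0.le).le
  by_cases hbad1 : ∀ d ∈ D₁, ∀ χ : DirichletCharacter ℂ (r * d), χ ≠ 1 → χ ^ 2 = 1 →
      κ / T ^ 3 ≤ ‖LL χ 0 (1 / Λ)‖
  · refine ⟨k₀, hk1, by linarith, Or.inl ?_⟩
    intro d hd
    exact hnobad (r * d) (hmod d (hD₁ d hd).1) (hD₁ d hd).2.1 (hbad1 d hd) k₀ hk1
  by_cases hbad2 : ∀ d ∈ D₂, ∀ χ : DirichletCharacter ℂ (r * d), χ ≠ 1 → χ ^ 2 = 1 →
      κ / T ^ 3 ≤ ‖LL χ 0 (1 / Λ)‖
  · refine ⟨k₀, hk1, by linarith, Or.inr ?_⟩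
    intro d hd
    exact hnobad (r * d) (hmod d (hD₂ d hd).1) (hD₂ d hd).2.1 (hbad2 d hd) k₀ hk1
  push Not at hbad1 hbad2
  obtain ⟨d₁, hd₁, χ₁, hχ₁, hχ₁2, hb₁⟩ := hbad1
  obtain ⟨d₂, hd₂, χ₂, hχ₂, hχ₂2, hb₂⟩ := hbad2
  have q1 := hmod d₁ (hD₁ d₁ hd₁).1
  have q3 := hmod d₂ (hD₂ d₂ hd₂).1
  have q4 := (hD₂ d₂ hd₂).2.1
  have hpair : ∀ d ∈ D₁, ∀ χ : DirichletCharacter ℂ (r * d), χ ≠ 1 → χ ^ 2 = 1 →
      ‖LL χ 0 (1 / Λ)‖ < κ / T ^ 3 →
      ∃ ψ : DirichletCharacter ℂ r, χ = DirichletCharacter.changeLevel (dvd_mul_right r d) ψ ∧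
        χ₂ = DirichletCharacter.changeLevel (dvd_mul_right r d₂) ψ := by
    intro d hd χ hχ hχ2 hb
    have q5 := hmod d (hD₁ d hd).1
    refine common hr1 (hD₁ d hd).1 (hD₂ d₂ hd₂).1 (hD d hd d₂ hd₂) χ χ₂ hχ₂2 ?_
    by_contra hne
    have hTT := hTqq (r * d) (r * d₂) q5 q3 (hD₁ d hd).2.1 q4
    have hl0 : 0 ≤ Real.log (((r * d) * (r * d₂) : ℕ) : ℝ) := Real.log_natCast_nonneg _
    have hTT3 : κ / T ^ 3 ≤ κ / (1 + Real.log (((r * d) * (r * d₂) : ℕ) : ℝ)) ^ 3 := by gcongr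
    have hδκ : 1 / Λ ≤ κ / (1 + Real.log (((r * d) * (r * d₂) : ℕ) : ℝ)) ^ 5 := by
      have h8 : 1 / Λ ≤ κ / T ^ 5 := by
        rw [div_le_div_iff₀ hΛ0 (by positivity), one_mul]
        have e1 : T ^ 5 * (1 / κ) ≤ Λ := by
          calc T ^ 5 * (1 / κ) ≤ T ^ 5 * T := by gcongr
            _ = T ^ 6 := by ring
            _ ≤ T ^ 40 := pow_le_pow_right₀ hT1 (by norm_num)
            _ ≤ Λ := hΛ
        rw [mul_one_div, div_le_iff₀ hκ] at e1
        linarith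
      refine h8.trans ?_
      gcongr
    rcases h4 (r * d) (r * d₂) q5 q3 χ χ₂ hχ2 hχ₂2 hχ hχ₂ hne (1 / Λ) hδ0 hδκ with h8 | h8
    · exact absurd (hTT3.trans h8) (not_le.2 hb)
    · exact absurd (hTT3.trans h8) (not_le.2 hb₂)
  obtain ⟨ψ, hψ₁, hψ₂⟩ := hpair d₁ hd₁ χ₁ hχ₁ hχ₁2 hb₁
  have : NeZero (r * d₂) := ⟨by omega⟩
  have hψ1 : ψ ≠ 1 := by
    rintro rfl
    exact hχ₂ (by rw [hψ₂, map_one])
  have hψ2 : ψ ^ 2 = 1 := by
    apply DirichletCharacter.changeLevel_injective (R := ℂ) (dvd_mul_right r d₂)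
    rw [map_pow, ← hψ₂, hχ₂2, map_one]
  obtain ⟨j7, hj7a, hj7b, hj7c⟩ := h7 T Λ t3 hΛ r hr1 hrT ψ hψ2 hψ1 k₀ hk1 (by nlinarith)
  have hj7T : T ≤ j7 := hk1.trans (by exact_mod_cast hj7a)
  have hj7u : (j7 : ℝ) ≤ 130 * T := by
    have h8 : (j7 : ℝ) ≤ 64 * k₀ := by exact_mod_cast hj7b
    linarith
  refine ⟨j7, hj7T, hj7u, Or.inl ?_⟩
  intro d hd
  have q5 := hmod d (hD₁ d hd).1
  have q6 := (hD₁ d hd).2.1
  have : NeZero (r * d) := ⟨by omega⟩
  classical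
  have hne : (1 : DirichletCharacter ℂ (r * d)) ≠
      DirichletCharacter.changeLevel (dvd_mul_right r d) ψ := by
    intro h8
    exact hψ1 ((DirichletCharacter.changeLevel_eq_one_iff (dvd_mul_right r d)).1 h8.symm)
  have hlow := AP_lower q5 j7 (1 / Λ) hδ0
    {1, DirichletCharacter.changeLevel (dvd_mul_right r d) ψ}
    ((C * T ^ 9) ^ (j7 + 1) * (j7.factorial : ℝ)) (hEnn j7)
    (fun χ hχ => by
      rw [Finset.mem_insert, Finset.mem_singleton, not_or] at hχ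
      refine hgood (r * d) q5 q6 χ hχ.1 (fun h2 => ?_) j7
      by_contra hb
      obtain ⟨ψ', h8, h9⟩ := hpair d hd χ hχ.1 h2 (not_le.1 hb)
      have h10 : ψ' = ψ := by
        apply DirichletCharacter.changeLevel_injective (R := ℂ) (dvd_mul_right r d₂)
        rw [← h9, ← hψ₂]
      exact hχ.2 (by rw [h8, h10]))
  rw [Finset.sum_pair hne] at hlow
  have hone := VV_one (r * d) j7 (1 / Λ) hδ0
  have hre := Complex.abs_re_le_norm
    (VV (1 : DirichletCharacter ℂ (r * d)) j7 (1 / Λ) - (MM j7 (1 / Λ) : ℂ))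
  rw [Complex.sub_re, Complex.ofReal_re] at hre
  have hre2 := (abs_le.1 (hre.trans hone)).1
  have hpsi := VV_changeLevel (dvd_mul_right r d) ψ j7 (1 / Λ) hδ0
  have hre3 := Complex.abs_re_le_norm
    (VV (DirichletCharacter.changeLevel (dvd_mul_right r d) ψ) j7 (1 / Λ) - VV ψ j7 (1 / Λ))
  rw [Complex.sub_re] at hre3
  have hre4 := (abs_le.1 (hre3.trans hpsi)).1
  refine fin2 (M := MM j7 (1 / Λ) + (VV ψ j7 (1 / Λ)).re)
    (Err := 2 * (∑' n : ℕ, R0 (r * d) j7 (1 / Λ) n) +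
      (r * d).totient * ((C * T ^ 9) ^ (j7 + 1) * (j7.factorial : ℝ)))
    (φ := (r * d).totient) t1 hΛ4
    (by exact_mod_cast Nat.totient_le (r * d)) (AP_nonneg (r * d) j7 _) (hfac j7) ?_
    (herr j7 hj7T (r * d) q5 q6) hj7c
  linarith

end Pool.Agent.Lib.MP_509488_nt.Unif
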