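import Pool.Agent.Lib.MP_509488_nt.Unif.M9
import Pool.Agent.Lib.MP_509488_nt.Unif.StmtsU

/-!
# U9: from the weighted sum over prime powers to `Σ 1/l`, uniform in `j` (adapted from M9)
-/

namespace Pool.Agent.Lib.MP_509488_nt.Unif

open Finset

namespace M9

/-- The non-prime part is bounded, uniform version. -/
theorem nonprime_bound' (j : ℕ) (s : Finset ℕ) (δ : ℝ) (hδ : 0 ≤ δ) :
    ∑ n ∈ s with ¬ n.Prime, w j δ n ≤
      ((j + 1).factorial * 4 ^ (j + 1)) * (4 * ∑' n : ℕ, 1 / (n : ℝ) ^ (3 / 2 : ℝ)) := by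
  set c : ℝ := (j + 1).factorial * 4 ^ (j + 1) with hc
  have hc0 : 0 < c := by positivity
  -- remove the `n` with `Λ(n) = 0`
  have h1 : ∑ n ∈ s with ¬ n.Prime, w j δ n = ∑ n ∈ s with (¬ n.Prime ∧ IsPrimePow n), w j δ n := by
    symm
    apply sum_subset
    · intro n hn
      rw [mem_filter] at hn ⊢
      exact ⟨hn.1, hn.2.1⟩
    · intro n hn hn'
      rw [mem_filter] at hn hn'
      have : ¬ IsPrimePow n := fun h => hn' ⟨hn.1, hn.2, h⟩
      unfold w
      rw [ArithmeticFunction.vonMangoldt_apply, if_neg this, zero_mul]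
  rw [h1]
  -- pointwise
  have h2 : ∀ n : ℕ, 1 ≤ n → w j δ n ≤ c * (n : ℝ) ^ (-(3 / 4) : ℝ) := by
    intro n hn
    have h0 : (0 : ℝ) < n := by exact_mod_cast hn
    refine (w_le_inv j hδ n).trans ?_
    have h3 := log_pow_le (j + 1) hn
    calc Real.log n ^ (j + 1) * (1 / n) ≤ (c * (n : ℝ) ^ (1 / 4 : ℝ)) * (1 / n) :=
          mul_le_mul_of_nonneg_right h3 (by positivity)
      _ = c * ((n : ℝ) ^ (1 / 4 : ℝ) * (n : ℝ) ^ (-1 : ℝ)) := by
          rw [Real.rpow_neg_one]; ring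
      _ = c * (n : ℝ) ^ (-(3 / 4) : ℝ) := by
          rw [← Real.rpow_add h0]; norm_num
  obtain ⟨N, hN⟩ : ∃ N : ℕ, ∀ n ∈ s, n ≤ N := ⟨s.sup id, fun n hn => le_sup (f := id) hn⟩
  have hsub : (s.filter fun n => ¬ n.Prime ∧ IsPrimePow n) ⊆
      ((Icc 2 N) ×ˢ (Icc 2 N)).image (fun pa : ℕ × ℕ => pa.1 ^ pa.2) := by
    intro n hn
    rw [mem_filter] at hn
    obtain ⟨hns, hnp, hpp⟩ := hn
    rw [isPrimePow_nat_iff] at hpp
    obtain ⟨p, k, hp, hk, hpk⟩ := hpp
    have hk2 : 2 ≤ k := by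
      rcases Nat.lt_or_ge k 2 with h | h
      · have : k = 1 := by omega
        subst this
        rw [pow_one] at hpk
        exact absurd (hpk ▸ hp) hnp
      · exact h
    rw [mem_image]
    refine ⟨(p, k), ?_, hpk⟩
    rw [mem_product, mem_Icc, mem_Icc]
    have hnN := hN n hns
    have h3 : p ≤ n := by
      rw [← hpk]
      exact Nat.le_self_pow (by omega) p
    have h4 : k ≤ n := by
      rw [← hpk]
      exact (Nat.lt_pow_self hp.one_lt).le
    exact ⟨⟨hp.two_le, h3.trans hnN⟩, hk2, h4.trans hnN⟩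
  calc ∑ n ∈ s with (¬ n.Prime ∧ IsPrimePow n), w j δ n
      ≤ ∑ n ∈ s with (¬ n.Prime ∧ IsPrimePow n), c * (n : ℝ) ^ (-(3 / 4) : ℝ) := by
        apply sum_le_sum
        intro n hn
        rw [mem_filter] at hn
        exact h2 n hn.2.2.pos
    _ ≤ ∑ n ∈ ((Icc 2 N) ×ˢ (Icc 2 N)).image (fun pa : ℕ × ℕ => pa.1 ^ pa.2),
          c * (n : ℝ) ^ (-(3 / 4) : ℝ) :=
        sum_le_sum_of_subset_of_nonneg hsub fun _ _ _ => by positivity
    _ ≤ ∑ pa ∈ (Icc 2 N) ×ˢ (Icc 2 N), c * ((pa.1 ^ pa.2 : ℕ) : ℝ) ^ (-(3 / 4) : ℝ) := by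
        have := Finset.sum_image_le_of_nonneg (s := (Icc 2 N) ×ˢ (Icc 2 N))
          (g := fun pa : ℕ × ℕ => pa.1 ^ pa.2) (f := fun n : ℕ => c * (n : ℝ) ^ (-(3 / 4) : ℝ))
          (fun _ _ => by positivity)
        exact this
    _ = c * ∑ p ∈ Icc 2 N, ∑ a ∈ Icc 2 N, ((p : ℝ) ^ (-(3 / 4) : ℝ)) ^ a := by
        rw [sum_product, mul_sum]
        refine sum_congr rfl fun p _ => ?_
        rw [mul_sum]
        refine sum_congr rfl fun a _ => ?_
        congr 1
        push_cast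
        rw [← Real.rpow_natCast, ← Real.rpow_natCast, ← Real.rpow_mul (by positivity),
          ← Real.rpow_mul (by positivity), mul_comm]
    _ ≤ c * ∑ p ∈ Icc 2 N, 4 * (1 / (p : ℝ) ^ (3 / 2 : ℝ)) := by
        apply mul_le_mul_of_nonneg_left _ hc0.le
        apply sum_le_sum
        intro p hp
        rw [mem_Icc] at hp
        have hp0 : (0 : ℝ) < p := by exact_mod_cast (by omega : 0 < p)
        have hp2 : (2 : ℝ) ≤ p := by exact_mod_cast hp.1
        have h3 : (p : ℝ) ^ (-(3 / 4) : ℝ) ≤ 3 / 4 := by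
          calc (p : ℝ) ^ (-(3 / 4) : ℝ) ≤ (2 : ℝ) ^ (-(3 / 4) : ℝ) :=
                Real.rpow_le_rpow_of_nonpos (by norm_num) hp2 (by norm_num)
            _ ≤ (2 : ℝ) ^ (-(1 / 2) : ℝ) :=
                Real.rpow_le_rpow_of_exponent_le (by norm_num) (by norm_num)
            _ ≤ 3 / 4 := by
                rw [Real.rpow_neg (by norm_num), ← Real.sqrt_eq_rpow]
                rw [inv_le_comm₀ (by positivity) (by norm_num)]
                apply Real.le_sqrt_of_sq_le
                norm_num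
        refine (geom_tail (by positivity) h3 N).trans (le_of_eq ?_)
        rw [← Real.rpow_natCast, ← Real.rpow_mul hp0.le]
        rw [one_div, ← Real.rpow_neg hp0.le]
        norm_num
    _ = c * (4 * ∑ p ∈ Icc 2 N, 1 / (p : ℝ) ^ (3 / 2 : ℝ)) := by rw [← mul_sum]
    _ ≤ c * (4 * ∑' n : ℕ, 1 / (n : ℝ) ^ (3 / 2 : ℝ)) := by
        apply mul_le_mul_of_nonneg_left _ hc0.le
        apply mul_le_mul_of_nonneg_left _ (by norm_num)
        exact summable_32.sum_le_tsum _ fun _ _ => by positivity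

/-- The large part. -/
theorem large_bound' : ∃ L₀ : ℝ, 1 ≤ L₀ ∧ ∀ L : ℝ, L₀ ≤ L → ∀ (j : ℕ) (s : Finset ℕ),
    ∑ n ∈ s.filter (fun n : ℕ => Real.exp (L ^ (3 / 2 : ℝ)) < (n : ℝ)), w j (1 / L) n ≤
      (j + 1).factorial * (4 * L) ^ (j + 1) * Real.exp (-(Real.sqrt L / 4)) * (4 * L) := by
  obtain ⟨L₀, hL₀, h⟩ := zeta_bound
  refine ⟨L₀, hL₀, fun L hL j s => ?_⟩
  have hL1 : 1 ≤ L := hL₀.trans hL
  have hL0 : 0 < L := by linarith
  set K : ℝ := (j + 1).factorial * (4 * L) ^ (j + 1) * Real.exp (-(Real.sqrt L / 4)) with hK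
  have hK0 : 0 ≤ K := by positivity
  have h32 : L ^ (3 / 2 : ℝ) = L * Real.sqrt L := by
    rw [Real.sqrt_eq_rpow, ← Real.rpow_one_add' hL0.le (by norm_num)]
    norm_num
  calc ∑ n ∈ s.filter (fun n : ℕ => Real.exp (L ^ (3 / 2 : ℝ)) < (n : ℝ)), w j (1 / L) n
      ≤ ∑ n ∈ s.filter (fun n : ℕ => Real.exp (L ^ (3 / 2 : ℝ)) < (n : ℝ)), K * (n : ℝ) ^ (-1 - 1 / (2 * L)) := by
        apply sum_le_sum
        intro n hn
        rw [mem_filter] at hn
        have hn0 : (0 : ℝ) < n := lt_trans (Real.exp_pos _) hn.2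
        refine (w_le j _ n).trans ?_
        have h1 := pow_le_exp (j + 1) (Real.log_natCast_nonneg n)
          (show (0 : ℝ) < 4 * L by positivity)
        have h2 : L * Real.sqrt L ≤ Real.log n := by
          rw [← h32]
          exact ((Real.lt_log_iff_exp_lt hn0).2 hn.2).le
        have h3 : Real.exp (Real.log n / (4 * L)) * (n : ℝ) ^ (-1 - 1 / L) ≤
            Real.exp (-(Real.sqrt L / 4)) * (n : ℝ) ^ (-1 - 1 / (2 * L)) := by
          rw [Real.rpow_def_of_pos hn0, Real.rpow_def_of_pos hn0, ← Real.exp_add, ← Real.exp_add]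
          apply Real.exp_le_exp.2
          have h4 : Real.sqrt L / 4 ≤ Real.log n / (4 * L) := by
            rw [div_le_div_iff₀ (by norm_num) (by positivity)]
            nlinarith
          have h5 : Real.log n * (-1 - 1 / L) =
              Real.log n * (-1 - 1 / (2 * L)) - 2 * (Real.log n / (4 * L)) := by
            field_simp
            ring
          rw [h5]
          linarith
        calc Real.log n ^ (j + 1) * (n : ℝ) ^ (-1 - 1 / L)
            ≤ (j + 1).factorial * (4 * L) ^ (j + 1) * Real.exp (Real.log n / (4 * L)) *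
              (n : ℝ) ^ (-1 - 1 / L) := mul_le_mul_of_nonneg_right h1 (by positivity)
          _ = (j + 1).factorial * (4 * L) ^ (j + 1) * (Real.exp (Real.log n / (4 * L)) *
              (n : ℝ) ^ (-1 - 1 / L)) := by ring
          _ ≤ (j + 1).factorial * (4 * L) ^ (j + 1) * (Real.exp (-(Real.sqrt L / 4)) *
              (n : ℝ) ^ (-1 - 1 / (2 * L))) :=
              mul_le_mul_of_nonneg_left h3 (by positivity)
          _ = K * (n : ℝ) ^ (-1 - 1 / (2 * L)) := by rw [hK]; ring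
    _ = K * ∑ n ∈ s.filter (fun n : ℕ => Real.exp (L ^ (3 / 2 : ℝ)) < (n : ℝ)), (n : ℝ) ^ (-1 - 1 / (2 * L)) := by
        rw [mul_sum]
    _ ≤ K * (4 * L) := mul_le_mul_of_nonneg_left (h L hL _) hK0


end M9

open M9 in
theorem u9 : U9 := by
  obtain ⟨L₁, hL₁, hlarge⟩ := large_bound'
  set C₀ : ℝ := 4 * ∑' n : ℕ, 1 / (n : ℝ) ^ (3 / 2 : ℝ) with hC₀
  have hC₀0 : 0 ≤ C₀ := by
    have : 0 ≤ ∑' n : ℕ, 1 / (n : ℝ) ^ (3 / 2 : ℝ) := tsum_nonneg fun n => by positivity
    positivity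
  refine ⟨L₁ + 32 * C₀ + 1000, by linarith, ?_⟩
  intro T L hT hTL q j hq hqT hTj hjT hAP
  have hT1000 : 1000 ≤ T := by linarith
  have hT0 : 0 < T := by linarith
  have hT40 : T ≤ T ^ 40 := by
    calc T = T ^ 1 := (pow_one T).symm
      _ ≤ T ^ 40 := pow_le_pow_right₀ (by linarith) (by norm_num)
  have hLL₁ : L₁ ≤ L := by linarith
  have hL0 : 0 < L := by linarith
  have hL1 : 1 ≤ L := by linarith
  have hq0 : (0 : ℝ) < q := by exact_mod_cast hq
  have hjr : (1000 : ℝ) ≤ j := by linarith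
  have hj1000 : 1000 ≤ j := by exact_mod_cast hjr
  set s₀ : ℝ := Real.sqrt L with hs₀
  have hs2 : s₀ ^ 2 = L := Real.sq_sqrt hL0.le
  have hs20 : T ^ 20 ≤ s₀ := by
    apply Real.le_sqrt_of_sq_le
    rw [← pow_mul]
    exact hTL
  have hsT : T * 2 ^ 19 ≤ s₀ := by
    refine le_trans ?_ hs20
    calc T * 2 ^ 19 ≤ T * T ^ 19 := by
          apply mul_le_mul_of_nonneg_left _ hT0.le
          exact pow_le_pow_left₀ (by norm_num) (by linarith) 19
      _ = T ^ 20 := by ring
  have hs8 : (8 : ℝ) ^ 4 ≤ s₀ := by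
    refine le_trans ?_ hsT
    have : (8 : ℝ) ^ 4 ≤ 1000 * 2 ^ 19 := by norm_num
    nlinarith
  have hs0 : 0 < s₀ := lt_of_lt_of_le (by norm_num) hs8
  have hs1 : 1 ≤ s₀ := le_trans (by norm_num) hs8
  have hL64 : (64 : ℝ) ^ 4 ≤ L := by
    rw [← hs2]
    calc (64 : ℝ) ^ 4 = (8 ^ 4) ^ 2 := by norm_num
      _ ≤ s₀ ^ 2 := pow_le_pow_left₀ (by norm_num) hs8 2
  have he3 : (8 : ℝ) ≤ Real.exp 3 := by
    have h1 : (2 : ℝ) ≤ Real.exp 1 := by
      have := Real.add_one_le_exp (1 : ℝ)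
      linarith
    calc (8 : ℝ) = 2 ^ 3 := by norm_num
      _ ≤ Real.exp 1 ^ 3 := pow_le_pow_left₀ (by norm_num) h1 3
      _ = Real.exp 3 := by rw [← Real.exp_nat_mul]; norm_num
  have he2 : Real.exp 2 ≤ 8 := by
    have h1 := Real.exp_one_lt_d9
    have h2 := Real.exp_pos 1
    have h3 : Real.exp 2 = Real.exp 1 * Real.exp 1 := by rw [← Real.exp_add]; norm_num
    rw [h3]; nlinarith
  have hqT' : (q : ℝ) ≤ Real.exp T := by
    rw [← Real.log_le_iff_le_exp hq0]
    linarith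
  -- the loss `exp (T/50) q ≤ 8 ^ j`
  have hloss : Real.exp (T / 50) * q ≤ 8 ^ j := by
    calc Real.exp (T / 50) * q ≤ Real.exp (T / 50) * Real.exp T :=
          mul_le_mul_of_nonneg_left hqT' (Real.exp_pos _).le
      _ = Real.exp (T / 50 + T) := by rw [Real.exp_add]
      _ ≤ Real.exp (j * 2) := by apply Real.exp_le_exp.2; linarith
      _ = Real.exp 2 ^ j := by rw [← Real.exp_nat_mul]
      _ ≤ 8 ^ j := pow_le_pow_left₀ (Real.exp_pos _).le he2 j
  have hf0 : (0 : ℝ) < (j.factorial : ℝ) := by exact_mod_cast j.factorial_pos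
  have hf1 : (1 : ℝ) ≤ (j.factorial : ℝ) := by exact_mod_cast j.factorial_pos
  have hj2 : ((j : ℝ) + 1) ≤ 2 ^ j := by
    have : j + 1 ≤ 2 ^ j := Nat.succ_le_of_lt (Nat.lt_two_pow_self (n := j))
    exact_mod_cast this
  have hfac : (((j + 1).factorial : ℕ) : ℝ) = ((j : ℝ) + 1) * (j.factorial : ℝ) := by
    rw [Nat.factorial_succ]; push_cast; ring
  obtain ⟨i, hi⟩ : ∃ i, j = i + 10 := ⟨j - 10, by omega⟩
  classical
  set S : Finset ℕ := (range (⌊Real.exp (L ^ (3 / 2 : ℝ))⌋₊ + 1)).filter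
    (fun n : ℕ => n.Prime ∧ n ≡ 1 [MOD q] ∧ Real.exp (Real.sqrt L) ≤ n ∧
      (n : ℝ) ≤ Real.exp (L ^ (3 / 2 : ℝ))) with hS
  refine ⟨S, fun l hl => ?_, ?_⟩
  · rw [hS, mem_filter] at hl
    refine ⟨hl.2.1, hl.2.2.1, hl.2.2.2.1, hl.2.2.2.2.trans ?_⟩
    apply Real.exp_le_exp.2
    rw [← Real.rpow_natCast L 2]
    exact Real.rpow_le_rpow_of_exponent_le hL1 (by norm_num)
  by_contra hcon
  push Not at hcon
  have hfin : ∀ s : Finset ℕ, ∑ n ∈ s, (if n ≡ 1 [MOD q] then w j (1 / L) n else 0) ≤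
      (j.factorial : ℝ) * L ^ j / (Real.exp (T / 50) * L ^ 10 * q) * (1 / 2) := by
    intro s
    set R : ℝ := (j.factorial : ℝ) * L ^ j / (Real.exp (T / 50) * L ^ 10 * q) with hR
    have hE0 : 0 < Real.exp (T / 50) := Real.exp_pos _
    have hR0 : 0 < R := by rw [hR]; positivity
    -- lower bound for `R`
    have hRlow : (j.factorial : ℝ) * L ^ i ≤ R * 8 ^ j := by
      rw [hR, div_mul_eq_mul_div, le_div_iff₀ (by positivity)]
      calc (j.factorial : ℝ) * L ^ i * (Real.exp (T / 50) * L ^ 10 * q)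
          = (j.factorial : ℝ) * (L ^ i * L ^ 10) * (Real.exp (T / 50) * q) := by ring
        _ = (j.factorial : ℝ) * L ^ j * (Real.exp (T / 50) * q) := by rw [← pow_add, ← hi]
        _ ≤ (j.factorial : ℝ) * L ^ j * 8 ^ j := mul_le_mul_of_nonneg_left hloss (by positivity)
    have h1 := split j q (L := L) s S (fun n h1 h2 h3 h4 => by
      rw [hS, mem_filter, mem_range]
      exact ⟨Nat.lt_succ_of_le (Nat.le_floor h4), h1, h2, h3, h4⟩)
    refine h1.trans ?_
    -- part 1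
    have hP1 : ∑ n ∈ S, w j (1 / L) n ≤ R / 8 := by
      calc ∑ n ∈ S, w j (1 / L) n ≤ ∑ n ∈ S, (j + 1).factorial * L ^ (j + 1) * (1 / n) :=
            sum_le_sum fun n _ => w_le_point j hL0 n
        _ = (j + 1).factorial * L ^ (j + 1) * ∑ n ∈ S, (1 : ℝ) / n := by rw [mul_sum]
        _ ≤ (j + 1).factorial * L ^ (j + 1) * (1 / (Real.exp (T / 50) * L ^ 12 * q)) := by
            apply mul_le_mul_of_nonneg_left _ (by positivity)
            rw [le_div_iff₀ (by positivity)]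
            linarith
        _ = ((j : ℝ) + 1) / L * R := by
            rw [hR, hfac]
            field_simp
            ring
        _ ≤ (1 / 8) * R := by
            apply mul_le_mul_of_nonneg_right _ hR0.le
            rw [div_le_iff₀ hL0]
            have h3 : T * 2 ^ 19 ≤ L := by
              refine hsT.trans ?_
              rw [← hs2]; nlinarith
            nlinarith
        _ = R / 8 := by ring
    -- part 2
    have hpow64 : (64 : ℝ) ^ j * 64 ^ j ≤ L ^ i := by
      calc (64 : ℝ) ^ j * 64 ^ j = 64 ^ (j + j) := by rw [← pow_add]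
        _ ≤ 64 ^ (4 * i) := pow_le_pow_right₀ (by norm_num) (by omega)
        _ = (64 ^ 4) ^ i := by rw [pow_mul]
        _ ≤ L ^ i := pow_le_pow_left₀ (by norm_num) hL64 i
    have hjle64 : T ≤ 64 ^ j := by
      have h3 : j ≤ 64 ^ j := (Nat.lt_pow_self (by norm_num)).le
      have h4 : (j : ℝ) ≤ 64 ^ j := by exact_mod_cast h3
      linarith
    have hP2 : ∑ n ∈ s with ¬ n.Prime, w j (1 / L) n ≤ R / 8 := by
      refine (nonprime_bound' j s (1 / L) (by positivity)).trans ?_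
      rw [← hC₀, hfac]
      have h3 : (((j : ℝ) + 1) * (j.factorial : ℝ) * 4 ^ (j + 1) * C₀) * 8 * 8 ^ j ≤
          (j.factorial : ℝ) * L ^ i := by
        calc (((j : ℝ) + 1) * (j.factorial : ℝ) * 4 ^ (j + 1) * C₀) * 8 * 8 ^ j
            = (j.factorial : ℝ) * ((32 * C₀) * (((j : ℝ) + 1) * (4 ^ j * 8 ^ j))) := by
              rw [pow_succ]; ring
          _ ≤ (j.factorial : ℝ) * (64 ^ j * (2 ^ j * (4 ^ j * 8 ^ j))) := by
              apply mul_le_mul_of_nonneg_left _ hf0.le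
              apply mul_le_mul _ _ (by positivity) (by positivity)
              · linarith
              · exact mul_le_mul_of_nonneg_right hj2 (by positivity)
          _ = (j.factorial : ℝ) * (64 ^ j * 64 ^ j) := by
              rw [← mul_pow, ← mul_pow]; norm_num
          _ ≤ (j.factorial : ℝ) * L ^ i := mul_le_mul_of_nonneg_left hpow64 hf0.le
      have h4 : (((j : ℝ) + 1) * (j.factorial : ℝ) * 4 ^ (j + 1) * C₀) * 8 * 8 ^ j ≤ R * 8 ^ j :=
        h3.trans hRlow
      have h5 := le_of_mul_le_mul_right h4 (by positivity)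
      linarith
    -- part 3
    have hP3 : ∑ n ∈ s.filter (fun n : ℕ => (n : ℝ) < Real.exp (Real.sqrt L)), w j (1 / L) n ≤
        R / 8 := by
      refine (small_bound j s (by positivity) (Real.sqrt_nonneg L)).trans ?_
      rw [← hs₀]
      obtain ⟨k, hk⟩ : ∃ k, j = k + 22 := ⟨j - 22, by omega⟩
      have h3 : s₀ ^ (j + 1) * (1 + s₀) * 8 * 8 ^ j ≤ R * 8 ^ j := by
        refine le_trans ?_ hRlow
        calc s₀ ^ (j + 1) * (1 + s₀) * 8 * 8 ^ j ≤ s₀ ^ (j + 1) * (2 * s₀) * 8 * 8 ^ j := by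
              apply mul_le_mul_of_nonneg_right _ (by positivity)
              apply mul_le_mul_of_nonneg_right _ (by positivity)
              apply mul_le_mul_of_nonneg_left _ (by positivity)
              linarith
          _ = s₀ ^ (j + 2) * (16 * 8 ^ j) := by rw [pow_succ s₀ (j + 1)]; ring
          _ ≤ s₀ ^ (j + 2) * s₀ ^ k := by
              apply mul_le_mul_of_nonneg_left _ (by positivity)
              calc (16 : ℝ) * 8 ^ j ≤ 8 ^ 2 * 8 ^ j := by norm_num
                _ = 8 ^ (2 + j) := by rw [← pow_add]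
                _ ≤ 8 ^ (4 * k) := pow_le_pow_right₀ (by norm_num) (by omega)
                _ = (8 ^ 4) ^ k := by rw [pow_mul]
                _ ≤ s₀ ^ k := pow_le_pow_left₀ (by norm_num) hs8 k
          _ = (s₀ ^ 2) ^ i := by rw [← pow_add, ← pow_mul]; congr 1; omega
          _ = L ^ i := by rw [hs2]
          _ ≤ (j.factorial : ℝ) * L ^ i := le_mul_of_one_le_left (by positivity) hf1
      have h5 := le_of_mul_le_mul_right h3 (by positivity)
      linarith
    -- part 4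
    have hP4 : ∑ n ∈ s.filter (fun n : ℕ => Real.exp (L ^ (3 / 2 : ℝ)) < (n : ℝ)),
        w j (1 / L) n ≤ R / 8 := by
      refine (hlarge L hLL₁ j s).trans ?_
      rw [← hs₀, hfac]
      have h2 := pow_le_exp 24 hs0.le (show (0 : ℝ) < 8 by norm_num)
      have h3 : s₀ ^ 24 = L ^ 12 := by rw [← hs2, ← pow_mul]
      rw [h3] at h2
      have h24 : ((Nat.factorial 24 : ℕ) : ℝ) * 8 ^ 24 ≤ 8 ^ 51 := by
        have : Nat.factorial 24 * 8 ^ 24 ≤ 8 ^ 51 := by decide +kernel
        exact_mod_cast this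
      have h4 : (8 : ℝ) ^ 51 * (8 ^ 3 * 64 ^ j) ≤ Real.exp (s₀ / 8) := by
        calc (8 : ℝ) ^ 51 * (8 ^ 3 * 64 ^ j) = 8 ^ (54 + 2 * j) := by
              rw [show (64 : ℝ) = 8 ^ 2 by norm_num, ← pow_mul, ← pow_add, ← pow_add]
              congr 1
              ring
          _ ≤ Real.exp 3 ^ (54 + 2 * j) := pow_le_pow_left₀ (by norm_num) he3 _
          _ = Real.exp (((54 + 2 * j : ℕ) : ℝ) * 3) := by rw [← Real.exp_nat_mul]
          _ ≤ Real.exp (s₀ / 8) := by
              apply Real.exp_le_exp.2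
              push_cast
              linarith
      -- `L^12 * 8^3 * 64^j ≤ exp (s₀/4)`
      have h5 : L ^ 12 * (8 ^ 3 * 64 ^ j) ≤ Real.exp (s₀ / 4) := by
        have h6 : Real.exp (s₀ / 4) = Real.exp (s₀ / 8) * Real.exp (s₀ / 8) := by
          rw [← Real.exp_add]; congr 1; ring
        rw [h6]
        calc L ^ 12 * (8 ^ 3 * 64 ^ j)
            ≤ ((Nat.factorial 24 : ℕ) : ℝ) * 8 ^ 24 * Real.exp (s₀ / 8) * (8 ^ 3 * 64 ^ j) :=
              mul_le_mul_of_nonneg_right h2 (by positivity)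
          _ ≤ 8 ^ 51 * Real.exp (s₀ / 8) * (8 ^ 3 * 64 ^ j) := by
              apply mul_le_mul_of_nonneg_right _ (by positivity)
              exact mul_le_mul_of_nonneg_right h24 (Real.exp_pos _).le
          _ = Real.exp (s₀ / 8) * (8 ^ 51 * (8 ^ 3 * 64 ^ j)) := by ring
          _ ≤ Real.exp (s₀ / 8) * Real.exp (s₀ / 8) :=
              mul_le_mul_of_nonneg_left h4 (Real.exp_pos _).le
      have h6 : L ^ 12 * (8 ^ 3 * 64 ^ j) * Real.exp (-(s₀ / 4)) ≤ 1 := by
        calc L ^ 12 * (8 ^ 3 * 64 ^ j) * Real.exp (-(s₀ / 4))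
            ≤ Real.exp (s₀ / 4) * Real.exp (-(s₀ / 4)) :=
              mul_le_mul_of_nonneg_right h5 (Real.exp_pos _).le
          _ = 1 := by rw [← Real.exp_add, add_neg_cancel, Real.exp_zero]
      have h7 : (((j : ℝ) + 1) * (j.factorial : ℝ) * (4 * L) ^ (j + 1) *
          Real.exp (-(s₀ / 4)) * (4 * L)) * 8 * 8 ^ j ≤ R * 8 ^ j := by
        refine le_trans ?_ hRlow
        calc (((j : ℝ) + 1) * (j.factorial : ℝ) * (4 * L) ^ (j + 1) *
            Real.exp (-(s₀ / 4)) * (4 * L)) * 8 * 8 ^ j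
            = ((j : ℝ) + 1) * ((j.factorial : ℝ) * L ^ i *
              (L ^ 12 * (128 * (4 ^ j * 8 ^ j)) * Real.exp (-(s₀ / 4)))) := by
              rw [mul_pow, pow_succ, pow_succ L j]
              have : L ^ j = L ^ i * L ^ 10 := by rw [← pow_add, ← hi]
              rw [this]
              ring
          _ ≤ 2 ^ j * ((j.factorial : ℝ) * L ^ i *
              (L ^ 12 * (128 * (4 ^ j * 8 ^ j)) * Real.exp (-(s₀ / 4)))) :=
              mul_le_mul_of_nonneg_right hj2 (by positivity)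
          _ = (j.factorial : ℝ) * L ^ i *
              (L ^ 12 * (128 * (2 ^ j * (4 ^ j * 8 ^ j))) * Real.exp (-(s₀ / 4))) := by ring
          _ = (j.factorial : ℝ) * L ^ i *
              (L ^ 12 * (128 * 64 ^ j) * Real.exp (-(s₀ / 4))) := by
              rw [← mul_pow, ← mul_pow]; norm_num
          _ ≤ (j.factorial : ℝ) * L ^ i *
              (L ^ 12 * (8 ^ 3 * 64 ^ j) * Real.exp (-(s₀ / 4))) := by
              apply mul_le_mul_of_nonneg_left _ (by positivity)
              apply mul_le_mul_of_nonneg_right _ (Real.exp_pos _).le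
              apply mul_le_mul_of_nonneg_left _ (by positivity)
              apply mul_le_mul_of_nonneg_right _ (by positivity)
              norm_num
          _ ≤ (j.factorial : ℝ) * L ^ i * 1 := mul_le_mul_of_nonneg_left h6 (by positivity)
          _ = (j.factorial : ℝ) * L ^ i := mul_one _
      have h8 := le_of_mul_le_mul_right h7 (by positivity)
      linarith
    linarith
  have hle : AP q j (1 / L) ≤
      (j.factorial : ℝ) * L ^ j / (Real.exp (T / 50) * L ^ 10 * q) * (1 / 2) := by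
    unfold AP
    apply tsum_le_of_sum_le'
    · positivity
    · exact hfin
  have h8 : Real.exp (T / 50) * L ^ 10 * q * AP q j (1 / L) ≤
      (j.factorial : ℝ) * L ^ j * (1 / 2) := by
    calc Real.exp (T / 50) * L ^ 10 * q * AP q j (1 / L) ≤ Real.exp (T / 50) * L ^ 10 * q *
        ((j.factorial : ℝ) * L ^ j / (Real.exp (T / 50) * L ^ 10 * q) * (1 / 2)) :=
          mul_le_mul_of_nonneg_left hle (by positivity)
      _ = (j.factorial : ℝ) * L ^ j * (1 / 2) := by
          have := (Real.exp_pos (T / 50)).ne'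
          field_simp
  have h9 : 0 < (j.factorial : ℝ) * L ^ j := by positivity
  linarith

end Pool.Agent.Lib.MP_509488_nt.Unif
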