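import Pool.Agent.Lib.MP_509488_nt.Unif.All3
import Pool.Agent.Lib.MP_509488_nt.Unif.U1
import Pool.Agent.Lib.MP_509488_nt.Unif.U2
import Pool.Agent.Lib.MP_509488_nt.Unif.U3
import Pool.Agent.Lib.MP_509488_nt.Unif.U5
import Pool.Agent.Lib.MP_509488_nt.Unif.U7
import Pool.Agent.Lib.MP_509488_nt.Unif.U8
import Pool.Agent.Lib.MP_509488_nt.Unif.U9
import Pool.Agent.Lib.MP_509488_nt.Unif.U10
import Pool.Agent.Lib.MP_509488_nt.Unif.US
import Pool.Agent.Lib.MP_509488_nt.Unif.UR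
import Pool.Agent.Lib.MP_509488_nt.Unif.UF
import Pool.Agent.Lib.MP_509488_nt.Unif.UP

/-!
# Uniform bases: the final theorem, version with one exponent for all `x` and all `w`
-/

namespace Pool.Agent.Lib.MP_509488_nt.Unif

theorem allU8 : U8 := u8 u1 (s3 s1 s2) (s4 s1 s2) (u5 u1) u3 (u7 u1 u2 u3)

theorem allSieveU : SieveU := sieveU (supplyU allU8 u9)

theorem allFinal4 : Final4 :=
  final4 (ru1 allRB1) (ru2 (rBound2 allTwo allArch)) (ru3 allRB3) allSieveU

theorem allPairs4 : Pairs4 := pairs4 allFinal4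

end Pool.Agent.Lib.MP_509488_nt.Unif
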