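import Pool.Agent.Lib.MP_509488_nt.Unif.RecA

/-!
# M1: `L^(j)(1+δ, χ)` for nonprincipal `χ`
-/

namespace Pool.Agent.Lib.MP_509488_nt.Unif

open Finset RecA

/-- Abel summation. -/
theorem abel_bound (c : ℕ → ℂ) (f : ℕ → ℝ) (hf0 : ∀ n, 0 ≤ f n) (hf : ∀ n, f (n + 1) ≤ f n) (M : ℝ)
    (hM : ∀ N, ‖∑ i ∈ range N, c i‖ ≤ M) (N : ℕ) : ‖∑ i ∈ range N, f i • c i‖ ≤ M * f 0 := by
  have hM0 : 0 ≤ M := (norm_nonneg _).trans (hM 0)
  rcases Nat.eq_zero_or_pos N with rfl | hN
  · simp only [range_zero, sum_empty, norm_zero]; exact mul_nonneg hM0 (hf0 0)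
  rw [sum_range_by_parts]
  have h1 : ‖f (N - 1) • ∑ i ∈ range N, c i‖ ≤ f (N - 1) * M := by
    rw [norm_smul, Real.norm_eq_abs, abs_of_nonneg (hf0 _)]
    exact mul_le_mul_of_nonneg_left (hM N) (hf0 _)
  have h2 : ‖∑ i ∈ range (N - 1), (f (i + 1) - f i) • ∑ k ∈ range (i + 1), c k‖ ≤ (f 0 - f (N - 1)) * M := by
    calc _ ≤ ∑ i ∈ range (N - 1), ‖(f (i + 1) - f i) • ∑ k ∈ range (i + 1), c k‖ := norm_sum_le _ _
      _ ≤ ∑ i ∈ range (N - 1), (f i - f (i + 1)) * M := by
          apply Finset.sum_le_sum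
          intro i _
          rw [norm_smul, Real.norm_eq_abs, abs_of_nonpos (by linarith [hf i]), neg_sub]
          exact mul_le_mul_of_nonneg_left (hM _) (by linarith [hf i])
      _ = (f 0 - f (N - 1)) * M := by
          rw [← Finset.sum_mul, Finset.sum_range_sub']
  calc _ ≤ f (N - 1) * M + (f 0 - f (N - 1)) * M := (norm_sub_le _ _).trans (add_le_add h1 h2)
    _ = M * f 0 := by ring

theorem charSum_period {q : ℕ} (hq : 1 ≤ q) (χ : DirichletCharacter ℂ q) (hχ : χ ≠ 1) (X : ℕ) :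
    ∑ i ∈ range q, χ ((X + i : ℕ) : ZMod q) = 0 := by
  have : NeZero q := ⟨by omega⟩
  have h := MulChar.sum_eq_zero_of_ne_one hχ
  rw [← h]
  apply Finset.sum_bij (fun i _ => ((X + i : ℕ) : ZMod q))
  · intro i _; exact Finset.mem_univ _
  · intro i hi k hk hik
    rw [ZMod.natCast_eq_natCast_iff] at hik
    have h2 : i ≡ k [MOD q] := Nat.ModEq.add_left_cancel' X hik
    exact Nat.ModEq.eq_of_lt_of_lt h2 (Finset.mem_range.mp hi) (Finset.mem_range.mp hk)
  · intro b _
    have hinj : Set.InjOn (fun i : ℕ => ((X + i : ℕ) : ZMod q)) (range q : Finset ℕ) := by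
      intro i hi k hk hik
      simp only [ZMod.natCast_eq_natCast_iff] at hik
      have h2 : i ≡ k [MOD q] := Nat.ModEq.add_left_cancel' X hik
      exact Nat.ModEq.eq_of_lt_of_lt h2 (Finset.mem_range.mp hi) (Finset.mem_range.mp hk)
    have himg : (range q).image (fun i : ℕ => ((X + i : ℕ) : ZMod q)) = Finset.univ := by
      apply Finset.eq_univ_of_card
      rw [Finset.card_image_of_injOn hinj, card_range, ZMod.card]
    have hb : b ∈ (range q).image (fun i : ℕ => ((X + i : ℕ) : ZMod q)) := by rw [himg]; exact Finset.mem_univ _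
    rw [Finset.mem_image] at hb
    obtain ⟨i, hi, hib⟩ := hb
    exact ⟨i, hi, hib⟩
  · intro i _; rfl

theorem charSum_bound {q : ℕ} (hq : 1 ≤ q) (χ : DirichletCharacter ℂ q) (hχ : χ ≠ 1) (X N : ℕ) :
    ‖∑ i ∈ range N, χ ((X + i : ℕ) : ZMod q)‖ ≤ q := by
  have hper : Function.Periodic (fun N : ℕ => ∑ i ∈ range N, χ ((X + i : ℕ) : ZMod q)) q := by
    intro N
    show ∑ i ∈ range (N + q), χ ((X + i : ℕ) : ZMod q) = ∑ i ∈ range N, χ ((X + i : ℕ) : ZMod q)
    rw [Finset.sum_range_add]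
    have h := charSum_period hq χ hχ (X + N)
    have h2 : ∑ x ∈ range q, χ ((X + (N + x) : ℕ) : ZMod q) = 0 := by
      rw [← h]; apply Finset.sum_congr rfl; intro i _; rw [Nat.add_assoc]
    rw [h2, add_zero]
  have h1 := hper.map_mod_nat N
  rw [← h1]
  calc _ ≤ ∑ i ∈ range (N % q), ‖χ ((X + i : ℕ) : ZMod q)‖ := norm_sum_le _ _
    _ ≤ ∑ i ∈ range (N % q), (1 : ℝ) := Finset.sum_le_sum fun i _ => DirichletCharacter.norm_le_one χ _
    _ = ((N % q : ℕ) : ℝ) := by simp
    _ ≤ q := by exact_mod_cast (Nat.mod_lt N (by omega)).le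

theorem log_rpow_antitone (j : ℕ) {δ : ℝ} (hδ : 0 < δ) {x y : ℝ} (hx : Real.exp j ≤ x) (hxy : x ≤ y) :
    Real.log y ^ j * y ^ (-1 - δ) ≤ Real.log x ^ j * x ^ (-1 - δ) := by
  have hx0 : 0 < x := lt_of_lt_of_le (Real.exp_pos _) hx
  have hx1 : 1 ≤ x := le_trans (Real.one_le_exp (by positivity)) hx
  have hy0 : 0 < y := lt_of_lt_of_le hx0 hxy
  rcases Nat.eq_zero_or_pos j with rfl | hj
  · simp only [pow_zero, one_mul]
    exact Real.rpow_le_rpow_of_nonpos hx0 hxy (by linarith)
  · have hj' : (0 : ℝ) < j := by exact_mod_cast hj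
    set a : ℝ := (1 + δ) / j with ha
    have ha0 : 0 < a := by positivity
    have key : ∀ z : ℝ, 0 < z → Real.log z ^ j * z ^ (-1 - δ) = (Real.log z / z ^ a) ^ j := by
      intro z hz
      rw [div_pow, ← Real.rpow_natCast (z ^ a) j, ← Real.rpow_mul hz.le, ha, div_mul_cancel₀ _ hj'.ne',
        div_eq_mul_inv, ← Real.rpow_neg hz.le]
      congr 2; ring
    rw [key y hy0, key x hx0]
    apply pow_le_pow_left₀
    · exact div_nonneg (Real.log_nonneg (hx1.trans hxy)) (Real.rpow_nonneg hy0.le _)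
    · apply Real.log_div_self_rpow_antitoneOn ha0 _ _ hxy
      · show Real.exp a⁻¹ ≤ x
        refine le_trans (Real.exp_le_exp.mpr ?_) hx
        rw [ha, inv_div, div_le_iff₀ (by linarith)]
        nlinarith
      · show Real.exp a⁻¹ ≤ y
        refine le_trans (le_trans (Real.exp_le_exp.mpr ?_) hx) hxy
        rw [ha, inv_div, div_le_iff₀ (by linarith)]
        nlinarith

theorem s1 : S1 := by
  intro j
  refine ⟨2 * ((j : ℝ) + 2) ^ (j + 1), by positivity, ?_⟩
  intro q hq χ hχ δ hδ hδ1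
  set K : ℕ := ⌈Real.exp j⌉₊ with hK
  have hK1 : 1 ≤ K := Nat.one_le_iff_ne_zero.mpr (by rw [hK]; exact (Nat.ceil_pos.mpr (Real.exp_pos _)).ne')
  have hKe : Real.exp j ≤ K := Nat.le_ceil _
  have hKu : (K : ℝ) ≤ Real.exp (j + 1) := by
    have h1 : (K : ℝ) < Real.exp j + 1 := Nat.ceil_lt_add_one (Real.exp_pos _).le
    have h2 : Real.exp (j + 1) = Real.exp j * Real.exp 1 := by rw [Real.exp_add]
    have h3 : (2 : ℝ) ≤ Real.exp 1 := by have := Real.add_one_le_exp (1 : ℝ); linarith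
    have h4 : (1 : ℝ) ≤ Real.exp j := Real.one_le_exp (by positivity)
    rw [h2]; nlinarith
  set X : ℕ := q * K with hX
  have hq0 : (1 : ℝ) ≤ q := by exact_mod_cast hq
  have hX1 : 1 ≤ X := Nat.one_le_iff_ne_zero.mpr (Nat.mul_ne_zero (by omega) (by omega))
  have hXr : (1 : ℝ) ≤ X := by exact_mod_cast hX1
  have hXK : (K : ℝ) ≤ X := by
    rw [hX]; push_cast; have : (0 : ℝ) ≤ K := by positivity
    nlinarith
  have hXq : (q : ℝ) ≤ X := by
    rw [hX]; push_cast; have : (1 : ℝ) ≤ K := by exact_mod_cast hK1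
    nlinarith
  have hlogX : Real.log X ≤ Real.log q + (j + 1) := by
    rw [hX]; push_cast
    rw [Real.log_mul (by positivity) (by positivity)]
    have : Real.log K ≤ j + 1 := by
      rw [Real.log_le_iff_le_exp (by positivity)]; exact hKu
    linarith
  have hlogX0 : 0 ≤ Real.log X := Real.log_nonneg hXr
  have hlogq0 : 0 ≤ Real.log q := Real.log_nonneg hq0
  -- the series
  set F : ℕ → ℂ := fun n => χ (n : ZMod q) * ((Real.log n ^ j * (n : ℝ) ^ (-1 - δ) : ℝ) : ℂ) with hF
  have hFn : ∀ n, ‖F n‖ ≤ Real.log n ^ j * (n : ℝ) ^ (-1 - δ) := by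
    intro n
    rw [hF]; simp only
    rw [norm_mul, Complex.norm_real, Real.norm_eq_abs, abs_of_nonneg (term_nonneg' j δ n)]
    have := DirichletCharacter.norm_le_one χ (n : ZMod q)
    nlinarith [term_nonneg' j δ n]
  have hFs : Summable F := Summable.of_norm_bounded (summable_log_pow j hδ) hFn
  have hLL : LL χ j δ = ∑ n ∈ range X, F n + ∑' n, F (n + X) := (hFs.sum_add_tsum_nat_add X).symm
  -- head
  have hhead : ‖∑ n ∈ range X, F n‖ ≤ Real.log X ^ j * (1 + Real.log X) := by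
    have hstep : ∀ n ∈ range X, ‖F n‖ ≤ Real.log X ^ j * ((n : ℝ)⁻¹) := by
      intro n hn
      refine (hFn n).trans ?_
      rcases Nat.eq_zero_or_pos n with rfl | hn0
      · rw [Nat.cast_zero, Real.zero_rpow (by linarith), mul_zero]
        positivity
      · have h1 : (1 : ℝ) ≤ n := by exact_mod_cast hn0
        have h2 : (n : ℝ) ≤ X := by exact_mod_cast (Finset.mem_range.mp hn).le
        apply mul_le_mul _ _ (by positivity) (by positivity)
        · exact pow_le_pow_left₀ (Real.log_nonneg h1) (Real.log_le_log (by linarith) h2) j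
        · rw [← Real.rpow_neg_one]
          exact Real.rpow_le_rpow_of_exponent_le h1 (by linarith)
    calc _ ≤ ∑ n ∈ range X, ‖F n‖ := norm_sum_le _ _
      _ ≤ ∑ n ∈ range X, Real.log X ^ j * ((n : ℝ)⁻¹) := Finset.sum_le_sum hstep
      _ = Real.log X ^ j * ∑ n ∈ range X, ((n : ℝ)⁻¹) := by rw [Finset.mul_sum]
      _ ≤ Real.log X ^ j * (1 + Real.log X) := by
          apply mul_le_mul_of_nonneg_left _ (by positivity)
          have h1 := harmonic_le_one_add_log X
          rw [harmonic_eq_sum_Icc] at h1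
          push_cast at h1
          refine le_trans ?_ h1
          rw [Finset.range_eq_Ico, ← Finset.sum_subset (s₁ := Finset.Ico 1 X) (s₂ := Finset.Ico 0 X)]
          · apply Finset.sum_le_sum_of_subset_of_nonneg
            · intro i hi; rw [Finset.mem_Ico] at hi; rw [Finset.mem_Icc]; omega
            · intro i _ _; positivity
          · intro i hi; rw [Finset.mem_Ico] at hi ⊢; omega
          · intro i hi hi2
            rw [Finset.mem_Ico] at hi hi2
            have : i = 0 := by omega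
            rw [this]; simp
  -- tail
  have htail : ‖∑' n, F (n + X)‖ ≤ Real.log X ^ j := by
    have hs : Summable fun n => F (n + X) := (summable_nat_add_iff X).mpr hFs
    have ht := hs.hasSum.tendsto_sum_nat
    refine le_of_tendsto ht.norm (Filter.Eventually.of_forall fun N => ?_)
    set g : ℕ → ℝ := fun n => Real.log ((n + X : ℕ) : ℝ) ^ j * (((n + X : ℕ) : ℝ)) ^ (-1 - δ) with hg
    have h1 : ∑ i ∈ range N, F (i + X) = ∑ i ∈ range N, g i • χ ((X + i : ℕ) : ZMod q) := by
      apply Finset.sum_congr rfl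
      intro i _
      rw [hF, hg]
      simp only [Complex.real_smul]
      rw [mul_comm, Nat.add_comm X i]
    rw [h1]
    have h2 := abel_bound (fun i => χ ((X + i : ℕ) : ZMod q)) g (fun n => term_nonneg' j δ (n + X)) (by
      intro n
      rw [hg]; simp only
      apply log_rpow_antitone j hδ
      · refine le_trans (hKe.trans hXK) ?_
        push_cast; linarith [show (0 : ℝ) ≤ n from Nat.cast_nonneg n]
      · push_cast; linarith) q (charSum_bound hq χ hχ X) N
    refine h2.trans ?_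
    rw [hg]; simp only [Nat.zero_add]
    have h3 : (X : ℝ) ^ (-1 - δ) ≤ (X : ℝ)⁻¹ := by
      rw [← Real.rpow_neg_one]
      exact Real.rpow_le_rpow_of_exponent_le hXr (by linarith)
    have h4 : (q : ℝ) * (X : ℝ)⁻¹ ≤ 1 := by
      rw [mul_inv_le_iff₀ (by linarith)]; linarith
    calc (q : ℝ) * (Real.log X ^ j * (X : ℝ) ^ (-1 - δ)) ≤ (q : ℝ) * (Real.log X ^ j * (X : ℝ)⁻¹) := by
          apply mul_le_mul_of_nonneg_left _ (by linarith)
          exact mul_le_mul_of_nonneg_left h3 (by positivity)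
      _ = Real.log X ^ j * ((q : ℝ) * (X : ℝ)⁻¹) := by ring
      _ ≤ Real.log X ^ j * 1 := mul_le_mul_of_nonneg_left h4 (by positivity)
      _ = Real.log X ^ j := mul_one _
  have hle : 1 + Real.log X ≤ ((j : ℝ) + 2) * (1 + Real.log q) := by
    have : (0 : ℝ) ≤ j := Nat.cast_nonneg j
    nlinarith
  calc ‖LL χ j δ‖ ≤ Real.log X ^ j * (1 + Real.log X) + Real.log X ^ j := by
        rw [hLL]; exact (norm_add_le _ _).trans (add_le_add hhead htail)
    _ ≤ (1 + Real.log X) ^ j * (1 + Real.log X) + (1 + Real.log X) ^ j * (1 + Real.log X) := by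
        have h1 : Real.log X ^ j ≤ (1 + Real.log X) ^ j := pow_le_pow_left₀ hlogX0 (by linarith) j
        have h2 : 0 ≤ (1 + Real.log X) ^ j := by positivity
        nlinarith
    _ = 2 * (1 + Real.log X) ^ (j + 1) := by rw [pow_succ]; ring
    _ ≤ 2 * (((j : ℝ) + 2) * (1 + Real.log q)) ^ (j + 1) := by
        apply mul_le_mul_of_nonneg_left _ (by norm_num)
        exact pow_le_pow_left₀ (by linarith) hle _
    _ = 2 * ((j : ℝ) + 2) ^ (j + 1) * (1 + Real.log q) ^ (j + 1) := by rw [mul_pow]; ring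

end Pool.Agent.Lib.MP_509488_nt.Unif
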