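import Pool.Agent.Lib.MP_509488_nt.Unif.M2

/-!
# The recursion `(log n)^(j+1) = (log n)^j Σ_{e ∣ n} Λ(e)` for Dirichlet series
-/

namespace Pool.Agent.Lib.MP_509488_nt.Unif

open Filter Topology Finset

/-- The coefficient function `f(n) (log n)^i`. -/
noncomputable def Fi (f : ℕ → ℂ) (i : ℕ) : ℕ → ℂ := fun n => f n * ((Real.log n ^ i : ℝ) : ℂ)

lemma term_Fi (f : ℕ → ℂ) (i : ℕ) (δ : ℝ) (hδ : 0 < δ) (n : ℕ) :
    LSeries.term (Fi f i) ((1 + δ : ℝ) : ℂ) n =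
      f n * ((Real.log n ^ i * (n : ℝ) ^ (-1 - δ) : ℝ) : ℂ) := by
  rcases Nat.eq_zero_or_pos n with h | h
  · subst h
    have : ((0 : ℕ) : ℝ) ^ (-1 - δ) = 0 := by
      rw [Nat.cast_zero, Real.zero_rpow (by linarith)]
    rw [this]
    simp
  · have hn0 : n ≠ 0 := by omega
    have hn1 : (0 : ℝ) < n := by exact_mod_cast h
    rw [LSeries.term_of_ne_zero hn0]
    have e1 : ((n : ℂ)) ^ ((1 + δ : ℝ) : ℂ) = (((n : ℝ) ^ (1 + δ) : ℝ) : ℂ) := by
      rw [Complex.ofReal_cpow hn1.le]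
      simp
    have e2 : (n : ℝ) ^ (-1 - δ) = ((n : ℝ) ^ (1 + δ))⁻¹ := by
      rw [← Real.rpow_neg hn1.le]; congr 1; ring
    rw [e1, e2]
    simp only [Fi]
    push_cast
    rw [div_eq_mul_inv]
    ring

lemma LSeries_Fi (f : ℕ → ℂ) (i : ℕ) (δ : ℝ) (hδ : 0 < δ) :
    LSeries (Fi f i) ((1 + δ : ℝ) : ℂ) = DS f i δ := by
  unfold LSeries DS
  exact tsum_congr fun n => term_Fi f i δ hδ n

lemma summable_DS (f : ℕ → ℂ) (hf : ∀ n, ‖f n‖ ≤ 1) (i : ℕ) (δ : ℝ) (hδ : 0 < δ) :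
    Summable (fun n : ℕ => f n * ((Real.log n ^ i * (n : ℝ) ^ (-1 - δ) : ℝ) : ℂ)) := by
  refine Summable.of_norm_bounded (summable_ZZ i δ hδ) fun n => ?_
  have h0 : 0 ≤ Real.log n ^ i * (n : ℝ) ^ (-1 - δ) := by
    have := Real.log_natCast_nonneg n
    positivity
  rw [norm_mul, Complex.norm_real, Real.norm_eq_abs, abs_of_nonneg h0]
  exact mul_le_of_le_one_left h0 (hf n)

lemma summable_DSL (f : ℕ → ℂ) (hf : ∀ n, ‖f n‖ ≤ 1) (i : ℕ) (δ : ℝ) (hδ : 0 < δ) :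
    Summable (fun n : ℕ => (f n * (ArithmeticFunction.vonMangoldt n : ℝ)) *
      ((Real.log n ^ i * (n : ℝ) ^ (-1 - δ) : ℝ) : ℂ)) := by
  refine Summable.of_norm_bounded (summable_ZZ (i + 1) δ hδ) fun n => ?_
  have hl := Real.log_natCast_nonneg n
  have h0 : 0 ≤ Real.log n ^ i * (n : ℝ) ^ (-1 - δ) := by positivity
  have hv : 0 ≤ (ArithmeticFunction.vonMangoldt n : ℝ) := ArithmeticFunction.vonMangoldt_nonneg
  have hv2 : (ArithmeticFunction.vonMangoldt n : ℝ) ≤ Real.log n :=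
    ArithmeticFunction.vonMangoldt_le_log
  rw [norm_mul, norm_mul, Complex.norm_real, Complex.norm_real, Real.norm_eq_abs, Real.norm_eq_abs,
    abs_of_nonneg h0, abs_of_nonneg hv]
  calc ‖f n‖ * (ArithmeticFunction.vonMangoldt n : ℝ) * (Real.log n ^ i * (n : ℝ) ^ (-1 - δ))
      ≤ 1 * Real.log n * (Real.log n ^ i * (n : ℝ) ^ (-1 - δ)) := by
        gcongr
        exact hf n
    _ = Real.log n ^ (i + 1) * (n : ℝ) ^ (-1 - δ) := by ring

lemma LSeriesSummable_Fi (f : ℕ → ℂ) (hf : ∀ n, ‖f n‖ ≤ 1) (i : ℕ) (δ : ℝ) (hδ : 0 < δ) :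
    LSeriesSummable (Fi f i) ((1 + δ : ℝ) : ℂ) := by
  refine (summable_DS f hf i δ hδ).congr fun n => ?_
  exact (term_Fi f i δ hδ n).symm

lemma LSeriesSummable_FiL (f : ℕ → ℂ) (hf : ∀ n, ‖f n‖ ≤ 1) (i : ℕ) (δ : ℝ) (hδ : 0 < δ) :
    LSeriesSummable (Fi (fun n => f n * (ArithmeticFunction.vonMangoldt n : ℝ)) i)
      ((1 + δ : ℝ) : ℂ) := by
  refine (summable_DSL f hf i δ hδ).congr fun n => ?_
  exact (term_Fi (fun n => f n * (ArithmeticFunction.vonMangoldt n : ℝ)) i δ hδ n).symm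

/-- The pointwise convolution identity. -/
lemma conv_identity (f : ℕ → ℂ) (hm : ∀ a b, f (a * b) = f a * f b) (j n : ℕ) (hn : n ≠ 0) :
    (∑ i ∈ range (j + 1), (fun m => ((j.choose i : ℕ) : ℂ) *
      (LSeries.convolution (Fi (fun n => f n * (ArithmeticFunction.vonMangoldt n : ℝ)) i) (Fi f (j - i))) m)) n
      = Fi f (j + 1) n := by
  rw [Finset.sum_apply]
  simp only [LSeries.convolution_def, Finset.mul_sum]
  rw [Finset.sum_comm]
  have key : ∀ p ∈ n.divisorsAntidiagonal, ∑ i ∈ range (j + 1), ((j.choose i : ℕ) : ℂ) *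
      (Fi (fun n => f n * (ArithmeticFunction.vonMangoldt n : ℝ)) i p.1 * Fi f (j - i) p.2)
      = f n * ((Real.log n ^ j : ℝ) : ℂ) * ((ArithmeticFunction.vonMangoldt p.1 : ℝ) : ℂ) := by
    intro p hp
    rw [Nat.mem_divisorsAntidiagonal] at hp
    obtain ⟨hp, -⟩ := hp
    have h1 : p.1 ≠ 0 := by rintro h; rw [h, zero_mul] at hp; exact hn hp.symm
    have h2 : p.2 ≠ 0 := by rintro h; rw [h, mul_zero] at hp; exact hn hp.symm
    have hlog : Real.log n = Real.log p.1 + Real.log p.2 := by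
      rw [← hp]; push_cast
      exact Real.log_mul (by exact_mod_cast h1) (by exact_mod_cast h2)
    rw [hlog, add_pow, ← hp, hm]
    push_cast
    rw [Finset.mul_sum, Finset.sum_mul]
    refine Finset.sum_congr rfl fun i _ => ?_
    simp only [Fi]
    push_cast
    ring
  rw [Finset.sum_congr rfl key, ← Finset.mul_sum]
  have hs : ∑ p ∈ n.divisorsAntidiagonal, ((ArithmeticFunction.vonMangoldt p.1 : ℝ) : ℂ)
      = ((Real.log n : ℝ) : ℂ) := by
    rw [← ArithmeticFunction.vonMangoldt_sum, Complex.ofReal_sum]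
    exact Nat.sum_divisorsAntidiagonal (n := n)
      (f := fun i _ => ((ArithmeticFunction.vonMangoldt i : ℝ) : ℂ))
  rw [hs]
  simp only [Fi]
  rw [pow_succ]
  push_cast
  ring

/-- The recursion, for completely multiplicative `f` with `|f| ≤ 1`. -/
theorem recursion (f : ℕ → ℂ) (hm : ∀ a b, f (a * b) = f a * f b) (hf : ∀ n, ‖f n‖ ≤ 1)
    (j : ℕ) (δ : ℝ) (hδ : 0 < δ) :
    DS f (j + 1) δ = ∑ i ∈ range (j + 1), (j.choose i : ℂ) *
      DS (fun n => f n * (ArithmeticFunction.vonMangoldt n : ℝ)) i δ * DS f (j - i) δ := by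
  rw [← LSeries_Fi f (j + 1) δ hδ]
  have h1 : LSeries (Fi f (j + 1)) ((1 + δ : ℝ) : ℂ) =
      LSeries (∑ i ∈ range (j + 1), (fun m => ((j.choose i : ℕ) : ℂ) *
      (LSeries.convolution (Fi (fun n => f n * (ArithmeticFunction.vonMangoldt n : ℝ)) i) (Fi f (j - i))) m))
      ((1 + δ : ℝ) : ℂ) :=
    LSeries_congr (fun {n} hn => (conv_identity f hm j n hn).symm) _
  have hsm : ∀ i, LSeriesSummable (fun m => ((j.choose i : ℕ) : ℂ) *
      (LSeries.convolution (Fi (fun n => f n * (ArithmeticFunction.vonMangoldt n : ℝ)) i) (Fi f (j - i))) m)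
      ((1 + δ : ℝ) : ℂ) := fun i =>
    ((LSeriesSummable_FiL f hf i δ hδ).convolution (LSeriesSummable_Fi f hf (j - i) δ hδ)).smul
      ((j.choose i : ℕ) : ℂ)
  rw [h1, LSeries_sum (fun i _ => hsm i)]
  refine Finset.sum_congr rfl fun i _ => ?_
  have h2 := LSeries_smul
    (LSeries.convolution (Fi (fun n => f n * (ArithmeticFunction.vonMangoldt n : ℝ)) i) (Fi f (j - i)))
    ((j.choose i : ℕ) : ℂ) ((1 + δ : ℝ) : ℂ)
  have h3 := LSeries_convolution' (LSeriesSummable_FiL f hf i δ hδ)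
    (LSeriesSummable_Fi f hf (j - i) δ hδ)
  rw [LSeries_Fi _ _ _ hδ, LSeries_Fi _ _ _ hδ] at h3
  rw [h3] at h2
  rw [mul_assoc]
  exact h2

lemma DS_one (j : ℕ) (δ : ℝ) : DS (fun _ => 1) j δ = (ZZ j δ : ℂ) := by
  unfold DS ZZ
  rw [Complex.ofReal_tsum]
  exact tsum_congr fun n => by rw [one_mul]

lemma DS_mangoldt (j : ℕ) (δ : ℝ) :
    DS (fun n => 1 * ((ArithmeticFunction.vonMangoldt n : ℝ) : ℂ)) j δ = (MM j δ : ℂ) := by
  unfold DS MM
  rw [Complex.ofReal_tsum]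
  exact tsum_congr fun n => by push_cast; ring

/-- The recursion for `ζ`, in real numbers. -/
theorem recursion_real (j : ℕ) (δ : ℝ) (hδ : 0 < δ) :
    ZZ (j + 1) δ = ∑ i ∈ range (j + 1), (j.choose i : ℝ) * MM i δ * ZZ (j - i) δ := by
  have h := recursion (fun _ => 1) (by simp) (by simp) j δ hδ
  simp only [DS_one, DS_mangoldt] at h
  exact_mod_cast h

/-- The recursion for Dirichlet characters. -/
theorem recursion_char {q : ℕ} (χ : DirichletCharacter ℂ q) (j : ℕ) (δ : ℝ) (hδ : 0 < δ) :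
    LL χ (j + 1) δ = ∑ i ∈ range (j + 1), (j.choose i : ℂ) * VV χ i δ * LL χ (j - i) δ := by
  refine recursion (fun n => χ (n : ZMod q)) (fun a b => ?_) (fun n => ?_) j δ hδ
  · push_cast; exact map_mul χ _ _
  · exact DirichletCharacter.norm_le_one χ _

end Pool.Agent.Lib.MP_509488_nt.Unif
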