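import Pool.Agent.Lib.MP_509488_nt.Unif.Stmts

/-!
# The recursion `(log n)^(j+1) = (log n)^j * sum_(e | n) Λ(e)` for Dirichlet series at `1 + δ`
-/

namespace Pool.Agent.Lib.MP_509488_nt.Unif.RecA

open Finset

theorem log_pow_le {n : ℕ} (hn : 1 ≤ n) (j : ℕ) {ε : ℝ} (hε : 0 < ε) :
    Real.log n ^ j ≤ (1 / ε) ^ j * (n : ℝ) ^ (j * ε) := by
  have h1 : (1 : ℝ) ≤ n := by exact_mod_cast hn
  have h0 : 0 ≤ Real.log n := Real.log_nonneg h1
  have h2 : Real.log n ≤ (n : ℝ) ^ ε / ε := Real.log_le_rpow_div (by linarith) hε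
  calc Real.log n ^ j ≤ ((n : ℝ) ^ ε / ε) ^ j := pow_le_pow_left₀ h0 h2 j
    _ = (1 / ε) ^ j * (n : ℝ) ^ (j * ε) := by
        rw [div_eq_mul_one_div, mul_pow, ← Real.rpow_natCast ((n : ℝ) ^ ε) j, ← Real.rpow_mul (by linarith),
          mul_comm ε, mul_comm]

theorem term_nonneg' (j : ℕ) (δ : ℝ) (n : ℕ) : 0 ≤ Real.log n ^ j * (n : ℝ) ^ (-1 - δ) := by
  have h0 : 0 ≤ Real.log n := Real.log_natCast_nonneg n
  positivity

theorem summable_log_pow (j : ℕ) {δ : ℝ} (hδ : 0 < δ) :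
    Summable fun n : ℕ => Real.log n ^ j * (n : ℝ) ^ (-1 - δ) := by
  set ε : ℝ := δ / (2 * (j + 1)) with hεdef
  have hj : (0 : ℝ) < 2 * (j + 1) := by positivity
  have hε : 0 < ε := by positivity
  have hs : Summable fun n : ℕ => (1 / ε) ^ j * (n : ℝ) ^ (-1 - δ / 2) := by
    apply Summable.mul_left
    rw [Real.summable_nat_rpow]
    linarith
  refine Summable.of_nonneg_of_le (term_nonneg' j δ) (fun n => ?_) hs
  rcases Nat.eq_zero_or_pos n with rfl | hn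
  · have : ((0 : ℕ) : ℝ) ^ (-1 - δ) = 0 := by
      rw [Nat.cast_zero]; exact Real.zero_rpow (by linarith)
    rw [this, mul_zero]
    positivity
  · have h1 : (0 : ℝ) < n := by exact_mod_cast hn
    have h1' : (1 : ℝ) ≤ n := by exact_mod_cast hn
    calc Real.log n ^ j * (n : ℝ) ^ (-1 - δ)
        ≤ ((1 / ε) ^ j * (n : ℝ) ^ (j * ε)) * (n : ℝ) ^ (-1 - δ) :=
          mul_le_mul_of_nonneg_right (log_pow_le hn j hε) (by positivity)
      _ = (1 / ε) ^ j * (n : ℝ) ^ (j * ε + (-1 - δ)) := by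
          rw [mul_assoc, ← Real.rpow_add h1]
      _ ≤ (1 / ε) ^ j * (n : ℝ) ^ (-1 - δ / 2) := by
          apply mul_le_mul_of_nonneg_left _ (by positivity)
          apply Real.rpow_le_rpow_of_exponent_le h1'
          have : (j : ℝ) * ε ≤ δ / 2 := by
            rw [hεdef]
            rw [mul_div_assoc', div_le_div_iff₀ hj (by norm_num)]
            nlinarith
          linarith

/-- The series of a bounded function with a power of the logarithm. -/
theorem DS_eq_LSeries (f : ℕ → ℂ) (j : ℕ) {δ : ℝ} (hδ : 0 < δ) :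
    DS f j δ = LSeries (fun n => f n * ((Real.log n : ℝ) : ℂ) ^ j) ((1 + δ : ℝ) : ℂ) := by
  unfold DS LSeries
  congr 1
  ext n
  rcases Nat.eq_zero_or_pos n with rfl | hn
  · rw [LSeries.term_zero, Nat.cast_zero, Real.zero_rpow (by linarith), mul_zero]
    simp
  · rw [LSeries.term_of_ne_zero hn.ne']
    have h1 : (0 : ℝ) < n := by exact_mod_cast hn
    have h2 : ((n : ℝ) ^ (-1 - δ) : ℝ) = ((n : ℝ) ^ (1 + δ))⁻¹ := by
      rw [← Real.rpow_neg h1.le]; congr 1; ring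
    rw [h2]
    push_cast
    rw [← Complex.ofReal_natCast n, Complex.ofReal_cpow h1.le]
    push_cast
    rw [div_eq_mul_inv, mul_assoc]

theorem lsummable {f : ℕ → ℂ} {k : ℕ} {C : ℝ} (hf : ∀ n, 1 ≤ n → ‖f n‖ ≤ C * Real.log n ^ k) {δ : ℝ} (hδ : 0 < δ) :
    LSeriesSummable f ((1 + δ : ℝ) : ℂ) := by
  have hs := (summable_log_pow k hδ).mul_left C
  refine Summable.of_norm_bounded hs (fun n => ?_)
  rcases Nat.eq_zero_or_pos n with rfl | hn
  · rw [LSeries.term_zero, Nat.cast_zero, Real.zero_rpow (by linarith)]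
    simp
  · rw [LSeries.norm_term_eq, if_neg hn.ne']
    have h1 : (0 : ℝ) < n := by exact_mod_cast hn
    rw [Complex.ofReal_re, div_eq_mul_inv, ← Real.rpow_neg h1.le, ← mul_assoc]
    apply mul_le_mul (hf n hn) _ (by positivity) ((norm_nonneg _).trans (hf n hn))
    apply le_of_eq; congr 1; ring

theorem lsummable_log {f : ℕ → ℂ} (hf : ∀ n, ‖f n‖ ≤ 1) (j : ℕ) {δ : ℝ} (hδ : 0 < δ) :
    LSeriesSummable (fun n => f n * ((Real.log n : ℝ) : ℂ) ^ j) ((1 + δ : ℝ) : ℂ) := by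
  apply lsummable (k := j) (C := 1) _ hδ
  intro n hn
  rw [norm_mul, norm_pow, Complex.norm_real, Real.norm_eq_abs, abs_of_nonneg (Real.log_natCast_nonneg n)]
  exact mul_le_mul_of_nonneg_right (hf n) (pow_nonneg (Real.log_natCast_nonneg n) _)

theorem lsummable_Λ {f : ℕ → ℂ} (hf : ∀ n, ‖f n‖ ≤ 1) (j : ℕ) {δ : ℝ} (hδ : 0 < δ) :
    LSeriesSummable (fun n => (f n * (ArithmeticFunction.vonMangoldt n : ℝ)) *
      ((Real.log n : ℝ) : ℂ) ^ j) ((1 + δ : ℝ) : ℂ) := by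
  apply lsummable (k := j + 1) (C := 1) _ hδ
  intro n hn
  have h0 := Real.log_natCast_nonneg n
  rw [norm_mul, norm_mul, norm_pow, Complex.norm_real, Complex.norm_real, Real.norm_eq_abs, Real.norm_eq_abs,
    abs_of_nonneg h0, abs_of_nonneg ArithmeticFunction.vonMangoldt_nonneg, pow_succ', ← mul_assoc]
  apply mul_le_mul_of_nonneg_right _ (pow_nonneg h0 _)
  exact mul_le_mul (hf n) ArithmeticFunction.vonMangoldt_le_log ArithmeticFunction.vonMangoldt_nonneg (by norm_num)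

/-- Pointwise form of the recursion. -/
theorem log_pow_succ_eq {f : ℕ → ℂ} (hf : ∀ m n, f (m * n) = f m * f n) (j : ℕ) {n : ℕ} (hn : n ≠ 0) :
    f n * ((Real.log n : ℝ) : ℂ) ^ (j + 1) =
      ∑ i ∈ range (j + 1), (j.choose i : ℂ) *
        ∑ p ∈ n.divisorsAntidiagonal,
          ((f p.1 * (ArithmeticFunction.vonMangoldt p.1 : ℝ)) * ((Real.log p.1 : ℝ) : ℂ) ^ i) *
          (f p.2 * ((Real.log p.2 : ℝ) : ℂ) ^ (j - i)) := by
  have h1 : ((Real.log n : ℝ) : ℂ) = ∑ p ∈ n.divisorsAntidiagonal, ((ArithmeticFunction.vonMangoldt p.1 : ℝ) : ℂ) := by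
    rw [← ArithmeticFunction.vonMangoldt_sum (n := n), ← Nat.map_div_right_divisors, Finset.sum_map]
    push_cast
    rfl
  have h2 : f n * ((Real.log n : ℝ) : ℂ) ^ (j + 1) = ∑ p ∈ n.divisorsAntidiagonal,
      (f n * ((Real.log n : ℝ) : ℂ) ^ j) * ((ArithmeticFunction.vonMangoldt p.1 : ℝ) : ℂ) := by
    rw [← Finset.mul_sum, ← h1, pow_succ]; ring
  rw [h2]
  simp_rw [Finset.mul_sum]
  rw [Finset.sum_comm]
  apply Finset.sum_congr rfl
  intro p hp
  rw [Nat.mem_divisorsAntidiagonal] at hp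
  obtain ⟨hp1, hp2⟩ := hp
  have ha : p.1 ≠ 0 := by rintro h; rw [h] at hp1; simp at hp1; exact hn hp1.symm
  have hb : p.2 ≠ 0 := by rintro h; rw [h] at hp1; simp at hp1; exact hn hp1.symm
  have hlog : ((Real.log n : ℝ) : ℂ) = ((Real.log p.1 : ℝ) : ℂ) + ((Real.log p.2 : ℝ) : ℂ) := by
    rw [← hp1, Nat.cast_mul, Real.log_mul (by exact_mod_cast ha) (by exact_mod_cast hb)]
    push_cast; rfl
  have hfn : f n = f p.1 * f p.2 := by rw [← hp1, hf]
  rw [hlog, add_pow, hfn, Finset.mul_sum, Finset.sum_mul]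
  apply Finset.sum_congr rfl
  intro i _
  ring

/-- **Recursion** for completely multiplicative bounded `f`. -/
theorem DS_rec {f : ℕ → ℂ} (hf : ∀ m n, f (m * n) = f m * f n) (hb : ∀ n, ‖f n‖ ≤ 1) (j : ℕ) {δ : ℝ} (hδ : 0 < δ) :
    DS f (j + 1) δ = ∑ i ∈ range (j + 1), (j.choose i : ℂ) *
      (DS (fun n => f n * (ArithmeticFunction.vonMangoldt n : ℝ)) i δ * DS f (j - i) δ) := by
  have hprod : ∀ i, DS (fun n => f n * (ArithmeticFunction.vonMangoldt n : ℝ)) i δ * DS f (j - i) δ =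
      LSeries (LSeries.convolution
        (fun n => (f n * (ArithmeticFunction.vonMangoldt n : ℝ)) * ((Real.log n : ℝ) : ℂ) ^ i)
        (fun n => f n * ((Real.log n : ℝ) : ℂ) ^ (j - i))) ((1 + δ : ℝ) : ℂ) := by
    intro i
    rw [DS_eq_LSeries _ _ hδ, DS_eq_LSeries _ _ hδ, LSeries_convolution' (lsummable_Λ hb i hδ) (lsummable_log hb _ hδ)]
  simp_rw [hprod]
  rw [DS_eq_LSeries _ _ hδ]
  have hsum : ∀ i, LSeriesSummable (LSeries.convolution
        (fun n => (f n * (ArithmeticFunction.vonMangoldt n : ℝ)) * ((Real.log n : ℝ) : ℂ) ^ i)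
        (fun n => f n * ((Real.log n : ℝ) : ℂ) ^ (j - i))) ((1 + δ : ℝ) : ℂ) := fun i =>
    (lsummable_Λ hb i hδ).convolution (lsummable_log hb _ hδ)
  unfold LSeries
  simp_rw [← tsum_mul_left]
  rw [← Summable.tsum_finsetSum (fun i _ => (hsum i).mul_left _)]
  congr 1
  ext n
  rcases eq_or_ne n 0 with rfl | hn
  · simp [LSeries.term_zero]
  · simp_rw [LSeries.term_of_ne_zero hn, LSeries.convolution_def]
    rw [log_pow_succ_eq hf j hn, Finset.sum_div]
    apply Finset.sum_congr rfl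
    intro i _
    rw [mul_div_assoc]

theorem DS_one (j : ℕ) (δ : ℝ) : DS (fun _ => 1) j δ = ((ZZ j δ : ℝ) : ℂ) := by
  unfold DS ZZ
  rw [Complex.ofReal_tsum]
  simp only [one_mul]

theorem DS_oneΛ (j : ℕ) (δ : ℝ) :
    DS (fun n => (1 : ℂ) * (ArithmeticFunction.vonMangoldt n : ℝ)) j δ = ((MM j δ : ℝ) : ℂ) := by
  unfold DS MM
  rw [Complex.ofReal_tsum]
  congr 1
  ext n
  push_cast
  ring

/-- **Recursion** for `f = 1` (the moments of the primes). -/
theorem ZZ_rec (j : ℕ) {δ : ℝ} (hδ : 0 < δ) :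
    ZZ (j + 1) δ = ∑ i ∈ range (j + 1), (j.choose i : ℝ) * (MM i δ * ZZ (j - i) δ) := by
  have h := DS_rec (f := fun _ => (1 : ℂ)) (fun _ _ => by simp) (fun _ => by simp) j hδ
  simp only [DS_oneΛ, DS_one] at h
  exact_mod_cast h

/-- **Recursion** for a Dirichlet character. -/
theorem LL_rec {q : ℕ} (χ : DirichletCharacter ℂ q) (j : ℕ) {δ : ℝ} (hδ : 0 < δ) :
    LL χ (j + 1) δ = ∑ i ∈ range (j + 1), (j.choose i : ℂ) * (VV χ i δ * LL χ (j - i) δ) :=
  DS_rec (f := fun n => χ (n : ZMod q)) (fun m n => by push_cast; rw [map_mul])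
    (fun n => DirichletCharacter.norm_le_one χ _) j hδ

theorem MM_nonneg (j : ℕ) (δ : ℝ) : 0 ≤ MM j δ :=
  tsum_nonneg fun n => mul_nonneg ArithmeticFunction.vonMangoldt_nonneg (term_nonneg' j δ n)

theorem ZZ_nonneg (j : ℕ) (δ : ℝ) : 0 ≤ ZZ j δ :=
  tsum_nonneg fun n => term_nonneg' j δ n

end Pool.Agent.Lib.MP_509488_nt.Unif.RecA
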