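import Pool.Agent.Lib.MP_509488_nt.Unif.Stmts3
import Pool.Agent.Lib.MP_509488_nt.Unif.StmtsU

/-!
# The bounds for `r` in terms of `w`: apply `RBound1`, ... with `N' = ⌈exp w⌉`
-/

namespace Pool.Agent.Lib.MP_509488_nt.Unif

open Finset

theorem ceil_exp {N N₁ : ℕ} {w : ℝ} (hw : Real.log N ≤ w) (hN : ⌈Real.exp 2⌉₊ + N₁ ≤ N) :
    N₁ ≤ ⌈Real.exp w⌉₊ ∧ N ≤ ⌈Real.exp w⌉₊ ∧ w ≤ Real.log ⌈Real.exp w⌉₊ ∧ 2 ≤ w ∧
      ∀ A : ℕ, Real.log (⌈Real.exp w⌉₊ : ℕ) ^ A ≤ w ^ (2 * A) := by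
  have h1 : Real.exp 2 ≤ N := (Nat.le_ceil _).trans (by exact_mod_cast (by omega : ⌈Real.exp 2⌉₊ ≤ N))
  have hN0 : (0 : ℝ) < N := (Real.exp_pos _).trans_le h1
  have h2 : 2 ≤ Real.log N := by rw [Real.le_log_iff_exp_le hN0]; exact h1
  have hw2 : 2 ≤ w := h2.trans hw
  have h3 : (N : ℝ) ≤ Real.exp w := by
    rw [← Real.exp_log hN0]; exact Real.exp_le_exp.2 hw
  have h4 : N ≤ ⌈Real.exp w⌉₊ := by
    have : (N : ℝ) ≤ (⌈Real.exp w⌉₊ : ℝ) := h3.trans (Nat.le_ceil _)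
    exact_mod_cast this
  have h5 : w ≤ Real.log ⌈Real.exp w⌉₊ := by
    rw [Real.le_log_iff_exp_le (by
      have : (N : ℝ) ≤ (⌈Real.exp w⌉₊ : ℝ) := by exact_mod_cast h4
      linarith)]
    exact Nat.le_ceil _
  have h6 : Real.log ⌈Real.exp w⌉₊ ≤ w ^ 2 := by
    have h7 : (⌈Real.exp w⌉₊ : ℝ) ≤ Real.exp w + 1 := (Nat.ceil_lt_add_one (Real.exp_pos _).le).le
    have h8 : Real.exp w + 1 ≤ Real.exp (w + 1) := by
      rw [Real.exp_add]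
      have h9 : (1 : ℝ) ≤ Real.exp w := Real.one_le_exp (by linarith)
      have h10 : (2 : ℝ) ≤ Real.exp 1 := by
        have := Real.add_one_le_exp (1 : ℝ)
        linarith
      nlinarith
    have h11 : Real.log ⌈Real.exp w⌉₊ ≤ w + 1 := by
      rw [← Real.log_exp (w + 1)]
      apply Real.log_le_log _ (h7.trans h8)
      have : (N : ℝ) ≤ (⌈Real.exp w⌉₊ : ℝ) := by exact_mod_cast h4
      linarith
    nlinarith
  refine ⟨by omega, h4, h5, hw2, fun A => ?_⟩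
  rw [pow_mul]
  exact pow_le_pow_left₀ (by linarith) h6 A

/-- UR1. -/
theorem ru1 (h : RBound1) : RU1 := by
  obtain ⟨A, N₁, h⟩ := h 1
  refine ⟨2 * A, ⌈Real.exp 2⌉₊ + N₁, ?_⟩
  intro N hN w hw x y p q r l z e₁ e₂ hx hxN hy hyN hxy hp hq hr hl hlx hlw he₁ he₂ hz heq hs
  obtain ⟨h1, h2, h3, h4, h5⟩ := ceil_exp hw hN
  exact (h _ h1 x y p q r l z e₁ e₂ hx (hxN.trans h2) hy (hyN.trans h2) hxy hp hq hr hl hlx
    (by rw [pow_one]; exact hlw.trans h3) he₁ he₂ hz heq hs).trans (h5 A)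

/-- UR2. -/
theorem ru2 (h : RBound2) : RU2 := by
  obtain ⟨A, N₁, h⟩ := h 1
  refine ⟨2 * A, ⌈Real.exp 2⌉₊ + N₁, ?_⟩
  intro N hN w hw x y p q r l z e₁ e₂ hx hxN hy hyN hxy hp hq hr hl hlx hlw he₁ he₂ hz heq hs
  obtain ⟨h1, h2, h3, h4, h5⟩ := ceil_exp hw hN
  exact (h _ h1 x y p q r l z e₁ e₂ hx (hxN.trans h2) hy (hyN.trans h2) hxy hp hq hr hl hlx
    (by rw [pow_one]; exact hlw.trans h3) he₁ he₂ hz heq hs).trans (h5 A)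

/-- UR3. -/
theorem ru3 (h : RBound3) : RU3 := by
  obtain ⟨A, N₁, h⟩ := h 1
  refine ⟨2 * A, ⌈Real.exp 2⌉₊ + N₁, ?_⟩
  intro N hN w hw x y p q r z e₁ e₂ hx hxN hy hyN hxy hxo hyo hp hq hpw hqw hr he₁ he₂ heq
  obtain ⟨h1, h2, h3, h4, h5⟩ := ceil_exp hw hN
  exact (h _ h1 x y p q r z e₁ e₂ hx (hxN.trans h2) hy (hyN.trans h2) hxy hxo hyo hp hq
    (by rw [pow_one]; exact hpw.trans (Real.exp_le_exp.2 h3))
    (by rw [pow_one]; exact hqw.trans (Real.exp_le_exp.2 h3)) hr he₁ he₂ heq).trans (h5 A)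

end Pool.Agent.Lib.MP_509488_nt.Unif
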